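import Mathlib

/-! The continuous-time critical beta-splitting tree: the law of the leaf heights and the
recurrence for the distribution function of the tree height. -/

namespace Pool.Agent.Q287.CB

open MeasureTheory ProbabilityTheory Set Filter Topology
open scoped ENNReal

/-- the harmonic numbers -/
noncomputable def harm (k : ℕ) : ℝ := ∑ i ∈ Finset.range k, 1 / ((i : ℝ) + 1)

/-- the splitting probabilities `q(m,i) = m / (2 h_{m-1}) · 1 / (i (m-i))` -/
noncomputable def q (m i : ℕ) : ℝ := (m : ℝ) / (2 * harm (m - 1)) * (1 / ((i : ℝ) * ((m : ℝ) - i)))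

/-- putting the heights of a tree with `i` leaves and of a second tree above a root edge -/
def glue (i : ℕ) (w : ℝ × (ℕ → ℝ) × (ℕ → ℝ)) : ℕ → ℝ :=
  fun k => w.1 + if k < i then w.2.1 k else w.2.2 (k - i)

/-- The joint law of the heights of the `m` leaves of the critical beta-splitting tree with `m`
leaves (entry `k < m` is the height of the `k`-th leaf, in the left-to-right order of the leaves;
the other entries are irrelevant): the root block of size `m ≥ 2` waits an exponential time of rate
`h_{m-1}` and splits into blocks of sizes `i` and `m - i` with probability `q(m,i)`, `1 ≤ i ≤ m - 1`,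
which then evolve independently. -/
noncomputable def leafLaw : ℕ → Measure (ℕ → ℝ)
  | 0 => Measure.dirac 0
  | 1 => Measure.dirac 0
  | (n + 2) => ∑ k : Fin (n + 1), ENNReal.ofReal (q (n + 2) (k + 1)) •
      ((expMeasure (harm (n + 1))).prod
        ((leafLaw (k + 1)).prod (leafLaw (n + 1 - k)))).map (glue (k + 1))

/-- the height of a tree with `n` leaves with leaf heights `H`: the maximal leaf height -/
noncomputable def treeHeight (n : ℕ) (H : ℕ → ℝ) : ℝ := ⨆ k : Fin n, H k

lemma measurable_glue (i : ℕ) : Measurable (glue i) := by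
  apply measurable_pi_lambda
  intro k
  unfold glue
  by_cases hk : k < i
  · simp only [hk, if_true]
    exact measurable_fst.add ((measurable_pi_apply k).comp (measurable_fst.comp measurable_snd))
  · simp only [hk, if_false]
    exact measurable_fst.add ((measurable_pi_apply (k - i)).comp (measurable_snd.comp measurable_snd))

lemma harm_pos {k : ℕ} (hk : 0 < k) : 0 < harm k := by
  unfold harm
  apply Finset.sum_pos
  · intro i _; positivity
  · simp; omega

lemma harm_succ (k : ℕ) : harm (k + 1) = harm k + 1 / ((k : ℝ) + 1) := by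
  unfold harm; rw [Finset.sum_range_succ]

lemma one_le_harm (k : ℕ) : 1 ≤ harm (k + 1) := by
  induction k with
  | zero => simp [harm]
  | succ k ih =>
    rw [harm_succ]
    have : (0:ℝ) < 1 / (((k + 1 : ℕ) : ℝ) + 1) := by positivity
    linarith

/-- `h q(m,i) = (1/i + 1/(m-i))/2` -/
lemma harm_mul_q (n : ℕ) {k : ℕ} (hk : k < n + 1) :
    harm (n + 1) * q (n + 2) (k + 1) = (1 / ((k : ℝ) + 1) + 1 / ((n : ℝ) + 1 - k)) / 2 := by
  have h1 := harm_pos (Nat.succ_pos n)
  have h2 : (0:ℝ) < (k : ℝ) + 1 := by positivity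
  have h3 : (0:ℝ) < (n : ℝ) + 1 - k := by
    have : (k : ℝ) < (n : ℝ) + 1 := by exact_mod_cast hk
    linarith
  unfold q
  have e1 : n + 2 - 1 = n + 1 := by omega
  rw [e1]
  push_cast
  have h4 : (n : ℝ) + 2 - (k + 1) = (n : ℝ) + 1 - k := by ring
  rw [h4]
  field_simp
  ring

lemma q_nonneg (n : ℕ) {k : ℕ} (hk : k < n + 1) : 0 ≤ q (n + 2) (k + 1) := by
  have h1 := harm_pos (Nat.succ_pos n)
  have h3 : (0:ℝ) < (n : ℝ) + 1 - k := by
    have : (k : ℝ) < (n : ℝ) + 1 := by exact_mod_cast hk
    linarith
  have h2 := harm_mul_q n hk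
  have h4 : 0 ≤ harm (n + 1) * q (n + 2) (k + 1) := by
    rw [h2]; positivity
  exact nonneg_of_mul_nonneg_right h4 h1

lemma sum_reflect (n : ℕ) (f : ℕ → ℝ) :
    ∑ k ∈ Finset.range (n + 1), f k = ∑ k ∈ Finset.range (n + 1), f (n - k) := by
  rw [← Finset.sum_range_reflect]
  rfl

/-- the splitting probabilities sum to one -/
lemma sum_q (n : ℕ) : ∑ k ∈ Finset.range (n + 1), q (n + 2) (k + 1) = 1 := by
  have h1 := harm_pos (Nat.succ_pos n)
  have h2 : harm (n + 1) * ∑ k ∈ Finset.range (n + 1), q (n + 2) (k + 1) = harm (n + 1) := by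
    rw [Finset.mul_sum]
    rw [Finset.sum_congr rfl (fun k hk => harm_mul_q n (Finset.mem_range.1 hk))]
    rw [← Finset.sum_div, Finset.sum_add_distrib]
    have h3 : ∑ k ∈ Finset.range (n + 1), 1 / ((n : ℝ) + 1 - k) = harm (n + 1) := by
      rw [sum_reflect]
      unfold harm
      apply Finset.sum_congr rfl
      intro k hk
      have hk' : k ≤ n := by have := Finset.mem_range.1 hk; omega
      rw [Nat.cast_sub hk']
      congr 1
      ring
    rw [h3]
    have h4 : ∑ k ∈ Finset.range (n + 1), 1 / ((k : ℝ) + 1) = harm (n + 1) := rfl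
    rw [h4]
    ring
  have h5 : harm (n + 1) * (∑ k ∈ Finset.range (n + 1), q (n + 2) (k + 1) - 1) = 0 := by
    rw [mul_sub, h2]; ring
  rcases mul_eq_zero.1 h5 with h6 | h6
  · exact absurd h6 h1.ne'
  · linarith

lemma leafLaw_eq (n : ℕ) : leafLaw (n + 2) = ∑ k : Fin (n + 1),
    ENNReal.ofReal (q (n + 2) (k + 1)) • ((expMeasure (harm (n + 1))).prod
        ((leafLaw (k + 1)).prod (leafLaw (n + 1 - k)))).map (glue (k + 1)) := by
  rw [leafLaw]

instance leafLaw_prob (m : ℕ) : IsProbabilityMeasure (leafLaw m) := by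
  induction m using Nat.strong_induction_on with
  | _ m ih =>
    match m, ih with
    | 0, _ => rw [leafLaw]; infer_instance
    | 1, _ => rw [leafLaw]; infer_instance
    | (n + 2), ih =>
      rw [leafLaw_eq]
      constructor
      rw [Measure.finsetSum_apply]
      have h1 : ∀ k : Fin (n + 1), (ENNReal.ofReal (q (n + 2) (k + 1)) •
          ((expMeasure (harm (n + 1))).prod
            ((leafLaw (k + 1)).prod (leafLaw (n + 1 - k)))).map (glue (k + 1))) Set.univ =
          ENNReal.ofReal (q (n + 2) (k + 1)) := by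
        intro k
        have := ih (k + 1) (by omega)
        have := ih (n + 1 - k) (by omega)
        have := isProbabilityMeasure_expMeasure (harm_pos (Nat.succ_pos n))
        rw [Measure.smul_apply, Measure.map_apply (measurable_glue _) MeasurableSet.univ]
        simp
      rw [Finset.sum_congr rfl (fun k _ => h1 k)]
      rw [← ENNReal.ofReal_sum_of_nonneg (fun k _ => q_nonneg n k.2)]
      rw [Fin.sum_univ_eq_sum_range (fun k => q (n + 2) (k + 1)) (n + 1), sum_q]
      simp

/-- the distribution function of the tree height -/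
noncomputable def Fd (m : ℕ) (t : ℝ) : ℝ := (leafLaw m).real {H | ∀ k < m, H k ≤ t}

lemma measSet (m : ℕ) (t : ℝ) : MeasurableSet {H : ℕ → ℝ | ∀ k < m, H k ≤ t} := by
  have : {H : ℕ → ℝ | ∀ k < m, H k ≤ t} = ⋂ k ∈ Finset.range m, {H : ℕ → ℝ | H k ≤ t} := by
    ext H; simp
  rw [this]
  exact Finset.measurableSet_biInter _ fun k _ => measurableSet_le (measurable_pi_apply k)
    measurable_const

lemma Fd_nonneg (m : ℕ) (t : ℝ) : 0 ≤ Fd m t := measureReal_nonneg

lemma Fd_le_one (m : ℕ) (t : ℝ) : Fd m t ≤ 1 := by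
  unfold Fd; exact measureReal_le_one

lemma Fd_mono (m : ℕ) : Monotone (Fd m) := by
  intro s t hst
  unfold Fd
  apply measureReal_mono _ (measure_ne_top _ _)
  intro H hH k hk
  exact (hH k hk).trans hst

lemma Fd_measurable (m : ℕ) : Measurable (Fd m) := (Fd_mono m).measurable

/-- the recurrence -/
lemma Fd_rec (n : ℕ) (t : ℝ) : Fd (n + 2) t = ∑ k ∈ Finset.range (n + 1),
    q (n + 2) (k + 1) * ∫ e, Fd (k + 1) (t - e) * Fd (n + 1 - k) (t - e)
      ∂(expMeasure (harm (n + 1))) := by
  have hexp := isProbabilityMeasure_expMeasure (harm_pos (Nat.succ_pos n))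
  have key : ∀ k : ℕ, k < n + 1 →
      (((expMeasure (harm (n + 1))).prod ((leafLaw (k + 1)).prod (leafLaw (n + 1 - k)))).map
        (glue (k + 1))).real {H | ∀ j < n + 2, H j ≤ t} =
      ∫ e, Fd (k + 1) (t - e) * Fd (n + 1 - k) (t - e) ∂(expMeasure (harm (n + 1))) := by
    intro k hk
    have hmeas := measSet (n + 2) t
    rw [measureReal_def, Measure.map_apply (measurable_glue _) hmeas,
      Measure.prod_apply ((measurable_glue _) hmeas)]
    have hsec : ∀ e : ℝ, ((leafLaw (k + 1)).prod (leafLaw (n + 1 - k)))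
        (Prod.mk e ⁻¹' (glue (k + 1) ⁻¹' {H | ∀ j < n + 2, H j ≤ t})) =
        (leafLaw (k + 1)) {H | ∀ j < k + 1, H j ≤ t - e} *
          (leafLaw (n + 1 - k)) {H | ∀ j < n + 1 - k, H j ≤ t - e} := by
      intro e
      rw [← Measure.prod_prod]
      congr 1
      ext ⟨A, B⟩
      simp only [mem_preimage, mem_ofPred_eq, mem_prod, glue]
      constructor
      · intro h
        refine ⟨fun j hj => ?_, fun j hj => ?_⟩
        · have := h j (by omega)
          rw [if_pos hj] at this
          linarith
        · have := h (j + (k + 1)) (by omega)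
          rw [if_neg (by omega), Nat.add_sub_cancel] at this
          linarith
      · rintro ⟨h1, h2⟩ j hj
        split_ifs with hjk
        · have := h1 j hjk; linarith
        · have := h2 (j - (k + 1)) (by omega); linarith
    simp only [hsec]
    rw [← integral_toReal]
    · congr 1
      funext e
      rw [ENNReal.toReal_mul]
      rfl
    · have h1 : (fun e => (leafLaw (k + 1)) {H | ∀ j < k + 1, H j ≤ t - e} *
          (leafLaw (n + 1 - k)) {H | ∀ j < n + 1 - k, H j ≤ t - e}) =
          fun e => ENNReal.ofReal (Fd (k + 1) (t - e)) * ENNReal.ofReal (Fd (n + 1 - k) (t - e)) := by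
        funext e
        unfold Fd
        rw [ofReal_measureReal, ofReal_measureReal]
      rw [h1]
      have m1 := Fd_measurable (k + 1)
      have m2 := Fd_measurable (n + 1 - k)
      fun_prop
    · filter_upwards with e
      exact ENNReal.mul_lt_top (measure_lt_top _ _) (measure_lt_top _ _)
  unfold Fd at *
  rw [leafLaw_eq, measureReal_def, Measure.finsetSum_apply,
    ENNReal.toReal_sum (fun k _ => by
      have := Measure.isProbabilityMeasure_map
        (μ := (expMeasure (harm (n + 1))).prod ((leafLaw (k + 1)).prod (leafLaw (n + 1 - k))))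
        (measurable_glue (k + 1)).aemeasurable
      rw [Measure.smul_apply, smul_eq_mul]
      exact ENNReal.mul_ne_top ENNReal.ofReal_ne_top (measure_ne_top _ _))]
  rw [← Fin.sum_univ_eq_sum_range (fun k => q (n + 2) (k + 1) *
    ∫ e, (leafLaw (k + 1)).real {H | ∀ j < k + 1, H j ≤ t - e} *
      (leafLaw (n + 1 - k)).real {H | ∀ j < n + 1 - k, H j ≤ t - e} ∂(expMeasure (harm (n + 1))))
      (n + 1)]
  apply Finset.sum_congr rfl
  intro k _
  rw [Measure.smul_apply, smul_eq_mul, ENNReal.toReal_mul, ENNReal.toReal_ofReal (q_nonneg n k.2),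
    ← key k k.2]
  rfl

lemma expMeasure_ae_pos {r : ℝ} (hr : 0 < r) : ∀ᵐ e ∂(expMeasure r), 0 < e := by
  have := isProbabilityMeasure_expMeasure hr
  rw [ae_iff]
  have h1 : {e : ℝ | ¬ 0 < e} = Iic 0 := by ext; simp
  rw [h1, ← ofReal_cdf, cdf_expMeasure_eq hr]
  simp

lemma Fd_one {t : ℝ} (ht : t < 0) : Fd 1 t = 0 := by
  unfold Fd
  rw [leafLaw, measureReal_def, Measure.dirac_apply' _ (measSet 1 t)]
  rw [indicator_of_notMem]
  · simp
  · intro h
    have := h 0 (by omega)
    simp at this
    linarith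

lemma Fd_neg (n : ℕ) : ∀ {t : ℝ}, t < 0 → Fd (n + 1) t = 0 := by
  induction n using Nat.strong_induction_on with
  | _ n ih =>
    intro t ht
    match n, ih with
    | 0, _ => exact Fd_one ht
    | (n + 1), ih =>
      have e : n + 1 + 1 = n + 2 := rfl
      rw [e, Fd_rec]
      apply Finset.sum_eq_zero
      intro k hk
      have hk' := Finset.mem_range.1 hk
      have h1 : ∫ e, Fd (k + 1) (t - e) * Fd (n + 1 - k) (t - e)
          ∂(expMeasure (harm (n + 1))) = 0 := by
        rw [integral_eq_zero_of_ae]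
        filter_upwards [expMeasure_ae_pos (harm_pos (Nat.succ_pos n))] with e he
        rw [ih k (by omega) (by linarith : t - e < 0)]
        simp
      rw [h1, mul_zero]

/-- integrals against the exponential law -/
lemma integral_exp {r : ℝ} (hr : 0 < r) {f : ℝ → ℝ} {t : ℝ} (ht : 0 ≤ t)
    (hf0 : ∀ x, t < x → f x = 0) :
    ∫ e, f e ∂(expMeasure r) = ∫ x in (0:ℝ)..t, r * Real.exp (-(r * x)) * f x := by
  have h1 : expMeasure r = volume.withDensity (exponentialPDF r) := rfl
  have hm : Measurable (exponentialPDF r) := by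
    unfold exponentialPDF; fun_prop
  rw [h1, integral_withDensity_eq_integral_toReal_smul hm
    (ae_of_all _ fun x => by unfold exponentialPDF; exact ENNReal.ofReal_lt_top)]
  rw [intervalIntegral.integral_of_le ht, ← integral_indicator measurableSet_Ioc]
  apply integral_congr_ae
  have h0 : ∀ᵐ x : ℝ, x ≠ 0 := by
    rw [ae_iff]; simp
  filter_upwards [h0] with x hx
  rw [indicator_apply]
  split_ifs with h2
  · rw [exponentialPDF_of_nonneg h2.1.le, ENNReal.toReal_ofReal, smul_eq_mul]
    have := Real.exp_pos (-(r * x))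
    positivity
  · by_cases h3 : t < x
    · rw [hf0 x h3, smul_zero]
    · have h4 : x < 0 := by
        rcases lt_or_ge 0 x with h5 | h5
        · exact absurd ⟨h5, not_lt.1 h3⟩ h2
        · exact lt_of_le_of_ne h5 hx
      rw [exponentialPDF_of_neg h4]
      simp

/-- the recurrence as an interval integral -/
lemma Fd_rec' (n : ℕ) {t : ℝ} (ht : 0 ≤ t) : Fd (n + 2) t =
    ∫ x in (0:ℝ)..t, Real.exp (-(harm (n + 1) * x)) *
      ∑ k ∈ Finset.range (n + 1), harm (n + 1) * q (n + 2) (k + 1) *
        (Fd (k + 1) (t - x) * Fd (n + 1 - k) (t - x)) := by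
  have hh := harm_pos (Nat.succ_pos n)
  rw [Fd_rec]
  have h1 : ∀ k ∈ Finset.range (n + 1), q (n + 2) (k + 1) *
      ∫ e, Fd (k + 1) (t - e) * Fd (n + 1 - k) (t - e) ∂(expMeasure (harm (n + 1))) =
      ∫ x in (0:ℝ)..t, Real.exp (-(harm (n + 1) * x)) * (harm (n + 1) * q (n + 2) (k + 1) *
        (Fd (k + 1) (t - x) * Fd (n + 1 - k) (t - x))) := by
    intro k hk
    rw [integral_exp hh ht (f := fun e => Fd (k + 1) (t - e) * Fd (n + 1 - k) (t - e)),
      ← intervalIntegral.integral_const_mul]
    · congr 1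
      funext x
      ring
    · intro x hx
      rw [Fd_neg k (by linarith : t - x < 0)]
      simp
  rw [Finset.sum_congr rfl h1, ← intervalIntegral.integral_finsetSum]
  · congr 1
    funext x
    rw [Finset.mul_sum]
  · intro k hk
    have m1 := Fd_measurable (k + 1)
    have m2 := Fd_measurable (n + 1 - k)
    have hm : Measurable (fun x => Real.exp (-(harm (n + 1) * x)) *
        (harm (n + 1) * q (n + 2) (k + 1) * (Fd (k + 1) (t - x) * Fd (n + 1 - k) (t - x)))) := by
      fun_prop
    have hq := q_nonneg n (Finset.mem_range.1 hk)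
    refine (intervalIntegrable_const (c := harm (n + 1) * q (n + 2) (k + 1))).mono_fun
      hm.aestronglyMeasurable ?_
    rw [EventuallyLE, ae_restrict_iff' measurableSet_uIoc]
    refine ae_of_all _ fun x hx => ?_
    rw [uIoc_of_le ht] at hx
    have e1 := Real.exp_pos (-(harm (n + 1) * x))
    have e2 : Real.exp (-(harm (n + 1) * x)) ≤ 1 := by
      apply Real.exp_le_one_iff.2
      have := mul_nonneg hh.le hx.1.le
      linarith
    have f1 := Fd_nonneg (k + 1) (t - x)
    have f2 := Fd_nonneg (n + 1 - k) (t - x)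
    have f3 := Fd_le_one (k + 1) (t - x)
    have f4 := Fd_le_one (n + 1 - k) (t - x)
    have hc : 0 ≤ harm (n + 1) * q (n + 2) (k + 1) := mul_nonneg hh.le hq
    rw [Real.norm_eq_abs, Real.norm_eq_abs, abs_of_nonneg (by positivity), abs_of_nonneg hc]
    have f5 : Fd (k + 1) (t - x) * Fd (n + 1 - k) (t - x) ≤ 1 := mul_le_one₀ f3 f2 f4
    calc Real.exp (-(harm (n + 1) * x)) * (harm (n + 1) * q (n + 2) (k + 1) *
          (Fd (k + 1) (t - x) * Fd (n + 1 - k) (t - x)))
        ≤ 1 * (harm (n + 1) * q (n + 2) (k + 1) * 1) := by gcongr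
      _ = _ := by ring

/-- one split only: the waiting time is dropped -/
lemma Fd_le_split (n : ℕ) (t : ℝ) : Fd (n + 2) t ≤ ∑ k ∈ Finset.range (n + 1),
    q (n + 2) (k + 1) * (Fd (k + 1) t * Fd (n + 1 - k) t) := by
  have hh := harm_pos (Nat.succ_pos n)
  have hexp := isProbabilityMeasure_expMeasure hh
  rw [Fd_rec]
  apply Finset.sum_le_sum
  intro k hk
  apply mul_le_mul_of_nonneg_left _ (q_nonneg n (Finset.mem_range.1 hk))
  have m1 := Fd_measurable (k + 1)
  have m2 := Fd_measurable (n + 1 - k)
  calc ∫ e, Fd (k + 1) (t - e) * Fd (n + 1 - k) (t - e) ∂(expMeasure (harm (n + 1)))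
      ≤ ∫ _, Fd (k + 1) t * Fd (n + 1 - k) t ∂(expMeasure (harm (n + 1))) := by
        apply integral_mono_ae _ (integrable_const _)
        · filter_upwards [expMeasure_ae_pos hh] with e he
          exact mul_le_mul (Fd_mono _ (by linarith)) (Fd_mono _ (by linarith)) (Fd_nonneg _ _)
            (Fd_nonneg _ _)
        · refine (integrable_const (1:ℝ)).mono' (by fun_prop) (ae_of_all _ fun e => ?_)
          rw [Real.norm_eq_abs, abs_of_nonneg (mul_nonneg (Fd_nonneg _ _) (Fd_nonneg _ _))]
          exact mul_le_one₀ (Fd_le_one _ _) (Fd_nonneg _ _) (Fd_le_one _ _)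
    _ = _ := by simp

end Pool.Agent.Q287.CB
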