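import Pool.Agent.Q287.CB1

/-! Comparison principles and the upper bound for the height of the critical beta-splitting tree. -/

namespace Pool.Agent.Q287.CB

open MeasureTheory ProbabilityTheory Set Filter Topology
open scoped ENNReal

/-- the source term in the recurrence -/
noncomputable def Sf (n : ℕ) (s : ℝ) : ℝ := ∑ k ∈ Finset.range (n + 1),
  harm (n + 1) * q (n + 2) (k + 1) * (Fd (k + 1) s * Fd (n + 1 - k) s)

lemma Sf_measurable (n : ℕ) : Measurable (Sf n) := by
  unfold Sf
  apply Finset.measurable_sum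
  intro k _
  have m1 := Fd_measurable (k + 1)
  have m2 := Fd_measurable (n + 1 - k)
  fun_prop

lemma Sf_nonneg (n : ℕ) (s : ℝ) : 0 ≤ Sf n s := by
  unfold Sf
  apply Finset.sum_nonneg
  intro k hk
  have hh := harm_pos (Nat.succ_pos n)
  exact mul_nonneg (mul_nonneg hh.le (q_nonneg n (Finset.mem_range.1 hk)))
    (mul_nonneg (Fd_nonneg _ _) (Fd_nonneg _ _))

lemma Sf_le (n : ℕ) (s : ℝ) : Sf n s ≤ harm (n + 1) := by
  have hh := harm_pos (Nat.succ_pos n)
  calc Sf n s ≤ ∑ k ∈ Finset.range (n + 1), harm (n + 1) * q (n + 2) (k + 1) := by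
        apply Finset.sum_le_sum
        intro k hk
        have h1 : 0 ≤ harm (n + 1) * q (n + 2) (k + 1) :=
          mul_nonneg hh.le (q_nonneg n (Finset.mem_range.1 hk))
        calc _ ≤ harm (n + 1) * q (n + 2) (k + 1) * 1 :=
              mul_le_mul_of_nonneg_left
                (mul_le_one₀ (Fd_le_one _ _) (Fd_nonneg _ _) (Fd_le_one _ _)) h1
          _ = _ := mul_one _
    _ = harm (n + 1) := by rw [← Finset.mul_sum, sum_q, mul_one]

lemma Fd_eq_Sf (n : ℕ) {t : ℝ} (ht : 0 ≤ t) : Fd (n + 2) t =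
    ∫ x in (0:ℝ)..t, Real.exp (-(harm (n + 1) * x)) * Sf n (t - x) := Fd_rec' n ht

lemma Sf_int (n : ℕ) {t : ℝ} (ht : 0 ≤ t) : IntervalIntegrable
    (fun x => Real.exp (-(harm (n + 1) * x)) * Sf n (t - x)) volume 0 t := by
  have hh := harm_pos (Nat.succ_pos n)
  have m := Sf_measurable n
  refine (intervalIntegrable_const (c := harm (n + 1))).mono_fun
    (by fun_prop) ?_
  rw [EventuallyLE, ae_restrict_iff' measurableSet_uIoc]
  refine ae_of_all _ fun x hx => ?_
  rw [uIoc_of_le ht] at hx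
  have e1 := Real.exp_pos (-(harm (n + 1) * x))
  have e2 : Real.exp (-(harm (n + 1) * x)) ≤ 1 := by
    apply Real.exp_le_one_iff.2
    have := mul_nonneg hh.le hx.1.le
    linarith
  have s1 := Sf_nonneg n (t - x)
  have s2 := Sf_le n (t - x)
  rw [Real.norm_eq_abs, Real.norm_eq_abs, abs_of_nonneg (by positivity), abs_of_nonneg hh.le]
  calc Real.exp (-(harm (n + 1) * x)) * Sf n (t - x) ≤ 1 * harm (n + 1) := by gcongr
    _ = _ := one_mul _

/-- the variation of constants formula -/
lemma duhamel (h t : ℝ) {w w' : ℝ → ℝ} (hw : ∀ s, HasDerivAt w (w' s) s) (hc : Continuous w') :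
    ∫ x in (0:ℝ)..t, Real.exp (-(h * x)) * (w' (t - x) + h * w (t - x)) =
      w t - Real.exp (-(h * t)) * w 0 := by
  have hwc : Continuous w := continuous_iff_continuousAt.2 fun s => (hw s).continuousAt
  have hd : ∀ x, HasDerivAt (fun x => -(Real.exp (-(h * x)) * w (t - x)))
      (Real.exp (-(h * x)) * (w' (t - x) + h * w (t - x))) x := by
    intro x
    have h1 : HasDerivAt (fun x => Real.exp (-(h * x))) (Real.exp (-(h * x)) * (-(h * 1))) x :=
      (((hasDerivAt_id x).const_mul h).neg).exp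
    have h2 : HasDerivAt (fun x => w (t - x)) (w' (t - x) * (-1)) x := by
      have h3 : HasDerivAt (fun x : ℝ => t - x) (-1) x := by
        simpa using (hasDerivAt_id x).const_sub t
      exact (hw (t - x)).comp x h3
    have h4 := (h1.mul h2).neg
    refine h4.congr_deriv ?_
    ring
  rw [intervalIntegral.integral_eq_sub_of_hasDerivAt (fun x _ => hd x)]
  · simp only [sub_self, mul_zero, neg_zero, Real.exp_zero, sub_zero, one_mul]
    ring
  · apply Continuous.intervalIntegrable
    fun_prop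

lemma duhamel_int (h t : ℝ) {w w' : ℝ → ℝ} (hw : ∀ s, HasDerivAt w (w' s) s)
    (hc : Continuous w') : IntervalIntegrable
    (fun x => Real.exp (-(h * x)) * (w' (t - x) + h * w (t - x))) volume 0 t := by
  have hwc : Continuous w := continuous_iff_continuousAt.2 fun s => (hw s).continuousAt
  apply Continuous.intervalIntegrable
  fun_prop

lemma cmp_upper (n : ℕ) {t : ℝ} (ht : 0 ≤ t) {w w' : ℝ → ℝ} (hw : ∀ s, HasDerivAt w (w' s) s)
    (hc : Continuous w') (h0 : 0 ≤ w 0)
    (hle : ∀ s, 0 ≤ s → Sf n s ≤ w' s + harm (n + 1) * w s) : Fd (n + 2) t ≤ w t := by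
  rw [Fd_eq_Sf n ht]
  calc ∫ x in (0:ℝ)..t, Real.exp (-(harm (n + 1) * x)) * Sf n (t - x)
      ≤ ∫ x in (0:ℝ)..t, Real.exp (-(harm (n + 1) * x)) *
          (w' (t - x) + harm (n + 1) * w (t - x)) := by
        apply intervalIntegral.integral_mono_on ht (Sf_int n ht) (duhamel_int _ t hw hc)
        intro x hx
        exact mul_le_mul_of_nonneg_left (hle (t - x) (by linarith [hx.2])) (Real.exp_pos _).le
    _ = w t - Real.exp (-(harm (n + 1) * t)) * w 0 := duhamel _ t hw hc
    _ ≤ w t := by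
        have := mul_nonneg (Real.exp_pos (-(harm (n + 1) * t))).le h0
        linarith

lemma cmp_lower (n : ℕ) {t : ℝ} (ht : 0 ≤ t) {w w' : ℝ → ℝ} (hw : ∀ s, HasDerivAt w (w' s) s)
    (hc : Continuous w') (h0 : w 0 ≤ 0)
    (hle : ∀ s, 0 ≤ s → w' s + harm (n + 1) * w s ≤ Sf n s) : w t ≤ Fd (n + 2) t := by
  rw [Fd_eq_Sf n ht]
  calc w t ≤ w t - Real.exp (-(harm (n + 1) * t)) * w 0 := by
        have := mul_nonneg (Real.exp_pos (-(harm (n + 1) * t))).le (neg_nonneg.2 h0)
        linarith
    _ = ∫ x in (0:ℝ)..t, Real.exp (-(harm (n + 1) * x)) *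
          (w' (t - x) + harm (n + 1) * w (t - x)) := (duhamel _ t hw hc).symm
    _ ≤ _ := by
        apply intervalIntegral.integral_mono_on ht (duhamel_int _ t hw hc) (Sf_int n ht)
        intro x hx
        exact mul_le_mul_of_nonneg_left (hle (t - x) (by linarith [hx.2])) (Real.exp_pos _).le

/-- the action of the recurrence on `m v(m-1)` -/
lemma sum_hq (n : ℕ) (v : ℕ → ℝ) :
    ∑ k ∈ Finset.range (n + 1), harm (n + 1) * q (n + 2) (k + 1) *
      (((k : ℝ) + 1) * v k + ((n : ℝ) + 1 - k) * v (n - k)) =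
    ((n : ℝ) + 2) * ∑ k ∈ Finset.range (n + 1), v (n - k) / ((k : ℝ) + 1) := by
  have h1 : ∀ k ∈ Finset.range (n + 1), harm (n + 1) * q (n + 2) (k + 1) *
      (((k : ℝ) + 1) * v k + ((n : ℝ) + 1 - k) * v (n - k)) =
      ((n : ℝ) + 2) / 2 * (v k / ((n : ℝ) + 1 - k)) +
        ((n : ℝ) + 2) / 2 * (v (n - k) / ((k : ℝ) + 1)) := by
    intro k hk
    have hk' := Finset.mem_range.1 hk
    rw [harm_mul_q n hk']
    have h3 : (0:ℝ) < (n : ℝ) + 1 - k := by
      have : (k : ℝ) < (n : ℝ) + 1 := by exact_mod_cast hk'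
      linarith
    have h2 : (0:ℝ) < (k : ℝ) + 1 := by positivity
    field_simp
    ring
  rw [Finset.sum_congr rfl h1, Finset.sum_add_distrib]
  have h2 : ∑ k ∈ Finset.range (n + 1), ((n : ℝ) + 2) / 2 * (v k / ((n : ℝ) + 1 - k)) =
      ∑ k ∈ Finset.range (n + 1), ((n : ℝ) + 2) / 2 * (v (n - k) / ((k : ℝ) + 1)) := by
    rw [sum_reflect]
    apply Finset.sum_congr rfl
    intro k hk
    have hk' : k ≤ n := by have := Finset.mem_range.1 hk; omega
    rw [Nat.cast_sub hk']
    congr 2
    ring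
  rw [h2, ← Finset.mul_sum]
  ring

lemma sum_id (n : ℕ) : ∑ k ∈ Finset.range (n + 1), ((n - k : ℕ) : ℝ) / ((k : ℝ) + 1) =
    ((n : ℝ) + 1) * harm (n + 1) - ((n : ℝ) + 1) := by
  have h1 : ∀ k ∈ Finset.range (n + 1), ((n - k : ℕ) : ℝ) / ((k : ℝ) + 1) =
      ((n : ℝ) + 1) * (1 / ((k : ℝ) + 1)) - 1 := by
    intro k hk
    have hk' : k ≤ n := by have := Finset.mem_range.1 hk; omega
    rw [Nat.cast_sub hk']
    have h2 : (0:ℝ) < (k : ℝ) + 1 := by positivity
    field_simp
    ring
  rw [Finset.sum_congr rfl h1, Finset.sum_sub_distrib, ← Finset.mul_sum]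
  simp [harm]

/-- the upper bound `P(D*_m > t) ≤ m (m-1) e^{-t}` -/
theorem height_upper (m : ℕ) : ∀ {t : ℝ}, 0 ≤ t →
    1 - ((m : ℝ) + 1) * m * Real.exp (-t) ≤ Fd (m + 1) t := by
  induction m using Nat.strong_induction_on with
  | _ m ih =>
    intro t ht
    match m, ih with
    | 0, _ =>
      simp only [Nat.cast_zero, mul_zero, zero_mul, sub_zero, zero_add]
      unfold Fd
      rw [leafLaw, measureReal_def, Measure.dirac_apply' _ (measSet 1 t), indicator_of_mem]
      · simp
      · intro k _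
        simpa using ht
    | (n + 1), ih =>
      have hw : ∀ s, HasDerivAt (fun s => 1 - ((n : ℝ) + 2) * ((n : ℝ) + 1) * Real.exp (-s))
          (((n : ℝ) + 2) * ((n : ℝ) + 1) * Real.exp (-s)) s := by
        intro s
        have h1 : HasDerivAt (fun s : ℝ => Real.exp (-s)) (Real.exp (-s) * (-1)) s :=
          (hasDerivAt_neg s).exp
        have h2 := (h1.const_mul (((n : ℝ) + 2) * ((n : ℝ) + 1))).const_sub 1
        refine h2.congr_deriv ?_
        ring
      have := cmp_lower n ht hw (by fun_prop) (by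
        simp only [neg_zero, Real.exp_zero, mul_one]
        have : (0:ℝ) ≤ n := Nat.cast_nonneg n
        nlinarith) (by
        intro s hs
        set E := Real.exp (-s) with hE
        have hEpos : 0 < E := Real.exp_pos _
        have hterm : ∀ k ∈ Finset.range (n + 1), harm (n + 1) * q (n + 2) (k + 1) -
            E * (harm (n + 1) * q (n + 2) (k + 1) *
              (((k : ℝ) + 1) * (k : ℝ) + ((n : ℝ) + 1 - k) * ((n - k : ℕ) : ℝ))) ≤
            harm (n + 1) * q (n + 2) (k + 1) * (Fd (k + 1) s * Fd (n + 1 - k) s) := by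
          intro k hk
          have hk' := Finset.mem_range.1 hk
          have hkn : k ≤ n := by omega
          have hh := harm_pos (Nat.succ_pos n)
          have hq : 0 ≤ harm (n + 1) * q (n + 2) (k + 1) := mul_nonneg hh.le (q_nonneg n hk')
          have i1 := ih k (by omega) hs
          have i2 := ih (n - k) (by omega) hs
          have e1 : n - k + 1 = n + 1 - k := by omega
          rw [e1, ← hE, Nat.cast_sub hkn] at i2
          rw [← hE] at i1
          rw [Nat.cast_sub hkn]
          have f1 := Fd_nonneg (k + 1) s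
          have f2 := Fd_nonneg (n + 1 - k) s
          have f3 := Fd_le_one (k + 1) s
          have f4 := Fd_le_one (n + 1 - k) s
          have hprod : 1 - E * (((k : ℝ) + 1) * (k : ℝ) + ((n : ℝ) + 1 - k) * ((n : ℝ) - k)) ≤
              Fd (k + 1) s * Fd (n + 1 - k) s := by
            nlinarith [mul_nonneg (sub_nonneg.2 f3) (sub_nonneg.2 f4)]
          have := mul_le_mul_of_nonneg_left hprod hq
          refine le_trans (le_of_eq ?_) this
          ring
        have hsum := Finset.sum_le_sum hterm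
        rw [Finset.sum_sub_distrib, ← Finset.mul_sum, ← Finset.mul_sum, sum_q,
          sum_hq n (fun k => (k : ℝ)), sum_id] at hsum
        refine le_trans (le_of_eq ?_) hsum
        ring)
      push_cast
      have e2 : ((n : ℝ) + 1 + 1) = (n : ℝ) + 2 := by ring
      rw [e2]
      exact this

end Pool.Agent.Q287.CB
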