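import Pool.Agent.Q287.CB2

/-! The sub-solution: lower bound for the probability that the critical beta-splitting tree is
high. -/

namespace Pool.Agent.Q287.CB

open MeasureTheory ProbabilityTheory Set Filter Topology
open scoped ENNReal

/-! ### Difference sums -/

/-- pointwise lower bound -/
lemma term_lower {A B : ℝ} (hA : 0 < A) (hB : 0 ≤ B) (hAB : B < A) :
    A + (55 / 81) * B ^ 2 / A - (125 / 648) * B ^ 4 / A ^ 3 ≤
      (A ^ 3 - B ^ 3) / (A ^ 2 - B ^ 2) := by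
  have h1 : 0 < A ^ 2 - B ^ 2 := by nlinarith
  have h2 : 0 < A + B := by linarith
  have h3 : (A ^ 3 - B ^ 3) / (A ^ 2 - B ^ 2) = A + B ^ 2 / (A + B) := by
    have : A - B ≠ 0 := by linarith
    rw [div_eq_iff h1.ne']
    field_simp
    ring
  rw [h3]
  have h4 : A + B ^ 2 / (A + B) - (A + (55 / 81) * B ^ 2 / A - (125 / 648) * B ^ 4 / A ^ 3) =
      B ^ 2 * (B - 4 / 5 * A) ^ 2 * (125 * B + 325 * A) / (648 * A ^ 3 * (A + B)) := by
    field_simp
    ring
  have h5 : 0 ≤ B ^ 2 * (B - 4 / 5 * A) ^ 2 * (125 * B + 325 * A) / (648 * A ^ 3 * (A + B)) := by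
    positivity
  linarith

lemma term_lower_simple {A B : ℝ} (hA : 0 < A) (hB : 0 ≤ B) (hAB : B < A) :
    A ≤ (A ^ 3 - B ^ 3) / (A ^ 2 - B ^ 2) := by
  have h1 : 0 < A ^ 2 - B ^ 2 := by nlinarith
  rw [le_div_iff₀ h1]
  nlinarith [mul_nonneg (sq_nonneg B) (sub_nonneg.2 hAB.le)]

/-- the function `k ↦ k^{3/2}` -/
noncomputable def g3 (k : ℕ) : ℝ := (k : ℝ) * √(k : ℝ)

lemma g3_eq (k : ℕ) : g3 k = √(k : ℝ) ^ 3 := by
  unfold g3
  have : √(k : ℝ) ^ 2 = k := Real.sq_sqrt (Nat.cast_nonneg k)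
  calc (k : ℝ) * √(k : ℝ) = √(k : ℝ) ^ 2 * √(k : ℝ) := by rw [this]
    _ = _ := by ring

lemma diff_eq {n k : ℕ} (hk : k < n + 1) : (g3 (n + 1) - g3 (n - k)) / ((k : ℝ) + 1) =
    (√((n + 1 : ℕ) : ℝ) ^ 3 - √((n - k : ℕ) : ℝ) ^ 3) /
      (√((n + 1 : ℕ) : ℝ) ^ 2 - √((n - k : ℕ) : ℝ) ^ 2) := by
  rw [g3_eq, g3_eq]
  congr 1
  rw [Real.sq_sqrt (Nat.cast_nonneg _), Real.sq_sqrt (Nat.cast_nonneg _),
    Nat.cast_sub (by omega)]
  push_cast
  ring

lemma sum_k (n : ℕ) : ∑ k ∈ Finset.range (n + 1), (k : ℝ) = (n : ℝ) * (n + 1) / 2 := by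
  induction n with
  | zero => simp
  | succ n ih => rw [Finset.sum_range_succ, ih]; push_cast; ring

lemma sum_k2 (n : ℕ) : ∑ k ∈ Finset.range (n + 1), (k : ℝ) ^ 2 =
    (n : ℝ) * (n + 1) * (2 * n + 1) / 6 := by
  induction n with
  | zero => simp
  | succ n ih => rw [Finset.sum_range_succ, ih]; push_cast; ring

lemma D3_simple (n : ℕ) : g3 (n + 1) ≤
    ∑ k ∈ Finset.range (n + 1), (g3 (n + 1) - g3 (n - k)) / ((k : ℝ) + 1) := by
  have hA : 0 < √((n + 1 : ℕ) : ℝ) := Real.sqrt_pos.2 (by positivity)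
  calc g3 (n + 1) = ∑ _k ∈ Finset.range (n + 1), √((n + 1 : ℕ) : ℝ) := by
        rw [Finset.sum_const, Finset.card_range, nsmul_eq_mul]; rfl
    _ ≤ _ := by
        apply Finset.sum_le_sum
        intro k hk
        have hk' := Finset.mem_range.1 hk
        rw [diff_eq hk']
        apply term_lower_simple hA (Real.sqrt_nonneg _)
        apply Real.sqrt_lt_sqrt (Nat.cast_nonneg _)
        exact_mod_cast (by omega : n - k < n + 1)

lemma D3_lower {n : ℕ} (hn : 39 ≤ n) : (161 / 128) * g3 (n + 1) ≤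
    ∑ k ∈ Finset.range (n + 1), (g3 (n + 1) - g3 (n - k)) / ((k : ℝ) + 1) := by
  set A := √((n + 1 : ℕ) : ℝ) with hA'
  have hA : 0 < A := Real.sqrt_pos.2 (by positivity)
  have hA2 : A ^ 2 = (n : ℝ) + 1 := by
    rw [hA', Real.sq_sqrt (Nat.cast_nonneg _)]; push_cast; ring
  have hA0 : A ≠ 0 := hA.ne'
  have h1 : ∑ k ∈ Finset.range (n + 1), (A + (55 / 81) * ((n - k : ℕ) : ℝ) / A -
      (125 / 648) * ((n - k : ℕ) : ℝ) ^ 2 / A ^ 3) ≤
      ∑ k ∈ Finset.range (n + 1), (g3 (n + 1) - g3 (n - k)) / ((k : ℝ) + 1) := by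
    apply Finset.sum_le_sum
    intro k hk
    have hk' := Finset.mem_range.1 hk
    rw [diff_eq hk']
    have hlt : √((n - k : ℕ) : ℝ) < A := by
      apply Real.sqrt_lt_sqrt (Nat.cast_nonneg _)
      exact_mod_cast (by omega : n - k < n + 1)
    have h2 := term_lower hA (Real.sqrt_nonneg ((n - k : ℕ) : ℝ)) hlt
    have e1 : √((n - k : ℕ) : ℝ) ^ 2 = ((n - k : ℕ) : ℝ) := Real.sq_sqrt (Nat.cast_nonneg _)
    have e2 : √((n - k : ℕ) : ℝ) ^ 4 = ((n - k : ℕ) : ℝ) ^ 2 := by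
      calc √((n - k : ℕ) : ℝ) ^ 4 = (√((n - k : ℕ) : ℝ) ^ 2) ^ 2 := by ring
        _ = _ := by rw [e1]
    rw [e2] at h2
    conv_lhs at h2 => rw [e1]
    exact h2
  refine le_trans ?_ h1
  have h2 : ∑ k ∈ Finset.range (n + 1), (A + (55 / 81) * ((n - k : ℕ) : ℝ) / A -
      (125 / 648) * ((n - k : ℕ) : ℝ) ^ 2 / A ^ 3) =
      ((n : ℝ) + 1) * A + (55 / 81) / A * (∑ k ∈ Finset.range (n + 1), ((n - k : ℕ) : ℝ)) -
      (125 / 648) / A ^ 3 * (∑ k ∈ Finset.range (n + 1), ((n - k : ℕ) : ℝ) ^ 2) := by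
    rw [Finset.sum_sub_distrib, Finset.sum_add_distrib, Finset.mul_sum, Finset.mul_sum,
      Finset.sum_const, Finset.card_range, nsmul_eq_mul]
    push_cast
    congr 1
    · congr 1
      apply Finset.sum_congr rfl
      intro k _
      ring
    · apply Finset.sum_congr rfl
      intro k _
      ring
  rw [h2, ← sum_reflect n (fun k => (k : ℝ)), ← sum_reflect n (fun k => (k : ℝ) ^ 2), sum_k,
    sum_k2]
  have e3 : g3 (n + 1) = A ^ 3 := g3_eq (n + 1)
  rw [e3]
  have hn' : (39 : ℝ) ≤ n := by exact_mod_cast hn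
  have e4 : (n : ℝ) = A ^ 2 - 1 := by linarith
  have hA40 : 40 ≤ A ^ 2 := by linarith
  have h3 : ((n : ℝ) + 1) * A + (55 / 81) / A * ((n : ℝ) * (n + 1) / 2) -
      (125 / 648) / A ^ 3 * ((n : ℝ) * (n + 1) * (2 * n + 1) / 6) - 161 / 128 * A ^ 3 =
      ((1 + 55 / 162 - 125 / 1944 - 161 / 128) * (A ^ 2) ^ 2 - (55 / 162 - 375 / 3888) * A ^ 2
        - 125 / 3888) / A := by
    rw [e4]
    field_simp
    ring
  have h4 : 0 ≤ ((1 + 55 / 162 - 125 / 1944 - 161 / 128) * (A ^ 2) ^ 2 -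
      (55 / 162 - 375 / 3888) * A ^ 2 - 125 / 3888) / A := by
    apply div_nonneg _ hA.le
    nlinarith
  linarith

/-- the function `k ↦ k^θ` -/
lemma Dtheta {β : ℝ} (hβ0 : 0 < β) (hβ1 : β < 1) (n : ℕ) :
    (1 - β) * ((n + 1 : ℕ) : ℝ) ^ (1 - β) ≤ ∑ k ∈ Finset.range (n + 1),
      (((n + 1 : ℕ) : ℝ) ^ (1 - β) - ((n - k : ℕ) : ℝ) ^ (1 - β)) / ((k : ℝ) + 1) := by
  set M : ℝ := ((n + 1 : ℕ) : ℝ) with hM
  have hMpos : 0 < M := by rw [hM]; positivity
  have h1 : ∀ k ∈ Finset.range (n + 1), (1 - β) * (M ^ (1 - β) / M) ≤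
      (M ^ (1 - β) - ((n - k : ℕ) : ℝ) ^ (1 - β)) / ((k : ℝ) + 1) := by
    intro k hk
    have hk' : k ≤ n := by have := Finset.mem_range.1 hk; omega
    have hkp : (0:ℝ) < (k : ℝ) + 1 := by positivity
    have hcast : ((n - k : ℕ) : ℝ) = M - ((k : ℝ) + 1) := by
      rw [Nat.cast_sub hk', hM]; push_cast; ring
    have hc0 : 0 ≤ ((n - k : ℕ) : ℝ) := Nat.cast_nonneg _
    rw [le_div_iff₀ hkp]
    -- Bernoulli
    have hb : (1 + (-(((k : ℝ) + 1) / M))) ^ (1 - β) ≤ 1 + (1 - β) * (-(((k : ℝ) + 1) / M)) := by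
      apply rpow_one_add_le_one_add_mul_self _ (by linarith) (by linarith)
      have : ((k : ℝ) + 1) / M ≤ 1 := by
        rw [div_le_one hMpos]
        have := hcast ▸ hc0
        linarith
      linarith
    have he : ((n - k : ℕ) : ℝ) = M * (1 + (-(((k : ℝ) + 1) / M))) := by
      rw [hcast]; field_simp; ring
    have hnn : 0 ≤ 1 + (-(((k : ℝ) + 1) / M)) := by
      have := he ▸ hc0
      exact nonneg_of_mul_nonneg_right this hMpos
    rw [he, Real.mul_rpow hMpos.le hnn]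
    have h2 := mul_le_mul_of_nonneg_left hb (Real.rpow_nonneg hMpos.le (1 - β))
    have h3 : M ^ (1 - β) * (1 + (1 - β) * (-(((k : ℝ) + 1) / M))) =
        M ^ (1 - β) - (1 - β) * (M ^ (1 - β) / M) * ((k : ℝ) + 1) := by
      ring
    linarith
  calc (1 - β) * M ^ (1 - β) = ∑ _k ∈ Finset.range (n + 1), (1 - β) * (M ^ (1 - β) / M) := by
        rw [Finset.sum_const, Finset.card_range, nsmul_eq_mul, ← hM]
        field_simp
    _ ≤ _ := Finset.sum_le_sum h1

/-! ### The sub-solution -/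

/-- `v_s(k)`, the sub-solution being `m v_s(m-1)` -/
noncomputable def vf (ν β s : ℝ) (k : ℕ) : ℝ :=
  ν ^ 4 * Real.exp (-s) * k - 64 * ν ^ 5 * Real.exp (-(5 / 4 * s)) * g3 k -
    8192 / β * ν ^ 5 * Real.exp (-((1 - 2 * β) * s)) * (k : ℝ) ^ (1 - β)

/-- its time derivative -/
noncomputable def vf' (ν β s : ℝ) (k : ℕ) : ℝ :=
  -(ν ^ 4 * Real.exp (-s) * k) + 5 / 4 * (64 * ν ^ 5 * Real.exp (-(5 / 4 * s)) * g3 k) +
    (1 - 2 * β) * (8192 / β * ν ^ 5 * Real.exp (-((1 - 2 * β) * s)) * (k : ℝ) ^ (1 - β))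

lemma hasDerivAt_expneg (c s : ℝ) :
    HasDerivAt (fun s => Real.exp (-(c * s))) (-(c * Real.exp (-(c * s)))) s := by
  have := (((hasDerivAt_id s).const_mul c).neg).exp
  refine this.congr_deriv ?_
  simp only [id, Pi.neg_apply]
  ring

lemma hasDerivAt_vf (ν β s : ℝ) (k : ℕ) : HasDerivAt (fun s => vf ν β s k) (vf' ν β s k) s := by
  unfold vf vf'
  have h1 : HasDerivAt (fun s => Real.exp (-s)) (-Real.exp (-s)) s := by
    have := hasDerivAt_expneg 1 s
    simpa using this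
  have h2 := hasDerivAt_expneg (5 / 4) s
  have h3 := hasDerivAt_expneg (1 - 2 * β) s
  have := (((h1.const_mul (ν ^ 4)).mul_const (k : ℝ)).sub
    ((h2.const_mul (64 * ν ^ 5)).mul_const (g3 k))).sub
    ((h3.const_mul (8192 / β * ν ^ 5)).mul_const ((k : ℝ) ^ (1 - β)))
  refine this.congr_deriv ?_
  ring

lemma vf'_cont (ν β : ℝ) (k : ℕ) : Continuous (fun s => vf' ν β s k) := by
  unfold vf'
  fun_prop

lemma g3_nonneg (k : ℕ) : 0 ≤ g3 k := mul_nonneg (Nat.cast_nonneg _) (Real.sqrt_nonneg _)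

/-- the key differential inequality -/
lemma key_ineq {ν β s : ℝ} (hν : 0 ≤ ν) (hβ0 : 0 < β) (hβ1 : β < 1 / 2) (hs : 0 ≤ s) (n : ℕ) :
    vf' ν β s (n + 1) + ∑ k ∈ Finset.range (n + 1),
      (vf ν β s (n + 1) - vf ν β s (n - k)) / ((k : ℝ) + 1) +
      1 / 2 * ν ^ 5 * Real.exp (-(5 / 4 * s)) * g3 (n + 1) ≤ 0 := by
  set E1 := Real.exp (-s) with hE1
  set E2 := Real.exp (-(5 / 4 * s)) with hE2
  set E3 := Real.exp (-((1 - 2 * β) * s)) with hE3
  have hE2pos : 0 < E2 := Real.exp_pos _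
  have hE3pos : 0 < E3 := Real.exp_pos _
  have hE23 : E2 ≤ E3 := by
    apply Real.exp_le_exp.2
    nlinarith
  set D3 := ∑ k ∈ Finset.range (n + 1), (g3 (n + 1) - g3 (n - k)) / ((k : ℝ) + 1) with hD3
  set Dθ := ∑ k ∈ Finset.range (n + 1),
      (((n + 1 : ℕ) : ℝ) ^ (1 - β) - ((n - k : ℕ) : ℝ) ^ (1 - β)) / ((k : ℝ) + 1) with hDθ
  have hsum : ∑ k ∈ Finset.range (n + 1),
      (vf ν β s (n + 1) - vf ν β s (n - k)) / ((k : ℝ) + 1) =
      ν ^ 4 * E1 * ((n : ℝ) + 1) - 64 * ν ^ 5 * E2 * D3 - 8192 / β * ν ^ 5 * E3 * Dθ := by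
    have h1 : ∑ k ∈ Finset.range (n + 1), (((n + 1 : ℕ) : ℝ) - ((n - k : ℕ) : ℝ)) / ((k : ℝ) + 1) =
        (n : ℝ) + 1 := by
      have : ∀ k ∈ Finset.range (n + 1),
          (((n + 1 : ℕ) : ℝ) - ((n - k : ℕ) : ℝ)) / ((k : ℝ) + 1) = 1 := by
        intro k hk
        have hk' : k ≤ n := by have := Finset.mem_range.1 hk; omega
        rw [Nat.cast_sub hk']
        have : (0:ℝ) < (k : ℝ) + 1 := by positivity
        push_cast
        field_simp
        ring
      rw [Finset.sum_congr rfl this]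
      simp
    rw [hD3, hDθ, ← h1, Finset.mul_sum, Finset.mul_sum, Finset.mul_sum, ← Finset.sum_sub_distrib,
      ← Finset.sum_sub_distrib]
    apply Finset.sum_congr rfl
    intro k _
    unfold vf
    ring
  rw [hsum]
  have hDθl := Dtheta hβ0 (by linarith) n
  rw [← hDθ] at hDθl
  set P := ((n + 1 : ℕ) : ℝ) ^ (1 - β) with hP
  have hP1 : 1 ≤ P := by
    apply Real.one_le_rpow
    · push_cast; have : (0:ℝ) ≤ n := Nat.cast_nonneg n; linarith
    · linarith
  have hν4 : 0 ≤ ν ^ 4 := by positivity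
  have hν5 : 0 ≤ ν ^ 5 := by positivity
  have hg := g3_nonneg (n + 1)
  unfold vf'
  rw [← hE1, ← hE2, ← hE3, ← hP]
  -- the third term
  have h3 : 8192 / β * ν ^ 5 * E3 * ((1 - 2 * β) * P - Dθ) ≤ -(8192 * ν ^ 5 * E3 * P) := by
    have h4 : (1 - 2 * β) * P - Dθ ≤ -(β * P) := by linarith
    have h5 : 0 ≤ 8192 / β * ν ^ 5 * E3 := by positivity
    calc 8192 / β * ν ^ 5 * E3 * ((1 - 2 * β) * P - Dθ) ≤ 8192 / β * ν ^ 5 * E3 * (-(β * P)) :=
          mul_le_mul_of_nonneg_left h4 h5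
      _ = _ := by field_simp
  have h2 : 64 * ν ^ 5 * E2 * ((5 / 4 + 1 / 128) * g3 (n + 1) - D3) ≤ 8192 * ν ^ 5 * E3 * P := by
    rcases le_or_gt 39 n with hn | hn
    · have h4 := D3_lower hn
      rw [← hD3] at h4
      have h5 : (5 / 4 + 1 / 128) * g3 (n + 1) - D3 ≤ 0 := by linarith
      have h6 : 0 ≤ 64 * ν ^ 5 * E2 := by positivity
      have h7 := mul_nonneg h6 (neg_nonneg.2 h5)
      have h8 : 0 ≤ 8192 * ν ^ 5 * E3 * P := by positivity
      linarith
    · have h4 := D3_simple n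
      rw [← hD3] at h4
      have h5 : (5 / 4 + 1 / 128) * g3 (n + 1) - D3 ≤ (33 / 128) * g3 (n + 1) := by linarith
      have h6 : g3 (n + 1) ≤ 273 := by
        unfold g3
        have h7 : ((n + 1 : ℕ) : ℝ) ≤ 39 := by exact_mod_cast (by omega : n + 1 ≤ 39)
        have h8 : √((n + 1 : ℕ) : ℝ) ≤ 7 := by
          rw [Real.sqrt_le_left (by norm_num)]
          linarith
        calc ((n + 1 : ℕ) : ℝ) * √((n + 1 : ℕ) : ℝ) ≤ 39 * 7 :=
              mul_le_mul h7 h8 (Real.sqrt_nonneg _) (by norm_num)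
          _ = 273 := by norm_num
      have h9 : (5 / 4 + 1 / 128) * g3 (n + 1) - D3 ≤ 128 := by linarith
      calc 64 * ν ^ 5 * E2 * ((5 / 4 + 1 / 128) * g3 (n + 1) - D3) ≤ 64 * ν ^ 5 * E2 * 128 :=
            mul_le_mul_of_nonneg_left h9 (by positivity)
        _ = 8192 * ν ^ 5 * E2 * 1 := by ring
        _ ≤ 8192 * ν ^ 5 * E3 * P := by gcongr
  have e : -(ν ^ 4 * E1 * ((n + 1 : ℕ) : ℝ)) + 5 / 4 * (64 * ν ^ 5 * E2 * g3 (n + 1)) +
      (1 - 2 * β) * (8192 / β * ν ^ 5 * E3 * P) +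
      (ν ^ 4 * E1 * ((n : ℝ) + 1) - 64 * ν ^ 5 * E2 * D3 - 8192 / β * ν ^ 5 * E3 * Dθ) +
      1 / 2 * ν ^ 5 * E2 * g3 (n + 1) =
      64 * ν ^ 5 * E2 * ((5 / 4 + 1 / 128) * g3 (n + 1) - D3) +
      8192 / β * ν ^ 5 * E3 * ((1 - 2 * β) * P - Dθ) := by
    push_cast
    ring
  rw [e]
  linarith

/-- `min 1 w² ≤ w ρ` when `ρ⁴ ≥ w` -/
lemma min_bound {w ρ x : ℝ} (hw : 0 ≤ w) (hρ : 0 ≤ ρ) (h4 : w ≤ ρ ^ 4) (hx1 : x ≤ 1)
    (hx2 : x ≤ w ^ 2) : x ≤ w * ρ := by
  rcases le_or_gt w ρ with h | h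
  · calc x ≤ w ^ 2 := hx2
      _ = w * w := by ring
      _ ≤ w * ρ := mul_le_mul_of_nonneg_left h hw
  · have h5 : ρ < ρ ^ 4 := lt_of_lt_of_le h h4
    have h6 : 1 < ρ := by
      by_contra hcon
      push Not at hcon
      have : ρ ^ 4 ≤ ρ := by
        calc ρ ^ 4 = ρ * ρ ^ 3 := by ring
          _ ≤ ρ * 1 := mul_le_mul_of_nonneg_left (pow_le_one₀ hρ hcon) hρ
          _ = ρ := mul_one ρ
      linarith
    nlinarith

lemma vf_zero {ν β s : ℝ} (hβ1 : β < 1) : vf ν β s 0 = 0 := by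
  unfold vf g3
  rw [Nat.cast_zero, Real.zero_rpow (by linarith)]
  ring

lemma vf_le {ν β s : ℝ} (hν : 0 ≤ ν) (hβ0 : 0 < β) (k : ℕ) :
    vf ν β s k ≤ ν ^ 4 * Real.exp (-s) * k := by
  unfold vf
  have h1 : 0 ≤ 64 * ν ^ 5 * Real.exp (-(5 / 4 * s)) * g3 k := by
    have := g3_nonneg k
    positivity
  have h2 : 0 ≤ 8192 / β * ν ^ 5 * Real.exp (-((1 - 2 * β) * s)) * (k : ℝ) ^ (1 - β) := by
    positivity
  linarith

/-- the initial condition -/
lemma vf_init {ν β : ℝ} (hν : 0 ≤ ν) (hβ0 : 0 < β) (n : ℕ) :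
    ((n : ℝ) + 2) * vf ν β 0 (n + 1) ≤ 1 := by
  have h1 : vf ν β 0 (n + 1) ≤ ν ^ 4 * ((n : ℝ) + 1) - 64 * ν ^ 5 * g3 (n + 1) := by
    unfold vf
    have h2 : 0 ≤ 8192 / β * ν ^ 5 * Real.exp (-((1 - 2 * β) * 0)) *
        ((n + 1 : ℕ) : ℝ) ^ (1 - β) := by positivity
    simp only [neg_zero, mul_zero, Real.exp_zero, mul_one] at h2 ⊢
    push_cast at *
    linarith
  set A := √((n + 1 : ℕ) : ℝ) with hA
  have hA2 : A ^ 2 = (n : ℝ) + 1 := by
    rw [hA, Real.sq_sqrt (Nat.cast_nonneg _)]; push_cast; ring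
  have hA0 : 0 ≤ A := Real.sqrt_nonneg _
  have hg : g3 (n + 1) = A ^ 3 := g3_eq _
  rw [hg, ← hA2] at h1
  have h2 : ν ^ 4 * A ^ 2 - 64 * ν ^ 5 * A ^ 3 = ν ^ 4 * A ^ 2 * (1 - 64 * (ν * A)) := by ring
  rw [h2] at h1
  have hn2 : (n : ℝ) + 2 = A ^ 2 + 1 := by linarith
  have hA1 : 1 ≤ A ^ 2 := by rw [hA2]; have : (0:ℝ) ≤ n := Nat.cast_nonneg n; linarith
  rw [hn2]
  have h3 : (A ^ 2 + 1) * vf ν β 0 (n + 1) ≤ (A ^ 2 + 1) * (ν ^ 4 * A ^ 2 * (1 - 64 * (ν * A))) :=
    mul_le_mul_of_nonneg_left h1 (by positivity)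
  refine h3.trans ?_
  rcases le_or_gt (1 - 64 * (ν * A)) 0 with h4 | h4
  · have h5 : 0 ≤ (A ^ 2 + 1) * (ν ^ 4 * A ^ 2) := by positivity
    have := mul_nonneg h5 (neg_nonneg.2 h4)
    nlinarith
  · have h5 : ν * A ≤ 1 / 64 := by linarith
    have h6 : 0 ≤ ν * A := mul_nonneg hν hA0
    have h7 : (ν * A) ^ 4 ≤ (1 / 64) ^ 4 := pow_le_pow_left₀ h6 h5 4
    have h8 : (A ^ 2 + 1) * (ν ^ 4 * A ^ 2) ≤ 2 * (ν * A) ^ 4 := by
      have h9 : (A ^ 2 + 1) * (ν ^ 4 * A ^ 2) ≤ (2 * A ^ 2) * (ν ^ 4 * A ^ 2) := by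
        apply mul_le_mul_of_nonneg_right _ (by positivity)
        linarith
      calc _ ≤ _ := h9
        _ = 2 * (ν * A) ^ 4 := by ring
    calc (A ^ 2 + 1) * (ν ^ 4 * A ^ 2 * (1 - 64 * (ν * A)))
        = ((A ^ 2 + 1) * (ν ^ 4 * A ^ 2)) * (1 - 64 * (ν * A)) := by ring
      _ ≤ (2 * (ν * A) ^ 4) * 1 := by
          apply mul_le_mul h8 _ h4.le (by positivity)
          linarith
      _ ≤ 1 := by
          norm_num at h7 ⊢
          linarith

/-- The sub-solution is a lower bound: `P(D*_m > t) ≥ m v_t(m-1)`. -/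
theorem sub_solution {ν β : ℝ} (hν : 0 ≤ ν) (hβ0 : 0 < β) (hβ1 : β < 1 / 2) (m : ℕ) :
    ∀ {t : ℝ}, 0 ≤ t → Fd (m + 1) t ≤ 1 - ((m : ℝ) + 1) * vf ν β t m := by
  induction m using Nat.strong_induction_on with
  | _ m ih =>
    intro t ht
    match m, ih with
    | 0, _ =>
      rw [vf_zero (by linarith)]
      simpa using Fd_le_one 1 t
    | (n + 1), ih =>
      have hh := harm_pos (Nat.succ_pos n)
      have hw : ∀ s, HasDerivAt (fun s => 1 - ((n : ℝ) + 2) * vf ν β s (n + 1))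
          (-(((n : ℝ) + 2) * vf' ν β s (n + 1))) s := by
        intro s
        have := ((hasDerivAt_vf ν β s (n + 1)).const_mul ((n : ℝ) + 2)).const_sub 1
        exact this
      have hcmp := cmp_upper n ht hw ((continuous_const.mul (vf'_cont ν β (n + 1))).neg) (by
        have := vf_init hν hβ0 n
        linarith) (by
        intro s hs
        set E1 := Real.exp (-s) with hE1
        have hE1pos : 0 < E1 := Real.exp_pos _
        -- the quantity ρ
        set ρ := ν * Real.exp (-(1 / 4 * s)) * √(((n : ℝ) + 2) / 2) with hρdef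
        have hρ0 : 0 ≤ ρ := by positivity
        have hρ4 : ρ ^ 4 = ν ^ 4 * E1 * (((n : ℝ) + 2) / 2) ^ 2 := by
          have e1 : Real.exp (-(1 / 4 * s)) ^ 4 = E1 := by
            rw [← Real.exp_nat_mul]
            congr 1
            push_cast
            ring
          have e2 : √(((n : ℝ) + 2) / 2) ^ 4 = (((n : ℝ) + 2) / 2) ^ 2 := by
            calc √(((n : ℝ) + 2) / 2) ^ 4 = (√(((n : ℝ) + 2) / 2) ^ 2) ^ 2 := by ring
              _ = _ := by rw [Real.sq_sqrt (by positivity)]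
          calc ρ ^ 4 = ν ^ 4 * Real.exp (-(1 / 4 * s)) ^ 4 * √(((n : ℝ) + 2) / 2) ^ 4 := by
                rw [hρdef]; ring
            _ = _ := by rw [e1, e2]
        -- termwise bound
        have hterm : ∀ k ∈ Finset.range (n + 1),
            harm (n + 1) * q (n + 2) (k + 1) * (Fd (k + 1) s * Fd (n + 1 - k) s) ≤
            harm (n + 1) * q (n + 2) (k + 1) - harm (n + 1) * q (n + 2) (k + 1) *
              (((k : ℝ) + 1) * vf ν β s k + ((n : ℝ) + 1 - k) * vf ν β s (n - k)) +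
              ((n : ℝ) + 2) / 2 * (ν ^ 4 * E1) * ρ := by
          intro k hk
          have hk' := Finset.mem_range.1 hk
          have hkn : k ≤ n := by omega
          have hq : 0 ≤ harm (n + 1) * q (n + 2) (k + 1) := mul_nonneg hh.le (q_nonneg n hk')
          have i1 := ih k (by omega) hs
          have i2 := ih (n - k) (by omega) hs
          have e1 : n - k + 1 = n + 1 - k := by omega
          have e2 : ((n - k : ℕ) : ℝ) + 1 = (n : ℝ) + 1 - k := by rw [Nat.cast_sub hkn]; ring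
          rw [e1, e2] at i2
          have f1 := Fd_nonneg (k + 1) s
          have f2 := Fd_nonneg (n + 1 - k) s
          have f3 := Fd_le_one (k + 1) s
          have f4 := Fd_le_one (n + 1 - k) s
          have hi0 : (0:ℝ) < (k : ℝ) + 1 := by positivity
          have hj0 : (0:ℝ) < (n : ℝ) + 1 - k := by
            have : (k : ℝ) < (n : ℝ) + 1 := by exact_mod_cast hk'
            linarith
          set a' := max (((k : ℝ) + 1) * vf ν β s k) 0 with ha'
          set b' := max (((n : ℝ) + 1 - k) * vf ν β s (n - k)) 0 with hb'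
          have ha0 : 0 ≤ a' := le_max_right _ _
          have hb0 : 0 ≤ b' := le_max_right _ _
          have hFa : Fd (k + 1) s ≤ 1 - a' := by
            rcases max_choice (((k : ℝ) + 1) * vf ν β s k) 0 with h | h
            · rw [ha', h]; exact i1
            · rw [ha', h]; linarith
          have hFb : Fd (n + 1 - k) s ≤ 1 - b' := by
            rcases max_choice (((n : ℝ) + 1 - k) * vf ν β s (n - k)) 0 with h | h
            · rw [hb', h]; exact i2
            · rw [hb', h]; linarith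
          -- the product
          set w := ν ^ 4 * E1 * (((k : ℝ) + 1) * ((n : ℝ) + 1 - k)) with hwdef
          have hw0 : 0 ≤ w := by positivity
          have hax : a' ≤ ν ^ 4 * E1 * (((k : ℝ) + 1) * k) := by
            apply max_le
            · have := mul_le_mul_of_nonneg_left (vf_le (s := s) hν hβ0 k) hi0.le
              linarith
            · positivity
          have hbx : b' ≤ ν ^ 4 * E1 * (((n : ℝ) + 1 - k) * ((n - k : ℕ) : ℝ)) := by
            apply max_le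
            · have := mul_le_mul_of_nonneg_left (vf_le (s := s) hν hβ0 (n - k)) hj0.le
              linarith
            · positivity
          have hab2 : a' * b' ≤ w ^ 2 := by
            have h1 : a' * b' ≤ (ν ^ 4 * E1 * (((k : ℝ) + 1) * k)) *
                (ν ^ 4 * E1 * (((n : ℝ) + 1 - k) * ((n - k : ℕ) : ℝ))) :=
              mul_le_mul hax hbx hb0 (by positivity)
            refine h1.trans ?_
            have h2 : (ν ^ 4 * E1 * (((k : ℝ) + 1) * k)) *
                (ν ^ 4 * E1 * (((n : ℝ) + 1 - k) * ((n - k : ℕ) : ℝ))) ≤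
                (ν ^ 4 * E1 * (((k : ℝ) + 1) * ((k : ℝ) + 1))) *
                (ν ^ 4 * E1 * (((n : ℝ) + 1 - k) * ((n : ℝ) + 1 - k))) := by
              apply mul_le_mul _ _ (by positivity) (by positivity)
              · apply mul_le_mul_of_nonneg_left _ (by positivity)
                apply mul_le_mul_of_nonneg_left _ hi0.le
                linarith
              · apply mul_le_mul_of_nonneg_left _ (by positivity)
                apply mul_le_mul_of_nonneg_left _ hj0.le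
                linarith
            refine h2.trans (le_of_eq ?_)
            rw [hwdef]; ring
          have hab1 : a' * b' ≤ 1 := mul_le_one₀ (by linarith) hb0 (by linarith)
          have hw4 : w ≤ ρ ^ 4 := by
            rw [hρ4, hwdef]
            apply mul_le_mul_of_nonneg_left _ (by positivity)
            nlinarith [sq_nonneg (((k : ℝ) + 1) - ((n : ℝ) + 1 - k))]
          have hab := min_bound hw0 hρ0 hw4 hab1 hab2
          have hprod : Fd (k + 1) s * Fd (n + 1 - k) s ≤ 1 - (((k : ℝ) + 1) * vf ν β s k +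
              ((n : ℝ) + 1 - k) * vf ν β s (n - k)) + w * ρ := by
            have h1 : Fd (k + 1) s * Fd (n + 1 - k) s ≤ (1 - a') * (1 - b') :=
              mul_le_mul hFa hFb f2 (by linarith)
            have h2 : ((k : ℝ) + 1) * vf ν β s k ≤ a' := le_max_left _ _
            have h3 : ((n : ℝ) + 1 - k) * vf ν β s (n - k) ≤ b' := le_max_left _ _
            nlinarith
          have h1 := mul_le_mul_of_nonneg_left hprod hq
          have h2 : harm (n + 1) * q (n + 2) (k + 1) * (w * ρ) =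
              ((n : ℝ) + 2) / 2 * (ν ^ 4 * E1) * ρ := by
            rw [harm_mul_q n hk', hwdef]
            field_simp
            ring
          calc _ ≤ _ := h1
            _ = harm (n + 1) * q (n + 2) (k + 1) - harm (n + 1) * q (n + 2) (k + 1) *
              (((k : ℝ) + 1) * vf ν β s k + ((n : ℝ) + 1 - k) * vf ν β s (n - k)) +
              harm (n + 1) * q (n + 2) (k + 1) * (w * ρ) := by ring
            _ = _ := by rw [h2]
        have hsum := Finset.sum_le_sum hterm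
        rw [Finset.sum_add_distrib, Finset.sum_sub_distrib, ← Finset.mul_sum, sum_q,
          sum_hq n (fun k => vf ν β s k), Finset.sum_const, Finset.card_range, nsmul_eq_mul]
          at hsum
        -- the source
        have hρle : ρ ≤ ν * Real.exp (-(1 / 4 * s)) * √((n + 1 : ℕ) : ℝ) := by
          rw [hρdef]
          apply mul_le_mul_of_nonneg_left _ (by positivity)
          apply Real.sqrt_le_sqrt
          push_cast
          have : (0:ℝ) ≤ n := Nat.cast_nonneg n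
          linarith
        have hsrc : ((n + 1 : ℕ) : ℝ) * (((n : ℝ) + 2) / 2 * (ν ^ 4 * E1) * ρ) ≤
            ((n : ℝ) + 2) * (1 / 2 * ν ^ 5 * Real.exp (-(5 / 4 * s)) * g3 (n + 1)) := by
          have e1 : Real.exp (-(5 / 4 * s)) = E1 * Real.exp (-(1 / 4 * s)) := by
            rw [hE1, ← Real.exp_add]; congr 1; ring
          calc ((n + 1 : ℕ) : ℝ) * (((n : ℝ) + 2) / 2 * (ν ^ 4 * E1) * ρ)
              ≤ ((n + 1 : ℕ) : ℝ) * (((n : ℝ) + 2) / 2 * (ν ^ 4 * E1) *
                (ν * Real.exp (-(1 / 4 * s)) * √((n + 1 : ℕ) : ℝ))) := by gcongr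
            _ = _ := by
                rw [e1]; unfold g3; ring
        have hkey := key_ineq hν hβ0 hβ1 hs n
        have hkey2 := mul_le_mul_of_nonneg_left hkey (by positivity : (0:ℝ) ≤ (n : ℝ) + 2)
        have hsplit : ∑ k ∈ Finset.range (n + 1),
            (vf ν β s (n + 1) - vf ν β s (n - k)) / ((k : ℝ) + 1) =
            harm (n + 1) * vf ν β s (n + 1) -
              ∑ k ∈ Finset.range (n + 1), vf ν β s (n - k) / ((k : ℝ) + 1) := by
          unfold harm
          rw [Finset.sum_mul, ← Finset.sum_sub_distrib]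
          apply Finset.sum_congr rfl
          intro k _
          ring
        rw [hsplit] at hkey2
        unfold Sf
        linarith)
      push_cast
      have e2 : ((n : ℝ) + 1 + 1) = (n : ℝ) + 2 := by ring
      rw [e2]
      exact hcmp

end Pool.Agent.Q287.CB
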