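import Pool.Agent.Q287.CB3

/-! The height of the critical beta-splitting tree divided by `log n` tends to `2`. -/

namespace Pool.Agent.Q287.CB

open MeasureTheory ProbabilityTheory Set Filter Topology
open scoped ENNReal

/-- the tree is high with a probability bounded below -/
lemma pos_prob {ε : ℝ} (hε0 : 0 < ε) (hε1 : ε < 1) {m : ℕ} (hm : 1 ≤ m)
    (hlarge : 4096 / ε ≤ Real.exp (ε * Real.log ((m : ℝ) + 1) / 8)) :
    Fd (m + 1) ((2 - ε) * Real.log ((m : ℝ) + 1)) ≤ 1 - 1 / 2 ^ 34 := by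
  set n : ℝ := (m : ℝ) + 1 with hn
  set L := Real.log n with hL
  set t := (2 - ε) * L with ht
  have hm' : (1:ℝ) ≤ m := by exact_mod_cast hm
  have hn2 : 2 ≤ n := by rw [hn]; linarith
  have hn0 : 0 < n := by linarith
  have hL0 : 0 < L := Real.log_pos (by linarith)
  have ht0 : 0 ≤ t := mul_nonneg (by linarith) hL0.le
  set β := ε / 32 with hβ
  have hβ0 : 0 < β := by rw [hβ]; linarith
  have hβ1 : β < 1 / 2 := by rw [hβ]; linarith
  set ν := Real.exp (t / 4) / (256 * √n) with hν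
  have hsn : 0 < √n := Real.sqrt_pos.2 hn0
  have hν0 : 0 ≤ ν := by positivity
  have hsub := sub_solution hν0 hβ0 hβ1 m ht0
  refine hsub.trans ?_
  rw [← hn]
  -- the value X
  set X := ν ^ 4 * Real.exp (-t) * n * m with hX
  have hν4 : ν ^ 4 * Real.exp (-t) = 1 / (256 ^ 4 * n ^ 2) := by
    have e1 : Real.exp (t / 4) ^ 4 = Real.exp t := by
      rw [← Real.exp_nat_mul]; congr 1; push_cast; ring
    have e2 : √n ^ 4 = n ^ 2 := by
      calc √n ^ 4 = (√n ^ 2) ^ 2 := by ring
        _ = _ := by rw [Real.sq_sqrt hn0.le]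
    rw [hν, div_pow, mul_pow, e1, e2, div_mul_eq_mul_div, ← Real.exp_add]
    simp
  have hXval : X = (m : ℝ) / (256 ^ 4 * n) := by
    rw [hX, hν4]; field_simp
  have hXlow : 1 / 2 ^ 33 ≤ X := by
    rw [hXval, div_le_div_iff₀ (by norm_num) (by positivity)]
    rw [hn]
    norm_num
    linarith
  have hX0 : 0 ≤ X := le_trans (by norm_num) hXlow
  -- second term
  have h2 : n * (64 * ν ^ 5 * Real.exp (-(5 / 4 * t)) * g3 m) ≤ X / 4 := by
    have e1 : Real.exp (-(5 / 4 * t)) = Real.exp (-t) * Real.exp (-(t / 4)) := by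
      rw [← Real.exp_add]; congr 1; ring
    have e2 : n * (64 * ν ^ 5 * Real.exp (-(5 / 4 * t)) * g3 m) =
        64 * (ν * Real.exp (-(t / 4)) * √(m : ℝ)) * X := by
      rw [e1, hX]; unfold g3; ring
    have e3 : ν * Real.exp (-(t / 4)) * √(m : ℝ) ≤ 1 / 256 := by
      have e4 : ν * Real.exp (-(t / 4)) = 1 / (256 * √n) := by
        rw [hν, div_mul_eq_mul_div, ← Real.exp_add]; simp
      rw [e4, div_mul_eq_mul_div, one_mul, div_le_div_iff₀ (by positivity) (by norm_num)]
      have e5 : √(m : ℝ) ≤ √n := Real.sqrt_le_sqrt (by rw [hn]; linarith)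
      linarith
    rw [e2]
    calc 64 * (ν * Real.exp (-(t / 4)) * √(m : ℝ)) * X ≤ 64 * (1 / 256) * X := by gcongr
      _ = X / 4 := by ring
  -- third term
  have h3 : n * (8192 / β * ν ^ 5 * Real.exp (-((1 - 2 * β) * t)) * (m : ℝ) ^ (1 - β)) ≤ X / 4 := by
    have e1 : Real.exp (-((1 - 2 * β) * t)) = Real.exp (-t) * Real.exp (2 * β * t) := by
      rw [← Real.exp_add]; congr 1; ring
    have e2 : (m : ℝ) ^ (1 - β) ≤ m := by
      calc (m : ℝ) ^ (1 - β) ≤ (m : ℝ) ^ (1 : ℝ) :=
            Real.rpow_le_rpow_of_exponent_le hm' (by linarith)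
        _ = m := Real.rpow_one _
    have e3 : ν * Real.exp (2 * β * t) ≤ Real.exp (-(ε * L / 8)) / 256 := by
      have e4 : √n = Real.exp (L / 2) := by
        rw [hL, Real.sqrt_eq_rpow, Real.rpow_def_of_pos hn0]
        congr 1; ring
      rw [hν, e4]
      have e5 : Real.exp (t / 4) / (256 * Real.exp (L / 2)) * Real.exp (2 * β * t) =
          Real.exp (t / 4 + 2 * β * t - L / 2) / 256 := by
        rw [Real.exp_sub, Real.exp_add]
        field_simp
      rw [e5]
      apply div_le_div_of_nonneg_right _ (by norm_num)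
      apply Real.exp_le_exp.2
      rw [ht, hβ]
      nlinarith [mul_nonneg (mul_nonneg hε0.le hε0.le) hL0.le]
    have e6 : 8192 / β * (ν * Real.exp (2 * β * t)) ≤ 1 / 4 := by
      calc 8192 / β * (ν * Real.exp (2 * β * t)) ≤ 8192 / β * (Real.exp (-(ε * L / 8)) / 256) :=
            mul_le_mul_of_nonneg_left e3 (by positivity)
        _ = (1024 / ε) * (Real.exp (ε * L / 8))⁻¹ := by
            rw [hβ, Real.exp_neg]; field_simp; ring
        _ ≤ (1024 / ε) * (4096 / ε)⁻¹ := by
            apply mul_le_mul_of_nonneg_left _ (by positivity)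
            exact inv_anti₀ (by positivity) hlarge
        _ = 1 / 4 := by field_simp; norm_num
    calc n * (8192 / β * ν ^ 5 * Real.exp (-((1 - 2 * β) * t)) * (m : ℝ) ^ (1 - β))
        ≤ n * (8192 / β * ν ^ 5 * Real.exp (-((1 - 2 * β) * t)) * m) := by gcongr
      _ = 8192 / β * (ν * Real.exp (2 * β * t)) * X := by rw [e1, hX]; ring
      _ ≤ 1 / 4 * X := mul_le_mul_of_nonneg_right e6 hX0
      _ = X / 4 := by ring
  have h4 : n * vf ν β t m = X - n * (64 * ν ^ 5 * Real.exp (-(5 / 4 * t)) * g3 m) -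
      n * (8192 / β * ν ^ 5 * Real.exp (-((1 - 2 * β) * t)) * (m : ℝ) ^ (1 - β)) := by
    unfold vf
    rw [hX]; ring
  rw [h4]
  have : (1:ℝ) / 2 ^ 33 = 2 * (1 / 2 ^ 34) := by norm_num
  linarith

/-! ### Harmonic sums -/

lemma harm_le (k : ℕ) : harm (k + 1) ≤ 1 + Real.log ((k : ℝ) + 1) := by
  induction k with
  | zero => simp [harm]
  | succ k ih =>
    rw [harm_succ]
    have h1 : (0:ℝ) < (k : ℝ) + 1 := by positivity
    have h2 : (0:ℝ) < (k : ℝ) + 2 := by positivity
    have h3 := Real.one_sub_inv_le_log_of_pos (x := ((k : ℝ) + 2) / ((k : ℝ) + 1)) (by positivity)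
    rw [Real.log_div h2.ne' h1.ne', inv_div] at h3
    have h4 : 1 - ((k : ℝ) + 1) / ((k : ℝ) + 2) = 1 / ((k : ℝ) + 2) := by field_simp; ring
    rw [h4] at h3
    push_cast
    have e : ((k : ℝ) + 1 + 1) = (k : ℝ) + 2 := by ring
    rw [e]
    linarith

lemma sum_inv_ge {a : ℕ} (ha : 1 ≤ a) : ∀ b : ℕ, a ≤ b →
    Real.log b - Real.log a ≤ ∑ i ∈ Finset.Ico a b, 1 / (i : ℝ) := by
  intro b hab
  induction b, hab using Nat.le_induction with
  | base => simp
  | succ b hb ih =>
    rw [Finset.sum_Ico_succ_top hb]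
    have hb0 : (0:ℝ) < b := by exact_mod_cast (by omega : 0 < b)
    have h1 := Real.log_le_sub_one_of_pos (x := ((b : ℝ) + 1) / b) (by positivity)
    rw [Real.log_div (by positivity) hb0.ne'] at h1
    have h2 : ((b : ℝ) + 1) / b - 1 = 1 / b := by field_simp; ring
    rw [h2] at h1
    push_cast
    linarith

/-! ### Boosting -/

/-- one step of the boosting argument -/
lemma boost_step (n : ℕ) {T c r : ℝ} {L : ℕ} (hc0 : 0 ≤ c) (hc1 : c ≤ 1) (hr0 : 0 ≤ r)
    (hc : ∀ i, L ≤ i → i ≤ n + 2 → Fd i T ≤ 1 - c)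
    (hr : ∀ i, n + 2 ≤ 2 * i → i ≤ n + 1 → Fd i T ≤ r) {η : ℝ}
    (hη : η ≤ ∑ k ∈ (Finset.range (n + 1)).filter (fun k => L ≤ k + 1 ∧ L ≤ n + 1 - k),
      q (n + 2) (k + 1)) :
    Fd (n + 2) T ≤ r * (1 - c * η) := by
  have h1 : ∀ k ∈ Finset.range (n + 1), q (n + 2) (k + 1) * (Fd (k + 1) T * Fd (n + 1 - k) T) ≤
      r * q (n + 2) (k + 1) - r * c * (if L ≤ k + 1 ∧ L ≤ n + 1 - k then q (n + 2) (k + 1) else 0)
      := by
    intro k hk
    have hk' := Finset.mem_range.1 hk
    have hq := q_nonneg n hk'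
    have f1 := Fd_nonneg (k + 1) T
    have f2 := Fd_nonneg (n + 1 - k) T
    have f3 := Fd_le_one (k + 1) T
    have f4 := Fd_le_one (n + 1 - k) T
    split_ifs with hL
    · have g1 := hc (k + 1) hL.1 (by omega)
      have g2 := hc (n + 1 - k) hL.2 (by omega)
      have hprod : Fd (k + 1) T * Fd (n + 1 - k) T ≤ r * (1 - c) := by
        rcases le_total (k + 1) (n + 1 - k) with h2 | h2
        · have g3 := hr (n + 1 - k) (by omega) (by omega)
          rw [mul_comm]
          exact mul_le_mul g3 g1 f1 hr0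
        · have g3 := hr (k + 1) (by omega) (by omega)
          exact mul_le_mul g3 g2 f2 hr0
      have := mul_le_mul_of_nonneg_left hprod hq
      linarith
    · have hprod : Fd (k + 1) T * Fd (n + 1 - k) T ≤ r * 1 := by
        rcases le_total (k + 1) (n + 1 - k) with h2 | h2
        · have g3 := hr (n + 1 - k) (by omega) (by omega)
          rw [mul_comm]
          exact mul_le_mul g3 f3 f1 hr0
        · have g3 := hr (k + 1) (by omega) (by omega)
          exact mul_le_mul g3 f4 f2 hr0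
      have := mul_le_mul_of_nonneg_left hprod hq
      linarith
  calc Fd (n + 2) T ≤ _ := Fd_le_split n T
    _ ≤ ∑ k ∈ Finset.range (n + 1), (r * q (n + 2) (k + 1) -
        r * c * (if L ≤ k + 1 ∧ L ≤ n + 1 - k then q (n + 2) (k + 1) else 0)) :=
      Finset.sum_le_sum h1
    _ = r - r * c * ∑ k ∈ (Finset.range (n + 1)).filter (fun k => L ≤ k + 1 ∧ L ≤ n + 1 - k),
      q (n + 2) (k + 1) := by
        rw [Finset.sum_sub_distrib, ← Finset.mul_sum, ← Finset.mul_sum, sum_q, mul_one,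
          Finset.sum_filter]
    _ ≤ r - r * c * η := by
        have := mul_le_mul_of_nonneg_left hη (mul_nonneg hr0 hc0)
        linarith
    _ = _ := by ring

/-- the probability of a macroscopic split -/
lemma split_prob (n : ℕ) {L : ℕ} (hL : 1 ≤ L) (hLn : 2 * L ≤ n + 2) :
    (Real.log ((n + 3 - L : ℕ) : ℝ) - Real.log (L : ℝ)) / (2 * harm (n + 1)) ≤
    ∑ k ∈ (Finset.range (n + 1)).filter (fun k => L ≤ k + 1 ∧ L ≤ n + 1 - k),
      q (n + 2) (k + 1) := by
  have hh := harm_pos (Nat.succ_pos n)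
  have h1 : ∀ k ∈ (Finset.range (n + 1)).filter (fun k => L ≤ k + 1 ∧ L ≤ n + 1 - k),
      (1 / (2 * harm (n + 1))) * (1 / ((k + 1 : ℕ) : ℝ)) ≤ q (n + 2) (k + 1) := by
    intro k hk
    have hk' : k < n + 1 := Finset.mem_range.1 (Finset.mem_filter.1 hk).1
    have h2 := harm_mul_q n hk'
    have h3 : (0:ℝ) < (n : ℝ) + 1 - k := by
      have : (k : ℝ) < (n : ℝ) + 1 := by exact_mod_cast hk'
      linarith
    have h4 : (0:ℝ) < 1 / ((n : ℝ) + 1 - k) := by positivity
    have h5 : q (n + 2) (k + 1) = (1 / ((k : ℝ) + 1) + 1 / ((n : ℝ) + 1 - k)) / 2 / harm (n + 1) := by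
      rw [eq_div_iff hh.ne', mul_comm]; exact h2
    rw [h5, div_mul_div_comm, one_mul]
    push_cast
    rw [div_div, le_div_iff₀ (by positivity)]
    have h6 : 1 / (2 * harm (n + 1) * ((k : ℝ) + 1)) * (2 * harm (n + 1)) = 1 / ((k : ℝ) + 1) := by
      field_simp
    rw [h6]
    linarith
  have h2 := Finset.sum_le_sum h1
  rw [← Finset.mul_sum] at h2
  refine le_trans ?_ h2
  have h3 : ∑ k ∈ (Finset.range (n + 1)).filter (fun k => L ≤ k + 1 ∧ L ≤ n + 1 - k),
      1 / ((k + 1 : ℕ) : ℝ) = ∑ i ∈ Finset.Ico L (n + 3 - L), 1 / (i : ℝ) := by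
    apply Finset.sum_nbij (fun k => k + 1)
    · intro k hk
      simp only [Finset.mem_filter, Finset.mem_range, Finset.mem_Ico] at hk ⊢
      omega
    · intro k _ k' _ h
      simpa using h
    · intro i hi
      simp only [Finset.coe_Ico, Set.mem_Ico, Finset.coe_filter, Finset.mem_range,
        Set.mem_image, Set.mem_ofPred_eq] at hi ⊢
      exact ⟨i - 1, by omega, by omega⟩
    · intro k _; rfl
  rw [h3, div_eq_mul_one_div, mul_comm]
  apply mul_le_mul_of_nonneg_left _ (by positivity)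
  exact sum_inv_ge hL _ (by omega)

/-- iterating the boosting step -/
lemma boost_iter {n L L' : ℕ} {T c η : ℝ} (hc0 : 0 ≤ c) (hc1 : c ≤ 1) (hη0 : 0 ≤ η) (hη1 : η ≤ 1)
    (hL' : 1 ≤ L') (hc : ∀ i, L ≤ i → i ≤ n → Fd i T ≤ 1 - c)
    (hη : ∀ m, L' ≤ m + 2 → m + 2 ≤ n → η ≤
      ∑ k ∈ (Finset.range (m + 1)).filter (fun k => L ≤ k + 1 ∧ L ≤ m + 1 - k),
        q (m + 2) (k + 1)) (k : ℕ) :
    ∀ m, 2 ^ k * L' ≤ m → m ≤ n → Fd m T ≤ (1 - c * η) ^ k := by
  have hr : 0 ≤ 1 - c * η := by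
    have := mul_le_one₀ hc1 hη0 hη1
    linarith
  induction k with
  | zero => intro m _ _; simpa using Fd_le_one m T
  | succ k ih =>
    intro m hm hmn
    have h2 : 2 ^ k * L' ≥ 1 := Nat.mul_pos (by positivity) hL'
    have h3 : 2 ^ (k + 1) * L' = 2 * (2 ^ k * L') := by ring
    obtain ⟨m', rfl⟩ : ∃ m', m = m' + 2 := ⟨m - 2, by omega⟩
    have hL'm : L' ≤ m' + 2 := by
      have : L' ≤ 2 ^ (k + 1) * L' := Nat.le_mul_of_pos_left _ (by positivity)
      omega
    have := boost_step m' (T := T) (c := c) (r := (1 - c * η) ^ k) (L := L) hc0 hc1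
      (pow_nonneg hr k) (fun i h4 h5 => hc i h4 (by omega))
      (fun i h4 h5 => ih i (by omega) (by omega)) (hη m' hL'm hmn)
    rw [pow_succ]
    exact this

/-- the lower bound for the height: `P(D*_n ≤ (2-ε) log n) → 0` -/
theorem height_lower {ε : ℝ} (hε0 : 0 < ε) (hε1 : ε < 1) :
    Tendsto (fun n : ℕ => Fd n ((2 - ε) * Real.log n)) atTop (𝓝 0) := by
  -- constants
  set c : ℝ := 1 / 2 ^ 34 with hc
  have hc0 : 0 < c := by rw [hc]; norm_num
  have hc1 : c ≤ 1 := by rw [hc]; norm_num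
  set η : ℝ := ε / 64 with hη
  have hη0 : 0 < η := by rw [hη]; linarith
  have hη1 : η ≤ 1 := by rw [hη]; linarith
  have hρ0 : 0 ≤ 1 - c * η := by
    have := mul_le_one₀ hc1 hη0.le hη1
    linarith
  have hρ1 : 1 - c * η < 1 := by
    have := mul_pos hc0 hη0
    linarith
  -- logarithm tends to infinity
  have hlog : Tendsto (fun n : ℕ => Real.log (n : ℝ)) atTop atTop :=
    Real.tendsto_log_atTop.comp tendsto_natCast_atTop_atTop
  -- eventually bounded by powers
  have hmain : ∀ k : ℕ, ∀ᶠ n : ℕ in atTop, Fd n ((2 - ε) * Real.log n) ≤ (1 - c * η) ^ k := by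
    intro k
    -- threshold
    have ev1 := hlog.eventually_ge_atTop (64 * Real.log 2 / ε)
    have ev2 := hlog.eventually_ge_atTop (8 / ε * (((k : ℝ) + 1) * Real.log 2))
    have ev3 := hlog.eventually_ge_atTop ((4 / 3) * (32 / ε) * Real.log (8192 / ε))
    have ev4 := hlog.eventually_ge_atTop 2
    have ev5 := hlog.eventually_ge_atTop (8 * Real.log 2 / ε * 8)
    filter_upwards [ev1, ev2, ev3, ev4, ev5, eventually_ge_atTop 3] with n h1 h2 h3 h4 h5 hn3
    set x := Real.log (n : ℝ) with hx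
    have hn0 : (0:ℝ) < n := by exact_mod_cast (by omega : 0 < n)
    have hnx : (n : ℝ) = Real.exp x := (Real.exp_log hn0).symm
    have hlog2 : 0 < Real.log 2 := Real.log_pos (by norm_num)
    set T := (2 - ε) * x with hT
    set L := ⌈Real.exp ((1 - ε / 4) * x)⌉₊ with hL
    set L' := ⌈Real.exp ((1 - ε / 8) * x)⌉₊ with hL'
    have hL1 : Real.exp ((1 - ε / 4) * x) ≤ L := Nat.le_ceil _
    have hL2 : (L : ℝ) < Real.exp ((1 - ε / 4) * x) + 1 := Nat.ceil_lt_add_one (Real.exp_pos _).le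
    have hL'1 : Real.exp ((1 - ε / 8) * x) ≤ L' := Nat.le_ceil _
    have hL'2 : (L' : ℝ) < Real.exp ((1 - ε / 8) * x) + 1 :=
      Nat.ceil_lt_add_one (Real.exp_pos _).le
    have hx0 : 0 < x := by linarith
    have hexp1 : 1 ≤ Real.exp ((1 - ε / 4) * x) :=
      Real.one_le_exp (mul_nonneg (by linarith) hx0.le)
    have hexp2 : 1 ≤ Real.exp ((1 - ε / 8) * x) :=
      Real.one_le_exp (mul_nonneg (by linarith) hx0.le)
    have hLpos : 1 ≤ L := by
      have : (1:ℝ) ≤ L := hexp1.trans hL1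
      exact_mod_cast this
    have hL'pos : 1 ≤ L' := by
      have : (1:ℝ) ≤ L' := hexp2.trans hL'1
      exact_mod_cast this
    -- (P1)
    have P1 : ∀ i, L ≤ i → i ≤ n → Fd i T ≤ 1 - c := by
      intro i hLi hin
      have hi1 : (1 - ε / 4) * x ≤ Real.log i := by
        rw [Real.le_log_iff_exp_le (by exact_mod_cast (by omega : 0 < i))]
        exact hL1.trans (by exact_mod_cast hLi)
      have hi2 : (3 / 4) * x ≤ Real.log i := by nlinarith
      have hilog : 1 ≤ Real.log i := by linarith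
      have hi3 : 2 ≤ i := by
        by_contra hcon
        have : i = 1 ∨ i = 0 := by omega
        rcases this with h | h <;> subst h <;> norm_num at hilog
      obtain ⟨j, rfl⟩ : ∃ j, i = j + 1 := ⟨i - 1, by omega⟩
      have hcast : (((j + 1 : ℕ) : ℝ)) = (j : ℝ) + 1 := by push_cast; ring
      rw [hcast] at hi1 hi2
      have hTle : T ≤ (2 - ε / 2) * Real.log ((j : ℝ) + 1) := by
        have h6 : (2 - ε / 2) * ((1 - ε / 4) * x) ≤ (2 - ε / 2) * Real.log ((j : ℝ) + 1) :=
          mul_le_mul_of_nonneg_left hi1 (by linarith)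
        have h7 : (2 - ε) * x ≤ (2 - ε / 2) * ((1 - ε / 4) * x) := by
          nlinarith [mul_nonneg (mul_nonneg hε0.le hε0.le) hx0.le]
        linarith
      refine (Fd_mono (j + 1) hTle).trans ?_
      apply pos_prob (by linarith) (by linarith) (by omega)
      -- large
      have h8 : Real.log (8192 / ε) ≤ ε / 2 * Real.log ((j : ℝ) + 1) / 8 := by
        have h9 : (3 / 4) * ((4 / 3) * (32 / ε) * Real.log (8192 / ε)) ≤ Real.log ((j : ℝ) + 1) :=
          (mul_le_mul_of_nonneg_left h3 (by norm_num)).trans hi2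
        have h10 : (3 / 4) * ((4 / 3) * (32 / ε) * Real.log (8192 / ε)) =
            (32 / ε) * Real.log (8192 / ε) := by ring
        rw [h10] at h9
        have h11 := mul_le_mul_of_nonneg_left h9 (by positivity : 0 ≤ ε / 32)
        have h12 : ε / 32 * (32 / ε * Real.log (8192 / ε)) = Real.log (8192 / ε) := by
          field_simp
        rw [h12] at h11
        have hjl : 0 ≤ Real.log ((j : ℝ) + 1) := by linarith
        nlinarith [mul_nonneg hε0.le hjl]
      have h13 : 4096 / (ε / 2) = 8192 / ε := by field_simp; norm_num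
      rw [h13]
      calc 8192 / ε = Real.exp (Real.log (8192 / ε)) := (Real.exp_log (by positivity)).symm
        _ ≤ _ := Real.exp_le_exp.2 h8
    -- comparison of exponentials
    have hcmp : 4 * Real.exp ((1 - ε / 4) * x) ≤ Real.exp ((1 - ε / 8) * x) := by
      have h6 : Real.exp ((1 - ε / 8) * x) = Real.exp (ε / 8 * x) * Real.exp ((1 - ε / 4) * x) := by
        rw [← Real.exp_add]; congr 1; ring
      rw [h6]
      apply mul_le_mul_of_nonneg_right _ (Real.exp_pos _).le
      have h7 : 2 * Real.log 2 ≤ ε / 8 * x := by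
        have := mul_le_mul_of_nonneg_left h1 (by positivity : 0 ≤ ε / 8)
        have h8 : ε / 8 * (64 * Real.log 2 / ε) = 8 * Real.log 2 := by field_simp; norm_num
        rw [h8] at this
        linarith
      calc (4:ℝ) = Real.exp (2 * Real.log 2) := by
            rw [two_mul, Real.exp_add, Real.exp_log (by norm_num)]; norm_num
        _ ≤ _ := Real.exp_le_exp.2 h7
    -- (P2)
    have P2 : ∀ m, L' ≤ m + 2 → m + 2 ≤ n → η ≤
        ∑ k ∈ (Finset.range (m + 1)).filter (fun k => L ≤ k + 1 ∧ L ≤ m + 1 - k),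
          q (m + 2) (k + 1) := by
      intro m hm1 hm2
      have hmr : Real.exp ((1 - ε / 8) * x) ≤ (m : ℝ) + 2 := by
        refine hL'1.trans ?_
        exact_mod_cast hm1
      have h2L : (2 : ℝ) * L ≤ (m : ℝ) + 2 := by linarith
      have h2L' : 2 * L ≤ m + 2 := by exact_mod_cast h2L
      refine le_trans ?_ (split_prob m hLpos h2L')
      have hh := harm_pos (Nat.succ_pos m)
      rw [le_div_iff₀ (by positivity)]
      -- numerator
      have hnum : ε / 16 * x ≤ Real.log ((m + 3 - L : ℕ) : ℝ) - Real.log (L : ℝ) := by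
        have h6 : ((m + 3 - L : ℕ) : ℝ) = (m : ℝ) + 3 - L := by
          rw [Nat.cast_sub (by omega)]; push_cast; ring
        have h7 : Real.exp ((1 - ε / 8) * x) / 2 ≤ ((m + 3 - L : ℕ) : ℝ) := by
          rw [h6]; linarith
        have h8 : (1 - ε / 8) * x - Real.log 2 ≤ Real.log ((m + 3 - L : ℕ) : ℝ) := by
          rw [Real.le_log_iff_exp_le (lt_of_lt_of_le (by positivity) h7), Real.exp_sub,
            Real.exp_log (by norm_num)]
          exact h7
        have h9 : Real.log (L : ℝ) ≤ (1 - ε / 4) * x + Real.log 2 := by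
          rw [Real.log_le_iff_le_exp (by exact_mod_cast hLpos), Real.exp_add,
            Real.exp_log (by norm_num)]
          linarith
        have h10 : 4 * Real.log 2 ≤ ε / 16 * x := by
          have := mul_le_mul_of_nonneg_left h1 (by positivity : 0 ≤ ε / 16)
          have h11 : ε / 16 * (64 * Real.log 2 / ε) = 4 * Real.log 2 := by field_simp; norm_num
          rw [h11] at this
          linarith
        linarith
      have hharm : harm (m + 1) ≤ 2 * x := by
        have h6 := harm_le m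
        have h7 : Real.log ((m : ℝ) + 1) ≤ x := by
          rw [hx]
          apply Real.log_le_log (by positivity)
          have : ((m + 2 : ℕ) : ℝ) ≤ n := by exact_mod_cast hm2
          push_cast at this
          linarith
        linarith
      calc η * (2 * harm (m + 1)) ≤ η * (2 * (2 * x)) := by gcongr
        _ = ε / 16 * x := by rw [hη]; ring
        _ ≤ _ := hnum
    -- (P3)
    have P3 : 2 ^ k * L' ≤ n := by
      have h6 : (2:ℝ) ^ k * L' ≤ n := by
        have h7 : (L' : ℝ) ≤ 2 * Real.exp ((1 - ε / 8) * x) := by linarith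
        have h8 : (2:ℝ) ^ (k + 1) ≤ Real.exp (ε / 8 * x) := by
          have h9 : ((k : ℝ) + 1) * Real.log 2 ≤ ε / 8 * x := by
            have := mul_le_mul_of_nonneg_left h2 (by positivity : 0 ≤ ε / 8)
            have h10 : ε / 8 * (8 / ε * (((k : ℝ) + 1) * Real.log 2)) =
                ((k : ℝ) + 1) * Real.log 2 := by field_simp
            rw [h10] at this
            exact this
          calc (2:ℝ) ^ (k + 1) = Real.exp (((k : ℝ) + 1) * Real.log 2) := by
                have h11 : ((k : ℝ) + 1) = ((k + 1 : ℕ) : ℝ) := by push_cast; ring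
                rw [h11, Real.exp_nat_mul, Real.exp_log (by norm_num)]
            _ ≤ _ := Real.exp_le_exp.2 h9
        calc (2:ℝ) ^ k * L' ≤ 2 ^ k * (2 * Real.exp ((1 - ε / 8) * x)) := by gcongr
          _ = 2 ^ (k + 1) * Real.exp ((1 - ε / 8) * x) := by ring
          _ ≤ Real.exp (ε / 8 * x) * Real.exp ((1 - ε / 8) * x) := by gcongr
          _ = n := by rw [← Real.exp_add, hnx]; congr 1; ring
      exact_mod_cast h6
    exact boost_iter hc0.le hc1 hη0.le hη1 hL'pos P1 P2 k n P3 le_rfl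
  -- conclusion
  rw [Metric.tendsto_atTop']
  intro δ hδ
  obtain ⟨k, hk⟩ := exists_pow_lt_of_lt_one hδ hρ1
  obtain ⟨N, hN⟩ := eventually_atTop.1 (hmain k)
  refine ⟨N, fun n hn => ?_⟩
  rw [Real.dist_eq, sub_zero, abs_of_nonneg (Fd_nonneg _ _)]
  exact lt_of_le_of_lt (hN n hn.le) hk

/-! ### The theorem -/

lemma treeHeight_le_iff {n : ℕ} (hn : 1 ≤ n) (H : ℕ → ℝ) (t : ℝ) :
    treeHeight n H ≤ t ↔ ∀ k < n, H k ≤ t := by
  have : Nonempty (Fin n) := ⟨⟨0, by omega⟩⟩
  unfold treeHeight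
  constructor
  · intro h k hk
    exact (le_ciSup (f := fun k : Fin n => H k) (Set.finite_range _).bddAbove ⟨k, hk⟩).trans h
  · intro h
    exact ciSup_le fun k => h k k.2

/-- `D*_n / log n → 2` in probability -/
theorem main (ε : ℝ) (hε : 0 < ε) :
    Tendsto (fun n : ℕ => leafLaw n {H | ε < |treeHeight n H / Real.log n - 2|}) atTop (𝓝 0) := by
  set ε' := min ε (1 / 2) with hε'
  have hε'0 : 0 < ε' := lt_min hε (by norm_num)
  have hε'1 : ε' < 1 := lt_of_le_of_lt (min_le_right _ _) (by norm_num)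
  have hε'2 : ε' ≤ ε := min_le_left _ _
  have hlow := height_lower hε'0 hε'1
  have hlog : Tendsto (fun n : ℕ => Real.log (n : ℝ)) atTop atTop :=
    Real.tendsto_log_atTop.comp tendsto_natCast_atTop_atTop
  -- upper tail
  have hup : Tendsto (fun n : ℕ => Real.exp (-(ε * Real.log n))) atTop (𝓝 0) :=
    Real.tendsto_exp_neg_atTop_nhds_zero.comp (hlog.const_mul_atTop hε)
  have hsum : Tendsto (fun n : ℕ => ENNReal.ofReal (Fd n ((2 - ε') * Real.log n) +
      Real.exp (-(ε * Real.log n)))) atTop (𝓝 0) := by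
    have := ENNReal.tendsto_ofReal (hlow.add hup)
    simpa using this
  refine tendsto_of_tendsto_of_tendsto_of_le_of_le' tendsto_const_nhds hsum
    (Eventually.of_forall fun _ => zero_le) ?_
  filter_upwards [eventually_ge_atTop 3] with n hn
  have hn0 : (0:ℝ) < n := by exact_mod_cast (by omega : 0 < n)
  have hL0 : 0 < Real.log n := Real.log_pos (by exact_mod_cast (by omega : 1 < n))
  set L := Real.log (n : ℝ) with hL
  have hsub : {H : ℕ → ℝ | ε < |treeHeight n H / L - 2|} ⊆
      {H | ∀ k < n, H k ≤ (2 - ε') * L} ∪ {H | ∀ k < n, H k ≤ (2 + ε) * L}ᶜ := by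
    intro H hH
    have hH' : ε < |treeHeight n H / L - 2| := hH
    by_cases h1 : treeHeight n H ≤ (2 - ε') * L
    · left
      exact (treeHeight_le_iff (by omega) H _).1 h1
    · right
      intro h2
      have h2' : treeHeight n H ≤ (2 + ε) * L := (treeHeight_le_iff (by omega) H _).2 h2
      push Not at h1
      have h3 : 2 - ε' < treeHeight n H / L := by rwa [lt_div_iff₀ hL0]
      have h4 : treeHeight n H / L ≤ 2 + ε := by rwa [div_le_iff₀ hL0]
      have : |treeHeight n H / L - 2| ≤ ε := by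
        rw [abs_le]; constructor <;> linarith
      linarith
  have hupper : (leafLaw n).real {H | ∀ k < n, H k ≤ (2 + ε) * L}ᶜ ≤ Real.exp (-(ε * L)) := by
    rw [probReal_compl_eq_one_sub (measSet n _)]
    obtain ⟨m, rfl⟩ : ∃ m, n = m + 1 := ⟨n - 1, by omega⟩
    have h1 := height_upper m (t := (2 + ε) * L) (mul_nonneg (by linarith) hL0.le)
    have h2 : 1 - (leafLaw (m + 1)).real {H | ∀ k < m + 1, H k ≤ (2 + ε) * L} ≤
        ((m : ℝ) + 1) * m * Real.exp (-((2 + ε) * L)) := by
      unfold Fd at h1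
      linarith
    refine h2.trans ?_
    have h3 : Real.exp L = (m : ℝ) + 1 := by rw [hL, Real.exp_log hn0]; push_cast; ring
    have h4 : Real.exp (-((2 + ε) * L)) = Real.exp (-(ε * L)) / (((m : ℝ) + 1) * ((m : ℝ) + 1)) := by
      rw [← h3, ← Real.exp_add, ← Real.exp_sub]; congr 1; ring
    rw [h4]
    have h5 := Real.exp_pos (-(ε * L))
    have h6 : (0:ℝ) < (m : ℝ) + 1 := by positivity
    rw [mul_div_assoc', div_le_iff₀ (by positivity)]
    have h7 : ((m : ℝ) + 1) * m ≤ ((m : ℝ) + 1) * ((m : ℝ) + 1) := by nlinarith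
    nlinarith
  calc leafLaw n {H | ε < |treeHeight n H / L - 2|}
      ≤ leafLaw n ({H | ∀ k < n, H k ≤ (2 - ε') * L} ∪ {H | ∀ k < n, H k ≤ (2 + ε) * L}ᶜ) :=
        measure_mono hsub
    _ ≤ leafLaw n {H | ∀ k < n, H k ≤ (2 - ε') * L} +
        leafLaw n {H | ∀ k < n, H k ≤ (2 + ε) * L}ᶜ := measure_union_le _ _
    _ = ENNReal.ofReal (Fd n ((2 - ε') * L)) +
        ENNReal.ofReal ((leafLaw n).real {H | ∀ k < n, H k ≤ (2 + ε) * L}ᶜ) := by
        unfold Fd
        rw [ofReal_measureReal, ofReal_measureReal]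
    _ ≤ ENNReal.ofReal (Fd n ((2 - ε') * L)) + ENNReal.ofReal (Real.exp (-(ε * L))) := by
        gcongr
    _ = _ := by rw [ENNReal.ofReal_add (Fd_nonneg _ _) (Real.exp_pos _).le]

end Pool.Agent.Q287.CB
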