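import Pool.Agent.Q287.CB4

/-! The discrete-time critical beta-splitting tree: the random tree and its functionals. -/

namespace Pool.Agent.Q287.CD

open MeasureTheory ProbabilityTheory Set Filter Topology
open Pool.Agent.Q287.CB
open scoped ENNReal

/-- rooted binary trees -/
inductive BT where
  | leaf : BT
  | node (l r : BT) : BT
  deriving Encodable

instance : MeasurableSpace BT := ⊤

instance : DiscreteMeasurableSpace BT := ⟨fun _ => trivial⟩

namespace BT

/-- the number of leaves -/
def size : BT → ℕ
  | leaf => 1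
  | node l r => size l + size r

/-- the height: the maximal depth of a leaf, in edges -/
def height : BT → ℕ
  | leaf => 0
  | node l r => 1 + max (height l) (height r)

/-- the length of the greedy path, which moves into the larger subtree at each split (into the left
one in case of a tie) -/
def greedy : BT → ℕ
  | leaf => 0
  | node l r => 1 + if size r ≤ size l then greedy l else greedy r

/-- the sum of the depths of all leaves -/
def totalDepth : BT → ℕ
  | leaf => 0
  | node l r => totalDepth l + totalDepth r + size l + size r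

/-- the depth of a uniformly random leaf, averaged over the leaf -/
noncomputable def meanDepth (t : BT) : ℝ := (totalDepth t : ℝ) / (size t : ℝ)

end BT

open BT

/-- the law of `DTCS(n)` -/
noncomputable def dtcs : ℕ → Measure BT
  | 0 => Measure.dirac leaf
  | 1 => Measure.dirac leaf
  | (n + 2) => ∑ k : Fin (n + 1), ENNReal.ofReal (q (n + 2) (k + 1)) •
      ((dtcs (k + 1)).prod (dtcs (n + 1 - k))).map (fun w => node w.1 w.2)

lemma dtcs_eq (n : ℕ) : dtcs (n + 2) = ∑ k : Fin (n + 1), ENNReal.ofReal (q (n + 2) (k + 1)) •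
      ((dtcs (k + 1)).prod (dtcs (n + 1 - k))).map (fun w => node w.1 w.2) := by
  rw [dtcs]

lemma measurable_node : Measurable (fun w : BT × BT => node w.1 w.2) := Measurable.of_discrete

instance dtcs_prob (m : ℕ) : IsProbabilityMeasure (dtcs m) := by
  induction m using Nat.strong_induction_on with
  | _ m ih =>
    match m, ih with
    | 0, _ => rw [dtcs]; infer_instance
    | 1, _ => rw [dtcs]; infer_instance
    | (n + 2), ih =>
      rw [dtcs_eq]
      constructor
      rw [Measure.finsetSum_apply]
      have h1 : ∀ k : Fin (n + 1), (ENNReal.ofReal (q (n + 2) (k + 1)) •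
          ((dtcs (k + 1)).prod (dtcs (n + 1 - k))).map (fun w => node w.1 w.2)) Set.univ =
          ENNReal.ofReal (q (n + 2) (k + 1)) := by
        intro k
        have := ih (k + 1) (by omega)
        have := ih (n + 1 - k) (by omega)
        rw [Measure.smul_apply, Measure.map_apply measurable_node MeasurableSet.univ]
        simp
      rw [Finset.sum_congr rfl (fun k _ => h1 k)]
      rw [← ENNReal.ofReal_sum_of_nonneg (fun k _ => q_nonneg n k.2)]
      rw [Fin.sum_univ_eq_sum_range (fun k => q (n + 2) (k + 1)) (n + 1), sum_q]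
      simp

/-- the law is carried by a finite set -/
lemma dtcs_finite (m : ℕ) : ∃ S : Set BT, S.Finite ∧ dtcs m Sᶜ = 0 := by
  induction m using Nat.strong_induction_on with
  | _ m ih =>
    match m, ih with
    | 0, _ =>
      refine ⟨{leaf}, Set.finite_singleton _, ?_⟩
      rw [dtcs, Measure.dirac_apply' _ (MeasurableSet.of_discrete)]; simp
    | 1, _ =>
      refine ⟨{leaf}, Set.finite_singleton _, ?_⟩
      rw [dtcs, Measure.dirac_apply' _ (MeasurableSet.of_discrete)]; simp
    | (n + 2), ih =>
      have h1 : ∀ k : Fin (n + 1), ∃ S : Set BT, S.Finite ∧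
          (((dtcs (k + 1)).prod (dtcs (n + 1 - k))).map (fun w => node w.1 w.2)) Sᶜ = 0 := by
        intro k
        obtain ⟨S1, hS1, h1⟩ := ih (k + 1) (by omega)
        obtain ⟨S2, hS2, h2⟩ := ih (n + 1 - k) (by omega)
        refine ⟨(fun w : BT × BT => node w.1 w.2) '' (S1 ×ˢ S2), (hS1.prod hS2).image _, ?_⟩
        rw [Measure.map_apply measurable_node MeasurableSet.of_discrete]
        have hsub : (fun w : BT × BT => node w.1 w.2) ⁻¹'
            ((fun w : BT × BT => node w.1 w.2) '' (S1 ×ˢ S2))ᶜ ⊆
            (S1ᶜ ×ˢ Set.univ) ∪ (Set.univ ×ˢ S2ᶜ) := by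
          rintro ⟨a, b⟩ hab
          by_contra hcon
          apply hab
          refine ⟨(a, b), ?_, rfl⟩
          simp only [Set.mem_union, Set.mem_prod, Set.mem_compl_iff, Set.mem_univ, and_true,
            true_and, not_or, not_not] at hcon
          exact hcon
        refine measure_mono_null hsub ?_
        rw [measure_union_null_iff]
        constructor
        · rw [Measure.prod_prod, h1, zero_mul]
        · rw [Measure.prod_prod, h2, mul_zero]
      choose S hS hS0 using h1
      refine ⟨⋃ k, S k, Set.finite_iUnion hS, ?_⟩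
      rw [dtcs_eq, Measure.finsetSum_apply]
      apply Finset.sum_eq_zero
      intro k _
      rw [Measure.smul_apply, smul_eq_mul]
      have : (((dtcs (k + 1)).prod (dtcs (n + 1 - k))).map (fun w => node w.1 w.2))
          (⋃ k, S k)ᶜ = 0 := by
        refine measure_mono_null ?_ (hS0 k)
        apply Set.compl_subset_compl.2
        exact Set.subset_iUnion S k
      rw [this, mul_zero]

lemma dtcs_integrable (m : ℕ) (F : BT → ℝ) : Integrable F (dtcs m) := by
  obtain ⟨S, hS, h0⟩ := dtcs_finite m
  obtain ⟨C, hC⟩ := (hS.image (fun t => |F t|)).bddAbove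
  refine (integrable_const C).mono' (Measurable.of_discrete).aestronglyMeasurable ?_
  have : ∀ᵐ t ∂(dtcs m), t ∈ S := by
    rw [ae_iff]; exact h0
  filter_upwards [this] with t ht
  exact hC ⟨t, ht, rfl⟩

lemma dtcs_integrable_prod (m n : ℕ) (F : BT × BT → ℝ) :
    Integrable F ((dtcs m).prod (dtcs n)) := by
  obtain ⟨S, hS, h0⟩ := dtcs_finite m
  obtain ⟨T, hT, h1⟩ := dtcs_finite n
  obtain ⟨C, hC⟩ := ((hS.prod hT).image (fun t => |F t|)).bddAbove
  refine (integrable_const C).mono' (Measurable.of_discrete).aestronglyMeasurable ?_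
  have : ∀ᵐ t ∂((dtcs m).prod (dtcs n)), t ∈ S ×ˢ T := by
    rw [ae_iff]
    have hsub : {a : BT × BT | ¬ a ∈ S ×ˢ T} ⊆ (Sᶜ ×ˢ Set.univ) ∪ (Set.univ ×ˢ Tᶜ) := by
      rintro ⟨a, b⟩ hab
      by_contra hcon
      apply hab
      simp only [Set.mem_union, Set.mem_prod, Set.mem_compl_iff, Set.mem_univ, and_true,
        true_and, not_or, not_not] at hcon
      exact hcon
    refine measure_mono_null hsub ?_
    rw [measure_union_null_iff]
    constructor
    · rw [Measure.prod_prod, h0, zero_mul]
    · rw [Measure.prod_prod, h1, mul_zero]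
  filter_upwards [this] with t ht
  exact hC ⟨t, ht, rfl⟩

/-- the expectation of `F` over `DTCS(n)` -/
noncomputable def Ex (n : ℕ) (F : BT → ℝ) : ℝ := ∫ t, F t ∂(dtcs n)

lemma Ex_one (F : BT → ℝ) : Ex 1 F = F leaf := by
  unfold Ex; rw [dtcs, integral_dirac]

/-- first-split decomposition -/
lemma Ex_rec (n : ℕ) (F : BT → ℝ) : Ex (n + 2) F = ∑ k ∈ Finset.range (n + 1),
    q (n + 2) (k + 1) * Ex (k + 1) (fun l => Ex (n + 1 - k) (fun r => F (node l r))) := by
  unfold Ex
  rw [dtcs_eq, integral_finsetSum_measure]
  · rw [← Fin.sum_univ_eq_sum_range (fun k => q (n + 2) (k + 1) *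
      ∫ l, (∫ r, F (node l r) ∂(dtcs (n + 1 - k))) ∂(dtcs (k + 1))) (n + 1)]
    apply Finset.sum_congr rfl
    intro k _
    rw [integral_smul_measure, ENNReal.toReal_ofReal (q_nonneg n k.2), smul_eq_mul,
      integral_map measurable_node.aemeasurable (Measurable.of_discrete).aestronglyMeasurable]
    congr 1
    exact integral_prod _ (dtcs_integrable_prod _ _ _)
  · intro k _
    apply Integrable.smul_measure _ ENNReal.ofReal_ne_top
    rw [integrable_map_measure (Measurable.of_discrete).aestronglyMeasurable
      measurable_node.aemeasurable]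
    exact dtcs_integrable_prod _ _ _

lemma Ex_swap (m n : ℕ) (G : BT → BT → ℝ) :
    Ex m (fun l => Ex n (fun r => G l r)) = Ex n (fun r => Ex m (fun l => G l r)) := by
  unfold Ex
  exact integral_integral_swap (dtcs_integrable_prod m n (fun w => G w.1 w.2))

lemma Ex_mono (n : ℕ) {F G : BT → ℝ} (h : ∀ t, F t ≤ G t) : Ex n F ≤ Ex n G :=
  integral_mono (dtcs_integrable n F) (dtcs_integrable n G) h

lemma Ex_const (n : ℕ) (c : ℝ) : Ex n (fun _ => c) = c := by
  unfold Ex; simp

lemma Ex_add (n : ℕ) (F G : BT → ℝ) : Ex n (fun t => F t + G t) = Ex n F + Ex n G :=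
  integral_add (dtcs_integrable n F) (dtcs_integrable n G)

lemma Ex_sub (n : ℕ) (F G : BT → ℝ) : Ex n (fun t => F t - G t) = Ex n F - Ex n G :=
  integral_sub (dtcs_integrable n F) (dtcs_integrable n G)

lemma Ex_mul (n : ℕ) (c : ℝ) (F : BT → ℝ) : Ex n (fun t => c * F t) = c * Ex n F :=
  integral_const_mul c _

/-- almost surely the tree has `n` leaves -/
lemma dtcs_size (m : ℕ) : ∀ᵐ t ∂(dtcs (m + 1)), size t = m + 1 := by
  induction m using Nat.strong_induction_on with
  | _ m ih =>
    match m, ih with
    | 0, _ =>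
      rw [dtcs, ae_dirac_iff (MeasurableSet.of_discrete)]
      rfl
    | (n + 1), ih =>
      rw [ae_iff]
      change dtcs (n + 2) _ = 0
      rw [dtcs_eq, Measure.finsetSum_apply]
      apply Finset.sum_eq_zero
      intro k _
      rw [Measure.smul_apply, smul_eq_mul,
        Measure.map_apply measurable_node MeasurableSet.of_discrete]
      have h1 := ih k (by omega)
      have h2 := ih (n - k) (by omega)
      have e1 : n - (k : ℕ) + 1 = n + 1 - k := by omega
      rw [e1] at h2
      rw [ae_iff] at h1 h2
      have hsub : (fun w : BT × BT => node w.1 w.2) ⁻¹' {t | ¬ size t = n + 1 + 1} ⊆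
          ({t | ¬ size t = k + 1} ×ˢ Set.univ) ∪ (Set.univ ×ˢ {t | ¬ size t = n + 1 - k}) := by
        rintro ⟨a, b⟩ hab
        by_contra hcon
        apply hab
        simp only [Set.mem_union, Set.mem_prod, Set.mem_ofPred_eq, Set.mem_univ, and_true,
          true_and, not_or, not_not] at hcon
        change size a + size b = n + 1 + 1
        have := k.2
        omega
      have : ((dtcs (k + 1)).prod (dtcs (n + 1 - k)))
          ((fun w : BT × BT => node w.1 w.2) ⁻¹' {t | ¬ size t = n + 1 + 1}) = 0 := by
        refine measure_mono_null hsub ?_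
        rw [measure_union_null_iff]
        constructor
        · rw [Measure.prod_prod, h1, zero_mul]
        · rw [Measure.prod_prod, h2, mul_zero]
      rw [this, mul_zero]

lemma Ex_congr (m : ℕ) {F G : BT → ℝ} (h : ∀ t, size t = m + 1 → F t = G t) :
    Ex (m + 1) F = Ex (m + 1) G := by
  apply integral_congr_ae
  filter_upwards [dtcs_size m] with t ht
  exact h t ht

/-! ### The three expectations -/

/-- `E L*_n` -/
noncomputable def eH (n : ℕ) : ℝ := Ex n (fun t => (height t : ℝ))

/-- `E L⁺_n` -/
noncomputable def eG (n : ℕ) : ℝ := Ex n (fun t => (greedy t : ℝ))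

/-- `E L_n` -/
noncomputable def eL (n : ℕ) : ℝ := Ex n meanDepth

lemma eG_one : eG 1 = 0 := by unfold eG; rw [Ex_one]; simp [greedy]

lemma eH_one : eH 1 = 0 := by unfold eH; rw [Ex_one]; simp [height]

lemma eL_one : eL 1 = 0 := by unfold eL; rw [Ex_one]; simp [meanDepth, totalDepth]

/-- recurrence for the greedy path -/
lemma eG_rec (n : ℕ) : eG (n + 2) = 1 + ∑ k ∈ Finset.range (n + 1),
    q (n + 2) (k + 1) * eG (max (k + 1) (n + 1 - k)) := by
  have h1 : ∀ k ∈ Finset.range (n + 1), q (n + 2) (k + 1) *
      Ex (k + 1) (fun l => Ex (n + 1 - k) (fun r => (greedy (node l r) : ℝ))) =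
      q (n + 2) (k + 1) + q (n + 2) (k + 1) * eG (max (k + 1) (n + 1 - k)) := by
    intro k hk
    have hk' := Finset.mem_range.1 hk
    have e1 : n + 1 - k = (n - k) + 1 := by omega
    have h2 : Ex (k + 1) (fun l => Ex (n + 1 - k) (fun r => (greedy (node l r) : ℝ))) =
        1 + eG (max (k + 1) (n + 1 - k)) := by
      rcases le_total (n + 1 - k) (k + 1) with h | h
      · rw [max_eq_left h]
        have h3 : ∀ l, size l = k + 1 →
            Ex (n + 1 - k) (fun r => (greedy (node l r) : ℝ)) = 1 + (greedy l : ℝ) := by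
          intro l hl
          rw [e1]
          rw [Ex_congr (n - k) (G := fun _ => 1 + (greedy l : ℝ))]
          · rw [Ex_const]
          · intro r hr
            simp only [greedy]
            rw [if_pos (by omega)]
            push_cast; ring
        rw [Ex_congr k h3, Ex_add, Ex_const]
        rfl
      · rcases eq_or_lt_of_le h with h' | h'
        · rw [max_eq_left (le_of_eq h'.symm)]
          have h3 : ∀ l, size l = k + 1 →
              Ex (n + 1 - k) (fun r => (greedy (node l r) : ℝ)) = 1 + (greedy l : ℝ) := by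
            intro l hl
            rw [e1]
            rw [Ex_congr (n - k) (G := fun _ => 1 + (greedy l : ℝ))]
            · rw [Ex_const]
            · intro r hr
              simp only [greedy]
              rw [if_pos (by omega)]
              push_cast; ring
          rw [Ex_congr k h3, Ex_add, Ex_const]
          rfl
        · rw [max_eq_right h]
          have h3 : ∀ l, size l = k + 1 →
              Ex (n + 1 - k) (fun r => (greedy (node l r) : ℝ)) = 1 + eG (n + 1 - k) := by
            intro l hl
            rw [e1]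
            rw [Ex_congr (n - k) (G := fun r => 1 + (greedy r : ℝ))]
            · rw [Ex_add, Ex_const]; rfl
            · intro r hr
              simp only [greedy]
              rw [if_neg (by omega)]
              push_cast; ring
          rw [Ex_congr k h3, Ex_const]
    rw [h2]; ring
  unfold eG at *
  rw [Ex_rec, Finset.sum_congr rfl h1, Finset.sum_add_distrib, sum_q]

/-- recurrence for the leaf depth -/
lemma eL_rec (n : ℕ) : eL (n + 2) = 1 + ∑ k ∈ Finset.range (n + 1),
    q (n + 2) (k + 1) * ((((k : ℝ) + 1) * eL (k + 1) + ((n : ℝ) + 1 - k) * eL (n + 1 - k)) /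
      ((n : ℝ) + 2)) := by
  have h1 : ∀ k ∈ Finset.range (n + 1), q (n + 2) (k + 1) *
      Ex (k + 1) (fun l => Ex (n + 1 - k) (fun r => meanDepth (node l r))) =
      q (n + 2) (k + 1) + q (n + 2) (k + 1) *
        ((((k : ℝ) + 1) * eL (k + 1) + ((n : ℝ) + 1 - k) * eL (n + 1 - k)) / ((n : ℝ) + 2)) := by
    intro k hk
    have hk' := Finset.mem_range.1 hk
    have e1 : n + 1 - k = (n - k) + 1 := by omega
    have hcast : ((n + 1 - k : ℕ) : ℝ) = (n : ℝ) + 1 - k := by
      rw [Nat.cast_sub (by omega)]; push_cast; ring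
    have hn2 : (0:ℝ) < (n : ℝ) + 2 := by positivity
    have hj0 : (0:ℝ) < (n : ℝ) + 1 - k := by
      rw [← hcast]; exact_mod_cast (by omega : 0 < n + 1 - k)
    have hi0 : (0:ℝ) < (k : ℝ) + 1 := by positivity
    have h3 : ∀ l, size l = k + 1 → Ex (n + 1 - k) (fun r => meanDepth (node l r)) =
        (1 + (((n : ℝ) + 1 - k) / ((n : ℝ) + 2)) * eL (n + 1 - k)) +
          (((k : ℝ) + 1) / ((n : ℝ) + 2)) * meanDepth l := by
      intro l hl
      have h4 : ∀ r, size r = (n - k) + 1 → meanDepth (node l r) =
          (1 + (((k : ℝ) + 1) / ((n : ℝ) + 2)) * meanDepth l) +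
          (((n : ℝ) + 1 - k) / ((n : ℝ) + 2)) * meanDepth r := by
        intro r hr
        rw [← e1] at hr
        unfold meanDepth
        simp only [totalDepth, size]
        rw [hl, hr]
        push_cast
        rw [hcast]
        have : (k : ℝ) + 1 + ((n : ℝ) + 1 - k) = (n : ℝ) + 2 := by ring
        rw [this]
        field_simp
        ring
      have h5 := Ex_congr (n - k) h4
      rw [← e1] at h5
      rw [h5, Ex_add, Ex_const, Ex_mul]
      unfold eL
      ring
    have h6 := Ex_congr k h3
    rw [h6, Ex_add, Ex_const, Ex_mul]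
    unfold eL
    field_simp
    ring
  have h2 : eL (n + 2) = ∑ k ∈ Finset.range (n + 1), q (n + 2) (k + 1) *
      Ex (k + 1) (fun l => Ex (n + 1 - k) (fun r => meanDepth (node l r))) := by
    unfold eL; rw [Ex_rec]
  rw [h2, Finset.sum_congr rfl h1, Finset.sum_add_distrib, sum_q]

/-- the height of a split tree -/
lemma eH_rec (n : ℕ) : eH (n + 2) = 1 + ∑ k ∈ Finset.range (n + 1),
    q (n + 2) (k + 1) * Ex (k + 1) (fun l => Ex (n + 1 - k)
      (fun r => max (height l : ℝ) (height r : ℝ))) := by
  have h1 : ∀ k ∈ Finset.range (n + 1), q (n + 2) (k + 1) *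
      Ex (k + 1) (fun l => Ex (n + 1 - k) (fun r => (height (node l r) : ℝ))) =
      q (n + 2) (k + 1) + q (n + 2) (k + 1) * Ex (k + 1) (fun l => Ex (n + 1 - k)
      (fun r => max (height l : ℝ) (height r : ℝ))) := by
    intro k _
    have h3 : (fun l => Ex (n + 1 - k) (fun r => (height (node l r) : ℝ))) =
        fun l => 1 + Ex (n + 1 - k) (fun r => max (height l : ℝ) (height r : ℝ)) := by
      funext l
      have h4 : (fun r => (height (node l r) : ℝ)) =
          fun r => 1 + max (height l : ℝ) (height r : ℝ) := by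
        funext r
        simp only [height]
        push_cast
        ring
      rw [h4, Ex_add, Ex_const]
    rw [h3, Ex_add, Ex_const]
    ring
  unfold eH
  rw [Ex_rec, Finset.sum_congr rfl h1, Finset.sum_add_distrib, sum_q]

end Pool.Agent.Q287.CD
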