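import Pool.Agent.Q287.CD1

/-! The discrete-time critical beta-splitting tree: the upper bound for the height, comparison
principles and the leaf depth. -/

namespace Pool.Agent.Q287.CD

open MeasureTheory ProbabilityTheory Set Filter Topology
open Pool.Agent.Q287.CB BT

/-! ### Upper bound for the height -/

lemma harm_le_self (k : ℕ) : harm k ≤ k := by
  unfold harm
  calc ∑ i ∈ Finset.range k, 1 / ((i : ℝ) + 1) ≤ ∑ _i ∈ Finset.range k, (1:ℝ) := by
        apply Finset.sum_le_sum
        intro i _
        rw [div_le_one (by positivity)]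
        have : (0:ℝ) ≤ i := Nat.cast_nonneg i
        linarith
    _ = k := by simp

lemma pow_max_le {z : ℝ} (hz : 1 ≤ z) (a b : ℕ) : z ^ (max a b) ≤ z ^ a + z ^ b - 1 := by
  have h1 : 1 ≤ z ^ a := one_le_pow₀ hz
  have h2 : 1 ≤ z ^ b := one_le_pow₀ hz
  rcases le_total a b with h | h
  · rw [max_eq_right h]; linarith
  · rw [max_eq_left h]; linarith

/-- exponential moment of the height -/
lemma exp_height {z : ℝ} (hz : 1 ≤ z) (m : ℕ) (hzm : ∀ j < m, z ≤ 1 + 1 / harm (j + 1)) :
    Ex (m + 1) (fun t => z ^ (height t)) ≤ ((m : ℝ) + 1) * m + 1 := by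
  induction m using Nat.strong_induction_on with
  | _ m ih =>
    match m, ih, hzm with
    | 0, _, _ => rw [Ex_one]; simp [height]
    | (n + 1), ih, hzm =>
      have hh := harm_pos (Nat.succ_pos n)
      change Ex (n + 2) _ ≤ _
      rw [Ex_rec]
      have h1 : ∀ k ∈ Finset.range (n + 1), q (n + 2) (k + 1) *
          Ex (k + 1) (fun l => Ex (n + 1 - k) (fun r => z ^ (height (node l r)))) ≤
          z * (q (n + 2) (k + 1) * (((k : ℝ) + 1) * k + ((n : ℝ) + 1 - k) * ((n - k : ℕ) : ℝ))) +
            z * q (n + 2) (k + 1) := by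
        intro k hk
        have hk' := Finset.mem_range.1 hk
        have hq := q_nonneg n hk'
        have h2 : Ex (k + 1) (fun l => Ex (n + 1 - k) (fun r => z ^ (height (node l r)))) ≤
            Ex (k + 1) (fun l => Ex (n + 1 - k)
              (fun r => (z * z ^ (height l) + z * z ^ (height r)) + (-z))) := by
          apply Ex_mono
          intro l
          apply Ex_mono
          intro r
          have h3 := pow_max_le hz (height l) (height r)
          have h4 := mul_le_mul_of_nonneg_left h3 (by linarith : (0:ℝ) ≤ z)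
          simp only [height]
          rw [pow_add, pow_one]
          linarith
        have h5 : Ex (k + 1) (fun l => Ex (n + 1 - k)
              (fun r => (z * z ^ (height l) + z * z ^ (height r)) + (-z))) =
            z * Ex (k + 1) (fun t => z ^ (height t)) +
              z * Ex (n + 1 - k) (fun t => z ^ (height t)) - z := by
          have h6 : (fun l => Ex (n + 1 - k)
              (fun r => (z * z ^ (height l) + z * z ^ (height r)) + (-z))) =
              fun l => z * z ^ (height l) + (z * Ex (n + 1 - k) (fun t => z ^ (height t)) + (-z)) := by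
            funext l
            rw [Ex_add, Ex_add, Ex_const, Ex_const, Ex_mul]
            ring
          rw [h6, Ex_add, Ex_mul, Ex_const]
          ring
        have i1 := ih k (by omega) (fun j hj => hzm j (by omega))
        have i2 := ih (n - k) (by omega) (fun j hj => hzm j (by omega))
        have e1 : n - k + 1 = n + 1 - k := by omega
        have e2 : ((n - k : ℕ) : ℝ) + 1 = (n : ℝ) + 1 - k := by
          rw [Nat.cast_sub (by omega)]; ring
        rw [e1, e2] at i2
        have i1' := mul_le_mul_of_nonneg_left i1 (by linarith : (0:ℝ) ≤ z)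
        have i2' := mul_le_mul_of_nonneg_left i2 (by linarith : (0:ℝ) ≤ z)
        have h7 : Ex (k + 1) (fun l => Ex (n + 1 - k) (fun r => z ^ (height (node l r)))) ≤
            z * (((k : ℝ) + 1) * k + ((n : ℝ) + 1 - k) * ((n - k : ℕ) : ℝ)) + z := by
          rw [h5] at h2
          linarith
        have h8 := mul_le_mul_of_nonneg_left h7 hq
        linarith
      refine (Finset.sum_le_sum h1).trans ?_
      rw [Finset.sum_add_distrib, ← Finset.mul_sum, ← Finset.mul_sum, sum_q]
      -- the quadratic sum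
      have hA : ∑ k ∈ Finset.range (n + 1), q (n + 2) (k + 1) *
          (((k : ℝ) + 1) * k + ((n : ℝ) + 1 - k) * ((n - k : ℕ) : ℝ)) =
          ((n : ℝ) + 2) * ((n : ℝ) + 1) * (1 - 1 / harm (n + 1)) := by
        have h2 := sum_hq n (fun k => (k : ℝ))
        rw [sum_id] at h2
        have h3 : ∑ k ∈ Finset.range (n + 1), harm (n + 1) * q (n + 2) (k + 1) *
            (((k : ℝ) + 1) * k + ((n : ℝ) + 1 - k) * ((n - k : ℕ) : ℝ)) =
            harm (n + 1) * ∑ k ∈ Finset.range (n + 1), q (n + 2) (k + 1) *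
            (((k : ℝ) + 1) * k + ((n : ℝ) + 1 - k) * ((n - k : ℕ) : ℝ)) := by
          rw [Finset.mul_sum]
          apply Finset.sum_congr rfl
          intro k _
          ring
        rw [h3] at h2
        have h4 : harm (n + 1) * (∑ k ∈ Finset.range (n + 1), q (n + 2) (k + 1) *
            (((k : ℝ) + 1) * k + ((n : ℝ) + 1 - k) * ((n - k : ℕ) : ℝ))) =
            harm (n + 1) * (((n : ℝ) + 2) * ((n : ℝ) + 1) * (1 - 1 / harm (n + 1))) := by
          rw [h2]; field_simp
        exact mul_left_cancel₀ hh.ne' h4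
      rw [hA]
      have hz2 := hzm n (by omega)
      set h := harm (n + 1) with hhdef
      have hle : h ≤ (n : ℝ) + 1 := by
        have := harm_le_self (n + 1)
        push_cast at this
        exact this
      have h1h := one_le_harm n
      rw [← hhdef] at h1h
      have hin : 0 ≤ ((n : ℝ) + 2) * ((n : ℝ) + 1) * (1 - 1 / h) + 1 := by
        have : 1 / h ≤ 1 := by rw [div_le_one hh]; exact h1h
        have h2 : 0 ≤ 1 - 1 / h := by linarith
        positivity
      calc z * (((n : ℝ) + 2) * ((n : ℝ) + 1) * (1 - 1 / h)) + z * 1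
          = z * (((n : ℝ) + 2) * ((n : ℝ) + 1) * (1 - 1 / h) + 1) := by ring
        _ ≤ (1 + 1 / h) * (((n : ℝ) + 2) * ((n : ℝ) + 1) * (1 - 1 / h) + 1) :=
            mul_le_mul_of_nonneg_right hz2 hin
        _ = ((n : ℝ) + 2) * ((n : ℝ) + 1) + 1 - (((n : ℝ) + 2) * ((n : ℝ) + 1) - h) / h ^ 2 := by
            field_simp; ring
        _ ≤ ((n : ℝ) + 2) * ((n : ℝ) + 1) + 1 := by
            have hn0 : (0:ℝ) ≤ n := Nat.cast_nonneg n
            have : 0 ≤ (((n : ℝ) + 2) * ((n : ℝ) + 1) - h) / h ^ 2 := by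
              apply div_nonneg _ (by positivity)
              nlinarith
            linarith
        _ = _ := by push_cast; ring

lemma harm_mono {a b : ℕ} (h : a ≤ b) : harm a ≤ harm b := by
  unfold harm
  apply Finset.sum_le_sum_of_subset_of_nonneg
  · exact Finset.range_mono h
  · intro i _ _; positivity

/-- `E L*_n ≤ 2 log n (2 + log n)` -/
theorem eH_upper (m : ℕ) : eH (m + 1) ≤
    2 * Real.log ((m : ℝ) + 1) * (2 + Real.log ((m : ℝ) + 1)) := by
  match m with
  | 0 => simp [eH_one]
  | (n + 1) =>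
    set h := harm (n + 1) with hh'
    have hh : 0 < h := harm_pos (Nat.succ_pos n)
    set z := 1 + 1 / h with hz
    have hz1 : 1 < z := by rw [hz]; have : 0 < 1 / h := by positivity
                           linarith
    have h1 := exp_height hz1.le (n + 1) (fun j hj => by
      have h2 := harm_mono (show j + 1 ≤ n + 1 by omega)
      have h3 := one_div_le_one_div_of_le (harm_pos (Nat.succ_pos j)) h2
      rw [hz]
      simp only [Nat.succ_eq_add_one] at h3
      linarith)
    set A := ((n : ℝ) + 2) ^ 2 with hA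
    have hn0 : (0:ℝ) ≤ n := Nat.cast_nonneg n
    have hApos : 0 < A := by positivity
    have h1' : Ex (n + 1 + 1) (fun t => z ^ (height t)) ≤ A := by
      refine h1.trans ?_
      push_cast
      rw [hA]
      nlinarith
    have hlz : 1 / (h + 1) ≤ Real.log z := by
      have := Real.one_sub_inv_le_log_of_pos (x := z) (by linarith)
      have h4 : 1 - z⁻¹ = 1 / (h + 1) := by rw [hz]; field_simp; ring
      linarith
    have hlow : A * (1 + (Real.log z * eH (n + 1 + 1) - Real.log A)) ≤
        Ex (n + 1 + 1) (fun t => z ^ (height t)) := by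
      have h5 : ∀ t : BT, A * (1 + (Real.log z * (height t : ℝ) - Real.log A)) ≤ z ^ (height t) := by
        intro t
        have h6 := Real.add_one_le_exp (Real.log z * (height t : ℝ) - Real.log A)
        have h7 : Real.exp (Real.log z * (height t : ℝ) - Real.log A) = z ^ (height t) / A := by
          rw [Real.exp_sub, Real.exp_log hApos, mul_comm, Real.exp_nat_mul,
            Real.exp_log (by linarith)]
        rw [h7, le_div_iff₀ hApos] at h6
        linarith
      have h8 := Ex_mono (n + 1 + 1) h5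
      refine le_trans (le_of_eq ?_) h8
      have h9 : (fun t : BT => A * (1 + (Real.log z * (height t : ℝ) - Real.log A))) =
          fun t => A * (1 - Real.log A) + (A * Real.log z) * (height t : ℝ) := by
        funext t; ring
      rw [h9, Ex_add, Ex_const, Ex_mul]
      unfold eH
      ring
    have h10 : A * (1 + (Real.log z * eH (n + 1 + 1) - Real.log A)) ≤ A * 1 := by linarith
    have h11 := le_of_mul_le_mul_left h10 hApos
    have h12 : Real.log z * eH (n + 1 + 1) ≤ 2 * Real.log ((n : ℝ) + 2) := by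
      have : Real.log A = 2 * Real.log ((n : ℝ) + 2) := by
        rw [hA, Real.log_pow]; push_cast; ring
      linarith
    have hH0 : 0 ≤ eH (n + 1 + 1) := by
      have : Ex (n + 1 + 1) (fun _ => (0:ℝ)) ≤ eH (n + 1 + 1) :=
        Ex_mono _ (fun t => Nat.cast_nonneg _)
      rwa [Ex_const] at this
    have h13 : 1 / (h + 1) * eH (n + 1 + 1) ≤ 2 * Real.log ((n : ℝ) + 2) :=
      (mul_le_mul_of_nonneg_right hlz hH0).trans h12
    have h14 : eH (n + 1 + 1) ≤ 2 * Real.log ((n : ℝ) + 2) * (h + 1) := by
      have h15 : eH (n + 1 + 1) = (1 / (h + 1) * eH (n + 1 + 1)) * (h + 1) := by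
        field_simp
      rw [h15]
      exact mul_le_mul_of_nonneg_right h13 (by linarith)
    have h16 := harm_le n
    rw [← hh'] at h16
    have h17 : Real.log ((n : ℝ) + 1) ≤ Real.log ((n : ℝ) + 2) :=
      Real.log_le_log (by linarith) (by linarith)
    have h18 : 0 ≤ Real.log ((n : ℝ) + 2) := Real.log_nonneg (by linarith)
    push_cast
    have e : ((n : ℝ) + 1 + 1) = (n : ℝ) + 2 := by ring
    rw [e]
    refine h14.trans ?_
    apply mul_le_mul_of_nonneg_left _ (by linarith)
    linarith

/-! ### Comparison principles -/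

lemma super_bound {g : ℕ → ℝ} {κ : ℝ} (hκ : 0 ≤ κ) (n0 : ℕ)
    (hrec : ∀ n, n0 ≤ n → ∀ K : ℝ, (∀ j : ℕ, 1 ≤ j → j < n + 2 → g j ≤ κ * Real.log j ^ 2 + K) →
      g (n + 2) ≤ κ * Real.log ((n + 2 : ℕ) : ℝ) ^ 2 + K) :
    ∃ K, ∀ m : ℕ, 1 ≤ m → g m ≤ κ * Real.log m ^ 2 + K := by
  refine ⟨∑ j ∈ Finset.range (n0 + 2), |g j|, ?_⟩
  intro m
  induction m using Nat.strong_induction_on with
  | _ m ih =>
    intro hm
    rcases lt_or_ge m (n0 + 2) with h | h
    · have h1 : |g m| ≤ ∑ j ∈ Finset.range (n0 + 2), |g j| :=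
        Finset.single_le_sum (f := fun j => |g j|) (fun j _ => abs_nonneg _) (Finset.mem_range.2 h)
      have h2 : 0 ≤ κ * Real.log m ^ 2 := by positivity
      have h3 := le_abs_self (g m)
      linarith
    · obtain ⟨n, rfl⟩ : ∃ n, m = n + 2 := ⟨m - 2, by omega⟩
      exact hrec n (by omega) _ (fun j hj1 hj2 => ih j hj2 hj1)

lemma sub_bound {g : ℕ → ℝ} {κ : ℝ} (hg : ∀ j, 0 ≤ g j) (n0 : ℕ)
    (hrec : ∀ n, n0 ≤ n → ∀ K : ℝ, (∀ j : ℕ, 1 ≤ j → j < n + 2 → κ * Real.log j ^ 2 - K ≤ g j) →
      κ * Real.log ((n + 2 : ℕ) : ℝ) ^ 2 - K ≤ g (n + 2)) :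
    ∃ K, ∀ m : ℕ, 1 ≤ m → κ * Real.log m ^ 2 - K ≤ g m := by
  refine ⟨∑ j ∈ Finset.range (n0 + 2), |κ * Real.log j ^ 2|, ?_⟩
  intro m
  induction m using Nat.strong_induction_on with
  | _ m ih =>
    intro hm
    rcases lt_or_ge m (n0 + 2) with h | h
    · have h1 : |κ * Real.log m ^ 2| ≤ ∑ j ∈ Finset.range (n0 + 2), |κ * Real.log j ^ 2| :=
        Finset.single_le_sum (f := fun j : ℕ => |κ * Real.log j ^ 2|) (fun j _ => abs_nonneg _)
          (Finset.mem_range.2 h)
      have h3 := le_abs_self (κ * Real.log m ^ 2)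
      have := hg m
      linarith
    · obtain ⟨n, rfl⟩ : ∃ n, m = n + 2 := ⟨m - 2, by omega⟩
      exact hrec n (by omega) _ (fun j hj1 hj2 => ih j hj2 hj1)

lemma log_le_harm (n : ℕ) : Real.log ((n : ℝ) + 2) ≤ harm (n + 1) := by
  have h1 := sum_inv_ge (a := 1) le_rfl (n + 2) (by omega)
  simp only [Nat.cast_one, Real.log_one, sub_zero] at h1
  have h2 : ∑ i ∈ Finset.Ico 1 (n + 2), 1 / (i : ℝ) = harm (n + 1) := by
    unfold harm
    rw [Finset.sum_Ico_eq_sum_range]
    apply Finset.sum_congr (by congr 1)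
    intro i _
    push_cast
    ring_nf
  rw [h2] at h1
  push_cast at h1
  exact h1

lemma harm_le_log (n : ℕ) : harm (n + 1) ≤ 1 + Real.log ((n : ℝ) + 2) := by
  have h1 := harm_le n
  have hn0 : (0:ℝ) ≤ n := Nat.cast_nonneg n
  have h2 : Real.log ((n : ℝ) + 1) ≤ Real.log ((n : ℝ) + 2) :=
    Real.log_le_log (by linarith) (by linarith)
  linarith

end Pool.Agent.Q287.CD
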