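import Pool.Agent.Q287.CD2

/-! The discrete-time critical beta-splitting tree: leaf depth and greedy path. -/

namespace Pool.Agent.Q287.CD

open MeasureTheory ProbabilityTheory Set Filter Topology
open Pool.Agent.Q287.CB BT

/-! ### The leaf depth -/

lemma eL_rec' (n : ℕ) : harm (n + 1) * (eL (n + 2) - 1) =
    ∑ k ∈ Finset.range (n + 1), eL (n + 1 - k) / ((k : ℝ) + 1) := by
  have h1 := sum_hq n (fun k => eL (k + 1))
  have hn2 : (0:ℝ) < (n : ℝ) + 2 := by positivity
  have h2 : harm (n + 1) * (eL (n + 2) - 1) * ((n : ℝ) + 2) =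
      ∑ k ∈ Finset.range (n + 1), harm (n + 1) * q (n + 2) (k + 1) *
      (((k : ℝ) + 1) * eL (k + 1) + ((n : ℝ) + 1 - k) * eL (n - k + 1)) := by
    rw [eL_rec, add_sub_cancel_left, Finset.mul_sum, Finset.sum_mul]
    apply Finset.sum_congr rfl
    intro k hk
    have hk' := Finset.mem_range.1 hk
    have e1 : n - k + 1 = n + 1 - k := by omega
    rw [e1]
    field_simp
  rw [h1] at h2
  have h3 : ∑ k ∈ Finset.range (n + 1), eL (n - k + 1) / ((k : ℝ) + 1) =
      ∑ k ∈ Finset.range (n + 1), eL (n + 1 - k) / ((k : ℝ) + 1) := by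
    apply Finset.sum_congr rfl
    intro k hk
    have hk' := Finset.mem_range.1 hk
    have e1 : n - k + 1 = n + 1 - k := by omega
    rw [e1]
  rw [h3] at h2
  have h4 : (harm (n + 1) * (eL (n + 2) - 1)) * ((n : ℝ) + 2) =
      (∑ k ∈ Finset.range (n + 1), eL (n + 1 - k) / ((k : ℝ) + 1)) * ((n : ℝ) + 2) := by
    rw [h2]; ring
  exact mul_right_cancel₀ hn2.ne' h4

/-- `-log(1-x) ≥ x + x²/2` -/
lemma neg_log_ge {x : ℝ} (h0 : 0 ≤ x) (h1 : x < 1) : x + x ^ 2 / 2 ≤ -Real.log (1 - x) := by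
  have hs := Real.hasSum_pow_div_log_of_abs_lt_one (x := x) (by rw [abs_of_nonneg h0]; exact h1)
  have := sum_le_hasSum (Finset.range 2) (fun i _ => by positivity) hs
  refine le_trans (le_of_eq ?_) this
  rw [Finset.sum_range_succ, Finset.sum_range_one]
  norm_num

lemma neg_log_ge' {x : ℝ} (h0 : 0 ≤ x) (h1 : x < 1) : x ≤ -Real.log (1 - x) := by
  have := neg_log_ge h0 h1
  nlinarith [sq_nonneg x]

/-- drift of the leaf depth -/
lemma leaf_drift (n : ℕ) (hn : 1000 ≤ n) :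
    (2 * Real.log ((n : ℝ) + 2) - Real.log 16) * (23 / 20) ≤
    ∑ k ∈ Finset.range (n + 1), (Real.log ((n : ℝ) + 2) ^ 2 -
      Real.log ((n + 1 - k : ℕ) : ℝ) ^ 2) / ((k : ℝ) + 1) := by
  set m : ℝ := (n : ℝ) + 2 with hm
  have hn' : (1000:ℝ) ≤ n := by exact_mod_cast hn
  have hm0 : 0 < m := by rw [hm]; linarith
  set L := Real.log m with hL
  have hL16 : Real.log 16 ≤ L := Real.log_le_log (by norm_num) (by linarith)
  have hlog16 : 0 < Real.log 16 := Real.log_pos (by norm_num)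
  -- the index bound
  set I : ℕ := 15 * (n + 2) / 16 with hI
  have hIn : I ≤ n + 1 := by omega
  have hterm : ∀ k ∈ Finset.range (n + 1),
      (if k < I then (2 * L - Real.log 16) * (1 / m + ((k : ℝ) + 1) / (2 * m ^ 2)) else 0) ≤
      (L ^ 2 - Real.log ((n + 1 - k : ℕ) : ℝ) ^ 2) / ((k : ℝ) + 1) := by
    intro k hk
    have hk' := Finset.mem_range.1 hk
    have hk0 : (0:ℝ) < (k : ℝ) + 1 := by positivity
    have hcast : ((n + 1 - k : ℕ) : ℝ) = m - ((k : ℝ) + 1) := by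
      rw [Nat.cast_sub (by omega), hm]; push_cast; ring
    have hj1 : (1:ℝ) ≤ ((n + 1 - k : ℕ) : ℝ) := by exact_mod_cast (by omega : 1 ≤ n + 1 - k)
    have hjm : ((n + 1 - k : ℕ) : ℝ) ≤ m := by rw [hcast]; linarith
    have hl0 : 0 ≤ Real.log ((n + 1 - k : ℕ) : ℝ) := Real.log_nonneg hj1
    have hl1 : Real.log ((n + 1 - k : ℕ) : ℝ) ≤ L := Real.log_le_log (by linarith) hjm
    split_ifs with hkI
    · set x := ((k : ℝ) + 1) / m with hx
      have hx0 : 0 ≤ x := by positivity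
      have hx15 : x ≤ 15 / 16 := by
        rw [hx, div_le_div_iff₀ hm0 (by norm_num)]
        have h1 : 16 * (k + 1) ≤ 15 * (n + 2) := by omega
        have h2 : (16:ℝ) * ((k : ℝ) + 1) ≤ 15 * ((n : ℝ) + 2) := by exact_mod_cast h1
        rw [hm]; linarith
      have hj : ((n + 1 - k : ℕ) : ℝ) = m * (1 - x) := by
        rw [hcast, hx]; field_simp
      have hlogj : Real.log ((n + 1 - k : ℕ) : ℝ) = L + Real.log (1 - x) := by
        rw [hj, Real.log_mul hm0.ne' (by linarith)]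
      have hy := neg_log_ge hx0 (by linarith : x < 1)
      have hlow : L - Real.log 16 ≤ Real.log ((n + 1 - k : ℕ) : ℝ) := by
        rw [hlogj]
        have : Real.log (1 / 16) ≤ Real.log (1 - x) := Real.log_le_log (by norm_num) (by linarith)
        rw [one_div, Real.log_inv] at this
        linarith
      rw [le_div_iff₀ hk0]
      have h3 : L ^ 2 - Real.log ((n + 1 - k : ℕ) : ℝ) ^ 2 =
          (L + Real.log ((n + 1 - k : ℕ) : ℝ)) * (L - Real.log ((n + 1 - k : ℕ) : ℝ)) := by ring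
      rw [h3]
      have h4 : (1 / m + ((k : ℝ) + 1) / (2 * m ^ 2)) * ((k : ℝ) + 1) = x + x ^ 2 / 2 := by
        rw [hx]; field_simp
      have h5 : x + x ^ 2 / 2 ≤ L - Real.log ((n + 1 - k : ℕ) : ℝ) := by rw [hlogj]; linarith
      calc (2 * L - Real.log 16) * (1 / m + ((k : ℝ) + 1) / (2 * m ^ 2)) * ((k : ℝ) + 1)
          = (2 * L - Real.log 16) * ((1 / m + ((k : ℝ) + 1) / (2 * m ^ 2)) * ((k : ℝ) + 1)) := by
            ring
        _ = (2 * L - Real.log 16) * (x + x ^ 2 / 2) := by rw [h4]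
        _ ≤ _ := by
            apply mul_le_mul _ h5 (by positivity) (by linarith)
            linarith
    · apply div_nonneg _ hk0.le
      nlinarith
  refine le_trans ?_ (Finset.sum_le_sum hterm)
  rw [← Finset.sum_filter]
  have hfil : (Finset.range (n + 1)).filter (fun k => k < I) = Finset.range I := by
    ext k; simp only [Finset.mem_filter, Finset.mem_range]; omega
  rw [hfil, ← Finset.mul_sum]
  apply mul_le_mul_of_nonneg_left _ (by linarith)
  have hsum : ∑ k ∈ Finset.range I, (1 / m + ((k : ℝ) + 1) / (2 * m ^ 2)) =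
      (I : ℝ) / m + (I : ℝ) * ((I : ℝ) + 1) / (4 * m ^ 2) := by
    have h1 : ∀ N : ℕ, ∑ k ∈ Finset.range N, (1 / m + ((k : ℝ) + 1) / (2 * m ^ 2)) =
        (N : ℝ) / m + (N : ℝ) * ((N : ℝ) + 1) / (4 * m ^ 2) := by
      intro N
      induction N with
      | zero => simp
      | succ N ih => rw [Finset.sum_range_succ, ih]; push_cast; field_simp; ring
    exact h1 I
  rw [hsum]
  have hI1 : 15 / 16 * m - 1 ≤ (I : ℝ) := by
    have h1 : 15 * (n + 2) < 16 * (I + 1) := by omega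
    have h2 : (15:ℝ) * ((n : ℝ) + 2) < 16 * ((I : ℝ) + 1) := by exact_mod_cast h1
    rw [hm]; linarith
  have hI0 : (0:ℝ) ≤ I := Nat.cast_nonneg I
  set y := (I : ℝ) / m with hy
  have hy1 : 15 / 16 - 1 / m ≤ y := by
    rw [hy, le_div_iff₀ hm0]
    have : (15 / 16 - 1 / m) * m = 15 / 16 * m - 1 := by field_simp
    rw [this]; exact hI1
  have hy2 : 187 / 200 ≤ y := by
    have : 1 / m ≤ 1 / 1000 := one_div_le_one_div_of_le (by norm_num) (by rw [hm]; linarith)
    linarith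
  have h6 : y ^ 2 / 4 ≤ (I : ℝ) * ((I : ℝ) + 1) / (4 * m ^ 2) := by
    rw [hy, div_pow, div_div, mul_comm (m ^ 2) 4]
    apply div_le_div_of_nonneg_right _ (by positivity)
    nlinarith
  nlinarith

/-- upper bound for the mean leaf depth -/
theorem eL_upper : ∃ K, ∀ m : ℕ, 1 ≤ m → eL m ≤ 9 / 20 * Real.log m ^ 2 + K := by
  have hlog : Tendsto (fun n : ℕ => Real.log ((n : ℝ) + 2)) atTop atTop :=
    Real.tendsto_log_atTop.comp (tendsto_atTop_add_const_right _ _ tendsto_natCast_atTop_atTop)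
  obtain ⟨n1, hn1⟩ := eventually_atTop.1 (hlog.eventually_ge_atTop (100 * (1 + Real.log 16)))
  apply super_bound (by norm_num) (max n1 1000)
  intro n hn K hK
  have hh := harm_pos (Nat.succ_pos n)
  have hbig := hn1 n (le_trans (le_max_left _ _) hn)
  have hn1000 : 1000 ≤ n := le_trans (le_max_right _ _) hn
  have hrec := eL_rec' n
  have h1 : ∑ k ∈ Finset.range (n + 1), eL (n + 1 - k) / ((k : ℝ) + 1) ≤
      ∑ k ∈ Finset.range (n + 1), (9 / 20 * Real.log ((n + 1 - k : ℕ) : ℝ) ^ 2 + K) /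
        ((k : ℝ) + 1) := by
    apply Finset.sum_le_sum
    intro k hk
    have hk' := Finset.mem_range.1 hk
    apply div_le_div_of_nonneg_right (hK _ (by omega) (by omega)) (by positivity)
  have h2 := leaf_drift n hn1000
  set L := Real.log ((n : ℝ) + 2) with hL
  have h3 : ∑ k ∈ Finset.range (n + 1), (9 / 20 * Real.log ((n + 1 - k : ℕ) : ℝ) ^ 2 + K) /
        ((k : ℝ) + 1) = harm (n + 1) * (9 / 20 * L ^ 2 + K) - 9 / 20 *
        ∑ k ∈ Finset.range (n + 1), (L ^ 2 - Real.log ((n + 1 - k : ℕ) : ℝ) ^ 2) /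
          ((k : ℝ) + 1) := by
    unfold harm
    rw [Finset.sum_mul, Finset.mul_sum, ← Finset.sum_sub_distrib]
    apply Finset.sum_congr rfl
    intro k _
    ring
  have h4 := harm_le_log n
  rw [← hL] at h4
  have hlog16 : 0 < Real.log 16 := Real.log_pos (by norm_num)
  have h5 : harm (n + 1) * (eL (n + 2) - 1) ≤
      harm (n + 1) * (9 / 20 * L ^ 2 + K - 1) := by
    rw [hrec]
    refine h1.trans ?_
    rw [h3]
    have h6 : harm (n + 1) ≤ 9 / 20 * ((2 * L - Real.log 16) * (23 / 20)) := by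
      linarith
    have h7 := mul_le_mul_of_nonneg_left h2 (by norm_num : (0:ℝ) ≤ 9 / 20)
    linarith
  have h8 := le_of_mul_le_mul_left h5 hh
  have h9 : ((n + 2 : ℕ) : ℝ) = (n : ℝ) + 2 := by push_cast; ring
  rw [h9, ← hL]
  linarith

/-! ### The greedy drift -/

/-- the function `ψ(u) = -log(1-u)/(u(1-u))` -/
noncomputable def psi (u : ℝ) : ℝ := -Real.log (1 - u) / (u * (1 - u))

lemma psi_nonneg {u : ℝ} (h0 : 0 ≤ u) (h1 : u ≤ 1 / 2) : 0 ≤ psi u := by
  unfold psi
  apply div_nonneg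
  · have := Real.log_nonpos (show (0:ℝ) ≤ 1 - u by linarith) (by linarith)
    linarith
  · apply mul_nonneg h0 (by linarith)

lemma psi_zero : psi 0 = 0 := by simp [psi]

lemma psi_le {u : ℝ} (h0 : 0 < u) (h1 : u ≤ 1 / 2) : psi u ≤ 1 / (1 - u) ^ 2 := by
  unfold psi
  have h2 : 0 < 1 - u := by linarith
  rw [div_le_div_iff₀ (by positivity) (by positivity)]
  have h3 := Real.log_le_sub_one_of_pos (x := 1 / (1 - u)) (by positivity)
  rw [one_div, Real.log_inv] at h3
  have h4 : (1 - u)⁻¹ - 1 = u / (1 - u) := by field_simp; ring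
  rw [h4] at h3
  have h5 : -Real.log (1 - u) * (1 - u) ≤ u := by
    rwa [le_div_iff₀ h2] at h3
  calc -Real.log (1 - u) * (1 - u) ^ 2 = (-Real.log (1 - u) * (1 - u)) * (1 - u) := by ring
    _ ≤ u * (1 - u) := mul_le_mul_of_nonneg_right h5 h2.le
    _ = 1 * (u * (1 - u)) := by ring

lemma psi_le_four {u : ℝ} (h0 : 0 ≤ u) (h1 : u ≤ 1 / 2) : psi u ≤ 4 := by
  rcases eq_or_lt_of_le h0 with h | h
  · rw [← h, psi_zero]; norm_num
  · refine (psi_le h h1).trans ?_
    rw [div_le_iff₀ (by have : 0 < 1 - u := by linarith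
                        positivity)]
    nlinarith

lemma psi_ge_one {u : ℝ} (h0 : 0 < u) (h1 : u ≤ 1 / 2) : 1 ≤ psi u := by
  unfold psi
  rw [le_div_iff₀ (mul_pos h0 (by linarith))]
  have := neg_log_ge' h0.le (by linarith : u < 1)
  nlinarith [sq_nonneg u]

lemma psi_mono : MonotoneOn psi (Icc 0 (1 / 2)) := by
  intro u hu v hv huv
  rcases eq_or_lt_of_le hu.1 with h | h
  · rw [← h, psi_zero]; exact psi_nonneg hv.1 hv.2
  have hv0 : 0 < v := lt_of_lt_of_le h huv
  have hu1 : 0 < 1 - u := by have := hu.2; linarith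
  have hv1 : 0 < 1 - v := by have := hv.2; linarith
  -- slope
  have hslope : -Real.log (1 - u) / u ≤ -Real.log (1 - v) / v := by
    rw [div_le_div_iff₀ h hv0]
    have hc := strictConcaveOn_log_Ioi.concaveOn.2 (mem_Ioi.2 hv1) (mem_Ioi.2 one_pos)
      (show (0:ℝ) ≤ u / v by positivity)
      (show (0:ℝ) ≤ 1 - u / v by rw [sub_nonneg, div_le_one hv0]; exact huv) (by ring)
    simp only [smul_eq_mul, Real.log_one, mul_zero, add_zero] at hc
    have e : u / v * (1 - v) + (1 - u / v) * 1 = 1 - u := by field_simp; ring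
    rw [e] at hc
    have h2 := mul_le_mul_of_nonneg_right hc hv0.le
    have h3 : u / v * Real.log (1 - v) * v = u * Real.log (1 - v) := by field_simp
    rw [h3] at h2
    linarith
  have h4 : psi u = (-Real.log (1 - u) / u) * (1 / (1 - u)) := by unfold psi; field_simp
  have h5 : psi v = (-Real.log (1 - v) / v) * (1 / (1 - v)) := by unfold psi; field_simp
  rw [h4, h5]
  apply mul_le_mul hslope _ (by positivity) _
  · exact one_div_le_one_div_of_le hv1 (by linarith)
  · apply div_nonneg _ hv0.le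
    have := Real.log_nonpos hv1.le (by linarith)
    linarith

lemma psi_intervalIntegrable {b : ℝ} (hb0 : 0 ≤ b) (hb : b ≤ 1 / 2) (a : ℝ) (ha0 : 0 ≤ a)
    (ha : a ≤ 1 / 2) : IntervalIntegrable psi volume a b := by
  have h : MonotoneOn psi (uIcc a b) := by
    apply psi_mono.mono
    intro x hx
    rw [uIcc, mem_Icc] at hx
    exact ⟨(le_min ha0 hb0).trans hx.1, hx.2.trans (max_le ha hb)⟩
  exact h.intervalIntegrable

/-- the limiting drift `V = ∫_0^{1/2} ψ` -/
noncomputable def Vlim : ℝ := ∫ u in (0:ℝ)..(1 / 2), psi u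

lemma Vlim_ge : 1 / 2 ≤ Vlim := by
  have h1 : ∫ _u in (0:ℝ)..(1 / 2), (1:ℝ) ≤ Vlim := by
    have hc : IntervalIntegrable (fun _ : ℝ => (1:ℝ)) volume 0 (1 / 2) := intervalIntegrable_const
    apply intervalIntegral.integral_mono_on_of_le_Ioo (by norm_num) hc
      (psi_intervalIntegrable (by norm_num) le_rfl 0 le_rfl (by norm_num))
    intro x hx
    exact psi_ge_one hx.1 hx.2.le
  rw [intervalIntegral.integral_const] at h1
  simpa using h1

lemma Vlim_le : Vlim ≤ 1 := by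
  have h0 : ∀ x ∈ uIcc (0:ℝ) (1 / 2), (1 - x) ≠ 0 := by
    intro x hx
    rw [uIcc_of_le (by norm_num)] at hx
    have := hx.2
    linarith
  have hder : ∀ x ∈ uIcc (0:ℝ) (1 / 2), HasDerivAt (fun x => 1 / (1 - x)) (1 / (1 - x) ^ 2) x := by
    intro x hx
    have h2 : HasDerivAt (fun x : ℝ => 1 - x) (-1) x := by
      simpa using (hasDerivAt_id x).const_sub 1
    have h3 := h2.inv (h0 x hx)
    simp only [one_div]
    refine h3.congr_deriv ?_
    field_simp
  have hcont : ContinuousOn (fun x : ℝ => 1 / (1 - x) ^ 2) (uIcc 0 (1 / 2)) := by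
    apply ContinuousOn.div continuousOn_const (by fun_prop)
    intro x hx
    exact pow_ne_zero 2 (h0 x hx)
  have hint : IntervalIntegrable (fun x : ℝ => 1 / (1 - x) ^ 2) volume 0 (1 / 2) :=
    hcont.intervalIntegrable
  have h1 : Vlim ≤ ∫ x in (0:ℝ)..(1 / 2), 1 / (1 - x) ^ 2 := by
    apply intervalIntegral.integral_mono_on_of_le_Ioo (by norm_num)
      (psi_intervalIntegrable (by norm_num) le_rfl 0 le_rfl (by norm_num)) hint
    intro x hx
    exact psi_le hx.1 hx.2.le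
  rw [intervalIntegral.integral_eq_sub_of_hasDerivAt hder hint] at h1
  norm_num at h1
  exact h1

/-- the greedy drift at size `n + 2` -/
noncomputable def Vs (n : ℕ) : ℝ := ∑ k ∈ Finset.range (n + 1),
  harm (n + 1) * q (n + 2) (k + 1) *
    Real.log (((n : ℝ) + 2) / ((max (k + 1) (n + 1 - k) : ℕ) : ℝ))

/-- the summand for the smaller half -/
lemma Vs_term (n : ℕ) {k : ℕ} (hk : k < (n + 2) / 2) : harm (n + 1) * q (n + 2) (k + 1) *
    Real.log (((n : ℝ) + 2) / ((max (k + 1) (n + 1 - k) : ℕ) : ℝ)) =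
    psi (((k : ℝ) + 1) / ((n : ℝ) + 2)) / (2 * ((n : ℝ) + 2)) := by
  have hmax : max (k + 1) (n + 1 - k) = n + 1 - k := by omega
  have hk0 : (0:ℝ) < (k : ℝ) + 1 := by positivity
  have hm0 : (0:ℝ) < (n : ℝ) + 2 := by positivity
  have hcast : ((n + 1 - k : ℕ) : ℝ) = (n : ℝ) + 1 - k := by
    rw [Nat.cast_sub (by omega)]; push_cast; ring
  have hj0 : (0:ℝ) < (n : ℝ) + 1 - k := by
    rw [← hcast]; exact_mod_cast (by omega : 0 < n + 1 - k)
  rw [hmax, harm_mul_q n (by omega), hcast]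
  unfold psi
  have h1 : 1 - ((k : ℝ) + 1) / ((n : ℝ) + 2) = ((n : ℝ) + 1 - k) / ((n : ℝ) + 2) := by
    field_simp; ring
  rw [h1]
  have h2 : -Real.log (((n : ℝ) + 1 - k) / ((n : ℝ) + 2)) =
      Real.log (((n : ℝ) + 2) / ((n : ℝ) + 1 - k)) := by
    rw [← Real.log_inv, inv_div]
  rw [h2]
  field_simp
  ring

lemma Vs_symm (n : ℕ) {k : ℕ} (hk : k ≤ n) : harm (n + 1) * q (n + 2) (n - k + 1) *
    Real.log (((n : ℝ) + 2) / ((max (n - k + 1) (n + 1 - (n - k)) : ℕ) : ℝ)) =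
    harm (n + 1) * q (n + 2) (k + 1) *
    Real.log (((n : ℝ) + 2) / ((max (k + 1) (n + 1 - k) : ℕ) : ℝ)) := by
  have h1 : max (n - k + 1) (n + 1 - (n - k)) = max (k + 1) (n + 1 - k) := by omega
  rw [h1, harm_mul_q n (by omega), harm_mul_q n (by omega), Nat.cast_sub hk]
  congr 1
  congr 1
  rw [add_comm]
  congr 2 <;> ring

lemma Vs_split (n : ℕ) : Vs n =
    ∑ k ∈ Finset.range ((n + 2) / 2), psi (((k : ℝ) + 1) / ((n : ℝ) + 2)) / (2 * ((n : ℝ) + 2)) +
    ∑ k ∈ Finset.range ((n + 1) / 2), psi (((k : ℝ) + 1) / ((n : ℝ) + 2)) / (2 * ((n : ℝ) + 2))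
    := by
  unfold Vs
  set t : ℕ → ℝ := fun k => harm (n + 1) * q (n + 2) (k + 1) *
    Real.log (((n : ℝ) + 2) / ((max (k + 1) (n + 1 - k) : ℕ) : ℝ)) with ht
  have h1 : ∑ k ∈ Finset.range (n + 1), t k = ∑ k ∈ Finset.range ((n + 2) / 2), t k +
      ∑ k ∈ Finset.Ico ((n + 2) / 2) (n + 1), t k :=
    (Finset.sum_range_add_sum_Ico t (by omega)).symm
  have h2 : ∑ k ∈ Finset.Ico ((n + 2) / 2) (n + 1), t k =
      ∑ k ∈ Finset.range ((n + 1) / 2), t k := by
    rw [Finset.sum_Ico_eq_sum_range]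
    have e1 : n + 1 - (n + 2) / 2 = (n + 1) / 2 := by omega
    rw [e1, ← Finset.sum_range_reflect]
    apply Finset.sum_congr rfl
    intro k hk
    have hk' := Finset.mem_range.1 hk
    have e2 : (n + 2) / 2 + ((n + 1) / 2 - 1 - k) = n - k := by omega
    rw [e2]
    exact Vs_symm n (by omega)
  rw [h1, h2]
  congr 1
  · apply Finset.sum_congr rfl
    intro k hk
    exact Vs_term n (Finset.mem_range.1 hk)
  · apply Finset.sum_congr rfl
    intro k hk
    have := Finset.mem_range.1 hk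
    exact Vs_term n (by omega)

/-- Riemann sum estimate -/
lemma riemann (n : ℕ) :
    Vlim - 4 / ((n : ℝ) + 2) ≤
      ∑ k ∈ Finset.range ((n + 2) / 2), psi (((k : ℝ) + 1) / ((n : ℝ) + 2)) / ((n : ℝ) + 2) ∧
    ∑ k ∈ Finset.range ((n + 2) / 2), psi (((k : ℝ) + 1) / ((n : ℝ) + 2)) / ((n : ℝ) + 2) ≤
      Vlim + 4 / ((n : ℝ) + 2) := by
  set m : ℝ := (n : ℝ) + 2 with hm
  have hm0 : 0 < m := by rw [hm]; positivity
  set M : ℕ := (n + 2) / 2 with hM
  have hM1 : (M : ℝ) ≤ m / 2 := by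
    have h1 : 2 * M ≤ n + 2 := by omega
    have h2 : (2:ℝ) * M ≤ (n : ℝ) + 2 := by exact_mod_cast h1
    rw [hm]; linarith
  have hM2 : m / 2 - 1 ≤ (M : ℝ) := by
    have h1 : n + 2 ≤ 2 * M + 1 := by omega
    have h2 : (n : ℝ) + 2 ≤ 2 * M + 1 := by exact_mod_cast h1
    rw [hm]; linarith
  have hM0 : (0:ℝ) ≤ M := Nat.cast_nonneg M
  set f : ℝ → ℝ := fun x => psi (x / m) with hf
  have hmono : MonotoneOn f (Icc 0 (0 + (M : ℝ))) := by
    intro x hx y hy hxy
    rw [zero_add] at hx hy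
    apply psi_mono _ _ (div_le_div_of_nonneg_right hxy hm0.le)
    · refine ⟨div_nonneg hx.1 hm0.le, ?_⟩
      rw [div_le_iff₀ hm0]; linarith [hx.2]
    · refine ⟨div_nonneg hy.1 hm0.le, ?_⟩
      rw [div_le_iff₀ hm0]; linarith [hy.2]
  have h1 := hmono.sum_le_integral
  have h2 := hmono.integral_le_sum
  simp only [zero_add] at h1 h2
  have hint : ∫ x in (0:ℝ)..(M : ℝ), f x = m * ∫ u in (0:ℝ)..((M : ℝ) / m), psi u := by
    rw [hf, intervalIntegral.integral_comp_div _ hm0.ne']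
    simp
  rw [hint] at h1 h2
  have hMm0 : 0 ≤ (M : ℝ) / m := by positivity
  have hMm1 : (M : ℝ) / m ≤ 1 / 2 := by rw [div_le_iff₀ hm0]; linarith
  have hMm2 : 1 / 2 - 1 / m ≤ (M : ℝ) / m := by
    rw [le_div_iff₀ hm0]
    have : (1 / 2 - 1 / m) * m = m / 2 - 1 := by field_simp
    rw [this]; exact hM2
  have hsplit : Vlim = (∫ u in (0:ℝ)..((M : ℝ) / m), psi u) +
      ∫ u in ((M : ℝ) / m)..(1 / 2), psi u := by
    unfold Vlim
    rw [intervalIntegral.integral_add_adjacent_intervals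
      (psi_intervalIntegrable hMm0 hMm1 0 le_rfl (by norm_num))
      (psi_intervalIntegrable (by norm_num) le_rfl _ hMm0 hMm1)]
  have htail0 : 0 ≤ ∫ u in ((M : ℝ) / m)..(1 / 2), psi u := by
    apply intervalIntegral.integral_nonneg hMm1
    intro u hu
    exact psi_nonneg (hMm0.trans hu.1) hu.2
  have htail : ∫ u in ((M : ℝ) / m)..(1 / 2), psi u ≤ 4 / m := by
    have h3 : ∫ u in ((M : ℝ) / m)..(1 / 2), psi u ≤ ∫ _u in ((M : ℝ) / m)..(1 / 2), (4:ℝ) := by
      apply intervalIntegral.integral_mono_on hMm1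
        (psi_intervalIntegrable (by norm_num) le_rfl _ hMm0 hMm1) (by simp)
      intro u hu
      exact psi_le_four (hMm0.trans hu.1) hu.2
    rw [intervalIntegral.integral_const, smul_eq_mul] at h3
    have h4 : (1 / 2 - (M : ℝ) / m) * 4 ≤ 1 / m * 4 := by
      apply mul_le_mul_of_nonneg_right _ (by norm_num)
      linarith
    calc _ ≤ _ := h3
      _ ≤ 1 / m * 4 := h4
      _ = 4 / m := by ring
  -- the sum
  set R := ∑ k ∈ Finset.range M, psi (((k : ℝ) + 1) / m) with hR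
  have hR1 : m * ∫ u in (0:ℝ)..((M : ℝ) / m), psi u ≤ R := by
    refine h2.trans (le_of_eq ?_)
    rw [hR]
    apply Finset.sum_congr rfl
    intro k _
    rw [hf]
    push_cast
    rfl
  have hR2 : R ≤ m * (∫ u in (0:ℝ)..((M : ℝ) / m), psi u) + 4 := by
    have h3 : R = ∑ k ∈ Finset.range M, f (k : ℝ) + f (M : ℝ) - f 0 := by
      have h4 : ∑ k ∈ Finset.range (M + 1), f (k : ℝ) =
          ∑ k ∈ Finset.range M, f ((k + 1 : ℕ) : ℝ) + f ((0 : ℕ) : ℝ) :=
        Finset.sum_range_succ' (fun k : ℕ => f (k : ℝ)) M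
      rw [Finset.sum_range_succ] at h4
      have h5 : ∑ k ∈ Finset.range M, f ((k + 1 : ℕ) : ℝ) = R := by
        rw [hR]
        apply Finset.sum_congr rfl
        intro k _
        rw [hf]; push_cast; rfl
      rw [h5] at h4
      rw [Nat.cast_zero] at h4
      linarith
    have h6 : f 0 = 0 := by rw [hf]; simp [psi_zero]
    have h7 : f (M : ℝ) ≤ 4 := psi_le_four hMm0 hMm1
    rw [h3, h6]
    linarith
  have hsum : ∑ k ∈ Finset.range M, psi (((k : ℝ) + 1) / m) / m = R / m := by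
    rw [hR, Finset.sum_div]
  rw [hsum]
  constructor
  · rw [le_div_iff₀ hm0]
    have e : (Vlim - 4 / m) * m = m * Vlim - 4 := by field_simp
    rw [e, hsplit]
    have h8 : m * (∫ u in ((M : ℝ) / m)..(1 / 2), psi u) ≤ 4 := by
      have := mul_le_mul_of_nonneg_left htail hm0.le
      have e2 : m * (4 / m) = 4 := by field_simp
      rw [e2] at this
      exact this
    rw [mul_add]
    linarith
  · rw [div_le_iff₀ hm0]
    have e : (Vlim + 4 / m) * m = m * Vlim + 4 := by field_simp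
    rw [e, hsplit, mul_add]
    have := mul_nonneg hm0.le htail0
    linarith

theorem Vs_bounds (n : ℕ) : Vlim - 8 / ((n : ℝ) + 2) ≤ Vs n ∧ Vs n ≤ Vlim + 4 / ((n : ℝ) + 2) := by
  obtain ⟨h1, h2⟩ := riemann n
  set m : ℝ := (n : ℝ) + 2 with hm
  have hm0 : 0 < m := by rw [hm]; positivity
  rw [Vs_split, ← hm]
  have hhalf : ∑ k ∈ Finset.range ((n + 2) / 2), psi (((k : ℝ) + 1) / m) / (2 * m) =
      (∑ k ∈ Finset.range ((n + 2) / 2), psi (((k : ℝ) + 1) / m) / m) / 2 := by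
    rw [Finset.sum_div]
    apply Finset.sum_congr rfl
    intro k _
    field_simp
  have hnn : ∀ k ∈ Finset.range ((n + 2) / 2), 0 ≤ psi (((k : ℝ) + 1) / m) / (2 * m) := by
    intro k hk
    have hk' := Finset.mem_range.1 hk
    apply div_nonneg _ (by positivity)
    apply psi_nonneg (by positivity)
    rw [div_le_iff₀ hm0]
    have h3 : 2 * (k + 1) ≤ n + 2 := by omega
    have h4 : (2:ℝ) * ((k : ℝ) + 1) ≤ (n : ℝ) + 2 := by exact_mod_cast h3
    rw [hm]; linarith
  have hsecond1 : ∑ k ∈ Finset.range ((n + 1) / 2), psi (((k : ℝ) + 1) / m) / (2 * m) ≤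
      ∑ k ∈ Finset.range ((n + 2) / 2), psi (((k : ℝ) + 1) / m) / (2 * m) := by
    apply Finset.sum_le_sum_of_subset_of_nonneg
    · apply Finset.range_mono; omega
    · intro k hk _; exact hnn k hk
  have hsecond2 : ∑ k ∈ Finset.range ((n + 2) / 2), psi (((k : ℝ) + 1) / m) / (2 * m) ≤
      ∑ k ∈ Finset.range ((n + 1) / 2), psi (((k : ℝ) + 1) / m) / (2 * m) + 2 / m := by
    rcases Nat.lt_or_ge ((n + 1) / 2) ((n + 2) / 2) with h3 | h3
    · have e : (n + 2) / 2 = (n + 1) / 2 + 1 := by omega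
      rw [e, Finset.sum_range_succ]
      have h4 : psi ((((n + 1) / 2 : ℕ) : ℝ) + 1) / m ≤ psi ((((n + 1) / 2 : ℕ) : ℝ) + 1) / m := le_rfl
      have h5 : psi (((((n + 1) / 2 : ℕ) : ℝ) + 1) / m) ≤ 4 := by
        apply psi_le_four (by positivity)
        rw [div_le_iff₀ hm0]
        have h6 : 2 * ((n + 1) / 2 + 1) ≤ n + 2 := by omega
        have h7 : (2:ℝ) * ((((n + 1) / 2 : ℕ) : ℝ) + 1) ≤ (n : ℝ) + 2 := by exact_mod_cast h6
        rw [hm]; linarith
      have h8 : psi (((((n + 1) / 2 : ℕ) : ℝ) + 1) / m) / (2 * m) ≤ 2 / m := by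
        rw [div_le_div_iff₀ (by positivity) hm0]
        nlinarith
      linarith
    · have e : (n + 2) / 2 = (n + 1) / 2 := by omega
      rw [e]
      have : 0 ≤ 2 / m := by positivity
      linarith
  have e8 : 8 / m = 4 / m + 4 / m := by ring
  have e2 : 4 / m = 2 / m + 2 / m := by ring
  have p2 : 0 ≤ 2 / m := by positivity
  constructor
  · rw [hhalf] at hsecond1 hsecond2 ⊢
    linarith
  · rw [hhalf] at hsecond1 hsecond2 ⊢
    linarith

end Pool.Agent.Q287.CD
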