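import Pool.Agent.Q287.CD3

/-! The discrete-time critical beta-splitting tree: fluctuations of the height and the comparison of
the height with the greedy path. -/

namespace Pool.Agent.Q287.CD

open MeasureTheory ProbabilityTheory Set Filter Topology
open Pool.Agent.Q287.CB BT

/-- the size of the larger part -/
def mx (n k : ℕ) : ℕ := max (k + 1) (n + 1 - k)

lemma mx_lt {n k : ℕ} (hk : k < n + 1) : mx n k < n + 2 := by unfold mx; omega

lemma mx_pos (n k : ℕ) : 1 ≤ mx n k := by unfold mx; omega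

lemma mx_half {n k : ℕ} (hk : k < n + 1) : n + 2 ≤ 2 * mx n k := by unfold mx; omega

lemma log_mx_le {n k : ℕ} (hk : k < n + 1) :
    Real.log (mx n k) ≤ Real.log ((n : ℝ) + 2) := by
  apply Real.log_le_log
  · exact_mod_cast mx_pos n k
  · have := mx_lt hk
    exact_mod_cast this.le

lemma log_mx_ge {n k : ℕ} (hk : k < n + 1) :
    Real.log ((n : ℝ) + 2) - Real.log 2 ≤ Real.log (mx n k) := by
  have h1 := mx_half hk
  have h2 : (n : ℝ) + 2 ≤ 2 * (mx n k : ℝ) := by exact_mod_cast h1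
  have h3 : (0:ℝ) < mx n k := by exact_mod_cast mx_pos n k
  have h4 : Real.log ((n : ℝ) + 2) ≤ Real.log (2 * (mx n k : ℝ)) :=
    Real.log_le_log (by positivity) h2
  rw [Real.log_mul (by norm_num) h3.ne'] at h4
  linarith

lemma log_mx_nonneg (n k : ℕ) : 0 ≤ Real.log (mx n k) :=
  Real.log_nonneg (by exact_mod_cast mx_pos n k)

lemma hq_nonneg {n k : ℕ} (hk : k < n + 1) : 0 ≤ harm (n + 1) * q (n + 2) (k + 1) :=
  mul_nonneg (harm_pos (Nat.succ_pos n)).le (q_nonneg n hk)

lemma Vs_eq (n : ℕ) : Vs n = ∑ k ∈ Finset.range (n + 1), harm (n + 1) * q (n + 2) (k + 1) *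
    (Real.log ((n : ℝ) + 2) - Real.log (mx n k)) := by
  unfold Vs
  apply Finset.sum_congr rfl
  intro k _
  have h3 : (0:ℝ) < mx n k := by exact_mod_cast mx_pos n k
  rw [← Real.log_div (by positivity) h3.ne']
  rfl

/-- drop of `log²` along the greedy path: upper bound -/
lemma drop_le (n : ℕ) : ∑ k ∈ Finset.range (n + 1), harm (n + 1) * q (n + 2) (k + 1) *
    (Real.log ((n : ℝ) + 2) ^ 2 - Real.log (mx n k) ^ 2) ≤ 2 * Real.log ((n : ℝ) + 2) * Vs n := by
  rw [Vs_eq, Finset.mul_sum]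
  apply Finset.sum_le_sum
  intro k hk
  have hk' := Finset.mem_range.1 hk
  have h1 := log_mx_le hk'
  have h2 := hq_nonneg hk'
  have h3 := log_mx_nonneg n k
  have h4 : (Real.log ((n : ℝ) + 2) ^ 2 - Real.log (mx n k) ^ 2) ≤
      2 * Real.log ((n : ℝ) + 2) * (Real.log ((n : ℝ) + 2) - Real.log (mx n k)) := by
    nlinarith
  have := mul_le_mul_of_nonneg_left h4 h2
  linarith

/-- drop of `log²` along the greedy path: lower bound -/
lemma drop_ge (n : ℕ) : (2 * Real.log ((n : ℝ) + 2) - Real.log 2) * Vs n ≤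
    ∑ k ∈ Finset.range (n + 1), harm (n + 1) * q (n + 2) (k + 1) *
    (Real.log ((n : ℝ) + 2) ^ 2 - Real.log (mx n k) ^ 2) := by
  rw [Vs_eq, Finset.mul_sum]
  apply Finset.sum_le_sum
  intro k hk
  have hk' := Finset.mem_range.1 hk
  have h1 := log_mx_le hk'
  have h2 := hq_nonneg hk'
  have h3 := log_mx_ge hk'
  have h4 : (2 * Real.log ((n : ℝ) + 2) - Real.log 2) *
      (Real.log ((n : ℝ) + 2) - Real.log (mx n k)) ≤
      (Real.log ((n : ℝ) + 2) ^ 2 - Real.log (mx n k) ^ 2) := by
    nlinarith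
  have := mul_le_mul_of_nonneg_left h4 h2
  linarith

lemma sum_q_split (n : ℕ) (κ K : ℝ) : ∑ k ∈ Finset.range (n + 1), q (n + 2) (k + 1) *
    (κ * Real.log (mx n k) ^ 2 + K) = κ * Real.log ((n : ℝ) + 2) ^ 2 + K -
      κ * (∑ k ∈ Finset.range (n + 1), harm (n + 1) * q (n + 2) (k + 1) *
    (Real.log ((n : ℝ) + 2) ^ 2 - Real.log (mx n k) ^ 2)) / harm (n + 1) := by
  have hh := harm_pos (Nat.succ_pos n)
  have h1 : (∑ k ∈ Finset.range (n + 1), harm (n + 1) * q (n + 2) (k + 1) *
    (Real.log ((n : ℝ) + 2) ^ 2 - Real.log (mx n k) ^ 2)) = harm (n + 1) *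
      (Real.log ((n : ℝ) + 2) ^ 2 - ∑ k ∈ Finset.range (n + 1), q (n + 2) (k + 1) *
        Real.log (mx n k) ^ 2) := by
    have h2 : Real.log ((n : ℝ) + 2) ^ 2 =
        ∑ k ∈ Finset.range (n + 1), q (n + 2) (k + 1) * Real.log ((n : ℝ) + 2) ^ 2 := by
      rw [← Finset.sum_mul, sum_q, one_mul]
    conv_rhs => rw [h2]
    rw [← Finset.sum_sub_distrib, Finset.mul_sum]
    apply Finset.sum_congr rfl
    intro k _
    ring
  rw [h1]
  have h3 : ∑ k ∈ Finset.range (n + 1), q (n + 2) (k + 1) * (κ * Real.log (mx n k) ^ 2 + K) =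
      κ * ∑ k ∈ Finset.range (n + 1), q (n + 2) (k + 1) * Real.log (mx n k) ^ 2 + K := by
    have h4 : K = ∑ k ∈ Finset.range (n + 1), q (n + 2) (k + 1) * K := by
      rw [← Finset.sum_mul, sum_q, one_mul]
    conv_rhs => rw [h4]
    rw [Finset.mul_sum, ← Finset.sum_add_distrib]
    apply Finset.sum_congr rfl
    intro k _
    ring
  rw [h3]
  simp only [Nat.succ_eq_add_one] at hh
  field_simp
  ring

lemma eG_nonneg (n : ℕ) : 0 ≤ eG n := by
  have : Ex n (fun _ => (0:ℝ)) ≤ eG n := Ex_mono _ (fun t => Nat.cast_nonneg _)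
  rwa [Ex_const] at this

lemma eH_nonneg (n : ℕ) : 0 ≤ eH n := by
  have : Ex n (fun _ => (0:ℝ)) ≤ eH n := Ex_mono _ (fun t => Nat.cast_nonneg _)
  rwa [Ex_const] at this

lemma eL_nonneg (n : ℕ) : 0 ≤ eL n := by
  have : Ex n (fun _ => (0:ℝ)) ≤ eL n := Ex_mono _ (fun t => by unfold meanDepth; positivity)
  rwa [Ex_const] at this

lemma greedy_le_height : ∀ t : BT, greedy t ≤ height t
  | leaf => le_rfl
  | node l r => by
    have h1 := greedy_le_height l
    have h2 := greedy_le_height r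
    simp only [greedy, height]
    split_ifs <;> omega

lemma eG_le_eH (n : ℕ) : eG n ≤ eH n :=
  Ex_mono n (fun t => by exact_mod_cast greedy_le_height t)

lemma cast_add_two (n : ℕ) : ((n + 2 : ℕ) : ℝ) = (n : ℝ) + 2 := by push_cast; ring

/-- lower bound for the greedy path -/
theorem eG_lower {κ : ℝ} (hκ : 0 ≤ κ) (n0 : ℕ) (h : ∀ n, n0 ≤ n → κ * (2 * Vs n) ≤ 1) :
    ∃ K, ∀ m : ℕ, 1 ≤ m → κ * Real.log m ^ 2 - K ≤ eG m := by
  apply sub_bound eG_nonneg n0
  intro n hn K hK
  have hh := harm_pos (Nat.succ_pos n)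
  rw [cast_add_two, eG_rec]
  have h1 : ∑ k ∈ Finset.range (n + 1), q (n + 2) (k + 1) *
      (κ * Real.log (mx n k) ^ 2 + (-K)) ≤ ∑ k ∈ Finset.range (n + 1),
      q (n + 2) (k + 1) * eG (max (k + 1) (n + 1 - k)) := by
    apply Finset.sum_le_sum
    intro k hk
    have hk' := Finset.mem_range.1 hk
    apply mul_le_mul_of_nonneg_left _ (q_nonneg n hk')
    have := hK (mx n k) (mx_pos n k) (mx_lt hk')
    unfold mx at this ⊢
    linarith
  rw [sum_q_split] at h1
  have h2 := drop_le n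
  have h3 := h n hn
  have h4 := log_le_harm n
  have hL : 0 ≤ Real.log ((n : ℝ) + 2) :=
    Real.log_nonneg (by have : (0:ℝ) ≤ n := Nat.cast_nonneg n
                        linarith)
  have h5 : κ * (∑ k ∈ Finset.range (n + 1), harm (n + 1) * q (n + 2) (k + 1) *
    (Real.log ((n : ℝ) + 2) ^ 2 - Real.log (mx n k) ^ 2)) / harm (n + 1) ≤ 1 := by
    rw [div_le_one hh]
    calc κ * _ ≤ κ * (2 * Real.log ((n : ℝ) + 2) * Vs n) := mul_le_mul_of_nonneg_left h2 hκ
      _ = (κ * (2 * Vs n)) * Real.log ((n : ℝ) + 2) := by ring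
      _ ≤ 1 * Real.log ((n : ℝ) + 2) := mul_le_mul_of_nonneg_right h3 hL
      _ ≤ _ := by rw [one_mul]; exact h4
  linarith

/-- upper bound for the greedy path -/
theorem eG_upper {κ : ℝ} (hκ : 0 ≤ κ) (n0 : ℕ) (h : ∀ n, n0 ≤ n →
    1 + Real.log ((n : ℝ) + 2) ≤ κ * ((2 * Real.log ((n : ℝ) + 2) - Real.log 2) * Vs n)) :
    ∃ K, ∀ m : ℕ, 1 ≤ m → eG m ≤ κ * Real.log m ^ 2 + K := by
  apply super_bound hκ n0
  intro n hn K hK
  have hh := harm_pos (Nat.succ_pos n)
  rw [cast_add_two, eG_rec]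
  have h1 : ∑ k ∈ Finset.range (n + 1), q (n + 2) (k + 1) * eG (max (k + 1) (n + 1 - k)) ≤
      ∑ k ∈ Finset.range (n + 1), q (n + 2) (k + 1) * (κ * Real.log (mx n k) ^ 2 + K) := by
    apply Finset.sum_le_sum
    intro k hk
    have hk' := Finset.mem_range.1 hk
    apply mul_le_mul_of_nonneg_left _ (q_nonneg n hk')
    exact hK (mx n k) (mx_pos n k) (mx_lt hk')
  rw [sum_q_split] at h1
  have h2 := drop_ge n
  have h3 := h n hn
  have h4 := harm_le_log n
  have h5 : 1 ≤ κ * (∑ k ∈ Finset.range (n + 1), harm (n + 1) * q (n + 2) (k + 1) *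
    (Real.log ((n : ℝ) + 2) ^ 2 - Real.log (mx n k) ^ 2)) / harm (n + 1) := by
    rw [le_div_iff₀ hh, one_mul]
    have h6 := mul_le_mul_of_nonneg_left h2 hκ
    simp only [Nat.succ_eq_add_one]
    linarith
  linarith

/-! ### Fluctuations of the height -/

/-- `E (L*_m - c)₊` -/
noncomputable def Tc (c : ℝ) (m : ℕ) : ℝ := Ex m (fun t => max ((height t : ℝ) - c) 0)

lemma Tc_nonneg (c : ℝ) (m : ℕ) : 0 ≤ Tc c m := by
  have : Ex m (fun _ => (0:ℝ)) ≤ Tc c m := Ex_mono _ (fun t => le_max_right _ _)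
  rwa [Ex_const] at this

lemma Tc_ge (c : ℝ) (m : ℕ) : eH m - c ≤ Tc c m := by
  have h1 : Ex m (fun t => (height t : ℝ) - c) ≤ Tc c m := Ex_mono _ (fun t => le_max_left _ _)
  rwa [Ex_sub, Ex_const] at h1

lemma Tc_rec (c : ℝ) (n : ℕ) : ∑ k ∈ Finset.range (n + 1), q (n + 2) (k + 1) * Tc (c - 1) (mx n k) ≤
    Tc c (n + 2) := by
  unfold Tc
  rw [Ex_rec]
  apply Finset.sum_le_sum
  intro k hk
  have hk' := Finset.mem_range.1 hk
  apply mul_le_mul_of_nonneg_left _ (q_nonneg n hk')
  unfold mx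
  rcases le_total (n + 1 - k) (k + 1) with h | h
  · rw [max_eq_left h]
    apply Ex_mono
    intro l
    have h1 : Ex (n + 1 - k) (fun _ => max ((height l : ℝ) - (c - 1)) 0) ≤
        Ex (n + 1 - k) (fun r => max ((height (node l r) : ℝ) - c) 0) := by
      apply Ex_mono
      intro r
      apply max_le_max _ le_rfl
      simp only [height]
      push_cast
      have := le_max_left (height l : ℝ) (height r : ℝ)
      linarith
    rwa [Ex_const] at h1
  · rw [max_eq_right h]
    have h1 : Ex (k + 1) (fun _ => Ex (n + 1 - k) (fun t => max ((height t : ℝ) - (c - 1)) 0)) ≤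
        Ex (k + 1) (fun l => Ex (n + 1 - k) (fun r => max ((height (node l r) : ℝ) - c) 0)) := by
      apply Ex_mono
      intro l
      apply Ex_mono
      intro r
      apply max_le_max _ le_rfl
      simp only [height]
      push_cast
      have := le_max_right (height l : ℝ) (height r : ℝ)
      linarith
    rwa [Ex_const] at h1

/-- the splits with a small part -/
def small (n : ℕ) : Finset ℕ := (Finset.range (n + 1)).filter (fun k => 63 * (n + 2) ≤ 64 * mx n k)

/-- the probability of a small split -/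
lemma small_prob (n : ℕ) : 1 - 64 / harm (n + 1) ≤ ∑ k ∈ small n, q (n + 2) (k + 1) := by
  have hh := harm_pos (Nat.succ_pos n)
  have h1 : ∑ k ∈ (Finset.range (n + 1)).filter (fun k => ¬ 63 * (n + 2) ≤ 64 * mx n k),
      harm (n + 1) * q (n + 2) (k + 1) ≤ 64 := by
    have h2 : ∀ k ∈ (Finset.range (n + 1)).filter (fun k => ¬ 63 * (n + 2) ≤ 64 * mx n k),
        harm (n + 1) * q (n + 2) (k + 1) ≤ 64 / ((n : ℝ) + 2) := by
      intro k hk
      obtain ⟨hk1, hk2⟩ := Finset.mem_filter.1 hk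
      have hk' := Finset.mem_range.1 hk1
      rw [harm_mul_q n hk']
      unfold mx at hk2
      have e1 : n + 2 ≤ 64 * (k + 1) := by omega
      have e2 : n + 2 ≤ 64 * (n + 1 - k) := by omega
      have f1 : (n : ℝ) + 2 ≤ 64 * ((k : ℝ) + 1) := by exact_mod_cast e1
      have f2 : (n : ℝ) + 2 ≤ 64 * ((n : ℝ) + 1 - k) := by
        have : ((n + 1 - k : ℕ) : ℝ) = (n : ℝ) + 1 - k := by
          rw [Nat.cast_sub (by omega)]; push_cast; ring
        rw [← this]; exact_mod_cast e2
      have hn0 : (0:ℝ) < (n : ℝ) + 2 := by positivity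
      have g1 : 1 / ((k : ℝ) + 1) ≤ 64 / ((n : ℝ) + 2) := by
        rw [div_le_div_iff₀ (by positivity) hn0]; linarith
      have g2 : 1 / ((n : ℝ) + 1 - k) ≤ 64 / ((n : ℝ) + 2) := by
        rw [div_le_div_iff₀ (by linarith) hn0]; linarith
      linarith
    calc _ ≤ ∑ _k ∈ (Finset.range (n + 1)).filter (fun k => ¬ 63 * (n + 2) ≤ 64 * mx n k),
          64 / ((n : ℝ) + 2) := Finset.sum_le_sum h2
      _ ≤ ∑ _k ∈ Finset.range (n + 1), 64 / ((n : ℝ) + 2) := by
          apply Finset.sum_le_sum_of_subset_of_nonneg (Finset.filter_subset _ _)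
          intro _ _ _; positivity
      _ = ((n : ℝ) + 1) * (64 / ((n : ℝ) + 2)) := by
          rw [Finset.sum_const, Finset.card_range, nsmul_eq_mul]; push_cast; ring
      _ ≤ 64 := by
          rw [mul_div_assoc', div_le_iff₀ (by positivity)]
          linarith
  rw [← Finset.mul_sum] at h1
  have h3 : ∑ k ∈ (Finset.range (n + 1)).filter (fun k => ¬ 63 * (n + 2) ≤ 64 * mx n k),
      q (n + 2) (k + 1) ≤ 64 / harm (n + 1) := by
    rw [le_div_iff₀ hh, mul_comm]; exact h1
  have h4 := Finset.sum_filter_add_sum_filter_not (Finset.range (n + 1))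
    (fun k => 63 * (n + 2) ≤ 64 * mx n k) (fun k => q (n + 2) (k + 1))
  rw [sum_q] at h4
  unfold small
  linarith

/-- the drop of `log²` at the small splits -/
lemma small_drop (n : ℕ) : ∑ k ∈ small n, harm (n + 1) * q (n + 2) (k + 1) *
    (Real.log ((n : ℝ) + 2) ^ 2 - Real.log (mx n k) ^ 2) ≤ 1 / 8 * Real.log ((n : ℝ) + 2) := by
  have hn0 : (0:ℝ) < (n : ℝ) + 2 := by positivity
  set L := Real.log ((n : ℝ) + 2) with hL
  have hL0 : 0 ≤ L := Real.log_nonneg (by have : (0:ℝ) ≤ n := Nat.cast_nonneg n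
                                          linarith)
  have h1 : ∀ k ∈ small n, harm (n + 1) * q (n + 2) (k + 1) *
      (L ^ 2 - Real.log (mx n k) ^ 2) ≤ 2 * L * (1 / ((n : ℝ) + 2)) := by
    intro k hk
    obtain ⟨hk1, hk2⟩ := Finset.mem_filter.1 hk
    have hk' := Finset.mem_range.1 hk1
    have hq := hq_nonneg hk'
    have hm1 := log_mx_le hk'
    rw [← hL] at hm1
    have hm0 := log_mx_nonneg n k
    have hmpos : (0:ℝ) < mx n k := by exact_mod_cast mx_pos n k
    have hcast : ((n + 1 - k : ℕ) : ℝ) = (n : ℝ) + 1 - k := by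
      rw [Nat.cast_sub (by omega)]; push_cast; ring
    have hi0 : (0:ℝ) < (k : ℝ) + 1 := by positivity
    have hj0 : (0:ℝ) < (n : ℝ) + 1 - k := by
      rw [← hcast]; exact_mod_cast (by omega : 0 < n + 1 - k)
    -- hq * log(m/mx) ≤ m/(2 mx²)
    have h2 : L - Real.log (mx n k) ≤ ((n : ℝ) + 2 - mx n k) / mx n k := by
      have h3 := Real.log_le_sub_one_of_pos (x := ((n : ℝ) + 2) / mx n k) (by positivity)
      rw [Real.log_div hn0.ne' hmpos.ne', ← hL] at h3
      have h4 : ((n : ℝ) + 2) / mx n k - 1 = ((n : ℝ) + 2 - mx n k) / mx n k := by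
        field_simp
      linarith
    have h5 : harm (n + 1) * q (n + 2) (k + 1) * (((n : ℝ) + 2 - mx n k) / mx n k) =
        ((n : ℝ) + 2) / (2 * (mx n k : ℝ) ^ 2) := by
      rw [harm_mul_q n hk']
      unfold mx
      rcases le_total (n + 1 - k) (k + 1) with h | h
      · rw [max_eq_left h]
        push_cast
        have e : (n : ℝ) + 2 - ((k : ℝ) + 1) = (n : ℝ) + 1 - k := by ring
        rw [e]
        field_simp
        ring
      · rw [max_eq_right h, hcast]
        have e : (n : ℝ) + 2 - ((n : ℝ) + 1 - k) = (k : ℝ) + 1 := by ring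
        rw [e]
        field_simp
        ring
    have h6 : ((n : ℝ) + 2) / (2 * (mx n k : ℝ) ^ 2) ≤ 1 / ((n : ℝ) + 2) := by
      have h7 : (63:ℝ) * ((n : ℝ) + 2) ≤ 64 * mx n k := by exact_mod_cast hk2
      rw [div_le_div_iff₀ (by positivity) hn0]
      nlinarith
    have h8 : harm (n + 1) * q (n + 2) (k + 1) * (L - Real.log (mx n k)) ≤ 1 / ((n : ℝ) + 2) := by
      have := mul_le_mul_of_nonneg_left h2 hq
      rw [h5] at this
      linarith
    calc harm (n + 1) * q (n + 2) (k + 1) * (L ^ 2 - Real.log (mx n k) ^ 2)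
        = (L + Real.log (mx n k)) * (harm (n + 1) * q (n + 2) (k + 1) *
            (L - Real.log (mx n k))) := by ring
      _ ≤ (2 * L) * (1 / ((n : ℝ) + 2)) := by
          apply mul_le_mul _ h8 _ (by linarith)
          · linarith
          · exact mul_nonneg hq (by linarith)
  have hcard : (small n).card ≤ 2 * ((n + 2) / 64) := by
    have hsub : small n ⊆ Finset.range ((n + 2) / 64) ∪
        (Finset.range ((n + 2) / 64)).image (fun j => n - j) := by
      intro k hk
      obtain ⟨hk1, hk2⟩ := Finset.mem_filter.1 hk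
      have hk' := Finset.mem_range.1 hk1
      unfold mx at hk2
      simp only [Finset.mem_union, Finset.mem_range, Finset.mem_image]
      rcases le_total (n + 1 - k) (k + 1) with h | h
      · right
        rw [max_eq_left h] at hk2
        exact ⟨n - k, by omega, by omega⟩
      · left
        rw [max_eq_right h] at hk2
        omega
    calc (small n).card ≤ _ := Finset.card_le_card hsub
      _ ≤ (Finset.range ((n + 2) / 64)).card +
          ((Finset.range ((n + 2) / 64)).image (fun j => n - j)).card := Finset.card_union_le _ _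
      _ ≤ (n + 2) / 64 + (n + 2) / 64 := by
          gcongr
          · simp
          · exact Finset.card_image_le.trans (by simp)
      _ = _ := by ring
  have hcard' : ((small n).card : ℝ) ≤ ((n : ℝ) + 2) / 32 := by
    have h2 : 32 * (small n).card ≤ n + 2 := by omega
    have h3 : (32:ℝ) * ((small n).card : ℝ) ≤ (n : ℝ) + 2 := by exact_mod_cast h2
    linarith
  calc _ ≤ ∑ _k ∈ small n, 2 * L * (1 / ((n : ℝ) + 2)) := Finset.sum_le_sum h1
    _ = ((small n).card : ℝ) * (2 * L * (1 / ((n : ℝ) + 2))) := by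
        rw [Finset.sum_const, nsmul_eq_mul]
    _ ≤ ((n : ℝ) + 2) / 32 * (2 * L * (1 / ((n : ℝ) + 2))) := by
        apply mul_le_mul_of_nonneg_right hcard' (by positivity)
    _ = 1 / 16 * L := by field_simp; ring
    _ ≤ _ := by linarith

/-- the fluctuation estimate -/
lemma fluct {κ K Λ : ℝ} {N : ℕ} (hκ0 : 0 ≤ κ) (hκ2 : κ ≤ 2) (hΛ : 128 ≤ Λ)
    (hIH : ∀ j : ℕ, 1 ≤ j → j < N → κ * Real.log j ^ 2 - K ≤ eH j) (k : ℕ) :
    ∀ m : ℕ, 1 ≤ m → m < N → Λ / 2 + (k : ℝ) / 32 ≤ Real.log m → ∀ c : ℝ,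
      (1 - 128 / Λ) ^ k * (κ * Real.log m ^ 2 - K + k - c) - (k : ℝ) / 4 ≤ Tc c m := by
  have hγ : 0 ≤ 1 - 128 / Λ := by
    rw [sub_nonneg, div_le_one (by linarith)]; exact hΛ
  have hγ1 : 1 - 128 / Λ ≤ 1 := by
    have : 0 ≤ 128 / Λ := by positivity
    linarith
  induction k with
  | zero =>
    intro m hm1 hmN _ c
    have h1 := hIH m hm1 hmN
    have h2 := Tc_ge c m
    simp only [pow_zero, Nat.cast_zero, add_zero, zero_div, sub_zero, one_mul]
    linarith
  | succ k ih =>
    intro m hm1 hmN hlog c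
    push_cast at hlog ⊢
    set A := (1 - 128 / Λ) ^ k with hA
    have hA0 : 0 ≤ A := pow_nonneg hγ k
    have hA1 : A ≤ 1 := pow_le_one₀ hγ hγ1
    have hk0 : (0:ℝ) ≤ k := Nat.cast_nonneg k
    rcases le_or_gt (κ * Real.log m ^ 2 - K + (k + 1) - c) 0 with hneg | hpos
    · have h1 := Tc_nonneg c m
      have h2 : 0 ≤ (1 - 128 / Λ) ^ (k + 1) := pow_nonneg hγ _
      have h3 := mul_nonneg h2 (neg_nonneg.2 hneg)
      linarith
    · -- the size is at least two
      have hm2 : 2 ≤ m := by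
        by_contra hcon
        have : m = 1 := by omega
        rw [this] at hlog
        simp only [Nat.cast_one, Real.log_one] at hlog
        linarith
      obtain ⟨n, rfl⟩ : ∃ n, m = n + 2 := ⟨m - 2, by omega⟩
      rw [cast_add_two] at hlog hpos ⊢
      set L := Real.log ((n : ℝ) + 2) with hL
      have hh := harm_pos (Nat.succ_pos n)
      have hLh := log_le_harm n
      rw [← hL] at hLh
      have hL64 : Λ / 2 ≤ L := by linarith
      refine le_trans ?_ (Tc_rec c n)
      -- restrict to small splits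
      have hsub : ∑ j ∈ small n, q (n + 2) (j + 1) * Tc (c - 1) (mx n j) ≤
          ∑ j ∈ Finset.range (n + 1), q (n + 2) (j + 1) * Tc (c - 1) (mx n j) := by
        apply Finset.sum_le_sum_of_subset_of_nonneg (Finset.filter_subset _ _)
        intro j hj _
        exact mul_nonneg (q_nonneg n (Finset.mem_range.1 hj)) (Tc_nonneg _ _)
      refine le_trans ?_ hsub
      have hterm : ∀ j ∈ small n, q (n + 2) (j + 1) * (A * (κ * L ^ 2 - K + (k + 1) - c)) -
          A * κ / harm (n + 1) * (harm (n + 1) * q (n + 2) (j + 1) *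
            (L ^ 2 - Real.log (mx n j) ^ 2)) - q (n + 2) (j + 1) * (k / 4) ≤
          q (n + 2) (j + 1) * Tc (c - 1) (mx n j) := by
        intro j hj
        obtain ⟨hj1, hj2⟩ := Finset.mem_filter.1 hj
        have hj' := Finset.mem_range.1 hj1
        have hq := q_nonneg n hj'
        have hmpos : (0:ℝ) < mx n j := by exact_mod_cast mx_pos n j
        have hlmx : L - 1 / 32 ≤ Real.log (mx n j) := by
          have h7 : (63:ℝ) / 64 * ((n : ℝ) + 2) ≤ mx n j := by
            have : (63:ℝ) * ((n : ℝ) + 2) ≤ 64 * mx n j := by exact_mod_cast hj2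
            linarith
          have h8 := Real.log_le_log (by positivity) h7
          rw [Real.log_mul (by norm_num) (by positivity), ← hL] at h8
          have h9 := Real.one_sub_inv_le_log_of_pos (x := (63:ℝ) / 64) (by norm_num)
          norm_num at h9
          linarith
        have h1 := ih (mx n j) (mx_pos n j) (lt_trans (mx_lt hj') hmN) (by linarith) (c - 1)
        have h2 := mul_le_mul_of_nonneg_left h1 hq
        refine le_trans (le_of_eq ?_) h2
        simp only [Nat.succ_eq_add_one] at hh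
        field_simp
        ring
      refine le_trans ?_ (Finset.sum_le_sum hterm)
      rw [Finset.sum_sub_distrib, Finset.sum_sub_distrib, ← Finset.sum_mul, ← Finset.sum_mul,
        ← Finset.mul_sum]
      set Q := ∑ j ∈ small n, q (n + 2) (j + 1) with hQ
      have hQ1 : 1 - 128 / Λ ≤ Q := by
        have h1 := small_prob n
        rw [← hQ] at h1
        have h2 : 64 / harm (n + 1) ≤ 128 / Λ := by
          rw [div_le_div_iff₀ hh (by linarith)]
          simp only [Nat.succ_eq_add_one]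
          linarith
        linarith
      have hQ2 : Q ≤ 1 := by
        rw [hQ, ← sum_q n]
        apply Finset.sum_le_sum_of_subset_of_nonneg (Finset.filter_subset _ _)
        intro j hj _
        exact q_nonneg n (Finset.mem_range.1 hj)
      have hdrop := small_drop n
      rw [← hL] at hdrop
      set D := ∑ j ∈ small n, harm (n + 1) * q (n + 2) (j + 1) *
            (L ^ 2 - Real.log (mx n j) ^ 2) with hD
      have hD2 : A * κ / harm (n + 1) * D ≤ 1 / 4 := by
        have h1 : D ≤ 1 / 8 * harm (n + 1) := by linarith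
        have h2 : 0 ≤ A * κ / harm (n + 1) := by positivity
        calc A * κ / harm (n + 1) * D ≤ A * κ / harm (n + 1) * (1 / 8 * harm (n + 1)) :=
              mul_le_mul_of_nonneg_left h1 h2
          _ = A * κ / 8 := by
              simp only [Nat.succ_eq_add_one] at hh
              field_simp
          _ ≤ 1 * 2 / 8 := by
              apply div_le_div_of_nonneg_right _ (by norm_num)
              exact mul_le_mul hA1 hκ2 hκ0 zero_le_one
          _ = 1 / 4 := by norm_num
      have h3 : (1 - 128 / Λ) ^ (k + 1) * (κ * L ^ 2 - K + (k + 1) - c) ≤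
          Q * (A * (κ * L ^ 2 - K + (k + 1) - c)) := by
        rw [pow_succ, ← hA]
        have h4 : 0 ≤ A * (κ * L ^ 2 - K + (k + 1) - c) := mul_nonneg hA0 hpos.le
        have h5 := mul_le_mul_of_nonneg_right hQ1 h4
        linarith
      have h6 : Q * (k / 4) ≤ k / 4 := by
        have := mul_le_mul_of_nonneg_right hQ2 (by positivity : (0:ℝ) ≤ (k : ℝ) / 4)
        linarith
      linarith

/-- the fluctuations are of order `log N` -/
lemma fluct_main {κ K : ℝ} {N : ℕ} (hκ0 : 0 ≤ κ) (hκ2 : κ ≤ 2)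
    (hΛ : 512 ≤ Real.log N)
    (hIH : ∀ j : ℕ, 1 ≤ j → j < N → κ * Real.log j ^ 2 - K ≤ eH j) {j : ℕ} (hj : N ≤ 2 * j)
    (hjN : j < N) {c : ℝ} (hc : c ≤ κ * Real.log j ^ 2 - K) : Real.log N / 2048 ≤ Tc c j := by
  set Λ := Real.log N with hΛdef
  have hΛ0 : 0 < Λ := by linarith
  set k := ⌊Λ / 256⌋₊ with hk
  have hk1 : (k : ℝ) ≤ Λ / 256 := Nat.floor_le (by positivity)
  have hk2 : Λ / 256 < (k : ℝ) + 1 := Nat.lt_floor_add_one _
  have hk3 : Λ / 512 ≤ (k : ℝ) := by linarith
  have hj1 : 1 ≤ j := by omega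
  have hj0 : (0:ℝ) < j := by exact_mod_cast hj1
  have hN0 : (0:ℝ) < N := by
    have : 0 < N := by omega
    exact_mod_cast this
  have hlog2 : Real.log 2 ≤ 1 := by
    have := Real.log_le_sub_one_of_pos (x := (2:ℝ)) (by norm_num)
    linarith
  have hlj : Λ - 1 ≤ Real.log j := by
    have h1 : (N : ℝ) ≤ 2 * j := by exact_mod_cast hj
    have h2 := Real.log_le_log hN0 h1
    rw [Real.log_mul (by norm_num) hj0.ne'] at h2
    linarith
  have h1 := fluct hκ0 hκ2 (by linarith : 128 ≤ Λ) hIH k j hj1 hjN (by linarith) c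
  have hpow : 1 / 2 ≤ (1 - 128 / Λ) ^ k := by
    have h2 := one_add_mul_le_pow (a := -(128 / Λ)) (by
      have : 128 / Λ ≤ 1 := by rw [div_le_one hΛ0]; linarith
      linarith) k
    have h3 : (k : ℝ) * (128 / Λ) ≤ 1 / 2 := by
      calc (k : ℝ) * (128 / Λ) ≤ Λ / 256 * (128 / Λ) :=
            mul_le_mul_of_nonneg_right hk1 (by positivity)
        _ = 1 / 2 := by field_simp; norm_num
    have h4 : (1 + -(128 / Λ)) = 1 - 128 / Λ := by ring
    rw [h4] at h2
    linarith
  have hpos : (k : ℝ) ≤ κ * Real.log j ^ 2 - K + k - c := by linarith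
  have h5 : 1 / 2 * (k : ℝ) ≤ (1 - 128 / Λ) ^ k * (κ * Real.log j ^ 2 - K + k - c) :=
    mul_le_mul hpow hpos (Nat.cast_nonneg k) (by linarith)
  linarith

end Pool.Agent.Q287.CD
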