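import Pool.Agent.Q287.CD4

/-! The discrete-time critical beta-splitting tree: the height is longer than the greedy path by a
multiple of `log²`. -/

namespace Pool.Agent.Q287.CD

open MeasureTheory ProbabilityTheory Set Filter Topology
open Pool.Agent.Q287.CB BT

/-- `E max(L*_i, L*_j)` for independent heights -/
noncomputable def eM (i j : ℕ) : ℝ := Ex i (fun l => Ex j
      (fun r => max (height l : ℝ) (height r : ℝ)))

lemma eM_swap (i j : ℕ) : eM i j = eM j i := by
  unfold eM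
  rw [Ex_swap]
  congr 1
  funext r
  congr 1
  funext l
  exact max_comm _ _

lemma eM_ge_right (i j : ℕ) {a : ℝ} (ha : a ≤ eH i) : a + Tc a j ≤ eM i j := by
  rw [eM_swap]
  unfold eM Tc
  rw [← Ex_const j a, ← Ex_add]
  simp only [Ex_const]
  apply Ex_mono
  intro l
  have h1 : max (height l : ℝ) (eH i) ≤ Ex i (fun r => max (height l : ℝ) (height r : ℝ)) := by
    apply max_le
    · have : Ex i (fun _ => (height l : ℝ)) ≤ Ex i (fun r => max (height l : ℝ) (height r : ℝ)) :=
        Ex_mono _ (fun r => le_max_left _ _)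
      rwa [Ex_const] at this
    · exact Ex_mono _ (fun r => le_max_right _ _)
  refine le_trans ?_ h1
  rcases le_total ((height l : ℝ) - a) 0 with h | h
  · rw [max_eq_right h, add_zero]
    exact ha.trans (le_max_right _ _)
  · rw [max_eq_left h]
    have : a + ((height l : ℝ) - a) = height l := by ring
    rw [this]
    exact le_max_left _ _

lemma eM_ge (i j : ℕ) : eH j ≤ eM i j := by
  unfold eM
  have h1 : Ex i (fun _ => eH j) ≤ Ex i (fun l => Ex j
      (fun r => max (height l : ℝ) (height r : ℝ))) := by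
    apply Ex_mono
    intro l
    exact Ex_mono _ (fun r => le_max_right _ _)
  rwa [Ex_const] at h1

/-- the size of the smaller part -/
def mn (n k : ℕ) : ℕ := min (k + 1) (n + 1 - k)

lemma eM_mn_mx (n k : ℕ) : eM (k + 1) (n + 1 - k) = eM (mn n k) (mx n k) := by
  unfold mn mx
  rcases le_total (k + 1) (n + 1 - k) with h | h
  · rw [min_eq_left h, max_eq_right h]
  · rw [min_eq_right h, max_eq_left h, eM_swap]

/-- the balanced splits -/
def bal (n : ℕ) : Finset ℕ := (Finset.range (n + 1)).filter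
  (fun k => 65535 * (n + 2) ≤ 65536 * (2 * mn n k))

lemma bal_card (n : ℕ) : (n + 2) / 131072 ≤ (bal n).card := by
  have hsub : (Finset.range ((n + 2) / 131072)).image (fun t => (n + 2) / 2 - 1 - t) ⊆ bal n := by
    intro k hk
    simp only [Finset.mem_image, Finset.mem_range] at hk
    obtain ⟨t, ht, rfl⟩ := hk
    unfold bal mn
    simp only [Finset.mem_filter, Finset.mem_range]
    constructor
    · omega
    · omega
  calc (n + 2) / 131072 = ((Finset.range ((n + 2) / 131072)).image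
        (fun t => (n + 2) / 2 - 1 - t)).card := by
        rw [Finset.card_image_of_injOn, Finset.card_range]
        intro a ha b hb hab
        simp only [Finset.coe_range, Set.mem_Iio] at ha hb
        simp only at hab
        omega
    _ ≤ _ := Finset.card_le_card hsub

lemma bal_prob (n : ℕ) (hn : 262144 ≤ n) : 1 / 262144 ≤
    ∑ k ∈ bal n, harm (n + 1) * q (n + 2) (k + 1) := by
  have hn0 : (0:ℝ) < (n : ℝ) + 2 := by positivity
  have h1 : ∀ k ∈ bal n, 2 / ((n : ℝ) + 2) ≤ harm (n + 1) * q (n + 2) (k + 1) := by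
    intro k hk
    have hk' := Finset.mem_range.1 (Finset.mem_filter.1 hk).1
    rw [harm_mul_q n hk']
    have hcast : ((n + 1 - k : ℕ) : ℝ) = (n : ℝ) + 1 - k := by
      rw [Nat.cast_sub (by omega)]; push_cast; ring
    have hi0 : (0:ℝ) < (k : ℝ) + 1 := by positivity
    have hj0 : (0:ℝ) < (n : ℝ) + 1 - k := by
      rw [← hcast]; exact_mod_cast (by omega : 0 < n + 1 - k)
    have e : (1 / ((k : ℝ) + 1) + 1 / ((n : ℝ) + 1 - k)) / 2 =
        ((n : ℝ) + 2) / (2 * (((k : ℝ) + 1) * ((n : ℝ) + 1 - k))) := by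
      field_simp; ring
    rw [e, div_le_div_iff₀ hn0 (by positivity)]
    nlinarith [sq_nonneg (((k : ℝ) + 1) - ((n : ℝ) + 1 - k))]
  have h2 := Finset.sum_le_sum h1
  rw [Finset.sum_const, nsmul_eq_mul] at h2
  refine le_trans ?_ h2
  have h3 := bal_card n
  have h4 : (n + 2) ≤ 262144 * (bal n).card * 2 := by omega
  have h5 : ((n : ℝ) + 2) ≤ 262144 * ((bal n).card : ℝ) * 2 := by exact_mod_cast h4
  rw [mul_div_assoc', div_le_div_iff₀ (by norm_num) hn0]
  linarith

/-- the gain at a balanced split -/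
lemma gain {κ K : ℝ} {n k : ℕ} (hκ0 : 0 ≤ κ) (hκ2 : κ ≤ 2)
    (hΛ : 512 ≤ Real.log ((n : ℝ) + 2))
    (hIH : ∀ j : ℕ, 1 ≤ j → j < n + 2 → κ * Real.log j ^ 2 - K ≤ eH j) (hk : k ∈ bal n) :
    κ * Real.log (mx n k) ^ 2 - K + Real.log ((n : ℝ) + 2) / 4096 ≤ eM (mn n k) (mx n k) := by
  obtain ⟨hk1, hk2⟩ := Finset.mem_filter.1 hk
  have hk' := Finset.mem_range.1 hk1
  set Λ := Real.log ((n : ℝ) + 2) with hΛdef
  have hmn1 : 1 ≤ mn n k := by unfold mn; omega
  have hmnmx : mn n k ≤ mx n k := by unfold mn mx; omega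
  have hsum : mn n k + mx n k = n + 2 := by unfold mn mx; omega
  have hmnN : mn n k < n + 2 := by have := mx_pos n k; omega
  set a := κ * Real.log (mn n k) ^ 2 - K with ha
  have haH : a ≤ eH (mn n k) := hIH _ hmn1 hmnN
  have h1 := eM_ge_right (mn n k) (mx n k) haH
  have hmn0 : (0:ℝ) < mn n k := by exact_mod_cast hmn1
  have hmx0 : (0:ℝ) < mx n k := by exact_mod_cast mx_pos n k
  have hl1 : Real.log (mn n k) ≤ Real.log (mx n k) :=
    Real.log_le_log hmn0 (by exact_mod_cast hmnmx)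
  have hl0 : 0 ≤ Real.log (mn n k) := Real.log_nonneg (by exact_mod_cast hmn1)
  have hl2 := log_mx_le hk'
  rw [← hΛdef] at hl2
  have hac : a ≤ κ * Real.log (mx n k) ^ 2 - K := by
    have : Real.log (mn n k) ^ 2 ≤ Real.log (mx n k) ^ 2 := pow_le_pow_left₀ hl0 hl1 2
    have := mul_le_mul_of_nonneg_left this hκ0
    linarith
  have h2 := fluct_main (N := n + 2) hκ0 hκ2 (by rw [cast_add_two]; exact hΛ) hIH
    (mx_half hk') (mx_lt hk') hac
  rw [cast_add_two, ← hΛdef] at h2
  -- regularity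
  have hratio : Real.log (mx n k) - Real.log (mn n k) ≤ 1 / 16384 := by
    have h3 := Real.log_le_sub_one_of_pos (x := (mx n k : ℝ) / mn n k) (by positivity)
    rw [Real.log_div hmx0.ne' hmn0.ne'] at h3
    have h4 : (mx n k : ℝ) / mn n k - 1 ≤ 1 / 16384 := by
      rw [sub_le_iff_le_add, div_le_iff₀ hmn0]
      have h5 : (65535:ℝ) * ((n : ℝ) + 2) ≤ 65536 * (2 * mn n k) := by exact_mod_cast hk2
      have h6 : (mn n k : ℝ) + mx n k = (n : ℝ) + 2 := by exact_mod_cast hsum
      have hn0 : (0:ℝ) < (n : ℝ) + 2 := by positivity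
      linarith
    linarith
  have hreg : κ * Real.log (mx n k) ^ 2 - κ * Real.log (mn n k) ^ 2 ≤ Λ / 4096 := by
    have h3 : Real.log (mx n k) ^ 2 - Real.log (mn n k) ^ 2 ≤ (2 * Λ) * (1 / 16384) := by
      have : Real.log (mx n k) ^ 2 - Real.log (mn n k) ^ 2 =
          (Real.log (mx n k) + Real.log (mn n k)) * (Real.log (mx n k) - Real.log (mn n k)) := by
        ring
      rw [this]
      apply mul_le_mul _ hratio (by linarith) (by linarith)
      linarith
    have h4 := mul_le_mul_of_nonneg_left h3 hκ0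
    have h5 : κ * ((2 * Λ) * (1 / 16384)) ≤ 2 * ((2 * Λ) * (1 / 16384)) :=
      mul_le_mul_of_nonneg_right hκ2 (by linarith)
    linarith
  linarith

/-- lower bound for the height -/
theorem eH_lower {κ : ℝ} (hκ0 : 0 ≤ κ) (hκ2 : κ ≤ 2) (n0 : ℕ)
    (h : ∀ n, n0 ≤ n → κ * (2 * Vs n) ≤ 1 + 1 / 2 ^ 31) :
    ∃ K, ∀ m : ℕ, 1 ≤ m → κ * Real.log m ^ 2 - K ≤ eH m := by
  have hlog : Tendsto (fun n : ℕ => Real.log ((n : ℝ) + 2)) atTop atTop :=
    Real.tendsto_log_atTop.comp (tendsto_atTop_add_const_right _ _ tendsto_natCast_atTop_atTop)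
  obtain ⟨n1, hn1⟩ := eventually_atTop.1 (hlog.eventually_ge_atTop 512)
  apply sub_bound eH_nonneg (max n0 (max n1 262144))
  intro n hn K hK
  have hnn0 : n0 ≤ n := le_trans (le_max_left _ _) hn
  have hnn1 : n1 ≤ n := le_trans (le_trans (le_max_left _ _) (le_max_right _ _)) hn
  have hnn2 : 262144 ≤ n := le_trans (le_trans (le_max_right _ _) (le_max_right _ _)) hn
  have hh := harm_pos (Nat.succ_pos n)
  have hΛ := hn1 n hnn1
  rw [cast_add_two, eH_rec]
  set L := Real.log ((n : ℝ) + 2) with hL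
  have h1 : ∀ k ∈ Finset.range (n + 1), q (n + 2) (k + 1) *
      (κ * Real.log (mx n k) ^ 2 + (-K)) +
      (if k ∈ bal n then q (n + 2) (k + 1) * (L / 4096) else 0) ≤
      q (n + 2) (k + 1) * Ex (k + 1) (fun l => Ex (n + 1 - k)
      (fun r => max (height l : ℝ) (height r : ℝ))) := by
    intro k hk
    have hk' := Finset.mem_range.1 hk
    have hq := q_nonneg n hk'
    have e : Ex (k + 1) (fun l => Ex (n + 1 - k)
      (fun r => max (height l : ℝ) (height r : ℝ))) = eM (mn n k) (mx n k) := eM_mn_mx n k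
    rw [e]
    split_ifs with hb
    · have h2 := gain hκ0 hκ2 hΛ hK hb
      have h3 := mul_le_mul_of_nonneg_left h2 hq
      linarith
    · have h2 := eM_ge (mn n k) (mx n k)
      have h3 := hK (mx n k) (mx_pos n k) (mx_lt hk')
      have h4 := mul_le_mul_of_nonneg_left (h3.trans h2) hq
      linarith
  have h2 := Finset.sum_le_sum h1
  rw [Finset.sum_add_distrib, sum_q_split] at h2
  have h3 : ∑ k ∈ Finset.range (n + 1),
      (if k ∈ bal n then q (n + 2) (k + 1) * (L / 4096) else 0) =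
      (∑ k ∈ bal n, q (n + 2) (k + 1)) * (L / 4096) := by
    rw [← Finset.sum_filter, Finset.sum_mul]
    apply Finset.sum_congr _ (fun _ _ => rfl)
    ext k
    simp only [Finset.mem_filter, bal]
    tauto
  rw [h3] at h2
  have h4 := bal_prob n hnn2
  rw [← Finset.mul_sum] at h4
  have h5 := harm_le_log n
  rw [← hL] at h5
  -- the gain is a constant
  have hgain : 1 / 2 ^ 31 ≤ (∑ k ∈ bal n, q (n + 2) (k + 1)) * (L / 4096) := by
    have h6 : 1 / 262144 / harm (n + 1) ≤ ∑ k ∈ bal n, q (n + 2) (k + 1) := by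
      rw [div_le_iff₀ hh, mul_comm (∑ k ∈ bal n, q (n + 2) (k + 1))]; exact h4
    have h7 : harm (n + 1) ≤ 2 * L := by linarith
    have h8 : 1 / 262144 / (2 * L) ≤ 1 / 262144 / harm (n + 1) :=
      div_le_div_of_nonneg_left (by norm_num) hh h7
    have h9 : 1 / 262144 / (2 * L) * (L / 4096) = 1 / 2 ^ 31 := by
      have : L ≠ 0 := by linarith
      field_simp
      norm_num
    rw [← h9]
    exact mul_le_mul_of_nonneg_right (h8.trans h6) (by linarith)
  have h6 := drop_le n
  rw [← hL] at h6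
  have h7 := h n hnn0
  have h8 := log_le_harm n
  rw [← hL] at h8
  have h9 : κ * (∑ k ∈ Finset.range (n + 1), harm (n + 1) * q (n + 2) (k + 1) *
    (L ^ 2 - Real.log (mx n k) ^ 2)) / harm (n + 1) ≤ 1 + 1 / 2 ^ 31 := by
    rw [div_le_iff₀ hh]
    calc κ * _ ≤ κ * (2 * L * Vs n) := mul_le_mul_of_nonneg_left h6 hκ0
      _ = (κ * (2 * Vs n)) * L := by ring
      _ ≤ (1 + 1 / 2 ^ 31) * L := mul_le_mul_of_nonneg_right h7 (by linarith)
      _ ≤ _ := mul_le_mul_of_nonneg_left h8 (by norm_num)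
  linarith

lemma Vs_tendsto : Tendsto Vs atTop (𝓝 Vlim) := by
  have h0 : Tendsto (fun n : ℕ => ((n : ℝ) + 2)⁻¹) atTop (𝓝 0) :=
    tendsto_inv_atTop_zero.comp
      (tendsto_atTop_add_const_right _ _ tendsto_natCast_atTop_atTop)
  have h1 : Tendsto (fun n : ℕ => Vlim - 8 / ((n : ℝ) + 2)) atTop (𝓝 Vlim) := by
    have := (h0.const_mul 8).const_sub Vlim
    simpa [div_eq_mul_inv] using this
  have h2 : Tendsto (fun n : ℕ => Vlim + 4 / ((n : ℝ) + 2)) atTop (𝓝 Vlim) := by
    have := (h0.const_mul 4).const_add Vlim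
    simpa [div_eq_mul_inv] using this
  exact tendsto_of_tendsto_of_tendsto_of_le_of_le h1 h2 (fun n => (Vs_bounds n).1)
    (fun n => (Vs_bounds n).2)

lemma log_tendsto : Tendsto (fun n : ℕ => Real.log (n : ℝ)) atTop atTop :=
  Real.tendsto_log_atTop.comp tendsto_natCast_atTop_atTop

/-- `(19/40) log² m - K ≤ E L⁺_m` -/
theorem greedy_low : ∃ K, ∀ m : ℕ, 1 ≤ m → 19 / 40 * Real.log m ^ 2 - K ≤ eG m := by
  have h1 : ∀ᶠ n in atTop, Vs n < 20 / 19 := by
    apply Vs_tendsto.eventually (gt_mem_nhds _)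
    have := Vlim_le
    linarith
  obtain ⟨n0, hn0⟩ := eventually_atTop.1 h1
  apply eG_lower (by norm_num) n0
  intro n hn
  have := hn0 n hn
  linarith

/-- the gap between the height and the greedy path -/
theorem height_gap : ∃ δ K : ℝ, 0 < δ ∧ ∀ m : ℕ, 1 ≤ m → δ * Real.log m ^ 2 - K ≤ eH m - eG m := by
  have hV1 := Vlim_ge
  have hV2 := Vlim_le
  set V := Vlim with hV
  have hV0 : 0 < V := by linarith
  set e : ℝ := 1 / 2 ^ 31 with he
  have he0 : 0 < e := by rw [he]; norm_num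
  have he1 : e ≤ 1 := by rw [he]; norm_num
  -- coefficients
  set κ1 := (1 + e / 2) / (2 * V) with hκ1
  set κ2 := (1 + e / 4) / (2 * V) with hκ2
  have hκ10 : 0 ≤ κ1 := by positivity
  have hκ20 : 0 ≤ κ2 := by positivity
  have hκ12 : κ1 ≤ 2 := by
    rw [hκ1, div_le_iff₀ (by positivity)]
    linarith
  -- lower bound for the height
  have ev1 : ∀ᶠ n in atTop, κ1 * (2 * Vs n) < 1 + e := by
    have h1 : Tendsto (fun n => κ1 * (2 * Vs n)) atTop (𝓝 (κ1 * (2 * V))) :=
      (Vs_tendsto.const_mul 2).const_mul κ1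
    have h2 : κ1 * (2 * V) = 1 + e / 2 := by rw [hκ1]; field_simp
    rw [h2] at h1
    exact h1.eventually (gt_mem_nhds (by linarith))
  obtain ⟨n1, hn1⟩ := eventually_atTop.1 ev1
  obtain ⟨K1, hK1⟩ := eH_lower hκ10 hκ12 n1 (fun n hn => (hn1 n hn).le)
  -- upper bound for the greedy path
  have ev2 : ∀ᶠ n : ℕ in atTop,
      1 + Real.log ((n : ℝ) + 2) ≤ κ2 * ((2 * Real.log ((n : ℝ) + 2) - Real.log 2) * Vs n) := by
    have h1 : Tendsto (fun n => κ2 * (2 * Vs n)) atTop (𝓝 (κ2 * (2 * V))) :=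
      (Vs_tendsto.const_mul 2).const_mul κ2
    have h2 : κ2 * (2 * V) = 1 + e / 4 := by rw [hκ2]; field_simp
    rw [h2] at h1
    have h3 := h1.eventually (lt_mem_nhds (show 1 + e / 8 < 1 + e / 4 by linarith))
    have hlog : Tendsto (fun n : ℕ => Real.log ((n : ℝ) + 2)) atTop atTop :=
      Real.tendsto_log_atTop.comp (tendsto_atTop_add_const_right _ _ tendsto_natCast_atTop_atTop)
    have h4 := hlog.eventually_ge_atTop (8 * (2 + 2 * Real.log 2) / e)
    filter_upwards [h3, h4] with n h5 h6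
    set L := Real.log ((n : ℝ) + 2) with hL
    have hlog2 : 0 < Real.log 2 := Real.log_pos (by norm_num)
    rw [div_le_iff₀ he0] at h6
    have hL2 : 0 ≤ L - Real.log 2 / 2 := by nlinarith
    have h7 : (1 + e / 8) * (L - Real.log 2 / 2) ≤ κ2 * (2 * Vs n) * (L - Real.log 2 / 2) :=
      mul_le_mul_of_nonneg_right h5.le hL2
    have h8 : κ2 * ((2 * L - Real.log 2) * Vs n) = κ2 * (2 * Vs n) * (L - Real.log 2 / 2) := by
      ring
    rw [h8]
    refine le_trans ?_ h7
    have h9 : e * Real.log 2 ≤ 1 * Real.log 2 := mul_le_mul_of_nonneg_right he1 hlog2.le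
    have h10 : (1 + e / 8) * (L - Real.log 2 / 2) =
        L - Real.log 2 / 2 + L * e / 8 - e * Real.log 2 / 16 := by ring
    rw [h10]
    set Y := L * e with hY
    set Z := e * Real.log 2 with hZ
    set l2 := Real.log 2 with hl2
    clear_value Y Z l2 L
    linarith only [h6, h9, hlog2]
  obtain ⟨n2, hn2⟩ := eventually_atTop.1 ev2
  obtain ⟨K2, hK2⟩ := eG_upper hκ20 n2 hn2
  refine ⟨κ1 - κ2, K1 + K2, ?_, ?_⟩
  · rw [hκ1, hκ2, ← sub_div]
    apply div_pos _ (by positivity)
    linarith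
  · intro m hm
    have h1 := hK1 m hm
    have h2 := hK2 m hm
    linarith

/-- Both differences are of order `log² n`. -/
theorem orders :
    (∃ c C : ℝ, 0 < c ∧ ∀ᶠ n : ℕ in atTop,
      c * Real.log n ^ 2 ≤ eG n - eL n ∧ eG n - eL n ≤ C * Real.log n ^ 2) ∧
    (∃ c C : ℝ, 0 < c ∧ ∀ᶠ n : ℕ in atTop,
      c * Real.log n ^ 2 ≤ eH n - eG n ∧ eH n - eG n ≤ C * Real.log n ^ 2) ∧
    (∀ᶠ n : ℕ in atTop, 9 / 20 * Real.log n ^ 2 ≤ eG n) := by
  obtain ⟨K1, hK1⟩ := greedy_low
  obtain ⟨K2, hK2⟩ := eL_upper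
  obtain ⟨δ, K3, hδ, hK3⟩ := height_gap
  have hsq : Tendsto (fun n : ℕ => Real.log (n : ℝ) ^ 2) atTop atTop :=
    (tendsto_pow_atTop two_ne_zero).comp log_tendsto
  have hup : ∀ᶠ n : ℕ in atTop, eH n ≤ 4 * Real.log n ^ 2 := by
    filter_upwards [log_tendsto.eventually_ge_atTop 2, eventually_ge_atTop 1] with n h1 h2
    obtain ⟨m, rfl⟩ : ∃ m, n = m + 1 := ⟨n - 1, by omega⟩
    have h3 := eH_upper m
    push_cast at h1 ⊢
    nlinarith
  refine ⟨⟨1 / 80, 4, by norm_num, ?_⟩, ⟨δ / 2, 4, by linarith, ?_⟩, ?_⟩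
  · filter_upwards [hsq.eventually_ge_atTop (80 * (K1 + K2)), hup, eventually_ge_atTop 1]
      with n h1 h2 h3
    have g1 := hK1 n h3
    have g2 := hK2 n h3
    have g3 := eG_le_eH n
    have g4 := eL_nonneg n
    constructor <;> linarith
  · filter_upwards [hsq.eventually_ge_atTop (2 / δ * K3), hup, eventually_ge_atTop 1]
      with n h1 h2 h3
    have g1 := hK3 n h3
    have g3 := eG_nonneg n
    have h4 : K3 ≤ δ / 2 * Real.log n ^ 2 := by
      have := mul_le_mul_of_nonneg_left h1 (by positivity : 0 ≤ δ / 2)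
      have e1 : δ / 2 * (2 / δ * K3) = K3 := by field_simp
      rw [e1] at this
      exact this
    constructor <;> linarith
  · filter_upwards [hsq.eventually_ge_atTop (40 * K1), eventually_ge_atTop 1] with n h1 h3
    have g1 := hK1 n h3
    linarith

end Pool.Agent.Q287.CD
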