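import Mathlib

/-! Leaf density in fitness recursive trees: the chain of degrees and its expectation operators. -/

namespace Pool.Agent.Q287.LD

open Finset Function

variable {f : ℕ → ℝ}

/-- total fitness of the vertices `0, …, t` with degrees `D` -/
noncomputable def Zf (f : ℕ → ℝ) (t : ℕ) (D : ℕ → ℕ) : ℝ := ∑ v ∈ range (t + 1), f (D v)

/-- the degrees after the vertex `v` got a child -/
def nxt (D : ℕ → ℕ) (v : ℕ) : ℕ → ℕ := update D v (D v + 1)

/-- one-step mean -/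
noncomputable def E1 (f : ℕ → ℝ) (Φ : ℕ → (ℕ → ℕ) → ℝ) (t : ℕ) (D : ℕ → ℕ) : ℝ :=
  ∑ v ∈ range (t + 1), f (D v) / Zf f t D * Φ (t + 1) (nxt D v)

/-- mean after `m` steps -/
noncomputable def Ex (f : ℕ → ℝ) : ℕ → (ℕ → (ℕ → ℕ) → ℝ) → ℕ → (ℕ → ℕ) → ℝ
  | 0, Φ => Φ
  | (m + 1), Φ => E1 f (Ex f m Φ)

open Classical in
/-- probability that the condition holds at some time within the next `m` steps -/
noncomputable def V (f : ℕ → ℝ) (c : ℕ → (ℕ → ℕ) → Prop) : ℕ → ℕ → (ℕ → ℕ) → ℝ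
  | 0, t, D => if c t D then 1 else 0
  | (m + 1), t, D => if c t D then 1 else E1 f (V f c m) t D

lemma Zf_pos (hf : ∀ k, 0 < f k) (t : ℕ) (D : ℕ → ℕ) : 0 < Zf f t D :=
  Finset.sum_pos (fun v _ => hf _) ⟨0, by simp⟩

lemma sum_prob (hf : ∀ k, 0 < f k) (t : ℕ) (D : ℕ → ℕ) :
    ∑ v ∈ range (t + 1), f (D v) / Zf f t D = 1 := by
  rw [← Finset.sum_div]
  exact div_self (Zf_pos hf t D).ne'

lemma E1_mono (hf : ∀ k, 0 < f k) {Φ Φ' : ℕ → (ℕ → ℕ) → ℝ} {t : ℕ} {D : ℕ → ℕ}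
    (h : ∀ v, v ≤ t → Φ (t + 1) (nxt D v) ≤ Φ' (t + 1) (nxt D v)) : E1 f Φ t D ≤ E1 f Φ' t D := by
  unfold E1
  apply Finset.sum_le_sum
  intro v hv
  apply mul_le_mul_of_nonneg_left (h v (by rw [Finset.mem_range] at hv; omega))
  exact div_nonneg (hf _).le (Zf_pos hf t D).le

lemma E1_const (hf : ∀ k, 0 < f k) (c : ℝ) (t : ℕ) (D : ℕ → ℕ) : E1 f (fun _ _ => c) t D = c := by
  unfold E1
  rw [← Finset.sum_mul, sum_prob hf, one_mul]

lemma E1_add (Φ Φ' : ℕ → (ℕ → ℕ) → ℝ) (t : ℕ) (D : ℕ → ℕ) :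
    E1 f (fun t D => Φ t D + Φ' t D) t D = E1 f Φ t D + E1 f Φ' t D := by
  unfold E1
  rw [← Finset.sum_add_distrib]
  apply Finset.sum_congr rfl
  intro v _
  ring

lemma E1_mul (c : ℝ) (Φ : ℕ → (ℕ → ℕ) → ℝ) (t : ℕ) (D : ℕ → ℕ) :
    E1 f (fun t D => c * Φ t D) t D = c * E1 f Φ t D := by
  unfold E1
  rw [Finset.mul_sum]
  apply Finset.sum_congr rfl
  intro v _
  ring

lemma E1_nonneg (hf : ∀ k, 0 < f k) {Φ : ℕ → (ℕ → ℕ) → ℝ} {t : ℕ} {D : ℕ → ℕ}
    (h : ∀ v, v ≤ t → 0 ≤ Φ (t + 1) (nxt D v)) : 0 ≤ E1 f Φ t D := by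
  have := E1_mono hf (Φ := fun _ _ => 0) (Φ' := Φ) (t := t) (D := D) h
  rw [E1_const hf] at this
  exact this

lemma Ex_mono (hf : ∀ k, 0 < f k) {Φ Φ' : ℕ → (ℕ → ℕ) → ℝ} (h : ∀ t D, Φ t D ≤ Φ' t D) :
    ∀ m t D, Ex f m Φ t D ≤ Ex f m Φ' t D := by
  intro m
  induction m with
  | zero => exact h
  | succ m ih => intro t D; exact E1_mono hf fun v _ => ih _ _

lemma Ex_const (hf : ∀ k, 0 < f k) (c : ℝ) : ∀ m t D, Ex f m (fun _ _ => c) t D = c := by
  intro m
  induction m with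
  | zero => intro t D; rfl
  | succ m ih =>
    intro t D
    have : Ex f m (fun _ _ => c) = fun _ _ => c := by funext t D; exact ih t D
    rw [Ex, this, E1_const hf]

lemma Ex_add (Φ Φ' : ℕ → (ℕ → ℕ) → ℝ) : ∀ m t D,
    Ex f m (fun t D => Φ t D + Φ' t D) t D = Ex f m Φ t D + Ex f m Φ' t D := by
  intro m
  induction m with
  | zero => intro t D; rfl
  | succ m ih =>
    intro t D
    have : Ex f m (fun t D => Φ t D + Φ' t D) = fun t D => Ex f m Φ t D + Ex f m Φ' t D := by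
      funext t D; exact ih t D
    rw [Ex, this, E1_add]; rfl

lemma Ex_mul (c : ℝ) (Φ : ℕ → (ℕ → ℕ) → ℝ) : ∀ m t D,
    Ex f m (fun t D => c * Φ t D) t D = c * Ex f m Φ t D := by
  intro m
  induction m with
  | zero => intro t D; rfl
  | succ m ih =>
    intro t D
    have : Ex f m (fun t D => c * Φ t D) = fun t D => c * Ex f m Φ t D := by
      funext t D; exact ih t D
    rw [Ex, this, E1_mul]; rfl

/-- `Ex` with one more step at the end -/
lemma Ex_succ' (Φ : ℕ → (ℕ → ℕ) → ℝ) : ∀ m, Ex f (m + 1) Φ = Ex f m (E1 f Φ) := by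
  intro m
  induction m with
  | zero => rfl
  | succ m ih => rw [Ex, ih]; rfl

/-- reachable states: at time `t + i`, vertices above `t` have degree bounded etc. -/
def Inv (I : ℕ → (ℕ → ℕ) → Prop) : Prop :=
  ∀ t D, I t D → ∀ v, v ≤ t → I (t + 1) (nxt D v)

/-- induction for a function which is a supermartingale up to an additive constant, on a set of
states preserved for `m` steps -/
lemma Ex_le_of_step (hf : ∀ k, 0 < f k) {Φ : ℕ → (ℕ → ℕ) → ℝ} {c : ℝ}
    {I : ℕ → ℕ → (ℕ → ℕ) → Prop}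
    (hI : ∀ i t D, I (i + 1) t D → ∀ v, v ≤ t → I i (t + 1) (nxt D v))
    (hstep : ∀ i t D, I (i + 1) t D → E1 f Φ t D ≤ Φ t D + c) :
    ∀ m t D, I m t D → Ex f m Φ t D ≤ Φ t D + m * c := by
  intro m
  induction m with
  | zero => intro t D _; simp [Ex]
  | succ m ih =>
    intro t D hID
    have h1 : Ex f (m + 1) Φ t D ≤ E1 f (fun t D => Φ t D + m * c) t D :=
      E1_mono hf fun v hv => ih _ _ (hI m t D hID v hv)
    have h2 : E1 f (fun t D => Φ t D + m * c) t D = E1 f Φ t D + m * c := by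
      rw [E1_add Φ (fun _ _ => m * c), E1_const hf]
    rw [h2] at h1
    have h3 := hstep m t D hID
    push_cast
    linarith

lemma V_nonneg (hf : ∀ k, 0 < f k) (c : ℕ → (ℕ → ℕ) → Prop) : ∀ m t D, 0 ≤ V f c m t D := by
  intro m
  induction m with
  | zero => intro t D; rw [V]; split_ifs <;> norm_num
  | succ m ih =>
    intro t D
    rw [V]
    split_ifs
    · norm_num
    · exact E1_nonneg hf fun v _ => ih _ _

lemma V_le_one (hf : ∀ k, 0 < f k) (c : ℕ → (ℕ → ℕ) → Prop) : ∀ m t D, V f c m t D ≤ 1 := by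
  intro m
  induction m with
  | zero => intro t D; rw [V]; split_ifs <;> norm_num
  | succ m ih =>
    intro t D
    rw [V]
    split_ifs
    · exact le_rfl
    · have := E1_mono hf (Φ := V f c m) (Φ' := fun _ _ => 1) (t := t) (D := D) fun v _ => ih _ _
      rwa [E1_const hf] at this

lemma V_ge_E1 (hf : ∀ k, 0 < f k) (c : ℕ → (ℕ → ℕ) → Prop) (m t : ℕ) (D : ℕ → ℕ) :
    E1 f (V f c m) t D ≤ V f c (m + 1) t D := by
  rw [V]
  split_ifs
  · have := E1_mono hf (Φ := V f c m) (Φ' := fun _ _ => 1) (t := t) (D := D)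
      fun v _ => V_le_one hf c _ _ _
    rwa [E1_const hf] at this
  · exact le_rfl

lemma V_mono_m (hf : ∀ k, 0 < f k) (c : ℕ → (ℕ → ℕ) → Prop) : ∀ m t D,
    V f c m t D ≤ V f c (m + 1) t D := by
  intro m
  induction m with
  | zero =>
    intro t D
    rw [V, V]
    split_ifs
    · exact le_rfl
    · exact E1_nonneg hf fun v _ => V_nonneg hf c _ _ _
  | succ m ih =>
    intro t D
    rw [V, V]
    split_ifs
    · exact le_rfl
    · exact E1_mono hf fun v _ => ih _ _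

lemma V_mono {m m' : ℕ} (hf : ∀ k, 0 < f k) (c : ℕ → (ℕ → ℕ) → Prop) (h : m ≤ m') (t : ℕ)
    (D : ℕ → ℕ) : V f c m t D ≤ V f c m' t D := by
  induction m', h using Nat.le_induction with
  | base => exact le_rfl
  | succ m' _ ih => exact ih.trans (V_mono_m hf c m' t D)

open Classical in
lemma V_ge_Ex (hf : ∀ k, 0 < f k) (c : ℕ → (ℕ → ℕ) → Prop) : ∀ m t D,
    Ex f m (fun t D => if c t D then 1 else 0) t D ≤ V f c m t D := by
  intro m
  induction m with
  | zero => intro t D; rw [V]; exact le_of_eq (by simp only [Ex])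
  | succ m ih =>
    intro t D
    exact (E1_mono hf fun v _ => ih _ _).trans (V_ge_E1 hf c m t D)

end Pool.Agent.Q287.LD
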