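import Pool.Agent.Q287.LD1

/-! Leaf density in fitness recursive trees: the parameters. -/

namespace Pool.Agent.Q287.LD

open Finset Function

/-- the basic sequence -/
def s : ℕ → ℕ
  | 0 => 1024
  | (j + 1) => 2 ^ (s j / 2)

lemma s_ge (j : ℕ) : 1024 ≤ s j := by
  induction j with
  | zero => exact le_rfl
  | succ j ih =>
    rw [s]
    calc 1024 = 2 ^ 10 := by norm_num
      _ ≤ 2 ^ (s j / 2) := Nat.pow_le_pow_right (by norm_num) (by omega)

lemma s_even (j : ℕ) : 2 * (s j / 2) = s j := by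
  cases j with
  | zero => rfl
  | succ j =>
    have h := s_ge j
    rw [s]
    obtain ⟨m, hm⟩ : ∃ m, s j / 2 = m + 1 := ⟨s j / 2 - 1, by omega⟩
    rw [hm, pow_succ]
    omega

lemma pow8_aux (m : ℕ) (hm : 64 ≤ m) : (2 * m) ^ 8 ≤ 2 ^ m := by
  induction m, hm using Nat.le_induction with
  | base => norm_num
  | succ m hm ih =>
    have h1 : (2 * (m + 1)) ^ 8 ≤ 2 * (2 * m) ^ 8 := by
      have h2 : (m + 1) ^ 8 ≤ 2 * m ^ 8 := by
        have h3 : 16 * (m + 1) ≤ 17 * m := by omega
        have h4 : (16 * (m + 1)) ^ 8 ≤ (17 * m) ^ 8 := Nat.pow_le_pow_left h3 8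
        rw [mul_pow, mul_pow] at h4
        have h5 : (17:ℕ) ^ 8 ≤ 2 * 16 ^ 8 := by norm_num
        have h6 : 16 ^ 8 * (m + 1) ^ 8 ≤ 16 ^ 8 * (2 * m ^ 8) := by
          calc 16 ^ 8 * (m + 1) ^ 8 ≤ 17 ^ 8 * m ^ 8 := h4
            _ ≤ 2 * 16 ^ 8 * m ^ 8 := Nat.mul_le_mul_right _ h5
            _ = 16 ^ 8 * (2 * m ^ 8) := by ring
        exact Nat.le_of_mul_le_mul_left h6 (by norm_num)
      rw [mul_pow, mul_pow]
      calc 2 ^ 8 * (m + 1) ^ 8 ≤ 2 ^ 8 * (2 * m ^ 8) := Nat.mul_le_mul_left _ h2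
        _ = 2 * (2 ^ 8 * m ^ 8) := by ring
    calc (2 * (m + 1)) ^ 8 ≤ 2 * (2 * m) ^ 8 := h1
      _ ≤ 2 * 2 ^ m := Nat.mul_le_mul_left _ ih
      _ = 2 ^ (m + 1) := by ring

/-- the next value is at least the eighth power -/
lemma s_succ_ge (j : ℕ) : (s j) ^ 8 ≤ s (j + 1) := by
  have h := pow8_aux (s j / 2) (by have := s_ge j; omega)
  rw [s_even] at h
  exact h

lemma s_ge_pow (j : ℕ) : 1024 * 16 ^ j ≤ s j := by
  induction j with
  | zero => simp [s]
  | succ j ih =>
    have h1 := s_succ_ge j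
    have h2 := s_ge j
    calc 1024 * 16 ^ (j + 1) = 16 * (1024 * 16 ^ j) := by ring
      _ ≤ 16 * s j := Nat.mul_le_mul_left _ ih
      _ ≤ s j * s j := Nat.mul_le_mul_right _ (by omega)
      _ = (s j) ^ 2 := by ring
      _ ≤ (s j) ^ 8 := Nat.pow_le_pow_right (by omega) (by norm_num)
      _ ≤ s (j + 1) := h1

/-- number of births of a stage -/
def K (j : ℕ) : ℕ := (s j) ^ 2

/-- number of births of a burst -/
def nn (j : ℕ) : ℕ := 2 ^ (s j)

lemma nn_eq (j : ℕ) : nn j = K (j + 1) := by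
  unfold nn K
  rw [s, ← pow_mul, mul_comm, s_even]

lemma K_pos (j : ℕ) : 0 < K j := by
  unfold K
  have := s_ge j
  positivity

lemma nn_pos (j : ℕ) : 0 < nn j := by unfold nn; positivity

/-- first degree of the stage `i` -/
def β : ℕ → ℕ
  | 0 => 1
  | (i + 1) => β i + K i + nn i

/-- first degree of the burst `i` -/
def α (i : ℕ) : ℕ := β i + K i

lemma β_succ (i : ℕ) : β (i + 1) = α i + nn i := rfl

lemma β_lt_α (i : ℕ) : β i < α i := by unfold α; have := K_pos i; omega

lemma α_lt_β (i : ℕ) : α i < β (i + 1) := by rw [β_succ]; have := nn_pos i; omega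

lemma β_strictMono : StrictMono β :=
  strictMono_nat_of_lt_succ fun i => (β_lt_α i).trans (α_lt_β i)

lemma β_pos (i : ℕ) : 1 ≤ β i := by
  calc 1 = β 0 := rfl
    _ ≤ β i := β_strictMono.monotone (Nat.zero_le i)

lemma le_β (i : ℕ) : i < β i := by
  induction i with
  | zero => exact Nat.one_pos
  | succ i ih =>
    have h1 : β i < β (i + 1) := β_strictMono (Nat.lt_succ_self i)
    omega

/-- the level of a degree -/
def lev (k : ℕ) : ℕ := Nat.findGreatest (fun i => β i ≤ k) k

lemma lev_eq {k i : ℕ} (h1 : β i ≤ k) (h2 : k < β (i + 1)) : lev k = i := by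
  unfold lev
  rw [Nat.findGreatest_eq_iff]
  refine ⟨?_, fun _ => h1, ?_⟩
  · have := le_β i; omega
  · intro m hm _ hβ
    have := β_strictMono.monotone (Nat.succ_le_of_lt hm)
    have h3 : β (i + 1) ≤ β m := this
    omega

lemma lev_spec {k : ℕ} (hk : 1 ≤ k) : β (lev k) ≤ k ∧ k < β (lev k + 1) := by
  constructor
  · exact Nat.findGreatest_spec (P := fun i => β i ≤ k) (Nat.zero_le k) hk
  · by_contra hcon
    push Not at hcon
    have h1 : lev k + 1 ≤ k := by have := le_β (lev k + 1); omega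
    have := Nat.findGreatest_is_greatest (P := fun i => β i ≤ k) (n := k) (k := lev k + 1)
      (Nat.lt_succ_self _) h1
    exact this hcon

/-- duration of the stage `i` -/
noncomputable def dur (i : ℕ) : ℝ := 1 + (1 / 2) ^ i

/-- rate of the stage `i` -/
noncomputable def rr (i : ℕ) : ℝ := K i / dur i

/-- rate of the burst `i` -/
noncomputable def FF (i : ℕ) : ℝ := 2 ^ (4 * s i)

/-- the attachment function -/
noncomputable def ff (k : ℕ) : ℝ :=
  if k = 0 then 1 else if k < α (lev k) then rr (lev k) else FF (lev k)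

lemma dur_ge (i : ℕ) : 1 ≤ dur i := by unfold dur; have : (0:ℝ) < (1 / 2) ^ i := by positivity
                                       linarith

lemma dur_le (i : ℕ) : dur i ≤ 2 := by
  unfold dur
  have : ((1:ℝ) / 2) ^ i ≤ 1 := pow_le_one₀ (by norm_num) (by norm_num)
  linarith

lemma dur_sub (i : ℕ) : dur i - dur (i + 1) = (1 / 2) ^ (i + 1) := by
  unfold dur
  rw [pow_succ]
  ring

lemma rr_pos (i : ℕ) : 0 < rr i := by
  unfold rr
  have h1 : (0:ℝ) < K i := by exact_mod_cast K_pos i
  have h2 := dur_ge i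
  positivity

lemma rr_le (i : ℕ) : rr i ≤ K i := by
  unfold rr
  apply div_le_self (Nat.cast_nonneg _) (dur_ge i)

lemma FF_pos (i : ℕ) : 0 < FF i := by unfold FF; positivity

lemma ff_zero : ff 0 = 1 := by simp [ff]

lemma ff_stage {k i : ℕ} (h1 : β i ≤ k) (h2 : k < α i) : ff k = rr i := by
  have h3 : lev k = i := lev_eq h1 (h2.trans (α_lt_β i))
  unfold ff
  rw [if_neg (by have := β_pos i; omega), h3, if_pos h2]

lemma ff_burst {k i : ℕ} (h1 : α i ≤ k) (h2 : k < β (i + 1)) : ff k = FF i := by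
  have h3 : lev k = i := lev_eq ((β_lt_α i).le.trans h1) h2
  unfold ff
  rw [if_neg (by have := β_pos i; have := β_lt_α i; omega), h3, if_neg (by omega)]

lemma ff_pos (k : ℕ) : 0 < ff k := by
  unfold ff
  split_ifs
  · norm_num
  · exact rr_pos _
  · exact FF_pos _

/-- the exponential weights -/
noncomputable def psi (θ : ℝ) (d : ℕ) : ℝ := ∏ k ∈ range d, (1 + θ / ff k)

lemma psi_zero (θ : ℝ) : psi θ 0 = 1 := by simp [psi]

lemma psi_succ (θ : ℝ) (d : ℕ) : psi θ (d + 1) = psi θ d * (1 + θ / ff d) := by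
  unfold psi; rw [Finset.prod_range_succ]

lemma psi_pos {θ : ℝ} (hθ : 0 ≤ θ) (d : ℕ) : 0 < psi θ d := by
  unfold psi
  apply Finset.prod_pos
  intro k _
  have := ff_pos k
  positivity

lemma psi_mono {θ : ℝ} (hθ : 0 ≤ θ) : Monotone (psi θ) := by
  apply monotone_nat_of_le_succ
  intro d
  rw [psi_succ]
  have h1 := psi_pos hθ d
  have h2 := ff_pos d
  have h3 : 0 ≤ θ / ff d := by positivity
  nlinarith

lemma psi_ge_one {θ : ℝ} (hθ : 0 ≤ θ) (d : ℕ) : 1 ≤ psi θ d := by
  have := psi_mono hθ (Nat.zero_le d)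
  rwa [psi_zero] at this

/-- passing a stage -/
lemma psi_stage {θ : ℝ} (i : ℕ) : psi θ (α i) = psi θ (β i) * (1 + θ / rr i) ^ (K i) := by
  have h : ∀ m, m ≤ K i → psi θ (β i + m) = psi θ (β i) * (1 + θ / rr i) ^ m := by
    intro m
    induction m with
    | zero => intro _; simp
    | succ m ih =>
      intro hm
      rw [← add_assoc, psi_succ, ih (by omega), ff_stage (i := i) (by omega)
        (by unfold α; omega), pow_succ]
      ring
  exact h (K i) le_rfl

/-- the reciprocal sum -/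
lemma sum_inv_le (i : ℕ) : ∑ k ∈ range (β i), 1 / ff k ≤ 1 + ∑ l ∈ range i, (dur l + 1) := by
  induction i with
  | zero =>
    have : β 0 = 1 := rfl
    rw [this]
    simp [ff_zero]
  | succ i ih =>
    have h1 : ∀ m, m ≤ K i → ∑ k ∈ range (β i + m), 1 / ff k =
        ∑ k ∈ range (β i), 1 / ff k + m / rr i := by
      intro m
      induction m with
      | zero => intro _; simp
      | succ m ihm =>
        intro hm
        rw [← add_assoc, Finset.sum_range_succ, ihm (by omega), ff_stage (i := i) (by omega)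
          (by unfold α; omega)]
        push_cast
        ring
    have h2 : ∀ m, m ≤ nn i → ∑ k ∈ range (α i + m), 1 / ff k =
        ∑ k ∈ range (α i), 1 / ff k + m / FF i := by
      intro m
      induction m with
      | zero => intro _; simp
      | succ m ihm =>
        intro hm
        rw [← add_assoc, Finset.sum_range_succ, ihm (by omega), ff_burst (i := i) (by omega)
          (by rw [β_succ]; omega)]
        push_cast
        ring
    have h3 := h2 (nn i) le_rfl
    rw [← β_succ] at h3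
    have h4 := h1 (K i) le_rfl
    have h5 : β i + K i = α i := rfl
    rw [h5] at h4
    rw [h3, h4, Finset.sum_range_succ]
    have h6 : (K i : ℝ) / rr i = dur i := by
      unfold rr
      have : (0:ℝ) < K i := by exact_mod_cast K_pos i
      have h7 : (0:ℝ) < dur i := by linarith [dur_ge i]
      field_simp
    have h7 : (nn i : ℝ) / FF i ≤ 1 := by
      rw [div_le_one (FF_pos i)]
      unfold nn FF
      push_cast
      exact pow_le_pow_right₀ (by norm_num) (by omega)
    rw [h6]
    linarith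

lemma sum_inv_le' (i : ℕ) : ∑ k ∈ range (β i), 1 / ff k ≤ 1 + 3 * i := by
  refine (sum_inv_le i).trans ?_
  have : ∑ l ∈ range i, (dur l + 1) ≤ ∑ _l ∈ range i, (3:ℝ) :=
    Finset.sum_le_sum fun l _ => by linarith [dur_le l]
  rw [Finset.sum_const, Finset.card_range, nsmul_eq_mul] at this
  linarith

end Pool.Agent.Q287.LD
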