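import Pool.Agent.Q287.LD2

/-! Leaf density in fitness recursive trees: numerical inequalities. -/

namespace Pool.Agent.Q287.LD

open Finset Function

/-- the exponent in the phase `j` -/
noncomputable def th (j : ℕ) : ℝ := (1 / 2) ^ (j + 3) * K j

lemma th_nonneg (j : ℕ) : 0 ≤ th j := by unfold th; positivity

lemma K_cast (j : ℕ) : (K j : ℝ) = (s j : ℝ) ^ 2 := by unfold K; push_cast; ring

lemma s_cast_ge (j : ℕ) : (1024 : ℝ) ≤ s j := by exact_mod_cast s_ge j

lemma s_mono : Monotone s := by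
  apply monotone_nat_of_le_succ
  intro j
  have h1 := s_succ_ge j
  have h2 := s_ge j
  calc s j = (s j) ^ 1 := by ring
    _ ≤ (s j) ^ 8 := Nat.pow_le_pow_right (by omega) (by norm_num)
    _ ≤ s (j + 1) := h1

lemma K_mono : Monotone K := fun _ _ h => Nat.pow_le_pow_left (s_mono h) 2

lemma two_pow_le_s (j : ℕ) : 2 ^ (j + 4) ≤ s j := by
  have h := s_ge_pow j
  calc 2 ^ (j + 4) = 16 * 2 ^ j := by ring
    _ ≤ 1024 * 16 ^ j := Nat.mul_le_mul (by norm_num) (Nat.pow_le_pow_left (by norm_num) j)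
    _ ≤ s j := h

/-- the exponent dominates the lower stages -/
lemma K_le_th {l j : ℕ} (h : l < j) : (K l : ℝ) ≤ th j := by
  obtain ⟨i, rfl⟩ : ∃ i, j = i + 1 := ⟨j - 1, by omega⟩
  have h1 : K l ≤ K i := K_mono (by omega)
  have h2 : K i * 2 ^ (i + 4) ≤ K (i + 1) := by
    have a1 := two_pow_le_s i
    have a2 := s_succ_ge i
    have a3 := s_ge i
    unfold K
    calc (s i) ^ 2 * 2 ^ (i + 4) ≤ (s i) ^ 2 * s i := Nat.mul_le_mul_left _ a1
      _ = (s i) ^ 3 := by ring
      _ ≤ (s i) ^ 16 := Nat.pow_le_pow_right (by omega) (by norm_num)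
      _ = ((s i) ^ 8) ^ 2 := by ring
      _ ≤ (s (i + 1)) ^ 2 := Nat.pow_le_pow_left a2 2
  have h3 : (K l : ℝ) * 2 ^ (i + 4) ≤ K (i + 1) := by
    calc (K l : ℝ) * 2 ^ (i + 4) ≤ K i * 2 ^ (i + 4) := by
          apply mul_le_mul_of_nonneg_right _ (by positivity)
          exact_mod_cast h1
      _ ≤ K (i + 1) := by exact_mod_cast h2
  unfold th
  rw [show i + 1 + 3 = i + 4 by ring, one_div, inv_pow, ← div_eq_inv_mul, le_div_iff₀ (by positivity)]
  exact h3

lemma th_ge (j : ℕ) : (K 0 : ℝ) / 8 ≤ th j := by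
  rcases Nat.eq_zero_or_pos j with h | h
  · subst h
    unfold th
    norm_num
    linarith
  · have h1 := K_le_th h
    have h2 : (0:ℝ) ≤ K 0 := Nat.cast_nonneg _
    linarith

lemma th_le (j : ℕ) : th j ≤ K j / 8 := by
  unfold th
  have h1 : ((1:ℝ) / 2) ^ (j + 3) ≤ 1 / 8 := by
    rw [pow_add]
    have : ((1:ℝ) / 2) ^ j ≤ 1 := pow_le_one₀ (by norm_num) (by norm_num)
    norm_num at *
    linarith
  have h2 : (0:ℝ) ≤ K j := Nat.cast_nonneg _
  nlinarith

lemma psi_stage_ge {j l : ℕ} (h : l < j) : (2:ℝ) ^ (K l) ≤ psi (th j) (α l) := by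
  rw [psi_stage]
  have h1 := psi_ge_one (th_nonneg j) (β l)
  have h2 : (2:ℝ) ^ (K l) ≤ (1 + th j / rr l) ^ (K l) := by
    apply pow_le_pow_left₀ (by norm_num)
    have h3 : 1 ≤ th j / rr l := by
      rw [le_div_iff₀ (rr_pos l), one_mul]
      exact (rr_le l).trans (K_le_th h)
    linarith
  have h3 : (0:ℝ) < (1 + th j / rr l) ^ (K l) := by
    have := rr_pos l; have := th_nonneg j; positivity
  nlinarith

lemma s_le_K (j : ℕ) : 4 * s j ≤ K j := by
  unfold K
  have := s_ge j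
  nlinarith

/-- the attachment function is dominated by the weights -/
lemma ff_le_psi {j k : ℕ} (hk : k < α j) : ff k ≤ 8 * psi (th j) k := by
  rcases Nat.eq_zero_or_pos k with h0 | h0
  · subst h0; rw [ff_zero, psi_zero]; norm_num
  obtain ⟨h1, h2⟩ := lev_spec h0
  set i := lev k with hi
  have hij : i ≤ j := by
    by_contra hcon
    push Not at hcon
    have h3 : β (j + 1) ≤ β i := β_strictMono.monotone hcon
    have := α_lt_β j
    omega
  rcases lt_or_ge k (α i) with h3 | h3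
  · rw [ff_stage h1 h3]
    rcases Nat.eq_zero_or_pos i with hi0 | hi0
    · rw [hi0]
      have h4 : psi (th j) 1 ≤ psi (th j) k := psi_mono (th_nonneg j) h0
      have h5 : psi (th j) 1 = 1 + th j := by
        rw [show (1:ℕ) = 0 + 1 from rfl, psi_succ, psi_zero, ff_zero]; ring
      have h6 := th_ge j
      have h7 : rr 0 ≤ K 0 := rr_le 0
      have h8 : (0:ℝ) ≤ K 0 := Nat.cast_nonneg _
      linarith
    · obtain ⟨l, hl⟩ : ∃ l, i = l + 1 := ⟨i - 1, by omega⟩
      have h4 : (2:ℝ) ^ (K l) ≤ psi (th j) (α l) := psi_stage_ge (by omega)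
      have h5 : psi (th j) (α l) ≤ psi (th j) k := by
        apply psi_mono (th_nonneg j)
        have := α_lt_β l
        rw [hl] at h1
        omega
      have h6 : rr i ≤ (2:ℝ) ^ (K l) := by
        refine (rr_le i).trans ?_
        rw [hl, ← nn_eq]
        unfold nn
        push_cast
        exact pow_le_pow_right₀ (by norm_num) (by have := s_le_K l; omega)
      have h7 := psi_pos (th_nonneg j) k
      linarith
  · rw [ff_burst h3 h2]
    have hij' : i < j := by
      rcases hij.eq_or_lt with h | h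
      · rw [h] at h3; omega
      · exact h
    have h4 : (2:ℝ) ^ (K i) ≤ psi (th j) (α i) := psi_stage_ge hij'
    have h5 : psi (th j) (α i) ≤ psi (th j) k := psi_mono (th_nonneg j) h3
    have h6 : FF i ≤ (2:ℝ) ^ (K i) := by
      unfold FF
      exact pow_le_pow_right₀ (by norm_num) (s_le_K i)
    have h7 := psi_pos (th_nonneg j) k
    linarith

/-- the weights are bounded by exponentials of the reciprocal sum -/
lemma psi_le_exp {θ : ℝ} (hθ : 0 ≤ θ) (d : ℕ) :
    psi θ d ≤ Real.exp (θ * ∑ k ∈ range d, 1 / ff k) := by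
  unfold psi
  rw [Finset.mul_sum, Real.exp_sum]
  apply Finset.prod_le_prod
  · intro k _
    have := ff_pos k
    positivity
  · intro k _
    have h9 := Real.add_one_le_exp (θ * (1 / ff k))
    have e : θ / ff k = θ * (1 / ff k) := by ring
    rw [e]
    linarith

lemma sum_inv_α (j : ℕ) : ∑ k ∈ range (α j), 1 / ff k ≤ 3 * j + 3 := by
  have h1 : ∀ m, m ≤ K j → ∑ k ∈ range (β j + m), 1 / ff k =
      ∑ k ∈ range (β j), 1 / ff k + m / rr j := by
    intro m
    induction m with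
    | zero => intro _; simp
    | succ m ihm =>
      intro hm
      rw [← add_assoc, Finset.sum_range_succ, ihm (by omega), ff_stage (i := j) (by omega)
        (by unfold α; omega)]
      push_cast
      ring
  have h2 := h1 (K j) le_rfl
  have h5 : β j + K j = α j := rfl
  rw [h5] at h2
  rw [h2]
  have h6 : (K j : ℝ) / rr j = dur j := by
    unfold rr
    have : (0:ℝ) < K j := by exact_mod_cast K_pos j
    have h7 : (0:ℝ) < dur j := by linarith [dur_ge j]
    field_simp
  rw [h6]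
  linarith [sum_inv_le' j, dur_le j]

/-- deadline: the phase `j` must be entered before `nu j` vertices -/
def nu : ℕ → ℕ
  | 0 => 1 + K 0
  | (j + 1) => 2 ^ (K j + 1)

lemma psi_α_le (j : ℕ) : psi (th j) (α j) ≤ nu (j + 1) := by
  refine (psi_le_exp (th_nonneg j) _).trans ?_
  have h1 : th j * ∑ k ∈ range (α j), 1 / ff k ≤ K j / 2 := by
    have h2 := mul_le_mul_of_nonneg_left (sum_inv_α j) (th_nonneg j)
    refine h2.trans ?_
    unfold th
    have h3 : ((3:ℝ) * j + 3) ≤ 2 ^ (j + 3) / 2 := by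
      have : ∀ j : ℕ, 2 * (3 * j + 3) ≤ 2 ^ (j + 3) := by
        intro j
        induction j with
        | zero => norm_num
        | succ j ih => rw [show j + 1 + 3 = (j + 3) + 1 by ring, pow_succ]; omega
      have h4 := this j
      have h5 : (2:ℝ) * (3 * j + 3) ≤ 2 ^ (j + 3) := by exact_mod_cast h4
      linarith
    have h4 : (0:ℝ) ≤ K j := Nat.cast_nonneg _
    rw [one_div, inv_pow]
    have h5 : (0:ℝ) < 2 ^ (j + 3) := by positivity
    calc ((2:ℝ) ^ (j + 3))⁻¹ * K j * (3 * j + 3) ≤ ((2:ℝ) ^ (j + 3))⁻¹ * K j * (2 ^ (j + 3) / 2) :=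
          mul_le_mul_of_nonneg_left h3 (by positivity)
      _ = K j / 2 := by field_simp
  calc Real.exp (th j * ∑ k ∈ range (α j), 1 / ff k) ≤ Real.exp (K j / 2) := Real.exp_le_exp.2 h1
    _ ≤ Real.exp (Real.log 2 * ((K j + 1 : ℕ) : ℝ)) := by
        apply Real.exp_le_exp.2
        have := Real.log_two_gt_d9
        have h4 : (0:ℝ) ≤ K j := Nat.cast_nonneg _
        push_cast
        nlinarith
    _ = nu (j + 1) := by
        rw [mul_comm, Real.exp_nat_mul, Real.exp_log (by norm_num)]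
        simp [nu]

lemma nu_le (j : ℕ) : nu j ≤ 2 ^ (s j) := by
  cases j with
  | zero =>
    have : nu 0 = 1 + 1024 ^ 2 := rfl
    rw [this]
    calc 1 + 1024 ^ 2 ≤ 2 ^ 21 := by norm_num
      _ ≤ 2 ^ (s 0) := Nat.pow_le_pow_right (by norm_num) (by have := s_ge 0; omega)
  | succ j =>
    rw [nu]
    apply Nat.pow_le_pow_right (by norm_num)
    have h1 := s_succ_ge j
    have h2 := s_ge j
    unfold K
    calc (s j) ^ 2 + 1 ≤ (s j) ^ 2 + (s j) ^ 2 := by nlinarith
      _ ≤ s j * (s j) ^ 2 := by nlinarith [sq_nonneg (s j)]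
      _ = (s j) ^ 3 := by ring
      _ ≤ (s j) ^ 8 := Nat.pow_le_pow_right (by omega) (by norm_num)
      _ ≤ s (j + 1) := h1

/-- lower bound for powers above one -/
lemma pow_ge_exp {y : ℝ} (hy : 0 ≤ y) (m : ℕ) :
    Real.exp (m * (y - y ^ 2 / 2)) ≤ (1 + y) ^ m := by
  rw [Real.exp_nat_mul]
  apply pow_le_pow_left₀ (Real.exp_pos _).le
  rw [← Real.le_log_iff_exp_le (by linarith)]
  have h1 := Real.le_log_one_add_of_nonneg hy
  refine le_trans ?_ h1
  rw [le_div_iff₀ (by linarith)]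
  nlinarith [pow_nonneg hy 3]

/-- lower bound for powers below one -/
lemma pow_ge_exp_neg {z : ℝ} (hz : 0 ≤ z) (hz2 : z ≤ 1 / 2) (m : ℕ) :
    Real.exp (-(m * (z + 2 * z ^ 2))) ≤ (1 - z) ^ m := by
  rw [← mul_neg, Real.exp_nat_mul]
  apply pow_le_pow_left₀ (Real.exp_pos _).le
  rw [← Real.le_log_iff_exp_le (by linarith)]
  have h1 := Real.one_sub_inv_le_log_of_pos (by linarith : (0:ℝ) < 1 - z)
  refine le_trans ?_ h1
  have h2 : 1 - (1 - z)⁻¹ = -(z / (1 - z)) := by
    have h3 : (1 - z) ≠ 0 := by linarith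
    field_simp
    ring
  rw [h2]
  apply neg_le_neg
  rw [div_le_iff₀ (by linarith)]
  nlinarith [pow_nonneg hz 3, mul_nonneg hz hz]

/-- the exponent for the root -/
noncomputable def th' (j : ℕ) : ℝ := th j + 9

/-- the factor of the root over the whole phase -/
noncomputable def Rend (j : ℕ) : ℝ :=
  (1 - th' j / FF j) ^ (nn j) * (1 - th' j / rr (j + 1)) ^ (K (j + 1))

lemma th'_le (j : ℕ) : th' j ≤ (s j : ℝ) ^ 2 := by
  unfold th'
  have h1 := th_le j
  rw [K_cast] at h1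
  have h2 := s_cast_ge j
  nlinarith

lemma th'_pos (j : ℕ) : 0 < th' j := by unfold th'; linarith [th_nonneg j]

lemma pow_s_ge (j : ℕ) : (s j : ℝ) ^ 16 ≤ 2 ^ (s j) := by
  have h1 := s_succ_ge j
  have h2 : (s j) ^ 16 ≤ 2 ^ (s j) := by
    calc (s j) ^ 16 = ((s j) ^ 8) ^ 2 := by ring
      _ ≤ (s (j + 1)) ^ 2 := Nat.pow_le_pow_left h1 2
      _ = nn j := by rw [nn_eq]; rfl
      _ = 2 ^ (s j) := rfl
  exact_mod_cast h2

lemma K_succ_cast (j : ℕ) : (K (j + 1) : ℝ) = 2 ^ (s j) := by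
  rw [← nn_eq]; unfold nn; push_cast; ring

lemma rr_succ_ge (j : ℕ) : (2:ℝ) ^ (s j) / 2 ≤ rr (j + 1) := by
  unfold rr
  rw [K_succ_cast]
  have h1 := dur_le (j + 1)
  have h2 := dur_ge (j + 1)
  apply div_le_div_of_nonneg_left (by positivity) (by linarith) h1

lemma th'_div_rr (j : ℕ) : th' j / rr (j + 1) ≤ 1 / 2 := by
  rw [div_le_iff₀ (rr_pos _)]
  have h1 := rr_succ_ge j
  have h2 := th'_le j
  have h3 := pow_s_ge j
  have h4 := s_cast_ge j
  have h5 : 4 * (s j : ℝ) ^ 2 ≤ (s j : ℝ) ^ 16 := by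
    have h6 : (4:ℝ) ≤ (s j : ℝ) ^ 14 := by
      calc (4:ℝ) ≤ s j := by linarith
        _ = (s j : ℝ) ^ 1 := by ring
        _ ≤ (s j : ℝ) ^ 14 := pow_le_pow_right₀ (by linarith) (by norm_num)
    calc 4 * (s j : ℝ) ^ 2 ≤ (s j : ℝ) ^ 14 * (s j : ℝ) ^ 2 :=
          mul_le_mul_of_nonneg_right h6 (by positivity)
      _ = _ := by ring
  linarith

lemma th'_div_FF (j : ℕ) : nn j * (th' j / FF j) ≤ 1 / 2 := by
  have h2 := th'_le j
  have h3 := pow_s_ge j
  have h4 := s_cast_ge j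
  have h5 : (s j : ℝ) ^ 2 ≤ 2 ^ (s j) := by
    refine le_trans ?_ h3
    exact pow_le_pow_right₀ (by linarith) (by norm_num)
  have h6 : (nn j : ℝ) = 2 ^ (s j) := by unfold nn; push_cast; ring
  have h7 : FF j = 2 ^ (s j) * 2 ^ (s j) * 2 ^ (s j) * 2 ^ (s j) := by
    unfold FF; rw [← pow_add, ← pow_add, ← pow_add]; congr 1; ring
  have h8 : (2:ℝ) ≤ 2 ^ (s j) := by
    refine le_trans ?_ h5
    nlinarith
  have h9 : (0:ℝ) < 2 ^ (s j) := by positivity
  rw [h6, h7, ← mul_div_assoc, div_le_iff₀ (by positivity)]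
  set x := (2:ℝ) ^ (s j)
  have h10 : x * th' j ≤ x * x := mul_le_mul_of_nonneg_left (h2.trans h5) h9.le
  have h11 : (4:ℝ) ≤ x * x := by nlinarith
  have h12 : 2 * (x * x) ≤ (x * x) * (x * x) := by nlinarith
  calc x * th' j ≤ x * x := h10
    _ ≤ 1 / 2 * (x * x * x * x) := by nlinarith

lemma th'_div_FF' (j : ℕ) : th' j / FF j ≤ 1 / 2 := by
  have h1 := th'_div_FF j
  have h2 : (1:ℝ) ≤ nn j := by exact_mod_cast nn_pos j
  have h3 : 0 ≤ th' j / FF j := div_nonneg (th'_pos j).le (FF_pos j).le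
  nlinarith

/-- the main numerical inequality -/
lemma main_ineq (j : ℕ) : ((nu j : ℝ) + nn j) * 2 ^ (j + 2) ≤
    (1 + th j / rr j) ^ (K j) * Rend j := by
  set x : ℝ := (s j : ℝ) with hx
  have hx1 := s_cast_ge j
  have hKx : (K j : ℝ) = x ^ 2 := K_cast j
  have hN : (nn j : ℝ) = 2 ^ (s j) := by unfold nn; push_cast; ring
  have hKp : (0:ℝ) < K j := by exact_mod_cast K_pos j
  set e : ℝ := (1 / 2) ^ (j + 1) with he
  have he0 : 0 < e := by positivity
  have hth : th j = e * K j / 4 := by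
    unfold th; rw [he, show j + 3 = (j + 1) + 2 by ring, pow_add]; norm_num; ring
  -- first factor
  set y := th j / rr j with hy
  have hy0 : 0 ≤ y := div_nonneg (th_nonneg j) (rr_pos j).le
  have hKy : K j * y = th j * dur j := by
    rw [hy]; unfold rr
    have := dur_ge j
    field_simp
  have h1 : Real.exp (th j * dur j - e ^ 2 * K j / 8) ≤ (1 + y) ^ (K j) := by
    refine le_trans ?_ (pow_ge_exp hy0 (K j))
    apply Real.exp_le_exp.2
    have h2 : K j * (y - y ^ 2 / 2) = th j * dur j - (th j * dur j) ^ 2 / (2 * K j) := by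
      rw [← hKy]; field_simp
    rw [h2]
    have h3 : (th j * dur j) ^ 2 / (2 * K j) ≤ e ^ 2 * K j / 8 := by
      rw [div_le_iff₀ (by positivity), hth]
      have h4 := dur_le j
      have h5 := dur_ge j
      have h6 : dur j ^ 2 ≤ 4 := by nlinarith
      have h7 : (e * K j / 4 * dur j) ^ 2 = (e ^ 2 * K j ^ 2 / 16) * dur j ^ 2 := by ring
      rw [h7]
      have h8 : (e ^ 2 * K j ^ 2 / 16) * dur j ^ 2 ≤ (e ^ 2 * K j ^ 2 / 16) * 4 :=
        mul_le_mul_of_nonneg_left h6 (by positivity)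
      calc _ ≤ (e ^ 2 * K j ^ 2 / 16) * 4 := h8
        _ = e ^ 2 * K j / 8 * (2 * K j) := by ring
    linarith
  -- second factor
  have h2 : Real.exp (-1) ≤ (1 - th' j / FF j) ^ (nn j) := by
    have h3 := one_add_mul_le_pow (a := -(th' j / FF j)) (by
      have := th'_div_FF' j; linarith) (nn j)
    have h4 := th'_div_FF j
    have h5 : Real.exp (-1) ≤ 1 / 2 := by
      rw [Real.exp_neg, one_div]
      apply inv_anti₀ (by norm_num)
      have := Real.add_one_le_exp (1:ℝ)
      linarith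
    have h6 : (1 + -(th' j / FF j)) = (1 - th' j / FF j) := by ring
    rw [h6] at h3
    linarith
  -- third factor
  have h3 : Real.exp (-(th' j * dur (j + 1) + 1)) ≤
      (1 - th' j / rr (j + 1)) ^ (K (j + 1)) := by
    refine le_trans ?_ (pow_ge_exp_neg (div_nonneg (th'_pos j).le (rr_pos _).le) (th'_div_rr j) _)
    apply Real.exp_le_exp.2
    apply neg_le_neg
    set z := th' j / rr (j + 1) with hz
    have hKz : (K (j + 1) : ℝ) * z = th' j * dur (j + 1) := by
      rw [hz]; unfold rr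
      have := dur_ge (j + 1)
      have h4 : (0:ℝ) < K (j + 1) := by exact_mod_cast K_pos (j + 1)
      field_simp
    have h4 : (K (j + 1) : ℝ) * (z + 2 * z ^ 2) = th' j * dur (j + 1) +
        2 * (th' j * dur (j + 1)) ^ 2 / K (j + 1) := by
      rw [← hKz]
      have h4 : (0:ℝ) < K (j + 1) := by exact_mod_cast K_pos (j + 1)
      field_simp
    rw [h4]
    have h5 : 2 * (th' j * dur (j + 1)) ^ 2 / K (j + 1) ≤ 1 := by
      rw [K_succ_cast, div_le_one (by positivity)]
      have h6 := th'_le j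
      have h7 := dur_le (j + 1)
      have h8 := dur_ge (j + 1)
      have h9 := pow_s_ge j
      have h10 : th' j * dur (j + 1) ≤ x ^ 2 * 2 :=
        mul_le_mul h6 h7 (by linarith) (by positivity)
      have h11 : (th' j * dur (j + 1)) ^ 2 ≤ (x ^ 2 * 2) ^ 2 :=
        pow_le_pow_left₀ (mul_nonneg (th'_pos j).le (by linarith)) h10 2
      have h12 : 8 * x ^ 4 ≤ x ^ 16 := by
        have h13 : (8:ℝ) ≤ x ^ 12 := by
          calc (8:ℝ) ≤ x := by linarith
            _ = x ^ 1 := by ring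
            _ ≤ x ^ 12 := pow_le_pow_right₀ (by linarith) (by norm_num)
        calc 8 * x ^ 4 ≤ x ^ 12 * x ^ 4 := mul_le_mul_of_nonneg_right h13 (by positivity)
          _ = _ := by ring
      nlinarith
    linarith
  -- combine
  have h4 : Real.exp (e ^ 2 * K j / 8 - 20) ≤ (1 + y) ^ (K j) * Rend j := by
    unfold Rend
    have h5 : Real.exp (th j * dur j - e ^ 2 * K j / 8) * (Real.exp (-1) *
        Real.exp (-(th' j * dur (j + 1) + 1))) ≤ (1 + y) ^ (K j) *
        ((1 - th' j / FF j) ^ (nn j) * (1 - th' j / rr (j + 1)) ^ (K (j + 1))) := by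
      apply mul_le_mul h1 _ (by positivity) (by positivity)
      apply mul_le_mul h2 h3 (by positivity)
      exact (Real.exp_pos _).le.trans h2
    refine le_trans ?_ h5
    rw [← Real.exp_add, ← Real.exp_add]
    apply Real.exp_le_exp.2
    have h6 := dur_sub j
    rw [← he] at h6
    have h7 : dur (j + 1) ≤ 2 := dur_le (j + 1)
    unfold th'
    have h8 : th j * dur j - th j * dur (j + 1) = e ^ 2 * K j / 4 := by
      rw [← mul_sub, h6, hth]; ring
    nlinarith
  refine le_trans ?_ h4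
  -- the left-hand side
  have h5 : ((nu j : ℝ) + nn j) * 2 ^ (j + 2) ≤ Real.exp (x + j + 3) := by
    have h6 : (nu j : ℝ) ≤ 2 ^ (s j) := by exact_mod_cast nu_le j
    have h7 : ((nu j : ℝ) + nn j) * 2 ^ (j + 2) ≤ (2:ℝ) ^ (s j + 1 + (j + 2)) := by
      have h0 : (2:ℝ) ^ (s j + 1) = 2 * 2 ^ (s j) := by rw [pow_succ]; ring
      rw [hN, pow_add 2 (s j + 1), h0]
      apply mul_le_mul_of_nonneg_right _ (by positivity)
      linarith
    refine h7.trans ?_
    have h8 : (2:ℝ) ^ (s j + 1 + (j + 2)) ≤ Real.exp 1 ^ (s j + 1 + (j + 2)) := by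
      apply pow_le_pow_left₀ (by norm_num)
      have := Real.add_one_le_exp (1:ℝ)
      linarith
    refine h8.trans ?_
    rw [← Real.exp_nat_mul]
    apply Real.exp_le_exp.2
    push_cast
    rw [← hx]
    linarith
  refine h5.trans (Real.exp_le_exp.2 ?_)
  -- x + j + 3 ≤ e^2 x^2 / 8 - 20
  have h6 : (1024:ℝ) * 16 ^ j ≤ x := by rw [hx]; exact_mod_cast s_ge_pow j
  have h7 : e ^ 2 = 1 / (4 * 4 ^ j) := by
    rw [he, ← pow_mul, mul_comm, pow_mul, show ((1:ℝ) / 2) ^ 2 = 1 / 4 by norm_num, one_div_pow,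
      pow_succ]
    ring
  rw [hKx, h7]
  have h8 : (16:ℝ) ^ j = 4 ^ j * 4 ^ j := by rw [← mul_pow]; norm_num
  have h9 : (1:ℝ) ≤ 4 ^ j := one_le_pow₀ (by norm_num)
  have h10 : (j:ℝ) ≤ 4 ^ j := by
    have : j < 4 ^ j := Nat.lt_pow_self (by norm_num)
    exact_mod_cast this.le
  set w := (4:ℝ) ^ j
  rw [h8] at h6
  have h11 : 32 * x ≤ 1 / (4 * w) * x ^ 2 / 8 := by
    rw [show 1 / (4 * w) * x ^ 2 / 8 = x ^ 2 / (32 * w) by field_simp; ring,
      le_div_iff₀ (by positivity)]
    have h12 : 1024 * w ≤ x := by nlinarith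
    nlinarith
  have h12 : w ≤ x := by nlinarith
  linarith

lemma Rend_pos (j : ℕ) : 0 < Rend j := by
  unfold Rend
  have h1 := th'_div_FF' j
  have h2 := th'_div_rr j
  apply mul_pos
  · exact pow_pos (by linarith) _
  · exact pow_pos (by linarith) _

end Pool.Agent.Q287.LD
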