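import Pool.Agent.Q287.LD3

/-! Leaf density in fitness recursive trees: the potential before the window. -/

namespace Pool.Agent.Q287.LD

open Finset Function

/-- sum of the weights of the vertices `1, …, t` -/
noncomputable def Aw (θ : ℝ) (t : ℕ) (D : ℕ → ℕ) : ℝ := ∑ i ∈ range t, psi θ (D (i + 1))

/-- factor of the root -/
noncomputable def Rw (θ : ℝ) (a d : ℕ) : ℝ := ∏ k ∈ Ico a d, (1 - θ / ff k)

/-- the potential of the phase `j` -/
noncomputable def Ps (j : ℕ) (t : ℕ) (D : ℕ → ℕ) : ℝ :=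
  (Aw (th j) t D + ((β (j + 1) - D 0 : ℕ) : ℝ)) * Rw (th' j) (α j) (D 0)

/-- threshold -/
noncomputable def Th (j : ℕ) : ℝ := psi (th j) (α j) * Rend j

lemma Th_pos (j : ℕ) : 0 < Th j := mul_pos (psi_pos (th_nonneg j) _) (Rend_pos j)

lemma nxt_self (D : ℕ → ℕ) (v : ℕ) : nxt D v v = D v + 1 := by simp [nxt]

lemma nxt_ne (D : ℕ → ℕ) {v u : ℕ} (h : u ≠ v) : nxt D v u = D u := by simp [nxt, h]

lemma Aw_ge {θ : ℝ} (hθ : 0 ≤ θ) (t : ℕ) (D : ℕ → ℕ) : (t : ℝ) ≤ Aw θ t D := by
  unfold Aw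
  calc (t : ℝ) = ∑ _i ∈ range t, (1:ℝ) := by simp
    _ ≤ _ := Finset.sum_le_sum fun i _ => psi_ge_one hθ _

lemma Aw_nonneg {θ : ℝ} (hθ : 0 ≤ θ) (t : ℕ) (D : ℕ → ℕ) : 0 ≤ Aw θ t D :=
  le_trans (Nat.cast_nonneg _) (Aw_ge hθ t D)

lemma Aw_root {θ : ℝ} {t : ℕ} {D : ℕ → ℕ} (h : D (t + 1) = 0) :
    Aw θ (t + 1) (nxt D 0) = Aw θ t D + 1 := by
  unfold Aw
  rw [Finset.sum_range_succ]
  have e1 : psi θ (nxt D 0 (t + 1)) = 1 := by rw [nxt_ne D (by omega), h, psi_zero]
  have e2 : ∀ i ∈ range t, psi θ (nxt D 0 (i + 1)) = psi θ (D (i + 1)) := fun i _ => by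
    rw [nxt_ne D (by omega)]
  rw [e1, Finset.sum_congr rfl e2]

lemma Aw_other {θ : ℝ} {t i : ℕ} {D : ℕ → ℕ} (h : D (t + 1) = 0) (hi : i < t) :
    Aw θ (t + 1) (nxt D (i + 1)) = Aw θ t D + psi θ (D (i + 1)) * (θ / ff (D (i + 1))) + 1 := by
  unfold Aw
  rw [Finset.sum_range_succ]
  have e1 : psi θ (nxt D (i + 1) (t + 1)) = 1 := by
    rw [nxt_ne D (by omega), h, psi_zero]
  rw [e1]
  congr 1
  have e2 : ∀ u ∈ range t, psi θ (nxt D (i + 1) (u + 1)) = psi θ (D (u + 1)) +
      if u = i then psi θ (D (i + 1)) * (θ / ff (D (i + 1))) else 0 := by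
    intro u _
    by_cases hu : u = i
    · subst hu
      rw [nxt_self, psi_succ, if_pos rfl]
      ring
    · rw [nxt_ne D (by omega), if_neg hu, add_zero]
  rw [Finset.sum_congr rfl e2, Finset.sum_add_distrib, Finset.sum_ite_eq' (range t) i,
    if_pos (Finset.mem_range.2 hi)]

lemma Rw_succ {θ : ℝ} {a d : ℕ} (h : a ≤ d) : Rw θ a (d + 1) = Rw θ a d * (1 - θ / ff d) := by
  unfold Rw
  rw [Finset.prod_Ico_succ_top h]

lemma Rw_full (j : ℕ) : Rw (th' j) (α j) (α (j + 1)) = Rend j := by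
  unfold Rw Rend
  rw [← Finset.prod_Ico_consecutive _ (α_lt_β j).le (β_lt_α (j + 1)).le]
  congr 1
  · have : ∀ k ∈ Ico (α j) (β (j + 1)), (1 - th' j / ff k) = 1 - th' j / FF j := by
      intro k hk
      rw [Finset.mem_Ico] at hk
      rw [ff_burst hk.1 hk.2]
    rw [Finset.prod_congr rfl this, Finset.prod_const, Nat.card_Ico, β_succ]
    congr 1
    omega
  · have : ∀ k ∈ Ico (β (j + 1)) (α (j + 1)), (1 - th' j / ff k) = 1 - th' j / rr (j + 1) := by
      intro k hk
      rw [Finset.mem_Ico] at hk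
      rw [ff_stage hk.1 hk.2]
    rw [Finset.prod_congr rfl this, Finset.prod_const, Nat.card_Ico]
    congr 1
    unfold α
    omega

lemma factor_bounds {j k : ℕ} (h1 : α j ≤ k) (h2 : k < α (j + 1)) :
    0 < 1 - th' j / ff k ∧ 1 - th' j / ff k ≤ 1 := by
  have h3 : th' j / ff k ≤ 1 / 2 := by
    rcases lt_or_ge k (β (j + 1)) with h | h
    · rw [ff_burst h1 h]; exact th'_div_FF' j
    · rw [ff_stage h h2]; exact th'_div_rr j
  have h4 : 0 ≤ th' j / ff k := div_nonneg (th'_pos j).le (ff_pos k).le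
  constructor <;> linarith

lemma Rw_pos {j d : ℕ} (h2 : d ≤ α (j + 1)) : 0 < Rw (th' j) (α j) d := by
  unfold Rw
  apply Finset.prod_pos
  intro k hk
  rw [Finset.mem_Ico] at hk
  exact (factor_bounds hk.1 (by omega)).1

lemma Rw_ge {j d : ℕ} (h1 : α j ≤ d) (h2 : d ≤ α (j + 1)) : Rend j ≤ Rw (th' j) (α j) d := by
  rw [← Rw_full]
  have h3 : Rw (th' j) (α j) (α (j + 1)) = Rw (th' j) (α j) d *
      ∏ k ∈ Ico d (α (j + 1)), (1 - th' j / ff k) := by
    unfold Rw
    rw [Finset.prod_Ico_consecutive _ h1 h2]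
  rw [h3]
  have h4 : ∏ k ∈ Ico d (α (j + 1)), (1 - th' j / ff k) ≤ 1 := by
    apply Finset.prod_le_one
    · intro k hk
      rw [Finset.mem_Ico] at hk
      exact (factor_bounds (by omega) hk.2).1.le
    · intro k hk
      rw [Finset.mem_Ico] at hk
      exact (factor_bounds (by omega) hk.2).2
  have h5 := Rw_pos h2
  nlinarith

/-- good states of the phase `j` -/
structure Good (j t : ℕ) (D : ℕ → ℕ) : Prop where
  h1 : α j ≤ D 0
  h2 : D 0 < α (j + 1)
  h3 : D 0 ≤ t
  h4 : ∀ v, 1 ≤ v → v ≤ t → D v < α j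
  h5 : ∀ v, t < v → D v = 0
  h6 : t < nu (j + 1)

lemma Ps_nonneg {j t : ℕ} {D : ℕ → ℕ} (h2 : D 0 ≤ α (j + 1)) : 0 ≤ Ps j t D := by
  unfold Ps
  exact mul_nonneg (add_nonneg (Aw_nonneg (th_nonneg j) _ _) (Nat.cast_nonneg _)) (Rw_pos h2).le

lemma nn_cast (j : ℕ) : (nn j : ℝ) = K (j + 1) := by rw [nn_eq]

/-- the potential is a supermartingale on good states -/
lemma Ps_step {j t : ℕ} {D : ℕ → ℕ} (h : Good j t D) : E1 ff (Ps j) t D ≤ Ps j t D := by
  have hz := Zf_pos ff_pos t D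
  have hD : D (t + 1) = 0 := h.h5 _ (Nat.lt_succ_self t)
  unfold E1
  have e0 : ∀ v ∈ range (t + 1), ff (D v) / Zf ff t D * Ps j (t + 1) (nxt D v) =
      (ff (D v) * Ps j (t + 1) (nxt D v)) / Zf ff t D := fun v _ => by ring
  rw [Finset.sum_congr rfl e0, ← Finset.sum_div, div_le_iff₀ hz, Finset.sum_range_succ']
  set A := Aw (th j) t D with hA
  set R := Rw (th' j) (α j) (D 0) with hR
  have hR0 : 0 < R := Rw_pos h.h2.le
  have hAt : (t:ℝ) ≤ A := Aw_ge (th_nonneg j) t D
  set F := ff (D 0) with hF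
  have hF0 : 0 < F := ff_pos _
  set B : ℝ := ((β (j + 1) - D 0 : ℕ) : ℝ) with hB
  have e1 : ∀ i ∈ range t, ff (D (i + 1)) * Ps j (t + 1) (nxt D (i + 1)) =
      ff (D (i + 1)) * ((A + B + 1) * R) + psi (th j) (D (i + 1)) * (th j * R) := by
    intro i hi
    rw [Finset.mem_range] at hi
    unfold Ps
    rw [Aw_other hD hi, nxt_ne D (by omega : (0:ℕ) ≠ i + 1)]
    have := ff_pos (D (i + 1))
    rw [← hA, ← hR, ← hB]
    field_simp
    ring
  rw [Finset.sum_congr rfl e1, Finset.sum_add_distrib, ← Finset.sum_mul, ← Finset.sum_mul]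
  have e2 : ∑ i ∈ range t, psi (th j) (D (i + 1)) = A := rfl
  rw [e2]
  set G := ∑ i ∈ range t, ff (D (i + 1)) with hG
  have hZ : Zf ff t D = G + F := by
    unfold Zf; rw [Finset.sum_range_succ']
  have hG0 : 0 ≤ G := Finset.sum_nonneg fun i _ => (ff_pos _).le
  have hGA : G ≤ 8 * A := by
    rw [hG, hA]
    unfold Aw
    rw [Finset.mul_sum]
    apply Finset.sum_le_sum
    intro i hi
    rw [Finset.mem_range] at hi
    exact ff_le_psi (h.h4 _ (by omega) (by omega))
  have e3 : Ps j (t + 1) (nxt D 0) = (A + 1 + ((β (j + 1) - (D 0 + 1) : ℕ) : ℝ)) *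
      (R * (1 - th' j / F)) := by
    unfold Ps
    rw [Aw_root hD, nxt_self, Rw_succ h.h1]
  rw [e3, hZ]
  have e4 : Ps j t D = (A + B) * R := rfl
  rw [e4]
  have hθ : th' j = th j + 9 := rfl
  have hFθ : F * (R * (1 - th' j / F)) = R * (F - th' j) := by field_simp
  set B' : ℝ := ((β (j + 1) - (D 0 + 1) : ℕ) : ℝ) with hB'
  have hB'0 : 0 ≤ B' := Nat.cast_nonneg _
  have hB0 : 0 ≤ B := Nat.cast_nonneg _
  have hθ0 := th_nonneg j
  have key : G * (A + B + 1) + A * th j + (A + 1 + B') * (F - th' j) ≤ (A + B) * (G + F) := by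
    rcases lt_or_ge (D 0) (β (j + 1)) with hc | hc
    · have hBB : B = B' + 1 := by
        rw [hB, hB']
        have : β (j + 1) - D 0 = (β (j + 1) - (D 0 + 1)) + 1 := by omega
        rw [this]; push_cast; ring
      rw [hBB, hθ]
      nlinarith
    · have hBz : B = 0 := by rw [hB, Nat.sub_eq_zero_of_le hc]; simp
      have hB'z : B' = 0 := by rw [hB', Nat.sub_eq_zero_of_le (by omega)]; simp
      have hFle : F ≤ A := by
        rw [hF, ff_stage hc h.h2]
        refine (rr_le _).trans ?_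
        rw [← nn_cast]
        have h7 : nn j ≤ t := by
          have := h.h3
          rw [β_succ] at hc
          omega
        refine le_trans ?_ hAt
        exact_mod_cast h7
      rw [hBz, hB'z, hθ]
      nlinarith
  calc G * ((A + B + 1) * R) + A * (th j * R) + F * ((A + 1 + B') * (R * (1 - th' j / F)))
      = R * (G * (A + B + 1) + A * th j + (A + 1 + B') * (F - th' j)) := by
        have : F * ((A + 1 + B') * (R * (1 - th' j / F))) =
          (A + 1 + B') * (F * (R * (1 - th' j / F))) := by ring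
        rw [this, hFθ]; ring
    _ ≤ R * ((A + B) * (G + F)) := mul_le_mul_of_nonneg_left key hR0.le
    _ = (A + B) * R * (G + F) := by ring

/-- violating states have a large potential -/
lemma Ps_viol {j t : ℕ} {D : ℕ → ℕ} (h1 : α j ≤ D 0) (h2 : D 0 ≤ α (j + 1))
    (h : (∃ v, 1 ≤ v ∧ v ≤ t ∧ α j ≤ D v) ∨ nu (j + 1) ≤ t) : Th j ≤ Ps j t D := by
  unfold Th Ps
  have hA : psi (th j) (α j) ≤ Aw (th j) t D := by
    rcases h with ⟨v, hv1, hv2, hv3⟩ | h
    · obtain ⟨i, rfl⟩ : ∃ i, v = i + 1 := ⟨v - 1, by omega⟩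
      refine (psi_mono (th_nonneg j) hv3).trans ?_
      unfold Aw
      exact Finset.single_le_sum (f := fun i => psi (th j) (D (i + 1)))
        (fun i _ => (psi_pos (th_nonneg j) _).le) (Finset.mem_range.2 (by omega))
    · refine (psi_α_le j).trans ?_
      refine le_trans ?_ (Aw_ge (th_nonneg j) t D)
      exact_mod_cast h
  apply mul_le_mul _ (Rw_ge h1 h2) (Rend_pos j).le
  · exact add_nonneg (Aw_nonneg (th_nonneg j) _ _) (Nat.cast_nonneg _)
  · have : (0:ℝ) ≤ ((β (j + 1) - D 0 : ℕ) : ℝ) := Nat.cast_nonneg _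
    linarith

/-- entering states have a small potential -/
lemma Ps_entry {j t : ℕ} {D : ℕ → ℕ} (h1 : D 0 = α j) (h2 : t ≤ nu j)
    (h : ∀ v, 1 ≤ v → v ≤ t → D v ≤ β j) : Ps j t D / Th j ≤ (1 / 2) ^ (j + 2) := by
  rw [div_le_iff₀ (Th_pos j)]
  unfold Ps Th
  rw [h1]
  have e1 : Rw (th' j) (α j) (α j) = 1 := by simp [Rw]
  have e2 : β (j + 1) - α j = nn j := by rw [β_succ]; omega
  rw [e1, e2, mul_one, psi_stage]
  have hβ := psi_ge_one (th_nonneg j) (β j)
  have hA : Aw (th j) t D ≤ nu j * psi (th j) (β j) := by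
    unfold Aw
    calc ∑ i ∈ range t, psi (th j) (D (i + 1)) ≤ ∑ _i ∈ range t, psi (th j) (β j) := by
          apply Finset.sum_le_sum
          intro i hi
          rw [Finset.mem_range] at hi
          exact psi_mono (th_nonneg j) (h _ (by omega) (by omega))
      _ = t * psi (th j) (β j) := by simp
      _ ≤ nu j * psi (th j) (β j) := by
          apply mul_le_mul_of_nonneg_right _ (by linarith)
          exact_mod_cast h2
  have hN : (nn j : ℝ) ≤ nn j * psi (th j) (β j) := by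
    have : (0:ℝ) ≤ nn j := Nat.cast_nonneg _
    nlinarith
  have hm := main_ineq j
  have e3 : ((1:ℝ) / 2) ^ (j + 2) * 2 ^ (j + 2) = 1 := by
    rw [← mul_pow]; norm_num
  have h0 : (0:ℝ) < (1 / 2) ^ (j + 2) := by positivity
  have hm2 : (nu j : ℝ) + nn j ≤ (1 / 2) ^ (j + 2) * ((1 + th j / rr j) ^ (K j) * Rend j) := by
    calc (nu j : ℝ) + nn j = (1 / 2) ^ (j + 2) * (((nu j : ℝ) + nn j) * 2 ^ (j + 2)) := by
          rw [mul_comm ((nu j : ℝ) + nn j), ← mul_assoc, e3, one_mul]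
      _ ≤ _ := mul_le_mul_of_nonneg_left hm h0.le
  calc Aw (th j) t D + nn j ≤ ((nu j : ℝ) + nn j) * psi (th j) (β j) := by linarith
    _ ≤ (1 / 2) ^ (j + 2) * ((1 + th j / rr j) ^ (K j) * Rend j) * psi (th j) (β j) :=
        mul_le_mul_of_nonneg_right hm2 (by linarith)
    _ = _ := by ring

/-- states at which the window of the phase `J + 1` begins -/
structure Entry (J t : ℕ) (D : ℕ → ℕ) : Prop where
  h1 : D 0 = α (J + 1)
  h3 : D 0 ≤ t
  h4 : ∀ v, 1 ≤ v → v ≤ t → D v < α J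
  h5 : ∀ v, t < v → D v = 0
  h6 : t < nu (J + 1)

lemma nu_succ_mono {i j : ℕ} (h : i ≤ j) : nu (i + 1) ≤ nu (j + 1) := by
  rw [nu, nu]
  exact Nat.pow_le_pow_right (by norm_num) (by have := K_mono h; omega)

/-- the window is reached with the probability given by the potential -/
theorem V_ge {J M H : ℕ} {c : ℕ → (ℕ → ℕ) → Prop} {p : ℝ} (hp : 0 ≤ p)
    (hwin : ∀ m t D, M ≤ m → Entry J t D → p ≤ V ff c m t D) (hH : nu (J + 1) + M ≤ H) :
    ∀ m t D j, t + m = H → j ≤ J → Good j t D →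
      p * (1 - Ps j t D / Th j - (1 / 2) ^ (j + 2)) ≤ V ff c m t D := by
  intro m
  induction m with
  | zero =>
    intro t D j ht hj hg
    exfalso
    have h1 := nu_succ_mono hj
    have h2 := hg.h6
    omega
  | succ m ih =>
    intro t D j ht hj hg
    have h0 : (0:ℝ) < (1 / 2) ^ (j + 2) := by positivity
    have hstep : E1 ff (fun t D => p * (1 - Ps j t D / Th j - (1 / 2) ^ (j + 2))) t D ≤
        E1 ff (V ff c m) t D := by
      apply E1_mono ff_pos
      intro v hv
      set D' := nxt D v with hD'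
      have hD0 : D' 0 = D 0 ∨ D' 0 = D 0 + 1 := by
        by_cases h : v = 0
        · right; rw [hD', h, nxt_self]
        · left; rw [hD', nxt_ne D (Ne.symm h)]
      have hg1 := hg.h1
      have hg2 := hg.h2
      have hg3 := hg.h3
      have hg6 := hg.h6
      have a1 : α j ≤ D' 0 := by omega
      have a2 : D' 0 ≤ α (j + 1) := by omega
      have a3 : D' 0 ≤ t + 1 := by omega
      have a5 : ∀ u, t + 1 < u → D' u = 0 := by
        intro u hu
        rw [hD', nxt_ne D (by omega)]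
        exact hg.h5 u (by omega)
      have hPn : 0 ≤ Ps j (t + 1) D' / Th j := div_nonneg (Ps_nonneg a2) (Th_pos j).le
      by_cases hviol : (∃ u, 1 ≤ u ∧ u ≤ t + 1 ∧ α j ≤ D' u) ∨ nu (j + 1) ≤ t + 1
      · have h1 := Ps_viol a1 a2 hviol
        have h2 : 1 ≤ Ps j (t + 1) D' / Th j := by
          rw [le_div_iff₀ (Th_pos j), one_mul]; exact h1
        refine le_trans ?_ (V_nonneg ff_pos c m (t + 1) D')
        apply mul_nonpos_of_nonneg_of_nonpos hp
        linarith
      · push Not at hviol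
        obtain ⟨b1, b2⟩ := hviol
        rcases a2.lt_or_eq with hlt | heq
        · exact ih (t + 1) D' j (by omega) hj
            ⟨a1, hlt, a3, fun u hu1 hu2 => b1 u hu1 hu2, a5, b2⟩
        · rcases hj.lt_or_eq with hjJ | hjJ
          · have hg' : Good (j + 1) (t + 1) D' := by
              refine ⟨heq.ge, ?_, a3, ?_, a5, ?_⟩
              · rw [heq]
                exact (α_lt_β (j + 1)).trans (β_lt_α (j + 2))
              · intro u hu1 hu2
                have := b1 u hu1 hu2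
                have := α_lt_β j
                have := β_lt_α (j + 1)
                omega
              · exact b2.trans_le (nu_succ_mono (Nat.le_succ j))
            have h1 := ih (t + 1) D' (j + 1) (by omega) (by omega) hg'
            have h2 : Ps (j + 1) (t + 1) D' / Th (j + 1) ≤ (1 / 2) ^ (j + 1 + 2) := by
              apply Ps_entry heq b2.le
              intro u hu1 hu2
              have := b1 u hu1 hu2
              have := α_lt_β j
              omega
            refine le_trans ?_ h1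
            apply mul_le_mul_of_nonneg_left _ hp
            have h3 : ((1:ℝ) / 2) ^ (j + 1 + 2) = (1 / 2) ^ (j + 2) / 2 := by
              rw [show j + 1 + 2 = (j + 2) + 1 by ring, pow_succ]; ring
            rw [h3] at h2 ⊢
            linarith
          · subst hjJ
            have he : Entry j (t + 1) D' := ⟨heq, a3, fun u hu1 hu2 => b1 u hu1 hu2, a5, b2⟩
            refine le_trans ?_ (hwin m (t + 1) D' (by omega) he)
            nlinarith
    refine le_trans ?_ (hstep.trans (V_ge_E1 ff_pos c m t D))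
    have e1 : E1 ff (fun t D => p * (1 - Ps j t D / Th j - (1 / 2) ^ (j + 2))) t D =
        p * (1 - (1 / 2) ^ (j + 2)) + (-(p / Th j)) * E1 ff (Ps j) t D := by
      have e2 : (fun (t : ℕ) (D : ℕ → ℕ) => p * (1 - Ps j t D / Th j - (1 / 2) ^ (j + 2))) =
          fun t D => (fun _ _ => p * (1 - (1 / 2) ^ (j + 2))) t D +
            (fun t D => (-(p / Th j)) * Ps j t D) t D := by
        funext t D
        ring
      rw [e2, E1_add, E1_const ff_pos, E1_mul]
    rw [e1]
    have h2 := Ps_step hg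
    have h3 : 0 ≤ p / Th j := div_nonneg hp (Th_pos j).le
    have h4 : p / Th j * E1 ff (Ps j) t D ≤ p / Th j * Ps j t D :=
      mul_le_mul_of_nonneg_left h2 h3
    have h5 : p * (1 - Ps j t D / Th j - (1 / 2) ^ (j + 2)) =
        p * (1 - (1 / 2) ^ (j + 2)) - p / Th j * Ps j t D := by ring
    rw [h5]
    linarith

/-- the starting degrees -/
def D0 : ℕ → ℕ := fun v => if v = 0 then α 0 else 0

lemma α_zero : α 0 = nu 0 := rfl

theorem V_start {J M H m : ℕ} {c : ℕ → (ℕ → ℕ) → Prop} {p : ℝ} (hp : 0 ≤ p)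
    (hwin : ∀ m t D, M ≤ m → Entry J t D → p ≤ V ff c m t D) (hH : nu (J + 1) + M ≤ H)
    (hm : α 0 + m = H) : p / 2 ≤ V ff c m (α 0) D0 := by
  have hg : Good 0 (α 0) D0 := by
    refine ⟨le_of_eq (by simp [D0]), ?_, le_of_eq (by simp [D0]), ?_, ?_, ?_⟩
    · have : D0 0 = α 0 := by simp [D0]
      rw [this]
      exact (α_lt_β 0).trans (β_lt_α 1)
    · intro v hv _
      have : D0 v = 0 := by unfold D0; rw [if_neg (by omega)]
      rw [this]
      have := β_lt_α 0
      omega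
    · intro v hv
      unfold D0
      rw [if_neg (by omega)]
    · have h1 : α 0 = 1 + K 0 := rfl
      have h2 : nu (0 + 1) = 2 ^ (K 0 + 1) := rfl
      rw [h1, h2, add_comm]
      exact Nat.lt_two_pow_self
  have h1 := V_ge hp hwin hH m (α 0) D0 0 hm (Nat.zero_le _) hg
  have h2 : Ps 0 (α 0) D0 / Th 0 ≤ (1 / 2) ^ (0 + 2) := by
    apply Ps_entry (by simp [D0]) (le_of_eq α_zero)
    intro v hv _
    unfold D0
    rw [if_neg (by omega)]
    exact Nat.zero_le _
  norm_num at h1 h2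
  nlinarith

end Pool.Agent.Q287.LD
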