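import Pool.Agent.Q287.LD4

/-! Leaf density in fitness recursive trees: tools for the window. -/

namespace Pool.Agent.Q287.LD

open Finset Function

variable {f : ℕ → ℝ}

lemma E1_sum {ι : Type*} (A : Finset ι) (g : ι → ℕ → (ℕ → ℕ) → ℝ) (t : ℕ) (D : ℕ → ℕ) :
    E1 f (fun t D => ∑ i ∈ A, g i t D) t D = ∑ i ∈ A, E1 f (g i) t D := by
  unfold E1
  simp_rw [Finset.mul_sum]
  rw [Finset.sum_comm]

lemma E1_congr {Φ Φ' : ℕ → (ℕ → ℕ) → ℝ} {t : ℕ} {D : ℕ → ℕ}
    (h : ∀ v, v ≤ t → Φ (t + 1) (nxt D v) = Φ' (t + 1) (nxt D v)) : E1 f Φ t D = E1 f Φ' t D := by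
  unfold E1
  apply Finset.sum_congr rfl
  intro v hv
  rw [h v (by rw [Finset.mem_range] at hv; omega)]

/-- the pair martingale -/
lemma pair_mart {θ : ℝ} {a t v : ℕ} {D : ℕ → ℕ} (hv : 1 ≤ v) (hvt : v ≤ t) (ha : a ≤ D 0) :
    E1 ff (fun _ D => psi θ (D v) * Rw θ a (D 0)) t D = psi θ (D v) * Rw θ a (D 0) := by
  have hz := Zf_pos ff_pos t D
  have hz' := hz.ne'
  unfold E1
  have e : ∀ u ∈ range (t + 1), ff (D u) / Zf ff t D *
      (psi θ (nxt D u v) * Rw θ a (nxt D u 0)) =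
      ff (D u) / Zf ff t D * (psi θ (D v) * Rw θ a (D 0)) +
      (if u = v then θ * psi θ (D v) * Rw θ a (D 0) / Zf ff t D else 0) -
      (if u = 0 then θ * psi θ (D v) * Rw θ a (D 0) / Zf ff t D else 0) := by
    intro u _
    by_cases h1 : u = v
    · subst h1
      have := (ff_pos (D u)).ne'
      rw [nxt_self, nxt_ne D (by omega : 0 ≠ u), psi_succ, if_pos rfl, if_neg (by omega)]
      field_simp
      ring
    · by_cases h2 : u = 0
      · subst h2
        have := (ff_pos (D 0)).ne'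
        rw [nxt_ne D (by omega : v ≠ 0), nxt_self, Rw_succ ha, if_neg h1, if_pos rfl]
        field_simp
        ring
      · rw [nxt_ne D (Ne.symm h1), nxt_ne D (Ne.symm h2), if_neg h1, if_neg h2]
        ring
  rw [Finset.sum_congr rfl e, Finset.sum_sub_distrib, Finset.sum_add_distrib, ← Finset.sum_mul,
    sum_prob ff_pos, Finset.sum_ite_eq', Finset.sum_ite_eq', if_pos (Finset.mem_range.2 (by omega)),
    if_pos (Finset.mem_range.2 (by omega))]
  ring

lemma rr_le_FF (i : ℕ) : rr i ≤ FF i := by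
  refine (rr_le i).trans ?_
  rw [K_cast]
  have h1 := pow_s_ge i
  have h2 := s_cast_ge i
  unfold FF
  calc (s i : ℝ) ^ 2 ≤ (s i : ℝ) ^ 16 := pow_le_pow_right₀ (by linarith) (by norm_num)
    _ ≤ 2 ^ (s i) := h1
    _ ≤ 2 ^ (4 * s i) := pow_le_pow_right₀ (by norm_num) (by omega)

lemma rr_succ_le_FF (i : ℕ) : rr (i + 1) ≤ FF i := by
  refine (rr_le _).trans ?_
  rw [K_succ_cast]
  unfold FF
  exact pow_le_pow_right₀ (by norm_num) (by omega)

lemma FF_mono {i j : ℕ} (h : i ≤ j) : FF i ≤ FF j := by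
  unfold FF
  exact pow_le_pow_right₀ (by norm_num) (by have := s_mono h; omega)

lemma one_le_FF (i : ℕ) : 1 ≤ FF i := by
  unfold FF
  exact one_le_pow₀ (by norm_num)

lemma ff_le_K0 {d : ℕ} (h : d < α 0) : ff d ≤ K 0 := by
  rcases Nat.eq_zero_or_pos d with h0 | h0
  · subst h0
    rw [ff_zero]
    exact_mod_cast K_pos 0
  · have : β 0 = 1 := rfl
    rw [ff_stage (i := 0) (by omega) h]
    exact rr_le 0

lemma ff_le_FF' : ∀ {i d : ℕ}, d < β (i + 1) → ff d ≤ FF i := by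
  intro i d h
  rcases Nat.eq_zero_or_pos d with h0 | h0
  · subst h0
    rw [ff_zero]
    exact one_le_FF i
  obtain ⟨h1, h2⟩ := lev_spec h0
  have hij : lev d ≤ i := by
    by_contra hcon
    push Not at hcon
    have h3 : β (i + 1) ≤ β (lev d) := β_strictMono.monotone hcon
    omega
  rcases lt_or_ge d (α (lev d)) with h3 | h3
  · rw [ff_stage h1 h3]
    exact (rr_le_FF _).trans (FF_mono hij)
  · rw [ff_burst h3 h2]
    exact FF_mono hij

lemma ff_le_FF {i d : ℕ} (h : d < α (i + 1)) : ff d ≤ FF i := by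
  rcases lt_or_ge d (β (i + 1)) with h1 | h1
  · exact ff_le_FF' h1
  · rw [ff_stage h1 h]
    exact rr_succ_le_FF i

lemma psi_rr_stage (i : ℕ) : psi (rr i) (α i) = psi (rr i) (β i) * 2 ^ (K i) := by
  rw [psi_stage, div_self (rr_pos i).ne']
  norm_num

lemma ff_le_sum : ∀ {n d : ℕ}, d < α n →
    ff d ≤ K 0 + ∑ l ∈ range n, FF l / 2 ^ (K l) * psi (rr l) d := by
  intro n
  induction n with
  | zero => intro d h; simpa using ff_le_K0 h
  | succ n ih =>
    intro d h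
    rw [Finset.sum_range_succ]
    rcases lt_or_ge d (α n) with h1 | h1
    · have h2 := ih h1
      have h3 : 0 ≤ FF n / 2 ^ (K n) * psi (rr n) d :=
        mul_nonneg (div_nonneg (FF_pos n).le (by positivity)) (psi_pos (rr_pos n).le d).le
      linarith
    · have h2 := ff_le_FF h
      have h3 : (2:ℝ) ^ (K n) ≤ psi (rr n) d := by
        refine le_trans ?_ (psi_mono (rr_pos n).le h1)
        rw [psi_rr_stage]
        have h4 := psi_ge_one (rr_pos n).le (β n)
        have h5 : (0:ℝ) < 2 ^ (K n) := by positivity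
        nlinarith
      have h4 : FF n ≤ FF n / 2 ^ (K n) * psi (rr n) d := by
        rw [div_mul_eq_mul_div, le_div_iff₀ (by positivity)]
        exact mul_le_mul_of_nonneg_left h3 (FF_pos n).le
      have h5 : 0 ≤ ∑ l ∈ range n, FF l / 2 ^ (K l) * psi (rr l) d :=
        Finset.sum_nonneg fun l _ =>
          mul_nonneg (div_nonneg (FF_pos l).le (by positivity)) (psi_pos (rr_pos l).le d).le
      have h6 : (0:ℝ) ≤ K 0 := Nat.cast_nonneg _
      linarith

/-- the weights of the levels -/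
noncomputable def ww (l : ℕ) : ℝ := FF l / 2 ^ (K l) * Real.exp (K l / 4)

lemma ww_nonneg (l : ℕ) : 0 ≤ ww l := by
  unfold ww
  have := FF_pos l
  positivity

lemma ww_le (l : ℕ) : ww l ≤ (1 / 2) ^ (l + 1) := by
  have hs := s_cast_ge l
  have h1 : ww l ≤ Real.exp (-(s l : ℝ)) := by
    unfold ww FF
    have e1 : (2:ℝ) ^ (4 * s l) = Real.exp (Real.log 2 * (4 * s l)) := by
      rw [show (4 * (s l : ℝ)) = ((4 * s l : ℕ) : ℝ) by push_cast; ring, mul_comm (Real.log 2),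
        Real.exp_nat_mul, Real.exp_log (by norm_num)]
    have e2 : (2:ℝ) ^ (K l) = Real.exp (Real.log 2 * (s l : ℝ) ^ 2) := by
      rw [← K_cast, mul_comm, Real.exp_nat_mul, Real.exp_log (by norm_num)]
    rw [e1, e2, ← Real.exp_sub, ← Real.exp_add, K_cast]
    apply Real.exp_le_exp.2
    have h9 := Real.log_two_gt_d9
    have h10 : 0 ≤ (s l : ℝ) ^ 2 - 4 * s l := by nlinarith
    have h11 : 0 ≤ (Real.log 2 - 0.69) * ((s l : ℝ) ^ 2 - 4 * s l) :=
      mul_nonneg (by linarith) h10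
    nlinarith
  refine h1.trans ?_
  have h2 : ((2:ℝ)) ^ (l + 1) ≤ s l := by
    have h3 := two_pow_le_s l
    have h4 : 2 ^ (l + 1) ≤ 2 ^ (l + 4) := Nat.pow_le_pow_right (by norm_num) (by omega)
    exact_mod_cast h4.trans h3
  rw [Real.exp_neg, one_div, inv_pow]
  apply inv_anti₀ (by positivity)
  have := Real.add_one_le_exp (s l : ℝ)
  linarith

lemma sum_ww_le (n : ℕ) : ∑ l ∈ range n, ww l ≤ 1 := by
  have h : ∀ n : ℕ, ∑ l ∈ range n, ((1:ℝ) / 2) ^ (l + 1) = 1 - (1 / 2) ^ n := by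
    intro n
    induction n with
    | zero => simp
    | succ n ih => rw [Finset.sum_range_succ, ih, pow_succ]; ring
  calc ∑ l ∈ range n, ww l ≤ ∑ l ∈ range n, ((1:ℝ) / 2) ^ (l + 1) :=
        Finset.sum_le_sum fun l _ => ww_le l
    _ = 1 - (1 / 2) ^ n := h n
    _ ≤ 1 := by have : (0:ℝ) ≤ (1 / 2) ^ n := by positivity
                linarith

lemma Rw_window {θ : ℝ} {i d : ℕ} (h1 : β i ≤ d) (h2 : d ≤ α i) :
    Rw θ (β i) d = (1 - θ / rr i) ^ (d - β i) := by
  unfold Rw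
  have : ∀ k ∈ Ico (β i) d, (1 - θ / ff k) = 1 - θ / rr i := by
    intro k hk
    rw [Finset.mem_Ico] at hk
    rw [ff_stage hk.1 (by omega)]
  rw [Finset.prod_congr rfl this, Finset.prod_const, Nat.card_Ico]

lemma z_bounds {l J : ℕ} (hl : l ≤ J + 1) : 0 ≤ rr l / rr (J + 2) ∧ rr l / rr (J + 2) ≤ 1 / 4 ∧
    rr l / rr (J + 2) ≤ 2 * K l / nn (J + 1) := by
  have h1 := rr_succ_ge (J + 1)
  have h2 : (nn (J + 1) : ℝ) = 2 ^ (s (J + 1)) := by unfold nn; push_cast; ring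
  rw [← h2] at h1
  have h3 : (0:ℝ) < nn (J + 1) := by exact_mod_cast nn_pos (J + 1)
  have h4 := rr_le l
  have h5 := rr_pos l
  have h6 := rr_pos (J + 2)
  have h7 : rr l / rr (J + 2) ≤ 2 * K l / nn (J + 1) := by
    rw [div_le_div_iff₀ h6 h3]
    have h8 : (0:ℝ) ≤ K l := Nat.cast_nonneg _
    nlinarith
  refine ⟨by positivity, ?_, h7⟩
  refine h7.trans ?_
  rw [div_le_iff₀ h3]
  have h8 : (K l : ℝ) ≤ K (J + 1) := by exact_mod_cast K_mono hl
  have h9 := pow_s_ge (J + 1)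
  rw [← h2] at h9
  rw [K_cast (J + 1)] at h8
  have h10 := s_cast_ge (J + 1)
  have h11 : 8 * (s (J + 1) : ℝ) ^ 2 ≤ (s (J + 1) : ℝ) ^ 16 := by
    have h13 : (8:ℝ) ≤ (s (J + 1) : ℝ) ^ 14 := by
      calc (8:ℝ) ≤ (s (J + 1) : ℝ) := by linarith
        _ = (s (J + 1) : ℝ) ^ 1 := by ring
        _ ≤ (s (J + 1) : ℝ) ^ 14 := pow_le_pow_right₀ (by linarith) (by norm_num)
    calc 8 * (s (J + 1) : ℝ) ^ 2 ≤ (s (J + 1) : ℝ) ^ 14 * (s (J + 1) : ℝ) ^ 2 :=
          mul_le_mul_of_nonneg_right h13 (by positivity)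
      _ = _ := by ring
  linarith

/-- the factor of the root in the window -/
lemma Rw_window_bounds {l J m d : ℕ} (hl : l ≤ J + 1) (hm : 16 * m ≤ nn (J + 1))
    (h1 : β (J + 2) ≤ d) (h2 : d ≤ β (J + 2) + m) :
    Real.exp (-(K l / 4)) ≤ Rw (rr l) (β (J + 2)) d ∧ Rw (rr l) (β (J + 2)) d ≤ 1 := by
  have hα : d ≤ α (J + 2) := by
    have h3 : α (J + 2) = β (J + 2) + K (J + 2) := rfl
    have h4 : nn (J + 1) = K (J + 2) := nn_eq (J + 1)
    omega
  rw [Rw_window h1 hα]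
  obtain ⟨z1, z2, z3⟩ := z_bounds hl
  set z := rr l / rr (J + 2) with hz
  constructor
  · have h3 : (1 - z) ^ m ≤ (1 - z) ^ (d - β (J + 2)) :=
      pow_le_pow_of_le_one (by linarith) (by linarith) (by omega)
    refine le_trans ?_ h3
    refine le_trans ?_ (pow_ge_exp_neg z1 (by linarith) m)
    apply Real.exp_le_exp.2
    apply neg_le_neg
    have h4 : (0:ℝ) < nn (J + 1) := by exact_mod_cast nn_pos (J + 1)
    have h5 : (16:ℝ) * m ≤ nn (J + 1) := by exact_mod_cast hm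
    have h6 : m * z ≤ K l / 8 := by
      have h7 : (0:ℝ) ≤ m := Nat.cast_nonneg _
      have h8 : m * z ≤ m * (2 * K l / nn (J + 1)) := mul_le_mul_of_nonneg_left z3 h7
      refine h8.trans ?_
      rw [← mul_div_assoc, div_le_iff₀ h4]
      have h9 : (0:ℝ) ≤ K l := Nat.cast_nonneg _
      nlinarith
    have h7 : (m : ℝ) * (z + 2 * z ^ 2) = m * z * (1 + 2 * z) := by ring
    rw [h7]
    have h8 : (0:ℝ) ≤ m * z := by positivity
    nlinarith
  · exact pow_le_one₀ (by linarith) (by linarith)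

end Pool.Agent.Q287.LD
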