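import Pool.Agent.Q287.LD5

/-! Leaf density in fitness recursive trees: the window. -/

namespace Pool.Agent.Q287.LD

open Finset Function

/-- number of non-leaves among the vertices `t0 + 1, …, t` -/
def Nl (t0 t : ℕ) (D : ℕ → ℕ) : ℕ := ∑ v ∈ Ioc t0 t, if D v = 0 then 0 else 1

/-- states in the window -/
structure Win (J t0 e t : ℕ) (D : ℕ → ℕ) : Prop where
  w1 : t = t0 + nn (J + 1) + e
  w2 : β (J + 2) ≤ D 0
  w2' : D 0 ≤ β (J + 2) + e
  w3 : ∀ v, t < v → D v = 0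
  w4 : ∀ v, 1 ≤ v → v ≤ t → D v ≤ α J + e
  w5 : Nl t0 t D ≤ e

lemma Nl_step {t0 t u : ℕ} {D : ℕ → ℕ} (ht : t0 ≤ t) (hu : u ≤ t) (hD : D (t + 1) = 0) :
    Nl t0 (t + 1) (nxt D u) = Nl t0 t D + if (t0 < u ∧ D u = 0) then 1 else 0 := by
  unfold Nl
  rw [Finset.sum_Ioc_succ_top ht]
  have e1 : (if nxt D u (t + 1) = 0 then 0 else 1) = 0 := by
    rw [nxt_ne D (by omega), hD, if_pos rfl]
  rw [e1, add_zero]
  have e2 : ∀ v ∈ Ioc t0 t, (if nxt D u v = 0 then 0 else 1) =
      (if D v = 0 then 0 else 1) + (if v = u then (if D u = 0 then 1 else 0) else 0) := by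
    intro v _
    by_cases hv : v = u
    · subst hv
      rw [nxt_self]
      by_cases h0 : D v = 0 <;> simp [h0]
    · rw [nxt_ne D hv]
      simp [hv]
  rw [Finset.sum_congr rfl e2, Finset.sum_add_distrib, Finset.sum_ite_eq']
  congr 1
  by_cases h1 : t0 < u
  · rw [if_pos (Finset.mem_Ioc.2 ⟨h1, hu⟩)]
    simp [h1]
  · rw [if_neg (fun h => h1 (Finset.mem_Ioc.1 h).1)]
    simp [h1]

lemma Win_step {J t0 e t v : ℕ} {D : ℕ → ℕ} (h : Win J t0 e t D) (hv : v ≤ t) :
    Win J t0 (e + 1) (t + 1) (nxt D v) := by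
  have hw1 := h.w1
  have hw2 := h.w2
  have hw2' := h.w2'
  have hw5 := h.w5
  have hD0 : nxt D v 0 = D 0 ∨ nxt D v 0 = D 0 + 1 := by
    by_cases h : v = 0
    · right; rw [h, nxt_self]
    · left; rw [nxt_ne D (Ne.symm h)]
  refine ⟨by omega, by omega, by omega, ?_, ?_, ?_⟩
  · intro u hu
    rw [nxt_ne D (by omega)]
    exact h.w3 u (by omega)
  · intro u hu1 hu2
    rcases Nat.lt_or_ge t u with h3 | h3
    · rw [nxt_ne D (by omega), h.w3 u h3]
      exact Nat.zero_le _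
    · have h4 := h.w4 u hu1 h3
      by_cases hc : u = v
      · rw [hc, nxt_self, ← hc]; omega
      · rw [nxt_ne D hc]; omega
  · rw [Nl_step (by omega) hv (h.w3 _ (by omega))]
    split_ifs <;> omega

lemma split_sum (g : ℕ → ℝ) {t0 t : ℕ} (h : t0 ≤ t) :
    ∑ v ∈ range (t + 1), g v = g 0 + ∑ v ∈ Ioc 0 t0, g v + ∑ v ∈ Ioc t0 t, g v := by
  rw [add_assoc, Finset.sum_Ioc_consecutive g (Nat.zero_le _) h]
  clear h
  induction t with
  | zero => simp
  | succ t ih =>
    rw [Finset.sum_range_succ, ih, Finset.sum_Ioc_succ_top (Nat.zero_le _)]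
    ring

lemma Nl_E1 {t0 t : ℕ} {D : ℕ → ℕ} (ht : t0 ≤ t) (hD : D (t + 1) = 0) :
    E1 ff (fun t D => (Nl t0 t D : ℝ)) t D =
      Nl t0 t D + ((t:ℝ) - t0 - Nl t0 t D) / Zf ff t D := by
  have hz := Zf_pos ff_pos t D
  unfold E1
  have e1 : ∀ u ∈ range (t + 1), ff (D u) / Zf ff t D * (Nl t0 (t + 1) (nxt D u) : ℝ) =
      ff (D u) / Zf ff t D * (Nl t0 t D : ℝ) +
      (if (t0 < u ∧ D u = 0) then 1 / Zf ff t D else 0) := by
    intro u hu
    rw [Finset.mem_range] at hu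
    rw [Nl_step ht (by omega) hD]
    split_ifs with h
    · rw [h.2, ff_zero]
      push_cast
      ring
    · simp
  rw [Finset.sum_congr rfl e1, Finset.sum_add_distrib, ← Finset.sum_mul, sum_prob ff_pos, one_mul]
  congr 1
  rw [split_sum _ ht]
  have e2 : ∑ u ∈ Ioc 0 t0, (if (t0 < u ∧ D u = 0) then 1 / Zf ff t D else 0) = 0 := by
    apply Finset.sum_eq_zero
    intro u hu
    rw [Finset.mem_Ioc] at hu
    rw [if_neg (by omega)]
  have e3 : (if (t0 < 0 ∧ D 0 = 0) then 1 / Zf ff t D else 0) = 0 := by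
    rw [if_neg (by omega)]
  rw [e2, e3, zero_add, zero_add]
  have e4 : ∀ u ∈ Ioc t0 t, (if (t0 < u ∧ D u = 0) then 1 / Zf ff t D else 0) =
      1 / Zf ff t D - (((if D u = 0 then 0 else 1 : ℕ) : ℝ)) / Zf ff t D := by
    intro u hu
    rw [Finset.mem_Ioc] at hu
    by_cases h : D u = 0 <;> simp [h, hu.1]
  rw [Finset.sum_congr rfl e4, Finset.sum_sub_distrib, Finset.sum_const, Nat.card_Ioc,
    ← Finset.sum_div, nsmul_eq_mul, Nat.cast_sub ht]
  unfold Nl
  push_cast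
  ring

/-- old vertices -/
noncomputable def Mo (J t0 : ℕ) (D : ℕ → ℕ) : ℝ :=
  ∑ v ∈ Ioc 0 t0, psi (rr (J + 1)) (D v) * Rw (rr (J + 1)) (β (J + 2)) (D 0)

/-- new vertices -/
noncomputable def Mn (J t0 l t : ℕ) (D : ℕ → ℕ) : ℝ :=
  ∑ v ∈ Ioc t0 t, psi (rr l) (D v) * Rw (rr l) (β (J + 2)) (D 0)

/-- weight of the old vertices -/
noncomputable def wo (J : ℕ) : ℝ :=
  FF (J + 1) / psi (rr (J + 1)) (α (J + 1)) * Real.exp (K (J + 1) / 4)

/-- bound for the total fitness -/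
noncomputable def Y (J t0 t : ℕ) (D : ℕ → ℕ) : ℝ :=
  (nn (J + 1) + t0 * FF J) + ((t:ℝ) - t0) * K 0 + wo J * Mo J t0 D +
    ∑ l ∈ range (J + 2), ww l * Mn J t0 l t D

lemma wo_nonneg (J : ℕ) : 0 ≤ wo J := by
  unfold wo
  have h1 := FF_pos (J + 1)
  have h2 := psi_pos (rr_pos (J + 1)).le (α (J + 1))
  positivity

lemma α_mono : Monotone α := by
  intro i j h
  unfold α
  have h1 := β_strictMono.monotone h
  have h2 := K_mono h
  omega

lemma deg_lt {J e m : ℕ} (he : e ≤ m) (hm : 16 * m ≤ nn (J + 1)) : α J + e < α (J + 2) := by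
  have h1 : α (J + 2) = β (J + 2) + K (J + 2) := rfl
  have h2 : nn (J + 1) = K (J + 2) := nn_eq (J + 1)
  have h3 : α J < β (J + 2) := (α_lt_β J).trans (β_strictMono (Nat.lt_succ_self _))
  omega

lemma Z_le_Y {J t0 e m t : ℕ} {D : ℕ → ℕ} (h : Win J t0 e t D) (he : e ≤ m)
    (hm : 16 * m ≤ nn (J + 1)) : Zf ff t D ≤ Y J t0 t D := by
  have hw1 := h.w1
  have hw2 := h.w2
  have hw2' := h.w2'
  have ht : t0 ≤ t := by omega
  have hD0 : D 0 ≤ β (J + 2) + m := by omega
  unfold Zf Y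
  rw [split_sum _ ht]
  -- root
  have r1 : ff (D 0) ≤ nn (J + 1) := by
    have h3 : α (J + 2) = β (J + 2) + K (J + 2) := rfl
    have h4 : nn (J + 1) = K (J + 2) := nn_eq (J + 1)
    have h5 := nn_pos (J + 1)
    rw [ff_stage hw2 (by omega), h4]
    exact rr_le _
  -- old vertices
  have r2 : ∑ v ∈ Ioc 0 t0, ff (D v) ≤ t0 * FF J + wo J * Mo J t0 D := by
    have h1 : ∀ v ∈ Ioc 0 t0, ff (D v) ≤ FF J +
        wo J * (psi (rr (J + 1)) (D v) * Rw (rr (J + 1)) (β (J + 2)) (D 0)) := by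
      intro v hv
      rw [Finset.mem_Ioc] at hv
      obtain ⟨b1, _⟩ := Rw_window_bounds (l := J + 1) (J := J) le_rfl hm hw2 hD0
      have hR : 1 ≤ Real.exp (K (J + 1) / 4) * Rw (rr (J + 1)) (β (J + 2)) (D 0) := by
        calc 1 = Real.exp (K (J + 1) / 4) * Real.exp (-(K (J + 1) / 4)) := by
              rw [← Real.exp_add]; simp
          _ ≤ _ := mul_le_mul_of_nonneg_left b1 (Real.exp_pos _).le
      have hψ := psi_pos (rr_pos (J + 1)).le (D v)
      have hψα := psi_pos (rr_pos (J + 1)).le (α (J + 1))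
      have hx : 0 ≤ FF (J + 1) / psi (rr (J + 1)) (α (J + 1)) * psi (rr (J + 1)) (D v) := by
        have := FF_pos (J + 1)
        positivity
      have e1 : wo J * (psi (rr (J + 1)) (D v) * Rw (rr (J + 1)) (β (J + 2)) (D 0)) =
          (FF (J + 1) / psi (rr (J + 1)) (α (J + 1)) * psi (rr (J + 1)) (D v)) *
          (Real.exp (K (J + 1) / 4) * Rw (rr (J + 1)) (β (J + 2)) (D 0)) := by
        unfold wo; ring
      have e2 : (FF (J + 1) / psi (rr (J + 1)) (α (J + 1)) * psi (rr (J + 1)) (D v)) ≤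
          wo J * (psi (rr (J + 1)) (D v) * Rw (rr (J + 1)) (β (J + 2)) (D 0)) := by
        rw [e1]
        exact le_mul_of_one_le_right hx hR
      rcases lt_or_ge (D v) (α (J + 1)) with hc | hc
      · have h5 := ff_le_FF hc
        linarith
      · have h4 : D v < α (J + 2) := by
          have := h.w4 v hv.1 (by omega)
          exact lt_of_le_of_lt this (deg_lt he hm)
        have h5 := ff_le_FF h4
        have h6 : FF (J + 1) ≤
            FF (J + 1) / psi (rr (J + 1)) (α (J + 1)) * psi (rr (J + 1)) (D v) := by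
          rw [div_mul_eq_mul_div, le_div_iff₀ hψα]
          exact mul_le_mul_of_nonneg_left (psi_mono (rr_pos _).le hc) (FF_pos _).le
        have h7 := FF_pos J
        linarith
    refine (Finset.sum_le_sum h1).trans (le_of_eq ?_)
    rw [Finset.sum_add_distrib, ← Finset.mul_sum]
    unfold Mo
    simp
  -- new vertices
  have r3 : ∑ v ∈ Ioc t0 t, ff (D v) ≤ ((t:ℝ) - t0) * K 0 +
      ∑ l ∈ range (J + 2), ww l * Mn J t0 l t D := by
    have h1 : ∀ v ∈ Ioc t0 t, ff (D v) ≤ K 0 + ∑ l ∈ range (J + 2),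
        ww l * (psi (rr l) (D v) * Rw (rr l) (β (J + 2)) (D 0)) := by
      intro v hv
      rw [Finset.mem_Ioc] at hv
      have h4 : D v < α (J + 2) := by
        have := h.w4 v (by omega) (by omega)
        exact lt_of_le_of_lt this (deg_lt he hm)
      refine (ff_le_sum h4).trans ?_
      apply add_le_add le_rfl
      apply Finset.sum_le_sum
      intro l hl
      rw [Finset.mem_range] at hl
      obtain ⟨b1, _⟩ := Rw_window_bounds (l := l) (J := J) (by omega) hm hw2 hD0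
      have hR : 1 ≤ Real.exp (K l / 4) * Rw (rr l) (β (J + 2)) (D 0) := by
        calc 1 = Real.exp (K l / 4) * Real.exp (-(K l / 4)) := by
              rw [← Real.exp_add]; simp
          _ ≤ _ := mul_le_mul_of_nonneg_left b1 (Real.exp_pos _).le
      have hψ := psi_pos (rr_pos l).le (D v)
      have hx : 0 ≤ FF l / 2 ^ (K l) * psi (rr l) (D v) := by
        have := FF_pos l
        positivity
      have e1 : ww l * (psi (rr l) (D v) * Rw (rr l) (β (J + 2)) (D 0)) =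
          (FF l / 2 ^ (K l) * psi (rr l) (D v)) *
          (Real.exp (K l / 4) * Rw (rr l) (β (J + 2)) (D 0)) := by
        unfold ww; ring
      rw [e1]
      exact le_mul_of_one_le_right hx hR
    refine (Finset.sum_le_sum h1).trans (le_of_eq ?_)
    rw [Finset.sum_add_distrib, Finset.sum_const, Nat.card_Ioc, nsmul_eq_mul, Nat.cast_sub ht,
      Finset.sum_comm]
    congr 1
    apply Finset.sum_congr rfl
    intro l _
    unfold Mn
    rw [Finset.mul_sum]
  linarith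

lemma Mo_step {J t0 e t : ℕ} {D : ℕ → ℕ} (h : Win J t0 e t D) :
    E1 ff (fun _ D => Mo J t0 D) t D = Mo J t0 D := by
  unfold Mo
  rw [E1_sum (Ioc 0 t0) (fun v _ D => psi (rr (J + 1)) (D v) * Rw (rr (J + 1)) (β (J + 2)) (D 0))]
  apply Finset.sum_congr rfl
  intro v hv
  rw [Finset.mem_Ioc] at hv
  have hw1 := h.w1
  exact pair_mart hv.1 (by omega) h.w2

lemma Mn_step {J t0 e m t l : ℕ} {D : ℕ → ℕ} (h : Win J t0 e t D) (he : e < m)
    (hm : 16 * m ≤ nn (J + 1)) (hl : l ≤ J + 1) :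
    E1 ff (fun t D => Mn J t0 l t D) t D ≤ Mn J t0 l t D + 1 := by
  have hw1 := h.w1
  have hD : D (t + 1) = 0 := h.w3 _ (Nat.lt_succ_self t)
  have e1 : E1 ff (fun t D => Mn J t0 l t D) t D ≤
      E1 ff (fun _ D => (fun _ D => ∑ v ∈ Ioc t0 t, psi (rr l) (D v) *
        Rw (rr l) (β (J + 2)) (D 0)) t D + (fun _ _ => 1) t D) t D := by
    apply E1_mono ff_pos
    intro v hv
    have hw := Win_step h hv
    simp only
    unfold Mn
    rw [Finset.sum_Ioc_succ_top (by omega)]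
    apply add_le_add le_rfl
    rw [nxt_ne D (by omega : t + 1 ≠ v), hD, psi_zero, one_mul]
    have h3 := hw.w2'
    exact (Rw_window_bounds hl hm hw.w2 (by omega)).2
  refine e1.trans (le_of_eq ?_)
  rw [E1_add (fun _ D => ∑ v ∈ Ioc t0 t, psi (rr l) (D v) * Rw (rr l) (β (J + 2)) (D 0))
    (fun _ _ => 1), E1_const ff_pos]
  congr 1
  rw [E1_sum (Ioc t0 t) (fun v _ D => psi (rr l) (D v) * Rw (rr l) (β (J + 2)) (D 0))]
  unfold Mn
  apply Finset.sum_congr rfl
  intro v hv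
  rw [Finset.mem_Ioc] at hv
  exact pair_mart (by omega) (by omega) h.w2

lemma Y_step {J t0 e m t : ℕ} {D : ℕ → ℕ} (h : Win J t0 e t D) (he : e < m)
    (hm : 16 * m ≤ nn (J + 1)) :
    E1 ff (fun t D => Y J t0 t D) t D ≤ Y J t0 t D + (K 0 + 1) := by
  unfold Y
  rw [E1_add (fun t D => (nn (J + 1) + t0 * FF J) + ((t:ℝ) - t0) * K 0 + wo J * Mo J t0 D)
    (fun t D => ∑ l ∈ range (J + 2), ww l * Mn J t0 l t D),
    E1_add (fun t _ => (nn (J + 1) + t0 * FF J) + ((t:ℝ) - t0) * K 0)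
    (fun t D => wo J * Mo J t0 D), E1_mul (wo J) (fun _ D => Mo J t0 D), Mo_step h,
    E1_sum (range (J + 2)) (fun l t D => ww l * Mn J t0 l t D)]
  have e1 : E1 ff (fun t _ => (nn (J + 1) + t0 * FF J) + ((t:ℝ) - t0) * K 0) t D =
      (nn (J + 1) + t0 * FF J) + ((t:ℝ) - t0) * K 0 + K 0 := by
    have : E1 ff (fun t _ => (nn (J + 1) + t0 * FF J) + ((t:ℝ) - t0) * K 0) t D =
      E1 ff (fun _ _ => (nn (J + 1) + t0 * FF J) + ((t:ℝ) - t0) * K 0 + K 0) t D := by
      apply E1_congr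
      intro v _
      push_cast
      ring
    rw [this, E1_const ff_pos]
  rw [e1]
  have e2 : ∑ l ∈ range (J + 2), E1 ff (fun t D => ww l * Mn J t0 l t D) t D ≤
      ∑ l ∈ range (J + 2), (ww l * Mn J t0 l t D + ww l) := by
    apply Finset.sum_le_sum
    intro l hl
    rw [Finset.mem_range] at hl
    rw [E1_mul (ww l) (fun t D => Mn J t0 l t D)]
    have h1 := Mn_step h he hm (l := l) (by omega)
    have h2 := ww_nonneg l
    nlinarith
  rw [Finset.sum_add_distrib] at e2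
  have e3 := sum_ww_le (J + 2)
  linarith

/-- the constant of the window -/
noncomputable def CC : ℝ := 2 * K 0 + 4

lemma CC_pos : 0 < CC := by unfold CC; positivity

/-- the induction in the window -/
theorem window {J t0 m : ℕ} (hm : 16 * m = nn (J + 1)) {c : ℕ → (ℕ → ℕ) → Prop}
    (hc : ∀ t D, Win J t0 m t D → (m:ℝ) / (2 * CC) ≤ Nl t0 t D → c t D) :
    ∀ r e t D, e + r = m → Win J t0 e t D →
      Nl t0 t D + nn (J + 1) * (2 * r / (CC * nn (J + 1)) -
        (r * Y J t0 t D + (K 0 + 1) * r ^ 2) / (CC * nn (J + 1)) ^ 2) ≤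
      m * V ff c r t D + m / (2 * CC) := by
  intro r
  have hC := CC_pos
  have hN : (0:ℝ) < nn (J + 1) := by exact_mod_cast nn_pos (J + 1)
  induction r with
  | zero =>
    intro e t D he h
    have he' : e = m := by omega
    subst he'
    have h1 : (Nl t0 t D : ℝ) ≤ e := by exact_mod_cast h.w5
    simp only [Nat.cast_zero, mul_zero, zero_div, zero_mul, ne_eq, OfNat.ofNat_ne_zero,
      not_false_eq_true, zero_pow, add_zero, sub_zero]
    by_cases hcc : (e:ℝ) / (2 * CC) ≤ Nl t0 t D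
    · have h2 : V ff c 0 t D = 1 := by rw [V, if_pos (hc t D h hcc)]
      rw [h2]
      have : (0:ℝ) ≤ e / (2 * CC) := by positivity
      linarith
    · push Not at hcc
      have h2 := V_nonneg ff_pos c 0 t D
      have h3 : (0:ℝ) ≤ e * V ff c 0 t D := by positivity
      linarith
  | succ r ih =>
    intro e t D he h
    have hw1 := h.w1
    set a : ℝ := CC * nn (J + 1) with ha
    have ha0 : 0 < a := by positivity
    have hz := Zf_pos ff_pos t D
    have hZY := Z_le_Y (m := m) h (by omega) hm.le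
    -- the inductive hypothesis averaged
    have h1 : E1 ff (fun t D => (Nl t0 t D : ℝ) + ((nn (J + 1) * (2 * r / a) -
        nn (J + 1) * ((K 0 + 1) * r ^ 2) / a ^ 2) + (-(nn (J + 1) * r / a ^ 2)) * Y J t0 t D))
        t D ≤ E1 ff (fun t D => m * V ff c r t D + m / (2 * CC)) t D := by
      apply E1_mono ff_pos
      intro v hv
      have h2 := ih (e + 1) (t + 1) (nxt D v) (by omega) (Win_step h hv)
      refine le_trans (le_of_eq ?_) h2
      ring
    have h2 : E1 ff (fun t D => m * V ff c r t D + m / (2 * CC)) t D ≤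
        m * V ff c (r + 1) t D + m / (2 * CC) := by
      rw [E1_add (fun t D => m * V ff c r t D) (fun _ _ => m / (2 * CC)), E1_const ff_pos,
        E1_mul (m:ℝ) (V ff c r)]
      have h3 := V_ge_E1 ff_pos c r t D
      have h4 : (0:ℝ) ≤ m := Nat.cast_nonneg _
      nlinarith
    refine le_trans ?_ (h1.trans h2)
    rw [E1_add (fun t D => (Nl t0 t D : ℝ)) (fun t D => (nn (J + 1) * (2 * r / a) -
        nn (J + 1) * ((K 0 + 1) * r ^ 2) / a ^ 2) + (-(nn (J + 1) * r / a ^ 2)) * Y J t0 t D),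
      E1_add (fun _ _ => (nn (J + 1) * (2 * r / a) - nn (J + 1) * ((K 0 + 1) * r ^ 2) / a ^ 2))
        (fun t D => (-(nn (J + 1) * r / a ^ 2)) * Y J t0 t D), E1_const ff_pos,
      E1_mul (-(nn (J + 1) * r / a ^ 2)) (fun t D => Y J t0 t D),
      Nl_E1 (by omega) (h.w3 _ (by omega))]
    have h3 := Y_step h (m := m) (by omega) hm.le
    have h4 : (0:ℝ) ≤ nn (J + 1) * r / a ^ 2 := by positivity
    have h5 : (-(nn (J + 1) * r / a ^ 2)) * (Y J t0 t D + (K 0 + 1)) ≤
        (-(nn (J + 1) * r / a ^ 2)) * E1 ff (fun t D => Y J t0 t D) t D := by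
      nlinarith
    have h6 : (nn (J + 1) : ℝ) ≤ (t:ℝ) - t0 - Nl t0 t D := by
      have h7 : nn (J + 1) + t0 + Nl t0 t D ≤ t := by have := h.w5; omega
      have h8 : (nn (J + 1) : ℝ) + t0 + Nl t0 t D ≤ t := by exact_mod_cast h7
      linarith
    have h7 : nn (J + 1) * (2 / a - Y J t0 t D / a ^ 2) ≤
        ((t:ℝ) - t0 - Nl t0 t D) / Zf ff t D := by
      have h8 : 2 / a - Y J t0 t D / a ^ 2 ≤ 1 / Zf ff t D := by
        have h9 : Zf ff t D / a ^ 2 ≤ Y J t0 t D / a ^ 2 :=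
          div_le_div_of_nonneg_right hZY (by positivity)
        have h10 : 2 / a - Zf ff t D / a ^ 2 ≤ 1 / Zf ff t D := by
          rw [div_sub_div _ _ ha0.ne' (by positivity), div_le_div_iff₀ (by positivity) hz]
          nlinarith [mul_nonneg ha0.le (sq_nonneg (a - Zf ff t D))]
        linarith
      calc nn (J + 1) * (2 / a - Y J t0 t D / a ^ 2) ≤ nn (J + 1) * (1 / Zf ff t D) :=
            mul_le_mul_of_nonneg_left h8 hN.le
        _ = nn (J + 1) / Zf ff t D := by ring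
        _ ≤ _ := div_le_div_of_nonneg_right h6 hz.le
    have h8 : nn (J + 1) * (2 * ((r + 1 : ℕ) : ℝ) / a - (((r + 1 : ℕ) : ℝ) * Y J t0 t D +
        (K 0 + 1) * ((r + 1 : ℕ) : ℝ) ^ 2) / a ^ 2) ≤
        nn (J + 1) * (2 / a - Y J t0 t D / a ^ 2) + ((nn (J + 1) * (2 * r / a) -
        nn (J + 1) * ((K 0 + 1) * r ^ 2) / a ^ 2) +
        (-(nn (J + 1) * r / a ^ 2)) * (Y J t0 t D + (K 0 + 1))) := by
      have h9 : 0 ≤ nn (J + 1) * ((K 0 + 1) * (r + 1)) / a ^ 2 := by positivity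
      push_cast
      have h10 : nn (J + 1) * (2 / a - Y J t0 t D / a ^ 2) + ((nn (J + 1) * (2 * r / a) -
        nn (J + 1) * ((K 0 + 1) * r ^ 2) / a ^ 2) +
        (-(nn (J + 1) * r / a ^ 2)) * (Y J t0 t D + (K 0 + 1))) -
        nn (J + 1) * (2 * ((r:ℝ) + 1) / a - (((r:ℝ) + 1) * Y J t0 t D +
        (K 0 + 1) * ((r:ℝ) + 1) ^ 2) / a ^ 2) = nn (J + 1) * ((K 0 + 1) * (r + 1)) / a ^ 2 := by
        ring
      linarith
    linarith

end Pool.Agent.Q287.LD
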