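import Pool.Agent.Q287.LD6

/-! Leaf density in fitness recursive trees: the burst and the window together. -/

namespace Pool.Agent.Q287.LD

open Finset Function

lemma nu_lt_nn {J t0 : ℕ} (h : t0 < nu (J + 1)) : t0 ≤ nn (J + 1) := by
  have h1 := nu_le (J + 1)
  unfold nn
  omega

lemma old_small {J t0 : ℕ} (h : t0 < nu (J + 1)) : (t0 : ℝ) * (FF J + 1) ≤ nn (J + 1) := by
  have h1 : (t0 : ℝ) ≤ 2 ^ (K J + 1) := by
    have h2 : t0 ≤ 2 ^ (K J + 1) := h.le
    exact_mod_cast h2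
  have h2 : FF J + 1 ≤ 2 ^ (4 * s J + 1) := by
    have h3 := one_le_FF J
    have h4 : FF J = 2 ^ (4 * s J) := rfl
    rw [pow_succ, ← h4]
    linarith
  have h3 : K J + 1 + (4 * s J + 1) ≤ s (J + 1) := by
    have h4 := s_succ_ge J
    have h5 := s_ge J
    unfold K
    have h6 : (s J) ^ 2 + 1 + (4 * s J + 1) ≤ (s J) ^ 3 := by
      nlinarith [sq_nonneg (s J), Nat.mul_le_mul h5 h5]
    have h7 : (s J) ^ 3 ≤ (s J) ^ 8 := Nat.pow_le_pow_right (by omega) (by norm_num)
    omega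
  have h4 : (nn (J + 1) : ℝ) = 2 ^ (s (J + 1)) := by unfold nn; push_cast; ring
  rw [h4]
  have h5 : 0 ≤ FF J + 1 := by have := FF_pos J; linarith
  calc (t0 : ℝ) * (FF J + 1) ≤ 2 ^ (K J + 1) * 2 ^ (4 * s J + 1) :=
        mul_le_mul h1 h2 h5 (by positivity)
    _ = 2 ^ (K J + 1 + (4 * s J + 1)) := by rw [← pow_add]
    _ ≤ 2 ^ (s (J + 1)) := pow_le_pow_right₀ (by norm_num) h3

/-- the value of the bound at the beginning of the window -/
lemma Y_start {J t0 m : ℕ} {D : ℕ → ℕ} (hm : 16 * m = nn (J + 1)) (ht0 : t0 < nu (J + 1))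
    (hD0 : D 0 = β (J + 2)) (hold : ∀ v, 1 ≤ v → v ≤ t0 → D v < α J)
    (hnew : ∀ v, t0 < v → D v = 0) :
    (m:ℝ) * Y J t0 (t0 + nn (J + 1)) D + (K 0 + 1) * m ^ 2 ≤ m * (CC * nn (J + 1)) := by
  have hR : ∀ θ, Rw θ (β (J + 2)) (D 0) = 1 := by intro θ; rw [hD0]; simp [Rw]
  have e1 : ∀ l, Mn J t0 l (t0 + nn (J + 1)) D = nn (J + 1) := by
    intro l
    unfold Mn
    have : ∀ v ∈ Ioc t0 (t0 + nn (J + 1)), psi (rr l) (D v) *
        Rw (rr l) (β (J + 2)) (D 0) = 1 := by
      intro v hv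
      rw [Finset.mem_Ioc] at hv
      rw [hR, hnew v hv.1, psi_zero, one_mul]
    rw [Finset.sum_congr rfl this]
    simp
  have e2 : wo J * Mo J t0 D ≤ t0 := by
    have h1 : Mo J t0 D ≤ t0 * psi (rr (J + 1)) (β (J + 1)) := by
      unfold Mo
      have : ∀ v ∈ Ioc 0 t0, psi (rr (J + 1)) (D v) *
          Rw (rr (J + 1)) (β (J + 2)) (D 0) ≤ psi (rr (J + 1)) (β (J + 1)) := by
        intro v hv
        rw [Finset.mem_Ioc] at hv
        rw [hR, mul_one]
        apply psi_mono (rr_pos _).le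
        have h2 := hold v hv.1 hv.2
        have h3 := α_lt_β J
        omega
      refine (Finset.sum_le_sum this).trans ?_
      simp
    have h2 : wo J * (t0 * psi (rr (J + 1)) (β (J + 1))) = t0 * ww (J + 1) := by
      unfold wo ww
      rw [psi_rr_stage]
      have h3 := (psi_pos (rr_pos (J + 1)).le (β (J + 1))).ne'
      field_simp
    have h3 : ww (J + 1) ≤ 1 := by
      refine (ww_le (J + 1)).trans ?_
      exact pow_le_one₀ (by norm_num) (by norm_num)
    have h4 : (0:ℝ) ≤ t0 := Nat.cast_nonneg _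
    calc wo J * Mo J t0 D ≤ wo J * (t0 * psi (rr (J + 1)) (β (J + 1))) :=
          mul_le_mul_of_nonneg_left h1 (wo_nonneg J)
      _ = t0 * ww (J + 1) := h2
      _ ≤ t0 * 1 := mul_le_mul_of_nonneg_left h3 h4
      _ = t0 := mul_one _
  have e3 : ∑ l ∈ range (J + 2), ww l * Mn J t0 l (t0 + nn (J + 1)) D ≤ nn (J + 1) := by
    have : ∀ l ∈ range (J + 2), ww l * Mn J t0 l (t0 + nn (J + 1)) D = ww l * nn (J + 1) := by
      intro l _
      rw [e1]
    rw [Finset.sum_congr rfl this, ← Finset.sum_mul]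
    have h1 := sum_ww_le (J + 2)
    have h2 : (0:ℝ) ≤ nn (J + 1) := Nat.cast_nonneg _
    nlinarith
  have e4 := old_small ht0
  have e5 : Y J t0 (t0 + nn (J + 1)) D ≤ (K 0 + 3) * nn (J + 1) := by
    unfold Y
    push_cast
    have h2 : (t0:ℝ) + nn (J + 1) - t0 = nn (J + 1) := by ring
    rw [h2]
    nlinarith
  have e6 : (K 0 + 1) * (m:ℝ) ≤ (K 0 + 1) * nn (J + 1) := by
    apply mul_le_mul_of_nonneg_left _ (by positivity)
    have : m ≤ nn (J + 1) := by omega
    exact_mod_cast this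
  have h4 : (0:ℝ) ≤ m := Nat.cast_nonneg _
  calc (m:ℝ) * Y J t0 (t0 + nn (J + 1)) D + (K 0 + 1) * m ^ 2
      = m * (Y J t0 (t0 + nn (J + 1)) D + (K 0 + 1) * m) := by ring
    _ ≤ m * (CC * nn (J + 1)) := by
        apply mul_le_mul_of_nonneg_left _ h4
        unfold CC
        nlinarith

/-- the probability in the window -/
theorem window_prob {J t0 m : ℕ} (hm : 16 * m = nn (J + 1)) (ht0 : t0 < nu (J + 1))
    {c : ℕ → (ℕ → ℕ) → Prop}
    (hc : ∀ t D, Win J t0 m t D → (m:ℝ) / (2 * CC) ≤ Nl t0 t D → c t D) {D : ℕ → ℕ}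
    (hD0 : D 0 = β (J + 2)) (hold : ∀ v, 1 ≤ v → v ≤ t0 → D v < α J)
    (hnew : ∀ v, t0 < v → D v = 0) : 1 / (2 * CC) ≤ V ff c m (t0 + nn (J + 1)) D := by
  have hC := CC_pos
  have hN : (0:ℝ) < nn (J + 1) := by exact_mod_cast nn_pos (J + 1)
  have hm0 : (0:ℝ) < m := by
    have : 0 < m := by have := nn_pos (J + 1); omega
    exact_mod_cast this
  have hNl : Nl t0 (t0 + nn (J + 1)) D = 0 := by
    unfold Nl
    apply Finset.sum_eq_zero
    intro v hv
    rw [Finset.mem_Ioc] at hv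
    rw [hnew v hv.1, if_pos rfl]
  have hW : Win J t0 0 (t0 + nn (J + 1)) D := by
    refine ⟨rfl, hD0.ge, hD0.le, fun v hv => hnew v (by omega), ?_, hNl.le⟩
    intro v hv1 hv2
    rcases Nat.lt_or_ge t0 v with h | h
    · rw [hnew v h]; exact Nat.zero_le _
    · have := hold v hv1 h; omega
  have h1 := window hm hc m 0 (t0 + nn (J + 1)) D (Nat.zero_add m) hW
  have h2 := Y_start hm ht0 hD0 hold hnew
  rw [hNl] at h1
  set a : ℝ := CC * nn (J + 1) with ha
  have ha0 : 0 < a := by positivity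
  have h3 : (nn (J + 1) : ℝ) * (m / a) ≤ nn (J + 1) * (2 * m / a -
      (m * Y J t0 (t0 + nn (J + 1)) D + (K 0 + 1) * m ^ 2) / a ^ 2) := by
    apply mul_le_mul_of_nonneg_left _ hN.le
    have h4 : (m * Y J t0 (t0 + nn (J + 1)) D + (K 0 + 1) * m ^ 2) / a ^ 2 ≤ m * a / a ^ 2 :=
      div_le_div_of_nonneg_right h2 (by positivity)
    have h5 : m * a / a ^ 2 = m / a := by field_simp
    rw [h5] at h4
    have h6 : 2 * (m:ℝ) / a = m / a + m / a := by ring
    linarith
  have h4 : (nn (J + 1) : ℝ) * (m / a) = m / CC := by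
    rw [ha]; field_simp
  have h5 : (m:ℝ) / CC = m / (2 * CC) + m / (2 * CC) := by field_simp; ring
  have h6 : (m:ℝ) / (2 * CC) ≤ m * V ff c m (t0 + nn (J + 1)) D := by
    push_cast at h1
    linarith
  have h7 : (m:ℝ) / (2 * CC) = m * (1 / (2 * CC)) := by ring
  rw [h7] at h6
  exact le_of_mul_le_mul_left h6 hm0

/-- the burst of the root -/
theorem burst {J : ℕ} {c : ℕ → (ℕ → ℕ) → Prop} {q : ℝ}
    (hq : q = 2 * nn (J + 1) * FF J / FF (J + 1)) (hq1 : q ≤ 1) :
    ∀ n m t D, α (J + 1) ≤ D 0 → D 0 + n ≤ β (J + 2) → (∀ v, 1 ≤ v → v ≤ t → D v < α J) →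
      (∀ v, t < v → D v = 0) → t + n ≤ 2 * nn (J + 1) →
      (1 - q) ^ n * V ff c m (t + n) (update D 0 (D 0 + n)) ≤ V ff c (m + n) t D := by
  intro n
  induction n with
  | zero =>
    intro m t D _ _ _ _ _
    simp
  | succ n ih =>
    intro m t D h1 h2 h3 h4 h5
    have hz := Zf_pos ff_pos t D
    have e1 : ff (D 0) / Zf ff t D * V ff c (m + n) (t + 1) (nxt D 0) ≤ V ff c (m + (n + 1)) t D := by
      refine le_trans ?_ (V_ge_E1 ff_pos c (m + n) t D)
      unfold E1
      exact Finset.single_le_sum (f := fun v => ff (D v) / Zf ff t D *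
        V ff c (m + n) (t + 1) (nxt D v)) (fun v _ => mul_nonneg
          (div_nonneg (ff_pos _).le hz.le) (V_nonneg ff_pos _ _ _ _)) (by simp)
    have e2 : 1 - q ≤ ff (D 0) / Zf ff t D := by
      have f1 : ff (D 0) = FF (J + 1) := ff_burst h1 (by show D 0 < β (J + 2); omega)
      have f2 : Zf ff t D ≤ FF (J + 1) + 2 * nn (J + 1) * FF J := by
        unfold Zf
        rw [Finset.sum_range_succ', f1]
        have f3 : ∑ i ∈ range t, ff (D (i + 1)) ≤ 2 * nn (J + 1) * FF J := by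
          calc ∑ i ∈ range t, ff (D (i + 1)) ≤ ∑ _i ∈ range t, FF J := by
                apply Finset.sum_le_sum
                intro i hi
                rw [Finset.mem_range] at hi
                apply ff_le_FF'
                have g1 := h3 (i + 1) (by omega) (by omega)
                have g2 := α_lt_β J
                omega
            _ = t * FF J := by simp
            _ ≤ 2 * nn (J + 1) * FF J := by
                apply mul_le_mul_of_nonneg_right _ (FF_pos J).le
                have : t ≤ 2 * nn (J + 1) := by omega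
                exact_mod_cast this
        linarith
      rw [f1, hq, le_div_iff₀ hz]
      have g1 := FF_pos (J + 1)
      have g2 : 0 ≤ 1 - q := by linarith
      rw [hq] at g2
      calc (1 - 2 * (nn (J + 1):ℝ) * FF J / FF (J + 1)) * Zf ff t D
          ≤ (1 - 2 * (nn (J + 1):ℝ) * FF J / FF (J + 1)) *
            (FF (J + 1) + 2 * nn (J + 1) * FF J) := mul_le_mul_of_nonneg_left f2 g2
        _ ≤ FF (J + 1) := by
          have g3 : (1 - 2 * (nn (J + 1):ℝ) * FF J / FF (J + 1)) *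
            (FF (J + 1) + 2 * nn (J + 1) * FF J) = FF (J + 1) -
              (2 * nn (J + 1) * FF J) ^ 2 / FF (J + 1) := by field_simp; ring
          rw [g3]
          have : 0 ≤ (2 * (nn (J + 1):ℝ) * FF J) ^ 2 / FF (J + 1) := by positivity
          linarith
    have e3 := ih m (t + 1) (nxt D 0) (by rw [nxt_self]; omega) (by rw [nxt_self]; omega)
      (by
        intro v hv1 hv2
        rw [nxt_ne D (by omega)]
        rcases Nat.lt_or_ge t v with h | h
        · rw [h4 v h]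
          have := β_lt_α J
          omega
        · exact h3 v hv1 h)
      (by
        intro v hv
        rw [nxt_ne D (by omega)]
        exact h4 v (by omega)) (by omega)
    have e4 : update (nxt D 0) 0 (nxt D 0 0 + n) = update D 0 (D 0 + (n + 1)) := by
      rw [nxt_self]
      unfold nxt
      rw [update_idem]
      congr 1
      ring
    rw [e4, show t + 1 + n = t + (n + 1) by ring] at e3
    have g1 : 0 ≤ 1 - q := by linarith
    have g2 := V_nonneg ff_pos c (m + n) (t + 1) (nxt D 0)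
    calc (1 - q) ^ (n + 1) * V ff c m (t + (n + 1)) (update D 0 (D 0 + (n + 1)))
        = (1 - q) * ((1 - q) ^ n * V ff c m (t + (n + 1)) (update D 0 (D 0 + (n + 1)))) := by ring
      _ ≤ (1 - q) * V ff c (m + n) (t + 1) (nxt D 0) := mul_le_mul_of_nonneg_left e3 g1
      _ ≤ ff (D 0) / Zf ff t D * V ff c (m + n) (t + 1) (nxt D 0) :=
          mul_le_mul_of_nonneg_right e2 g2
      _ ≤ _ := e1

lemma q_small (J : ℕ) : nn (J + 1) * (2 * nn (J + 1) * FF J / FF (J + 1)) ≤ 1 / 2 := by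
  have h4 : (nn (J + 1) : ℝ) = 2 ^ (s (J + 1)) := by unfold nn; push_cast; ring
  have h5 : FF (J + 1) = 2 ^ (s (J + 1)) * 2 ^ (s (J + 1)) * (2 ^ (s (J + 1)) *
      2 ^ (s (J + 1))) := by
    unfold FF; rw [← pow_add, ← pow_add]; congr 1; ring
  have h6 : 4 * s J + 2 ≤ s (J + 1) := by
    have h4 := s_succ_ge J
    have h5 := s_ge J
    have h7 : (s J) ^ 2 ≤ (s J) ^ 8 := Nat.pow_le_pow_right (by omega) (by norm_num)
    nlinarith
  have h7 : 4 * FF J ≤ 2 ^ (s (J + 1)) * 2 ^ (s (J + 1)) := by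
    have h8 : 4 * FF J = 2 ^ (4 * s J + 2) := by
      unfold FF; rw [pow_add]; ring
    rw [h8]
    calc (2:ℝ) ^ (4 * s J + 2) ≤ 2 ^ (s (J + 1)) := pow_le_pow_right₀ (by norm_num) h6
      _ ≤ 2 ^ (s (J + 1)) * 2 ^ (s (J + 1)) := by
        have : (1:ℝ) ≤ 2 ^ (s (J + 1)) := one_le_pow₀ (by norm_num)
        nlinarith
  rw [h4, h5]
  set x : ℝ := 2 ^ (s (J + 1)) with hx
  have hx0 : 0 < x := by positivity
  rw [← mul_div_assoc, div_le_iff₀ (by positivity)]
  have h8 : x * (2 * x * FF J) = (x * x) * (4 * FF J) / 2 := by ring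
  rw [h8]
  have h9 : (x * x) * (4 * FF J) ≤ (x * x) * (x * x) := mul_le_mul_of_nonneg_left h7 (by positivity)
  have h10 : x * x * (x * x) = (x * x) * (x * x) := rfl
  linarith

open Classical in
/-- number of non-leaves -/
noncomputable def NL (t : ℕ) (D : ℕ → ℕ) : ℕ := ((range (t + 1)).filter fun v => D v ≠ 0).card

/-- the condition: late, and a positive fraction of non-leaves -/
def cc (T : ℕ) (t : ℕ) (D : ℕ → ℕ) : Prop := T ≤ t ∧ (t:ℝ) / (96 * CC) ≤ NL t D

lemma Nl_le_NL (t0 t : ℕ) (D : ℕ → ℕ) : Nl t0 t D ≤ NL t D := by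
  classical
  unfold Nl NL
  rw [Finset.card_filter]
  have h1 : ∀ v, (if D v = 0 then 0 else 1) = if D v ≠ 0 then 1 else 0 := by
    intro v
    by_cases h : D v = 0 <;> simp [h]
  rw [Finset.sum_congr rfl fun v _ => h1 v]
  apply Finset.sum_le_sum_of_subset
  intro v hv
  rw [Finset.mem_Ioc] at hv
  rw [Finset.mem_range]
  omega

/-- the condition has a good probability from the entry of every late phase -/
theorem entry_prob {J T : ℕ} (hT : T ≤ nn (J + 1)) {m' t : ℕ} {D : ℕ → ℕ}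
    (hm' : 2 * nn (J + 1) ≤ m') (h : Entry J t D) : 1 / (4 * CC) ≤ V ff (cc T) m' t D := by
  obtain ⟨m, hm⟩ : ∃ m, 16 * m = nn (J + 1) := by
    have h1 := s_ge (J + 1)
    refine ⟨2 ^ (s (J + 1) - 4), ?_⟩
    unfold nn
    calc 16 * 2 ^ (s (J + 1) - 4) = 2 ^ 4 * 2 ^ (s (J + 1) - 4) := by norm_num
      _ = 2 ^ (4 + (s (J + 1) - 4)) := by rw [← pow_add]
      _ = 2 ^ (s (J + 1)) := by congr 1; omega
  have hN := nn_pos (J + 1)
  have ht := nu_lt_nn h.h6
  set q : ℝ := 2 * nn (J + 1) * FF J / FF (J + 1) with hq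
  have hq2 := q_small J
  rw [← hq] at hq2
  have hN' : (1:ℝ) ≤ nn (J + 1) := by exact_mod_cast hN
  have hq0 : 0 ≤ q := by
    rw [hq]; have := FF_pos J; have := FF_pos (J + 1); positivity
  have hq1 : q ≤ 1 := by nlinarith
  have h1 := burst (c := cc T) hq hq1 (nn (J + 1)) m t D h.h1.ge (by
      rw [h.h1, β_succ]) h.h4 h.h5 (by omega)
  have h2 : 1 / (2 * CC) ≤ V ff (cc T) m (t + nn (J + 1)) (update D 0 (D 0 + nn (J + 1))) := by
    apply window_prob hm h.h6
    · intro t' D' hW hNl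
      have hw1 := hW.w1
      refine ⟨by omega, ?_⟩
      have h3 : (Nl t t' D' : ℝ) ≤ NL t' D' := by exact_mod_cast Nl_le_NL t t' D'
      refine le_trans ?_ (hNl.trans h3)
      have h4 : t' ≤ 48 * m := by omega
      have h5 : (t' : ℝ) ≤ 48 * m := by exact_mod_cast h4
      have hC := CC_pos
      rw [div_le_div_iff₀ (by positivity) (by positivity)]
      nlinarith
    · rw [update_self, h.h1, β_succ]
    · intro v hv1 hv2
      rw [update_of_ne (by omega)]
      exact h.h4 v hv1 hv2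
    · intro v hv
      rw [update_of_ne (by omega)]
      exact h.h5 v hv
  have h3 : (1:ℝ) / 2 ≤ (1 - q) ^ (nn (J + 1)) := by
    have h4 := one_add_mul_le_pow (a := -q) (by linarith) (nn (J + 1))
    have h6 : (1 + -q) = (1 - q) := by ring
    rw [h6] at h4
    linarith
  have hC := CC_pos
  calc 1 / (4 * CC) = 1 / 2 * (1 / (2 * CC)) := by field_simp; ring
    _ ≤ (1 - q) ^ (nn (J + 1)) *
        V ff (cc T) m (t + nn (J + 1)) (update D 0 (D 0 + nn (J + 1))) :=
        mul_le_mul h3 h2 (by positivity) (by positivity)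
    _ ≤ V ff (cc T) (m + nn (J + 1)) t D := h1
    _ ≤ V ff (cc T) m' t D := V_mono ff_pos _ (by omega) _ _

lemma le_nn (T : ℕ) : T ≤ nn (T + 1) := by
  unfold nn
  have h1 : T < 2 ^ T := Nat.lt_two_pow_self
  have h2 : 2 ^ T ≤ 2 ^ (s (T + 1)) := by
    apply Nat.pow_le_pow_right (by norm_num)
    have h3 := s_ge_pow (T + 1)
    have h4 : T + 1 < 16 ^ (T + 1) := Nat.lt_pow_self (by norm_num)
    nlinarith
  omega

/-- from the starting degrees, late times with many non-leaves have a uniformly positive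
probability -/
theorem start_prob (T : ℕ) : ∃ m, 1 / (8 * CC) ≤ V ff (cc T) m (α 0) D0 := by
  have hC := CC_pos
  have h1 := V_start (J := T) (M := 2 * nn (T + 1)) (H := α 0 + (nu (T + 1) + 2 * nn (T + 1)))
    (m := nu (T + 1) + 2 * nn (T + 1)) (c := cc T) (p := 1 / (4 * CC)) (by positivity)
    (fun m t D hm h => entry_prob (le_nn T) hm h) (by omega) rfl
  refine ⟨_, le_trans (le_of_eq ?_) h1⟩
  field_simp
  ring

end Pool.Agent.Q287.LD
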