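import Pool.Agent.Q287.LD7

/-! Leaf density in fitness recursive trees: definitions of the model and link with the chain. -/

open MeasureTheory ProbabilityTheory Filter Finset Function
open scoped NNReal ENNReal Topology

namespace Pool.Agent.Q287.LD

section Defs

variable {Ω : Type*}

/-- `Q s ω` is the vertex chosen at the step `s` (from `T_s` to `T_{s+1}`); its new children are the
vertices `ℓ s + 1, …, ℓ s + ℓ`, so that for `i < ℓ t` the vertex `i + 1` of `T_t` is a child of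
`Q (i / ℓ)`.  `outDeg ℓ Q t v` is the out-degree of `v` in `T_t`, whose vertices are
`0, …, ℓ t`. -/
def outDeg (ℓ : ℕ) (Q : ℕ → Ω → ℕ) (t v : ℕ) (ω : Ω) : ℕ :=
  ((Finset.range (ℓ * t)).filter fun i => Q (i / ℓ) ω = v).card

/-- The total fitness `Z_t` of the vertices `0, …, ℓ t` of `T_t`; `W v` is the weight of `v`. -/
noncomputable def totalFit (f : ℕ → ℝ≥0 → ℝ≥0) (ℓ : ℕ) (W : ℕ → Ω → ℝ≥0) (Q : ℕ → Ω → ℕ)
    (t : ℕ) (ω : Ω) : ℝ≥0 :=
  ∑ v ∈ Finset.range (ℓ * t + 1), f (outDeg ℓ Q t v ω / ℓ) (W v ω)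

/-- The σ-algebra generated by the first `n` weights `W 0, …, W (n - 1)` and the first `t` choices
`Q 0, …, Q (t - 1)`. -/
@[reducible] def past (W : ℕ → Ω → ℝ≥0) (Q : ℕ → Ω → ℕ) (n t : ℕ) : MeasurableSpace Ω :=
  (⨆ i ∈ Finset.range n, MeasurableSpace.comap (W i) inferInstance) ⊔
    (⨆ s ∈ Finset.range t, MeasurableSpace.comap (Q s) inferInstance)

/-- `(W, Q)` is a `(μ, f, ℓ)`-recursive tree with independent fitnesses. -/
structure IsRecTree [MeasurableSpace Ω] (μ : Measure ℝ≥0) (f : ℕ → ℝ≥0 → ℝ≥0) (ℓ : ℕ)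
    (P : Measure Ω) (W : ℕ → Ω → ℝ≥0) (Q : ℕ → Ω → ℕ) : Prop where
  /-- the weights and the choices are random variables -/
  meas_W : ∀ i, Measurable (W i)
  meas_Q : ∀ t, Measurable (Q t)
  /-- every weight has the law `μ` -/
  law_W : ∀ i, P.map (W i) = μ
  /-- the weight of a vertex born at the step `t` is independent of all the earlier weights and of
  the choices up to (and including) the step `t` -/
  fresh : ∀ t i, ℓ * t < i → i ≤ ℓ * (t + 1) →
    Indep (MeasurableSpace.comap (W i) inferInstance) (past W Q i (t + 1)) P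
  /-- the choice at the step `t` is a vertex of `T_t` -/
  vertex : ∀ t, ∀ᵐ ω ∂P, Q t ω ≤ ℓ * t
  /-- given the weighted tree `T_t`, the vertex `v` is chosen with probability
  `f (deg⁺(v, T_t) / ℓ, W_v) / Z_t` -/
  choice : ∀ t v, v ≤ ℓ * t →
    P[Set.indicator {ω | Q t ω = v} (fun _ => (1 : ℝ)) | past W Q (ℓ * t + 1) t] =ᵐ[P]
      fun ω => (f (outDeg ℓ Q t v ω / ℓ) (W v ω) : ℝ) / (totalFit f ℓ W Q t ω : ℝ)

open Classical in
/-- `N_k(t, B)`: the number of vertices of `T_t` with out-degree `k ℓ` and weight in `B`. -/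
noncomputable def numDeg (ℓ : ℕ) (W : ℕ → Ω → ℝ≥0) (Q : ℕ → Ω → ℕ) (k t : ℕ) (B : Set ℝ≥0)
    (ω : Ω) : ℕ :=
  ((Finset.range (ℓ * t + 1)).filter fun v => outDeg ℓ Q t v ω = k * ℓ ∧ W v ω ∈ B).card

end Defs

/-- `m(λ) = ℓ ∑_{n ≥ 1} E[∏_{j < n} f(j, W) / (λ + f(j, W))]`. -/
noncomputable def mMal (μ : Measure ℝ≥0) (f : ℕ → ℝ≥0 → ℝ≥0) (ℓ : ℕ) (lam : ℝ≥0) : ℝ≥0∞ :=
  ℓ * ∑' n : ℕ, ∫⁻ w, ((∏ j ∈ Finset.range (n + 1), f j w / (lam + f j w) : ℝ≥0) : ℝ≥0∞) ∂μ

/-- The Malthusian parameter `α = inf {λ > 0 : m(λ) < ∞}` (`= ∞` if there is no such `λ`). -/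
noncomputable def malthus (μ : Measure ℝ≥0) (f : ℕ → ℝ≥0 → ℝ≥0) (ℓ : ℕ) : ℝ≥0∞ :=
  ⨅ (lam : ℝ≥0) (_ : 0 < lam) (_ : mMal μ f ℓ lam < ⊤), (lam : ℝ≥0∞)

/-- degrees along a path -/
def Dg (a : ℕ → ℕ) (t : ℕ) : ℕ → ℕ := fun v => ((Finset.range t).filter fun s => a s = v).card

lemma Dg_congr {a b : ℕ → ℕ} {t : ℕ} (h : ∀ s, s < t → a s = b s) : Dg a t = Dg b t := by
  funext v
  unfold Dg
  congr 1
  apply Finset.filter_congr
  intro s hs
  rw [Finset.mem_range] at hs
  rw [h s hs]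

lemma Dg_update (a : ℕ → ℕ) (t v : ℕ) : Dg (update a t v) (t + 1) = nxt (Dg a t) v := by
  have h0 : Dg (update a t v) t = Dg a t := Dg_congr fun s hs => update_of_ne hs.ne _ _
  funext u
  have h1 : Dg (update a t v) (t + 1) u = Dg (update a t v) t u + if v = u then 1 else 0 := by
    unfold Dg
    rw [Finset.range_add_one, Finset.filter_insert, update_self]
    split_ifs with h
    · rw [Finset.card_insert_of_notMem]
      simp
    · rfl
  rw [h1, h0]
  unfold nxt
  by_cases h : v = u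
  · subst h; simp
  · rw [if_neg h, update_of_ne (Ne.symm h)]; rfl

/-- the attachment function as a fitness function -/
noncomputable def f0 : ℕ → ℝ≥0 → ℝ≥0 := fun k _ => ⟨ff k, (ff_pos k).le⟩

lemma f0_coe (k : ℕ) (w : ℝ≥0) : ((f0 k w : ℝ≥0) : ℝ) = ff k := rfl

section Link

variable {Ω : Type*} [mΩ : MeasurableSpace Ω] {P : Measure Ω} [IsProbabilityMeasure P]
  {W : ℕ → Ω → ℝ≥0} {Q : ℕ → Ω → ℕ} {μ : Measure ℝ≥0}

omit mΩ in
lemma outDeg_one (t v : ℕ) (ω : Ω) : outDeg 1 Q t v ω = Dg (fun s => Q s ω) t v := by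
  simp [outDeg, Dg]

/-- cylinder sets -/
def Cyl (Q : ℕ → Ω → ℕ) (t : ℕ) (a : ℕ → ℕ) : Set Ω := {ω | ∀ s, s < t → Q s ω = a s}

omit mΩ in
lemma Cyl_meas_past (t n : ℕ) (a : ℕ → ℕ) : MeasurableSet[past W Q n t] (Cyl Q t a) := by
  have : Cyl Q t a = ⋂ s ∈ Finset.range t, Q s ⁻¹' {a s} := by
    ext ω; simp [Cyl]
  rw [this]
  apply Finset.measurableSet_biInter
  intro s hs
  have h1 : MeasurableSpace.comap (Q s) inferInstance ≤ past W Q n t := by
    unfold past
    refine le_trans ?_ le_sup_right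
    exact le_iSup₂ (f := fun s (_ : s ∈ Finset.range t) =>
      MeasurableSpace.comap (Q s) inferInstance) s hs
  exact h1 _ ⟨{a s}, MeasurableSet.singleton _, rfl⟩

lemma past_le (hW : ∀ i, Measurable (W i)) (hQ : ∀ t, Measurable (Q t)) (n t : ℕ) :
    past W Q n t ≤ mΩ := by
  unfold past
  apply sup_le
  · exact iSup₂_le fun i _ => (hW i).comap_le
  · exact iSup₂_le fun i _ => (hQ i).comap_le

lemma Cyl_meas (hQ : ∀ t, Measurable (Q t)) (t : ℕ) (a : ℕ → ℕ) : MeasurableSet (Cyl Q t a) := by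
  have : Cyl Q t a = ⋂ s ∈ Finset.range t, Q s ⁻¹' {a s} := by
    ext ω; simp [Cyl]
  rw [this]
  apply Finset.measurableSet_biInter
  intro s _
  exact hQ s (MeasurableSet.singleton _)

omit mΩ in
lemma Cyl_succ (t v : ℕ) (a : ℕ → ℕ) :
    Cyl Q (t + 1) (update a t v) = Cyl Q t a ∩ {ω | Q t ω = v} := by
  ext ω
  simp only [Cyl, Set.mem_ofPred_eq, Set.mem_inter_iff]
  constructor
  · intro h
    refine ⟨fun s hs => ?_, ?_⟩
    · rw [h s (by omega), update_of_ne hs.ne]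
    · rw [h t (Nat.lt_succ_self t), update_self]
  · rintro ⟨h1, h2⟩ s hs
    rcases Nat.lt_succ_iff_lt_or_eq.1 hs with h3 | h3
    · rw [h1 s h3, update_of_ne h3.ne]
    · subst h3
      rw [h2, update_self]

lemma cyl_step (h : IsRecTree μ f0 1 P W Q) (t v : ℕ) (a : ℕ → ℕ) (hv : v ≤ t) :
    P.real (Cyl Q (t + 1) (update a t v)) =
      P.real (Cyl Q t a) * (ff (Dg a t v) / Zf ff t (Dg a t)) := by
  have hm := past_le h.meas_W h.meas_Q (1 * t + 1) t
  have hc := h.choice t v (by omega)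
  have hmQ : MeasurableSet {ω | Q t ω = v} := h.meas_Q t (MeasurableSet.singleton _)
  have hi : Integrable (Set.indicator {ω | Q t ω = v} (fun _ => (1 : ℝ))) P :=
    (integrable_const _).indicator hmQ
  have h1 := setIntegral_condExp hm hi (Cyl_meas_past (W := W) (Q := Q) t (1 * t + 1) a)
  have h2 : ∫ ω in Cyl Q t a, (P[Set.indicator {ω | Q t ω = v} (fun _ => (1 : ℝ)) |
      past W Q (1 * t + 1) t]) ω ∂P = ∫ ω in Cyl Q t a, (ff (Dg a t v) / Zf ff t (Dg a t)) ∂P := by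
    apply setIntegral_congr_ae (Cyl_meas h.meas_Q t a)
    filter_upwards [hc] with ω hω hmem
    rw [hω]
    have h3 : ∀ u, outDeg 1 Q t u ω = Dg a t u := by
      intro u
      rw [outDeg_one, Dg_congr (b := a) (fun s hs => hmem s hs)]
    have h4 : (totalFit f0 1 W Q t ω : ℝ) = Zf ff t (Dg a t) := by
      unfold totalFit Zf
      push_cast
      rw [one_mul]
      apply Finset.sum_congr rfl
      intro u _
      rw [h3, Nat.div_one, f0_coe]
    rw [h4, h3, Nat.div_one, f0_coe]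
  rw [h2] at h1
  rw [Cyl_succ]
  have h3 : ∫ ω in Cyl Q t a, Set.indicator {ω | Q t ω = v} (fun _ => (1 : ℝ)) ω ∂P =
      P.real (Cyl Q t a ∩ {ω | Q t ω = v}) := by
    rw [setIntegral_indicator hmQ]
    simp
  rw [h3] at h1
  rw [← h1, setIntegral_const, smul_eq_mul]

lemma meas_pred (hQ : ∀ t, Measurable (Q t)) (s : ℕ) (p : (ℕ → ℕ) → Prop)
    (hp : ∀ a b, (∀ i, i < s → a i = b i) → (p a ↔ p b)) :
    MeasurableSet {ω | p (fun i => Q i ω)} := by
  have hg : Measurable (fun ω => (fun i : Fin s => Q i ω)) := measurable_pi_iff.2 fun i => hQ i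
  have : {ω | p (fun i => Q i ω)} = (fun ω => (fun i : Fin s => Q i ω)) ⁻¹'
      {x | p (fun i => if h : i < s then x ⟨i, h⟩ else 0)} := by
    ext ω
    simp only [Set.mem_ofPred_eq, Set.mem_preimage]
    apply hp
    intro i hi
    simp [hi]
  rw [this]
  exact hg (MeasurableSet.of_discrete)

/-- the event that the condition holds at some time after `t` -/
def Ev (Q : ℕ → Ω → ℕ) (c : ℕ → (ℕ → ℕ) → Prop) (t : ℕ) : Set Ω :=
  {ω | ∃ s, t ≤ s ∧ c s (Dg (fun i => Q i ω) s)}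

lemma Ev_meas (hQ : ∀ t, Measurable (Q t)) (c : ℕ → (ℕ → ℕ) → Prop) (t : ℕ) :
    MeasurableSet (Ev Q c t) := by
  have : Ev Q c t = ⋃ s : ℕ, {ω | t ≤ s ∧ c s (Dg (fun i => Q i ω) s)} := by
    ext ω; simp [Ev]
  rw [this]
  apply MeasurableSet.iUnion
  intro s
  apply meas_pred hQ s (fun a => t ≤ s ∧ c s (Dg a s))
  intro a b hab
  rw [Dg_congr hab]

theorem V_le_prob (h : IsRecTree μ f0 1 P W Q) (c : ℕ → (ℕ → ℕ) → Prop) : ∀ m t a,
    P.real (Cyl Q t a) * V ff c m t (Dg a t) ≤ P.real (Cyl Q t a ∩ Ev Q c t) := by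
  have key : ∀ t a, c t (Dg a t) → Cyl Q t a ∩ Ev Q c t = Cyl Q t a := by
    intro t a hc
    apply Set.inter_eq_left.2
    intro ω hω
    refine ⟨t, le_rfl, ?_⟩
    rw [Dg_congr (b := a) (fun s hs => hω s hs)]
    exact hc
  intro m
  induction m with
  | zero =>
    intro t a
    rw [V]
    split_ifs with hc
    · rw [key t a hc, mul_one]
    · rw [mul_zero]; exact measureReal_nonneg
  | succ m ih =>
    intro t a
    rw [V]
    split_ifs with hc
    · rw [key t a hc, mul_one]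
    · unfold E1
      rw [Finset.mul_sum]
      have h1 : ∀ v ∈ Finset.range (t + 1), P.real (Cyl Q t a) * (ff (Dg a t v) /
          Zf ff t (Dg a t) * V ff c m (t + 1) (nxt (Dg a t) v)) ≤
          P.real (Cyl Q (t + 1) (update a t v) ∩ Ev Q c (t + 1)) := by
        intro v hv
        rw [Finset.mem_range] at hv
        rw [← mul_assoc, ← cyl_step h t v a (by omega), ← Dg_update]
        exact ih (t + 1) (update a t v)
      refine (Finset.sum_le_sum h1).trans ?_
      rw [← measureReal_biUnion_finset]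
      · apply measureReal_mono
        · intro ω hω
          simp only [Set.mem_iUnion] at hω
          obtain ⟨v, _, hω1, s, hs, hcs⟩ := hω
          rw [Cyl_succ] at hω1
          exact ⟨hω1.1, s, by omega, hcs⟩
        · exact measure_ne_top _ _
      · intro v _ v' _ hvv
        rw [Function.onFun, Set.disjoint_left]
        rintro ω ⟨h2, _⟩ ⟨h3, _⟩
        rw [Cyl_succ] at h2 h3
        exact hvv (h2.2.symm.trans h3.2)
      · intro v _
        exact (Cyl_meas h.meas_Q _ _).inter (Ev_meas h.meas_Q _ _)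

lemma cyl_pos (h : IsRecTree μ f0 1 P W Q) : ∀ t, 0 < P.real (Cyl Q t (fun _ => 0)) := by
  intro t
  induction t with
  | zero =>
    have : Cyl Q 0 (fun _ => 0) = Set.univ := by
      ext ω; simp [Cyl]
    rw [this]; simp
  | succ t ih =>
    have h1 := cyl_step h t 0 (fun _ => 0) (Nat.zero_le _)
    have h2 : update (fun _ => 0 : ℕ → ℕ) t 0 = fun _ => 0 := by
      funext s; by_cases hs : s = t
      · subst hs; simp
      · rw [update_of_ne hs]
    rw [h2] at h1
    rw [h1]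
    exact mul_pos ih (div_pos (ff_pos _) (Zf_pos ff_pos _ _))

lemma Dg_zero (t : ℕ) : Dg (fun _ => 0) t = fun v => if v = 0 then t else 0 := by
  funext v
  unfold Dg
  by_cases h : v = 0
  · subst h; simp
  · rw [if_neg h, Finset.card_eq_zero, Finset.filter_eq_empty_iff]
    intro s _
    exact fun h' => h h'.symm

/-- the probability that a positive fraction of non-leaves occurs infinitely often -/
theorem prob_inf (h : IsRecTree μ f0 1 P W Q) :
    0 < P {ω | ∀ T : ℕ, ∃ s : ℕ, T ≤ s ∧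
      (s:ℝ) / (96 * CC) ≤ NL s (Dg (fun i => Q i ω) s)} := by
  set G : ℕ → Set Ω := fun T => Ev Q (cc T) (α 0) with hG
  have hC := CC_pos
  set δ : ℝ := P.real (Cyl Q (α 0) (fun _ => 0)) * (1 / (8 * CC)) with hδ
  have hδ0 : 0 < δ := mul_pos (cyl_pos h _) (by positivity)
  have h1 : ∀ T, δ ≤ P.real (G T) := by
    intro T
    obtain ⟨m, hm⟩ := start_prob T
    have h2 := V_le_prob h (cc T) m (α 0) (fun _ => 0)
    have h3 : Dg (fun _ => 0) (α 0) = D0 := Dg_zero (α 0)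
    rw [h3] at h2
    calc δ ≤ P.real (Cyl Q (α 0) (fun _ => 0)) * V ff (cc T) m (α 0) D0 :=
          mul_le_mul_of_nonneg_left hm measureReal_nonneg
      _ ≤ P.real (Cyl Q (α 0) (fun _ => 0) ∩ Ev Q (cc T) (α 0)) := h2
      _ ≤ P.real (G T) := measureReal_mono Set.inter_subset_right (measure_ne_top _ _)
  have hanti : Antitone G := by
    intro T T' hT ω hω
    obtain ⟨s, hs, hc⟩ := hω
    exact ⟨s, hs, hT.trans hc.1, hc.2⟩
  have hmeas : ∀ T, NullMeasurableSet (G T) P := fun T =>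
    (Ev_meas h.meas_Q _ _).nullMeasurableSet
  have hlim := tendsto_measure_iInter_atTop hmeas hanti ⟨0, measure_ne_top _ _⟩
  have h2 : ENNReal.ofReal δ ≤ P (⋂ T, G T) := by
    apply ge_of_tendsto' hlim
    intro T
    have h3 := h1 T
    rw [Measure.real] at h3
    exact (ENNReal.ofReal_le_iff_le_toReal (measure_ne_top _ _)).2 h3
  have h3 : 0 < P (⋂ T, G T) := lt_of_lt_of_le (ENNReal.ofReal_pos.2 hδ0) h2
  refine h3.trans_le (measure_mono ?_)
  intro ω hω T
  rw [Set.mem_iInter] at hω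
  obtain ⟨s, _, hc⟩ := hω T
  exact ⟨s, hc.1, hc.2⟩

lemma numDeg_add (t : ℕ) (ω : Ω) :
    numDeg 1 W Q 0 t Set.univ ω + NL t (Dg (fun i => Q i ω) t) = t + 1 := by
  classical
  have e1 : numDeg 1 W Q 0 t Set.univ ω = ((Finset.range (t + 1)).filter fun v =>
      Dg (fun i => Q i ω) t v = 0).card := by
    unfold numDeg
    rw [one_mul]
    congr 1
    ext v
    simp [outDeg_one]
  have e2 : NL t (Dg (fun i => Q i ω) t) = ((Finset.range (t + 1)).filter fun v =>
      ¬ Dg (fun i => Q i ω) t v = 0).card := by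
    unfold NL
    congr 1
  have h2 := Finset.card_filter_add_card_filter_not (s := Finset.range (t + 1))
    (fun v => Dg (fun i => Q i ω) t v = 0)
  rw [Finset.card_range] at h2
  rw [e1, e2]
  exact h2

theorem prob_pos (h : IsRecTree μ f0 1 P W Q) :
    0 < P {ω | ¬ Tendsto (fun t : ℕ => (numDeg 1 W Q 0 t Set.univ ω : ℝ) / ((1:ℕ) * t)) atTop
      (𝓝 1)} := by
  refine (prob_inf h).trans_le (measure_mono ?_)
  intro ω hω hT
  have hC := CC_pos
  set x : ℝ := 1 / (96 * CC) with hx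
  have hx0 : 0 < x := by positivity
  have h1 : ∀ᶠ t : ℕ in atTop, 1 - x / 2 <
      (numDeg 1 W Q 0 t Set.univ ω : ℝ) / ((1:ℕ) * t) :=
    hT.eventually (lt_mem_nhds (by linarith))
  rw [eventually_atTop] at h1
  obtain ⟨T0, hT0⟩ := h1
  obtain ⟨n, hn⟩ := exists_nat_gt (2 / x)
  obtain ⟨s, hs, hc⟩ := hω (max (T0 + 1) n)
  have hs1 : T0 ≤ s := by have := le_max_left (T0 + 1) n; omega
  have hs2 : n ≤ s := (le_max_right (T0 + 1) n).trans hs
  have hs0 : 0 < s := by have := le_max_left (T0 + 1) n; omega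
  have hs0' : (0:ℝ) < s := by exact_mod_cast hs0
  have h2 := hT0 s hs1
  have h3 : ((numDeg 1 W Q 0 s Set.univ ω : ℕ) : ℝ) + NL s (Dg (fun i => Q i ω) s) = s + 1 := by
    exact_mod_cast numDeg_add s ω
  rw [Nat.cast_one, one_mul, lt_div_iff₀ hs0'] at h2
  have h4 : (s:ℝ) / (96 * CC) = x * s := by rw [hx]; ring
  rw [h4] at hc
  have h5 : 2 / x < s := lt_of_lt_of_le hn (by exact_mod_cast hs2)
  rw [div_lt_iff₀ hx0] at h5
  nlinarith

end Link

end Pool.Agent.Q287.LD
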