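import Pool.Agent.Q287.LD8

/-! Leaf density in fitness recursive trees: the Malthusian parameter, and existence of the tree. -/

open MeasureTheory ProbabilityTheory Filter Finset Function
open scoped NNReal ENNReal Topology

namespace Pool.Agent.Q287.LD

section Malthus

lemma prod_eq (lam : ℝ≥0) (n : ℕ) :
    ((∏ j ∈ Finset.range n, f0 j 0 / (lam + f0 j 0) : ℝ≥0) : ℝ) = (psi lam n)⁻¹ := by
  unfold psi
  rw [← Finset.prod_inv_distrib]
  push_cast
  apply Finset.prod_congr rfl
  intro j _
  rw [f0_coe]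
  have h1 := ff_pos j
  have h2 : (0:ℝ) ≤ lam := lam.2
  have h3 : (lam:ℝ) + ff j ≠ 0 := by positivity
  have h4 : 1 + (lam:ℝ) / ff j ≠ 0 := by positivity
  field_simp
  ring

lemma num_ineq (j : ℕ) : j * (3 * j + 4) + j ≤ 512 * 16 ^ j := by
  have h1 : j ≤ 2 ^ j := Nat.lt_two_pow_self.le
  have h2 : (16:ℕ) ^ j = 2 ^ j * 2 ^ j * (2 ^ j * 2 ^ j) := by
    rw [← pow_add, ← pow_add, show j + j + (j + j) = 4 * j by ring, pow_mul]; norm_num
  rw [h2]
  have h3 : 1 ≤ 2 ^ j := Nat.one_le_two_pow
  set x := 2 ^ j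
  have h4 : j * j ≤ x * x := Nat.mul_le_mul h1 h1
  have h5 : x * x ≤ x * x * (x * x) := by nlinarith [Nat.mul_le_mul h3 h3]
  have h6 : x ≤ x * x := by nlinarith
  nlinarith

lemma mMal_ge {lam : ℝ≥0} {j : ℕ} (hj : (lam : ℝ) ≤ j) :
    (j : ℝ≥0∞) ≤ mMal (Measure.dirac 0) f0 1 lam := by
  unfold mMal
  rw [Nat.cast_one, one_mul]
  have e1 : ∀ n : ℕ, ∫⁻ w, ((∏ j ∈ Finset.range (n + 1), f0 j w / (lam + f0 j w) : ℝ≥0) : ℝ≥0∞)
      ∂(Measure.dirac (0 : ℝ≥0)) =
      ((∏ j ∈ Finset.range (n + 1), f0 j 0 / (lam + f0 j 0) : ℝ≥0) : ℝ≥0∞) := by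
    intro n
    have : ∀ w : ℝ≥0, ((∏ j ∈ Finset.range (n + 1), f0 j w / (lam + f0 j w) : ℝ≥0) : ℝ≥0∞) =
      ((∏ j ∈ Finset.range (n + 1), f0 j 0 / (lam + f0 j 0) : ℝ≥0) : ℝ≥0∞) := fun w => rfl
    rw [lintegral_congr this, lintegral_const, measure_univ, mul_one]
  simp_rw [e1]
  refine le_trans ?_ (ENNReal.sum_le_tsum (Finset.range (nn j)))
  rw [← ENNReal.ofNNReal_finsetSum]
  have e2 : (j : ℝ≥0) ≤ ∑ n ∈ Finset.range (nn j),
      ∏ j ∈ Finset.range (n + 1), f0 j 0 / (lam + f0 j 0) := by
    rw [← NNReal.coe_le_coe, NNReal.coe_sum]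
    simp_rw [prod_eq]
    have h1 : ∀ n ∈ Finset.range (nn j), Real.exp (-((lam:ℝ) * (3 * j + 4))) ≤
        (psi lam (n + 1))⁻¹ := by
      intro n hn
      rw [Finset.mem_range] at hn
      rw [Real.exp_neg]
      apply inv_anti₀ (psi_pos lam.2 _)
      have h2 : psi lam (n + 1) ≤ psi lam (β (j + 1)) := by
        apply psi_mono lam.2
        rw [β_succ]; omega
      refine h2.trans ((psi_le_exp lam.2 _).trans ?_)
      apply Real.exp_le_exp.2
      apply mul_le_mul_of_nonneg_left _ lam.2
      have h3 := sum_inv_le' (j + 1)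
      push_cast at h3
      linarith
    refine le_trans ?_ (Finset.sum_le_sum h1)
    rw [Finset.sum_const, Finset.card_range, nsmul_eq_mul]
    have h2 : Real.exp ((s j : ℝ) / 2) ≤ nn j := by
      unfold nn
      have h3 : ((2 ^ (s j) : ℕ) : ℝ) = Real.exp ((s j : ℝ) * Real.log 2) := by
        rw [Real.exp_nat_mul, Real.exp_log (by norm_num)]; push_cast; ring
      rw [h3]
      apply Real.exp_le_exp.2
      have := Real.log_two_gt_d9
      have h4 : (0:ℝ) ≤ s j := Nat.cast_nonneg _
      nlinarith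
    have h3 : (j:ℝ) * (3 * j + 4) + j ≤ 512 * 16 ^ j := by exact_mod_cast num_ineq j
    have h4 : (1024:ℝ) * 16 ^ j ≤ s j := by exact_mod_cast s_ge_pow j
    have h5 : (lam:ℝ) * (3 * j + 4) ≤ j * (3 * j + 4) :=
      mul_le_mul_of_nonneg_right hj (by positivity)
    calc ((j : ℝ≥0) : ℝ) = j := by simp
      _ ≤ Real.exp j := by have := Real.add_one_le_exp (j:ℝ); linarith
      _ ≤ Real.exp ((s j : ℝ) / 2 + -((lam:ℝ) * (3 * j + 4))) := Real.exp_le_exp.2 (by linarith)
      _ = Real.exp ((s j : ℝ) / 2) * Real.exp (-((lam:ℝ) * (3 * j + 4))) := Real.exp_add _ _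
      _ ≤ _ := mul_le_mul_of_nonneg_right h2 (Real.exp_pos _).le
  exact_mod_cast e2

lemma mMal_top (lam : ℝ≥0) : mMal (Measure.dirac 0) f0 1 lam = ⊤ := by
  by_contra hne
  obtain ⟨n, hn⟩ := ENNReal.exists_nat_gt hne
  obtain ⟨k, hk⟩ := exists_nat_ge (lam : ℝ)
  have h1 : (lam : ℝ) ≤ ((max n k : ℕ) : ℝ) := hk.trans (by exact_mod_cast le_max_right n k)
  have h2 := mMal_ge h1
  have h3 : (n : ℝ≥0∞) ≤ ((max n k : ℕ) : ℝ≥0∞) := by exact_mod_cast le_max_left n k
  exact absurd (h3.trans h2) (not_le.2 hn)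

theorem malthus_top : malthus (Measure.dirac 0) f0 1 = ⊤ := by
  unfold malthus
  simp [mMal_top]

end Malthus

section Exist

/-- the law of the next choice -/
noncomputable def st (t : ℕ) (D : ℕ → ℕ) : Measure ℕ :=
  ∑ v ∈ Finset.range (t + 1), ENNReal.ofReal (ff (D v) / Zf ff t D) • Measure.dirac v

lemma st_apply (t : ℕ) (D : ℕ → ℕ) (v : ℕ) :
    st t D {v} = if v ≤ t then ENNReal.ofReal (ff (D v) / Zf ff t D) else 0 := by
  unfold st
  rw [Measure.finsetSum_apply]
  simp only [Measure.smul_apply, smul_eq_mul]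
  have h1 : ∀ u ∈ Finset.range (t + 1), ENNReal.ofReal (ff (D u) / Zf ff t D) *
      (Measure.dirac u) {v} = if u = v then ENNReal.ofReal (ff (D v) / Zf ff t D) else 0 := by
    intro u _
    rw [Measure.dirac_apply' _ (MeasurableSet.singleton _)]
    by_cases h : u = v
    · subst h; simp
    · rw [if_neg h]; simp [h]
  rw [Finset.sum_congr rfl h1, Finset.sum_ite_eq']
  simp only [Finset.mem_range, Nat.lt_succ_iff]

instance st_prob (t : ℕ) (D : ℕ → ℕ) : IsProbabilityMeasure (st t D) := by
  constructor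
  unfold st
  rw [Measure.finsetSum_apply]
  simp only [Measure.smul_apply, measure_univ, smul_eq_mul, mul_one]
  rw [← ENNReal.ofReal_sum_of_nonneg, sum_prob ff_pos, ENNReal.ofReal_one]
  intro v _
  exact div_nonneg (ff_pos _).le (Zf_pos ff_pos _ _).le

/-- the kernels -/
noncomputable def ker (n : ℕ) : Kernel ((i : Finset.Iic n) → ℕ) ℕ where
  toFun x := st n (Dg (fun s => if h : s + 1 ≤ n then x ⟨s + 1, Finset.mem_Iic.2 h⟩ else 0) n)
  measurable' := Measurable.of_discrete

instance (n : ℕ) : IsMarkovKernel (ker n) := ⟨fun _ => st_prob _ _⟩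

/-- the law of the tree -/
noncomputable def PP : Measure (ℕ → ℕ) := Kernel.traj (X := fun _ => ℕ) ker 0 (fun _ => 0)

instance : IsProbabilityMeasure PP := by unfold PP; infer_instance

/-- the choices -/
def QQ : ℕ → (ℕ → ℕ) → ℕ := fun t x => x (t + 1)

/-- the weights -/
def WW : ℕ → (ℕ → ℕ) → ℝ≥0 := fun _ _ => 0

lemma QQ_meas (t : ℕ) : Measurable (QQ t) := measurable_pi_apply _

lemma condExp_step (t v : ℕ) :
    PP[Set.indicator {ω | QQ t ω = v} (fun _ => (1 : ℝ)) | Filtration.piLE (X := fun _ => ℕ) t]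
      =ᵐ[PP] fun x => if v ≤ t then ff (Dg (fun s => QQ s x) t v) /
        Zf ff t (Dg (fun s => QQ s x) t) else 0 := by
  have hmQ : MeasurableSet {ω : ℕ → ℕ | QQ t ω = v} := QQ_meas t (MeasurableSet.singleton _)
  have hi : Integrable (Set.indicator {ω | QQ t ω = v} (fun _ => (1 : ℝ))) PP :=
    (integrable_const _).indicator hmQ
  have h1 := Kernel.condExp_traj (X := fun _ => ℕ) (κ := ker) (Nat.zero_le t) hi
  refine h1.trans (Eventually.of_forall ?_)
  intro x
  simp only
  rw [integral_indicator hmQ, integral_const, smul_eq_mul, mul_one]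
  have h2 : ((Kernel.traj (X := fun _ => ℕ) ker t (Preorder.frestrictLe t x)).restrict
      {ω | QQ t ω = v}).real Set.univ = (ker t (Preorder.frestrictLe t x)).real {v} := by
    rw [measureReal_restrict_apply_univ]
    have h3 := Kernel.map_traj_succ_self (X := fun _ => ℕ) (κ := ker) (a := t)
    rw [← h3, Kernel.map_apply _ (measurable_pi_apply _)]
    rw [map_measureReal_apply (measurable_pi_apply _) (MeasurableSet.singleton _)]
    rfl
  rw [h2]
  have h4 : ker t (Preorder.frestrictLe t x) = st t (Dg (fun s => QQ s x) t) := by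
    change st t _ = _
    congr 1
    apply Dg_congr
    intro s hs
    rw [dif_pos (by omega)]
    rfl
  rw [h4, Measure.real, st_apply]
  split_ifs with h
  · rw [ENNReal.toReal_ofReal]
    exact div_nonneg (ff_pos _).le (Zf_pos ff_pos _ _).le
  · simp

lemma past_le_piLE (n t : ℕ) :
    past WW QQ n t ≤ Filtration.piLE (X := fun _ => ℕ) t := by
  unfold past
  apply sup_le
  · apply iSup₂_le
    intro i _
    have : MeasurableSpace.comap (WW i) inferInstance = (⊥ : MeasurableSpace (ℕ → ℕ)) :=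
      MeasurableSpace.comap_const _
    rw [this]
    exact bot_le
  · apply iSup₂_le
    intro s hs
    rw [Finset.mem_range] at hs
    rw [Filtration.piLE_eq_comap_frestrictLe]
    have : QQ s = (fun y : (i : Finset.Iic t) → ℕ => y ⟨s + 1, Finset.mem_Iic.2 hs⟩) ∘
      Preorder.frestrictLe (π := fun _ => ℕ) t := rfl
    rw [this, ← MeasurableSpace.comap_comp]
    exact MeasurableSpace.comap_mono (measurable_pi_apply _).comap_le

lemma g_meas (n t v : ℕ) : StronglyMeasurable[past WW QQ n t]
    (fun x : ℕ → ℕ => ff (Dg (fun s => QQ s x) t v) / Zf ff t (Dg (fun s => QQ s x) t)) := by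
  have h1 : @Measurable (ℕ → ℕ) (Fin t → ℕ) (past WW QQ n t) _
      (fun x : ℕ → ℕ => (fun i : Fin t => QQ i x)) := by
    refine @measurable_pi_lambda _ _ _ (past WW QQ n t) _ _ ?_
    intro i
    have h2 : MeasurableSpace.comap (QQ i) inferInstance ≤ past WW QQ n t := by
      unfold past
      refine le_trans ?_ le_sup_right
      exact le_iSup₂ (f := fun s (_ : s ∈ Finset.range t) =>
        MeasurableSpace.comap (QQ s) inferInstance) (i : ℕ) (Finset.mem_range.2 i.2)
    exact measurable_iff_comap_le.2 h2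
  have h2 : (fun x : ℕ → ℕ => ff (Dg (fun s => QQ s x) t v) / Zf ff t (Dg (fun s => QQ s x) t)) =
      (fun y : Fin t → ℕ => ff (Dg (fun s => if h : s < t then y ⟨s, h⟩ else 0) t v) /
        Zf ff t (Dg (fun s => if h : s < t then y ⟨s, h⟩ else 0) t)) ∘
      (fun x : ℕ → ℕ => (fun i : Fin t => QQ i x)) := by
    funext x
    simp only [Function.comp]
    have : Dg (fun s => if h : s < t then QQ s x else 0) t = Dg (fun s => QQ s x) t := by
      apply Dg_congr
      intro s hs
      rw [dif_pos hs]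
    rw [this]
  rw [h2]
  apply Measurable.stronglyMeasurable
  exact (Measurable.of_discrete).comp h1

theorem exists_tree : IsRecTree (Measure.dirac 0) f0 1 PP WW QQ := by
  have hpast : ∀ n t, past WW QQ n t ≤ MeasurableSpace.pi := fun n t =>
    past_le (fun _ => measurable_const) QQ_meas n t
  have hi : ∀ t v, Integrable (Set.indicator {ω | QQ t ω = v} (fun _ => (1 : ℝ))) PP :=
    fun t v => (integrable_const _).indicator (QQ_meas t (MeasurableSet.singleton _))
  refine ⟨fun _ => measurable_const, QQ_meas, ?_, ?_, ?_, ?_⟩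
  · intro i
    unfold WW
    rw [Measure.map_const, measure_univ, one_smul]
  · intro t i _ _
    have : MeasurableSpace.comap (WW i) inferInstance = (⊥ : MeasurableSpace (ℕ → ℕ)) :=
      MeasurableSpace.comap_const _
    rw [this]
    exact indep_bot_left _
  · intro t
    have h1 : ∀ v, ∀ᵐ ω ∂PP, t < v → QQ t ω ≠ v := by
      intro v
      by_cases hv : t < v
      · have h2 := condExp_step t v
        have h3 := integral_condExp (μ := PP) (f := Set.indicator {ω | QQ t ω = v}
          (fun _ => (1 : ℝ))) ((Filtration.piLE (X := fun _ => ℕ)).le t)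
        rw [integral_congr_ae h2] at h3
        have h4 : ∫ x, (if v ≤ t then ff (Dg (fun s => QQ s x) t v) /
            Zf ff t (Dg (fun s => QQ s x) t) else 0) ∂PP = 0 := by
          have : ¬ v ≤ t := by omega
          simp [this]
        have hmQ : MeasurableSet {ω : ℕ → ℕ | QQ t ω = v} :=
          QQ_meas t (MeasurableSet.singleton _)
        rw [h4, integral_indicator hmQ, integral_const,
          smul_eq_mul, mul_one, measureReal_restrict_apply_univ] at h3
        have h5 : PP {ω | QQ t ω = v} = 0 := by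
          rw [Measure.real, eq_comm, ENNReal.toReal_eq_zero_iff] at h3
          exact h3.resolve_right (measure_ne_top _ _)
        have h6 : ∀ᵐ ω ∂PP, QQ t ω ≠ v := by
          rw [ae_iff]
          simpa using h5
        filter_upwards [h6] with ω hω _ using hω
      · exact Eventually.of_forall fun ω h => absurd h hv
    rw [← ae_all_iff] at h1
    filter_upwards [h1] with ω hω
    by_contra hcon
    exact hω _ (by omega) rfl
  · intro t v hv
    rw [one_mul] at hv
    have h1 : PP[PP[Set.indicator {ω | QQ t ω = v} (fun _ => (1 : ℝ)) |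
        Filtration.piLE (X := fun _ => ℕ) t] | past WW QQ (1 * t + 1) t] =ᵐ[PP]
        PP[Set.indicator {ω | QQ t ω = v} (fun _ => (1 : ℝ)) | past WW QQ (1 * t + 1) t] :=
      condExp_condExp_of_le (past_le_piLE _ t) ((Filtration.piLE (X := fun _ => ℕ)).le t)
    refine h1.symm.trans ?_
    have h2 : PP[Set.indicator {ω | QQ t ω = v} (fun _ => (1 : ℝ)) |
        Filtration.piLE (X := fun _ => ℕ) t] =ᵐ[PP]
        fun x => ff (Dg (fun s => QQ s x) t v) / Zf ff t (Dg (fun s => QQ s x) t) := by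
      refine (condExp_step t v).trans (Eventually.of_forall fun x => ?_)
      simp [hv]
    refine (condExp_congr_ae h2).trans ?_
    have hint : Integrable (fun x : ℕ → ℕ => ff (Dg (fun s => QQ s x) t v) /
        Zf ff t (Dg (fun s => QQ s x) t)) PP :=
      integrable_condExp.congr h2
    rw [condExp_of_stronglyMeasurable (hpast _ _) (g_meas _ t v) hint]
    refine Eventually.of_forall fun x => ?_
    simp only
    have h4 : (totalFit f0 1 WW QQ t x : ℝ) = Zf ff t (Dg (fun s => QQ s x) t) := by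
      unfold totalFit Zf
      push_cast
      rw [one_mul]
      apply Finset.sum_congr rfl
      intro u _
      rw [outDeg_one, Nat.div_one, f0_coe]
    rw [h4, outDeg_one, Nat.div_one, f0_coe]

end Exist

end Pool.Agent.Q287.LD
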