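import Mathlib

/-! Uncovered vertices of nearest neighbour trees: the combinatorial part (random orders of the
words over eight letters). -/

namespace Pool.Agent.Q287.NU

open Finset

/-- words of length `L` over eight letters -/
def W : ℕ → Type
  | 0 => Unit
  | (L + 1) => Fin 8 × W L

instance instFintypeW : (L : ℕ) → Fintype (W L)
  | 0 => inferInstanceAs (Fintype Unit)
  | (L + 1) => by
    have := instFintypeW L
    exact inferInstanceAs (Fintype (Fin 8 × W L))

instance instDecEqW : (L : ℕ) → DecidableEq (W L)
  | 0 => inferInstanceAs (DecidableEq Unit)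
  | (L + 1) => by
    have := instDecEqW L
    exact inferInstanceAs (DecidableEq (Fin 8 × W L))

lemma card_W (L : ℕ) : Fintype.card (W L) = 8 ^ L := by
  induction L with
  | zero => rfl
  | succ L ih =>
    have : Fintype.card (W (L + 1)) = Fintype.card (Fin 8 × W L) := rfl
    rw [this, Fintype.card_prod, ih]
    simp [pow_succ, mul_comm]

instance instNonemptyW : (L : ℕ) → Nonempty (W L)
  | 0 => ⟨()⟩
  | (L + 1) => by
    obtain ⟨u⟩ := instNonemptyW L
    exact ⟨((0 : Fin 8), u)⟩

/-- The event: `(i,y)` arrives first of all, `i < k`, and `(k,x)` arrives first among the words with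
first letter `k`, or first letter `< i`, or first letter `i` other than `(i,y)`. -/
def Bev {α : Type} (t : Fin 8 × α → ℕ) (k i : Fin 8) (y x : α) : Prop :=
  i < k ∧ (∀ v : Fin 8 × α, v ≠ (i, y) → t (i, y) < t v) ∧
  (∀ (j : Fin 8) (u : α), (j, u) ≠ (k, x) → (j = k ∨ j < i ∨ (j = i ∧ u ≠ y)) →
    t (k, x) < t (j, u))

open Classical in
/-- indicator of the event for the letter `k` -/
noncomputable def cnt {α : Type} [Fintype α] (t : Fin 8 × α → ℕ) (k : Fin 8) : ℕ :=
  ∑ i : Fin 8, ∑ y : α, ∑ x : α, if Bev t k i y x then 1 else 0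

lemma Bev_unique {α : Type} {t : Fin 8 × α → ℕ} {k i i' : Fin 8} {y x y' x' : α}
    (h : Bev t k i y x) (h' : Bev t k i' y' x') : i = i' ∧ y = y' ∧ x = x' := by
  have h1 : ((i, y) : Fin 8 × α) = (i', y') := by
    by_contra hne
    have a1 := h.2.1 (i', y') (fun e => hne e.symm)
    have a2 := h'.2.1 (i, y) hne
    omega
  have hi : i = i' := congrArg Prod.fst h1
  have hy : y = y' := congrArg Prod.snd h1
  refine ⟨hi, hy, ?_⟩
  by_contra hx
  have a1 := h.2.2 k x' (by
    intro e
    exact hx (congrArg Prod.snd e).symm) (Or.inl rfl)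
  have a2 := h'.2.2 k x (by
    intro e
    exact hx (congrArg Prod.snd e)) (Or.inl rfl)
  omega

lemma cnt_le_one {α : Type} [Fintype α] (t : Fin 8 × α → ℕ) (k : Fin 8) : cnt t k ≤ 1 := by
  classical
  unfold cnt
  by_cases h : ∃ i y x, Bev t k i y x
  · obtain ⟨i, y, x, h⟩ := h
    rw [Finset.sum_eq_single i, Finset.sum_eq_single y, Finset.sum_eq_single x]
    · rw [if_pos h]
    · intro x' _ hx'
      rw [if_neg]
      intro h'
      exact hx' (Bev_unique h h').2.2.symm
    · intro hx; exact absurd (Finset.mem_univ x) hx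
    · intro y' _ hy'
      apply Finset.sum_eq_zero
      intro x' _
      rw [if_neg]
      intro h'
      exact hy' (Bev_unique h h').2.1.symm
    · intro hy; exact absurd (Finset.mem_univ y) hy
    · intro i' _ hi'
      apply Finset.sum_eq_zero
      intro y' _
      apply Finset.sum_eq_zero
      intro x' _
      rw [if_neg]
      intro h'
      exact hi' (Bev_unique h h').1.symm
    · intro hi; exact absurd (Finset.mem_univ i) hi
  · push Not at h
    rw [Finset.sum_eq_zero]
    · exact Nat.zero_le _
    · intro i _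
      apply Finset.sum_eq_zero
      intro y _
      apply Finset.sum_eq_zero
      intro x _
      rw [if_neg (h i y x)]

lemma exists_of_cnt_pos {α : Type} [Fintype α] {t : Fin 8 × α → ℕ} {k : Fin 8} (h : cnt t k ≠ 0) :
    ∃ i y x, Bev t k i y x := by
  classical
  by_contra hcon
  push Not at hcon
  apply h
  unfold cnt
  apply Finset.sum_eq_zero
  intro i _
  apply Finset.sum_eq_zero
  intro y _
  apply Finset.sum_eq_zero
  intro x _
  rw [if_neg (hcon i y x)]

/-! ### Counting orders -/

section counting

variable {Ω : Type*} [Fintype Ω] [DecidableEq Ω]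

open Classical in
/-- orders in which `y` is the first of all -/
lemma card_first (t0 : Ω → ℕ) (ht : Function.Injective t0) (y : Ω) :
    (univ.filter fun g : Equiv.Perm Ω => ∀ v, v ≠ y → t0 (g y) < t0 (g v)).card *
      Fintype.card Ω = (Fintype.card Ω).factorial := by
  set F : Ω → Finset (Equiv.Perm Ω) := fun y =>
    univ.filter fun g : Equiv.Perm Ω => ∀ v, v ≠ y → t0 (g y) < t0 (g v) with hF
  -- equal cardinalities
  have heq : ∀ z, (F z).card = (F y).card := by
    intro z
    apply Finset.card_bij (fun g _ => g * Equiv.swap y z)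
    · intro g hg
      simp only [hF, Finset.mem_filter, Finset.mem_univ, true_and] at hg ⊢
      intro v hv
      simp only [Equiv.Perm.mul_apply, Equiv.swap_apply_left]
      apply hg
      intro h
      apply hv
      have := congrArg (Equiv.swap y z) h
      simpa using this
    · intro g _ g' _ h
      exact mul_right_cancel h
    · intro g hg
      refine ⟨g * Equiv.swap y z, ?_, by rw [mul_assoc, Equiv.swap_mul_self, mul_one]⟩
      simp only [hF, Finset.mem_filter, Finset.mem_univ, true_and] at hg ⊢
      intro v hv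
      simp only [Equiv.Perm.mul_apply, Equiv.swap_apply_right]
      apply hg
      intro h
      apply hv
      have := congrArg (Equiv.swap y z) h
      simpa using this
  -- partition
  have hpart : ∑ z : Ω, (F z).card = (Fintype.card Ω).factorial := by
    rw [← Fintype.card_perm, ← Finset.card_univ, ← Finset.card_biUnion]
    · congr 1
      ext g
      simp only [Finset.mem_biUnion, Finset.mem_univ, true_and, iff_true]
      haveI : Nonempty Ω := ⟨y⟩
      obtain ⟨z, hz⟩ := Finite.exists_min (fun v => t0 (g v))
      refine ⟨z, ?_⟩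
      simp only [hF, Finset.mem_filter, Finset.mem_univ, true_and]
      intro v hv
      refine lt_of_le_of_ne (hz v) ?_
      intro h
      exact hv (g.injective (ht h)).symm
    · intro a _ b _ hab
      rw [Function.onFun, Finset.disjoint_left]
      intro g hga hgb
      simp only [hF, Finset.mem_filter, Finset.mem_univ, true_and] at hga hgb
      have h1 := hga b hab.symm
      have h2 := hgb a hab
      omega
  rw [Finset.sum_congr rfl (fun z _ => heq z), Finset.sum_const, Finset.card_univ, smul_eq_mul]
    at hpart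
  rw [mul_comm]
  exact hpart

open Classical in
/-- orders in which `y` is the first of all and `x` the first in `D` -/
lemma card_first_two (t0 : Ω → ℕ) (ht : Function.Injective t0) (y : Ω) (D : Finset Ω)
    (hy : y ∉ D) {x : Ω} (hx : x ∈ D) :
    (univ.filter fun g : Equiv.Perm Ω => (∀ v, v ≠ y → t0 (g y) < t0 (g v)) ∧
      (∀ v ∈ D, v ≠ x → t0 (g x) < t0 (g v))).card * D.card * Fintype.card Ω =
      (Fintype.card Ω).factorial := by
  rw [← card_first t0 ht y]
  congr 1
  set N : Ω → Finset (Equiv.Perm Ω) := fun x =>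
    univ.filter fun g : Equiv.Perm Ω => (∀ v, v ≠ y → t0 (g y) < t0 (g v)) ∧
      (∀ v ∈ D, v ≠ x → t0 (g x) < t0 (g v)) with hN
  have hswapD : ∀ z ∈ D, ∀ v ∈ D, Equiv.swap x z v ∈ D := by
    intro z hz v hv
    rcases Equiv.swap_apply_eq_iff.1 (rfl : Equiv.swap x z v = _) with _
    by_cases h1 : v = x
    · rw [h1, Equiv.swap_apply_left]; exact hz
    · by_cases h2 : v = z
      · rw [h2, Equiv.swap_apply_right]; exact hx
      · rw [Equiv.swap_apply_of_ne_of_ne h1 h2]; exact hv
  have hmain : ∀ z ∈ D, ∀ g, g ∈ N z → g * Equiv.swap x z ∈ N x := by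
    intro z hz g hg
    simp only [hN, Finset.mem_filter, Finset.mem_univ, true_and] at hg ⊢
    have hyx : y ≠ x := fun h => hy (h ▸ hx)
    have hyz : y ≠ z := fun h => hy (h ▸ hz)
    constructor
    · intro v hv
      simp only [Equiv.Perm.mul_apply]
      rw [Equiv.swap_apply_of_ne_of_ne hyx hyz]
      apply hg.1
      intro h
      apply hv
      have := congrArg (Equiv.swap x z) h
      rw [Equiv.swap_apply_self, Equiv.swap_apply_of_ne_of_ne hyx hyz] at this
      exact this
    · intro v hv hvx
      simp only [Equiv.Perm.mul_apply, Equiv.swap_apply_left]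
      apply hg.2 _ (hswapD z hz v hv)
      intro h
      apply hvx
      have := congrArg (Equiv.swap x z) h
      simpa using this
  have hmain' : ∀ z ∈ D, ∀ g, g ∈ N x → g * Equiv.swap x z ∈ N z := by
    intro z hz g hg
    simp only [hN, Finset.mem_filter, Finset.mem_univ, true_and] at hg ⊢
    have hyx : y ≠ x := fun h => hy (h ▸ hx)
    have hyz : y ≠ z := fun h => hy (h ▸ hz)
    constructor
    · intro v hv
      simp only [Equiv.Perm.mul_apply]
      rw [Equiv.swap_apply_of_ne_of_ne hyx hyz]
      apply hg.1
      intro h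
      apply hv
      have := congrArg (Equiv.swap x z) h
      rw [Equiv.swap_apply_self, Equiv.swap_apply_of_ne_of_ne hyx hyz] at this
      exact this
    · intro v hv hvx
      simp only [Equiv.Perm.mul_apply, Equiv.swap_apply_right]
      apply hg.2 _ (hswapD z hz v hv)
      intro h
      apply hvx
      have := congrArg (Equiv.swap x z) h
      simpa using this
  have heq : ∀ z ∈ D, (N z).card = (N x).card := by
    intro z hz
    apply Finset.card_bij (fun g _ => g * Equiv.swap x z)
    · exact fun g hg => hmain z hz g hg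
    · intro g _ g' _ h
      exact mul_right_cancel h
    · intro g hg
      exact ⟨g * Equiv.swap x z, hmain' z hz g hg,
        by rw [mul_assoc, Equiv.swap_mul_self, mul_one]⟩
  have hpart : ∑ z ∈ D, (N z).card =
      (univ.filter fun g : Equiv.Perm Ω => ∀ v, v ≠ y → t0 (g y) < t0 (g v)).card := by
    rw [← Finset.card_biUnion]
    · congr 1
      ext g
      simp only [hN, Finset.mem_biUnion, Finset.mem_filter, Finset.mem_univ, true_and]
      constructor
      · rintro ⟨z, _, h1, _⟩; exact h1
      · intro h1
        obtain ⟨z, hz, hzmin⟩ := Finset.exists_min_image D (fun v => t0 (g v)) ⟨x, hx⟩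
        refine ⟨z, hz, h1, ?_⟩
        intro v hv hvz
        refine lt_of_le_of_ne (hzmin v hv) ?_
        intro h
        exact hvz (g.injective (ht h)).symm
    · intro a ha b hb hab
      rw [Function.onFun, Finset.disjoint_left]
      intro g hga hgb
      simp only [hN, Finset.mem_filter, Finset.mem_univ, true_and] at hga hgb
      have h1 := hga.2 b hb hab.symm
      have h2 := hgb.2 a ha hab
      omega
  rw [Finset.sum_congr rfl (fun z hz => heq z hz), Finset.sum_const, smul_eq_mul] at hpart
  rw [← hpart, mul_comm]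

end counting

/-- the set of competitors -/
def Dset {α : Type} [Fintype α] [DecidableEq α] (k i : Fin 8) (y : α) : Finset (Fin 8 × α) :=
  (univ : Finset (Fin 8 × α)).filter (fun v => v.1 = k ∨ v.1 < i ∨ (v.1 = i ∧ v.2 ≠ y))

lemma card_Dset {α : Type} [Fintype α] [DecidableEq α] (k i : Fin 8) (y : α) :
    (Dset k i y).card ≤ (i.1 + 2) * Fintype.card α := by
  have hsub : Dset k i y ⊆ (((univ : Finset (Fin 8)).filter (fun j => j = k ∨ j ≤ i)) ×ˢ
      (univ : Finset (α)) : Finset (Fin 8 × α)) := by
    intro v hv
    have hv' := (Finset.mem_filter.1 hv).2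
    rw [Finset.mem_product, Finset.mem_filter]
    refine ⟨⟨Finset.mem_univ _, ?_⟩, Finset.mem_univ _⟩
    rcases hv' with h | h | h
    · exact Or.inl h
    · exact Or.inr h.le
    · exact Or.inr h.1.le
  have h1 : ((univ : Finset (Fin 8)).filter (fun j => j = k ∨ j ≤ i)).card ≤ i.1 + 2 := by
    rw [Finset.filter_or]
    refine (Finset.card_union_le _ _).trans ?_
    have e1 : ((univ : Finset (Fin 8)).filter (fun j => j = k)).card ≤ 1 := by
      rw [Finset.filter_eq' univ k]; simp
    have e2 : ((univ : Finset (Fin 8)).filter (fun j => j ≤ i)).card = i.1 + 1 := by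
      have : (univ : Finset (Fin 8)).filter (fun j => j ≤ i) = Finset.Iic i := by
        ext j; simp
      rw [this, Fin.card_Iic]
    omega
  calc (Dset k i y).card ≤ _ := Finset.card_le_card hsub
    _ = ((univ : Finset (Fin 8)).filter (fun j => j = k ∨ j ≤ i)).card * Fintype.card α := by
        rw [Finset.card_product, Finset.card_univ]
    _ ≤ _ := Nat.mul_le_mul_right _ h1

open Classical in
/-- lower bound for the number of orders in the event -/
lemma card_Bev {α : Type} [Fintype α] [DecidableEq α] (t0 : Fin 8 × α → ℕ) (ht : Function.Injective t0) {k i : Fin 8}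
    (hik : i < k) (y x : α) :
    ((8 * Fintype.card α).factorial : ℝ) ≤
    ((univ.filter fun g : Equiv.Perm (Fin 8 × α) => Bev (fun v => t0 (g v)) k i y x).card : ℝ) *
      (((i.1 : ℝ) + 2) * Fintype.card α * (8 * Fintype.card α)) := by
  have hy : ((i, y) : Fin 8 × α) ∉ Dset k i y := by
    intro h
    rcases (Finset.mem_filter.1 h).2 with h | h | h
    · exact absurd h hik.ne
    · exact absurd h (lt_irrefl _)
    · exact h.2 rfl
  have hx : ((k, x) : Fin 8 × α) ∈ Dset k i y := by
    unfold Dset
    rw [Finset.mem_filter]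
    exact ⟨Finset.mem_univ _, Or.inl rfl⟩
  have h1 := card_first_two t0 ht (i, y) (Dset k i y) hy hx
  have h2 : (univ.filter fun g : Equiv.Perm (Fin 8 × α) =>
      (∀ v, v ≠ ((i, y) : Fin 8 × α) → t0 (g (i, y)) < t0 (g v)) ∧
      (∀ v ∈ Dset k i y, v ≠ ((k, x) : Fin 8 × α) → t0 (g (k, x)) < t0 (g v))) ⊆
      univ.filter fun g : Equiv.Perm (Fin 8 × α) => Bev (fun v => t0 (g v)) k i y x := by
    intro g hg
    rw [Finset.mem_filter] at hg ⊢
    refine ⟨Finset.mem_univ _, hik, hg.2.1, ?_⟩
    intro j u hne hcase
    apply hg.2.2 (j, u) _ hne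
    unfold Dset
    rw [Finset.mem_filter]
    exact ⟨Finset.mem_univ _, hcase⟩
  have h3 := Finset.card_le_card h2
  have h4 := card_Dset k i y
  rw [Fintype.card_prod, Fintype.card_fin] at h1
  have h5 : (8 * Fintype.card α).factorial ≤
      (univ.filter fun g : Equiv.Perm (Fin 8 × α) => Bev (fun v => t0 (g v)) k i y x).card *
        ((i.1 + 2) * Fintype.card α * (8 * Fintype.card α)) := by
    rw [← h1]
    calc _ ≤ (univ.filter fun g : Equiv.Perm (Fin 8 × α) =>
          Bev (fun v => t0 (g v)) k i y x).card * ((i.1 + 2) * Fintype.card α) * (8 * Fintype.card α) := by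
          gcongr
      _ = _ := by ring
  have h6 : (((8 * Fintype.card α).factorial : ℕ) : ℝ) ≤
      (((univ.filter fun g : Equiv.Perm (Fin 8 × α) => Bev (fun v => t0 (g v)) k i y x).card *
        ((i.1 + 2) * Fintype.card α * (8 * Fintype.card α)) : ℕ) : ℝ) := by exact_mod_cast h5
  push_cast at h6
  exact h6

/-- the mean number of good clusters exceeds one -/
lemma sum_cnt {α : Type} [Fintype α] [DecidableEq α] [Nonempty α] (t0 : Fin 8 × α → ℕ) (ht : Function.Injective t0) :
    (21 / 20 : ℝ) * ((8 * Fintype.card α).factorial : ℝ) ≤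
    ∑ k : Fin 8, ∑ g : Equiv.Perm (Fin 8 × α), (cnt (fun v => t0 (g v)) k : ℝ) := by
  classical
  set n! : ℝ := ((8 * Fintype.card α).factorial : ℝ) with hn
  have hm0 : (0:ℝ) < Fintype.card α := by exact_mod_cast Fintype.card_pos
  have hn0 : 0 ≤ n! := by positivity
  have h1 : ∀ k : Fin 8, ∑ i : Fin 8, (if i < k then n! / (8 * ((i.1 : ℝ) + 2)) else 0) ≤
      ∑ g : Equiv.Perm (Fin 8 × α), (cnt (fun v => t0 (g v)) k : ℝ) := by
    intro k
    have h2 : ∑ g : Equiv.Perm (Fin 8 × α), (cnt (fun v => t0 (g v)) k : ℝ) =
        ∑ i : Fin 8, ∑ y : α, ∑ x : α, ((univ.filter fun g : Equiv.Perm (Fin 8 × α) =>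
          Bev (fun v => t0 (g v)) k i y x).card : ℝ) := by
      unfold cnt
      push_cast
      rw [Finset.sum_comm]
      apply Finset.sum_congr rfl
      intro i _
      rw [Finset.sum_comm]
      apply Finset.sum_congr rfl
      intro y _
      rw [Finset.sum_comm]
      apply Finset.sum_congr rfl
      intro x _
      rw [Finset.sum_boole]
    rw [h2]
    apply Finset.sum_le_sum
    intro i _
    split_ifs with hik
    · have h3 : ∀ y x : α, n! / (((i.1 : ℝ) + 2) * Fintype.card α * (8 * Fintype.card α)) ≤
          ((univ.filter fun g : Equiv.Perm (Fin 8 × α) =>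
          Bev (fun v => t0 (g v)) k i y x).card : ℝ) := by
        intro y x
        rw [div_le_iff₀ (by positivity)]
        exact card_Bev t0 ht hik y x
      calc n! / (8 * ((i.1 : ℝ) + 2))
          = ∑ _y : α, ∑ _x : α, n! / (((i.1 : ℝ) + 2) * Fintype.card α * (8 * Fintype.card α)) := by
            rw [Finset.sum_const, Finset.sum_const, Finset.card_univ, nsmul_eq_mul,
              nsmul_eq_mul]
            push_cast
            field_simp
        _ ≤ _ := Finset.sum_le_sum fun y _ => Finset.sum_le_sum fun x _ => h3 y x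
    · apply Finset.sum_nonneg
      intro y _
      apply Finset.sum_nonneg
      intro x _
      positivity
  refine le_trans ?_ (Finset.sum_le_sum fun k _ => h1 k)
  simp only [Fin.sum_univ_eight]
  norm_num [Fin.lt_def]
  linarith

/-- the indicator is invariant under permutations inside the cluster -/
lemma cnt_invariant {α : Type} [Fintype α] [DecidableEq α] (t : Fin 8 × α → ℕ) (k : Fin 8)
    (h : Equiv.Perm α) :
    cnt (fun v => t (Equiv.Perm.prodExtendRight k h v)) k = cnt t k := by
  classical
  unfold cnt
  apply Finset.sum_congr rfl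
  intro i _
  apply Finset.sum_congr rfl
  intro y _
  rw [← Equiv.sum_comp h (fun x => if Bev t k i y x then 1 else 0)]
  apply Finset.sum_congr rfl
  intro x _
  have hk : ∀ u : α, Equiv.Perm.prodExtendRight k h (k, u) = (k, h u) := fun u =>
    Equiv.Perm.prodExtendRight_apply_eq k h u
  have hne : ∀ (j : Fin 8) (u : α), j ≠ k →
      Equiv.Perm.prodExtendRight k h (j, u) = (j, u) := fun j u hj =>
    Equiv.Perm.prodExtendRight_apply_ne h hj u
  have key : Bev (fun v => t (Equiv.Perm.prodExtendRight k h v)) k i y x ↔ Bev t k i y (h x) := by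
    unfold Bev
    constructor
    · rintro ⟨h1, h2, h3⟩
      refine ⟨h1, ?_, ?_⟩
      · intro v hv
        obtain ⟨j, u⟩ := v
        have e1 := h2 ((Equiv.Perm.prodExtendRight k h).symm (j, u)) (by
          intro he
          apply hv
          have := congrArg (Equiv.Perm.prodExtendRight k h) he
          rw [Equiv.apply_symm_apply, hne i y h1.ne] at this
          exact this)
        simp only [Equiv.apply_symm_apply] at e1
        rw [hne i y h1.ne] at e1
        exact e1
      · intro j u hju hcase
        by_cases hj : j = k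
        · subst hj
          have e1 := h3 j (h.symm u) (by
            intro he
            apply hju
            have := congrArg Prod.snd he
            simp only at this
            rw [← this]
            simp) (Or.inl rfl)
          simp only [hk, Equiv.apply_symm_apply] at e1
          exact e1
        · have e1 := h3 j u (by
            intro he
            exact hj (congrArg Prod.fst he)) hcase
          simp only [hk] at e1
          rw [hne j u hj] at e1
          exact e1
    · rintro ⟨h1, h2, h3⟩
      refine ⟨h1, ?_, ?_⟩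
      · intro v hv
        show t (Equiv.Perm.prodExtendRight k h (i, y)) < t (Equiv.Perm.prodExtendRight k h v)
        rw [hne i y h1.ne]
        apply h2
        intro he
        apply hv
        have := congrArg (Equiv.Perm.prodExtendRight k h).symm he
        rw [Equiv.symm_apply_apply] at this
        rw [this, Equiv.symm_apply_eq, hne i y h1.ne]
      · intro j u hju hcase
        show t (Equiv.Perm.prodExtendRight k h (k, x)) < t (Equiv.Perm.prodExtendRight k h (j, u))
        rw [hk]
        by_cases hj : j = k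
        · subst hj
          rw [hk]
          apply h3 j (h u) _ (Or.inl rfl)
          intro he
          apply hju
          have := congrArg Prod.snd he
          simp only at this
          rw [h.injective this]
        · rw [hne j u hj]
          apply h3 j u _ hcase
          intro he
          exact hj (congrArg Prod.fst he)
  simp only [key]

/-- the number of good words -/
noncomputable def G : (L : ℕ) → (W L → ℕ) → ℕ
  | 0, _ => 1
  | (L + 1), t => ∑ k : Fin 8, cnt (α := W L) t k * G L (fun u => t (k, u))

/-- the induction step of the growth -/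
lemma sum_G_step {m : ℕ} (t0 : Fin 8 × W m → ℕ) (ht : Function.Injective t0)
    (ih : ∀ (t0 : W m → ℕ), Function.Injective t0 →
      (21 / 20 : ℝ) ^ m * ((8 ^ m).factorial : ℝ) ≤
      ∑ g : Equiv.Perm (W m), (G m (fun v => t0 (g v)) : ℝ)) :
    (21 / 20 : ℝ) ^ (m + 1) * ((8 ^ (m + 1)).factorial : ℝ) ≤
      ∑ g : Equiv.Perm (Fin 8 × W m), ((∑ k : Fin 8, cnt (fun v => t0 (g v)) k *
        G m (fun u => t0 (g (k, u))) : ℕ) : ℝ) := by
  have hf0 : (0:ℝ) < ((8 ^ m).factorial : ℝ) := by positivity
  -- for each cluster
  have h1 : ∀ k : Fin 8, (21 / 20 : ℝ) ^ m *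
      ∑ g : Equiv.Perm (Fin 8 × W m), (cnt (fun v => t0 (g v)) k : ℝ) ≤
      ∑ g : Equiv.Perm (Fin 8 × W m), (cnt (fun v => t0 (g v)) k : ℝ) *
        (G m (fun u => t0 (g (k, u))) : ℝ) := by
    intro k
    set S := ∑ g : Equiv.Perm (Fin 8 × W m), (cnt (fun v => t0 (g v)) k : ℝ) *
        (G m (fun u => t0 (g (k, u))) : ℝ) with hS
    have hS1 : ∀ h : Equiv.Perm (W m), S =
        ∑ g : Equiv.Perm (Fin 8 × W m), (cnt (fun v => t0 (g v)) k : ℝ) *
        (G m (fun u => t0 (g (k, h u))) : ℝ) := by
      intro h
      rw [hS, ← Equiv.sum_comp (Equiv.mulRight (Equiv.Perm.prodExtendRight k h))]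
      apply Finset.sum_congr rfl
      intro g _
      simp only [Equiv.coe_mulRight, Equiv.Perm.mul_apply]
      rw [cnt_invariant (fun v => t0 (g v)) k h]
      congr 2
      congr 1
      funext u
      rw [Equiv.Perm.prodExtendRight_apply_eq]
    have hS2 : ((8 ^ m).factorial : ℝ) * S = ∑ h : Equiv.Perm (W m),
        ∑ g : Equiv.Perm (Fin 8 × W m), (cnt (fun v => t0 (g v)) k : ℝ) *
        (G m (fun u => t0 (g (k, h u))) : ℝ) := by
      rw [← Finset.sum_congr rfl (fun h _ => hS1 h), Finset.sum_const, Finset.card_univ,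
        Fintype.card_perm, card_W, nsmul_eq_mul]
    rw [Finset.sum_comm] at hS2
    have h3 : ∀ g : Equiv.Perm (Fin 8 × W m),
        (cnt (fun v => t0 (g v)) k : ℝ) * ((21 / 20 : ℝ) ^ m * ((8 ^ m).factorial : ℝ)) ≤
        ∑ h : Equiv.Perm (W m), (cnt (fun v => t0 (g v)) k : ℝ) *
        (G m (fun u => t0 (g (k, h u))) : ℝ) := by
      intro g
      rw [← Finset.mul_sum]
      apply mul_le_mul_of_nonneg_left _ (Nat.cast_nonneg _)
      apply ih (fun u => t0 (g (k, u)))
      intro u u' huu
      have := g.injective (ht huu)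
      exact congrArg Prod.snd this
    have h4 := Finset.sum_le_sum
      (fun g (_ : g ∈ (univ : Finset (Equiv.Perm (Fin 8 × W m)))) => h3 g)
    rw [← hS2, ← Finset.sum_mul] at h4
    have h5 : ((8 ^ m).factorial : ℝ) * ((21 / 20 : ℝ) ^ m *
        ∑ g : Equiv.Perm (Fin 8 × W m), (cnt (fun v => t0 (g v)) k : ℝ)) ≤
        ((8 ^ m).factorial : ℝ) * S := by linarith
    exact le_of_mul_le_mul_left h5 hf0
  have h2 := sum_cnt t0 ht
  rw [card_W] at h2
  have h3 : ∑ g : Equiv.Perm (Fin 8 × W m), ((∑ k : Fin 8, cnt (fun v => t0 (g v)) k *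
        G m (fun u => t0 (g (k, u))) : ℕ) : ℝ) =
      ∑ k : Fin 8, ∑ g : Equiv.Perm (Fin 8 × W m), (cnt (fun v => t0 (g v)) k : ℝ) *
        (G m (fun u => t0 (g (k, u))) : ℝ) := by
    rw [Finset.sum_comm]
    apply Finset.sum_congr rfl
    intro g _
    push_cast
    rfl
  rw [h3]
  calc (21 / 20 : ℝ) ^ (m + 1) * ((8 ^ (m + 1)).factorial : ℝ)
      = (21 / 20 : ℝ) ^ m * ((21 / 20 : ℝ) * ((8 * 8 ^ m).factorial : ℝ)) := by
        rw [pow_succ' 8 m]; ring
    _ ≤ (21 / 20 : ℝ) ^ m *
        ∑ k : Fin 8, ∑ g : Equiv.Perm (Fin 8 × W m), (cnt (fun v => t0 (g v)) k : ℝ) :=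
        mul_le_mul_of_nonneg_left h2 (by positivity)
    _ = ∑ k : Fin 8, (21 / 20 : ℝ) ^ m *
        ∑ g : Equiv.Perm (Fin 8 × W m), (cnt (fun v => t0 (g v)) k : ℝ) := by
        rw [Finset.mul_sum]
    _ ≤ _ := Finset.sum_le_sum fun k _ => h1 k

/-- the mean number of good words grows exponentially -/
theorem sum_G (L : ℕ) : ∀ (t0 : W L → ℕ), Function.Injective t0 →
    (21 / 20 : ℝ) ^ L * ((8 ^ L).factorial : ℝ) ≤
      ∑ g : Equiv.Perm (W L), (G L (fun v => t0 (g v)) : ℝ) := by
  induction L with
  | zero =>
    intro t0 _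
    simp only [G]
    rw [Finset.sum_const, Finset.card_univ, Fintype.card_perm, card_W]
    simp
  | succ L ih =>
    intro t0 ht
    exact sum_G_step (m := L) t0 ht ih

end Pool.Agent.Q287.NU
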