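import Pool.Agent.Q287.NU1

/-! Uncovered vertices of nearest neighbour trees: the geometry of the point set. -/

namespace Pool.Agent.Q287.NU

open Finset

/-- the ambient space -/
abbrev E := EuclideanSpace ℝ (Fin 17)

/-- coordinate of the letter `i` in the group `b` -/
def idx (b : Bool) (i : Fin 8) : Fin 17 := ⟨(if b then 0 else 8) + i.1, by split_ifs <;> omega⟩

/-- the position of the letter `i` -/
noncomputable def V (b : Bool) (i : Fin 8) : E :=
  EuclideanSpace.single (idx b i) (8 + (i.1 : ℝ)) + EuclideanSpace.single 16 (i.1 : ℝ)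

lemma idx_ne (b : Bool) (i : Fin 8) : idx b i ≠ 16 := by
  intro h
  have := congrArg Fin.val h
  unfold idx at this
  simp at this
  split_ifs at this <;> omega

lemma idx_inj (b : Bool) (i j : Fin 8) (h : i ≠ j) : idx b i ≠ idx b j := by
  intro h'
  have := congrArg Fin.val h'
  unfold idx at this
  simp at this
  exact h (Fin.ext this)

lemma idx_ne_not (b : Bool) (i j : Fin 8) : idx b i ≠ idx (!b) j := by
  intro h'
  have := congrArg Fin.val h'
  unfold idx at this
  cases b <;> simp at this <;> omega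

lemma inner_V_self (b : Bool) (i : Fin 8) :
    inner ℝ (V b i) (V b i) = (8 + (i.1 : ℝ)) ^ 2 + (i.1 : ℝ) ^ 2 := by
  unfold V
  have h1 := idx_ne b i
  rw [inner_add_left, inner_add_right, inner_add_right]
  simp only [EuclideanSpace.inner_single_left]
  simp [h1, h1.symm]
  ring

lemma inner_V_ne (b : Bool) {i j : Fin 8} (h : i ≠ j) :
    inner ℝ (V b i) (V b j) = (i.1 : ℝ) * (j.1 : ℝ) := by
  unfold V
  have h1 := idx_ne b i
  have h2 := idx_ne b j
  have h3 := idx_inj b i j h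
  simp [inner_add_left, inner_add_right, EuclideanSpace.inner_single_left, h1, h1.symm, h2,
    h2.symm, h3, h3.symm]
  try ring

lemma inner_V_not (b : Bool) (i j : Fin 8) :
    inner ℝ (V b i) (V (!b) j) = (i.1 : ℝ) * (j.1 : ℝ) := by
  unfold V
  have h1 := idx_ne b i
  have h2 := idx_ne (!b) j
  have h3 := idx_ne_not b i j
  simp [inner_add_left, inner_add_right, EuclideanSpace.inner_single_left, h1, h1.symm, h2,
    h2.symm, h3, h3.symm]
  try ring

/-- the scaling of a subcluster -/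
noncomputable def κ : ℝ := 1 / 10000

lemma κ_pos : 0 < κ := by unfold κ; norm_num

/-- the positions of the words -/
noncomputable def P : (L : ℕ) → Bool → W L → E
  | 0, _, _ => 0
  | (L + 1), b, v => V b v.1 + κ • P L (!b) v.2

lemma P_succ {L : ℕ} (b : Bool) (a : Fin 8) (u : W L) :
    P (L + 1) b (a, u) = V b a + κ • P L (!b) u := rfl

lemma fin8_le (i : Fin 8) : (i.1 : ℝ) ≤ 7 := by
  have : i.1 ≤ 7 := by omega
  exact_mod_cast this

lemma fin8_nonneg (i : Fin 8) : (0:ℝ) ≤ (i.1 : ℝ) := Nat.cast_nonneg _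

lemma norm_V (b : Bool) (i : Fin 8) : ‖V b i‖ ≤ 167 / 10 := by
  have h : ‖V b i‖ ^ 2 = (8 + (i.1 : ℝ)) ^ 2 + (i.1 : ℝ) ^ 2 := by
    rw [← inner_V_self b i, real_inner_self_eq_norm_sq]
  have h1 := fin8_le i
  have h2 := fin8_nonneg i
  have h3 : ‖V b i‖ ^ 2 ≤ (167 / 10) ^ 2 := by
    rw [h]
    nlinarith
  exact le_of_sq_le_sq h3 (by norm_num)

lemma norm_P (L : ℕ) : ∀ (b : Bool) (u : W L), ‖P L b u‖ ≤ 17 := by
  induction L with
  | zero => intro b u; simp [P]
  | succ L ih =>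
    intro b u
    obtain ⟨a, v⟩ := u
    rw [P_succ]
    have h1 := norm_V b a
    have h2 := ih (!b) v
    have h3 : ‖κ • P L (!b) v‖ ≤ κ * 17 := by
      rw [norm_smul, Real.norm_of_nonneg κ_pos.le]
      exact mul_le_mul_of_nonneg_left h2 κ_pos.le
    refine (norm_add_le _ _).trans ?_
    unfold κ at *
    linarith

lemma norm_P_sub {L : ℕ} (b : Bool) (u v : W L) : ‖P L b u - P L b v‖ ≤ 34 := by
  refine (norm_sub_le _ _).trans ?_
  linarith [norm_P L b u, norm_P L b v]

lemma norm_V_sub (b : Bool) (i j : Fin 8) : ‖V b i - V b j‖ ≤ 34 := by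
  refine (norm_sub_le _ _).trans ?_
  linarith [norm_V b i, norm_V b j]

lemma normsq_V_sub (b : Bool) {i j : Fin 8} (h : i ≠ j) :
    ‖V b i - V b j‖ ^ 2 = (8 + (i.1 : ℝ)) ^ 2 + (8 + (j.1 : ℝ)) ^ 2 + ((i.1 : ℝ) - j.1) ^ 2 := by
  rw [norm_sub_sq_real, inner_V_ne b h, ← real_inner_self_eq_norm_sq,
    ← real_inner_self_eq_norm_sq, inner_V_self, inner_V_self]
  ring

/-- points of the same cluster are closer than points of different clusters -/
lemma geo1 {L : ℕ} (b : Bool) {a a' : Fin 8} (h : a ≠ a') (u v w : W L) :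
    ‖P (L + 1) b (a, u) - P (L + 1) b (a, v)‖ < ‖P (L + 1) b (a, u) - P (L + 1) b (a', w)‖ := by
  rw [P_succ, P_succ, P_succ]
  have e1 : V b a + κ • P L (!b) u - (V b a + κ • P L (!b) v) =
      κ • (P L (!b) u - P L (!b) v) := by
    rw [smul_sub]; abel
  have e2 : V b a + κ • P L (!b) u - (V b a' + κ • P L (!b) w) =
      (V b a - V b a') - κ • (P L (!b) w - P L (!b) u) := by
    rw [smul_sub]; abel
  have e3 : ∀ x y : W L, ‖κ • (P L (!b) x - P L (!b) y)‖ ≤ κ * 34 := by
    intro x y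
    rw [norm_smul, Real.norm_of_nonneg κ_pos.le]
    exact mul_le_mul_of_nonneg_left (norm_P_sub _ _ _) κ_pos.le
  rw [e1, e2]
  have h1 := e3 u v
  have h2 := e3 w u
  have h3 : (1:ℝ) ≤ ‖V b a - V b a'‖ := by
    have := normsq_V_sub b h
    have g1 := fin8_nonneg a
    have g2 := fin8_nonneg a'
    have : (1:ℝ) ^ 2 ≤ ‖V b a - V b a'‖ ^ 2 := by rw [this]; nlinarith
    exact le_of_sq_le_sq this (norm_nonneg _)
  have h4 := norm_sub_norm_le (V b a - V b a') (κ • (P L (!b) w - P L (!b) u))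
  unfold κ at *
  linarith

lemma gap {b : Bool} {i j k : Fin 8} (hij : i < j) (hki : k ≠ i) (hkj : k ≠ j) :
    ‖V b k - V b i‖ ^ 2 + 4 ≤ ‖V b k - V b j‖ ^ 2 := by
  rw [normsq_V_sub b hki, normsq_V_sub b hkj]
  have h1 : (i.1 : ℝ) + 1 ≤ j.1 := by
    have : i.1 + 1 ≤ j.1 := hij
    exact_mod_cast this
  have h2 := fin8_nonneg i
  have h3 := fin8_le k
  nlinarith [mul_nonneg (sub_nonneg.2 h1) (sub_nonneg.2 h3)]

/-- smaller letters are closer -/
lemma geo2 {L : ℕ} (b : Bool) {i j k : Fin 8} (hij : i < j) (hki : k ≠ i) (hkj : k ≠ j)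
    (x y z : W L) :
    ‖P (L + 1) b (k, x) - P (L + 1) b (i, y)‖ < ‖P (L + 1) b (k, x) - P (L + 1) b (j, z)‖ := by
  rw [P_succ, P_succ, P_succ]
  have e2 : ∀ (c : Fin 8) (w : W L), V b k + κ • P L (!b) x - (V b c + κ • P L (!b) w) =
      (V b k - V b c) + κ • (P L (!b) x - P L (!b) w) := by
    intro c w
    rw [smul_sub]; abel
  have e3 : ∀ w : W L, ‖κ • (P L (!b) x - P L (!b) w)‖ ≤ κ * 34 := by
    intro w
    rw [norm_smul, Real.norm_of_nonneg κ_pos.le]
    exact mul_le_mul_of_nonneg_left (norm_P_sub _ _ _) κ_pos.le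
  rw [e2, e2]
  have hg := gap (b := b) hij hki hkj
  have a1 := norm_V_sub b k i
  have a2 := norm_V_sub b k j
  have b1 := e3 y
  have b2 := e3 z
  have c1 := norm_add_le (V b k - V b i) (κ • (P L (!b) x - P L (!b) y))
  have c2 := norm_sub_norm_le (V b k - V b j) (-(κ • (P L (!b) x - P L (!b) z)))
  rw [norm_neg, sub_neg_eq_add] at c2
  set A := ‖V b k - V b i‖
  set B := ‖V b k - V b j‖
  have hA : 0 ≤ A := norm_nonneg _
  have hB : 0 ≤ B := norm_nonneg _
  have hAB : A + 1 / 20 ≤ B := by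
    by_contra hcon
    push Not at hcon
    nlinarith
  unfold κ at *
  linarith

/-- the outer points are safe -/
lemma geo5 {L : ℕ} (b : Bool) {i k : Fin 8} (hik : i < k) {i' k' : Fin 8} (hik' : i' < k')
    (u v : W L) (w : W (L + 1)) :
    ‖P (L + 2) b ((k, ((i', v) : W (L + 1))) : W (L + 2)) - P (L + 2) b ((i, w) : W (L + 2))‖ ≤
    ‖P (L + 2) b ((k, ((k', u) : W (L + 1))) : W (L + 2)) - P (L + 2) b ((i, w) : W (L + 2))‖ := by
  have f1 : P (L + 2) b ((k, ((k', u) : W (L + 1))) : W (L + 2)) =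
      V b k + κ • (V (!b) k' + κ • P L (!(!b)) u) := rfl
  have f2 : P (L + 2) b ((k, ((i', v) : W (L + 1))) : W (L + 2)) =
      V b k + κ • (V (!b) i' + κ • P L (!(!b)) v) := rfl
  have f3 : P (L + 2) b ((i, w) : W (L + 2)) = V b i + κ • P (L + 1) (!b) w := rfl
  rw [f1, f2, f3]
  simp only [Bool.not_not]
  set A := V b k - V b i with hA
  set B := V (!b) k' - V (!b) i' with hB
  set C := V (!b) k' + V (!b) i' with hC
  set p := P L b u - P L b v with hp
  set q := P L b u + P L b v with hq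
  set R := P (L + 1) (!b) w with hR
  set X := κ • C + (κ * κ) • q - (2 * κ) • R with hX
  set Y := κ • B + (κ * κ) • p with hY
  have e1 : V b k + κ • (V (!b) k' + κ • P L b u) - (V b i + κ • R) =
      (1/2 : ℝ) • ((2 : ℝ) • A + X) + (1/2 : ℝ) • Y := by
    rw [hX, hY, hA, hB, hC, hp, hq]
    module
  have e2 : V b k + κ • (V (!b) i' + κ • P L b v) - (V b i + κ • R) =
      (1/2 : ℝ) • ((2 : ℝ) • A + X) - (1/2 : ℝ) • Y := by
    rw [hX, hY, hA, hB, hC, hp, hq]
    module
  rw [e1, e2]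
  have hAB : 1 ≤ inner ℝ A B := by
    rw [hA, hB, inner_sub_left, inner_sub_right, inner_sub_right, inner_V_not, inner_V_not,
      inner_V_not, inner_V_not]
    have g1 : (i.1 : ℝ) + 1 ≤ k.1 := by
      have : i.1 + 1 ≤ k.1 := hik
      exact_mod_cast this
    have g2 : (i'.1 : ℝ) + 1 ≤ k'.1 := by
      have : i'.1 + 1 ≤ k'.1 := hik'
      exact_mod_cast this
    nlinarith
  have hκ0 := κ_pos
  have nA : ‖A‖ ≤ 34 := norm_V_sub b k i
  have nB : ‖B‖ ≤ 34 := norm_V_sub (!b) k' i'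
  have nC : ‖C‖ ≤ 34 := by
    refine (norm_add_le _ _).trans ?_
    linarith [norm_V (!b) k', norm_V (!b) i']
  have np : ‖p‖ ≤ 34 := norm_P_sub b u v
  have nq : ‖q‖ ≤ 34 := by
    refine (norm_add_le _ _).trans ?_
    linarith [norm_P L b u, norm_P L b v]
  have nR : ‖R‖ ≤ 17 := norm_P (L + 1) (!b) w
  have nX : ‖X‖ ≤ κ * 69 := by
    have h1 : ‖X‖ ≤ ‖κ • C‖ + ‖(κ * κ) • q‖ + ‖(2 * κ) • R‖ := by
      refine (norm_sub_le _ _).trans ?_
      have := norm_add_le (κ • C) ((κ * κ) • q)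
      linarith
    rw [norm_smul, norm_smul, norm_smul, Real.norm_of_nonneg hκ0.le,
      Real.norm_of_nonneg (by positivity : (0:ℝ) ≤ κ * κ),
      Real.norm_of_nonneg (by positivity : (0:ℝ) ≤ 2 * κ)] at h1
    have h2 : κ * ‖C‖ ≤ κ * 34 := mul_le_mul_of_nonneg_left nC hκ0.le
    have h3 : κ * κ * ‖q‖ ≤ κ * κ * 34 := mul_le_mul_of_nonneg_left nq (by positivity)
    have h4 : 2 * κ * ‖R‖ ≤ 2 * κ * 17 := mul_le_mul_of_nonneg_left nR (by positivity)
    unfold κ at *
    linarith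
  have nY : ‖Y‖ ≤ κ * 35 := by
    have h1 : ‖Y‖ ≤ ‖κ • B‖ + ‖(κ * κ) • p‖ := norm_add_le _ _
    rw [norm_smul, norm_smul, Real.norm_of_nonneg hκ0.le,
      Real.norm_of_nonneg (by positivity : (0:ℝ) ≤ κ * κ)] at h1
    have h2 : κ * ‖B‖ ≤ κ * 34 := mul_le_mul_of_nonneg_left nB hκ0.le
    have h3 : κ * κ * ‖p‖ ≤ κ * κ * 34 := mul_le_mul_of_nonneg_left np (by positivity)
    unfold κ at *
    linarith
  have hXY : - (κ * 69 * (κ * 35)) ≤ inner ℝ X Y := by
    have h1 := abs_le.1 (abs_real_inner_le_norm X Y)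
    have h2 : ‖X‖ * ‖Y‖ ≤ κ * 69 * (κ * 35) :=
      mul_le_mul nX nY (norm_nonneg _) (by positivity)
    linarith [h1.1]
  have hAp : - (34 * 34) ≤ inner ℝ A p := by
    have h1 := abs_le.1 (abs_real_inner_le_norm A p)
    have h2 : ‖A‖ * ‖p‖ ≤ 34 * 34 := mul_le_mul nA np (norm_nonneg _) (by norm_num)
    linarith [h1.1]
  have hpos : 0 ≤ inner ℝ ((2 : ℝ) • A + X) Y := by
    rw [inner_add_left, hY, inner_smul_left, inner_add_right, inner_smul_right, inner_smul_right]
    rw [← hY]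
    simp only [conj_trivial]
    have h1 : κ * 1 ≤ κ * inner ℝ A B := mul_le_mul_of_nonneg_left hAB hκ0.le
    have h2 : κ * κ * (-(34 * 34)) ≤ κ * κ * inner ℝ A p :=
      mul_le_mul_of_nonneg_left hAp (by positivity)
    unfold κ at *
    linarith
  clear_value X Y A
  refine le_of_sq_le_sq ?_ (norm_nonneg _)
  rw [norm_add_sq_real, norm_sub_sq_real]
  rw [inner_smul_left, inner_smul_right]
  simp only [conj_trivial]
  linarith

/-- different words are at different places -/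
lemma P_injective (L : ℕ) : ∀ (b : Bool), Function.Injective (P L b) := by
  induction L with
  | zero => intro b u v _; exact Subsingleton.elim (α := Unit) u v
  | succ L ih =>
    intro b u v huv
    obtain ⟨a, u'⟩ := u
    obtain ⟨a', v'⟩ := v
    have haa : a = a' := by
      by_contra hne
      have h1 := geo1 b hne u' u' v'
      have h2 : P (L + 1) b (a, u') - P (L + 1) b (a', v') = 0 := sub_eq_zero.2 huv
      rw [h2, norm_zero] at h1
      exact absurd h1 (not_lt.2 (norm_nonneg _))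
    subst haa
    have h3 : V b a + κ • P L (!b) u' = V b a + κ • P L (!b) v' := huv
    have h4 := smul_right_injective E κ_pos.ne' (add_left_cancel h3)
    rw [ih (!b) h4]

end Pool.Agent.Q287.NU
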