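import Pool.Agent.Q287.NU2

/-! Uncovered vertices of nearest neighbour trees: good words are uncovered. -/

namespace Pool.Agent.Q287.NU

open Finset

variable {n : ℕ}

/-- `p` is the parent of `x`: the earlier vertex at the smallest distance, the smallest such -/
def IsParent (D : Fin n → Fin n → ℝ) (p x : Fin n) : Prop :=
  p < x ∧ (∀ j, j < x → D x p ≤ D x j) ∧ (∀ j, j < p → D x p < D x j)

/-- adjacency in the tree -/
def Adj (D : Fin n → Fin n → ℝ) (a b : Fin n) : Prop := IsParent D a b ∨ IsParent D b a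

/-- directly covered vertices -/
def DCov (D : Fin n → Fin n → ℝ) (x : Fin n) : Prop :=
  ∃ p, IsParent D p x ∧ ∃ q, q ≠ x ∧ Adj D p q ∧ D x p < D p q ∧ D x q < D p q

/-- covered vertices -/
def Cov (D : Fin n → Fin n → ℝ) (x : Fin n) : Prop :=
  ∃ z, DCov D z ∧ Relation.ReflTransGen (IsParent D) z x

lemma IsParent.unique {D : Fin n → Fin n → ℝ} {p p' x : Fin n} (h : IsParent D p x)
    (h' : IsParent D p' x) : p = p' := by
  rcases lt_trichotomy p p' with hlt | heq | hgt
  · have a1 := h'.2.2 p hlt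
    have a2 := h.2.1 p' h'.1
    linarith
  · exact heq
  · have a1 := h.2.2 p' hgt
    have a2 := h'.2.1 p h.1
    linarith

lemma not_cov {D : Fin n → Fin n → ℝ} {p x : Fin n} (hp : IsParent D p x) (hcp : ¬ Cov D p)
    (hd : ¬ DCov D x) : ¬ Cov D x := by
  rintro ⟨z, hz, hzx⟩
  rcases Relation.ReflTransGen.cases_tail hzx with h | ⟨w, hw, hwx⟩
  · rw [h] at hd; exact hd hz
  · rw [hp.unique hwx] at hcp
    exact hcp ⟨z, hz, hw⟩

lemma exists_parent (D : Fin n → Fin n → ℝ) {j x : Fin n} (hjx : j < x) :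
    ∃ p, IsParent D p x := by
  classical
  set S := (univ : Finset (Fin n)).filter (fun p => p < x ∧ ∀ j, j < x → D x p ≤ D x j) with hS
  have hne : S.Nonempty := by
    obtain ⟨p, hp, hmin⟩ := Finset.exists_min_image
      ((univ : Finset (Fin n)).filter (fun p => p < x)) (fun p => D x p)
      ⟨j, Finset.mem_filter.2 ⟨Finset.mem_univ _, hjx⟩⟩
    refine ⟨p, ?_⟩
    rw [hS, Finset.mem_filter]
    refine ⟨Finset.mem_univ _, (Finset.mem_filter.1 hp).2, ?_⟩
    intro j' hj'
    exact hmin j' (Finset.mem_filter.2 ⟨Finset.mem_univ _, hj'⟩)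
  have hm := S.min'_mem hne
  set p := S.min' hne with hp
  have hm' := (Finset.mem_filter.1 hm).2
  refine ⟨p, hm'.1, hm'.2, ?_⟩
  intro j' hj'
  refine lt_of_le_of_ne (hm'.2 j' (hj'.trans hm'.1)) ?_
  intro heq
  have : j' ∈ S := by
    rw [hS, Finset.mem_filter]
    refine ⟨Finset.mem_univ _, hj'.trans hm'.1, ?_⟩
    intro j'' hj''
    rw [← heq]
    exact hm'.2 j'' hj''
  exact absurd (S.min'_le _ this) (not_le.2 hj')

/-- the first point of a cluster -/
def IsFirst {m : ℕ} (ι : W m → Fin n) (w : W m) : Prop := ∀ v, v ≠ w → ι w < ι v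

/-- the hypotheses on a cluster -/
structure Good (D : Fin n → Fin n → ℝ) (m : ℕ) (b : Bool) (s : ℝ) (ι : W m → Fin n) : Prop where
  inj : Function.Injective ι
  spos : 0 < s
  dist : ∀ u v, D (ι u) (ι v) = s * ‖P m b u - P m b v‖
  ha : ∀ w, ¬ IsFirst ι w → ∀ p, IsParent D p (ι w) → ∃ u, p = ι u
  hb : ∀ x, (∀ u, x ≠ ι u) → ∀ u, ¬ IsParent D (ι u) x
  hc : ∀ w, IsFirst ι w → ¬ Cov D (ι w)

/-- safety of the outer edge of the first point -/
def Safe (D : Fin n → Fin n → ℝ) (m : ℕ) (ι : Fin 8 × W m → Fin n) : Prop :=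
  ∀ (i : Fin 8) (y : W m), (∀ v, v ≠ (i, y) → ι (i, y) < ι v) → ∀ q, IsParent D q (ι (i, y)) →
    ∀ (k : Fin 8) (x : W m), i < k → D (ι (i, y)) q ≤ D (ι (k, x)) q

lemma exists_first {m : ℕ} (ι : W m → Fin n) (hι : Function.Injective ι) :
    ∃ w, IsFirst ι w := by
  obtain ⟨w, hw⟩ := Finite.exists_min ι
  refine ⟨w, fun v hv => lt_of_le_of_ne (hw v) ?_⟩
  intro h
  exact hv (hι h).symm

section step

variable {D : Fin n → Fin n → ℝ} {m : ℕ} {b : Bool} {s : ℝ} {ι : Fin 8 × W m → Fin n}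

lemma dist_lt (h : Good D (m + 1) b s ι) {u v w : Fin 8 × W m}
    (hlt : ‖P (m + 1) b u - P (m + 1) b v‖ < ‖P (m + 1) b u - P (m + 1) b w‖) :
    D (ι u) (ι v) < D (ι u) (ι w) := by
  have h1 : D (ι u) (ι v) = s * ‖P (m + 1) b u - P (m + 1) b v‖ := h.dist u v
  have h2 : D (ι u) (ι w) = s * ‖P (m + 1) b u - P (m + 1) b w‖ := h.dist u w
  rw [h1, h2]
  exact mul_lt_mul_of_pos_left hlt h.spos

lemma g1 (h : Good D (m + 1) b s ι) {a a' : Fin 8} (haa : a ≠ a') (u v w : W m) :
    D (ι (a, u)) (ι (a, v)) < D (ι (a, u)) (ι (a', w)) :=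
  dist_lt h (geo1 b haa u v w)

lemma g2 (h : Good D (m + 1) b s ι) {i j k : Fin 8} (hij : i < j) (hki : k ≠ i) (hkj : k ≠ j)
    (x y z : W m) :
    D (ι (k, x)) (ι (i, y)) < D (ι (k, x)) (ι (j, z)) :=
  dist_lt h (geo2 b hij hki hkj x y z)

lemma ha' (h : Good D (m + 1) b s ι) {i : Fin 8} {y : W m}
    (hfirst : ∀ v, v ≠ (i, y) → ι (i, y) < ι v) (w : Fin 8 × W m) (hw : w ≠ (i, y)) (p : Fin n)
    (hp : IsParent D p (ι w)) : ∃ (j : Fin 8) (z : W m), p = ι (j, z) := by
  have h1 : ¬ IsFirst (m := m + 1) ι w := by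
    intro hf
    have a1 : ι w < ι (i, y) := hf (i, y) hw.symm
    have a2 := hfirst w hw
    exact absurd a1 (not_lt.2 a2.le)
  obtain ⟨u, hu⟩ := h.ha w h1 p hp
  exact ⟨u.1, u.2, hu⟩

lemma parent_eq (h : Good D (m + 1) b s ι) {k i : Fin 8} {y x : W m}
    (hB : Bev (fun v => ((ι v : Fin n) : ℕ)) k i y x) : IsParent D (ι (i, y)) (ι (k, x)) := by
  obtain ⟨hik, hfirst, hrest⟩ := hB
  have hfirst' : ∀ v, v ≠ (i, y) → ι (i, y) < ι v := fun v hv => hfirst v hv
  have hne : ((k, x) : Fin 8 × W m) ≠ (i, y) := fun e => hik.ne (congrArg Prod.fst e).symm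
  obtain ⟨p, hp⟩ := exists_parent D (hfirst' (k, x) hne)
  obtain ⟨j, z, hjz⟩ := ha' h hfirst' (k, x) hne p hp
  have hlt : ((ι (j, z) : Fin n) : ℕ) < ι (k, x) := by
    rw [← hjz]; exact hp.1
  have hne2 : ((j, z) : Fin 8 × W m) ≠ (k, x) := by
    intro e
    rw [e] at hlt
    exact absurd hlt (lt_irrefl _)
  have hcase : ¬ (j = k ∨ j < i ∨ (j = i ∧ z ≠ y)) := by
    intro hc
    have := hrest j z hne2 hc
    simp only at this
    omega
  push Not at hcase
  obtain ⟨hjk, hij, hjz'⟩ := hcase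
  rcases hij.eq_or_lt with heq | hlt'
  · have := hjz' heq.symm
    rw [heq, ← this, ← hjz]
    exact hp
  · exfalso
    have a1 := g2 h hlt' hik.ne' (fun e => hjk e.symm) x y z
    have a2 := hp.2.1 (ι (i, y)) (hfirst' (k, x) hne)
    rw [hjz] at a2
    linarith

lemma good_step (hD : ∀ a b, D a b = D b a) (h : Good D (m + 1) b s ι) (hs : Safe D m ι)
    {k i : Fin 8} {y x : W m} (hB : Bev (fun v => ((ι v : Fin n) : ℕ)) k i y x) :
    Good D m (!b) (s * κ) (fun u => ι (k, u)) := by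
  have hpar := parent_eq h hB
  obtain ⟨hik, hfirst, hrest⟩ := hB
  have hfirst' : ∀ v, v ≠ (i, y) → ι (i, y) < ι v := fun v hv => hfirst v hv
  have hne : ∀ z : W m, ((k, z) : Fin 8 × W m) ≠ (i, y) :=
    fun z e => hik.ne (congrArg Prod.fst e).symm
  have hinj : ∀ u v : Fin 8 × W m, ι u = ι v → u = v := fun u v e => h.inj e
  have hkinj : ∀ u v : W m, ι (k, u) = ι (k, v) → u = v :=
    fun u v e => congrArg Prod.snd (hinj _ _ e)
  have ha1 : ∀ w, ¬ IsFirst (fun u => ι (k, u)) w → ∀ p, IsParent D p (ι (k, w)) →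
      ∃ u, p = ι (k, u) := by
    intro w hw p hp
    unfold IsFirst at hw
    push Not at hw
    obtain ⟨v, hvw, hle⟩ := hw
    have hlt : ι (k, v) < ι (k, w) := lt_of_le_of_ne hle (fun e => hvw (hkinj _ _ e))
    obtain ⟨j, z, hjz⟩ := ha' h hfirst' (k, w) (hne w) p hp
    by_cases hjk : j = k
    · exact ⟨z, by rw [hjz, hjk]⟩
    · exfalso
      have a1 := g1 h (fun e => hjk e.symm : k ≠ j) w v z
      have a2 := hp.2.1 (ι (k, v)) hlt
      rw [hjz] at a2
      linarith
  refine ⟨fun u v e => hkinj u v e, mul_pos h.spos κ_pos, ?_, ha1, ?_, ?_⟩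
  · intro u v
    have h1 : D (ι (k, u)) (ι (k, v)) = s * ‖P (m + 1) b (k, u) - P (m + 1) b (k, v)‖ :=
      h.dist (k, u) (k, v)
    rw [h1, P_succ, P_succ]
    have e1 : V b k + κ • P m (!b) u - (V b k + κ • P m (!b) v) =
        κ • (P m (!b) u - P m (!b) v) := by
      rw [smul_sub]; abel
    rw [e1, norm_smul, Real.norm_of_nonneg κ_pos.le]
    ring
  · intro x0 hx0 u hpu
    by_cases hr : ∃ w : Fin 8 × W m, x0 = ι w
    · obtain ⟨⟨j, z⟩, hjz⟩ := hr
      have hjk : j ≠ k := by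
        intro e
        apply hx0 z
        rw [hjz, e]
      by_cases hiy : ((j, z) : Fin 8 × W m) = (i, y)
      · have a1 := hpu.1
        rw [hjz, hiy] at a1
        have a2 := hfirst' (k, u) (hne u)
        exact absurd a1 (not_lt.2 a2.le)
      · have a1 := hpu.2.1 (ι (i, y)) (by rw [hjz]; exact hfirst' _ hiy)
        rw [hjz] at a1
        by_cases hji : j = i
        · subst hji
          have a2 := g1 h hik.ne z y u
          linarith
        · have a2 := g2 h hik hji hjk z y u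
          linarith
    · push Not at hr
      exact h.hb x0 (fun w => hr w) (k, u) hpu
  · intro w hw
    have hwx : w = x := by
      by_contra hne'
      have a1 : ι (k, w) < ι (k, x) := hw x (fun e => hne' e.symm)
      have a2 : ι (k, x) < ι (k, w) := hrest k w (fun e => hne' (congrArg Prod.snd e)) (Or.inl rfl)
      exact absurd a1 (not_lt.2 a2.le)
    rw [hwx]
    refine not_cov hpar ?_ ?_
    · exact h.hc (i, y) (fun v hv => hfirst' v hv)
    · rintro ⟨p, hp, q, hqx, hadj, hd1, hd2⟩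
      have hpe := hp.unique hpar
      rw [hpe] at hadj hd1 hd2
      rcases hadj with hq | hq
      · -- q is a child
        by_cases hr : ∃ w : Fin 8 × W m, q = ι w
        · obtain ⟨⟨j, z⟩, hjz⟩ := hr
          rw [hjz] at hq hd1 hd2 hqx
          by_cases hji : j = i
          · rw [hji] at hd1
            have a1 := g1 h hik.ne y z x
            rw [hD (ι (i, y)) (ι (k, x))] at a1
            linarith
          · by_cases hjk : j = k
            · rw [hjk] at hq hqx
              have hzx : z ≠ x := by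
                intro e
                apply hqx
                rw [e]
              have a0 : ι (k, x) < ι (k, z) :=
                hrest k z (fun e => hzx (congrArg Prod.snd e)) (Or.inl rfl)
              have a1 := hq.2.1 _ a0
              have a2 := g1 h hik.ne' z x y
              linarith
            · have a1 := g2 h hik hji hjk z y x
              rw [hD (ι (j, z)) (ι (i, y)), hD (ι (j, z)) (ι (k, x))] at a1
              linarith
        · push Not at hr
          exact h.hb q (fun w => hr w) (i, y) hq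
      · -- q is the parent
        have a1 := hs i y hfirst' q hq k x hik
        linarith

end step

lemma safe_step {D : Fin n → Fin n → ℝ} {m : ℕ} {b : Bool} {s : ℝ}
    {ι : Fin 8 × W (m + 1) → Fin n} (h : Good D (m + 2) b s ι)
    {k i : Fin 8} {y x : W (m + 1)} (hB : Bev (fun v => ((ι v : Fin n) : ℕ)) k i y x) :
    Safe D m (fun u => ι (k, u)) := by
  have hpar := parent_eq (m := m + 1) h hB
  obtain ⟨hik, hfirst, hrest⟩ := hB
  intro i' y' hf q hq k' x' hik'
  have hx : ((i', y') : Fin 8 × W m) = x := by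
    by_contra hne
    have a1 : ι (k, (i', y')) < ι (k, x) := hf x (fun e => hne e.symm)
    have a2 : ι (k, x) < ι (k, (i', y')) :=
      hrest k (i', y') (fun e => hne (congrArg Prod.snd e)) (Or.inl rfl)
    exact absurd a1 (not_lt.2 a2.le)
  rw [← hx] at hpar
  have hqe := hq.unique hpar
  rw [hqe]
  have h1 : D (ι (k, (i', y'))) (ι (i, y)) = s * ‖P (m + 2) b (k, ((i', y') : Fin 8 × W m)) -
    P (m + 2) b (i, y)‖ := h.dist (k, (i', y')) (i, y)
  have h2 : D (ι (k, (k', x'))) (ι (i, y)) = s * ‖P (m + 2) b (k, ((k', x') : Fin 8 × W m)) -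
    P (m + 2) b (i, y)‖ := h.dist (k, (k', x')) (i, y)
  simp only
  rw [h1, h2]
  exact mul_le_mul_of_nonneg_left (geo5 b hik hik' x' y' y) h.spos.le

/-- safety for all lengths -/
def SafeAll (D : Fin n → Fin n → ℝ) : (m : ℕ) → (W m → Fin n) → Prop
  | 0, _ => True
  | (m + 1), ι => Safe D m ι

open Classical in
lemma count_step {D : Fin n → Fin n → ℝ} (hD : ∀ a b, D a b = D b a) {m : ℕ}
    (ih : ∀ (b : Bool) (s : ℝ) (ι : W m → Fin n), Good D m b s ι → SafeAll D m ι →
      G m (fun u => ((ι u : Fin n) : ℕ)) ≤ (univ.filter (fun w => ¬ Cov D (ι w))).card)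
    (b : Bool) (s : ℝ) (ι : Fin 8 × W m → Fin n) (h : Good D (m + 1) b s ι) (hs : Safe D m ι) :
    ∑ k : Fin 8, cnt (fun u => ((ι u : Fin n) : ℕ)) k * G m (fun u => ((ι (k, u) : Fin n) : ℕ)) ≤
      (univ.filter (fun w : Fin 8 × W m => ¬ Cov D (ι w))).card := by
  have h1 : ∀ k : Fin 8, cnt (fun u => ((ι u : Fin n) : ℕ)) k *
      G m (fun u => ((ι (k, u) : Fin n) : ℕ)) ≤
      (univ.filter (fun u : W m => ¬ Cov D (ι (k, u)))).card := by
    intro k
    by_cases hc : cnt (fun u => ((ι u : Fin n) : ℕ)) k = 0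
    · rw [hc, zero_mul]; exact Nat.zero_le _
    · obtain ⟨i, y, x, hB⟩ := exists_of_cnt_pos hc
      have hg := good_step hD h hs hB
      have hsafe : SafeAll D m (fun u => ι (k, u)) := by
        cases m with
        | zero => trivial
        | succ m => exact safe_step h hB
      have h2 := ih (!b) (s * κ) (fun u => ι (k, u)) hg hsafe
      calc _ ≤ 1 * G m (fun u => ((ι (k, u) : Fin n) : ℕ)) :=
            Nat.mul_le_mul_right _ (cnt_le_one _ _)
        _ = G m (fun u => ((ι (k, u) : Fin n) : ℕ)) := one_mul _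
        _ ≤ _ := h2
  refine (Finset.sum_le_sum fun k _ => h1 k).trans (le_of_eq ?_)
  rw [Finset.card_filter, Fintype.sum_prod_type]
  apply Finset.sum_congr rfl
  intro k _
  rw [Finset.card_filter]

open Classical in
theorem count {D : Fin n → Fin n → ℝ} (hD : ∀ a b, D a b = D b a) (m : ℕ) :
    ∀ (b : Bool) (s : ℝ) (ι : W m → Fin n), Good D m b s ι → SafeAll D m ι →
      G m (fun u => ((ι u : Fin n) : ℕ)) ≤ (univ.filter (fun w => ¬ Cov D (ι w))).card := by
  induction m with
  | zero =>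
    intro b s ι h _
    simp only [G]
    rw [Nat.one_le_iff_ne_zero, ← Nat.pos_iff_ne_zero, Finset.card_pos]
    refine ⟨(), Finset.mem_filter.2 ⟨Finset.mem_univ _, ?_⟩⟩
    apply h.hc
    intro v hv
    exact absurd (Subsingleton.elim (α := Unit) v ()) hv
  | succ m ih =>
    intro b s ι h hs
    exact count_step hD ih b s ι h hs

/-- the whole set is a good cluster -/
lemma good_all {D : Fin n → Fin n → ℝ} {m : ℕ} {b : Bool} {s : ℝ} {ι : W m → Fin n}
    (hι : Function.Bijective ι) (hs : 0 < s)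
    (hdist : ∀ u v, D (ι u) (ι v) = s * ‖P m b u - P m b v‖) :
    Good D m b s ι ∧ SafeAll D m ι := by
  have hroot : ∀ w, IsFirst ι w → ∀ q, ¬ IsParent D q (ι w) := by
    intro w hw q hq
    obtain ⟨v, hv⟩ := hι.2 q
    have h1 := hq.1
    rw [← hv] at h1
    have h2 : v ≠ w := by
      intro e
      rw [e] at h1
      exact lt_irrefl _ h1
    exact absurd (hw v h2) (not_lt.2 h1.le)
  refine ⟨⟨hι.1, hs, hdist, ?_, ?_, ?_⟩, ?_⟩
  · intro w _ p _
    obtain ⟨v, hv⟩ := hι.2 p
    exact ⟨v, hv.symm⟩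
  · intro x hx u
    obtain ⟨v, hv⟩ := hι.2 x
    exact absurd hv.symm (hx v)
  · rintro w hw ⟨z, hz, hzw⟩
    rcases Relation.ReflTransGen.cases_tail hzw with h | ⟨y, _, hy⟩
    · obtain ⟨p, hp, _⟩ := hz
      rw [← h] at hp
      exact hroot w hw p hp
    · exact hroot w hw y hy
  · cases m with
    | zero => trivial
    | succ m =>
      intro i y hf q hq
      exact absurd hq (hroot (i, y) hf q)

end Pool.Agent.Q287.NU
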