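import Mathlib

/-! # Random pinning at a selective interface: definitions -/

namespace Pool.Agent.Q287.PN

open Finset MeasureTheory ProbabilityTheory
open scoped ENNReal NNReal Topology

/-- the position after `i` steps of the walk on `ℤ` started at `0` whose `j`-th step is `+1` if
`ε j` is true and `-1` otherwise -/
def walk {n : ℕ} (ε : Fin n → Bool) (i : ℕ) : ℤ :=
  ∑ j : Fin n, if (j : ℕ) < i then (if ε j then 1 else -1) else 0

/-- the Hamiltonian `∑_{i=1}^n [lam (1 + s η_i) 1{w_i = 0} + h sign (w_{i-1}, w_i)]` -/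
noncomputable def energy (lam h s : ℝ) (η : ℕ → ℝ) {n : ℕ} (ε : Fin n → Bool) : ℝ :=
  ∑ i ∈ range n, (lam * (1 + s * η (i + 1)) * (if walk ε (i + 1) = 0 then 1 else 0) +
    h * (if 0 < walk ε i + walk ε (i + 1) then 1 else -1))

/-- the partition function: the mean of `exp (energy)` over the simple random walk -/
noncomputable def Zn (lam h s : ℝ) (η : ℕ → ℝ) (n : ℕ) : ℝ :=
  (∑ ε : Fin n → Bool, Real.exp (energy lam h s η ε)) / 2 ^ n

/-- `f` is the quenched free energy at the parameters `lam, h, s`: almost surely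
`(1/n) log Z_n` converges to `f` -/
def IsFreeEnergy {Ω : Type*} [MeasurableSpace Ω] (μ : Measure Ω) (η : ℕ → Ω → ℝ)
    (lam h s f : ℝ) : Prop :=
  ∀ᵐ ω ∂μ, Filter.Tendsto (fun n : ℕ => Real.log (Zn lam h s (fun i => η i ω) n) / n)
    Filter.atTop (𝓝 f)

/-- the critical curve `h_c(lam) = inf {h ≥ 0 : f(lam,h) = h}`, in `[0,∞]` -/
noncomputable def hc (f : ℝ → ℝ → ℝ) (lam : ℝ) : ℝ≥0∞ :=
  ⨅ (h : ℝ≥0) (_ : f lam h = h), (h : ℝ≥0∞)

end Pool.Agent.Q287.PN
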