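import Mathlib

/-! Pinning at a selective interface: deterministic part. `z` is the forward partition function of
the walk above a wall, with site dependent contact weights `ρ` and additional weights `θ` for loops
of length two. -/

namespace Pool.Agent.Q287.PN

open Finset

/-- forward partition function: paths from `0` to height `x` at time `k` staying nonnegative -/
noncomputable def z (ρ θ : ℕ → ℝ) : ℕ → ℕ → ℝ
  | 0, x => if x = 0 then 1 else 0
  | 1, x => if x = 1 then 1 / 2 else 0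
  | (k + 2), 0 => ρ (k + 2) / 2 * (z ρ θ (k + 1) 1 + θ k / 2 * z ρ θ k 0)
  | (k + 2), (x + 1) => (z ρ θ (k + 1) x + z ρ θ (k + 1) (x + 2)) / 2

/-- backward partition function: `m` steps to go, at time `k`, from height `x` -/
noncomputable def v (ρ θ : ℕ → ℝ) : ℕ → ℕ → ℕ → ℝ
  | 0, _, _ => 1
  | 1, _, 0 => 1 / 2
  | (m + 2), k, 0 => v ρ θ (m + 1) (k + 1) 1 / 2 + θ k * ρ (k + 2) / 4 * v ρ θ m (k + 2) 0
  | (m + 1), k, (x + 1) =>
      ((if x = 0 then ρ (k + 1) else 1) * v ρ θ m (k + 1) x + v ρ θ m (k + 1) (x + 2)) / 2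

variable {ρ θ : ℕ → ℝ}

lemma z_nonneg (hρ : ∀ k, 0 ≤ ρ k) (hθ : ∀ k, 0 ≤ θ k) : ∀ k x, 0 ≤ z ρ θ k x
  | 0, x => by rw [z]; split_ifs <;> norm_num
  | 1, x => by rw [z]; split_ifs <;> norm_num
  | (k + 2), 0 => by
    rw [z]
    have h1 := z_nonneg hρ hθ (k + 1) 1
    have h2 := z_nonneg hρ hθ k 0
    have h3 := hρ (k + 2)
    have h4 := hθ k
    positivity
  | (k + 2), (x + 1) => by
    rw [z]
    have h1 := z_nonneg hρ hθ (k + 1) x
    have h2 := z_nonneg hρ hθ (k + 1) (x + 2)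
    positivity

lemma v_pos (hρ : ∀ k, 0 ≤ ρ k) (hθ : ∀ k, 0 ≤ θ k) : ∀ m k x, 0 < v ρ θ m k x
  | 0, _, _ => by rw [v]; norm_num
  | 1, _, 0 => by rw [v]; norm_num
  | (m + 2), k, 0 => by
    rw [v]
    have h1 := v_pos hρ hθ (m + 1) (k + 1) 1
    have h2 := v_pos hρ hθ m (k + 2) 0
    have h3 := hρ (k + 2)
    have h4 := hθ k
    positivity
  | (m + 1), k, (x + 1) => by
    rw [v]
    have h1 := v_pos hρ hθ m (k + 1) x
    have h2 := v_pos hρ hθ m (k + 1) (x + 2)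
    have h3 : 0 ≤ (if x = 0 then ρ (k + 1) else 1) := by
      split_ifs
      · exact hρ _
      · norm_num
    positivity

/-- the backward function grows at most like the height -/
lemma v_step (hρ : ∀ k, 0 ≤ ρ k) (hθ : ∀ k, 0 ≤ θ k) : ∀ m k x : ℕ,
    ((x : ℝ) + 1) * v ρ θ m k (x + 3) ≤ ((x : ℝ) + 3) * v ρ θ m k (x + 1) := by
  intro m
  induction m with
  | zero => intro k x; simp only [v]; linarith
  | succ m ih =>
    intro k x
    rw [v.eq_4, v.eq_4]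
    have h0 := v_pos hρ hθ m (k + 1) x
    have h2 := v_pos hρ hθ m (k + 1) (x + 2)
    have h4 := v_pos hρ hθ m (k + 1) (x + 4)
    have e1 : x + 2 + 2 = x + 4 := rfl
    rw [e1, if_neg (by omega : ¬ x + 2 = 0)]
    have i1 := ih (k + 1) (x + 1)
    push_cast at i1
    have e2 : x + 1 + 3 = x + 4 := rfl
    have e3 : x + 1 + 1 = x + 2 := rfl
    rw [e2, e3] at i1
    -- i1 : (x + 2) v (x+4) ≤ (x+4) v (x+2)
    have hx : (0:ℝ) ≤ x := Nat.cast_nonneg x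
    rcases Nat.eq_zero_or_pos x with hx0 | hx0
    · subst hx0
      simp only [Nat.cast_zero, zero_add, if_true] at *
      have hr := hρ (k + 1)
      have : 0 ≤ ρ (k + 1) * v ρ θ m (k + 1) 0 := by positivity
      nlinarith
    · obtain ⟨w, rfl⟩ : ∃ w, x = w + 1 := ⟨x - 1, by omega⟩
      rw [if_neg (by omega)]
      have i2 := ih (k + 1) w
      push_cast at *
      have e4 : w + 1 + 2 = w + 3 := rfl
      rw [e4] at *
      -- i2 : (w + 1) v (w+3) ≤ (w+3) v (w+1)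
      have hw : (0:ℝ) ≤ w := Nat.cast_nonneg w
      have e5 : w + 1 + 4 = w + 5 := rfl
      rw [e5] at *
      set A := v ρ θ m (k + 1) (w + 1)
      set B := v ρ θ m (k + 1) (w + 3)
      set C := v ρ θ m (k + 1) (w + 5)
      -- want (w+2) (B + C)/2 ≤ (w+4) (A + B)/2 ; C ≤ (w+5)/(w+3) B; A ≥ (w+1)/(w+3) B
      have j1 : ((w:ℝ) + 3) * ((w + 2) * C) ≤ (w + 2) * ((w + 5) * B) := by nlinarith
      have j2 : ((w:ℝ) + 4) * ((w + 1) * B) ≤ (w + 4) * ((w + 3) * A) := by nlinarith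
      have j3 : ((w:ℝ) + 3) * (((w:ℝ) + 1 + 1) * ((1 * B + C) / 2)) ≤
          (w + 3) * (((w:ℝ) + 1 + 3) * ((1 * A + B) / 2)) := by nlinarith
      exact le_of_mul_le_mul_left j3 (by positivity)

lemma v_two_le (hρ : ∀ k, 0 ≤ ρ k) (hθ : ∀ k, 0 ≤ θ k) (m k : ℕ) :
    v ρ θ m k 2 ≤ 4 * v ρ θ m k 0 := by
  match m with
  | 0 => simp only [v]; norm_num
  | 1 =>
    have e1 : v ρ θ 1 k 2 = 1 := by
      rw [show (2:ℕ) = 1 + 1 from rfl, v.eq_4]; simp [v]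
    have e2 : v ρ θ 1 k 0 = 1 / 2 := by rw [v.eq_2]
    rw [e1, e2]; norm_num
  | (m + 2) =>
    have e1 : v ρ θ (m + 2) k 2 =
        (v ρ θ (m + 1) (k + 1) 1 + v ρ θ (m + 1) (k + 1) 3) / 2 := by
      rw [show (2:ℕ) = 1 + 1 from rfl, v.eq_4]; simp
    have e2 := v.eq_3 ρ θ k m
    rw [e1, e2]
    have h1 := v_step hρ hθ (m + 1) (k + 1) 0
    simp only [Nat.cast_zero, zero_add] at h1
    have h2 := v_pos hρ hθ m (k + 2) 0
    have h3 : 0 ≤ θ k * ρ (k + 2) / 4 * v ρ θ m (k + 2) 0 := by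
      have := hρ (k + 2); have := hθ k; positivity
    linarith

lemma v_zero_le (hρ : ∀ k, 0 ≤ ρ k) (hθ : ∀ k, 0 ≤ θ k) (m k : ℕ) :
    v ρ θ m k 0 ≤ (1 + θ k) * v ρ θ m k 2 := by
  have ht := hθ k
  match m with
  | 0 => simp only [v]; linarith
  | 1 =>
    have e1 : v ρ θ 1 k 2 = 1 := by
      rw [show (2:ℕ) = 1 + 1 from rfl, v.eq_4]; simp [v]
    have e2 : v ρ θ 1 k 0 = 1 / 2 := by rw [v.eq_2]
    rw [e1, e2]; linarith
  | (m + 2) =>
    have e1 : v ρ θ (m + 2) k 2 =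
        (v ρ θ (m + 1) (k + 1) 1 + v ρ θ (m + 1) (k + 1) 3) / 2 := by
      rw [show (2:ℕ) = 1 + 1 from rfl, v.eq_4]; simp
    have e2 := v.eq_3 ρ θ k m
    have e3 : v ρ θ (m + 1) (k + 1) 1 =
        (ρ (k + 2) * v ρ θ m (k + 2) 0 + v ρ θ m (k + 2) 2) / 2 := by
      rw [show v ρ θ (m + 1) (k + 1) 1 = v ρ θ (m + 1) (k + 1) (0 + 1) from rfl, v.eq_4]; simp
    have h2 := v_pos hρ hθ m (k + 2) 2
    have h3 := v_pos hρ hθ (m + 1) (k + 1) 3
    have h4 : ρ (k + 2) * v ρ θ m (k + 2) 0 ≤ 2 * v ρ θ (m + 1) (k + 1) 1 := by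
      rw [e3]; linarith
    rw [e1, e2]
    have h5 : θ k * (ρ (k + 2) * v ρ θ m (k + 2) 0) ≤ θ k * (2 * v ρ θ (m + 1) (k + 1) 1) :=
      mul_le_mul_of_nonneg_left h4 ht
    nlinarith

lemma v_short (hρ : ∀ k, 0 ≤ ρ k) (hθ : ∀ k, 0 ≤ θ k) (m k : ℕ) (h0 : θ k = 0) :
    v ρ θ (m + 2) k 0 ≤ (ρ (k + 2) + 4) / 4 * v ρ θ m (k + 2) 0 := by
  have e2 := v.eq_3 ρ θ k m
  have e3 : v ρ θ (m + 1) (k + 1) 1 =
      (ρ (k + 2) * v ρ θ m (k + 2) 0 + v ρ θ m (k + 2) 2) / 2 := by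
    rw [show v ρ θ (m + 1) (k + 1) 1 = v ρ θ (m + 1) (k + 1) (0 + 1) from rfl, v.eq_4]; simp
  have h1 := v_two_le hρ hθ m (k + 2)
  rw [e2, e3, h0]
  linarith

/-! ### Duality -/

lemma z_zero : ∀ k x, k < x → z ρ θ k x = 0
  | 0, x, h => by rw [z, if_neg (by omega)]
  | 1, x, h => by rw [z, if_neg (by omega)]
  | (k + 2), 0, h => by omega
  | (k + 2), (x + 1), h => by
    rw [z, z_zero (k + 1) x (by omega), z_zero (k + 1) (x + 2) (by omega)]
    norm_num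

/-- pending loops -/
noncomputable def pend (ρ θ : ℕ → ℝ) : ℕ → ℕ → ℝ
  | (m + 1), (k + 1) => θ k * ρ (k + 2) / 4 * z ρ θ k 0 * v ρ θ m (k + 2) 0
  | _, _ => 0

lemma z_succ_succ (k x : ℕ) :
    z ρ θ (k + 1) (x + 1) = (z ρ θ k x + z ρ θ k (x + 2)) / 2 := by
  match k with
  | 0 =>
    rw [z.eq_2, z.eq_1, z.eq_1]
    rcases Nat.eq_zero_or_pos x with h | h
    · subst h; simp
    · rw [if_neg (by omega), if_neg (by omega), if_neg (by omega)]; norm_num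
  | (k + 1) => rw [z.eq_4]

/-- the dual pairing -/
noncomputable def S (ρ θ : ℕ → ℝ) (N m k : ℕ) : ℝ :=
  ∑ x ∈ range N, z ρ θ k x * v ρ θ m k x + pend ρ θ m k

lemma S_step (N m k : ℕ) (hN : k + 2 < N) : S ρ θ N (m + 1) k = S ρ θ N m (k + 1) := by
  obtain ⟨M, rfl⟩ : ∃ M, N = M + 1 := ⟨N - 1, by omega⟩
  unfold S
  rw [Finset.sum_range_succ' (fun x => z ρ θ k x * v ρ θ (m + 1) k x),
    Finset.sum_range_succ' (fun x => z ρ θ (k + 1) x * v ρ θ m (k + 1) x)]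
  have hL : ∀ x ∈ range M, z ρ θ k (x + 1) * v ρ θ (m + 1) k (x + 1) =
      (if x = 0 then (ρ (k + 1) - 1) * z ρ θ k 1 * v ρ θ m (k + 1) 0 / 2 else 0) +
      z ρ θ k (x + 1) * v ρ θ m (k + 1) x / 2 + z ρ θ k (x + 1) * v ρ θ m (k + 1) (x + 2) / 2 := by
    intro x _
    rw [v.eq_4]
    split_ifs with hx
    · subst hx; ring
    · ring
  have hR : ∀ x ∈ range M, z ρ θ (k + 1) (x + 1) * v ρ θ m (k + 1) (x + 1) =
      z ρ θ k x * v ρ θ m (k + 1) (x + 1) / 2 + z ρ θ k (x + 2) * v ρ θ m (k + 1) (x + 1) / 2 := by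
    intro x _
    rw [z_succ_succ]
    ring
  rw [Finset.sum_congr rfl hL, Finset.sum_congr rfl hR, Finset.sum_add_distrib,
    Finset.sum_add_distrib, Finset.sum_add_distrib]
  have hM : 0 < M := by omega
  obtain ⟨M', rfl⟩ : ∃ M', M = M' + 1 := ⟨M - 1, by omega⟩
  have e1 : ∑ x ∈ range (M' + 1),
      (if x = 0 then (ρ (k + 1) - 1) * z ρ θ k 1 * v ρ θ m (k + 1) 0 / 2 else 0) =
      (ρ (k + 1) - 1) * z ρ θ k 1 * v ρ θ m (k + 1) 0 / 2 := by
    rw [Finset.sum_ite_eq' (range (M' + 1)) 0]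
    simp
  have e2 : ∑ x ∈ range (M' + 1), z ρ θ k x * v ρ θ m (k + 1) (x + 1) / 2 =
      ∑ x ∈ range (M' + 1), z ρ θ k (x + 1) * v ρ θ m (k + 1) (x + 2) / 2 +
      z ρ θ k 0 * v ρ θ m (k + 1) 1 / 2 := by
    rw [Finset.sum_range_succ' (fun x => z ρ θ k x * v ρ θ m (k + 1) (x + 1) / 2),
      Finset.sum_range_succ (fun x => z ρ θ k (x + 1) * v ρ θ m (k + 1) (x + 2) / 2),
      z_zero k (M' + 1) (by omega)]
    ring
  have e3 : ∑ x ∈ range (M' + 1), z ρ θ k (x + 1) * v ρ θ m (k + 1) x / 2 =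
      ∑ x ∈ range (M' + 1), z ρ θ k (x + 2) * v ρ θ m (k + 1) (x + 1) / 2 +
      z ρ θ k 1 * v ρ θ m (k + 1) 0 / 2 := by
    rw [Finset.sum_range_succ' (fun x => z ρ θ k (x + 1) * v ρ θ m (k + 1) x / 2),
      Finset.sum_range_succ (fun x => z ρ θ k (x + 2) * v ρ θ m (k + 1) (x + 1) / 2),
      z_zero k (M' + 2) (by omega)]
    ring
  rw [e1, e2, e3]
  have e4 : z ρ θ (k + 1) 0 * v ρ θ m (k + 1) 0 =
      ρ (k + 1) * z ρ θ k 1 * v ρ θ m (k + 1) 0 / 2 + pend ρ θ (m + 1) k := by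
    match k with
    | 0 =>
      have a1 : z ρ θ (0 + 1) 0 = 0 := by rw [z.eq_2]; simp
      have a2 : z ρ θ 0 1 = 0 := by rw [z.eq_1]; simp
      rw [a1, a2]; simp [pend]
    | (k + 1) =>
      rw [z.eq_3]
      simp only [pend]
      ring
  have e5 : z ρ θ k 0 * v ρ θ (m + 1) k 0 =
      z ρ θ k 0 * v ρ θ m (k + 1) 1 / 2 + pend ρ θ m (k + 1) := by
    match m with
    | 0 =>
      rw [v.eq_2, v.eq_1]; simp only [pend]; ring
    | (m + 1) =>
      rw [v.eq_3]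
      simp only [pend]
      ring
  rw [e4, e5]
  ring

lemma S_eq (m : ℕ) : ∀ (N k : ℕ), k + m + 1 < N → S ρ θ N m k = S ρ θ N 0 (k + m) := by
  induction m with
  | zero => intro N k _; rfl
  | succ m ih =>
    intro N k h
    rw [S_step N m k (by omega), ih N (k + 1) (by omega)]
    congr 1
    ring

/-- the total partition function -/
noncomputable def tot (ρ θ : ℕ → ℝ) (n : ℕ) : ℝ := ∑ x ∈ range (n + 1), z ρ θ n x

lemma tot_eq_S (n N : ℕ) (hN : n < N) : tot ρ θ n = S ρ θ N 0 n := by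
  unfold tot S
  have : pend ρ θ 0 n = 0 := by cases n <;> rfl
  rw [this, add_zero]
  simp only [v, mul_one]
  apply Finset.sum_subset
  · intro x hx
    rw [Finset.mem_range] at *
    omega
  · intro x _ hx
    rw [Finset.mem_range] at hx
    exact z_zero n x (by omega)

/-- decomposition of the total at a site -/
lemma tot_split (m k : ℕ) : tot ρ θ (k + m) = z ρ θ k 0 * v ρ θ m k 0 +
    (∑ x ∈ range (k + m + 2), z ρ θ k (x + 1) * v ρ θ m k (x + 1) + pend ρ θ m k) := by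
  rw [tot_eq_S (k + m) (k + m + 3) (by omega), ← S_eq m (k + m + 3) k (by omega)]
  unfold S
  rw [Finset.sum_range_succ' (fun x => z ρ θ k x * v ρ θ m k x)]
  ring

/-! ### Dependence on the weights -/

lemma z_congr {ρ' θ' : ℕ → ℝ} : ∀ k x, (∀ j, j ≤ k → ρ j = ρ' j) → (∀ j, j + 2 ≤ k → θ j = θ' j) →
    z ρ θ k x = z ρ' θ' k x
  | 0, x, _, _ => by rw [z.eq_1, z.eq_1]
  | 1, x, _, _ => by rw [z.eq_2, z.eq_2]
  | (k + 2), 0, h1, h2 => by
    rw [z.eq_3, z.eq_3, h1 (k + 2) le_rfl, h2 k le_rfl,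
      z_congr (k + 1) 1 (fun j hj => h1 j (by omega)) (fun j hj => h2 j (by omega)),
      z_congr k 0 (fun j hj => h1 j (by omega)) (fun j hj => h2 j (by omega))]
  | (k + 2), (x + 1), h1, h2 => by
    rw [z.eq_4, z.eq_4,
      z_congr (k + 1) x (fun j hj => h1 j (by omega)) (fun j hj => h2 j (by omega)),
      z_congr (k + 1) (x + 2) (fun j hj => h1 j (by omega)) (fun j hj => h2 j (by omega))]

lemma v_congr {ρ' θ' : ℕ → ℝ} : ∀ m k x, (∀ j, k < j → ρ j = ρ' j) → (∀ j, k ≤ j → θ j = θ' j) →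
    v ρ θ m k x = v ρ' θ' m k x
  | 0, _, _, _, _ => by rw [v.eq_1, v.eq_1]
  | 1, _, 0, _, _ => by rw [v.eq_2, v.eq_2]
  | (m + 2), k, 0, h1, h2 => by
    rw [v.eq_3, v.eq_3, h1 (k + 2) (by omega), h2 k le_rfl,
      v_congr (m + 1) (k + 1) 1 (fun j hj => h1 j (by omega)) (fun j hj => h2 j (by omega)),
      v_congr m (k + 2) 0 (fun j hj => h1 j (by omega)) (fun j hj => h2 j (by omega))]
  | (m + 1), k, (x + 1), h1, h2 => by
    rw [v.eq_4, v.eq_4, h1 (k + 1) (by omega),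
      v_congr m (k + 1) x (fun j hj => h1 j (by omega)) (fun j hj => h2 j (by omega)),
      v_congr m (k + 1) (x + 2) (fun j hj => h1 j (by omega)) (fun j hj => h2 j (by omega))]

lemma v_congr' {ρ' θ' : ℕ → ℝ} (m k x : ℕ) (h1 : ∀ j, k < j → ρ j = ρ' j)
    (h2 : ∀ j, k < j → θ j = θ' j) : v ρ θ m k (x + 1) = v ρ' θ' m k (x + 1) := by
  match m with
  | 0 => rw [v.eq_1, v.eq_1]
  | (m + 1) =>
    rw [v.eq_4, v.eq_4, h1 (k + 1) (by omega),
      v_congr m (k + 1) x (fun j hj => h1 j (by omega)) (fun j hj => h2 j (by omega)),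
      v_congr m (k + 1) (x + 2) (fun j hj => h1 j (by omega)) (fun j hj => h2 j (by omega))]

/-- the part of the total coming from paths not at the wall at time `k` -/
noncomputable def rest (ρ θ : ℕ → ℝ) (m k : ℕ) : ℝ :=
  ∑ x ∈ range (k + m + 2), z ρ θ k (x + 1) * v ρ θ m k (x + 1) + pend ρ θ m k

lemma tot_split' (m k : ℕ) : tot ρ θ (k + m) = z ρ θ k 0 * v ρ θ m k 0 + rest ρ θ m k :=
  tot_split m k

lemma z_succ_congr {ρ' θ' : ℕ → ℝ} (k x : ℕ) (h1 : ∀ j, j < k → ρ j = ρ' j)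
    (h2 : ∀ j, j < k → θ j = θ' j) : z ρ θ k (x + 1) = z ρ' θ' k (x + 1) := by
  match k with
  | 0 => rw [z.eq_1, z.eq_1]
  | (k + 1) =>
    rw [z_succ_succ, z_succ_succ,
      z_congr k x (fun j hj => h1 j (by omega)) (fun j hj => h2 j (by omega)),
      z_congr k (x + 2) (fun j hj => h1 j (by omega)) (fun j hj => h2 j (by omega))]

lemma rest_congr {ρ' θ' : ℕ → ℝ} (m k : ℕ) (h1 : ∀ j, j ≠ k → ρ j = ρ' j)
    (h2 : ∀ j, j ≠ k → θ j = θ' j) : rest ρ θ m k = rest ρ' θ' m k := by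
  unfold rest
  congr 1
  · apply Finset.sum_congr rfl
    intro x _
    rw [z_succ_congr k x (fun j hj => h1 j (by omega)) (fun j hj => h2 j (by omega)),
      v_congr' m k x (fun j hj => h1 j (by omega)) (fun j hj => h2 j (by omega))]
  · match m, k with
    | 0, _ => simp [pend]
    | (m + 1), 0 => simp [pend]
    | (m + 1), (k + 1) =>
      simp only [pend]
      rw [h1 (k + 2) (by omega), h2 k (by omega),
        z_congr k 0 (fun j hj => h1 j (by omega)) (fun j hj => h2 j (by omega)),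
        v_congr m (k + 2) 0 (fun j hj => h1 j (by omega)) (fun j hj => h2 j (by omega))]

lemma rest_nonneg (hρ : ∀ k, 0 ≤ ρ k) (hθ : ∀ k, 0 ≤ θ k) (m k : ℕ) : 0 ≤ rest ρ θ m k := by
  unfold rest
  apply add_nonneg
  · exact Finset.sum_nonneg fun x _ =>
      mul_nonneg (z_nonneg hρ hθ _ _) (v_pos hρ hθ _ _ _).le
  · match m, k with
    | 0, _ => simp [pend]
    | (m + 1), 0 => simp [pend]
    | (m + 1), (k + 1) =>
      simp only [pend]
      have h1 := hθ k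
      have h2 := hρ (k + 2)
      have h3 := z_nonneg hρ hθ k 0
      have h4 := v_pos hρ hθ m (k + 2) 0
      positivity

lemma rest_ge (hρ : ∀ k, 0 ≤ ρ k) (hθ : ∀ k, 0 ≤ θ k) (m k : ℕ) :
    z ρ θ (k + 1) 1 / 2 * v ρ θ m (k + 2) 2 ≤ rest ρ θ m (k + 2) := by
  have h0 : z ρ θ (k + 2) 2 * v ρ θ m (k + 2) 2 ≤ rest ρ θ m (k + 2) := by
    unfold rest
    have h1 : z ρ θ (k + 2) (1 + 1) * v ρ θ m (k + 2) (1 + 1) ≤
        ∑ x ∈ range (k + 2 + m + 2), z ρ θ (k + 2) (x + 1) * v ρ θ m (k + 2) (x + 1) :=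
      Finset.single_le_sum (f := fun x => z ρ θ (k + 2) (x + 1) * v ρ θ m (k + 2) (x + 1))
        (fun x _ => mul_nonneg (z_nonneg hρ hθ _ _) (v_pos hρ hθ _ _ _).le)
        (Finset.mem_range.2 (by omega))
    have h2 : 0 ≤ pend ρ θ m (k + 2) := by
      match m with
      | 0 => simp [pend]
      | (m + 1) =>
        simp only [pend]
        have h1 := hθ (k + 1)
        have h2 := hρ (k + 3)
        have h3 := z_nonneg hρ hθ (k + 1) 0
        have h4 := v_pos hρ hθ m (k + 3) 0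
        positivity
    linarith
  refine le_trans ?_ h0
  apply mul_le_mul_of_nonneg_right _ (v_pos hρ hθ _ _ _).le
  have h1 : z ρ θ (k + 2) 2 = (z ρ θ (k + 1) 1 + z ρ θ (k + 1) 3) / 2 := z_succ_succ (k + 1) 1
  rw [h1]
  linarith [z_nonneg hρ hθ (k + 1) 3]

lemma tot_pos (hρ : ∀ k, 0 ≤ ρ k) (hθ : ∀ k, 0 ≤ θ k) (n : ℕ) : 0 < tot ρ θ n := by
  have h := tot_split' (ρ := ρ) (θ := θ) n 0
  rw [zero_add] at h
  rw [h]
  have h1 : z ρ θ 0 0 = 1 := by rw [z.eq_1]; simp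
  rw [h1]
  have h2 := v_pos hρ hθ n 0 0
  have h3 := rest_nonneg hρ hθ n 0
  linarith

end Pool.Agent.Q287.PN
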