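import Pool.Agent.Q287.PN1

/-! Pinning at a selective interface: the site-by-site comparison (deterministic part). -/

namespace Pool.Agent.Q287.PN

open Finset Function

variable {ρ θ : ℕ → ℝ}

/-- the weight of the paths at the wall at time `i`, with `m + 2` steps to go -/
noncomputable def G (ρ θ : ℕ → ℝ) (m i : ℕ) : ℝ := z ρ θ i 0 * v ρ θ (m + 2) i 0

lemma G_nonneg (hρ : ∀ k, 0 ≤ ρ k) (hθ : ∀ k, 0 ≤ θ k) (m i : ℕ) : 0 ≤ G ρ θ m i :=
  mul_nonneg (z_nonneg hρ hθ _ _) (v_pos hρ hθ _ _ _).le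

lemma G_le_tot (hρ : ∀ k, 0 ≤ ρ k) (hθ : ∀ k, 0 ≤ θ k) (m i : ℕ) :
    G ρ θ m i ≤ tot ρ θ (i + (m + 2)) := by
  rw [tot_split' (m + 2) i]
  unfold G
  linarith [rest_nonneg hρ hθ (m + 2) i]

lemma tot_split_G (m i : ℕ) : tot ρ θ (i + (m + 2)) = G ρ θ m i + rest ρ θ (m + 2) i :=
  tot_split' (m + 2) i

lemma z_update (i : ℕ) (hi : 1 ≤ i) (c : ℝ) :
    z (update ρ i (c * ρ i)) θ i 0 = c * z ρ θ i 0 := by
  match i with
  | 0 => omega
  | 1 => rw [z.eq_2, z.eq_2]; simp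
  | (k + 2) =>
    rw [z.eq_3, z.eq_3, update_self]
    rw [z_congr (ρ := update ρ (k + 2) (c * ρ (k + 2))) (θ := θ) (ρ' := ρ) (θ' := θ) (k + 1) 1
      (fun j hj => by rw [update_of_ne (by omega)]) (fun _ _ => rfl),
      z_congr (ρ := update ρ (k + 2) (c * ρ (k + 2))) (θ := θ) (ρ' := ρ) (θ' := θ) k 0
      (fun j hj => by rw [update_of_ne (by omega)]) (fun _ _ => rfl)]
    ring

/-- changing the contact weight at `i` -/
lemma tot_old (m i : ℕ) (hi : 1 ≤ i) (d : ℝ) :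
    tot (update ρ i ((1 + d) * ρ i)) θ (i + (m + 2)) =
      tot ρ θ (i + (m + 2)) + d * G ρ θ m i := by
  rw [tot_split' (m + 2) i, tot_split' (m + 2) i, z_update i hi]
  rw [v_congr (ρ := update ρ i ((1 + d) * ρ i)) (θ := θ) (ρ' := ρ) (θ' := θ) (m + 2) i 0
      (fun j hj => by rw [update_of_ne (by omega)]) (fun _ _ => rfl),
    rest_congr (ρ := update ρ i ((1 + d) * ρ i)) (θ := θ) (ρ' := ρ) (θ' := θ) (m + 2) i
      (fun j hj => by rw [update_of_ne (by omega)]) (fun _ _ => rfl)]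
  unfold G
  ring

/-- changing the loop weight at `i` -/
lemma tot_new (hρ : ∀ k, 0 ≤ ρ k) (hθ : ∀ k, 0 ≤ θ k) (m i : ℕ) (h0 : θ i = 0)
    {d : ℝ} (hd : 0 ≤ d) :
    tot ρ θ (i + (m + 2)) + d * (ρ (i + 2) / (ρ (i + 2) + 4)) * G ρ θ m i ≤
      tot ρ (update θ i d) (i + (m + 2)) := by
  rw [tot_split' (m + 2) i, tot_split' (m + 2) i]
  rw [z_congr (ρ := ρ) (θ := update θ i d) (ρ' := ρ) (θ' := θ) i 0 (fun _ _ => rfl)
      (fun j hj => by rw [update_of_ne (by omega)]),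
    rest_congr (ρ := ρ) (θ := update θ i d) (ρ' := ρ) (θ' := θ) (m + 2) i (fun _ _ => rfl)
      (fun j hj => by rw [update_of_ne (by omega)])]
  have e1 : v ρ (update θ i d) (m + 2) i 0 =
      v ρ θ (m + 2) i 0 + d * ρ (i + 2) / 4 * v ρ θ m (i + 2) 0 := by
    rw [v.eq_3, v.eq_3, update_self, h0]
    rw [v_congr (ρ := ρ) (θ := update θ i d) (ρ' := ρ) (θ' := θ) (m + 1) (i + 1) 1
      (fun _ _ => rfl) (fun j hj => by rw [update_of_ne (by omega)]),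
      v_congr (ρ := ρ) (θ := update θ i d) (ρ' := ρ) (θ' := θ) m (i + 2) 0
      (fun _ _ => rfl) (fun j hj => by rw [update_of_ne (by omega)])]
    ring
  rw [e1]
  have h1 := v_short hρ hθ m i h0
  have hr := hρ (i + 2)
  have hz := z_nonneg hρ hθ i 0
  have h2 : ρ (i + 2) / (ρ (i + 2) + 4) * v ρ θ (m + 2) i 0 ≤
      ρ (i + 2) / 4 * v ρ θ m (i + 2) 0 := by
    calc ρ (i + 2) / (ρ (i + 2) + 4) * v ρ θ (m + 2) i 0
        ≤ ρ (i + 2) / (ρ (i + 2) + 4) * ((ρ (i + 2) + 4) / 4 * v ρ θ m (i + 2) 0) :=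
          mul_le_mul_of_nonneg_left h1 (by positivity)
      _ = ρ (i + 2) / 4 * v ρ θ m (i + 2) 0 := by
          field_simp
  unfold G
  have h3 : d * z ρ θ i 0 * (ρ (i + 2) / (ρ (i + 2) + 4) * v ρ θ (m + 2) i 0) ≤
      d * z ρ θ i 0 * (ρ (i + 2) / 4 * v ρ θ m (i + 2) 0) :=
    mul_le_mul_of_nonneg_left h2 (by positivity)
  nlinarith

lemma update_nonneg (hρ : ∀ k, 0 ≤ ρ k) (i : ℕ) {y : ℝ} (hy : 0 ≤ y) :
    ∀ k, 0 ≤ update ρ i y k := by
  intro k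
  by_cases h : k = i
  · rw [h, update_self]; exact hy
  · rw [update_of_ne h]; exact hρ k

/-- the total depends weakly on the weight at `i + 2` -/
lemma tot_comp (hρ : ∀ k, 0 ≤ ρ k) (hθ : ∀ k, 0 ≤ θ k) (m i : ℕ) (h0 : θ i = 0)
    (h2 : θ (i + 2) = 0) {x y : ℝ} (hx : 0 ≤ x) (hy : 0 ≤ y) :
    tot (update ρ (i + 2) y) θ (i + 2 + m) ≤ (1 + y) * tot (update ρ (i + 2) x) θ (i + 2 + m) := by
  have hρy := update_nonneg hρ (i + 2) hy
  have hρx := update_nonneg hρ (i + 2) hx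
  rw [tot_split' m (i + 2), tot_split' m (i + 2)]
  have hrest : rest (update ρ (i + 2) x) θ m (i + 2) = rest (update ρ (i + 2) y) θ m (i + 2) :=
    rest_congr m (i + 2) (fun j hj => by rw [update_of_ne hj, update_of_ne hj]) (fun _ _ => rfl)
  have h3 := rest_ge hρy hθ m i
  have h4 : z (update ρ (i + 2) y) θ (i + 2) 0 =
      y * (z (update ρ (i + 2) y) θ (i + 1) 1 / 2) := by
    rw [z.eq_3, update_self, h0]; ring
  have h5 := v_zero_le hρy hθ m (i + 2)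
  rw [h2] at h5
  have h6 := z_nonneg hρy hθ (i + 1) 1
  have h7 : z (update ρ (i + 2) y) θ (i + 2) 0 * v (update ρ (i + 2) y) θ m (i + 2) 0 ≤
      y * rest (update ρ (i + 2) y) θ m (i + 2) := by
    rw [h4, mul_assoc]
    apply mul_le_mul_of_nonneg_left _ hy
    refine le_trans ?_ h3
    apply mul_le_mul_of_nonneg_left _ (by positivity)
    linarith
  have h8 : 0 ≤ z (update ρ (i + 2) x) θ (i + 2) 0 * v (update ρ (i + 2) x) θ m (i + 2) 0 :=
    mul_nonneg (z_nonneg hρx hθ _ _) (v_pos hρx hθ _ _ _).le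
  rw [hrest]
  have h9 := rest_nonneg hρy hθ m (i + 2)
  nlinarith

lemma G_mono (hρ : ∀ k, 0 ≤ ρ k) (hθ : ∀ k, 0 ≤ θ k) (m i : ℕ) (h0 : θ i = 0)
    {x y : ℝ} (hx : 0 ≤ x) (hxy : x ≤ y) :
    G (update ρ (i + 2) x) θ m i ≤ G (update ρ (i + 2) y) θ m i := by
  have hρx := update_nonneg hρ (i + 2) hx
  unfold G
  have e1 : z (update ρ (i + 2) x) θ i 0 = z (update ρ (i + 2) y) θ i 0 :=
    z_congr i 0 (fun j hj => by rw [update_of_ne (by omega), update_of_ne (by omega)])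
      (fun _ _ => rfl)
  rw [e1]
  apply mul_le_mul_of_nonneg_left _ (z_nonneg (update_nonneg hρ (i + 2) (hx.trans hxy)) hθ _ _)
  have e2 : ∀ w : ℝ, v (update ρ (i + 2) w) θ (m + 2) i 0 =
      (w * v ρ θ m (i + 2) 0 + v ρ θ m (i + 2) 2) / 4 := by
    intro w
    rw [v.eq_3, h0, show v (update ρ (i + 2) w) θ (m + 1) (i + 1) 1 =
      v (update ρ (i + 2) w) θ (m + 1) (i + 1) (0 + 1) from rfl, v.eq_4, if_pos rfl, update_self]
    rw [v_congr (ρ := update ρ (i + 2) w) (θ := θ) (ρ' := ρ) (θ' := θ) m (i + 1 + 1) 0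
      (fun j hj => by rw [update_of_ne (by omega)]) (fun _ _ => rfl),
      v_congr (ρ := update ρ (i + 2) w) (θ := θ) (ρ' := ρ) (θ' := θ) m (i + 1 + 1) (0 + 2)
      (fun j hj => by rw [update_of_ne (by omega)]) (fun _ _ => rfl)]
    ring
  rw [e2, e2]
  have := v_pos hρ hθ m (i + 2) 0
  nlinarith

/-- the comparison of the contact probabilities -/
lemma g_comp (hρ : ∀ k, 0 ≤ ρ k) (hθ : ∀ k, 0 ≤ θ k) (m i : ℕ) (h0 : θ i = 0)
    (h2 : θ (i + 2) = 0) {x y : ℝ} (hx : 0 ≤ x) (hxy : x ≤ y) :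
    G (update ρ (i + 2) x) θ m i / tot (update ρ (i + 2) x) θ (i + (m + 2)) ≤
      (1 + y) * (G (update ρ (i + 2) y) θ m i / tot (update ρ (i + 2) y) θ (i + (m + 2))) := by
  have hy := hx.trans hxy
  have hρy := update_nonneg hρ (i + 2) hy
  have hρx := update_nonneg hρ (i + 2) hx
  have e : i + (m + 2) = i + 2 + m := by ring
  rw [e]
  have t1 := tot_pos hρx hθ (i + 2 + m)
  have t2 := tot_pos hρy hθ (i + 2 + m)
  have h3 := tot_comp hρ hθ m i h0 h2 hx hy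
  have h4 := G_mono hρ hθ m i h0 hx hxy
  have h5 := G_nonneg hρy hθ m i
  rw [← mul_div_assoc, div_le_div_iff₀ t1 t2]
  calc G (update ρ (i + 2) x) θ m i * tot (update ρ (i + 2) y) θ (i + 2 + m)
      ≤ G (update ρ (i + 2) y) θ m i * ((1 + y) * tot (update ρ (i + 2) x) θ (i + 2 + m)) :=
        mul_le_mul h4 h3 t2.le h5
    _ = _ := by ring

end Pool.Agent.Q287.PN
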