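import Pool.Agent.Q287.PN0
import Pool.Agent.Q287.PN2

/-! Pinning at a selective interface: bounds and comparison with the walk. -/

namespace Pool.Agent.Q287.PN

open Finset Function

variable {ρ θ : ℕ → ℝ}

lemma tot_eq_v (n : ℕ) : tot ρ θ n = v ρ θ n 0 0 := by
  have h := tot_split' (ρ := ρ) (θ := θ) n 0
  rw [zero_add] at h
  rw [h]
  have h1 : z ρ θ 0 0 = 1 := by rw [z.eq_1]; simp
  have h2 : rest ρ θ n 0 = 0 := by
    unfold rest
    have h3 : pend ρ θ n 0 = 0 := by cases n <;> rfl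
    rw [h3, add_zero]
    apply Finset.sum_eq_zero
    intro x _
    rw [z.eq_1, if_neg (by omega), zero_mul]
  rw [h1, h2]; ring

lemma v_lower (hρ : ∀ k, 0 ≤ ρ k) (hθ : ∀ k, 0 ≤ θ k) : ∀ m k x : ℕ,
    ((x : ℝ) + 1) / ((x : ℝ) + 1 + m) ≤ v ρ θ m k (x + 1) := by
  intro m
  induction m with
  | zero => intro k x; rw [v.eq_1]; simp; rw [div_self (by positivity)]
  | succ m ih =>
    intro k x
    rw [v.eq_4]
    have h2 := ih (k + 1) (x + 1)
    rcases Nat.eq_zero_or_pos x with h | h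
    · subst h
      have h0 : 0 ≤ (if (0:ℕ) = 0 then ρ (k + 1) else 1) * v ρ θ m (k + 1) 0 := by
        rw [if_pos rfl]; exact mul_nonneg (hρ _) (v_pos hρ hθ _ _ _).le
      push_cast at *
      have h3 : ((0:ℝ) + 1) / (0 + 1 + (m + 1)) = ((0:ℝ) + 1 + 1) / (0 + 1 + 1 + m) / 2 := by
        field_simp
        ring
      rw [h3]
      have h4 : ((0:ℝ) + 1 + 1) / (0 + 1 + 1 + m) ≤ v ρ θ m (k + 1) (0 + 2) := by
        simpa using h2
      linarith
    · obtain ⟨w, rfl⟩ : ∃ w, x = w + 1 := ⟨x - 1, by omega⟩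
      rw [if_neg (by omega)]
      have h1 := ih (k + 1) w
      push_cast at *
      have h3 : ((w:ℝ) + 1 + 1) / (w + 1 + 1 + (m + 1)) ≤
          (((w:ℝ) + 1) / (w + 1 + m) + (w + 1 + 1 + 1) / (w + 1 + 1 + 1 + m)) / 2 := by
        have a1 : ((w:ℝ) + 1) / (w + 1 + 1 + 1 + m) ≤ ((w:ℝ) + 1) / (w + 1 + m) :=
          div_le_div_of_nonneg_left (by positivity) (by positivity) (by linarith)
        have a2 : ((w:ℝ) + 1 + 1) / (w + 1 + 1 + (m + 1)) =
            (((w:ℝ) + 1) / (w + 1 + 1 + 1 + m) + (w + 1 + 1 + 1) / (w + 1 + 1 + 1 + m)) / 2 := by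
          field_simp
          ring
        rw [a2]
        linarith
      have e : w + 1 + 1 + 1 = w + 1 + 2 := rfl
      rw [e] at h2
      linarith

lemma tot_lower (hρ : ∀ k, 0 ≤ ρ k) (hθ : ∀ k, 0 ≤ θ k) (n : ℕ) :
    1 / (2 * ((n : ℝ) + 1)) ≤ tot ρ θ n := by
  rw [tot_eq_v]
  match n with
  | 0 => rw [v.eq_1]; norm_num
  | 1 => rw [v.eq_2]; norm_num
  | (m + 2) =>
    rw [v.eq_3]
    have h1 := v_lower hρ hθ (m + 1) (0 + 1) 0
    push_cast at *
    have h2 : 0 ≤ θ 0 * ρ (0 + 2) / 4 * v ρ θ m (0 + 2) 0 := by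
      have := hρ (0 + 2); have := hθ 0; have := v_pos hρ hθ m (0 + 2) 0; positivity
    have h3 : 1 / (2 * ((m:ℝ) + 2 + 1)) ≤ ((0:ℝ) + 1) / (0 + 1 + (m + 1)) / 2 := by
      rw [div_div, div_le_div_iff₀ (by positivity) (by positivity)]
      nlinarith
    linarith

lemma v_mono {ρ' θ' : ℕ → ℝ} (hρ : ∀ k, 0 ≤ ρ k) (hθ : ∀ k, 0 ≤ θ k) (h1 : ∀ k, ρ k ≤ ρ' k)
    (h2 : ∀ k, θ k ≤ θ' k) : ∀ m k x, v ρ θ m k x ≤ v ρ' θ' m k x
  | 0, _, _ => by rw [v.eq_1, v.eq_1]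
  | 1, _, 0 => by rw [v.eq_2, v.eq_2]
  | (m + 2), k, 0 => by
    rw [v.eq_3, v.eq_3]
    have a1 := v_mono hρ hθ h1 h2 (m + 1) (k + 1) 1
    have a2 := v_mono hρ hθ h1 h2 m (k + 2) 0
    have a3 : θ k * ρ (k + 2) ≤ θ' k * ρ' (k + 2) :=
      mul_le_mul (h2 k) (h1 _) (hρ _) ((hθ k).trans (h2 k))
    have a4 : θ k * ρ (k + 2) / 4 * v ρ θ m (k + 2) 0 ≤
        θ' k * ρ' (k + 2) / 4 * v ρ' θ' m (k + 2) 0 := by
      apply mul_le_mul (by linarith) a2 (v_pos hρ hθ _ _ _).le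
      have : 0 ≤ θ' k * ρ' (k + 2) := le_trans (mul_nonneg (hθ k) (hρ _)) a3
      linarith
    linarith
  | (m + 1), k, (x + 1) => by
    rw [v.eq_4, v.eq_4]
    have a1 := v_mono hρ hθ h1 h2 m (k + 1) x
    have a2 := v_mono hρ hθ h1 h2 m (k + 1) (x + 2)
    have a3 : (if x = 0 then ρ (k + 1) else 1) * v ρ θ m (k + 1) x ≤
        (if x = 0 then ρ' (k + 1) else 1) * v ρ' θ' m (k + 1) x := by
      split_ifs
      · exact mul_le_mul (h1 _) a1 (v_pos hρ hθ _ _ _).le ((hρ _).trans (h1 _))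
      · linarith
    linarith

lemma tot_mono {ρ' θ' : ℕ → ℝ} (hρ : ∀ k, 0 ≤ ρ k) (hθ : ∀ k, 0 ≤ θ k) (h1 : ∀ k, ρ k ≤ ρ' k)
    (h2 : ∀ k, θ k ≤ θ' k) (n : ℕ) : tot ρ θ n ≤ tot ρ' θ' n := by
  rw [tot_eq_v, tot_eq_v]
  exact v_mono hρ hθ h1 h2 n 0 0

/-- the product in the upper bound -/
noncomputable def PB (ρ θ : ℕ → ℝ) (m k : ℕ) : ℝ :=
  ∏ j ∈ range m, (max 1 (ρ (k + j + 1)) * (1 + θ (k + j)))

lemma PB_succ (m k : ℕ) : PB ρ θ (m + 1) k = PB ρ θ m (k + 1) * (max 1 (ρ (k + 1)) * (1 + θ k)) := by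
  unfold PB
  rw [Finset.prod_range_succ', add_zero]
  congr 1
  apply Finset.prod_congr rfl
  intro j _
  rw [show k + (j + 1) = k + 1 + j by ring]

lemma PB_nonneg (hθ : ∀ k, 0 ≤ θ k) (m k : ℕ) : 0 ≤ PB ρ θ m k := by
  unfold PB
  apply Finset.prod_nonneg
  intro j _
  have := hθ (k + j)
  have h1 : (1:ℝ) ≤ max 1 (ρ (k + j + 1)) := le_max_left _ _
  positivity

/-- product bound -/
lemma v_upper (hρ : ∀ k, 0 ≤ ρ k) (hθ : ∀ k, 0 ≤ θ k) : ∀ m k x, v ρ θ m k x ≤ PB ρ θ m k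
  | 0, _, _ => by rw [v.eq_1]; simp [PB]
  | 1, k, 0 => by
    rw [v.eq_2, PB_succ]
    have h0 : PB ρ θ 0 (k + 1) = 1 := by simp [PB]
    rw [h0]
    have h1 : 1 ≤ max 1 (ρ (k + 1)) := le_max_left _ _
    have h2 := hθ k
    nlinarith
  | (m + 2), k, 0 => by
    rw [v.eq_3, PB_succ, PB_succ]
    have a1 := v_upper hρ hθ (m + 1) (k + 1) 1
    have a2 := v_upper hρ hθ m (k + 2) 0
    rw [PB_succ] at a1
    rw [show k + 1 + 1 = k + 2 by ring] at *
    have hQ0 := PB_nonneg (ρ := ρ) hθ m (k + 2)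
    set Q := PB ρ θ m (k + 2) with hQ
    set M := max 1 (ρ (k + 2)) with hM
    have hM1 : 1 ≤ M := le_max_left _ _
    have hM2 : ρ (k + 2) ≤ M := le_max_right _ _
    have hN1 : 1 ≤ max 1 (ρ (k + 1)) := le_max_left _ _
    have t0 := hθ k
    have t1 := hθ (k + 1)
    have r2 := hρ (k + 2)
    have b1 : θ k * ρ (k + 2) / 4 * v ρ θ m (k + 2) 0 ≤ θ k * M / 4 * Q := by
      apply mul_le_mul _ a2 (v_pos hρ hθ _ _ _).le (by positivity)
      have : θ k * ρ (k + 2) ≤ θ k * M := mul_le_mul_of_nonneg_left hM2 t0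
      linarith
    have b2 : 0 ≤ Q * M := by positivity
    have b3 : 0 ≤ Q * M * θ k := by positivity
    have b4 : 0 ≤ Q * M * θ (k + 1) := by positivity
    have b5 : 0 ≤ Q * M * θ k * θ (k + 1) := by positivity
    have b6 : Q * (M * (1 + θ (k + 1))) * (1 * (1 + θ k)) ≤
        Q * (M * (1 + θ (k + 1))) * (max 1 (ρ (k + 1)) * (1 + θ k)) := by
      apply mul_le_mul_of_nonneg_left _ (by positivity)
      exact mul_le_mul_of_nonneg_right hN1 (by positivity)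
    refine le_trans ?_ b6
    nlinarith
  | (m + 1), k, (x + 1) => by
    rw [v.eq_4, PB_succ]
    have a1 := v_upper hρ hθ m (k + 1) x
    have a2 := v_upper hρ hθ m (k + 1) (x + 2)
    have hQ0 := PB_nonneg (ρ := ρ) hθ m (k + 1)
    set Q := PB ρ θ m (k + 1) with hQ
    set M := max 1 (ρ (k + 1)) with hM
    have hM1 : 1 ≤ M := le_max_left _ _
    have hM2 : ρ (k + 1) ≤ M := le_max_right _ _
    have t0 := hθ k
    have b1 : (if x = 0 then ρ (k + 1) else 1) * v ρ θ m (k + 1) x ≤ M * Q := by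
      apply mul_le_mul _ a1 (v_pos hρ hθ _ _ _).le (by positivity)
      split_ifs <;> assumption
    have b2 : Q ≤ Q * M := le_mul_of_one_le_right hQ0 hM1
    have b3 : 0 ≤ Q * M * θ k := by positivity
    nlinarith

lemma tot_upper (hρ : ∀ k, 0 ≤ ρ k) (hθ : ∀ k, 0 ≤ θ k) (n : ℕ) :
    tot ρ θ n ≤ ∏ j ∈ range n, (max 1 (ρ (j + 1)) * (1 + θ j)) := by
  rw [tot_eq_v]
  have h := v_upper hρ hθ n 0 0
  unfold PB at h
  simpa using h

/-- multiplying one contact weight -/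
lemma tot_scale (hρ : ∀ k, 0 ≤ ρ k) (hθ : ∀ k, 0 ≤ θ k) (m i : ℕ) (hi : 1 ≤ i) {d : ℝ}
    (hd : 0 ≤ d) :
    tot (update ρ i ((1 + d) * ρ i)) θ (i + m) ≤ (1 + d) * tot ρ θ (i + m) := by
  rw [tot_split' m i, tot_split' m i, z_update i hi]
  rw [v_congr (ρ := update ρ i ((1 + d) * ρ i)) (θ := θ) (ρ' := ρ) (θ' := θ) m i 0
      (fun j hj => by rw [update_of_ne (by omega)]) (fun _ _ => rfl),
    rest_congr (ρ := update ρ i ((1 + d) * ρ i)) (θ := θ) (ρ' := ρ) (θ' := θ) m i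
      (fun j hj => by rw [update_of_ne (by omega)]) (fun _ _ => rfl)]
  have h := rest_nonneg hρ hθ m i
  nlinarith

/-! ### The soft model -/

/-- weight of the step from `x` to `y`, `k`-th contact weight `r`, lower edges weighted by `q` -/
noncomputable def stepW (q r : ℝ) (x y : ℤ) : ℝ :=
  (if y = 0 then r else 1) * (if 0 < x + y then 1 else q)

lemma stepW_nonneg {q r : ℝ} (hq : 0 ≤ q) (hr : 0 ≤ r) (x y : ℤ) : 0 ≤ stepW q r x y := by
  unfold stepW
  apply mul_nonneg <;> split_ifs <;> first | assumption | norm_num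

/-- weight of a path -/
noncomputable def pathW (q : ℝ) (ρ : ℕ → ℝ) (n : ℕ) {N : ℕ} (ε : Fin N → Bool) : ℝ :=
  ∏ i ∈ range n, stepW q (ρ (i + 1)) (walk ε i) (walk ε (i + 1))

/-- paths ending at `y` -/
noncomputable def A (q : ℝ) (ρ : ℕ → ℝ) (n : ℕ) (y : ℤ) : ℝ :=
  (∑ ε : Fin n → Bool, if walk ε n = y then pathW q ρ n ε else 0) / 2 ^ n

lemma walk_snoc_le {n : ℕ} (ε : Fin n → Bool) (b : Bool) {i : ℕ} (hi : i ≤ n) :
    walk (Fin.snoc ε b : Fin (n + 1) → Bool) i = walk ε i := by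
  unfold walk
  rw [Fin.sum_univ_castSucc]
  simp only [Fin.snoc_castSucc, Fin.val_castSucc, Fin.snoc_last, Fin.val_last]
  rw [if_neg (by omega), add_zero]

lemma walk_snoc_succ {n : ℕ} (ε : Fin n → Bool) (b : Bool) :
    walk (Fin.snoc ε b : Fin (n + 1) → Bool) (n + 1) = walk ε n + (if b then 1 else -1) := by
  unfold walk
  rw [Fin.sum_univ_castSucc]
  simp only [Fin.snoc_castSucc, Fin.val_castSucc, Fin.snoc_last, Fin.val_last]
  rw [if_pos (by omega)]
  congr 1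
  apply Finset.sum_congr rfl
  intro j _
  have hj := j.2
  have hj' : (j : ℕ) < n + 1 := by omega
  simp only [hj, hj', if_true]

lemma sum_snoc {n : ℕ} (F : (Fin (n + 1) → Bool) → ℝ) :
    ∑ ε : Fin (n + 1) → Bool, F ε = ∑ ε : Fin n → Bool, (F (Fin.snoc ε true) +
      F (Fin.snoc ε false)) := by
  rw [← Equiv.sum_comp (Fin.snocEquiv (fun _ : Fin (n + 1) => Bool)), Fintype.sum_prod_type]
  rw [Fintype.sum_bool, ← Finset.sum_add_distrib]
  rfl

lemma pathW_snoc (q : ℝ) (ρ : ℕ → ℝ) {n : ℕ} (ε : Fin n → Bool) (b : Bool) :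
    pathW q ρ (n + 1) (Fin.snoc ε b : Fin (n + 1) → Bool) =
      pathW q ρ n ε * stepW q (ρ (n + 1)) (walk ε n) (walk ε n + (if b then 1 else -1)) := by
  unfold pathW
  rw [Finset.prod_range_succ, walk_snoc_le ε b le_rfl, walk_snoc_succ]
  congr 1
  apply Finset.prod_congr rfl
  intro i hi
  rw [Finset.mem_range] at hi
  rw [walk_snoc_le ε b (by omega), walk_snoc_le ε b (by omega)]

lemma A_zero (q : ℝ) (ρ : ℕ → ℝ) (y : ℤ) : A q ρ 0 y = if y = 0 then 1 else 0 := by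
  unfold A
  have h : ∀ ε : Fin 0 → Bool, walk ε 0 = 0 := by intro ε; simp [walk]
  simp only [h]
  simp [pathW, eq_comm]

lemma A_succ (q : ℝ) (ρ : ℕ → ℝ) (n : ℕ) (y : ℤ) :
    A q ρ (n + 1) y = (A q ρ n (y - 1) * stepW q (ρ (n + 1)) (y - 1) y +
      A q ρ n (y + 1) * stepW q (ρ (n + 1)) (y + 1) y) / 2 := by
  unfold A
  rw [sum_snoc, Finset.sum_add_distrib]
  have h1 : ∑ ε : Fin n → Bool, (if walk (Fin.snoc ε true : Fin (n + 1) → Bool) (n + 1) = y then
      pathW q ρ (n + 1) (Fin.snoc ε true : Fin (n + 1) → Bool) else 0) =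
      (∑ ε : Fin n → Bool, if walk ε n = y - 1 then pathW q ρ n ε else 0) *
        stepW q (ρ (n + 1)) (y - 1) y := by
    rw [Finset.sum_mul]
    apply Finset.sum_congr rfl
    intro ε _
    rw [walk_snoc_succ, pathW_snoc]
    simp only [if_true]
    by_cases h : walk ε n = y - 1
    · rw [if_pos (by omega), if_pos h, h, show y - 1 + 1 = y by ring]
    · rw [if_neg (by omega), if_neg h, zero_mul]
  have h2 : ∑ ε : Fin n → Bool, (if walk (Fin.snoc ε false : Fin (n + 1) → Bool) (n + 1) = y then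
      pathW q ρ (n + 1) (Fin.snoc ε false : Fin (n + 1) → Bool) else 0) =
      (∑ ε : Fin n → Bool, if walk ε n = y + 1 then pathW q ρ n ε else 0) *
        stepW q (ρ (n + 1)) (y + 1) y := by
    rw [Finset.sum_mul]
    apply Finset.sum_congr rfl
    intro ε _
    rw [walk_snoc_succ, pathW_snoc]
    simp only [Bool.false_eq_true, if_false]
    by_cases h : walk ε n = y + 1
    · rw [if_pos (by omega), if_pos h, h, show y + 1 + -1 = y by ring]
    · rw [if_neg (by omega), if_neg h, zero_mul]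
  rw [h1, h2, pow_succ]
  field_simp

lemma A_nonneg {q : ℝ} (hq : 0 ≤ q) (hρ : ∀ k, 0 ≤ ρ k) (n : ℕ) : ∀ y, 0 ≤ A q ρ n y := by
  induction n with
  | zero => intro y; rw [A_zero]; split_ifs <;> norm_num
  | succ n ih =>
    intro y
    rw [A_succ]
    have h1 := mul_nonneg (ih (y - 1)) (stepW_nonneg hq (hρ (n + 1)) (y - 1) y)
    have h2 := mul_nonneg (ih (y + 1)) (stepW_nonneg hq (hρ (n + 1)) (y + 1) y)
    linarith

/-- recursion at positive heights -/
lemma A_pos_rec (q : ℝ) (ρ : ℕ → ℝ) (n x : ℕ) :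
    A q ρ (n + 1) ((x : ℤ) + 1) = (A q ρ n x + A q ρ n ((x : ℤ) + 2)) / 2 := by
  rw [A_succ]
  unfold stepW
  rw [if_neg (by omega), if_pos (by omega), if_pos (by omega),
    show (x : ℤ) + 1 - 1 = x by ring, show (x : ℤ) + 1 + 1 = x + 2 by ring]
  ring

lemma A_neg_rec (q : ℝ) (ρ : ℕ → ℝ) (n x : ℕ) :
    A q ρ (n + 1) (-((x : ℤ) + 1)) = q * (A q ρ n (-(x : ℤ)) + A q ρ n (-((x : ℤ) + 2))) / 2 := by
  rw [A_succ]
  unfold stepW
  rw [if_neg (by omega), if_neg (by omega), if_neg (by omega),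
    show -((x : ℤ) + 1) - 1 = -((x : ℤ) + 2) by ring, show -((x : ℤ) + 1) + 1 = -(x : ℤ) by ring]
  ring

lemma A_zero_rec (q : ℝ) (ρ : ℕ → ℝ) (n : ℕ) :
    A q ρ (n + 1) 0 = ρ (n + 1) * (A q ρ n 1 + q * A q ρ n (-1)) / 2 := by
  rw [A_succ]
  unfold stepW
  rw [if_pos rfl, if_neg (by norm_num), if_pos (by norm_num),
    show (0 : ℤ) - 1 = -1 by ring, show (0 : ℤ) + 1 = 1 by ring]
  ring

/-- reflecting the last excursion -/
lemma A_neg_le {q : ℝ} (hq : 0 ≤ q) (hq1 : q ≤ 1) (hρ : ∀ k, 0 ≤ ρ k) (n : ℕ) : ∀ x : ℕ,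
    A q ρ n (-(x : ℤ)) ≤ q ^ x * A q ρ n x := by
  induction n with
  | zero =>
    intro x
    rw [A_zero, A_zero]
    rcases Nat.eq_zero_or_pos x with h | h
    · subst h; simp
    · rw [if_neg (by omega), if_neg (by omega)]; simp
  | succ n ih =>
    intro x
    match x with
    | 0 => simp
    | (x + 1) =>
      push_cast
      rw [A_neg_rec, A_pos_rec]
      have h1 := ih x
      have h2 := ih (x + 2)
      push_cast at h2
      have h3 := A_nonneg hq hρ n ((x : ℤ) + 2)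
      have h4 : q ^ (x + 2) * A q ρ n ((x : ℤ) + 2) ≤ q ^ x * A q ρ n ((x : ℤ) + 2) := by
        apply mul_le_mul_of_nonneg_right _ h3
        exact pow_le_pow_of_le_one hq hq1 (by omega)
      calc q * (A q ρ n (-(x : ℤ)) + A q ρ n (-((x : ℤ) + 2))) / 2
          ≤ q * (q ^ x * A q ρ n x + q ^ x * A q ρ n ((x : ℤ) + 2)) / 2 := by
            have := mul_le_mul_of_nonneg_left (add_le_add h1 (h2.trans h4)) hq
            linarith
        _ = q ^ (x + 1) * ((A q ρ n x + A q ρ n ((x : ℤ) + 2)) / 2) := by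
            rw [pow_succ]; ring

/-- the soft model is below the wall model with a larger contact weight -/
lemma A_le_z {q : ℝ} (hq : 0 ≤ q) (hq1 : q ≤ 1) (hρ : ∀ k, 0 ≤ ρ k) (n : ℕ) : ∀ x : ℕ,
    A q ρ n x ≤ z (fun k => (1 + q ^ 2) * ρ k) (fun _ => 0) n x := by
  induction n with
  | zero =>
    intro x
    rw [A_zero, z.eq_1]
    norm_num
  | succ n ih =>
    intro x
    match x with
    | 0 =>
      have h1 := A_neg_le hq hq1 hρ n 1
      have h2 := ih 1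
      have h3 := A_zero_rec q ρ n
      have e1 : z (fun k => (1 + q ^ 2) * ρ k) (fun _ => 0) (n + 1) 0 =
          (1 + q ^ 2) * ρ (n + 1) / 2 * z (fun k => (1 + q ^ 2) * ρ k) (fun _ => 0) n 1 := by
        match n with
        | 0 => rw [z.eq_2, z.eq_1]; simp
        | (n + 1) => rw [z.eq_3]; ring
      rw [e1]
      simp only [Nat.cast_zero, Nat.cast_one, pow_one] at *
      rw [h3]
      have hr := hρ (n + 1)
      have h4 : A q ρ n 1 + q * A q ρ n (-1) ≤ (1 + q ^ 2) *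
          z (fun k => (1 + q ^ 2) * ρ k) (fun _ => 0) n 1 := by
        have h5 := mul_le_mul_of_nonneg_left h1 hq
        have h6 : (1 + q ^ 2) * A q ρ n 1 ≤ (1 + q ^ 2) *
          z (fun k => (1 + q ^ 2) * ρ k) (fun _ => 0) n 1 :=
          mul_le_mul_of_nonneg_left h2 (by positivity)
        nlinarith
      have h7 := mul_le_mul_of_nonneg_left h4 hr
      linarith
    | (x + 1) =>
      push_cast
      rw [A_pos_rec, z_succ_succ]
      have h1 := ih x
      have h2 := ih (x + 2)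
      push_cast at h2
      linarith

/-- the soft model is above the wall model with loops -/
lemma z_le_A {q : ℝ} (hq : 0 ≤ q) (hρ : ∀ k, 0 ≤ ρ k) : ∀ n x : ℕ,
    z ρ (fun _ => q ^ 2) n x ≤ A q ρ n x
  | 0, x => by rw [A_zero, z.eq_1]; norm_num
  | 1, 0 => by
    rw [z.eq_2]; simp only [Nat.cast_zero]
    rw [if_neg (by norm_num)]
    exact A_nonneg hq hρ 1 0
  | (n + 2), 0 => by
    have h1 := z_le_A hq hρ (n + 1) 1
    have h2 := z_le_A hq hρ n 0
    simp only [Nat.cast_zero, Nat.cast_one] at *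
    rw [z.eq_3, A_zero_rec]
    have h3 := A_neg_rec q ρ n 0
    simp only [Nat.cast_zero, neg_zero, zero_add] at h3
    have h4 := A_nonneg hq hρ n (-2)
    have h5 : q * A q ρ n 0 / 2 ≤ A q ρ (n + 1) (-1) := by
      rw [h3]
      have := mul_nonneg hq h4
      linarith
    have h6 := mul_le_mul_of_nonneg_left h5 hq
    have h7 : q ^ 2 / 2 * z ρ (fun _ => q ^ 2) n 0 ≤ q * A q ρ (n + 1) (-1) := by
      have h8 : q ^ 2 / 2 * z ρ (fun _ => q ^ 2) n 0 ≤ q ^ 2 / 2 * A q ρ n 0 :=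
        mul_le_mul_of_nonneg_left h2 (by positivity)
      calc q ^ 2 / 2 * z ρ (fun _ => q ^ 2) n 0 ≤ q ^ 2 / 2 * A q ρ n 0 := h8
        _ = q * (q * A q ρ n 0 / 2) := by ring
        _ ≤ _ := h6
    have hr := hρ (n + 2)
    have h9 := mul_le_mul_of_nonneg_left (add_le_add h1 h7) hr
    have e : n + 1 + 1 = n + 2 := rfl
    rw [e]
    linarith
  | (n + 1), (x + 1) => by
    have h1 := z_le_A hq hρ n x
    have h2 := z_le_A hq hρ n (x + 2)
    push_cast at *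
    rw [z_succ_succ, A_pos_rec]
    linarith

end Pool.Agent.Q287.PN
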