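import Pool.Agent.Q287.PN3

/-! Pinning at a selective interface: the partition function of the walk. -/

namespace Pool.Agent.Q287.PN

open Finset Function

lemma walk_bound {n : ℕ} (ε : Fin n → Bool) (i : ℕ) : |walk ε i| ≤ n := by
  unfold walk
  refine (Finset.abs_sum_le_sum_abs _ _).trans ?_
  calc ∑ j : Fin n, |if (j : ℕ) < i then (if ε j then (1:ℤ) else -1) else 0|
      ≤ ∑ _j : Fin n, (1:ℤ) := by
        apply Finset.sum_le_sum
        intro j _
        split_ifs <;> simp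
    _ = n := by simp

/-- the contact weights -/
noncomputable def wt (lam s : ℝ) (η : ℕ → ℝ) (k : ℕ) : ℝ := Real.exp (lam * (1 + s * η k))

lemma wt_pos (lam s : ℝ) (η : ℕ → ℝ) (k : ℕ) : 0 < wt lam s η k := Real.exp_pos _

lemma exp_energy (lam h s : ℝ) (η : ℕ → ℝ) {n : ℕ} (ε : Fin n → Bool) :
    Real.exp (energy lam h s η ε) =
      Real.exp (h * n) * pathW (Real.exp (-2 * h)) (wt lam s η) n ε := by
  unfold energy pathW
  rw [Real.exp_sum]
  have h1 : Real.exp (h * n) = ∏ _i ∈ range n, Real.exp h := by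
    rw [Finset.prod_const, Finset.card_range, ← Real.exp_nat_mul]
    congr 1
    ring
  rw [h1, ← Finset.prod_mul_distrib]
  apply Finset.prod_congr rfl
  intro i _
  unfold stepW wt
  by_cases h1 : walk ε (i + 1) = 0 <;> by_cases h2 : 0 < walk ε i + walk ε (i + 1)
  · simp only [h1, if_true]
    rw [h1] at h2
    simp only [h2, if_true]
    rw [Real.exp_add]
    ring_nf
  · simp only [h1, if_true]
    rw [h1] at h2
    simp only [h2, if_false]
    rw [← Real.exp_add, ← Real.exp_add]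
    ring_nf
  · simp only [h1, h2, if_true, if_false]
    ring_nf
  · simp only [h1, h2, if_false]
    rw [one_mul, ← Real.exp_add]
    ring_nf

/-- the total of the soft model -/
noncomputable def softTot (q : ℝ) (ρ : ℕ → ℝ) (n : ℕ) : ℝ :=
  ∑ x ∈ range (n + 1), A q ρ n x + ∑ x ∈ range n, A q ρ n (-((x : ℤ) + 1))

lemma sum_pathW (q : ℝ) (ρ : ℕ → ℝ) (n : ℕ) :
    (∑ ε : Fin n → Bool, pathW q ρ n ε) / 2 ^ n = softTot q ρ n := by
  unfold softTot A
  rw [← Finset.sum_div, ← Finset.sum_div, ← add_div, Finset.sum_comm, Finset.sum_comm (s := range n),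
    ← Finset.sum_add_distrib]
  congr 1
  apply Finset.sum_congr rfl
  intro ε _
  have hb := abs_le.1 (walk_bound ε n)
  rcases le_or_gt 0 (walk ε n) with h | h
  · obtain ⟨k, hk⟩ := Int.eq_ofNat_of_zero_le h
    have h2 : ∑ x ∈ range n, (if walk ε n = -((x : ℤ) + 1) then pathW q ρ n ε else 0) = 0 := by
      apply Finset.sum_eq_zero
      intro x _
      rw [if_neg (by omega)]
    rw [h2, add_zero, Finset.sum_eq_single k]
    · rw [if_pos hk]
    · intro x _ hx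
      rw [if_neg (by omega)]
    · intro hk'
      rw [Finset.mem_range] at hk'
      omega
  · obtain ⟨k, hk⟩ : ∃ k : ℕ, walk ε n = -((k : ℤ) + 1) := by
      refine ⟨(-walk ε n - 1).toNat, ?_⟩
      rw [Int.toNat_of_nonneg (by omega)]
      ring
    have h2 : ∑ x ∈ range (n + 1), (if walk ε n = (x : ℤ) then pathW q ρ n ε else 0) = 0 := by
      apply Finset.sum_eq_zero
      intro x _
      rw [if_neg (by omega)]
    rw [h2, zero_add, Finset.sum_eq_single k]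
    · rw [if_pos hk]
    · intro x _ hx
      rw [if_neg (by omega)]
    · intro hk'
      rw [Finset.mem_range] at hk'
      omega

lemma Zn_eq (lam h s : ℝ) (η : ℕ → ℝ) (n : ℕ) :
    Zn lam h s η n = Real.exp (h * n) * softTot (Real.exp (-2 * h)) (wt lam s η) n := by
  rw [← sum_pathW]
  unfold Zn
  simp only [exp_energy]
  rw [← Finset.mul_sum, mul_div_assoc]

lemma softTot_upper {q : ℝ} {ρ : ℕ → ℝ} (hq : 0 ≤ q) (hq1 : q ≤ 1) (hρ : ∀ k, 0 ≤ ρ k) (n : ℕ) :
    softTot q ρ n ≤ 2 * tot (fun k => (1 + q ^ 2) * ρ k) (fun _ => 0) n := by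
  unfold softTot
  have h1 : ∑ x ∈ range (n + 1), A q ρ n x ≤ tot (fun k => (1 + q ^ 2) * ρ k) (fun _ => 0) n := by
    unfold tot
    exact Finset.sum_le_sum fun x _ => A_le_z hq hq1 hρ n x
  have h2 : ∑ x ∈ range n, A q ρ n (-((x : ℤ) + 1)) ≤
      tot (fun k => (1 + q ^ 2) * ρ k) (fun _ => 0) n := by
    unfold tot
    rw [Finset.sum_range_succ']
    have h3 : ∑ x ∈ range n, A q ρ n (-((x : ℤ) + 1)) ≤
        ∑ x ∈ range n, z (fun k => (1 + q ^ 2) * ρ k) (fun _ => 0) n (x + 1) := by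
      apply Finset.sum_le_sum
      intro x _
      have h4 := A_neg_le hq hq1 hρ n (x + 1)
      push_cast at h4
      have h5 := A_le_z hq hq1 hρ n (x + 1)
      push_cast at h5
      have h6 := A_nonneg hq hρ n ((x : ℤ) + 1)
      have h7 : q ^ (x + 1) * A q ρ n ((x : ℤ) + 1) ≤ 1 * A q ρ n ((x : ℤ) + 1) :=
        mul_le_mul_of_nonneg_right (pow_le_one₀ hq hq1) h6
      linarith
    have h8 : 0 ≤ z (fun k => (1 + q ^ 2) * ρ k) (fun _ => 0) n 0 :=
      z_nonneg (fun k => mul_nonneg (by positivity) (hρ k)) (fun _ => le_rfl) n 0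
    linarith
  linarith

lemma softTot_lower {q : ℝ} {ρ : ℕ → ℝ} (hq : 0 ≤ q) (hρ : ∀ k, 0 ≤ ρ k) (n : ℕ) :
    tot ρ (fun _ => q ^ 2) n ≤ softTot q ρ n := by
  unfold softTot tot
  have h1 : ∑ x ∈ range (n + 1), z ρ (fun _ => q ^ 2) n x ≤ ∑ x ∈ range (n + 1), A q ρ n x :=
    Finset.sum_le_sum fun x _ => z_le_A hq hρ n x
  have h2 : 0 ≤ ∑ x ∈ range n, A q ρ n (-((x : ℤ) + 1)) :=
    Finset.sum_nonneg fun x _ => A_nonneg hq hρ n _
  linarith

/-! ### Log-convexity -/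

/-- two-term Hölder inequality -/
lemma holder_two {e : ℝ} (h0 : 0 < e) (h1 : e < 1) {a b c d : ℝ} (ha : 0 ≤ a) (hb : 0 ≤ b)
    (hc : 0 ≤ c) (hd : 0 ≤ d) :
    a ^ (1 - e) * b ^ e + c ^ (1 - e) * d ^ e ≤ (a + c) ^ (1 - e) * (b + d) ^ e := by
  have hpq : (1 / (1 - e)).HolderConjugate (1 / e) := by
    rw [Real.holderConjugate_iff]
    constructor
    · rw [lt_div_iff₀ (by linarith)]; linarith
    · simp
  have h := Real.inner_le_Lp_mul_Lq (Finset.univ : Finset Bool)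
    (fun i => if i then a ^ (1 - e) else c ^ (1 - e)) (fun i => if i then b ^ e else d ^ e) hpq
  simp only [Fintype.sum_bool, if_true, Bool.false_eq_true, if_false] at h
  have e1 : ∀ x : ℝ, 0 ≤ x → |x ^ (1 - e)| ^ (1 / (1 - e)) = x := by
    intro x hx
    rw [abs_of_nonneg (Real.rpow_nonneg hx _), ← Real.rpow_mul hx, mul_one_div_cancel (by linarith),
      Real.rpow_one]
  have e2 : ∀ x : ℝ, 0 ≤ x → |x ^ e| ^ (1 / e) = x := by
    intro x hx
    rw [abs_of_nonneg (Real.rpow_nonneg hx _), ← Real.rpow_mul hx, mul_one_div_cancel (by linarith),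
      Real.rpow_one]
  rw [e1 a ha, e1 c hc, e2 b hb, e2 d hd] at h
  simpa using h

lemma v_holder {e : ℝ} (h0 : 0 < e) (h1 : e < 1) {ρ ρ' : ℕ → ℝ} (hρ : ∀ k, 0 ≤ ρ k)
    (hρ' : ∀ k, 0 ≤ ρ' k) : ∀ m k x,
    v (fun k => ρ k ^ (1 - e) * ρ' k ^ e) (fun _ => 0) m k x ≤
      v ρ (fun _ => 0) m k x ^ (1 - e) * v ρ' (fun _ => 0) m k x ^ e
  | 0, _, _ => by rw [v.eq_1, v.eq_1, v.eq_1]; simp
  | 1, _, 0 => by
    rw [v.eq_2, v.eq_2, v.eq_2, ← Real.rpow_add (by norm_num)]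
    simp
  | (m + 2), k, 0 => by
    rw [v.eq_3, v.eq_3, v.eq_3]
    have ih := v_holder h0 h1 hρ hρ' (m + 1) (k + 1) 1
    have p1 := (v_pos hρ (fun _ => le_rfl : ∀ k : ℕ, (0:ℝ) ≤ (fun _ => 0) k) (m + 1) (k + 1) 1).le
    have p2 := (v_pos hρ' (fun _ => le_rfl : ∀ k : ℕ, (0:ℝ) ≤ (fun _ => 0) k) (m + 1) (k + 1) 1).le
    simp only [zero_mul, zero_div, add_zero]
    rw [Real.div_rpow p1 (by norm_num), Real.div_rpow p2 (by norm_num), div_mul_div_comm,
      ← Real.rpow_add (by norm_num)]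
    simp only [sub_add_cancel, Real.rpow_one]
    linarith
  | (m + 1), k, (x + 1) => by
    rw [v.eq_4, v.eq_4, v.eq_4]
    have ih1 := v_holder h0 h1 hρ hρ' m (k + 1) x
    have ih2 := v_holder h0 h1 hρ hρ' m (k + 1) (x + 2)
    have hz : ∀ k : ℕ, (0:ℝ) ≤ (fun _ : ℕ => (0:ℝ)) k := fun _ => le_rfl
    have p1 := (v_pos hρ hz m (k + 1) x).le
    have p2 := (v_pos hρ' hz m (k + 1) x).le
    have p3 := (v_pos hρ hz m (k + 1) (x + 2)).le
    have p4 := (v_pos hρ' hz m (k + 1) (x + 2)).le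
    set c := (if x = 0 then ρ (k + 1) else 1) with hc
    set c' := (if x = 0 then ρ' (k + 1) else 1) with hc'
    have hc0 : 0 ≤ c := by rw [hc]; split_ifs; exacts [hρ _, zero_le_one]
    have hc0' : 0 ≤ c' := by rw [hc']; split_ifs; exacts [hρ' _, zero_le_one]
    have hcc : (if x = 0 then ρ (k + 1) ^ (1 - e) * ρ' (k + 1) ^ e else 1) =
        c ^ (1 - e) * c' ^ e := by
      rw [hc, hc']; split_ifs <;> simp
    rw [hcc]
    have key := holder_two h0 h1 (mul_nonneg hc0 p1) (mul_nonneg hc0' p2) p3 p4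
    rw [Real.div_rpow (add_nonneg (mul_nonneg hc0 p1) p3) (by norm_num),
      Real.div_rpow (add_nonneg (mul_nonneg hc0' p2) p4) (by norm_num), div_mul_div_comm,
      ← Real.rpow_add (by norm_num)]
    simp only [sub_add_cancel, Real.rpow_one]
    have h5 : c ^ (1 - e) * c' ^ e * v (fun k => ρ k ^ (1 - e) * ρ' k ^ e) (fun _ => 0) m (k + 1) x ≤
        (c * v ρ (fun _ => 0) m (k + 1) x) ^ (1 - e) * (c' * v ρ' (fun _ => 0) m (k + 1) x) ^ e := by
      rw [Real.mul_rpow hc0 p1, Real.mul_rpow hc0' p2]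
      have := mul_le_mul_of_nonneg_left ih1
        (mul_nonneg (Real.rpow_nonneg hc0 (1 - e)) (Real.rpow_nonneg hc0' e))
      linarith
    linarith

lemma log_tot_holder {e : ℝ} (h0 : 0 < e) (h1 : e < 1) {ρ ρ' : ℕ → ℝ} (hρ : ∀ k, 0 ≤ ρ k)
    (hρ' : ∀ k, 0 ≤ ρ' k) (n : ℕ) :
    Real.log (tot (fun k => ρ k ^ (1 - e) * ρ' k ^ e) (fun _ => 0) n) ≤
      (1 - e) * Real.log (tot ρ (fun _ => 0) n) + e * Real.log (tot ρ' (fun _ => 0) n) := by
  have hz : ∀ k : ℕ, (0:ℝ) ≤ (fun _ : ℕ => (0:ℝ)) k := fun _ => le_rfl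
  have p1 := tot_pos hρ hz n
  have p2 := tot_pos hρ' hz n
  have p3 : 0 < tot (fun k => ρ k ^ (1 - e) * ρ' k ^ e) (fun _ => 0) n :=
    tot_pos (fun k => mul_nonneg (Real.rpow_nonneg (hρ k) _) (Real.rpow_nonneg (hρ' k) _)) hz n
  rw [← Real.log_rpow p1, ← Real.log_rpow p2, ← Real.log_mul (by positivity) (by positivity)]
  apply Real.log_le_log p3
  rw [tot_eq_v, tot_eq_v, tot_eq_v]
  exact v_holder h0 h1 hρ hρ' n 0 0

end Pool.Agent.Q287.PN
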