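import Pool.Agent.Q287.PN4

/-! Pinning at a selective interface: the comparison of the contact probabilities in the mean. -/

namespace Pool.Agent.Q287.PN

open Finset Function MeasureTheory ProbabilityTheory

lemma v_congr_range {ρ θ ρ' : ℕ → ℝ} : ∀ m k x, (∀ j, k < j → j ≤ k + m → ρ j = ρ' j) →
    v ρ θ m k x = v ρ' θ m k x
  | 0, _, _, _ => by rw [v.eq_1, v.eq_1]
  | 1, _, 0, _ => by rw [v.eq_2, v.eq_2]
  | (m + 2), k, 0, h1 => by
    rw [v.eq_3, v.eq_3, h1 (k + 2) (by omega) (by omega),
      v_congr_range (m + 1) (k + 1) 1 (fun j hj hj' => h1 j (by omega) (by omega)),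
      v_congr_range m (k + 2) 0 (fun j hj hj' => h1 j (by omega) (by omega))]
  | (m + 1), k, (x + 1), h1 => by
    rw [v.eq_4, v.eq_4, h1 (k + 1) (by omega) (by omega),
      v_congr_range m (k + 1) x (fun j hj hj' => h1 j (by omega) (by omega)),
      v_congr_range m (k + 1) (x + 2) (fun j hj hj' => h1 j (by omega) (by omega))]

section meas

variable {α : Type*} [MeasurableSpace α] {R : α → ℕ → ℝ} {θ : ℕ → ℝ}

lemma meas_z (hR : ∀ k, Measurable (fun a => R a k)) : ∀ k x, Measurable (fun a => z (R a) θ k x)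
  | 0, x => by simp only [z.eq_1]; exact measurable_const
  | 1, x => by simp only [z.eq_2]; exact measurable_const
  | (k + 2), 0 => by
    simp only [z.eq_3]
    exact ((hR (k + 2)).div_const 2).mul ((meas_z hR (k + 1) 1).add
      ((meas_z hR k 0).const_mul _))
  | (k + 2), (x + 1) => by
    simp only [z.eq_4]
    exact ((meas_z hR (k + 1) x).add (meas_z hR (k + 1) (x + 2))).div_const 2

lemma meas_v (hR : ∀ k, Measurable (fun a => R a k)) : ∀ m k x,
    Measurable (fun a => v (R a) θ m k x)
  | 0, _, _ => by simp only [v.eq_1]; exact measurable_const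
  | 1, _, 0 => by simp only [v.eq_2]; exact measurable_const
  | (m + 2), k, 0 => by
    simp only [v.eq_3]
    exact ((meas_v hR (m + 1) (k + 1) 1).div_const 2).add
      ((((hR (k + 2)).const_mul _).div_const 4).mul (meas_v hR m (k + 2) 0))
  | (m + 1), k, (x + 1) => by
    simp only [v.eq_4]
    by_cases hx : x = 0
    · simp only [hx, if_true]
      exact (((hR (k + 1)).mul (meas_v hR m (k + 1) 0)).add
        (meas_v hR m (k + 1) (0 + 2))).div_const 2
    · simp only [hx, if_false]
      exact (((meas_v hR m (k + 1) x).const_mul 1).add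
        (meas_v hR m (k + 1) (x + 2))).div_const 2

lemma meas_tot (hR : ∀ k, Measurable (fun a => R a k)) (n : ℕ) :
    Measurable (fun a => tot (R a) θ n) := by
  simp only [tot_eq_v]
  exact meas_v hR n 0 0

lemma meas_G (hR : ∀ k, Measurable (fun a => R a k)) (m i : ℕ) :
    Measurable (fun a => G (R a) θ m i) := by
  unfold G
  exact (meas_z hR i 0).mul (meas_v hR (m + 2) i 0)

end meas

/-! ### Resampling one coordinate -/

/-- truncation of a sequence -/
def trunc (N : ℕ) (e : ℕ → ℝ) (j : ℕ) : ℝ := if j ≤ N then e j else 0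

variable {Ω : Type*} [MeasurableSpace Ω] {μ : Measure Ω} [IsProbabilityMeasure μ]
  {η : ℕ → Ω → ℝ}

lemma meas_trunc (hmeas : ∀ i, Measurable (η i)) (N : ℕ) :
    Measurable (fun ω => trunc N (fun j => η j ω)) := by
  rw [measurable_pi_iff]
  intro j
  unfold trunc
  by_cases h : j ≤ N
  · simp only [h, if_true]; exact hmeas j
  · simp only [h, if_false]; exact measurable_const

lemma meas_update {β : Type*} [MeasurableSpace β] {f : β → ℕ → ℝ} (hf : Measurable f) (k : ℕ)
    {g : β → ℝ} (hg : Measurable g) : Measurable (fun b => update (f b) k (g b)) := by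
  rw [measurable_pi_iff]
  intro j
  by_cases h : j = k
  · subst h
    simp only [update_self]
    exact hg
  · simp only [update_of_ne h]
    exact (measurable_pi_apply j).comp hf

lemma resample (hmeas : ∀ i, Measurable (η i)) (hindep : iIndepFun η μ) (k N : ℕ) (hk : k ≤ N) :
    μ.map (fun ω => trunc N (fun j => η j ω)) =
      ((μ.map (η k)).prod μ).map (fun p => update (trunc N (fun j => η j p.2)) k p.1) := by
  classical
  set T : Finset ℕ := (range (N + 1)).erase k with hT
  set ext : (T → ℝ) → ℕ → ℝ := fun y j => if h : j ∈ T then y ⟨j, h⟩ else 0 with hext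
  have hextm : Measurable ext := by
    rw [measurable_pi_iff]
    intro j
    by_cases h : j ∈ T
    · simp only [hext, h, dif_pos]; exact measurable_pi_apply _
    · simp only [hext, h, dif_neg, not_false_eq_true]; exact measurable_const
  set Ψ : ℝ × (T → ℝ) → ℕ → ℝ := fun p => update (ext p.2) k p.1 with hΨ
  have hΨm : Measurable Ψ := meas_update (hextm.comp measurable_snd) k measurable_fst
  set Y : Ω → (T → ℝ) := fun ω j => η j ω with hY
  have hYm : Measurable Y := by
    rw [measurable_pi_iff]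
    intro j
    exact hmeas j
  have hkey : ∀ (ω : Ω) (x : ℝ), update (trunc N (fun j => η j ω)) k x = Ψ (x, Y ω) := by
    intro ω x
    funext j
    simp only [hΨ]
    by_cases h : j = k
    · subst h; rw [update_self, update_self]
    · rw [update_of_ne h, update_of_ne h]
      simp only [hext, hY, trunc]
      by_cases h2 : j ≤ N
      · have : j ∈ T := by
          rw [hT, Finset.mem_erase, Finset.mem_range]
          exact ⟨h, by omega⟩
        rw [if_pos h2, dif_pos this]
      · have : j ∉ T := by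
          rw [hT, Finset.mem_erase, Finset.mem_range]
          intro h3
          omega
        rw [if_neg h2, dif_neg this]
  have hind : IndepFun (η k) Y μ := by
    have h1 := hindep.indepFun_finset ({k} : Finset ℕ) T
      (by rw [Finset.disjoint_singleton_left, hT]; simp) hmeas
    have h3 : Measurable (fun y : (({k} : Finset ℕ) → ℝ) => y ⟨k, by simp⟩) :=
      measurable_pi_apply _
    have h4 : Measurable (fun y : (T → ℝ) => y) := measurable_id
    exact h1.comp h3 h4
  have hprod := (indepFun_iff_map_prod_eq_prod_map_map (hmeas k).aemeasurable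
    hYm.aemeasurable).1 hind
  have hL : (fun ω => trunc N (fun j => η j ω)) = fun ω => Ψ (η k ω, Y ω) := by
    funext ω
    rw [← hkey ω (η k ω)]
    funext j
    by_cases h : j = k
    · subst h; rw [update_self]; simp [trunc, hk]
    · rw [update_of_ne h]
  have hR : (fun p : ℝ × Ω => update (trunc N (fun j => η j p.2)) k p.1) =
      fun p => Ψ (p.1, Y p.2) := by
    funext p
    exact hkey p.2 p.1
  rw [hL, hR]
  have e1 : μ.map (fun ω => Ψ (η k ω, Y ω)) = (μ.map (fun ω => (η k ω, Y ω))).map Ψ := by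
    rw [Measure.map_map hΨm ((hmeas k).prodMk hYm)]
    rfl
  have e2 : ((μ.map (η k)).prod μ).map (fun p => Ψ (p.1, Y p.2)) =
      (((μ.map (η k)).prod μ).map (Prod.map id Y)).map Ψ := by
    rw [Measure.map_map hΨm (measurable_id.prodMap hYm)]
    rfl
  have : IsProbabilityMeasure (μ.map (η k)) :=
    Measure.isProbabilityMeasure_map (hmeas k).aemeasurable
  rw [e1, e2, hprod]
  congr 1
  have e3 := Measure.map_prod_map (μ.map (η k)) μ (measurable_id (α := ℝ)) hYm
  rw [← e3, Measure.map_id]

/-! ### The one-dimensional inequality -/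

lemma one_dim {ν : Measure ℝ} [IsProbabilityMeasure ν] {g a : ℝ → ℝ} (hg : Measurable g)
    (hg0 : ∀ x, 0 ≤ g x) (hg1 : ∀ x, g x ≤ 1) (ha : Measurable a) (ha0 : ∀ x, 0 ≤ a x)
    (ha1 : ∀ x, a x ≤ 1) {A B a0 K p : ℝ} (ha0' : 0 < a0) (haA : ∀ x, A ≤ x → a0 ≤ a x)
    (hK : 0 ≤ K) (hp : 0 < p) (hpν : p ≤ (ν (Set.Icc A B)).toReal)
    (hcomp : ∀ x x', x < A → x' ∈ Set.Icc A B → g x ≤ K * g x') :
    a0 * p / (p + K) * ∫ x, g x ∂ν ≤ ∫ x, a x * g x ∂ν := by
  have hgi : Integrable g ν := by
    refine (integrable_const (1:ℝ)).mono' hg.aestronglyMeasurable (Filter.Eventually.of_forall ?_)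
    intro x
    rw [Real.norm_of_nonneg (hg0 x)]
    exact hg1 x
  have hagi : Integrable (fun x => a x * g x) ν := by
    refine (integrable_const (1:ℝ)).mono' (ha.mul hg).aestronglyMeasurable
      (Filter.Eventually.of_forall ?_)
    intro x
    rw [Real.norm_of_nonneg (mul_nonneg (ha0 x) (hg0 x))]
    exact mul_le_one₀ (ha1 x) (hg0 x) (hg1 x)
  set I := ∫ x in Set.Icc A B, g x ∂ν with hI
  set J := ∫ x, a x * g x ∂ν with hJ
  have hJ0 : 0 ≤ J := integral_nonneg fun x => mul_nonneg (ha0 x) (hg0 x)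
  -- I ≤ J / a0
  have h1 : a0 * I ≤ J := by
    rw [hI, ← integral_const_mul]
    calc ∫ x in Set.Icc A B, a0 * g x ∂ν ≤ ∫ x in Set.Icc A B, a x * g x ∂ν := by
          apply setIntegral_mono_on (hgi.const_mul a0).integrableOn hagi.integrableOn
            measurableSet_Icc
          intro x hx
          exact mul_le_mul_of_nonneg_right (haA x hx.1) (hg0 x)
      _ ≤ J := setIntegral_le_integral hagi
          (Filter.Eventually.of_forall fun x => mul_nonneg (ha0 x) (hg0 x))
  have hI0 : 0 ≤ I := setIntegral_nonneg measurableSet_Icc fun x _ => hg0 x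
  -- for x < A: p g(x) ≤ K I
  have h2 : ∀ x, x < A → p * g x ≤ K * I := by
    intro x hx
    have h3 : ∫ _y in Set.Icc A B, g x ∂ν ≤ ∫ y in Set.Icc A B, K * g y ∂ν := by
      apply setIntegral_mono_on (integrable_const _).integrableOn
        (hgi.const_mul K).integrableOn measurableSet_Icc
      intro y hy
      exact hcomp x y hx hy
    rw [setIntegral_const, integral_const_mul, smul_eq_mul] at h3
    have h4 : p * g x ≤ (ν (Set.Icc A B)).toReal * g x :=
      mul_le_mul_of_nonneg_right hpν (hg0 x)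
    have h5 : (ν.real (Set.Icc A B)) = (ν (Set.Icc A B)).toReal := rfl
    rw [h5] at h3
    linarith
  -- pointwise
  have h3 : ∀ x, g x ≤ a x * g x / a0 + K * I / p := by
    intro x
    rcases lt_or_ge x A with hx | hx
    · have h4 := h2 x hx
      have h5 : g x ≤ K * I / p := by rw [le_div_iff₀ hp]; linarith
      have h6 : 0 ≤ a x * g x / a0 := div_nonneg (mul_nonneg (ha0 x) (hg0 x)) ha0'.le
      linarith
    · have h4 := haA x hx
      have h5 : g x ≤ a x * g x / a0 := by
        rw [le_div_iff₀ ha0']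
        have := mul_le_mul_of_nonneg_right h4 (hg0 x)
        linarith
      have h6 : 0 ≤ K * I / p := by positivity
      linarith
  have h4 : ∫ x, g x ∂ν ≤ J / a0 + K * I / p := by
    calc ∫ x, g x ∂ν ≤ ∫ x, (a x * g x / a0 + K * I / p) ∂ν :=
          integral_mono hgi ((hagi.div_const a0).add (integrable_const _)) h3
      _ = J / a0 + K * I / p := by
          rw [integral_add (hagi.div_const a0) (integrable_const _), integral_div,
            integral_const]
          simp [hJ]
  have h5 : K * I / p ≤ K * (J / a0) / p := by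
    have : I ≤ J / a0 := by rw [le_div_iff₀ ha0']; linarith
    gcongr
  have h6 : ∫ x, g x ∂ν ≤ J * (p + K) / (a0 * p) := by
    calc ∫ x, g x ∂ν ≤ J / a0 + K * (J / a0) / p := by linarith
      _ = J * (p + K) / (a0 * p) := by field_simp
  have h7 : 0 < a0 * p / (p + K) := by positivity
  calc a0 * p / (p + K) * ∫ x, g x ∂ν ≤ a0 * p / (p + K) * (J * (p + K) / (a0 * p)) :=
        mul_le_mul_of_nonneg_left h6 h7.le
    _ = J := by field_simp

lemma tot_congr_range {ρ ρ' θ : ℕ → ℝ} (n : ℕ) (h : ∀ j, 0 < j → j ≤ n → ρ j = ρ' j) :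
    tot ρ θ n = tot ρ' θ n := by
  rw [tot_eq_v, tot_eq_v]
  exact v_congr_range n 0 0 (fun j h1 h2 => h j h1 (by omega))

lemma G_congr_range {ρ ρ' θ : ℕ → ℝ} (m i : ℕ) (h : ∀ j, j ≤ i + (m + 2) → ρ j = ρ' j) :
    G ρ θ m i = G ρ' θ m i := by
  unfold G
  rw [z_congr i 0 (fun j hj => h j (by omega)) (fun _ _ => rfl),
    v_congr_range (m + 2) i 0 (fun j h1 h2 => h j h2)]

/-- the weights as a function of the disorder -/
noncomputable def RR (lam s : ℝ) (C : ℕ → ℝ) (e : ℕ → ℝ) (k : ℕ) : ℝ :=
  C k * Real.exp (lam * (1 + s * e k))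

lemma RR_update (lam s : ℝ) (C : ℕ → ℝ) (e : ℕ → ℝ) (k : ℕ) (x : ℝ) :
    RR lam s C (update e k x) = update (RR lam s C e) k (C k * Real.exp (lam * (1 + s * x))) := by
  funext j
  unfold RR
  by_cases h : j = k
  · subst h; rw [update_self, update_self]
  · rw [update_of_ne h, update_of_ne h]

lemma RR_pos (lam s : ℝ) {C : ℕ → ℝ} (hC : ∀ k, 1 ≤ C k) (e : ℕ → ℝ) (k : ℕ) :
    0 < RR lam s C e k := by
  unfold RR
  have := hC k
  positivity

lemma meas_RR (lam s : ℝ) (C : ℕ → ℝ) (k : ℕ) : Measurable (fun e : ℕ → ℝ => RR lam s C e k) := by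
  unfold RR
  have h : Measurable (fun e : ℕ → ℝ => e k) := measurable_pi_apply k
  exact (Real.measurable_exp.comp (((h.const_mul s).const_add 1).const_mul lam)).const_mul (C k)

/-- the contact probability is comparable in the mean with its product with the weight -/
lemma key_mean (hmeas : ∀ i, Measurable (η i)) (hindep : iIndepFun η μ)
    (hident : ∀ i, IdentDistrib (η i) (η 0) μ μ) {lam s : ℝ} (hlam : 0 ≤ lam) (hs : 0 ≤ s) :
    ∃ c : ℝ, 0 < c ∧ ∀ (C θ : ℕ → ℝ), (∀ k, 1 ≤ C k) → (∀ k, C k ≤ 2) → (∀ k, 0 ≤ θ k) →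
      ∀ m i : ℕ, θ i = 0 → θ (i + 2) = 0 →
      c * ∫ ω, G (RR lam s C (fun j => η j ω)) θ m i /
        tot (RR lam s C (fun j => η j ω)) θ (i + (m + 2)) ∂μ ≤
      ∫ ω, (RR lam s C (fun j => η j ω) (i + 2) / (RR lam s C (fun j => η j ω) (i + 2) + 4)) *
        (G (RR lam s C (fun j => η j ω)) θ m i /
        tot (RR lam s C (fun j => η j ω)) θ (i + (m + 2))) ∂μ := by
  set ν := μ.map (η 0) with hν
  have hνp : IsProbabilityMeasure ν := Measure.isProbabilityMeasure_map (hmeas 0).aemeasurable
  have hνk : ∀ k, μ.map (η k) = ν := fun k => (hident k).map_eq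
  obtain ⟨N0, hN0⟩ : ∃ n : ℕ, 0 < ν (Set.Icc (-(n:ℝ)) n) := by
    apply exists_measure_pos_of_not_measure_iUnion_null
    have : (⋃ n : ℕ, Set.Icc (-(n:ℝ)) n) = Set.univ := by
      rw [Set.eq_univ_iff_forall]
      intro x
      obtain ⟨n, hn⟩ := exists_nat_ge |x|
      exact Set.mem_iUnion.2 ⟨n, abs_le.1 hn⟩
    rw [this, measure_univ]
    exact one_ne_zero
  set p := (ν (Set.Icc (-(N0:ℝ)) N0)).toReal with hp
  have hp0 : 0 < p := ENNReal.toReal_pos hN0.ne' (measure_ne_top _ _)
  set r0 := Real.exp (lam * (1 + s * (-(N0:ℝ)))) with hr0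
  have hr0p : 0 < r0 := Real.exp_pos _
  set a0 := r0 / (r0 + 4) with ha0
  have ha0p : 0 < a0 := by positivity
  set K := 1 + 2 * Real.exp (lam * (1 + s * N0)) with hK
  have hKp : 0 < K := by positivity
  refine ⟨a0 * p / (p + K), by positivity, ?_⟩
  intro C θ hC hC2 hθ m i h0 h2
  set F : (ℕ → ℝ) → ℝ := fun e => G (RR lam s C e) θ m i /
    tot (RR lam s C e) θ (i + (m + 2)) with hF
  set a : ℝ → ℝ := fun x => C (i + 2) * Real.exp (lam * (1 + s * x)) /
    (C (i + 2) * Real.exp (lam * (1 + s * x)) + 4) with ha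
  have hFm : Measurable F := (meas_G (fun k => meas_RR lam s C k) m i).div
    (meas_tot (fun k => meas_RR lam s C k) _)
  have hRR0 : ∀ e k, 0 ≤ RR lam s C e k := fun e k => (RR_pos lam s hC e k).le
  have hF0 : ∀ e, 0 ≤ F e := fun e => div_nonneg (G_nonneg (hRR0 e) hθ m i)
    (tot_pos (hRR0 e) hθ _).le
  have hF1 : ∀ e, F e ≤ 1 := fun e => by
    simp only [hF]
    rw [div_le_one (tot_pos (hRR0 e) hθ _)]
    exact G_le_tot (hRR0 e) hθ m i
  have ham : Measurable a := by
    have h1 : Measurable (fun x : ℝ => C (i + 2) * Real.exp (lam * (1 + s * x))) :=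
      (Real.measurable_exp.comp ((measurable_id.const_mul s).const_add 1 |>.const_mul
        lam)).const_mul _
    exact h1.div (h1.add_const 4)
  have hCp : 0 < C (i + 2) := lt_of_lt_of_le one_pos (hC (i + 2))
  have ha0' : ∀ x, 0 ≤ a x := fun x => by simp only [ha]; positivity
  have ha1 : ∀ x, a x ≤ 1 := fun x => by
    simp only [ha]
    rw [div_le_one (by positivity)]
    linarith
  set N := i + (m + 2) with hN
  -- passing to the truncated disorder
  have hFt : ∀ e, F e = F (trunc N e) := by
    intro e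
    simp only [hF]
    have h1 : ∀ j, j ≤ i + (m + 2) → RR lam s C e j = RR lam s C (trunc N e) j := by
      intro j hj
      unfold RR trunc
      rw [if_pos (by omega)]
    rw [G_congr_range m i h1, tot_congr_range (i + (m + 2)) (fun j _ h3 => h1 j h3)]
  set H : (ℕ → ℝ) → ℝ := fun e => a (e (i + 2)) * F e with hH
  have hHm : Measurable H := (ham.comp (measurable_pi_apply (i + 2))).mul hFm
  have hHt : ∀ e, H e = H (trunc N e) := by
    intro e
    simp only [hH]
    rw [← hFt e]
    unfold trunc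
    rw [if_pos (by omega)]
  have hH0 : ∀ e, 0 ≤ H e := fun e => mul_nonneg (ha0' _) (hF0 e)
  have hH1 : ∀ e, H e ≤ 1 := fun e => mul_le_one₀ (ha1 _) (hF0 e) (hF1 e)
  -- the resampling formula for bounded functions
  have hres : ∀ Q : (ℕ → ℝ) → ℝ, Measurable Q → (∀ e, 0 ≤ Q e) → (∀ e, Q e ≤ 1) →
      (∀ e, Q e = Q (trunc N e)) →
      Integrable (fun ω => ∫ x, Q (update (trunc N (fun j => η j ω)) (i + 2) x) ∂ν) μ ∧
      ∫ ω, Q (fun j => η j ω) ∂μ =
        ∫ ω, ∫ x, Q (update (trunc N (fun j => η j ω)) (i + 2) x) ∂ν ∂μ := by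
    intro Q hQ hQ0 hQ1 hQt
    have hmu : Measurable (fun p : ℝ × Ω =>
        update (trunc N (fun j => η j p.2)) (i + 2) p.1) :=
      meas_update ((meas_trunc hmeas N).comp measurable_snd) (i + 2) measurable_fst
    have hint : Integrable (fun p : ℝ × Ω =>
        Q (update (trunc N (fun j => η j p.2)) (i + 2) p.1)) (ν.prod μ) := by
      refine (integrable_const (1:ℝ)).mono' (hQ.comp hmu).aestronglyMeasurable
        (Filter.Eventually.of_forall ?_)
      intro x
      rw [Real.norm_of_nonneg (hQ0 _)]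
      exact hQ1 _
    refine ⟨hint.integral_prod_right, ?_⟩
    calc ∫ ω, Q (fun j => η j ω) ∂μ = ∫ ω, Q (trunc N (fun j => η j ω)) ∂μ := by
          apply integral_congr_ae
          exact Filter.Eventually.of_forall fun ω => hQt _
      _ = ∫ e, Q e ∂(μ.map (fun ω => trunc N (fun j => η j ω))) := by
          rw [integral_map (meas_trunc hmeas N).aemeasurable hQ.aestronglyMeasurable]
      _ = ∫ p, Q (update (trunc N (fun j => η j p.2)) (i + 2) p.1) ∂(ν.prod μ) := by
          rw [resample hmeas hindep (i + 2) N (by omega), hνk,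
            integral_map hmu.aemeasurable hQ.aestronglyMeasurable]
      _ = _ := integral_prod_symm _ hint
  obtain ⟨i1, e1⟩ := hres F hFm hF0 hF1 hFt
  obtain ⟨i2, e2⟩ := hres H hHm hH0 hH1 hHt
  have e3 : ∫ ω, (RR lam s C (fun j => η j ω) (i + 2) /
      (RR lam s C (fun j => η j ω) (i + 2) + 4)) *
        (G (RR lam s C (fun j => η j ω)) θ m i /
        tot (RR lam s C (fun j => η j ω)) θ (i + (m + 2))) ∂μ = ∫ ω, H (fun j => η j ω) ∂μ := rfl
  have e4 : ∫ ω, G (RR lam s C (fun j => η j ω)) θ m i /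
        tot (RR lam s C (fun j => η j ω)) θ (i + (m + 2)) ∂μ = ∫ ω, F (fun j => η j ω) ∂μ := rfl
  rw [e3, e4, e1, e2, ← integral_const_mul]
  apply integral_mono (i1.const_mul _) i2
  intro ω
  simp only
  set e' := trunc N (fun j => η j ω) with he'
  have hHe : ∀ x, H (update e' (i + 2) x) = a x * F (update e' (i + 2) x) := by
    intro x
    simp only [hH, update_self]
  simp only [hHe]
  have hgm : Measurable (fun x => F (update e' (i + 2) x)) :=
    hFm.comp (meas_update measurable_const (i + 2) measurable_id)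
  refine one_dim (A := -(N0:ℝ)) (B := N0) hgm (fun x => hF0 _) (fun x => hF1 _) ham ha0' ha1 ha0p
    ?_ hKp.le hp0 le_rfl ?_
  · intro x hx
    simp only [ha, ha0, hr0]
    have h1 : Real.exp (lam * (1 + s * (-(N0:ℝ)))) ≤ C (i + 2) * Real.exp (lam * (1 + s * x)) := by
      have h3 : Real.exp (lam * (1 + s * (-(N0:ℝ)))) ≤ Real.exp (lam * (1 + s * x)) := by
        apply Real.exp_le_exp.2
        apply mul_le_mul_of_nonneg_left _ hlam
        have := mul_le_mul_of_nonneg_left hx hs
        linarith
      have h4 : 1 * Real.exp (lam * (1 + s * x)) ≤ C (i + 2) * Real.exp (lam * (1 + s * x)) :=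
        mul_le_mul_of_nonneg_right (hC _) (Real.exp_pos _).le
      linarith
    rw [div_le_div_iff₀ (by positivity) (by positivity)]
    nlinarith
  · intro x x' hx hx'
    simp only [hF, RR_update]
    have hx'' : x ≤ x' := hx.le.trans hx'.1
    have h1 : C (i + 2) * Real.exp (lam * (1 + s * x)) ≤
        C (i + 2) * Real.exp (lam * (1 + s * x')) := by
      apply mul_le_mul_of_nonneg_left _ hCp.le
      apply Real.exp_le_exp.2
      apply mul_le_mul_of_nonneg_left _ hlam
      have := mul_le_mul_of_nonneg_left hx'' hs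
      linarith
    have h3 := g_comp (hRR0 e') hθ m i h0 h2 (by positivity) h1
    refine h3.trans ?_
    apply mul_le_mul_of_nonneg_right
    · rw [hK]
      have h5 : Real.exp (lam * (1 + s * x')) ≤ Real.exp (lam * (1 + s * N0)) := by
        apply Real.exp_le_exp.2
        apply mul_le_mul_of_nonneg_left _ hlam
        have := mul_le_mul_of_nonneg_left hx'.2 hs
        linarith
      have h6 : C (i + 2) * Real.exp (lam * (1 + s * x')) ≤ 2 * Real.exp (lam * (1 + s * N0)) :=
        mul_le_mul (hC2 _) h5 (Real.exp_pos _).le (by norm_num)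
      linarith
    · have hu := update_nonneg (hRR0 e') (i + 2)
        (mul_nonneg hCp.le (Real.exp_pos (lam * (1 + s * x'))).le)
      exact div_nonneg (G_nonneg hu hθ m i) (tot_pos hu hθ _).le

end Pool.Agent.Q287.PN
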