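import Pool.Agent.Q287.PN5

/-! Pinning at a selective interface: the site-by-site replacement. -/

namespace Pool.Agent.Q287.PN

open Finset Function MeasureTheory ProbabilityTheory

lemma log_tot_bound {ρ θ b : ℕ → ℝ} (hρ : ∀ k, 0 ≤ ρ k) (hθ : ∀ k, 0 ≤ θ k) (hb : ∀ k, 0 ≤ b k)
    (h : ∀ k, ρ k ≤ Real.exp (b k)) (n : ℕ) :
    |Real.log (tot ρ θ n)| ≤ Real.log (2 * ((n : ℝ) + 1)) + ∑ j ∈ range n, (b (j + 1) + θ j) := by
  have hp := tot_pos hρ hθ n
  have hs : 0 ≤ ∑ j ∈ range n, (b (j + 1) + θ j) :=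
    Finset.sum_nonneg fun j _ => add_nonneg (hb _) (hθ _)
  have hl : 0 ≤ Real.log (2 * ((n : ℝ) + 1)) := by
    apply Real.log_nonneg
    have : (0:ℝ) ≤ n := Nat.cast_nonneg n
    linarith
  rw [abs_le]
  constructor
  · have h1 := Real.log_le_log (by positivity) (tot_lower hρ hθ n)
    rw [Real.log_div (by norm_num) (by positivity), Real.log_one] at h1
    linarith
  · have h1 := Real.log_le_log hp (tot_upper hρ hθ n)
    rw [Real.log_prod] at h1
    · refine h1.trans ?_
      have h2 : ∑ i ∈ range n, Real.log (max 1 (ρ (i + 1)) * (1 + θ i)) ≤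
          ∑ j ∈ range n, (b (j + 1) + θ j) := by
        apply Finset.sum_le_sum
        intro j _
        have h3 : 0 < max 1 (ρ (j + 1)) := lt_of_lt_of_le one_pos (le_max_left _ _)
        have h4 := hθ j
        rw [Real.log_mul h3.ne' (by positivity)]
        have h5 : Real.log (max 1 (ρ (j + 1))) ≤ b (j + 1) := by
          rw [Real.log_le_iff_le_exp h3]
          exact max_le (Real.one_le_exp (hb _)) (h _)
        have h6 : Real.log (1 + θ j) ≤ θ j := by
          have := Real.log_le_sub_one_of_pos (by positivity : (0:ℝ) < 1 + θ j)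
          linarith
        linarith
      linarith
    · intro j _
      have h3 : 0 < max 1 (ρ (j + 1)) := lt_of_lt_of_le one_pos (le_max_left _ _)
      have h4 := hθ j
      positivity

variable {Ω : Type*} [MeasurableSpace Ω] {μ : Measure Ω} [IsProbabilityMeasure μ]
  {η : ℕ → Ω → ℝ}

/-- integrability of the logarithm of the total -/
lemma int_log_tot {R : Ω → ℕ → ℝ} {θ : ℕ → ℝ} {b : Ω → ℕ → ℝ}
    (hRm : ∀ k, Measurable (fun ω => R ω k)) (hR : ∀ ω k, 0 ≤ R ω k) (hθ : ∀ k, 0 ≤ θ k)
    (hb : ∀ ω k, 0 ≤ b ω k) (hRb : ∀ ω k, R ω k ≤ Real.exp (b ω k))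
    (hbi : ∀ k, Integrable (fun ω => b ω k) μ) (n : ℕ) :
    Integrable (fun ω => Real.log (tot (R ω) θ n)) μ := by
  have h1 : Integrable (fun ω => Real.log (2 * ((n : ℝ) + 1)) +
      ∑ j ∈ range n, (b ω (j + 1) + θ j)) μ := by
    apply Integrable.add (integrable_const _)
    apply integrable_finsetSum
    intro j _
    exact (hbi (j + 1)).add (integrable_const _)
  refine h1.mono' (Real.measurable_log.comp (meas_tot hRm n)).aestronglyMeasurable
    (Filter.Eventually.of_forall ?_)
  intro ω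
  rw [Real.norm_eq_abs]
  exact log_tot_bound (hR ω) hθ (hb ω) (hRb ω) n

omit [IsProbabilityMeasure μ] in
lemma int_eta (hident : ∀ i, IdentDistrib (η i) (η 0) μ μ) (hint : Integrable (η 0) μ) (k : ℕ) :
    Integrable (η k) μ := (hident k).integrable_iff.2 hint

/-- the bound for the weights -/
lemma int_b (hident : ∀ i, IdentDistrib (η i) (η 0) μ μ) (hint : Integrable (η 0) μ)
    (lam s : ℝ) (k : ℕ) : Integrable (fun ω => Real.log 2 + |lam * (1 + s * η k ω)|) μ := by
  apply Integrable.add (integrable_const _)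
  exact (((integrable_const (1:ℝ)).add ((int_eta hident hint k).const_mul s)).const_mul lam).abs

lemma int_log_RR (hmeas : ∀ i, Measurable (η i)) (hident : ∀ i, IdentDistrib (η i) (η 0) μ μ)
    (hint : Integrable (η 0) μ) (lam s : ℝ) {C θ : ℕ → ℝ} (hC : ∀ k, 1 ≤ C k)
    (hC2 : ∀ k, C k ≤ 2) (hθ : ∀ k, 0 ≤ θ k) (n : ℕ) :
    Integrable (fun ω => Real.log (tot (RR lam s C (fun j => η j ω)) θ n)) μ := by
  refine int_log_tot (b := fun ω k => Real.log 2 + |lam * (1 + s * η k ω)|) ?_ ?_ hθ ?_ ?_ ?_ n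
  · intro k
    exact (meas_RR lam s C k).comp (measurable_pi_iff.2 hmeas)
  · intro ω k
    exact (RR_pos lam s hC _ k).le
  · intro ω k
    have := Real.log_nonneg (by norm_num : (1:ℝ) ≤ 2)
    positivity
  · intro ω k
    unfold RR
    rw [Real.exp_add, Real.exp_log (by norm_num)]
    apply mul_le_mul (hC2 k) _ (Real.exp_pos _).le (by norm_num)
    exact Real.exp_le_exp.2 (le_abs_self _)
  · intro k
    exact int_b hident hint lam s k

/-- hybrid contact weights -/
noncomputable def hC (d : ℝ) (j k : ℕ) : ℝ := if k < j then 1 else 1 + d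

/-- hybrid loop weights -/
noncomputable def hT (δ : ℝ) (j k : ℕ) : ℝ := if k < j then δ else 0

lemma hC_ge {d : ℝ} (hd : 0 ≤ d) (j k : ℕ) : 1 ≤ hC d j k := by
  unfold hC; split_ifs <;> linarith

lemma hC_le {d : ℝ} (hd1 : d ≤ 1) (j k : ℕ) : hC d j k ≤ 2 := by
  unfold hC; split_ifs <;> linarith

lemma hT_ge {δ : ℝ} (hδ : 0 ≤ δ) (j k : ℕ) : 0 ≤ hT δ j k := by
  unfold hT; split_ifs <;> linarith

lemma RR_hC (lam s d : ℝ) (j : ℕ) (e : ℕ → ℝ) : RR lam s (hC d j) e =
    update (RR lam s (hC d (j + 1)) e) j ((1 + d) * RR lam s (hC d (j + 1)) e j) := by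
  funext k
  by_cases h : k = j
  · subst h
    rw [update_self]
    unfold RR hC
    rw [if_neg (by omega), if_pos (by omega)]
    ring
  · rw [update_of_ne h]
    unfold RR hC
    by_cases h2 : k < j
    · rw [if_pos h2, if_pos (by omega)]
    · rw [if_neg h2, if_neg (by omega)]

lemma hT_succ (δ : ℝ) (j : ℕ) : hT δ (j + 1) = update (hT δ j) j δ := by
  funext k
  by_cases h : k = j
  · subst h
    rw [update_self]
    unfold hT
    rw [if_pos (by omega)]
  · rw [update_of_ne h]
    unfold hT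
    by_cases h2 : k < j
    · rw [if_pos h2, if_pos (by omega)]
    · rw [if_neg h2, if_neg (by omega)]

lemma log_ge_div {y δ : ℝ} (hy : 0 ≤ y) (hyδ : y ≤ δ) : y / (1 + δ) ≤ Real.log (1 + y) := by
  have h1 := Real.one_sub_inv_le_log_of_pos (by linarith : (0:ℝ) < 1 + y)
  have h2 : 1 - (1 + y)⁻¹ = y / (1 + y) := by field_simp; ring
  rw [h2] at h1
  refine le_trans ?_ h1
  exact div_le_div_of_nonneg_left hy (by linarith) (by linarith)

/-- crude step -/
lemma crude_step {lam s d δ : ℝ} (hd : 0 ≤ d) (hδ : 0 ≤ δ) (n j : ℕ) (e : ℕ → ℝ) :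
    Real.log (tot (RR lam s (hC d j) e) (hT δ j) n) ≤
      Real.log (tot (RR lam s (hC d (j + 1)) e) (hT δ (j + 1)) n) + Real.log (1 + d) := by
  have hp1 : ∀ k, 0 ≤ RR lam s (hC d j) e k := fun k => (RR_pos lam s (hC_ge hd j) e k).le
  have hp2 : ∀ k, 0 ≤ RR lam s (hC d (j + 1)) e k :=
    fun k => (RR_pos lam s (hC_ge hd (j + 1)) e k).le
  have t1 := tot_pos hp1 (hT_ge hδ j) n
  have t2 := tot_pos hp2 (hT_ge hδ (j + 1)) n
  rw [← Real.log_mul t2.ne' (by positivity)]
  apply Real.log_le_log t1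
  have h1 : tot (RR lam s (hC d j) e) (hT δ j) n ≤
      (1 + d) * tot (RR lam s (hC d (j + 1)) e) (hT δ j) n := by
    by_cases hj : 1 ≤ j ∧ j ≤ n
    · obtain ⟨m, rfl⟩ := Nat.exists_eq_add_of_le hj.2
      rw [RR_hC]
      exact tot_scale hp2 (hT_ge hδ j) m j hj.1 hd
    · have h2 : tot (RR lam s (hC d j) e) (hT δ j) n =
          tot (RR lam s (hC d (j + 1)) e) (hT δ j) n := by
        apply tot_congr_range
        intro k hk hk'
        rw [RR_hC, update_of_ne (by omega)]
      rw [h2]
      have h3 := tot_pos hp2 (hT_ge hδ j) n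
      nlinarith
  have h4 : tot (RR lam s (hC d (j + 1)) e) (hT δ j) n ≤
      tot (RR lam s (hC d (j + 1)) e) (hT δ (j + 1)) n := by
    apply tot_mono hp2 (hT_ge hδ j) (fun _ => le_rfl)
    intro k
    unfold hT
    by_cases h2 : k < j
    · rw [if_pos h2, if_pos (by omega)]
    · rw [if_neg h2]; split_ifs; exacts [hδ, le_rfl]
  have h5 := mul_le_mul_of_nonneg_left h4 (by linarith : (0:ℝ) ≤ 1 + d)
  linarith

/-- the replacement lemma -/
lemma hybrid (hmeas : ∀ i, Measurable (η i)) (hindep : iIndepFun η μ)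
    (hident : ∀ i, IdentDistrib (η i) (η 0) μ μ) (hint : Integrable (η 0) μ)
    {lam s : ℝ} (hlam : 0 ≤ lam) (hs : 0 ≤ s) {δ : ℝ} (hδ : 0 < δ) :
    ∃ d : ℝ, 0 < d ∧ d ≤ 1 ∧ ∀ n : ℕ,
      ∫ ω, Real.log (tot (fun k => (1 + d) * wt lam s (fun j => η j ω) k) (fun _ => 0) n) ∂μ ≤
      ∫ ω, Real.log (tot (wt lam s (fun j => η j ω)) (fun _ => δ) n) ∂μ + 3 * Real.log (1 + d) := by
  obtain ⟨c, hc, hkey⟩ := key_mean hmeas hindep hident hlam hs
  set d := min 1 (c * (δ / (1 + δ))) with hd
  have hd0 : 0 < d := lt_min one_pos (by positivity)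
  have hd1 : d ≤ 1 := min_le_left _ _
  have hd2 : d ≤ c * (δ / (1 + δ)) := min_le_right _ _
  refine ⟨d, hd0, hd1, ?_⟩
  intro n
  set L : ℕ → ℝ := fun j => ∫ ω, Real.log (tot (RR lam s (hC d j) (fun i => η i ω)) (hT δ j) n) ∂μ
    with hL
  have hI : ∀ j, Integrable (fun ω => Real.log
      (tot (RR lam s (hC d j) (fun i => η i ω)) (hT δ j) n)) μ := fun j =>
    int_log_RR hmeas hident hint lam s (hC_ge hd0.le j) (hC_le hd1 j) (hT_ge hδ.le j) n
  have hlog0 : 0 ≤ Real.log (1 + d) := Real.log_nonneg (by linarith)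
  -- one step
  have hstep : ∀ j, L j ≤ L (j + 1) + (if 1 ≤ j ∧ j + 2 ≤ n then 0 else Real.log (1 + d)) := by
    intro j
    split_ifs with hj
    · rw [add_zero]
      obtain ⟨m, hm⟩ := Nat.exists_eq_add_of_le hj.2
      have hn : n = j + (m + 2) := by omega
      have hCb := hC_ge hd0.le (j + 1)
      have hTb := hT_ge hδ.le j
      have h0 : hT δ j j = 0 := by unfold hT; rw [if_neg (by omega)]
      have h2 : hT δ j (j + 2) = 0 := by unfold hT; rw [if_neg (by omega)]
      set Rb : Ω → ℕ → ℝ := fun ω => RR lam s (hC d (j + 1)) (fun i => η i ω) with hRb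
      have hRb0 : ∀ ω k, 0 ≤ Rb ω k := fun ω k => (RR_pos lam s hCb _ k).le
      have hRbm : ∀ k, Measurable (fun ω => Rb ω k) := fun k =>
        (meas_RR lam s _ k).comp (measurable_pi_iff.2 hmeas)
      set g : Ω → ℝ := fun ω => G (Rb ω) (hT δ j) m j / tot (Rb ω) (hT δ j) (j + (m + 2)) with hg
      set a : Ω → ℝ := fun ω => Rb ω (j + 2) / (Rb ω (j + 2) + 4) with ha
      have hk := hkey (hC d (j + 1)) (hT δ j) hCb (hC_le hd1 (j + 1)) hTb m j h0 h2
      have hk' : c * ∫ ω, g ω ∂μ ≤ ∫ ω, a ω * g ω ∂μ := hk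
      have hgm : Measurable g := (meas_G hRbm m j).div (meas_tot hRbm _)
      have ham : Measurable a := (hRbm (j + 2)).div ((hRbm (j + 2)).add_const 4)
      have hg0 : ∀ ω, 0 ≤ g ω := fun ω => div_nonneg (G_nonneg (hRb0 ω) hTb m j)
        (tot_pos (hRb0 ω) hTb _).le
      have hg1 : ∀ ω, g ω ≤ 1 := fun ω => by
        simp only [hg]
        rw [div_le_one (tot_pos (hRb0 ω) hTb _)]
        exact G_le_tot (hRb0 ω) hTb m j
      have ha0 : ∀ ω, 0 ≤ a ω := fun ω => by
        have := hRb0 ω (j + 2)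
        simp only [ha]; positivity
      have ha1 : ∀ ω, a ω ≤ 1 := fun ω => by
        have := hRb0 ω (j + 2)
        simp only [ha]
        rw [div_le_one (by positivity)]
        linarith
      have hgi : Integrable g μ := by
        refine (integrable_const (1:ℝ)).mono' hgm.aestronglyMeasurable
          (Filter.Eventually.of_forall ?_)
        intro ω
        rw [Real.norm_of_nonneg (hg0 ω)]
        exact hg1 ω
      have hagi : Integrable (fun ω => a ω * g ω) μ := by
        refine (integrable_const (1:ℝ)).mono' (ham.mul hgm).aestronglyMeasurable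
          (Filter.Eventually.of_forall ?_)
        intro ω
        rw [Real.norm_of_nonneg (mul_nonneg (ha0 ω) (hg0 ω))]
        exact mul_le_one₀ (ha1 ω) (hg0 ω) (hg1 ω)
      have hbi : Integrable (fun ω => Real.log (tot (Rb ω) (hT δ j) n)) μ :=
        int_log_RR hmeas hident hint lam s hCb (hC_le hd1 (j + 1)) hTb n
      -- old
      have hold : L j ≤ ∫ ω, Real.log (tot (Rb ω) (hT δ j) n) ∂μ + d * ∫ ω, g ω ∂μ := by
        rw [← integral_const_mul, ← integral_add hbi (hgi.const_mul d)]
        apply integral_mono (hI j) (hbi.add (hgi.const_mul d))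
        intro ω
        simp only [Pi.add_apply]
        have t0 := tot_pos (hRb0 ω) hTb n
        have e1 : tot (RR lam s (hC d j) (fun i => η i ω)) (hT δ j) n =
            tot (Rb ω) (hT δ j) n * (1 + d * g ω) := by
          rw [RR_hC]
          have e2 := tot_old (ρ := Rb ω) (θ := hT δ j) m j hj.1 d
          have e3 : tot (update (Rb ω) j ((1 + d) * Rb ω j)) (hT δ j) n =
              tot (Rb ω) (hT δ j) n + d * G (Rb ω) (hT δ j) m j := by rw [hn]; exact e2
          rw [e3]
          simp only [hg]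
          rw [← hn]
          field_simp
        rw [e1, Real.log_mul t0.ne' (by have := hg0 ω; positivity)]
        have h3 := Real.log_le_sub_one_of_pos
          (by have := hg0 ω; positivity : (0:ℝ) < 1 + d * g ω)
        linarith
      -- new
      have hnew : ∫ ω, Real.log (tot (Rb ω) (hT δ j) n) ∂μ +
          δ / (1 + δ) * ∫ ω, a ω * g ω ∂μ ≤ L (j + 1) := by
        rw [← integral_const_mul, ← integral_add hbi (hagi.const_mul _)]
        apply integral_mono (hbi.add (hagi.const_mul _)) (hI (j + 1))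
        intro ω
        simp only [Pi.add_apply]
        have t0 := tot_pos (hRb0 ω) hTb n
        have hag0 : 0 ≤ a ω * g ω := mul_nonneg (ha0 ω) (hg0 ω)
        have hag1 : a ω * g ω ≤ 1 := mul_le_one₀ (ha1 ω) (hg0 ω) (hg1 ω)
        have e1 : tot (Rb ω) (hT δ j) n * (1 + δ * (a ω * g ω)) ≤
            tot (RR lam s (hC d (j + 1)) (fun i => η i ω)) (hT δ (j + 1)) n := by
          rw [hT_succ]
          have e2 := tot_new (hRb0 ω) hTb m j h0 hδ.le
          have e3 : tot (Rb ω) (hT δ j) n * (1 + δ * (a ω * g ω)) =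
              tot (Rb ω) (hT δ j) n + δ * (Rb ω (j + 2) / (Rb ω (j + 2) + 4)) *
                G (Rb ω) (hT δ j) m j := by
            simp only [hg, ha]
            rw [← hn]
            field_simp
          rw [e3, hn]
          exact e2
        have h3 := Real.log_le_log (by positivity) e1
        rw [Real.log_mul t0.ne' (by positivity)] at h3
        have h4 : δ * (a ω * g ω) / (1 + δ) ≤ Real.log (1 + δ * (a ω * g ω)) := by
          apply log_ge_div (by positivity)
          nlinarith
        have h5 : δ / (1 + δ) * (a ω * g ω) = δ * (a ω * g ω) / (1 + δ) := by ring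
        rw [h5]
        linarith
      have hgI0 : 0 ≤ ∫ ω, g ω ∂μ := integral_nonneg hg0
      have h6 : d * ∫ ω, g ω ∂μ ≤ δ / (1 + δ) * ∫ ω, a ω * g ω ∂μ := by
        calc d * ∫ ω, g ω ∂μ ≤ c * (δ / (1 + δ)) * ∫ ω, g ω ∂μ :=
              mul_le_mul_of_nonneg_right hd2 hgI0
          _ = δ / (1 + δ) * (c * ∫ ω, g ω ∂μ) := by ring
          _ ≤ _ := mul_le_mul_of_nonneg_left hk' (by positivity)
      linarith
    · calc L j ≤ ∫ ω, (Real.log (tot (RR lam s (hC d (j + 1)) (fun i => η i ω)) (hT δ (j + 1)) n) +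
            Real.log (1 + d)) ∂μ := by
            apply integral_mono (hI j) ((hI (j + 1)).add (integrable_const _))
            intro ω
            exact crude_step hd0.le hδ.le n j _
        _ = L (j + 1) + Real.log (1 + d) := by
            rw [integral_add (hI (j + 1)) (integrable_const _), integral_const]
            simp [hL]
  -- telescoping
  have htel : ∀ J, L 0 ≤ L J + ∑ j ∈ range J,
      (if 1 ≤ j ∧ j + 2 ≤ n then 0 else Real.log (1 + d)) := by
    intro J
    induction J with
    | zero => simp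
    | succ J ih =>
      rw [Finset.sum_range_succ]
      linarith [hstep J]
  have h1 := htel (n + 1)
  have h2 : ∑ j ∈ range (n + 1), (if 1 ≤ j ∧ j + 2 ≤ n then 0 else Real.log (1 + d)) ≤
      3 * Real.log (1 + d) := by
    rw [Finset.sum_ite, Finset.sum_const_zero, zero_add, Finset.sum_const, nsmul_eq_mul]
    apply mul_le_mul_of_nonneg_right _ hlog0
    have h3 : ((range (n + 1)).filter (fun j => ¬ (1 ≤ j ∧ j + 2 ≤ n))) ⊆ {0, n - 1, n} := by
      intro j hj
      rw [Finset.mem_filter, Finset.mem_range] at hj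
      simp only [Finset.mem_insert, Finset.mem_singleton]
      omega
    have h4 := (Finset.card_le_card h3).trans Finset.card_le_three
    exact_mod_cast h4
  have h3 : L 0 = ∫ ω, Real.log (tot (fun k => (1 + d) * wt lam s (fun j => η j ω) k)
      (fun _ => 0) n) ∂μ := by
    simp only [hL]
    have e1 : hT δ 0 = fun _ => 0 := by
      funext k
      simp [hT]
    have e2 : ∀ e : ℕ → ℝ, RR lam s (hC d 0) e = fun k => (1 + d) * wt lam s e k := by
      intro e
      funext k
      simp [RR, hC, wt]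
    simp only [e1, e2]
  have h4 : L (n + 1) = ∫ ω, Real.log (tot (wt lam s (fun j => η j ω)) (fun _ => δ) n) ∂μ := by
    simp only [hL]
    congr 1
    funext ω
    congr 1
    unfold tot
    apply Finset.sum_congr rfl
    intro x _
    apply z_congr
    · intro j hj
      unfold RR hC wt
      rw [if_pos (by omega), one_mul]
    · intro j hj
      unfold hT
      rw [if_pos (by omega)]
  rw [← h3, ← h4]
  linarith

end Pool.Agent.Q287.PN
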