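import Pool.Agent.Q287.PN6

/-! Pinning at a selective interface: the annealed bound. -/

namespace Pool.Agent.Q287.PN

open Finset Function MeasureTheory ProbabilityTheory
open scoped ENNReal

variable {Ω : Type*} [MeasurableSpace Ω] {μ : Measure Ω} [IsProbabilityMeasure μ]
  {η : ℕ → Ω → ℝ}

lemma RR_nonneg (lam s : ℝ) {C : ℕ → ℝ} (hC : ∀ k, 0 ≤ C k) (e : ℕ → ℝ) (k : ℕ) :
    0 ≤ RR lam s C e k := by
  unfold RR
  have := hC k
  positivity

/-- multiplying by a fresh weight of mean at most one -/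
lemma fresh (hmeas : ∀ i, Measurable (η i)) (hindep : iIndepFun η μ)
    (hident : ∀ i, IdentDistrib (η i) (η 0) μ μ) {lam s : ℝ} {C : ℕ → ℝ} (hC : ∀ k, 0 ≤ C k)
    (hE : ∀ k, ∫⁻ ω, ENNReal.ofReal (C k * Real.exp (lam * (1 + s * η 0 ω))) ∂μ ≤ 1)
    (m k x : ℕ) :
    ∫⁻ ω, ENNReal.ofReal (RR lam s C (fun j => η j ω) (k + 1) *
      v (RR lam s C (fun j => η j ω)) (fun _ => 0) m (k + 1) x) ∂μ ≤
    ∫⁻ ω, ENNReal.ofReal (v (RR lam s C (fun j => η j ω)) (fun _ => 0) m (k + 1) x) ∂μ := by
  set ν := μ.map (η 0) with hν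
  have hνp : IsProbabilityMeasure ν := Measure.isProbabilityMeasure_map (hmeas 0).aemeasurable
  have hνk : μ.map (η (k + 1)) = ν := (hident (k + 1)).map_eq
  set N := k + 1 + m with hN
  set V : (ℕ → ℝ) → ℝ := fun e => v (RR lam s C e) (fun _ => 0) m (k + 1) x with hV
  have hVm : Measurable V := meas_v (fun j => meas_RR lam s C j) m (k + 1) x
  have hV0 : ∀ e, 0 ≤ V e := fun e =>
    (v_pos (fun j => RR_nonneg lam s hC e j) (fun _ => le_rfl) _ _ _).le
  set F : (ℕ → ℝ) → ℝ≥0∞ := fun e => ENNReal.ofReal (RR lam s C e (k + 1) * V e) with hF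
  have hFm : Measurable F :=
    ENNReal.measurable_ofReal.comp ((meas_RR lam s C (k + 1)).mul hVm)
  have hVt : ∀ e, V e = V (trunc N e) := by
    intro e
    apply v_congr_range
    intro j hj hj'
    unfold RR trunc
    rw [if_pos (by omega)]
  have hFt : ∀ e, F e = F (trunc N e) := by
    intro e
    simp only [hF]
    rw [← hVt e]
    congr 2
    unfold RR trunc
    rw [if_pos (by omega)]
  have hmu : Measurable (fun p : ℝ × Ω =>
      update (trunc N (fun j => η j p.2)) (k + 1) p.1) :=
    meas_update ((meas_trunc hmeas N).comp measurable_snd) (k + 1) measurable_fst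
  calc ∫⁻ ω, F (fun j => η j ω) ∂μ = ∫⁻ ω, F (trunc N (fun j => η j ω)) ∂μ := by
        apply lintegral_congr
        intro ω
        exact hFt _
    _ = ∫⁻ e, F e ∂(μ.map (fun ω => trunc N (fun j => η j ω))) := by
        rw [lintegral_map hFm (meas_trunc hmeas N)]
    _ = ∫⁻ p, F (update (trunc N (fun j => η j p.2)) (k + 1) p.1) ∂(ν.prod μ) := by
        rw [resample hmeas hindep (k + 1) N (by omega), hνk, lintegral_map hFm hmu]
    _ = ∫⁻ ω, ∫⁻ y, F (update (trunc N (fun j => η j ω)) (k + 1) y) ∂ν ∂μ :=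
        lintegral_prod_symm' _ (hFm.comp hmu)
    _ ≤ ∫⁻ ω, ENNReal.ofReal (V (fun j => η j ω)) ∂μ := by
        apply lintegral_mono
        intro ω
        simp only
        have h1 : ∀ y, F (update (trunc N (fun j => η j ω)) (k + 1) y) =
            ENNReal.ofReal (C (k + 1) * Real.exp (lam * (1 + s * y))) *
              ENNReal.ofReal (V (fun j => η j ω)) := by
          intro y
          simp only [hF]
          have h2 : V (update (trunc N (fun j => η j ω)) (k + 1) y) = V (fun j => η j ω) := by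
            rw [hVt (fun j => η j ω)]
            apply v_congr_range
            intro j hj hj'
            unfold RR
            rw [update_of_ne (by omega)]
          rw [h2, ENNReal.ofReal_mul (RR_nonneg lam s hC _ _)]
          congr 2
          unfold RR
          rw [update_self]
        simp only [h1]
        rw [lintegral_mul_const]
        · have h3 : ∫⁻ y, ENNReal.ofReal (C (k + 1) * Real.exp (lam * (1 + s * y))) ∂ν ≤ 1 := by
            rw [hν, lintegral_map _ (hmeas 0)]
            · exact hE (k + 1)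
            · exact ENNReal.measurable_ofReal.comp ((Real.measurable_exp.comp
                (((measurable_id.const_mul s).const_add 1).const_mul lam)).const_mul _)
          calc _ ≤ 1 * ENNReal.ofReal (V (fun j => η j ω)) := by gcongr
            _ = _ := one_mul _
        · exact ENNReal.measurable_ofReal.comp ((Real.measurable_exp.comp
            (((measurable_id.const_mul s).const_add 1).const_mul lam)).const_mul _)

lemma annealed (hmeas : ∀ i, Measurable (η i)) (hindep : iIndepFun η μ)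
    (hident : ∀ i, IdentDistrib (η i) (η 0) μ μ) {lam s : ℝ} {C : ℕ → ℝ} (hC : ∀ k, 0 ≤ C k)
    (hE : ∀ k, ∫⁻ ω, ENNReal.ofReal (C k * Real.exp (lam * (1 + s * η 0 ω))) ∂μ ≤ 1) :
    ∀ m k x : ℕ,
    ∫⁻ ω, ENNReal.ofReal (v (RR lam s C (fun j => η j ω)) (fun _ => 0) m k x) ∂μ ≤ 1
  | 0, _, _ => by simp only [v.eq_1]; simp
  | 1, _, 0 => by
    simp only [v.eq_2]
    rw [lintegral_const, measure_univ, mul_one]
    rw [ENNReal.ofReal_le_one]
    norm_num
  | (m + 2), k, 0 => by
    have ih := annealed hmeas hindep hident hC hE (m + 1) (k + 1) 1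
    simp only [v.eq_3, zero_mul, zero_div, add_zero]
    refine le_trans (lintegral_mono fun ω => ?_) ih
    apply ENNReal.ofReal_le_ofReal
    have := v_pos (fun j => RR_nonneg lam s hC (fun j => η j ω) j)
      (fun _ => le_rfl : ∀ k : ℕ, (0:ℝ) ≤ (fun _ => 0) k) (m + 1) (k + 1) 1
    linarith
  | (m + 1), k, (x + 1) => by
    have hR0 : ∀ ω k, 0 ≤ RR lam s C (fun j => η j ω) k := fun ω k => RR_nonneg lam s hC _ k
    have hRm : ∀ k, Measurable (fun ω => RR lam s C (fun j => η j ω) k) := fun k =>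
      (meas_RR lam s C k).comp (measurable_pi_iff.2 hmeas)
    have hv0 : ∀ ω m k x, 0 ≤ v (RR lam s C (fun j => η j ω)) (fun _ => 0) m k x :=
      fun ω m k x => (v_pos (hR0 ω) (fun _ => le_rfl) m k x).le
    have ih1 := annealed hmeas hindep hident hC hE m (k + 1) x
    have ih2 := annealed hmeas hindep hident hC hE m (k + 1) (x + 2)
    have h1 : ∫⁻ ω, ENNReal.ofReal ((if x = 0 then RR lam s C (fun j => η j ω) (k + 1) else 1) *
        v (RR lam s C (fun j => η j ω)) (fun _ => 0) m (k + 1) x) ∂μ ≤ 1 := by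
      by_cases hx : x = 0
      · simp only [hx, if_true]
        rw [hx] at ih1
        exact (fresh hmeas hindep hident hC hE m k 0).trans ih1
      · simp only [hx, if_false, one_mul]
        exact ih1
    have h2 : ∀ ω, ENNReal.ofReal (v (RR lam s C (fun j => η j ω)) (fun _ => 0) (m + 1) k (x + 1)) =
        2⁻¹ * (ENNReal.ofReal ((if x = 0 then RR lam s C (fun j => η j ω) (k + 1) else 1) *
        v (RR lam s C (fun j => η j ω)) (fun _ => 0) m (k + 1) x) +
        ENNReal.ofReal (v (RR lam s C (fun j => η j ω)) (fun _ => 0) m (k + 1) (x + 2))) := by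
      intro ω
      rw [v.eq_4, ← ENNReal.ofReal_add _ (hv0 _ _ _ _), div_eq_inv_mul,
        ENNReal.ofReal_mul (by norm_num)]
      · congr 1
        rw [ENNReal.ofReal_inv_of_pos (by norm_num)]
        simp
      · apply mul_nonneg _ (hv0 _ _ _ _)
        split_ifs
        · exact hR0 _ _
        · norm_num
    simp only [h2]
    have hm1 : Measurable (fun ω => ENNReal.ofReal
        ((if x = 0 then RR lam s C (fun j => η j ω) (k + 1) else 1) *
        v (RR lam s C (fun j => η j ω)) (fun _ => 0) m (k + 1) x)) := by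
      apply ENNReal.measurable_ofReal.comp
      by_cases hx : x = 0
      · simp only [hx, if_true]; exact (hRm (k + 1)).mul (meas_v hRm _ _ _)
      · simp only [hx, if_false, one_mul]; exact meas_v hRm _ _ _
    have hm2 : Measurable (fun ω => ENNReal.ofReal
        (v (RR lam s C (fun j => η j ω)) (fun _ => 0) m (k + 1) (x + 2))) :=
      ENNReal.measurable_ofReal.comp (meas_v hRm _ _ _)
    rw [lintegral_const_mul' _ _ (by simp), lintegral_add_left hm1]
    calc 2⁻¹ * (_ + _) ≤ 2⁻¹ * ((1:ℝ≥0∞) + 1) := by gcongr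
      _ = 1 := by
        rw [one_add_one_eq_two]
        exact ENNReal.inv_mul_cancel (by norm_num) (by norm_num)

/-- the mean of the logarithm is nonpositive -/
lemma annealed_log (hmeas : ∀ i, Measurable (η i)) (hindep : iIndepFun η μ)
    (hident : ∀ i, IdentDistrib (η i) (η 0) μ μ) (hint : Integrable (η 0) μ) {lam s M : ℝ}
    (hM : 0 ≤ M)
    (hE : ∫⁻ ω, ENNReal.ofReal (Real.exp (-M) * Real.exp (lam * (1 + s * η 0 ω))) ∂μ ≤ 1)
    (n : ℕ) :
    Integrable (fun ω => Real.log
      (tot (RR lam s (fun _ => Real.exp (-M)) (fun j => η j ω)) (fun _ => 0) n)) μ ∧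
    ∫ ω, Real.log (tot (RR lam s (fun _ => Real.exp (-M)) (fun j => η j ω)) (fun _ => 0) n) ∂μ
      ≤ 0 := by
  have hC : ∀ k : ℕ, 0 ≤ (fun _ : ℕ => Real.exp (-M)) k := fun _ => (Real.exp_pos _).le
  have hR0 : ∀ ω k, 0 ≤ RR lam s (fun _ => Real.exp (-M)) (fun j => η j ω) k :=
    fun ω k => RR_nonneg lam s hC _ k
  have hRm : ∀ k, Measurable (fun ω => RR lam s (fun _ => Real.exp (-M)) (fun j => η j ω) k) :=
    fun k => (meas_RR lam s (fun _ => Real.exp (-M)) k).comp (measurable_pi_iff.2 hmeas)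
  have hi : Integrable (fun ω => Real.log
      (tot (RR lam s (fun _ => Real.exp (-M)) (fun j => η j ω)) (fun _ => 0) n)) μ := by
    refine int_log_tot (b := fun ω k => Real.log 2 + |lam * (1 + s * η k ω)|) hRm hR0
      (fun _ => le_rfl) ?_ ?_ (fun k => int_b hident hint lam s k) n
    · intro ω k
      have := Real.log_nonneg (by norm_num : (1:ℝ) ≤ 2)
      positivity
    · intro ω k
      unfold RR
      rw [← Real.exp_add]
      apply Real.exp_le_exp.2
      have := Real.log_nonneg (by norm_num : (1:ℝ) ≤ 2)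
      linarith [le_abs_self (lam * (1 + s * η k ω))]
  refine ⟨hi, ?_⟩
  set Z : Ω → ℝ := fun ω => tot (RR lam s (fun _ => Real.exp (-M)) (fun j => η j ω)) (fun _ => 0) n
    with hZ
  have hZm : Measurable Z := meas_tot hRm n
  have hZ0 : ∀ ω, 0 < Z ω := fun ω => tot_pos (hR0 ω) (fun _ => le_rfl) n
  have h1 : ∫⁻ ω, ENNReal.ofReal (Z ω) ∂μ ≤ 1 := by
    simp only [hZ, tot_eq_v]
    exact annealed hmeas hindep hident hC (fun _ => hE) n 0 0
  have hZi : Integrable Z μ := by
    refine ⟨hZm.aestronglyMeasurable, ?_⟩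
    rw [hasFiniteIntegral_iff_ofReal (Filter.Eventually.of_forall fun ω => (hZ0 ω).le)]
    exact lt_of_le_of_lt h1 ENNReal.one_lt_top
  have h2 : ∫ ω, Z ω ∂μ ≤ 1 := by
    rw [integral_eq_lintegral_of_nonneg_ae (Filter.Eventually.of_forall fun ω => (hZ0 ω).le)
      hZm.aestronglyMeasurable]
    exact ENNReal.toReal_le_of_le_ofReal zero_le_one (by simpa using h1)
  calc ∫ ω, Real.log (Z ω) ∂μ ≤ ∫ ω, (Z ω - 1) ∂μ :=
        integral_mono hi (hZi.sub (integrable_const _)) fun ω => Real.log_le_sub_one_of_pos (hZ0 ω)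
    _ = ∫ ω, Z ω ∂μ - 1 := by rw [integral_sub hZi (integrable_const _)]; simp
    _ ≤ 0 := by linarith

end Pool.Agent.Q287.PN
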