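import Pool.Agent.Q287.PN7

/-! Pinning at a selective interface: from the almost sure limits to the mean, and conclusion. -/

namespace Pool.Agent.Q287.PN

open Finset Function MeasureTheory ProbabilityTheory Filter
open scoped ENNReal NNReal Topology

variable {Ω : Type*} [MeasurableSpace Ω] {μ : Measure Ω} [IsProbabilityMeasure μ]
  {η : ℕ → Ω → ℝ}

lemma wt_eq_RR (lam s : ℝ) (e : ℕ → ℝ) : wt lam s e = RR lam s (fun _ => 1) e := by
  funext k; simp [wt, RR]

lemma meas_wt (hmeas : ∀ i, Measurable (η i)) (lam s : ℝ) (k : ℕ) :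
    Measurable (fun ω => wt lam s (fun j => η j ω) k) := by
  unfold wt
  exact Real.measurable_exp.comp ((((hmeas k).const_mul s).const_add 1).const_mul lam)

lemma meas_soft (hmeas : ∀ i, Measurable (η i)) (lam s q : ℝ) (n : ℕ) :
    Measurable (fun ω => softTot q (wt lam s (fun j => η j ω)) n) := by
  have hA : ∀ n y, Measurable (fun ω => A q (wt lam s (fun j => η j ω)) n y) := by
    intro n
    induction n with
    | zero => intro y; simp only [A_zero]; exact measurable_const
    | succ n ih =>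
      intro y
      simp only [A_succ]
      have hst : ∀ x y : ℤ, Measurable (fun ω => stepW q (wt lam s (fun j => η j ω) (n + 1)) x y) := by
        intro x y
        unfold stepW
        split_ifs <;> first | exact (meas_wt hmeas lam s (n + 1)).mul measurable_const |
          exact measurable_const
      exact (((ih (y - 1)).mul (hst _ _)).add ((ih (y + 1)).mul (hst _ _))).div_const 2
  unfold softTot
  exact (Finset.measurable_sum _ fun x _ => hA n _).add (Finset.measurable_sum _ fun x _ => hA n _)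

/-- lower bound of the soft model -/
lemma soft_lower {q lam s : ℝ} (hq : 0 ≤ q) (e : ℕ → ℝ) (n : ℕ) :
    1 / (2 * ((n : ℝ) + 1)) ≤ softTot q (wt lam s e) n :=
  (tot_lower (fun k => (wt_pos lam s e k).le) (fun _ => by positivity) n).trans
    (softTot_lower hq (fun k => (wt_pos lam s e k).le) n)

lemma soft_pos {q lam s : ℝ} (hq : 0 ≤ q) (e : ℕ → ℝ) (n : ℕ) : 0 < softTot q (wt lam s e) n :=
  lt_of_lt_of_le (by positivity) (soft_lower hq e n)

/-- the majorant of the logarithms -/
noncomputable def maj (lam s : ℝ) (e : ℕ → ℝ) (n : ℕ) : ℝ :=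
  Real.log 2 + Real.log (2 * ((n : ℝ) + 1)) +
    ∑ j ∈ range n, (Real.log 2 + |lam * (1 + s * e (j + 1))|)

lemma log_soft_le {q lam s : ℝ} (hq : 0 ≤ q) (hq1 : q ≤ 1) (e : ℕ → ℝ) (n : ℕ) :
    Real.log (softTot q (wt lam s e) n) ≤ maj lam s e n := by
  have h0 : ∀ k, 0 ≤ wt lam s e k := fun k => (wt_pos lam s e k).le
  have h1 := softTot_upper hq hq1 h0 n
  have hρ : ∀ k, 0 ≤ (fun k => (1 + q ^ 2) * wt lam s e k) k := fun k =>
    mul_nonneg (by positivity) (h0 k)
  have hp := tot_pos hρ (fun _ => le_rfl : ∀ k : ℕ, (0:ℝ) ≤ (fun _ => 0) k) n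
  have h2 := Real.log_le_log (soft_pos hq e n) h1
  rw [Real.log_mul (by norm_num) hp.ne'] at h2
  have h3 := log_tot_bound (b := fun k => Real.log 2 + |lam * (1 + s * e k)|) hρ
    (fun _ => le_rfl : ∀ k : ℕ, (0:ℝ) ≤ (fun _ => 0) k)
    (fun k => by
      have := Real.log_nonneg (by norm_num : (1:ℝ) ≤ 2)
      positivity)
    (fun k => by
      simp only [wt]
      rw [Real.exp_add, Real.exp_log (by norm_num)]
      apply mul_le_mul _ (Real.exp_le_exp.2 (le_abs_self _)) (Real.exp_pos _).le (by norm_num)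
      have : q ^ 2 ≤ 1 := pow_le_one₀ hq hq1
      linarith) n
  have h4 := (abs_le.1 h3).2
  simp only [add_zero] at h4
  unfold maj
  linarith

lemma maj_nonneg (lam s : ℝ) (e : ℕ → ℝ) (n : ℕ) : 0 ≤ maj lam s e n := by
  unfold maj
  have h1 := Real.log_nonneg (by norm_num : (1:ℝ) ≤ 2)
  have h2 : 0 ≤ Real.log (2 * ((n : ℝ) + 1)) := by
    apply Real.log_nonneg
    have : (0:ℝ) ≤ n := Nat.cast_nonneg n
    linarith
  have h3 : 0 ≤ ∑ j ∈ range n, (Real.log 2 + |lam * (1 + s * e (j + 1))|) :=
    Finset.sum_nonneg fun j _ => by positivity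
  linarith

lemma abs_log_soft_le {q lam s : ℝ} (hq : 0 ≤ q) (hq1 : q ≤ 1) (e : ℕ → ℝ) (n : ℕ) :
    |Real.log (softTot q (wt lam s e) n)| ≤ maj lam s e n := by
  rw [abs_le]
  refine ⟨?_, log_soft_le hq hq1 e n⟩
  have h1 := Real.log_le_log (by positivity) (soft_lower (lam := lam) (s := s) hq e n)
  rw [Real.log_div (by norm_num) (by positivity), Real.log_one] at h1
  have h2 := Real.log_nonneg (by norm_num : (1:ℝ) ≤ 2)
  have h3 : 0 ≤ ∑ j ∈ range n, (Real.log 2 + |lam * (1 + s * e (j + 1))|) :=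
    Finset.sum_nonneg fun j _ => by positivity
  unfold maj
  linarith

lemma int_maj (hident : ∀ i, IdentDistrib (η i) (η 0) μ μ) (hint : Integrable (η 0) μ)
    (lam s : ℝ) (n : ℕ) : Integrable (fun ω => maj lam s (fun j => η j ω) n) μ := by
  unfold maj
  apply Integrable.add (integrable_const _)
  apply integrable_finsetSum
  intro j _
  exact int_b hident hint lam s (j + 1)

lemma integral_maj (hmeas : ∀ i, Measurable (η i)) (hident : ∀ i, IdentDistrib (η i) (η 0) μ μ)
    (hint : Integrable (η 0) μ) (lam s : ℝ) (n : ℕ) :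
    ∫ ω, maj lam s (fun j => η j ω) n ∂μ = Real.log 2 + Real.log (2 * ((n : ℝ) + 1)) +
      n * ∫ ω, (Real.log 2 + |lam * (1 + s * η 1 ω)|) ∂μ := by
  unfold maj
  rw [integral_add (integrable_const _) (integrable_finsetSum _ fun j _ =>
    int_b hident hint lam s (j + 1)), integral_const, integral_finsetSum _ fun j _ =>
    int_b hident hint lam s (j + 1)]
  have h1 : ∀ j ∈ range n, ∫ ω, (Real.log 2 + |lam * (1 + s * η (j + 1) ω)|) ∂μ =
      ∫ ω, (Real.log 2 + |lam * (1 + s * η 1 ω)|) ∂μ := by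
    intro j _
    have hu : Measurable (fun x : ℝ => Real.log 2 + |lam * (1 + s * x)|) :=
      (measurable_norm.comp (((measurable_id.const_mul s).const_add 1).const_mul lam)).const_add _
    exact (((hident (j + 1)).trans (hident 1).symm).comp hu).integral_eq
  rw [Finset.sum_congr rfl h1, Finset.sum_const, Finset.card_range, nsmul_eq_mul]
  simp

lemma slln (hmeas : ∀ i, Measurable (η i)) (hindep : iIndepFun η μ)
    (hident : ∀ i, IdentDistrib (η i) (η 0) μ μ) (hint : Integrable (η 0) μ) (lam s : ℝ) :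
    ∀ᵐ ω ∂μ, Tendsto (fun n : ℕ => (∑ j ∈ range n, (Real.log 2 + |lam * (1 + s * η (j + 1) ω)|)) / n)
      atTop (𝓝 (∫ ω, (Real.log 2 + |lam * (1 + s * η 1 ω)|) ∂μ)) := by
  have hu : Measurable (fun x : ℝ => Real.log 2 + |lam * (1 + s * x)|) :=
    (measurable_norm.comp (((measurable_id.const_mul s).const_add 1).const_mul lam)).const_add _
  have h := strong_law_ae (μ := μ) (fun j ω => Real.log 2 + |lam * (1 + s * η (j + 1) ω)|)
    (int_b hident hint lam s 1)
    (fun i j hij => (hindep.indepFun (by omega : i + 1 ≠ j + 1)).comp hu hu)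
    (fun j => ((hident (j + 1)).trans (hident 1).symm).comp hu)
  filter_upwards [h] with ω hω
  refine hω.congr ?_
  intro n
  rw [smul_eq_mul, div_eq_inv_mul]

lemma tendsto_log_div : Tendsto (fun n : ℕ => Real.log (2 * ((n : ℝ) + 1)) / n) atTop (𝓝 0) := by
  have h1 : Tendsto (fun n : ℕ => Real.log ((n : ℝ) + 1) / ((n:ℝ) + 1)) atTop (𝓝 0) := by
    have h := Real.isLittleO_log_id_atTop.tendsto_div_nhds_zero
    have h2 : Tendsto (fun n : ℕ => (n : ℝ) + 1) atTop atTop :=
      tendsto_atTop_add_const_right _ _ tendsto_natCast_atTop_atTop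
    exact h.comp h2
  have h3 : Tendsto (fun n : ℕ => ((n:ℝ) + 1) / n) atTop (𝓝 1) := by
    have : Tendsto (fun n : ℕ => 1 + 1 / (n:ℝ)) atTop (𝓝 (1 + 0)) :=
      tendsto_const_nhds.add tendsto_one_div_atTop_nhds_zero_nat
    rw [add_zero] at this
    refine this.congr' ?_
    filter_upwards [eventually_gt_atTop 0] with n hn
    have : (0:ℝ) < n := by exact_mod_cast hn
    field_simp
  have h4 : Tendsto (fun n : ℕ => Real.log 2 / (n:ℝ)) atTop (𝓝 0) :=
    tendsto_const_div_atTop_nhds_zero_nat _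
  have h5 := h4.add (h1.mul h3)
  rw [zero_mul, add_zero] at h5
  refine h5.congr' ?_
  filter_upwards [eventually_gt_atTop 0] with n hn
  have : (0:ℝ) < n := by exact_mod_cast hn
  rw [Real.log_mul (by norm_num) (by positivity)]
  field_simp

/-- from the free energy to the excess free energy -/
lemma excess {lam h s f : ℝ} (hf : IsFreeEnergy μ η lam h s f) :
    ∀ᵐ ω ∂μ, Tendsto (fun n : ℕ => Real.log (softTot (Real.exp (-2 * h))
      (wt lam s (fun i => η i ω)) n) / n) atTop (𝓝 (f - h)) := by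
  filter_upwards [hf] with ω hω
  have h1 := hω.sub_const h
  refine h1.congr' ?_
  filter_upwards [eventually_gt_atTop 0] with n hn
  have hn' : (0:ℝ) < n := by exact_mod_cast hn
  rw [Zn_eq, Real.log_mul (Real.exp_pos _).ne' (soft_pos (Real.exp_pos _).le _ n).ne', Real.log_exp]
  field_simp
  ring

/-- the free energy is at least `h` -/
lemma excess_nonneg {lam h s f : ℝ} (hf : IsFreeEnergy μ η lam h s f) : h ≤ f := by
  obtain ⟨ω, hω⟩ := (excess hf).exists
  have h1 : Tendsto (fun n : ℕ => -(Real.log (2 * ((n : ℝ) + 1)) / n)) atTop (𝓝 (-0)) :=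
    tendsto_log_div.neg
  rw [neg_zero] at h1
  have h2 : (0:ℝ) ≤ f - h := by
    apply le_of_tendsto_of_tendsto h1 hω
    filter_upwards [eventually_gt_atTop 0] with n hn
    have hn' : (0:ℝ) < n := by exact_mod_cast hn
    have h3 := Real.log_le_log (by positivity)
      (soft_lower (q := Real.exp (-2 * h)) (lam := lam) (s := s) (Real.exp_pos _).le
        (fun i => η i ω) n)
    rw [Real.log_div (by norm_num) (by positivity), Real.log_one] at h3
    rw [← neg_div]
    apply div_le_div_of_nonneg_right _ hn'.le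
    linarith
  linarith

end Pool.Agent.Q287.PN
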