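import Pool.Agent.Q287.PN8

/-! Pinning at a selective interface: the main step. -/

namespace Pool.Agent.Q287.PN

open Finset Function MeasureTheory ProbabilityTheory Filter
open scoped ENNReal NNReal Topology

variable {Ω : Type*} [MeasurableSpace Ω] {μ : Measure Ω} [IsProbabilityMeasure μ]
  {η : ℕ → Ω → ℝ}

/-- weights at the interpolated parameter -/
lemma wt_interp {lamc lam' s e u0 M : ℝ} {d : ℝ} (hd : 0 < 1 + d) (hu0 : u0 = Real.log (1 + d))
    (x : ℕ → ℝ) (k : ℕ) :
    Real.exp ((1 - e) * u0 - e * M) * wt ((1 - e) * lamc + e * lam') s x k =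
      ((1 + d) * wt lamc s x k) ^ (1 - e) * (RR lam' s (fun _ => Real.exp (-M)) x k) ^ e := by
  unfold wt RR
  rw [← Real.exp_log hd, ← hu0, ← Real.exp_add, ← Real.exp_add, ← Real.exp_add, ← Real.exp_mul,
    ← Real.exp_mul, ← Real.exp_add]
  congr 1
  ring

lemma mean_bound (hmeas : ∀ i, Measurable (η i)) (hindep : iIndepFun η μ)
    (hident : ∀ i, IdentDistrib (η i) (η 0) μ μ) (hint : Integrable (η 0) μ)
    {lamc lam' s e M d q0 q1 : ℝ}
    (hd : 0 < d) (hd1 : d ≤ 1) (he : 0 < e) (he1 : e < 1) (hM : 0 ≤ M) (hq0 : 0 ≤ q0)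
    (hq01 : q0 ≤ 1) (hq1 : 0 ≤ q1) (hq11 : q1 ≤ 1)
    (hy : ∀ n : ℕ,
      ∫ ω, Real.log (tot (fun k => (1 + d) * wt lamc s (fun j => η j ω) k) (fun _ => 0) n) ∂μ ≤
      ∫ ω, Real.log (tot (wt lamc s (fun j => η j ω)) (fun _ => q0 ^ 2) n) ∂μ +
        3 * Real.log (1 + d))
    (hE : ∫⁻ ω, ENNReal.ofReal (Real.exp (-M) * Real.exp (lam' * (1 + s * η 0 ω))) ∂μ ≤ 1)
    (hq1u : 1 + q1 ^ 2 ≤ Real.exp ((1 - e) * Real.log (1 + d) - e * M)) (n : ℕ) :
    ∫ ω, Real.log (softTot q1 (wt ((1 - e) * lamc + e * lam') s (fun j => η j ω)) n) ∂μ ≤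
      Real.log 2 + (1 - e) * (∫ ω, Real.log (softTot q0 (wt lamc s (fun j => η j ω)) n) ∂μ +
        3 * Real.log (1 + d)) := by
  set lam := (1 - e) * lamc + e * lam' with hlam
  have hz : ∀ k : ℕ, (0:ℝ) ≤ (fun _ : ℕ => (0:ℝ)) k := fun _ => le_rfl
  have hw : ∀ (l : ℝ) ω k, 0 ≤ wt l s (fun j => η j ω) k := fun l ω k => (wt_pos l s _ k).le
  have hC : ∀ k : ℕ, 0 ≤ (fun _ : ℕ => Real.exp (-M)) k := fun _ => (Real.exp_pos _).le
  obtain ⟨hI3, hI3'⟩ := annealed_log hmeas hindep hident hint (s := s) hM hE n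
  have hI1 : Integrable (fun ω => Real.log
      (softTot q1 (wt lam s (fun j => η j ω)) n)) μ := by
    refine (int_maj hident hint lam s n).mono'
      (Real.measurable_log.comp (meas_soft hmeas lam s q1 n)).aestronglyMeasurable
      (Eventually.of_forall fun ω => ?_)
    rw [Real.norm_eq_abs]
    exact abs_log_soft_le hq1 hq11 _ n
  have hI0 : Integrable (fun ω => Real.log
      (softTot q0 (wt lamc s (fun j => η j ω)) n)) μ := by
    refine (int_maj hident hint lamc s n).mono'
      (Real.measurable_log.comp (meas_soft hmeas lamc s q0 n)).aestronglyMeasurable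
      (Eventually.of_forall fun ω => ?_)
    rw [Real.norm_eq_abs]
    exact abs_log_soft_le hq0 hq01 _ n
  have hI2 : Integrable (fun ω => Real.log
      (tot (fun k => (1 + d) * wt lamc s (fun j => η j ω) k) (fun _ => 0) n)) μ := by
    have h := int_log_RR hmeas hident hint lamc s (C := fun _ => 1 + d) (θ := fun _ => 0)
      (fun _ => by linarith) (fun _ => by linarith) hz n
    exact h
  have hI4 : Integrable (fun ω => Real.log
      (tot (wt lamc s (fun j => η j ω)) (fun _ => q0 ^ 2) n)) μ := by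
    have h := int_log_RR hmeas hident hint lamc s (C := fun _ => 1) (θ := fun _ => q0 ^ 2)
      (fun _ => le_rfl) (fun _ => by norm_num) (fun _ => by positivity) n
    simp only [← wt_eq_RR] at h
    exact h
  -- pointwise inequality
  have hpt : ∀ ω, Real.log (softTot q1 (wt lam s (fun j => η j ω)) n) ≤
      Real.log 2 + ((1 - e) * Real.log
        (tot (fun k => (1 + d) * wt lamc s (fun j => η j ω) k) (fun _ => 0) n) +
        e * Real.log (tot (RR lam' s (fun _ => Real.exp (-M)) (fun j => η j ω)) (fun _ => 0) n)) := by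
    intro ω
    have h1 := softTot_upper hq1 hq11 (hw lam ω) n
    have h2 : tot (fun k => (1 + q1 ^ 2) * wt lam s (fun j => η j ω) k) (fun _ => 0) n ≤
        tot (fun k => ((1 + d) * wt lamc s (fun j => η j ω) k) ^ (1 - e) *
          (RR lam' s (fun _ => Real.exp (-M)) (fun j => η j ω) k) ^ e) (fun _ => 0) n := by
      apply tot_mono (fun k => mul_nonneg (by positivity) (hw lam ω k)) hz _ (fun _ => le_rfl)
      intro k
      rw [← wt_interp (by linarith) rfl]
      exact mul_le_mul_of_nonneg_right hq1u (hw lam ω k)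
    have h3 := log_tot_holder he he1 (ρ := fun k => (1 + d) * wt lamc s (fun j => η j ω) k)
      (ρ' := RR lam' s (fun _ => Real.exp (-M)) (fun j => η j ω))
      (fun k => mul_nonneg (by linarith) (hw lamc ω k)) (fun k => RR_nonneg lam' s hC _ k) n
    have hp : 0 < tot (fun k => (1 + q1 ^ 2) * wt lam s (fun j => η j ω) k) (fun _ => 0) n :=
      tot_pos (fun k => mul_nonneg (by positivity) (hw lam ω k)) hz n
    have h4 := Real.log_le_log (soft_pos hq1 _ n) h1
    rw [Real.log_mul (by norm_num) hp.ne'] at h4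
    have h5 := Real.log_le_log hp h2
    linarith
  have h1 : ∫ ω, Real.log (softTot q1 (wt lam s (fun j => η j ω)) n) ∂μ ≤
      Real.log 2 + ((1 - e) * ∫ ω, Real.log
        (tot (fun k => (1 + d) * wt lamc s (fun j => η j ω) k) (fun _ => 0) n) ∂μ +
        e * ∫ ω, Real.log (tot (RR lam' s (fun _ => Real.exp (-M)) (fun j => η j ω))
          (fun _ => 0) n) ∂μ) := by
    have h2 := integral_mono hI1 ((integrable_const (Real.log 2)).add
      ((hI2.const_mul (1 - e)).add (hI3.const_mul e))) hpt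
    refine h2.trans (le_of_eq ?_)
    rw [integral_add' (integrable_const _) ((hI2.const_mul (1 - e)).add (hI3.const_mul e)),
      integral_add' (hI2.const_mul (1 - e)) (hI3.const_mul e), integral_const_mul,
      integral_const_mul]
    simp
  have h2 : ∫ ω, Real.log (tot (wt lamc s (fun j => η j ω)) (fun _ => q0 ^ 2) n) ∂μ ≤
      ∫ ω, Real.log (softTot q0 (wt lamc s (fun j => η j ω)) n) ∂μ := by
    apply integral_mono hI4 hI0
    intro ω
    exact Real.log_le_log (tot_pos (hw lamc ω) (fun _ => by positivity) n)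
      (softTot_lower hq0 (hw lamc ω) n)
  have h3 := hy n
  have h4 : e * ∫ ω, Real.log (tot (RR lam' s (fun _ => Real.exp (-M)) (fun j => η j ω))
      (fun _ => 0) n) ∂μ ≤ 0 := mul_nonpos_of_nonneg_of_nonpos he.le hI3'
  have h5 := mul_le_mul_of_nonneg_left (h3.trans (add_le_add_left h2 _))
    (by linarith : (0:ℝ) ≤ 1 - e)
  linarith

/-- the main step: delocalization at `lamc` for some `h0` gives delocalization beyond `lamc` -/
theorem core (hmeas : ∀ i, Measurable (η i)) (hindep : iIndepFun η μ)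
    (hident : ∀ i, IdentDistrib (η i) (η 0) μ μ) (hint : Integrable (η 0) μ)
    {lamc h0 s : ℝ} (hlamc : 0 ≤ lamc) (hh0 : 0 ≤ h0) (hs : 0 ≤ s)
    (hf0 : IsFreeEnergy μ η lamc h0 s h0)
    (hmom : ∃ lam', lamc < lam' ∧ Integrable (fun ω => Real.exp (lam' * s * η 0 ω)) μ) :
    ∃ lam, lamc < lam ∧ ∃ h1, 0 ≤ h1 ∧ ∀ f, IsFreeEnergy μ η lam h1 s f → f = h1 := by
  obtain ⟨lam', hlam', hmi⟩ := hmom
  set q0 := Real.exp (-2 * h0) with hq0
  have hq0p : 0 < q0 := Real.exp_pos _
  have hq01 : q0 ≤ 1 := by rw [hq0, Real.exp_le_one_iff]; linarith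
  obtain ⟨d, hd, hd1, hy⟩ := hybrid hmeas hindep hident hint hlamc hs
    (by positivity : 0 < q0 ^ 2)
  -- the moment
  set EE := ∫ ω, Real.exp (lam' * (1 + s * η 0 ω)) ∂μ with hEE
  have hmi' : Integrable (fun ω => Real.exp (lam' * (1 + s * η 0 ω))) μ := by
    have h := hmi.const_mul (Real.exp lam')
    refine h.congr (Eventually.of_forall fun ω => ?_)
    simp only
    rw [← Real.exp_add]
    congr 1
    ring
  have hEE0 : 0 ≤ EE := integral_nonneg fun ω => (Real.exp_pos _).le
  set M := Real.log (max 1 EE) with hM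
  have hM0 : 0 ≤ M := Real.log_nonneg (le_max_left _ _)
  have hMe : Real.exp (-M) * EE ≤ 1 := by
    have h1 : 0 < max 1 EE := lt_of_lt_of_le one_pos (le_max_left _ _)
    rw [hM, Real.exp_neg, Real.exp_log h1, inv_mul_le_iff₀ h1, mul_one]
    exact le_max_right _ _
  have hE : ∫⁻ ω, ENNReal.ofReal (Real.exp (-M) * Real.exp (lam' * (1 + s * η 0 ω))) ∂μ ≤ 1 := by
    rw [← ofReal_integral_eq_lintegral_ofReal (hmi'.const_mul _)
      (Eventually.of_forall fun ω => by positivity), integral_const_mul, ENNReal.ofReal_le_one]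
    exact hMe
  -- parameters
  set u0 := Real.log (1 + d) with hu0
  have hu0p : 0 < u0 := Real.log_pos (by linarith)
  set e := u0 / (2 * (u0 + M)) with he
  have he0 : 0 < e := by positivity
  have he2 : e * (u0 + M) = u0 / 2 := by rw [he]; field_simp
  have he1 : e < 1 := by
    by_contra hcon
    push Not at hcon
    nlinarith
  have hu1 : (1 - e) * u0 - e * M = u0 / 2 := by linarith
  set g := Real.exp (u0 / 2) - 1 with hg
  have hg0 : 0 < g := by
    rw [hg, sub_pos]
    exact Real.one_lt_exp_iff.2 (by linarith)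
  set h1 := max 0 (-(Real.log g) / 4) with hh1
  have hh1' : 0 ≤ h1 := le_max_left _ _
  set q1 := Real.exp (-2 * h1) with hq1
  have hq1p : 0 < q1 := Real.exp_pos _
  have hq11 : q1 ≤ 1 := by rw [hq1, Real.exp_le_one_iff]; linarith
  have hq1u : 1 + q1 ^ 2 ≤ Real.exp ((1 - e) * Real.log (1 + d) - e * M) := by
    rw [← hu0, hu1]
    have h2 : q1 ^ 2 ≤ g := by
      rw [hq1, ← Real.exp_nat_mul]
      have h3 : -(Real.log g) / 4 ≤ h1 := le_max_right _ _
      calc Real.exp (((2:ℕ):ℝ) * (-2 * h1)) ≤ Real.exp (Real.log g) := by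
            apply Real.exp_le_exp.2
            push_cast
            linarith
        _ = g := Real.exp_log hg0
    linarith
  set lam := (1 - e) * lamc + e * lam' with hlam
  refine ⟨lam, ?_, h1, hh1', ?_⟩
  · rw [hlam]
    nlinarith
  intro f hf
  apply le_antisymm _ (excess_nonneg hf)
  have hmb := mean_bound hmeas hindep hident hint hd hd1 he0 he1 hM0 hq0p.le hq01 hq1p.le
    hq11 hy hE hq1u
  -- Fatou
  set L := ∫ ω, (Real.log 2 + |lamc * (1 + s * η 1 ω)|) ∂μ with hL
  have hL0 : 0 ≤ L := integral_nonneg fun ω => by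
    have := Real.log_nonneg (by norm_num : (1:ℝ) ≤ 2)
    positivity
  set X : ℕ → Ω → ℝ := fun n ω => Real.log (softTot q0 (wt lamc s (fun j => η j ω)) n) with hX
  set X' : ℕ → Ω → ℝ := fun n ω => Real.log (softTot q1 (wt lam s (fun j => η j ω)) n) with hX'
  set Y : ℕ → Ω → ℝ := fun n ω => maj lamc s (fun j => η j ω) n with hY
  set V : ℕ → Ω → ℝ := fun n ω => (X' n ω + Real.log (2 * ((n : ℝ) + 1)) +
    (1 - e) * (Y n ω - X n ω)) / n with hV
  have hXm : ∀ n, Measurable (X n) := fun n =>
    Real.measurable_log.comp (meas_soft hmeas lamc s q0 n)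
  have hXm' : ∀ n, Measurable (X' n) := fun n =>
    Real.measurable_log.comp (meas_soft hmeas lam s q1 n)
  have hYm : ∀ n, Measurable (Y n) := by
    intro n
    simp only [hY, maj]
    apply Measurable.const_add
    apply Finset.measurable_sum
    intro j _
    exact (measurable_norm.comp ((((hmeas (j + 1)).const_mul s).const_add 1).const_mul
      lamc)).const_add _
  have hYi : ∀ n, Integrable (Y n) μ := fun n => int_maj hident hint lamc s n
  have hXi : ∀ n, Integrable (X n) μ := fun n => by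
    refine (hYi n).mono' (hXm n).aestronglyMeasurable (Eventually.of_forall fun ω => ?_)
    rw [Real.norm_eq_abs]
    exact abs_log_soft_le hq0p.le hq01 _ n
  have hXi' : ∀ n, Integrable (X' n) μ := fun n => by
    refine (int_maj hident hint lam s n).mono' (hXm' n).aestronglyMeasurable
      (Eventually.of_forall fun ω => ?_)
    rw [Real.norm_eq_abs]
    exact abs_log_soft_le hq1p.le hq11 _ n
  have hV0 : ∀ n ω, 0 ≤ V n ω := by
    intro n ω
    simp only [hV]
    apply div_nonneg _ (Nat.cast_nonneg n)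
    have a1 : 0 ≤ Y n ω - X n ω := by
      have := log_soft_le (lam := lamc) (s := s) hq0p.le hq01 (fun j => η j ω) n
      simp only [hY, hX]
      linarith
    have a2 : 0 ≤ X' n ω + Real.log (2 * ((n : ℝ) + 1)) := by
      have h3 := Real.log_le_log (by positivity)
        (soft_lower (q := q1) (lam := lam) (s := s) hq1p.le (fun i => η i ω) n)
      rw [Real.log_div (by norm_num) (by positivity), Real.log_one] at h3
      simp only [hX']
      linarith
    have a3 : 0 ≤ (1 - e) * (Y n ω - X n ω) := mul_nonneg (by linarith) a1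
    linarith
  have hVm : ∀ n, Measurable (V n) := fun n =>
    ((((hXm' n).add_const _).add (((hYm n).sub (hXm n)).const_mul _))).div_const _
  have hVi : ∀ n, Integrable (V n) μ := fun n =>
    ((((hXi' n).add (integrable_const _)).add (((hYi n).sub (hXi n)).const_mul _))).div_const _
  -- almost sure limit
  have hlim : ∀ᵐ ω ∂μ, Tendsto (fun n => V n ω) atTop (𝓝 ((f - h1) + (1 - e) * L)) := by
    filter_upwards [excess hf, excess hf0, slln hmeas hindep hident hint lamc s] with ω w1 w2 w3
    have w4 : Tendsto (fun n : ℕ => Y n ω / n) atTop (𝓝 L) := by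
      have h5 : Tendsto (fun n : ℕ => Real.log 2 / (n:ℝ)) atTop (𝓝 0) :=
        tendsto_const_div_atTop_nhds_zero_nat _
      have h6 := (h5.add tendsto_log_div).add w3
      rw [zero_add, zero_add] at h6
      refine h6.congr ?_
      intro n
      simp only [hY, maj]
      ring
    have w5 := (w1.add tendsto_log_div).add ((w4.sub w2).const_mul (1 - e))
    have e1 : f - h1 + 0 + (1 - e) * (L - (h0 - h0)) = (f - h1) + (1 - e) * L := by ring
    rw [e1] at w5
    refine w5.congr ?_
    intro n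
    simp only [hV, hX, hX']
    ring
  -- the means
  set c : ℕ → ℝ := fun n => (Real.log 2 + (1 - e) * (3 * u0)) / n +
    Real.log (2 * ((n : ℝ) + 1)) / n + (1 - e) * (Real.log 2 / n +
    Real.log (2 * ((n : ℝ) + 1)) / n + L) with hc
  have hmean : ∀ n : ℕ, 0 < n → ∫ ω, V n ω ∂μ ≤ c n := by
    intro n hn
    have hn' : (0:ℝ) < n := by exact_mod_cast hn
    have e1 : ∫ ω, V n ω ∂μ = (∫ ω, X' n ω ∂μ + Real.log (2 * ((n : ℝ) + 1)) +
        (1 - e) * (∫ ω, Y n ω ∂μ - ∫ ω, X n ω ∂μ)) / n := by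
      simp only [hV]
      rw [integral_div]
      congr 1
      have g1 : ∫ ω, (X' n ω + Real.log (2 * ((n : ℝ) + 1)) + (1 - e) * (Y n ω - X n ω)) ∂μ =
          ∫ ω, (X' n ω + Real.log (2 * ((n : ℝ) + 1))) ∂μ +
          ∫ ω, (1 - e) * (Y n ω - X n ω) ∂μ :=
        integral_add ((hXi' n).add (integrable_const _)) (((hYi n).sub (hXi n)).const_mul _)
      rw [g1, integral_add (hXi' n) (integrable_const _), integral_const_mul,
        integral_sub (hYi n) (hXi n)]
      simp
    rw [e1]
    have e2 : ∫ ω, Y n ω ∂μ = Real.log 2 + Real.log (2 * ((n : ℝ) + 1)) + n * L :=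
      integral_maj hmeas hident hint lamc s n
    have e3 := hmb n
    rw [e2]
    have e4 : ∫ ω, X' n ω ∂μ ≤ Real.log 2 + (1 - e) * (∫ ω, X n ω ∂μ + 3 * u0) := e3
    rw [div_le_iff₀ hn']
    simp only [hc]
    have e5 : ((Real.log 2 + (1 - e) * (3 * u0)) / n +
      Real.log (2 * ((n : ℝ) + 1)) / n + (1 - e) * (Real.log 2 / n +
      Real.log (2 * ((n : ℝ) + 1)) / n + L)) * n = (Real.log 2 + (1 - e) * (3 * u0)) +
      Real.log (2 * ((n : ℝ) + 1)) + (1 - e) * (Real.log 2 +
      Real.log (2 * ((n : ℝ) + 1)) + n * L) := by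
      field_simp
    rw [e5]
    linarith
  have hclim : Tendsto c atTop (𝓝 ((1 - e) * L)) := by
    have h5 : Tendsto (fun n : ℕ => (Real.log 2 + (1 - e) * (3 * u0)) / (n:ℝ)) atTop (𝓝 0) :=
      tendsto_const_div_atTop_nhds_zero_nat _
    have h6 : Tendsto (fun n : ℕ => Real.log 2 / (n:ℝ)) atTop (𝓝 0) :=
      tendsto_const_div_atTop_nhds_zero_nat _
    have h7 := (h5.add tendsto_log_div).add
      (((h6.add tendsto_log_div).add_const L).const_mul (1 - e))
    simpa using h7
  have hfatou : ENNReal.ofReal ((f - h1) + (1 - e) * L) ≤ ENNReal.ofReal ((1 - e) * L) := by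
    calc ENNReal.ofReal ((f - h1) + (1 - e) * L)
        = ∫⁻ _ω, ENNReal.ofReal ((f - h1) + (1 - e) * L) ∂μ := by simp
      _ = ∫⁻ ω, liminf (fun n => ENNReal.ofReal (V n ω)) atTop ∂μ := by
          apply lintegral_congr_ae
          filter_upwards [hlim] with ω hω
          exact ((ENNReal.continuous_ofReal.tendsto _).comp hω).liminf_eq.symm
      _ ≤ liminf (fun n => ∫⁻ ω, ENNReal.ofReal (V n ω) ∂μ) atTop :=
          lintegral_liminf_le fun n => ENNReal.measurable_ofReal.comp (hVm n)
      _ ≤ liminf (fun n => ENNReal.ofReal (c n)) atTop := by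
          refine liminf_le_liminf ?_
          filter_upwards [eventually_gt_atTop 0] with n hn
          rw [← ofReal_integral_eq_lintegral_ofReal (hVi n) (Eventually.of_forall (hV0 n))]
          exact ENNReal.ofReal_le_ofReal (hmean n hn)
      _ = ENNReal.ofReal ((1 - e) * L) :=
          ((ENNReal.continuous_ofReal.tendsto _).comp hclim).liminf_eq
  rw [ENNReal.ofReal_le_ofReal_iff (mul_nonneg (by linarith) hL0)] at hfatou
  linarith

end Pool.Agent.Q287.PN
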