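import Mathlib

/-! Quantile bounds in the convex transform order: definitions and basic facts. -/

namespace Pool.Agent.Q287.QB

open MeasureTheory ProbabilityTheory Set Filter Topology

/-- The fixed distribution `W`: absolutely continuous, carried by the interval `[a,d)` (with
`d = ⊤` allowed), with a distribution function strictly increasing on `[a,d)`. -/
structure IsBase (W : Measure ℝ) (a : ℝ) (d : EReal) : Prop where
  prob : IsProbabilityMeasure W
  ac : W ≪ volume
  lt : (a : EReal) < d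
  below : W (Iio a) = 0
  above : W {x : ℝ | d ≤ (x : EReal)} = 0
  mono : StrictMonoOn (cdf W) {x : ℝ | a ≤ x ∧ (x : EReal) < d}

/-- The quantile `F⁻¹(p) = inf {x : F(x) ≥ p}`. -/
noncomputable def quantile (F : Measure ℝ) (p : ℝ) : ℝ := sInf {x : ℝ | p ≤ cdf F x}

/-- The inverse `W⁻¹(q)` of the distribution function of `W` for `0 ≤ q < 1`; for `0 < q < 1` it is
the quantile, and `W⁻¹(0)` is the left endpoint `a`. -/
noncomputable def wInv (W : Measure ℝ) (a : ℝ) (q : ℝ) : ℝ := sInf {x : ℝ | a ≤ x ∧ q ≤ cdf W x}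

variable {W : Measure ℝ} {a : ℝ} {d : EReal}

lemma IsBase.noAtoms (h : IsBase W a d) (x : ℝ) : W {x} = 0 := h.ac (by simp)

lemma IsBase.continuous (h : IsBase W a d) : Continuous (cdf W) := by
  have := h.prob
  rw [continuous_iff_continuousAt]
  intro x
  rw [(monotone_cdf W).continuousAt_iff_leftLim_eq_rightLim]
  have h1 : (cdf W).measure {x} = 0 := by rw [measure_cdf]; exact h.noAtoms x
  rw [StieltjesFunction.measure_singleton, ENNReal.ofReal_eq_zero] at h1
  have h2 := (monotone_cdf W).leftLim_le (le_refl x)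
  rw [StieltjesFunction.rightLim_eq]
  linarith

lemma IsBase.cdf_left (h : IsBase W a d) {x : ℝ} (hx : x ≤ a) : cdf W x = 0 := by
  have := h.prob
  rw [cdf_eq_real, measureReal_def]
  have : W (Iic x) = 0 := by
    have h1 : Iic x ⊆ Iio a ∪ {a} := by
      intro y hy
      rcases lt_or_eq_of_le (le_trans (mem_Iic.1 hy) hx) with h2 | h2
      · exact Or.inl h2
      · exact Or.inr h2
    refine measure_mono_null h1 ?_
    rw [measure_union_null_iff]
    exact ⟨h.below, h.noAtoms a⟩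
  rw [this]; rfl

lemma IsBase.cdf_right (h : IsBase W a d) {x : ℝ} (hx : d ≤ (x : EReal)) : cdf W x = 1 := by
  have := h.prob
  rw [cdf_eq_real, measureReal_def]
  have h1 : W (Iic x)ᶜ = 0 := by
    refine measure_mono_null ?_ h.above
    intro y hy
    simp only [mem_compl_iff, mem_Iic, not_le] at hy
    exact le_trans hx (by exact_mod_cast hy.le)
  rw [prob_compl_eq_zero_iff measurableSet_Iic] at h1
  rw [h1]; rfl

lemma IsBase.lt_d (h : IsBase W a d) {x : ℝ} (hx : cdf W x < 1) : (x : EReal) < d := by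
  by_contra hcon
  rw [h.cdf_right (not_lt.1 hcon)] at hx
  exact lt_irrefl _ hx

lemma IsBase.cdf_lt_one (h : IsBase W a d) {x : ℝ} (hx : (x : EReal) < d) : cdf W x < 1 := by
  by_cases hax : a ≤ x
  · obtain ⟨y, hy1, hy2⟩ := EReal.lt_iff_exists_real_btwn.1 hx
    have hxy : x < y := by exact_mod_cast hy1
    have := h.mono ⟨hax, hx⟩ ⟨hax.trans hxy.le, hy2⟩ hxy
    exact lt_of_lt_of_le this (cdf_le_one _ _)
  · rw [h.cdf_left (not_le.1 hax).le]; norm_num

lemma IsBase.cdf_pos (h : IsBase W a d) {x : ℝ} (hx : a < x) : 0 < cdf W x := by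
  by_cases hd : (x : EReal) < d
  · have := h.mono ⟨le_refl a, h.lt⟩ ⟨hx.le, hd⟩ hx
    rwa [h.cdf_left le_rfl] at this
  · rw [h.cdf_right (not_lt.1 hd)]; norm_num

/-- the level set is nonempty -/
lemma wSet_nonempty (W : Measure ℝ) (a : ℝ) {q : ℝ} (hq : q < 1) :
    {x : ℝ | a ≤ x ∧ q ≤ cdf W x}.Nonempty := by
  have h1 := (tendsto_cdf_atTop W).eventually (lt_mem_nhds hq)
  obtain ⟨x, hx, hax⟩ := (h1.and (eventually_ge_atTop a)).exists
  exact ⟨x, hax, hx.le⟩

lemma wSet_bdd {q : ℝ} : BddBelow {x : ℝ | a ≤ x ∧ q ≤ cdf W x} := ⟨a, fun _ hx => hx.1⟩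

lemma wInv_mem (h : IsBase W a d) {q : ℝ} (hq : q < 1) :
    wInv W a q ∈ {x : ℝ | a ≤ x ∧ q ≤ cdf W x} := by
  have hclosed : IsClosed {x : ℝ | a ≤ x ∧ q ≤ cdf W x} :=
    (isClosed_le continuous_const continuous_id).inter
      (isClosed_le continuous_const h.continuous)
  exact hclosed.csInf_mem (wSet_nonempty W a hq) wSet_bdd

lemma le_wInv (h : IsBase W a d) {q : ℝ} (hq : q < 1) : a ≤ wInv W a q := (wInv_mem h hq).1

/-- Galois connection -/
lemma wInv_le_iff (h : IsBase W a d) {q y : ℝ} (hq : q < 1) (hy : a ≤ y) :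
    wInv W a q ≤ y ↔ q ≤ cdf W y := by
  constructor
  · intro h1
    exact (wInv_mem h hq).2.trans (monotone_cdf W h1)
  · intro h1
    exact csInf_le wSet_bdd ⟨hy, h1⟩

lemma cdf_wInv (h : IsBase W a d) {q : ℝ} (hq0 : 0 ≤ q) (hq : q < 1) : cdf W (wInv W a q) = q := by
  refine le_antisymm ?_ (wInv_mem h hq).2
  by_contra hcon
  push Not at hcon
  have ha := le_wInv h hq
  rcases eq_or_lt_of_le ha with h1 | h1
  · rw [← h1, h.cdf_left le_rfl] at hcon
    linarith
  · have hev : ∀ᶠ y in 𝓝[<] (wInv W a q), q < cdf W y :=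
      (h.continuous.continuousAt.tendsto.mono_left nhdsWithin_le_nhds).eventually
        (lt_mem_nhds hcon)
    have hev2 : ∀ᶠ y in 𝓝[<] (wInv W a q), a < y :=
      (eventually_gt_nhds h1).filter_mono nhdsWithin_le_nhds
    obtain ⟨y, ⟨hy1, hy2⟩, hy3⟩ := ((hev.and hev2).and self_mem_nhdsWithin).exists
    have : wInv W a q ≤ y := (wInv_le_iff h hq hy2.le).2 hy1.le
    exact absurd (lt_of_le_of_lt this hy3) (lt_irrefl _)

lemma wInv_lt_d (h : IsBase W a d) {q : ℝ} (hq0 : 0 ≤ q) (hq : q < 1) :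
    ((wInv W a q : ℝ) : EReal) < d := by
  apply h.lt_d
  rw [cdf_wInv h hq0 hq]
  exact hq

lemma wInv_cdf (h : IsBase W a d) {y : ℝ} (hy : a ≤ y) (hd : (y : EReal) < d) :
    wInv W a (cdf W y) = y := by
  have h1 := h.cdf_lt_one hd
  refine le_antisymm ((wInv_le_iff h h1 hy).2 le_rfl) ?_
  by_contra hcon
  push Not at hcon
  have h2 := h.mono ⟨le_wInv h h1, wInv_lt_d h (cdf_nonneg _ _) h1⟩ ⟨hy, hd⟩ hcon
  rw [cdf_wInv h (cdf_nonneg _ _) h1] at h2
  exact lt_irrefl _ h2

lemma wInv_mono (h : IsBase W a d) {q q' : ℝ} (hqq : q ≤ q') (hq' : q' < 1) :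
    wInv W a q ≤ wInv W a q' :=
  (wInv_le_iff h (lt_of_le_of_lt hqq hq') (le_wInv h hq')).2 (hqq.trans (wInv_mem h hq').2)

lemma wInv_strictMono (h : IsBase W a d) {q q' : ℝ} (hq0 : 0 ≤ q) (hqq : q < q') (hq' : q' < 1) :
    wInv W a q < wInv W a q' := by
  refine lt_of_le_of_ne (wInv_mono h hqq.le hq') ?_
  intro heq
  have h1 := cdf_wInv h hq0 (hqq.trans hq')
  rw [heq, cdf_wInv h (hq0.trans hqq.le) hq'] at h1
  exact absurd h1 hqq.ne'

lemma wInv_zero (h : IsBase W a d) : wInv W a 0 = a := by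
  refine le_antisymm ((wInv_le_iff h (by norm_num) le_rfl).2 (cdf_nonneg _ _)) 
    (le_wInv h (by norm_num))

lemma lt_wInv (h : IsBase W a d) {q : ℝ} (hq0 : 0 < q) (hq : q < 1) : a < wInv W a q := by
  have := wInv_strictMono h le_rfl hq0 hq
  rwa [wInv_zero h] at this

/-- for `0 < q < 1` the inverse is the quantile -/
lemma wInv_eq_quantile (h : IsBase W a d) {q : ℝ} (hq0 : 0 < q) : 
    wInv W a q = quantile W q := by
  unfold wInv quantile
  congr 1
  ext x
  simp only [mem_ofPred_eq]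
  refine ⟨fun h' => h'.2, fun h' => ⟨?_, h'⟩⟩
  by_contra hcon
  rw [h.cdf_left (not_le.1 hcon).le] at h'
  linarith

/-! ### Quantiles of probability measures with left endpoint zero -/

/-- `F` is a probability distribution with left endpoint `0` of its support and with finite, positive
second moment. -/
structure InClass (F : Measure ℝ) : Prop where
  prob : IsProbabilityMeasure F
  nonneg : F (Iio 0) = 0
  left : ∀ ε : ℝ, 0 < ε → 0 < F (Iio ε)
  int : Integrable (fun x => x ^ 2) F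
  pos : 0 < ∫ x, x ^ 2 ∂F

/-- The support interval of `F` (left endpoint `0`) without its right endpoint. -/
def suppInt (F : Measure ℝ) : Set ℝ := {x | 0 ≤ x ∧ cdf F x < 1}

/-- The function `W⁻¹ ∘ F`. -/
noncomputable def wInvF (W : Measure ℝ) (a : ℝ) (F : Measure ℝ) (x : ℝ) : ℝ := wInv W a (cdf F x)

/-- The class `C⁺`: `W⁻¹ ∘ F` is concave on the support interval of `F`.  (Concavity on the closed
support interval, where `W⁻¹ ∘ F` has the value `d_W` at the right endpoint, is concavity off the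
right endpoint together with the absence of an atom there; atoms in the interior are excluded by
concavity.) -/
structure CPlus (W : Measure ℝ) (a : ℝ) (F : Measure ℝ) : Prop extends InClass F where
  conc : ConcaveOn ℝ (suppInt F) (wInvF W a F)
  noAtom : ∀ x : ℝ, 0 < x → F {x} = 0

/-- The class `C⁻`: `W⁻¹ ∘ F` is convex on the support interval of `F`, and `F` has no atom at its
left endpoint `0`. -/
structure CMinus (W : Measure ℝ) (a : ℝ) (F : Measure ℝ) : Prop extends InClass F where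
  conv : ConvexOn ℝ (suppInt F) (wInvF W a F)
  noAtom : F {0} = 0

/-- The class `C⁻` with atoms at the left endpoint `0` allowed. -/
structure CMinusAtom (W : Measure ℝ) (a : ℝ) (F : Measure ℝ) : Prop extends InClass F where
  conv : ConvexOn ℝ (suppInt F) (wInvF W a F)

/-- The ratio `F⁻¹(p) / m_F`. -/
noncomputable def ratio (p : ℝ) (F : Measure ℝ) : ℝ := quantile F p / √(∫ x, x ^ 2 ∂F)

section
variable {F : Measure ℝ}

lemma InClass.cdf_neg (hF : InClass F) {x : ℝ} (hx : x < 0) : cdf F x = 0 := by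
  have := hF.prob
  rw [cdf_eq_real, measureReal_def]
  have : F (Iic x) = 0 := measure_mono_null (fun y hy => lt_of_le_of_lt (mem_Iic.1 hy) hx) hF.nonneg
  rw [this]; rfl

lemma qSet_nonempty (F : Measure ℝ) {p : ℝ} (hp : p < 1) : {x : ℝ | p ≤ cdf F x}.Nonempty := by
  have h1 := (tendsto_cdf_atTop F).eventually (lt_mem_nhds hp)
  obtain ⟨x, hx⟩ := h1.exists
  exact ⟨x, hx.le⟩

lemma qSet_bdd (F : Measure ℝ) {p : ℝ} (hp : 0 < p) : BddBelow {x : ℝ | p ≤ cdf F x} := by
  have h1 := (tendsto_cdf_atBot F).eventually (gt_mem_nhds hp)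
  obtain ⟨b, hb⟩ := h1.exists
  refine ⟨b, fun x hx => ?_⟩
  by_contra hcon
  push Not at hcon
  have := monotone_cdf F hcon.le
  have hx' : p ≤ cdf F x := hx
  linarith

lemma le_cdf_quantile (F : Measure ℝ) {p : ℝ} (hp : p < 1) :
    p ≤ cdf F (quantile F p) := by
  -- right continuity
  have hrc : Tendsto (cdf F) (𝓝[>] (quantile F p)) (𝓝 (cdf F (quantile F p))) :=
    ((cdf F).right_continuous (quantile F p)).mono_left (nhdsWithin_mono _ Ioi_subset_Ici_self)
  refine ge_of_tendsto hrc ?_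
  filter_upwards [self_mem_nhdsWithin] with y hy
  obtain ⟨x, hx, hxy⟩ := exists_lt_of_csInf_lt (qSet_nonempty F hp) (mem_Ioi.1 hy)
  exact le_trans hx (monotone_cdf F hxy.le)

lemma cdf_lt_of_lt_quantile (F : Measure ℝ) {p x : ℝ} (hp0 : 0 < p) (hx : x < quantile F p) :
    cdf F x < p := by
  by_contra hcon
  push Not at hcon
  exact absurd (csInf_le (qSet_bdd F hp0) hcon) (not_le.2 hx)

lemma InClass.quantile_nonneg (hF : InClass F) {p : ℝ} (hp0 : 0 < p) (hp : p < 1) :
    0 ≤ quantile F p := by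
  apply le_csInf (qSet_nonempty F hp)
  intro x hx
  by_contra hcon
  push Not at hcon
  rw [mem_ofPred_eq, hF.cdf_neg hcon] at hx
  linarith

lemma measure_Ioi (F : Measure ℝ) [IsProbabilityMeasure F] (x : ℝ) :
    F (Ioi x) = ENNReal.ofReal (1 - cdf F x) := by
  rw [← compl_Iic, prob_compl_eq_one_sub measurableSet_Iic, ENNReal.ofReal_sub _ (cdf_nonneg _ _),
    ofReal_cdf, ENNReal.ofReal_one]

/-- comparison of second moments by stochastic domination -/
lemma lintegral_sq_mono {α β : Type*} [MeasurableSpace α] [MeasurableSpace β] {μ : Measure α}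
    {ν : Measure β} {f : α → ℝ} {g : β → ℝ} (hf : Measurable f) (hg : Measurable g)
    (hf0 : ∀ᵐ x ∂μ, 0 ≤ f x) (hg0 : ∀ᵐ x ∂ν, 0 ≤ g x) (h : ∀ t : ℝ, 0 < t → μ {x | t < f x} ≤ ν {x | t < g x}) :
    ∫⁻ x, ENNReal.ofReal (f x ^ 2) ∂μ ≤ ∫⁻ x, ENNReal.ofReal (g x ^ 2) ∂ν := by
  have e1 := lintegral_rpow_eq_lintegral_meas_lt_mul μ hf0 hf.aemeasurable
    (p := 2) (by norm_num)
  have e2 := lintegral_rpow_eq_lintegral_meas_lt_mul ν hg0 hg.aemeasurable
    (p := 2) (by norm_num)
  simp only [Real.rpow_two] at e1 e2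
  rw [e1, e2]
  gcongr 1
  apply setLIntegral_mono' measurableSet_Ioi
  intro t ht
  gcongr
  exact h t ht

end

end Pool.Agent.Q287.QB
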