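import Pool.Agent.Q287.QB1

/-! Quantile bounds in the convex transform order: the inequalities. -/

namespace Pool.Agent.Q287.QB

open MeasureTheory ProbabilityTheory Set Filter Topology

variable {W F : Measure ℝ} {a : ℝ} {d : EReal}

lemma base_ae_ge (h : IsBase W a d) : ∀ᵐ y ∂W, a ≤ y := by
  rw [ae_iff]
  simpa [Iio] using h.below

lemma InClass.ae_nonneg (hF : InClass F) : ∀ᵐ y ∂F, 0 ≤ y := by
  rw [ae_iff]
  simpa [Iio] using hF.nonneg

lemma InClass.lintegral_eq (hF : InClass F) :
    ∫⁻ x, ENNReal.ofReal (x ^ 2) ∂F = ENNReal.ofReal (∫ x, x ^ 2 ∂F) :=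
  (ofReal_integral_eq_lintegral_ofReal hF.int (ae_of_all _ fun x => sq_nonneg x)).symm

/-- converting an inequality between lower integrals -/
lemma integral_le_of_lintegral_le (hF : InClass F) {g : ℝ → ℝ} (hg : Measurable g)
    (h : ∫⁻ y, ENNReal.ofReal (g y ^ 2) ∂W ≤ ∫⁻ x, ENNReal.ofReal (x ^ 2) ∂F) :
    Integrable (fun y => g y ^ 2) W ∧ ∫ y, g y ^ 2 ∂W ≤ ∫ x, x ^ 2 ∂F := by
  rw [hF.lintegral_eq] at h
  have hi : Integrable (fun y => g y ^ 2) W := by
    refine ⟨(hg.pow_const 2).aestronglyMeasurable, ?_⟩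
    rw [hasFiniteIntegral_iff_ofReal (ae_of_all _ fun x => sq_nonneg _)]
    exact lt_of_le_of_lt h ENNReal.ofReal_lt_top
  refine ⟨hi, ?_⟩
  rw [← ofReal_integral_eq_lintegral_ofReal hi (ae_of_all _ fun x => sq_nonneg _)] at h
  exact (ENNReal.ofReal_le_ofReal_iff hF.pos.le).1 h

/-- converting an inequality between lower integrals, the other direction -/
lemma integral_le_of_lintegral_le' (hF : InClass F) {g : ℝ → ℝ}
    (hi : Integrable (fun y => g y ^ 2) W)
    (h : ∫⁻ x, ENNReal.ofReal (x ^ 2) ∂F ≤ ∫⁻ y, ENNReal.ofReal (g y ^ 2) ∂W) :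
    ∫ x, x ^ 2 ∂F ≤ ∫ y, g y ^ 2 ∂W := by
  rw [hF.lintegral_eq,
    ← ofReal_integral_eq_lintegral_ofReal hi (ae_of_all _ fun x => sq_nonneg _)] at h
  exact (ENNReal.ofReal_le_ofReal_iff (integral_nonneg fun x => sq_nonneg _)).1 h

/-! ### The class `C⁺` -/

lemma CPlus.cdf_quantile (hF : CPlus W a F) {p : ℝ} (hp0 : 0 < p) (hp : p < 1)
    (hx : 0 < quantile F p) : cdf F (quantile F p) = p := by
  have := hF.prob
  refine le_antisymm ?_ (le_cdf_quantile F hp)
  have h1 : (cdf F).measure {quantile F p} = 0 := by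
    rw [measure_cdf]; exact hF.noAtom _ hx
  rw [StieltjesFunction.measure_singleton, ENNReal.ofReal_eq_zero] at h1
  have h2 : Function.leftLim (cdf F) (quantile F p) ≤ p := by
    have h3 := (monotone_cdf F).tendsto_leftLim (quantile F p)
    refine le_of_tendsto h3 ?_
    filter_upwards [self_mem_nhdsWithin] with y hy
    exact (cdf_lt_of_lt_quantile F hp0 hy).le
  linarith

lemma mem_suppInt_zero {x : ℝ} (hx : x ∈ suppInt F) : (0 : ℝ) ∈ suppInt F :=
  ⟨le_rfl, lt_of_le_of_lt (monotone_cdf F hx.1) hx.2⟩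

lemma quantile_mono (F : Measure ℝ) {p q : ℝ} (hp0 : 0 < p) (hpq : p ≤ q) (hq : q < 1) :
    quantile F p ≤ quantile F q :=
  csInf_le_csInf (qSet_bdd F hp0) (qSet_nonempty F hq) (fun _ hx => le_trans hpq hx)

lemma exists_gt_suppInt {x : ℝ} (hx : x ∈ suppInt F) : ∃ z ∈ suppInt F, x < z := by
  have hrc : Tendsto (cdf F) (𝓝[>] x) (𝓝 (cdf F x)) :=
    ((cdf F).right_continuous x).mono_left (nhdsWithin_mono _ Ioi_subset_Ici_self)
  have h1 := hrc.eventually (gt_mem_nhds hx.2)
  obtain ⟨z, hz1, hz2⟩ := (h1.and self_mem_nhdsWithin).exists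
  exact ⟨z, ⟨hx.1.trans (le_of_lt hz2), hz1⟩, hz2⟩

theorem plus_key (h : IsBase W a d) (hF : CPlus W a F) {p : ℝ} (hp0 : 0 < p) (hp : p < 1)
    (hx : 0 < quantile F p) :
    ∃ t, a ≤ t ∧ t < wInv W a p ∧ Integrable (fun y => (max (y - t) 0) ^ 2) W ∧
      quantile F p ^ 2 * ∫ y, (max (y - t) 0) ^ 2 ∂W ≤
        (wInv W a p - t) ^ 2 * ∫ x, x ^ 2 ∂F := by
  have hWp := h.prob
  have hFp := hF.prob
  set xp := quantile F p with hxp
  set yp := wInv W a p with hyp
  have hcp : cdf F xp = p := hF.cdf_quantile hp0 hp hx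
  have hxpD : xp ∈ suppInt F := ⟨hx.le, by rw [hcp]; exact hp⟩
  have h0D : (0 : ℝ) ∈ suppInt F := mem_suppInt_zero hxpD
  have hGxp : wInvF W a F xp = yp := by unfold wInvF; rw [hcp]
  -- the slopes to the right
  set S : Set ℝ := {r | ∃ z ∈ suppInt F, xp < z ∧ r = (wInvF W a F z - yp) / (z - xp)} with hS
  have hub : ∀ u ∈ suppInt F, u < xp → ∀ r ∈ S, r ≤ (yp - wInvF W a F u) / (xp - u) := by
    rintro u hu huxp r ⟨z, hz, hz2, rfl⟩
    have := hF.conc.slope_anti_adjacent hu hz huxp hz2
    rwa [hGxp] at this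
  have hSne : S.Nonempty := by
    obtain ⟨z, hz, hz2⟩ := exists_gt_suppInt hxpD
    exact ⟨_, z, hz, hz2, rfl⟩
  have hSbdd : BddAbove S := ⟨_, fun r hr => hub 0 h0D hx r hr⟩
  set s := sSup S with hs
  have hright : ∀ z ∈ suppInt F, xp < z → wInvF W a F z ≤ yp + s * (z - xp) := by
    intro z hz hz2
    have h1 : (wInvF W a F z - yp) / (z - xp) ≤ s := le_csSup hSbdd ⟨z, hz, hz2, rfl⟩
    rw [div_le_iff₀ (by linarith)] at h1
    linarith
  have hleft : ∀ u ∈ suppInt F, u < xp → wInvF W a F u ≤ yp + s * (u - xp) := by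
    intro u hu hu2
    have h1 : s ≤ (yp - wInvF W a F u) / (xp - u) := csSup_le hSne (hub u hu hu2)
    rw [le_div_iff₀ (by linarith)] at h1
    linarith
  -- a point with a larger value
  have hq : ∀ q, p < q → q < 1 → quantile F q ∈ suppInt F ∧ cdf F (quantile F q) = q ∧
      xp ≤ quantile F q := by
    intro q hpq hq1
    have h1 : xp ≤ quantile F q := quantile_mono F hp0 hpq.le hq1
    have h2 := hF.cdf_quantile (hp0.trans hpq) hq1 (lt_of_lt_of_le hx h1)
    exact ⟨⟨(hx.le.trans h1), by rw [h2]; exact hq1⟩, h2, h1⟩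
  have hspos : 0 < s := by
    obtain ⟨h1, h2, h3⟩ := hq ((1 + p) / 2) (by linarith) (by linarith)
    have h4 : xp < quantile F ((1 + p) / 2) := by
      rcases eq_or_lt_of_le h3 with h5 | h5
      · rw [← h5, hcp] at h2; linarith
      · exact h5
    have h5 := hright _ h1 h4
    have h6 : yp < wInvF W a F (quantile F ((1 + p) / 2)) := by
      unfold wInvF
      rw [h2]
      exact wInv_strictMono h hp0.le (by linarith) (by linarith)
    have h7 : 0 < s * (quantile F ((1 + p) / 2) - xp) := by linarith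
    exact pos_of_mul_pos_left h7 (by linarith)
  have hline : ∀ z ∈ suppInt F, wInvF W a F z ≤ yp + s * (z - xp) := by
    intro z hz
    rcases lt_trichotomy z xp with h1 | h1 | h1
    · exact hleft z hz h1
    · rw [h1, hGxp]; simp
    · exact hright z hz h1
  have hD : ∀ z ∈ suppInt F, cdf F z ≤ cdf W (yp + s * (z - xp)) := by
    intro z hz
    have h1 := monotone_cdf W (hline z hz)
    unfold wInvF at h1
    rwa [cdf_wInv h (cdf_nonneg _ _) hz.2] at h1
  have hall : ∀ x, 0 ≤ x → cdf F x ≤ cdf W (yp + s * (x - xp)) := by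
    intro x hx0
    by_cases hxD : cdf F x < 1
    · exact hD x ⟨hx0, hxD⟩
    · have hx1 : cdf F x = 1 := le_antisymm (cdf_le_one _ _) (not_lt.1 hxD)
      rw [hx1]
      refine le_of_forall_lt fun q hq1 => ?_
      obtain ⟨q', hq'1, hq'2⟩ := exists_between (max_lt hq1 hp)
      obtain ⟨h1, h2, h3⟩ := hq q' (lt_of_le_of_lt (le_max_right _ _) hq'1) hq'2
      have h4 : quantile F q' ≤ x := by
        apply csInf_le (qSet_bdd F (hp0.trans (lt_of_le_of_lt (le_max_right _ _) hq'1)))
        change q' ≤ cdf F x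
        rw [hx1]; exact hq'2.le
      have h5 := hD _ h1
      rw [h2] at h5
      have h6 : yp + s * (quantile F q' - xp) ≤ yp + s * (x - xp) := by
        have := mul_le_mul_of_nonneg_left h4 hspos.le
        linarith
      have h7 := monotone_cdf W h6
      have h8 : q < q' := lt_of_le_of_lt (le_max_left _ _) hq'1
      linarith
  -- the second moments
  have hcomp : ∫⁻ y, ENNReal.ofReal ((max (xp + (y - yp) / s) 0) ^ 2) ∂W ≤
      ∫⁻ x, ENNReal.ofReal (x ^ 2) ∂F := by
    apply lintegral_sq_mono (by fun_prop) measurable_id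
      (ae_of_all _ fun x => le_max_right _ _) hF.ae_nonneg
    intro t ht
    have e1 : {y | t < max (xp + (y - yp) / s) 0} = Ioi (yp + s * (t - xp)) := by
      ext y
      simp only [mem_ofPred_eq, lt_max_iff, mem_Ioi]
      constructor
      · rintro (h1 | h1)
        · have h2 : t - xp < (y - yp) / s := by linarith
          rw [lt_div_iff₀ hspos] at h2
          linarith
        · linarith
      · intro h1
        left
        have h2 : t - xp < (y - yp) / s := by
          rw [lt_div_iff₀ hspos]; linarith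
        linarith
    have e2 : {x : ℝ | t < x} = Ioi t := rfl
    rw [e1]
    change W (Ioi (yp + s * (t - xp))) ≤ F (Ioi t)
    rw [measure_Ioi, measure_Ioi]
    apply ENNReal.ofReal_le_ofReal
    have := hall t ht.le
    linarith
  obtain ⟨hi, hle⟩ := integral_le_of_lintegral_le hF.toInClass (by fun_prop) hcomp
  have hfun : (fun y => (max (xp + (y - yp) / s) 0) ^ 2) =
      fun y => (1 / s ^ 2) * (max (y - (yp - s * xp)) 0) ^ 2 := by
    funext y
    have e3 : xp + (y - yp) / s = (1 / s) * (y - (yp - s * xp)) := by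
      field_simp; ring
    have e4 : max (xp + (y - yp) / s) 0 = (1 / s) * max (y - (yp - s * xp)) 0 := by
      rw [e3, mul_max_of_nonneg _ _ (by positivity), mul_zero]
    rw [e4]; ring
  refine ⟨yp - s * xp, ?_, ?_, ?_, ?_⟩
  · have h1 := hline 0 h0D
    have h2 : a ≤ wInvF W a F 0 := le_wInv h h0D.2
    linarith
  · have := mul_pos hspos hx
    linarith
  · rw [hfun] at hi
    have := hi.const_mul (s ^ 2)
    refine this.congr (ae_of_all _ fun y => ?_)
    simp only
    field_simp
  · simp only [hfun] at hle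
    rw [integral_const_mul] at hle
    have e5 : yp - (yp - s * xp) = s * xp := by ring
    rw [e5]
    have h1 : ∫ y, (max (y - (yp - s * xp)) 0) ^ 2 ∂W ≤ s ^ 2 * ∫ x, x ^ 2 ∂F := by
      have h2 := mul_le_mul_of_nonneg_left hle (by positivity : (0:ℝ) ≤ s ^ 2)
      have h3 : s ^ 2 * (1 / s ^ 2 * ∫ y, (max (y - (yp - s * xp)) 0) ^ 2 ∂W) =
          ∫ y, (max (y - (yp - s * xp)) 0) ^ 2 ∂W := by
        field_simp
      rw [h3] at h2
      exact h2
    calc xp ^ 2 * ∫ y, (max (y - (yp - s * xp)) 0) ^ 2 ∂W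
        ≤ xp ^ 2 * (s ^ 2 * ∫ x, x ^ 2 ∂F) := mul_le_mul_of_nonneg_left h1 (by positivity)
      _ = (s * xp) ^ 2 * ∫ x, x ^ 2 ∂F := by ring

/-- a level at which the quantile is positive -/
lemma InClass.exists_quantile_pos (hF : InClass F) :
    ∃ p, 0 < p ∧ p < 1 ∧ 0 < quantile F p := by
  have hFp := hF.prob
  have h1 : cdf F 0 < 1 := by
    by_contra hcon
    have h2 : cdf F 0 = 1 := le_antisymm (cdf_le_one _ _) (not_lt.1 hcon)
    have h3 : F (Ioi 0) = 0 := by rw [measure_Ioi, h2]; simp
    have h4 : ∀ᵐ x ∂F, x ^ 2 = 0 := by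
      have h5 : ∀ᵐ x ∂F, ¬ (0 < x) := by
        rw [ae_iff]; simpa [Ioi] using h3
      filter_upwards [hF.ae_nonneg, h5] with x hx1 hx2
      have : x = 0 := le_antisymm (not_lt.1 hx2) hx1
      rw [this]; norm_num
    have h6 : ∫ x, x ^ 2 ∂F = 0 := by
      rw [integral_congr_ae h4]; simp
    have := hF.pos
    linarith
  obtain ⟨p, hp1, hp2⟩ := exists_between h1
  have hp0 : 0 < p := lt_of_le_of_lt (cdf_nonneg _ _) hp1
  refine ⟨p, hp0, hp2, ?_⟩
  by_contra hcon
  have h2 := monotone_cdf F (not_lt.1 hcon)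
  have h3 := le_cdf_quantile F hp2
  linarith

/-- If `W` has infinite second moment, the class `C⁺` is empty. -/
theorem plus_integrable (h : IsBase W a d) (hF : CPlus W a F) : Integrable (fun y => y ^ 2) W := by
  have hWp := h.prob
  obtain ⟨p, hp0, hp, hx⟩ := hF.toInClass.exists_quantile_pos
  obtain ⟨t, -, -, hi, -⟩ := plus_key h hF hp0 hp hx
  have h1 : Integrable (fun y => 2 * (max (y - t) 0) ^ 2 + (2 * t ^ 2 + a ^ 2)) W :=
    (hi.const_mul 2).add (integrable_const _)
  refine h1.mono' (by fun_prop) ?_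
  filter_upwards [base_ae_ge h] with y hy
  rw [Real.norm_eq_abs, abs_of_nonneg (sq_nonneg y)]
  rcases le_total t y with h2 | h2
  · rw [max_eq_left (by linarith)]
    nlinarith [sq_nonneg (y - 2 * t), sq_nonneg a]
  · rw [max_eq_right (by linarith)]
    have h3 : y ^ 2 ≤ t ^ 2 + a ^ 2 := by
      rcases le_total 0 y with h4 | h4
      · nlinarith [sq_nonneg a]
      · nlinarith [sq_nonneg t]
    nlinarith [sq_nonneg t]

/-! ### The class `C⁻` -/

lemma CMinus.cdf_zero (hF : CMinus W a F) : cdf F 0 = 0 := by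
  have := hF.prob
  rw [cdf_eq_real, measureReal_def]
  have : F (Iic 0) = 0 := by
    have h1 : (Iic 0 : Set ℝ) ⊆ Iio 0 ∪ {0} := by
      intro y hy
      rcases lt_or_eq_of_le (mem_Iic.1 hy) with h2 | h2
      · exact Or.inl h2
      · exact Or.inr h2
    refine measure_mono_null h1 ?_
    rw [measure_union_null_iff]
    exact ⟨hF.nonneg, hF.noAtom⟩
  rw [this]; rfl

lemma CMinus.quantile_pos (hF : CMinus W a F) {p : ℝ} (hp0 : 0 < p) (hp : p < 1) :
    0 < quantile F p := by
  by_contra hcon
  have h2 := monotone_cdf F (not_lt.1 hcon)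
  have h3 := le_cdf_quantile F hp
  rw [hF.cdf_zero] at h2
  linarith

/-- The function `min ((y - a)/(y_p - a)) 1`. -/
noncomputable def trunc (a yp y : ℝ) : ℝ := min ((y - a) / (yp - a)) 1

lemma measurable_trunc (a yp : ℝ) : Measurable (trunc a yp) := by unfold trunc; fun_prop

theorem minus_upper (h : IsBase W a d) (hF : CMinus W a F) {p : ℝ} (hp0 : 0 < p) (hp : p < 1) :
    quantile F p ^ 2 * ∫ y, (trunc a (wInv W a p) y) ^ 2 ∂W ≤ ∫ x, x ^ 2 ∂F := by
  have hWp := h.prob
  have hFp := hF.prob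
  have hx := hF.quantile_pos hp0 hp
  have hay := lt_wInv h hp0 hp
  set xp := quantile F p with hxp
  set yp := wInv W a p with hyp
  have hchord : ∀ t, 0 < t → t < xp → wInvF W a F t ≤ a + (yp - a) * t / xp := by
    intro t ht htx
    have h1 : ∀ z, t < z → z < xp → (wInvF W a F t - a) * z ≤ (yp - a) * t := by
      intro z htz hzx
      have hz1 : cdf F z < p := cdf_lt_of_lt_quantile F hp0 hzx
      have hzD : z ∈ suppInt F := ⟨(ht.trans htz).le, hz1.trans hp⟩
      have h0D : (0 : ℝ) ∈ suppInt F := mem_suppInt_zero hzD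
      have hG0 : wInvF W a F 0 = a := by unfold wInvF; rw [hF.cdf_zero, wInv_zero h]
      have hGz : wInvF W a F z ≤ yp := wInv_mono h hz1.le hp
      have := hF.conv.slope_mono_adjacent h0D hzD ht htz
      rw [hG0, sub_zero] at this
      rw [div_le_div_iff₀ ht (by linarith)] at this
      nlinarith
    have h2 : (wInvF W a F t - a) * xp ≤ (yp - a) * t := by
      have h3 : Tendsto (fun z => (wInvF W a F t - a) * z) (𝓝[<] xp)
          (𝓝 ((wInvF W a F t - a) * xp)) :=
        (tendsto_id.const_mul _).mono_left nhdsWithin_le_nhds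
      refine le_of_tendsto h3 ?_
      have h4 : ∀ᶠ z in 𝓝[<] xp, t < z := (eventually_gt_nhds htx).filter_mono nhdsWithin_le_nhds
      filter_upwards [h4, self_mem_nhdsWithin] with z hz1 hz2
      exact h1 z hz1 hz2
    have h5 : wInvF W a F t - a ≤ (yp - a) * t / xp := by
      rw [le_div_iff₀ hx]; exact h2
    linarith
  have hcomp : ∫⁻ y, ENNReal.ofReal ((xp * trunc a yp y) ^ 2) ∂W ≤
      ∫⁻ x, ENNReal.ofReal (x ^ 2) ∂F := by
    apply lintegral_sq_mono ((measurable_trunc a yp).const_mul xp) measurable_id _ hF.ae_nonneg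
    · intro t ht
      rcases lt_or_ge t xp with h1 | h1
      · have hsub : {y | t < xp * trunc a yp y} ⊆ Ioi (a + (yp - a) * t / xp) := by
          intro y hy
          have h2 : t < xp * ((y - a) / (yp - a)) := by
            refine lt_of_lt_of_le hy ?_
            exact mul_le_mul_of_nonneg_left (min_le_left _ _) hx.le
          rw [mem_Ioi]
          have h3 : (yp - a) * t / xp < y - a := by
            rw [div_lt_iff₀ hx]
            have h4 : t * (yp - a) < xp * (y - a) := by
              rw [← mul_div_assoc, lt_div_iff₀ (by linarith)] at h2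
              exact h2
            linarith
          linarith
        refine (measure_mono hsub).trans ?_
        change W (Ioi (a + (yp - a) * t / xp)) ≤ F (Ioi t)
        rw [measure_Ioi, measure_Ioi]
        apply ENNReal.ofReal_le_ofReal
        have hcl : cdf F t < 1 := (cdf_lt_of_lt_quantile F hp0 h1).trans hp
        have h2 := monotone_cdf W (hchord t ht h1)
        unfold wInvF at h2
        rw [cdf_wInv h (cdf_nonneg _ _) hcl] at h2
        linarith
      · have hemp : {y | t < xp * trunc a yp y} = ∅ := by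
          ext y
          simp only [mem_ofPred_eq, mem_empty_iff_false, iff_false, not_lt]
          calc xp * trunc a yp y ≤ xp * 1 := mul_le_mul_of_nonneg_left (min_le_right _ _) hx.le
            _ ≤ t := by linarith
        rw [hemp]; simp
    · filter_upwards [base_ae_ge h] with y hy
      apply mul_nonneg hx.le
      unfold trunc
      exact le_min (div_nonneg (by linarith) (by linarith)) zero_le_one
  obtain ⟨hi, hle⟩ := integral_le_of_lintegral_le hF.toInClass
    ((measurable_trunc a yp).const_mul xp) hcomp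
  have e : ∫ y, (xp * trunc a yp y) ^ 2 ∂W = xp ^ 2 * ∫ y, (trunc a yp y) ^ 2 ∂W := by
    rw [← integral_const_mul]
    congr 1
    funext y
    ring
  rw [e] at hle
  exact hle

theorem minus_lower (h : IsBase W a d) (hF : CMinus W a F) {p : ℝ} (hp0 : 0 < p) (hp : p < 1)
    (hint : Integrable (fun y => y ^ 2) W) :
    ∫ x, x ^ 2 ∂F ≤ quantile F p ^ 2 *
      max 1 ((∫ y, (y - a) ^ 2 ∂W) / (wInv W a p - a) ^ 2) := by
  have hWp := h.prob
  have hFp := hF.prob
  have hx := hF.quantile_pos hp0 hp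
  have hay := lt_wInv h hp0 hp
  set xp := quantile F p with hxp
  set yp := wInv W a p with hyp
  by_cases hxD : cdf F xp < 1
  · have hxpD : xp ∈ suppInt F := ⟨hx.le, hxD⟩
    have h0D : (0 : ℝ) ∈ suppInt F := mem_suppInt_zero hxpD
    have hG0 : wInvF W a F 0 = a := by unfold wInvF; rw [hF.cdf_zero, wInv_zero h]
    obtain ⟨z0, hz0, hxz0⟩ := exists_gt_suppInt hxpD
    have hGxp : wInvF W a F xp = yp := by
      refine le_antisymm ?_ (wInv_mono h (le_cdf_quantile F hp) hxD)
      -- convexity
      have h1 : ∀ u, 0 < u → u < xp → (wInvF W a F xp - yp) * (z0 - xp) ≤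
          (wInvF W a F z0 - wInvF W a F xp) * (xp - u) := by
        intro u hu hux
        have huD : u ∈ suppInt F := ⟨hu.le, (cdf_lt_of_lt_quantile F hp0 hux).trans hp⟩
        have hGu : wInvF W a F u ≤ yp := wInv_mono h (cdf_lt_of_lt_quantile F hp0 hux).le hp
        have := hF.conv.slope_mono_adjacent huD hz0 hux hxz0
        rw [div_le_div_iff₀ (by linarith) (by linarith)] at this
        nlinarith
      have h2 : (wInvF W a F xp - yp) * (z0 - xp) ≤
          (wInvF W a F z0 - wInvF W a F xp) * (xp - xp) := by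
        have h3 : Tendsto (fun u => (wInvF W a F z0 - wInvF W a F xp) * (xp - u)) (𝓝[<] xp)
            (𝓝 ((wInvF W a F z0 - wInvF W a F xp) * (xp - xp))) :=
          ((tendsto_id.const_sub _).const_mul _).mono_left nhdsWithin_le_nhds
        refine ge_of_tendsto h3 ?_
        have h4 : ∀ᶠ z in 𝓝[<] xp, 0 < z := (eventually_gt_nhds hx).filter_mono nhdsWithin_le_nhds
        filter_upwards [h4, self_mem_nhdsWithin] with z hz1 hz2
        exact h1 z hz1 hz2
      rw [sub_self, mul_zero] at h2
      have h5 : 0 < z0 - xp := by linarith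
      have h6 : wInvF W a F xp - yp ≤ 0 := by
        by_contra hcon
        push Not at hcon
        have := mul_pos hcon h5
        linarith
      linarith
    -- slopes to the left
    set S : Set ℝ := {r | ∃ u ∈ suppInt F, u < xp ∧ r = (yp - wInvF W a F u) / (xp - u)} with hS
    have hub : ∀ z ∈ suppInt F, xp < z → ∀ r ∈ S, r ≤ (wInvF W a F z - yp) / (z - xp) := by
      rintro z hz hxz r ⟨u, hu, hu2, rfl⟩
      have := hF.conv.slope_mono_adjacent hu hz hu2 hxz
      rwa [hGxp] at this
    have h0S : (yp - a) / xp ∈ S := ⟨0, h0D, hx, by rw [hG0, sub_zero]⟩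
    have hSbdd : BddAbove S := ⟨_, hub z0 hz0 hxz0⟩
    set s := sSup S with hs
    have hs0 : (yp - a) / xp ≤ s := le_csSup hSbdd h0S
    have hspos : 0 < s := lt_of_lt_of_le (div_pos (by linarith) hx) hs0
    have hleft : ∀ u ∈ suppInt F, u < xp → yp + s * (u - xp) ≤ wInvF W a F u := by
      intro u hu hu2
      have h1 : (yp - wInvF W a F u) / (xp - u) ≤ s := le_csSup hSbdd ⟨u, hu, hu2, rfl⟩
      rw [div_le_iff₀ (by linarith)] at h1
      linarith
    have hright : ∀ z ∈ suppInt F, xp < z → yp + s * (z - xp) ≤ wInvF W a F z := by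
      intro z hz hz2
      have h1 : s ≤ (wInvF W a F z - yp) / (z - xp) := csSup_le ⟨_, h0S⟩ (hub z hz hz2)
      rw [le_div_iff₀ (by linarith)] at h1
      linarith
    have hline : ∀ z ∈ suppInt F, yp + s * (z - xp) ≤ wInvF W a F z := by
      intro z hz
      rcases lt_trichotomy z xp with h1 | h1 | h1
      · exact hleft z hz h1
      · rw [h1, hGxp]; simp
      · exact hright z hz h1
    have hall : ∀ x, 0 ≤ x → cdf W (yp + s * (x - xp)) ≤ cdf F x := by
      intro x hx0
      by_cases hxD : cdf F x < 1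
      · have h1 := monotone_cdf W (hline x ⟨hx0, hxD⟩)
        unfold wInvF at h1
        rwa [cdf_wInv h (cdf_nonneg _ _) hxD] at h1
      · exact (cdf_le_one _ _).trans (not_lt.1 hxD)
    have hsx : yp - a ≤ s * xp := by rwa [div_le_iff₀ hx] at hs0
    have hgnn : ∀ y, a ≤ y → 0 ≤ xp + (y - yp) / s := by
      intro y hy
      have h1 : (a - yp) / s ≤ (y - yp) / s := by
        apply div_le_div_of_nonneg_right _ hspos.le
        linarith
      have h2 : -xp ≤ (a - yp) / s := by
        rw [le_div_iff₀ hspos]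
        linarith
      linarith
    have hcomp : ∫⁻ x, ENNReal.ofReal (x ^ 2) ∂F ≤
        ∫⁻ y, ENNReal.ofReal ((xp + (y - yp) / s) ^ 2) ∂W := by
      apply lintegral_sq_mono measurable_id (by fun_prop) hF.ae_nonneg
      · filter_upwards [base_ae_ge h] with y hy
        exact hgnn y hy
      · intro t ht
        have e1 : {y | t < xp + (y - yp) / s} = Ioi (yp + s * (t - xp)) := by
          ext y
          simp only [mem_ofPred_eq, mem_Ioi]
          constructor
          · intro h1
            have h2 : t - xp < (y - yp) / s := by linarith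
            rw [lt_div_iff₀ hspos] at h2
            linarith
          · intro h1
            have h2 : t - xp < (y - yp) / s := by
              rw [lt_div_iff₀ hspos]; linarith
            linarith
        rw [e1]
        change F (Ioi t) ≤ W (Ioi (yp + s * (t - xp)))
        rw [measure_Ioi, measure_Ioi]
        apply ENNReal.ofReal_le_ofReal
        have := hall t ht.le
        linarith
    have hid : Integrable (fun y : ℝ => y) W := by
      refine (hint.add (integrable_const (1 : ℝ))).mono' (by fun_prop) (ae_of_all _ fun y => ?_)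
      rw [Real.norm_eq_abs, Pi.add_apply]
      rcases abs_cases y with ⟨h1, _⟩ | ⟨h1, _⟩ <;> rw [h1] <;> nlinarith [sq_nonneg (y - 1), sq_nonneg (y + 1)]
    have hia : Integrable (fun y : ℝ => (y - a) ^ 2) W := by
      have : (fun y : ℝ => (y - a) ^ 2) = fun y => y ^ 2 - 2 * a * y + a ^ 2 := by
        funext y; ring
      rw [this]
      exact (hint.sub (hid.const_mul _)).add (integrable_const _)
    have hig : Integrable (fun y : ℝ => (xp + (y - yp) / s) ^ 2) W := by
      have : (fun y : ℝ => (xp + (y - yp) / s) ^ 2) =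
          fun y => (1 / s ^ 2) * y ^ 2 + (2 * (xp - yp / s) / s) * y + (xp - yp / s) ^ 2 := by
        funext y; field_simp; ring
      rw [this]
      exact ((hint.const_mul _).add (hid.const_mul _)).add (integrable_const _)
    have hle := integral_le_of_lintegral_le' hF.toInClass hig hcomp
    set θ := (yp - a) / (s * xp) with hθ
    have hθ0 : 0 ≤ θ := div_nonneg (by linarith) (by positivity)
    have hθ1 : θ ≤ 1 := by
      rw [hθ, div_le_one (by positivity)]; exact hsx
    have hpt : ∀ y, (xp + (y - yp) / s) ^ 2 ≤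
        (1 - θ) * xp ^ 2 + θ * (xp ^ 2 * ((y - a) ^ 2 / (yp - a) ^ 2)) := by
      intro y
      have hya : yp - a ≠ 0 := by linarith
      set v := (y - a) / (yp - a) with hv
      have e1 : xp + (y - yp) / s = xp * ((1 - θ) + θ * v) := by
        rw [hθ, hv]
        field_simp
        ring
      have e2 : (y - a) ^ 2 / (yp - a) ^ 2 = v ^ 2 := by rw [hv, div_pow]
      rw [e1, e2]
      have h3 : ((1 - θ) + θ * v) ^ 2 ≤ (1 - θ) + θ * v ^ 2 := by
        nlinarith [mul_nonneg (mul_nonneg hθ0 (sub_nonneg.2 hθ1)) (sq_nonneg (v - 1))]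
      calc (xp * ((1 - θ) + θ * v)) ^ 2 = xp ^ 2 * ((1 - θ) + θ * v) ^ 2 := by ring
        _ ≤ xp ^ 2 * ((1 - θ) + θ * v ^ 2) := mul_le_mul_of_nonneg_left h3 (by positivity)
        _ = _ := by ring
    calc ∫ x, x ^ 2 ∂F ≤ ∫ y, (xp + (y - yp) / s) ^ 2 ∂W := hle
      _ ≤ ∫ y, ((1 - θ) * xp ^ 2 + θ * (xp ^ 2 * ((y - a) ^ 2 / (yp - a) ^ 2))) ∂W := by
          apply integral_mono hig _ hpt
          exact (integrable_const _).add (((hia.div_const _).const_mul _).const_mul _)
      _ = (1 - θ) * xp ^ 2 + θ * (xp ^ 2 * ((∫ y, (y - a) ^ 2 ∂W) / (yp - a) ^ 2)) := by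
          rw [integral_add (integrable_const _) (((hia.div_const _).const_mul _).const_mul _),
            integral_const, integral_const_mul, integral_const_mul, integral_div]
          simp
      _ ≤ (1 - θ) * (xp ^ 2 * max 1 ((∫ y, (y - a) ^ 2 ∂W) / (yp - a) ^ 2)) +
          θ * (xp ^ 2 * max 1 ((∫ y, (y - a) ^ 2 ∂W) / (yp - a) ^ 2)) := by
          have hA : xp ^ 2 ≤ xp ^ 2 * max 1 ((∫ y, (y - a) ^ 2 ∂W) / (yp - a) ^ 2) := by
            have := mul_le_mul_of_nonneg_left
              (le_max_left 1 ((∫ y, (y - a) ^ 2 ∂W) / (yp - a) ^ 2)) (sq_nonneg xp)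
            linarith
          have hB : xp ^ 2 * ((∫ y, (y - a) ^ 2 ∂W) / (yp - a) ^ 2) ≤
              xp ^ 2 * max 1 ((∫ y, (y - a) ^ 2 ∂W) / (yp - a) ^ 2) :=
            mul_le_mul_of_nonneg_left (le_max_right _ _) (sq_nonneg xp)
          exact add_le_add (mul_le_mul_of_nonneg_left hA (by linarith))
            (mul_le_mul_of_nonneg_left hB hθ0)
      _ = _ := by ring
  · have hx1 : cdf F xp = 1 := le_antisymm (cdf_le_one _ _) (not_lt.1 hxD)
    have h1 : F (Ioi xp) = 0 := by rw [measure_Ioi, hx1]; simp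
    have h2 : ∀ᵐ x ∂F, ¬ (xp < x) := by
      rw [ae_iff]; simpa [Ioi] using h1
    calc ∫ x, x ^ 2 ∂F ≤ ∫ _, xp ^ 2 ∂F := by
          apply integral_mono_ae hF.int (integrable_const _)
          filter_upwards [hF.ae_nonneg, h2] with x hx1 hx2
          have := not_lt.1 hx2
          nlinarith
      _ = xp ^ 2 * 1 := by simp
      _ ≤ _ := mul_le_mul_of_nonneg_left (le_max_left _ _) (sq_nonneg xp)

/-- the bound without any condition on the left endpoint -/
theorem atom_upper (hF : InClass F) {p : ℝ} (hp0 : 0 < p) (hp : p < 1) :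
    quantile F p ^ 2 * (1 - p) ≤ ∫ x, x ^ 2 ∂F := by
  have hFp := hF.prob
  set xp := quantile F p with hxp
  have hx0 : 0 ≤ xp := hF.quantile_nonneg hp0 hp
  have h1 : F.real (Iio xp) ≤ p := by
    have h2 : F (Iio xp) ≤ ENNReal.ofReal p := by
      have h3 : (cdf F).measure (Iio xp) ≤ ENNReal.ofReal p := by
        rw [StieltjesFunction.measure_Iio _ (tendsto_cdf_atBot F), sub_zero]
        apply ENNReal.ofReal_le_ofReal
        refine le_of_tendsto ((monotone_cdf F).tendsto_leftLim xp) ?_
        filter_upwards [self_mem_nhdsWithin] with y hy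
        exact (cdf_lt_of_lt_quantile F hp0 hy).le
      rwa [measure_cdf] at h3
    rw [measureReal_def]
    exact ENNReal.toReal_le_of_le_ofReal hp0.le h2
  have h4 : 1 - p ≤ F.real (Ici xp) := by
    have : F.real (Ici xp) = 1 - F.real (Iio xp) := by
      rw [← compl_Iio, probReal_compl_eq_one_sub measurableSet_Iio]
    linarith
  calc xp ^ 2 * (1 - p) ≤ xp ^ 2 * F.real (Ici xp) := mul_le_mul_of_nonneg_left h4 (sq_nonneg _)
    _ = ∫ x, (Ici xp).indicator (fun _ => xp ^ 2) x ∂F := by
        rw [integral_indicator measurableSet_Ici]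
        simp [measureReal_def, mul_comm]
    _ ≤ ∫ x, x ^ 2 ∂F := by
        apply integral_mono ((integrable_const _).indicator measurableSet_Ici) hF.int
        intro x
        change (Ici xp).indicator (fun _ => xp ^ 2) x ≤ x ^ 2
        rw [indicator_apply]
        split_ifs with h5
        · have : xp ≤ x := h5
          nlinarith
        · exact sq_nonneg x

end Pool.Agent.Q287.QB
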