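import Pool.Agent.Q287.QB2

/-! Quantile bounds in the convex transform order: push-forwards and sharpness. -/

namespace Pool.Agent.Q287.QB

open MeasureTheory ProbabilityTheory Set Filter Topology

variable {W F : Measure ℝ} {a : ℝ} {d : EReal}

section push

variable {φ : ℝ → ℝ}

lemma push_cdf (h : IsBase W a d) (hm : StrictMono φ) (hc : Continuous φ) (y : ℝ) :
    cdf (W.map φ) (φ y) = cdf W y := by
  have hWp := h.prob
  have : IsProbabilityMeasure (W.map φ) := Measure.isProbabilityMeasure_map hc.measurable.aemeasurable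
  rw [cdf_eq_real, cdf_eq_real, measureReal_def, measureReal_def,
    Measure.map_apply hc.measurable measurableSet_Iic]
  congr 2
  ext z
  simp [hm.le_iff_le]

lemma push_surj (h : IsBase W a d) (hm : StrictMono φ) (hc : Continuous φ) (h0 : φ a = 0) {x : ℝ}
    (hx : x ∈ suppInt (W.map φ)) : ∃ y, a ≤ y ∧ (y : EReal) < d ∧ φ y = x := by
  have hWp := h.prob
  have hp : IsProbabilityMeasure (W.map φ) := Measure.isProbabilityMeasure_map hc.measurable.aemeasurable
  obtain ⟨hx0, hx1⟩ := hx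
  have hex : ∃ y, x < φ y := by
    by_contra hcon
    push Not at hcon
    have h1 : φ ⁻¹' (Iic x) = univ := by
      ext z; simp [hcon z]
    rw [cdf_eq_real, measureReal_def, Measure.map_apply hc.measurable measurableSet_Iic, h1] at hx1
    simp at hx1
  obtain ⟨y, hy⟩ := hex
  have hay : a ≤ y := by
    apply le_of_lt
    rw [← hm.lt_iff_lt, h0]
    linarith
  obtain ⟨z, hz, hzx⟩ := intermediate_value_Icc hay hc.continuousOn
    (show x ∈ Icc (φ a) (φ y) from ⟨by rw [h0]; exact hx0, hy.le⟩)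
  refine ⟨z, hz.1, ?_, hzx⟩
  apply h.lt_d
  rw [← push_cdf h hm hc, hzx]
  exact hx1

lemma push_G (h : IsBase W a d) (hm : StrictMono φ) (hc : Continuous φ) {y : ℝ} (hy : a ≤ y)
    (hd : (y : EReal) < d) : wInvF W a (W.map φ) (φ y) = y := by
  unfold wInvF
  rw [push_cdf h hm hc, wInv_cdf h hy hd]

lemma suppInt_convex (F : Measure ℝ) : Convex ℝ (suppInt F) := by
  apply Set.OrdConnected.convex
  constructor
  intro x hx y hy z hz
  exact ⟨hx.1.trans hz.1, lt_of_le_of_lt (monotone_cdf F hz.2) hy.2⟩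

lemma push_noAtoms (h : IsBase W a d) (hm : StrictMono φ) (hc : Continuous φ) (x : ℝ) :
    (W.map φ) {x} = 0 := by
  rw [Measure.map_apply hc.measurable (measurableSet_singleton x)]
  by_cases hx : ∃ y, φ y = x
  · obtain ⟨y, rfl⟩ := hx
    have : φ ⁻¹' {φ y} = {y} := by
      ext z; simp [hm.injective.eq_iff]
    rw [this]
    exact h.noAtoms y
  · have : φ ⁻¹' {x} = ∅ := by
      ext z
      simp only [mem_preimage, mem_singleton_iff, mem_empty_iff_false, iff_false]
      exact fun hz => hx ⟨z, hz⟩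
    rw [this]; simp

lemma push_integral (hc : Continuous φ) :
    ∫ x, x ^ 2 ∂(W.map φ) = ∫ y, φ y ^ 2 ∂W :=
  integral_map hc.measurable.aemeasurable (by fun_prop)

lemma base_measure_Ioi (h : IsBase W a d) {t : ℝ} (ht : (t : EReal) < d) : 0 < W (Ioi t) := by
  have := h.prob
  rw [measure_Ioi, ENNReal.ofReal_pos]
  have := h.cdf_lt_one ht
  linarith

lemma integral_sq_pos (h : IsBase W a d) {φ : ℝ → ℝ} {t : ℝ} (ht : (t : EReal) < d)
    (hi : Integrable (fun y => φ y ^ 2) W) (hpos : ∀ y, t < y → φ y ≠ 0) :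
    0 < ∫ y, φ y ^ 2 ∂W := by
  rw [integral_pos_iff_support_of_nonneg (fun y => sq_nonneg _) hi]
  refine lt_of_lt_of_le (base_measure_Ioi h ht) (measure_mono ?_)
  intro y hy
  simp only [Function.mem_support]
  exact pow_ne_zero 2 (hpos y hy)

lemma push_inClass (h : IsBase W a d) (hm : StrictMono φ) (hc : Continuous φ) (h0 : φ a = 0)
    (hi : Integrable (fun y => φ y ^ 2) W) : InClass (W.map φ) := by
  have hWp := h.prob
  have hp : IsProbabilityMeasure (W.map φ) := Measure.isProbabilityMeasure_map hc.measurable.aemeasurable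
  refine ⟨hp, ?_, ?_, ?_, ?_⟩
  · rw [Measure.map_apply hc.measurable measurableSet_Iio]
    refine measure_mono_null ?_ h.below
    intro y hy
    simp only [mem_preimage, mem_Iio] at hy ⊢
    rwa [← hm.lt_iff_lt, h0]
  · intro ε hε
    have h1 : ∀ᶠ y in 𝓝[>] a, φ y < ε := by
      have : Tendsto φ (𝓝[>] a) (𝓝 (φ a)) := hc.continuousAt.tendsto.mono_left nhdsWithin_le_nhds
      rw [h0] at this
      exact this.eventually (gt_mem_nhds hε)
    obtain ⟨y, hy1, hy2⟩ := (h1.and self_mem_nhdsWithin).exists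
    have h2 : 0 < (W.map φ) (Iic (φ y)) := by
      rw [← ofReal_cdf, push_cdf h hm hc, ENNReal.ofReal_pos]
      exact h.cdf_pos hy2
    exact lt_of_lt_of_le h2 (measure_mono (fun z hz => lt_of_le_of_lt hz hy1))
  · have := (integrable_map_measure (μ := W) (f := φ) (g := fun x : ℝ => x ^ 2)
      (by fun_prop) hc.measurable.aemeasurable).2 hi
    exact this
  · rw [push_integral hc]
    apply integral_sq_pos h h.lt hi
    intro y hy
    have := hm hy
    rw [h0] at this
    exact this.ne'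

lemma push_plus (h : IsBase W a d) (hm : StrictMono φ) (hc : Continuous φ) (h0 : φ a = 0)
    (hi : Integrable (fun y => φ y ^ 2) W) (hconv : ConvexOn ℝ (Ici a) φ) :
    CPlus W a (W.map φ) where
  toInClass := push_inClass h hm hc h0 hi
  conc := by
    refine ⟨suppInt_convex _, ?_⟩
    intro x hx x' hx' α β hα hβ hαβ
    have hz := suppInt_convex _ hx hx' hα hβ hαβ
    obtain ⟨y, hy, hyd, rfl⟩ := push_surj h hm hc h0 hx
    obtain ⟨y', hy', hyd', rfl⟩ := push_surj h hm hc h0 hx'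
    obtain ⟨z, hz1, hzd, hzz⟩ := push_surj h hm hc h0 hz
    rw [push_G h hm hc hy hyd, push_G h hm hc hy' hyd', ← hzz, push_G h hm hc hz1 hzd]
    have := hconv.2 (mem_Ici.2 hy) (mem_Ici.2 hy') hα hβ hαβ
    rw [← hzz] at this
    exact hm.le_iff_le.1 this
  noAtom := fun x _ => push_noAtoms h hm hc x

lemma push_minus (h : IsBase W a d) (hm : StrictMono φ) (hc : Continuous φ) (h0 : φ a = 0)
    (hi : Integrable (fun y => φ y ^ 2) W) (hconc : ConcaveOn ℝ (Ici a) φ) :
    CMinus W a (W.map φ) where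
  toInClass := push_inClass h hm hc h0 hi
  conv := by
    refine ⟨suppInt_convex _, ?_⟩
    intro x hx x' hx' α β hα hβ hαβ
    have hz := suppInt_convex _ hx hx' hα hβ hαβ
    obtain ⟨y, hy, hyd, rfl⟩ := push_surj h hm hc h0 hx
    obtain ⟨y', hy', hyd', rfl⟩ := push_surj h hm hc h0 hx'
    obtain ⟨z, hz1, hzd, hzz⟩ := push_surj h hm hc h0 hz
    rw [push_G h hm hc hy hyd, push_G h hm hc hy' hyd', ← hzz, push_G h hm hc hz1 hzd]
    have := hconc.2 (mem_Ici.2 hy) (mem_Ici.2 hy') hα hβ hαβ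
    rw [← hzz] at this
    exact hm.le_iff_le.1 this
  noAtom := push_noAtoms h hm hc 0

lemma push_quantile (h : IsBase W a d) (hm : StrictMono φ) (hc : Continuous φ) (h0 : φ a = 0)
    (hi : Integrable (fun y => φ y ^ 2) W) {p : ℝ} (hp0 : 0 < p) (hp : p < 1) :
    quantile (W.map φ) p = φ (wInv W a p) := by
  have hF := push_inClass h hm hc h0 hi
  refine le_antisymm ?_ ?_
  · apply csInf_le (qSet_bdd _ hp0)
    change p ≤ cdf (W.map φ) (φ (wInv W a p))
    rw [push_cdf h hm hc, cdf_wInv h hp0.le hp]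
  · apply le_csInf (qSet_nonempty _ hp)
    intro x hx
    have hx' : p ≤ cdf (W.map φ) x := hx
    by_contra hcon
    push Not at hcon
    have hx0 : 0 ≤ x := by
      by_contra h1
      rw [hF.cdf_neg (not_le.1 h1)] at hx'
      linarith
    have hle : cdf (W.map φ) x ≤ p := by
      have := monotone_cdf (W.map φ) hcon.le
      rwa [push_cdf h hm hc, cdf_wInv h hp0.le hp] at this
    obtain ⟨y, hy, hyd, rfl⟩ := push_surj h hm hc h0 ⟨hx0, lt_of_le_of_lt hle hp⟩
    rw [push_cdf h hm hc] at hx'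
    have h1 : y < wInv W a p := hm.lt_iff_lt.1 hcon
    have h2 := (wInv_le_iff h hp hy).2 hx'
    linarith

lemma push_ratio (h : IsBase W a d) (hm : StrictMono φ) (hc : Continuous φ) (h0 : φ a = 0)
    (hi : Integrable (fun y => φ y ^ 2) W) {p : ℝ} (hp0 : 0 < p) (hp : p < 1) :
    ratio p (W.map φ) = φ (wInv W a p) / √(∫ y, φ y ^ 2 ∂W) := by
  unfold ratio
  rw [push_quantile h hm hc h0 hi hp0 hp, push_integral hc]

end push

/-! ### Least upper bounds from sequences -/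

lemma isLUB_of_seq {S S' : Set ℝ} (hsub : S' ⊆ S) {V : ℝ} (hub : ∀ r ∈ S, r ≤ V) {u : ℕ → ℝ}
    (hu : ∀ n, u n ∈ S') (hlim : Tendsto u atTop (𝓝 V)) : IsLUB S V ∧ IsLUB S' V :=
  ⟨⟨hub, fun _ hB => le_of_tendsto' hlim fun n => hB (hsub (hu n))⟩,
    ⟨fun r hr => hub r (hsub hr), fun _ hB => le_of_tendsto' hlim fun n => hB (hu n)⟩⟩

lemma isGLB_of_seq {S S' : Set ℝ} (hsub : S' ⊆ S) {V : ℝ} (hlb : ∀ r ∈ S, V ≤ r) {u : ℕ → ℝ}
    (hu : ∀ n, u n ∈ S') (hlim : Tendsto u atTop (𝓝 V)) : IsGLB S V ∧ IsGLB S' V :=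
  ⟨⟨hlb, fun _ hB => ge_of_tendsto' hlim fun n => hB (hsub (hu n))⟩,
    ⟨fun r hr => hlb r (hsub hr), fun _ hB => ge_of_tendsto' hlim fun n => hB (hu n)⟩⟩

/-- continuity of the ratio along `f + ε g` -/
lemma tendsto_ratio {f g : ℝ → ℝ} {y : ℝ} (hf : Integrable (fun y => f y ^ 2) W)
    (hfg : Integrable (fun y => f y * g y) W) (hg : Integrable (fun y => g y ^ 2) W)
    (hpos : 0 < ∫ y, f y ^ 2 ∂W) :
    Tendsto (fun n : ℕ => (f y + (1 / ((n : ℝ) + 1)) * g y) /
      √(∫ y, (f y + (1 / ((n : ℝ) + 1)) * g y) ^ 2 ∂W)) atTop (𝓝 (f y / √(∫ y, f y ^ 2 ∂W))) := by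
  have hexp : ∀ ε : ℝ, ∫ y, (f y + ε * g y) ^ 2 ∂W =
      ∫ y, f y ^ 2 ∂W + 2 * ε * ∫ y, f y * g y ∂W + ε ^ 2 * ∫ y, g y ^ 2 ∂W := by
    intro ε
    have i1 : Integrable (fun y => f y ^ 2 + 2 * ε * (f y * g y)) W := hf.add (hfg.const_mul _)
    have i2 : Integrable (fun y => ε ^ 2 * g y ^ 2) W := hg.const_mul _
    calc ∫ y, (f y + ε * g y) ^ 2 ∂W
        = ∫ y, ((f y ^ 2 + 2 * ε * (f y * g y)) + ε ^ 2 * g y ^ 2) ∂W := by
          congr 1
          funext y
          ring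
      _ = ∫ y, (f y ^ 2 + 2 * ε * (f y * g y)) ∂W + ∫ y, ε ^ 2 * g y ^ 2 ∂W := integral_add i1 i2
      _ = (∫ y, f y ^ 2 ∂W + ∫ y, 2 * ε * (f y * g y) ∂W) + ∫ y, ε ^ 2 * g y ^ 2 ∂W := by
          rw [integral_add hf (hfg.const_mul _)]
      _ = _ := by rw [integral_const_mul, integral_const_mul]
  simp only [hexp]
  have hcont : ContinuousAt (fun ε : ℝ => (f y + ε * g y) /
      √(∫ y, f y ^ 2 ∂W + 2 * ε * ∫ y, f y * g y ∂W + ε ^ 2 * ∫ y, g y ^ 2 ∂W)) 0 := by
    apply ContinuousAt.div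
    · fun_prop
    · fun_prop
    · simp only [mul_zero, zero_mul, add_zero]
      have : √(∫ y, f y ^ 2 ∂W) ≠ 0 := (Real.sqrt_pos.2 hpos).ne'
      simpa using this
  have h1 := hcont.tendsto.comp tendsto_one_div_add_atTop_nhds_zero_nat
  simpa [Function.comp_def] using h1

end Pool.Agent.Q287.QB
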