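import Pool.Agent.Q287.QB3

/-! Quantile bounds in the convex transform order: the class `C⁺`. -/

namespace Pool.Agent.Q287.QB

open MeasureTheory ProbabilityTheory Set Filter Topology

variable {W F : Measure ℝ} {a : ℝ} {d : EReal}

/-- `E (Y - t)₊ (y_p - Y)` for `Y` of law `W`. -/
noncomputable def psi (W : Measure ℝ) (yp t : ℝ) : ℝ := ∫ y, max (y - t) 0 * (yp - y) ∂W

/-- The optimal shift: `t` is a zero of `t ↦ E (Y - t)₊ (y_p - Y)` in `[a, y_p)`, or `t = a` when
`E (Y - a)₊ (y_p - Y) ≤ 0`. -/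
def IsOpt (W : Measure ℝ) (a yp t : ℝ) : Prop :=
  a ≤ t ∧ t < yp ∧ (psi W yp t = 0 ∨ (t = a ∧ psi W yp a ≤ 0))

/-- `(y_p - t) / √(E (Y - t)₊²)`. -/
noncomputable def valPlus (W : Measure ℝ) (yp t : ℝ) : ℝ := (yp - t) / √(∫ y, (max (y - t) 0) ^ 2 ∂W)

section integrability

variable (h : IsBase W a d) (hint : Integrable (fun y => y ^ 2) W)

include h hint

lemma int_id : Integrable (fun y : ℝ => y) W := by
  have := h.prob
  refine (hint.add (integrable_const (1 : ℝ))).mono' (by fun_prop) (ae_of_all _ fun y => ?_)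
  rw [Real.norm_eq_abs, Pi.add_apply]
  rcases abs_cases y with ⟨h1, _⟩ | ⟨h1, _⟩ <;> rw [h1] <;>
    nlinarith [sq_nonneg (y - 1), sq_nonneg (y + 1)]

lemma int_quad (b c e : ℝ) : Integrable (fun y : ℝ => b * y ^ 2 + c * y + e) W := by
  have := h.prob
  exact ((hint.const_mul b).add ((int_id h hint).const_mul c)).add (integrable_const e)

/-- integrability of products of functions of linear growth -/
lemma int_prod {f g : ℝ → ℝ} (hf : Continuous f) (hg : Continuous g) {A B : ℝ}
    (hfA : ∀ y, |f y| ≤ A * (1 + |y|)) (hgB : ∀ y, |g y| ≤ B * (1 + |y|)) :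
    Integrable (fun y => f y * g y) W := by
  have hA : 0 ≤ A := by
    have := (abs_nonneg _).trans (hfA 0)
    simpa using this
  have hB : 0 ≤ B := by
    have := (abs_nonneg _).trans (hgB 0)
    simpa using this
  have h1 := int_quad h hint (2 * (A * B)) 0 (2 * (A * B))
  refine h1.mono' (by fun_prop) (ae_of_all _ fun y => ?_)
  rw [Real.norm_eq_abs, abs_mul]
  have h2 : |f y| * |g y| ≤ (A * (1 + |y|)) * (B * (1 + |y|)) :=
    mul_le_mul (hfA y) (hgB y) (abs_nonneg _) ((abs_nonneg _).trans (hfA y))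
  have h3 : (1 + |y|) ^ 2 ≤ 2 * y ^ 2 + 2 := by
    nlinarith [sq_abs y, sq_nonneg (|y| - 1)]
  have h4 : (A * B) * (1 + |y|) ^ 2 ≤ (A * B) * (2 * y ^ 2 + 2) :=
    mul_le_mul_of_nonneg_left h3 (mul_nonneg hA hB)
  calc |f y| * |g y| ≤ (A * (1 + |y|)) * (B * (1 + |y|)) := h2
    _ = (A * B) * (1 + |y|) ^ 2 := by ring
    _ ≤ (A * B) * (2 * y ^ 2 + 2) := h4
    _ = _ := by ring

omit h hint in
lemma growth_max (t : ℝ) (y : ℝ) : |max (y - t) 0| ≤ (1 + |t|) * (1 + |y|) := by
  rw [abs_of_nonneg (le_max_right _ _)]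
  apply max_le
  · have h1 := neg_abs_le t
    have h2 := le_abs_self y
    nlinarith [abs_nonneg t, abs_nonneg y, mul_nonneg (abs_nonneg t) (abs_nonneg y)]
  · have := abs_nonneg t
    have := abs_nonneg y
    positivity

omit h hint in
lemma growth_lin (t : ℝ) (y : ℝ) : |t - y| ≤ (1 + |t|) * (1 + |y|) := by
  have h1 := abs_sub t y
  nlinarith [abs_nonneg t, abs_nonneg y, mul_nonneg (abs_nonneg t) (abs_nonneg y)]

lemma int_max_sq (t : ℝ) : Integrable (fun y => (max (y - t) 0) ^ 2) W := by
  have := int_prod h hint (f := fun y => max (y - t) 0) (g := fun y => max (y - t) 0)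
    (by fun_prop) (by fun_prop) (growth_max t) (growth_max t)
  refine this.congr (ae_of_all _ fun y => ?_)
  simp only
  ring

lemma int_psi (yp t : ℝ) : Integrable (fun y => max (y - t) 0 * (yp - y)) W :=
  int_prod h hint (by fun_prop) (by fun_prop) (growth_max t) (growth_lin yp)

lemma int_lin_sq (t : ℝ) : Integrable (fun y => (y - t) ^ 2) W := by
  have := int_quad h hint 1 (-2 * t) (t ^ 2)
  refine this.congr (ae_of_all _ fun y => ?_)
  simp only
  ring

lemma max_sq_pos {t : ℝ} (ht : (t : EReal) < d) : 0 < ∫ y, (max (y - t) 0) ^ 2 ∂W := by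
  apply integral_sq_pos h ht (int_max_sq h hint t)
  intro y hy
  rw [max_eq_left (by linarith)]
  linarith

omit h hint in
/-- pointwise inequality behind the optimality of `t` -/
lemma opt_pointwise {yp t t' y : ℝ} (ht : t < yp) (ht' : t' < yp) :
    (yp - t') ^ 2 * (max (y - t) 0) ^ 2 + 2 * (yp - t') * (t' - t) * (max (y - t) 0 * (y - yp)) ≤
      (yp - t) ^ 2 * (max (y - t') 0) ^ 2 := by
  have hα : 0 < yp - t := by linarith
  have hβ : 0 < yp - t' := by linarith
  rcases le_total t y with h1 | h1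
  · rw [max_eq_left (by linarith : (0:ℝ) ≤ y - t)]
    rcases le_total t' y with h2 | h2
    · rw [max_eq_left (by linarith : (0:ℝ) ≤ y - t')]
      nlinarith [sq_nonneg ((t' - t) * (y - yp))]
    · rw [max_eq_right (by linarith : y - t' ≤ 0)]
      -- (yp-t')(y-t)[(yp-t')(y-t) + 2 (t'-t)(y-yp)] ≤ 0
      have h3 : (yp - t') * (y - t) + 2 * (t' - t) * (y - yp) ≤ 0 := by
        have h4 : t ≤ t' := h1.trans h2
        nlinarith [mul_nonneg (sub_nonneg.2 h4) (sub_nonneg.2 h2), mul_nonneg (sub_nonneg.2 h4) hβ.le,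
          mul_nonneg hβ.le (sub_nonneg.2 h2)]
      have h5 : 0 ≤ (yp - t') * (y - t) := mul_nonneg hβ.le (by linarith)
      have h6 := mul_nonneg h5 (neg_nonneg.2 h3)
      nlinarith
  · rw [max_eq_right (by linarith : y - t ≤ 0)]
    have := sq_nonneg ((yp - t) * max (y - t') 0)
    nlinarith

lemma opt_ineq {yp t t' : ℝ} (hopt : IsOpt W a yp t) (hat' : a ≤ t') (ht' : t' < yp) :
    (yp - t') ^ 2 * ∫ y, (max (y - t) 0) ^ 2 ∂W ≤ (yp - t) ^ 2 * ∫ y, (max (y - t') 0) ^ 2 ∂W := by
  obtain ⟨hat, ht, hcase⟩ := hopt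
  have i1 := (int_max_sq h hint t).const_mul ((yp - t') ^ 2)
  have i2 : Integrable (fun y => 2 * (yp - t') * (t' - t) * (max (y - t) 0 * (y - yp))) W := by
    refine ((int_psi h hint yp t).const_mul (-(2 * (yp - t') * (t' - t)))).congr
      (ae_of_all _ fun y => ?_)
    simp only
    ring
  have i3 := (int_max_sq h hint t').const_mul ((yp - t) ^ 2)
  have hI : ∫ y, ((yp - t') ^ 2 * (max (y - t) 0) ^ 2 +
      2 * (yp - t') * (t' - t) * (max (y - t) 0 * (y - yp))) ∂W ≤
      ∫ y, (yp - t) ^ 2 * (max (y - t') 0) ^ 2 ∂W :=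
    integral_mono (i1.add i2) i3 fun y => opt_pointwise ht ht'
  rw [integral_add i1 i2, integral_const_mul, integral_const_mul, integral_const_mul] at hI
  have hpsi : ∫ y, max (y - t) 0 * (y - yp) ∂W = - psi W yp t := by
    unfold psi
    rw [← integral_neg]
    congr 1
    funext y
    ring
  rw [hpsi] at hI
  have hnn : 0 ≤ 2 * (yp - t') * (t' - t) * (-psi W yp t) := by
    rcases hcase with h0 | ⟨rfl, h0⟩
    · rw [h0]; simp
    · exact mul_nonneg (mul_nonneg (by linarith) (by linarith)) (by linarith)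
  linarith

omit h hint in
lemma div_sqrt_le {x m α M : ℝ} (hα : 0 ≤ α) (hm : 0 < m) (hM : 0 < M)
    (hle : x ^ 2 * M ≤ α ^ 2 * m) : x / √m ≤ α / √M := by
  rw [div_le_div_iff₀ (Real.sqrt_pos.2 hm) (Real.sqrt_pos.2 hM)]
  apply abs_le_of_sq_le_sq' _ (by positivity) |>.2
  rw [mul_pow, mul_pow, Real.sq_sqrt hM.le, Real.sq_sqrt hm.le]
  exact hle

lemma opt_max {yp t t' : ℝ} (hyp : (yp : EReal) < d) (hopt : IsOpt W a yp t) (hat' : a ≤ t')
    (ht' : t' < yp) : valPlus W yp t' ≤ valPlus W yp t := by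
  unfold valPlus
  have h1 : (t : EReal) < d := lt_trans (by exact_mod_cast hopt.2.1) hyp
  have h2 : (t' : EReal) < d := lt_trans (by exact_mod_cast ht') hyp
  apply div_sqrt_le (by linarith [hopt.2.1]) (max_sq_pos h hint h2) (max_sq_pos h hint h1)
  exact opt_ineq h hint hopt hat' ht'

/-- existence of the optimal shift -/
lemma exists_opt {yp : ℝ} (hay : a < yp) (hyp : (yp : EReal) < d) : ∃ t, IsOpt W a yp t := by
  have hWp := h.prob
  by_cases h0 : psi W yp a ≤ 0
  · exact ⟨a, le_rfl, hay, Or.inr ⟨rfl, h0⟩⟩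
  push Not at h0
  have hyy : psi W yp yp < 0 := by
    have h1 : psi W yp yp = - ∫ y, (max (y - yp) 0) ^ 2 ∂W := by
      unfold psi
      rw [← integral_neg]
      congr 1
      funext y
      rcases le_total yp y with h2 | h2
      · rw [max_eq_left (by linarith : (0:ℝ) ≤ y - yp)]; ring
      · rw [max_eq_right (by linarith : y - yp ≤ 0)]; ring
    rw [h1]
    have := max_sq_pos h hint hyp
    linarith
  have hcont : Continuous (psi W yp) := by
    have hK : Integrable (fun y => |yp - y|) W := by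
      have := (integrable_const yp).sub (int_id h hint)
      exact this.abs
    have hlip : LipschitzWith (Real.toNNReal (∫ y, |yp - y| ∂W)) (psi W yp) := by
      apply LipschitzWith.of_dist_le_mul
      intro t t'
      rw [Real.dist_eq, Real.dist_eq, Real.coe_toNNReal _ (integral_nonneg fun y => abs_nonneg _)]
      unfold psi
      rw [← integral_sub (int_psi h hint yp t) (int_psi h hint yp t')]
      calc |∫ y, (max (y - t) 0 * (yp - y) - max (y - t') 0 * (yp - y)) ∂W|
          ≤ ∫ y, |max (y - t) 0 * (yp - y) - max (y - t') 0 * (yp - y)| ∂W :=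
            abs_integral_le_integral_abs
        _ ≤ ∫ y, |yp - y| * |t - t'| ∂W := by
            apply integral_mono ((int_psi h hint yp t).sub (int_psi h hint yp t')).abs
              (hK.mul_const _)
            intro y
            change |max (y - t) 0 * (yp - y) - max (y - t') 0 * (yp - y)| ≤ |yp - y| * |t - t'|
            rw [← sub_mul, abs_mul, mul_comm]
            apply mul_le_mul_of_nonneg_left _ (abs_nonneg _)
            have := abs_max_sub_max_le_abs (y - t) (y - t') 0
            refine this.trans (le_of_eq ?_)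
            rw [show y - t - (y - t') = -(t - t') by ring, abs_neg]
        _ = _ := by rw [integral_mul_const]
    exact hlip.continuous
  obtain ⟨t, ht, hteq⟩ := intermediate_value_Icc' hay.le hcont.continuousOn
    (show (0:ℝ) ∈ Icc (psi W yp yp) (psi W yp a) from ⟨hyy.le, h0.le⟩)
  refine ⟨t, ht.1, ?_, Or.inl hteq⟩
  rcases eq_or_lt_of_le ht.2 with h1 | h1
  · rw [h1] at hteq; linarith
  · exact h1

/-- uniqueness of the optimal shift -/
lemma opt_unique {yp t t' : ℝ} (hyp : (yp : EReal) < d) (h1 : IsOpt W a yp t)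
    (h2 : IsOpt W a yp t') : t = t' := by
  have hWp := h.prob
  -- strict monotonicity
  have key : ∀ t₁ t₂ : ℝ, IsOpt W a yp t₁ → IsOpt W a yp t₂ → ¬ t₁ < t₂ := by
    intro t₁ t₂ o1 o2 hlt
    obtain ⟨ha1, hy1, hc1⟩ := o1
    obtain ⟨ha2, hy2, hc2⟩ := o2
    have hψ2 : psi W yp t₂ = 0 := by
      rcases hc2 with h0 | ⟨h0, -⟩
      · exact h0
      · linarith
    have hψ1 : psi W yp t₁ ≤ 0 := by
      rcases hc1 with h0 | ⟨h0, h0'⟩
      · exact h0.le
      · rw [h0]; exact h0'
    -- the strictly positive integral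
    have i1 := (int_psi h hint yp t₁).const_mul (yp - t₂)
    have i2 := (int_psi h hint yp t₂).const_mul (yp - t₁)
    have hpt : ∀ y, 0 ≤ (yp - t₂) * (max (y - t₁) 0 * (yp - y)) -
        (yp - t₁) * (max (y - t₂) 0 * (yp - y)) := by
      intro y
      rcases le_total t₂ y with h3 | h3
      · rw [max_eq_left (by linarith : (0:ℝ) ≤ y - t₂), max_eq_left (by linarith : (0:ℝ) ≤ y - t₁)]
        nlinarith [mul_nonneg (sub_nonneg.2 hlt.le) (sq_nonneg (y - yp))]
      · rw [max_eq_right (by linarith : y - t₂ ≤ 0)]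
        have : 0 ≤ (yp - t₂) * (max (y - t₁) 0 * (yp - y)) :=
          mul_nonneg (by linarith) (mul_nonneg (le_max_right _ _) (by linarith))
        linarith
    have hpos : 0 < ∫ y, ((yp - t₂) * (max (y - t₁) 0 * (yp - y)) -
        (yp - t₁) * (max (y - t₂) 0 * (yp - y))) ∂W := by
      rw [integral_pos_iff_support_of_nonneg hpt (i1.sub i2)]
      refine lt_of_lt_of_le (base_measure_Ioi h hyp) (measure_mono ?_)
      intro y hy
      simp only [Function.mem_support]
      have hy' : yp < y := hy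
      rw [max_eq_left (by linarith : (0:ℝ) ≤ y - t₂), max_eq_left (by linarith : (0:ℝ) ≤ y - t₁)]
      have : (yp - t₂) * ((y - t₁) * (yp - y)) - (yp - t₁) * ((y - t₂) * (yp - y)) =
          (t₂ - t₁) * (y - yp) ^ 2 := by ring
      rw [this]
      exact (mul_pos (by linarith) (by
        have : 0 < y - yp := by linarith
        positivity)).ne'
    rw [integral_sub i1 i2, integral_const_mul, integral_const_mul] at hpos
    have e1 : ∫ y, max (y - t₁) 0 * (yp - y) ∂W = psi W yp t₁ := rfl
    have e2 : ∫ y, max (y - t₂) 0 * (yp - y) ∂W = psi W yp t₂ := rfl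
    rw [e1, e2, hψ2, mul_zero, sub_zero] at hpos
    have := mul_nonneg (by linarith : 0 ≤ yp - t₂) (neg_nonneg.2 hψ1)
    linarith
  rcases lt_trichotomy t t' with h3 | h3 | h3
  · exact absurd h3 (key t t' h1 h2)
  · exact h3
  · exact absurd h3 (key t' t h2 h1)

end integrability

/-- the set of values of the ratio over the class `C⁺` -/
def plusValues (W : Measure ℝ) (a p : ℝ) : Set ℝ := {r | ∃ F, CPlus W a F ∧ r = ratio p F}

/-- the set of values over the members of `C⁺` with a continuous distribution function -/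
def plusValuesCont (W : Measure ℝ) (a p : ℝ) : Set ℝ :=
  {r | ∃ F, CPlus W a F ∧ (∀ x, F {x} = 0) ∧ r = ratio p F}

lemma plusCont_subset (W : Measure ℝ) (a p : ℝ) : plusValuesCont W a p ⊆ plusValues W a p :=
  fun _ ⟨F, h1, _, h2⟩ => ⟨F, h1, h2⟩

lemma plus_sup (h : IsBase W a d) (hint : Integrable (fun y => y ^ 2) W) {p : ℝ} (hp0 : 0 < p)
    (hp : p < 1) {t : ℝ} (hopt : IsOpt W a (wInv W a p) t) :
    IsLUB (plusValues W a p) (valPlus W (wInv W a p) t) ∧
    IsLUB (plusValuesCont W a p) (valPlus W (wInv W a p) t) := by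
  have hWp := h.prob
  set yp := wInv W a p with hyp
  have hypd : (yp : EReal) < d := wInv_lt_d h hp0.le hp
  obtain ⟨hat, hty, -⟩ := id hopt
  have htd : (t : EReal) < d := lt_trans (by exact_mod_cast hty) hypd
  -- the approximating sequence
  let φ : ℕ → ℝ → ℝ := fun n y => max (y - t) 0 + (1 / ((n : ℝ) + 1)) * (y - a)
  have hmono : ∀ n, StrictMono (φ n) := by
    intro n x y hxy
    have h1 : max (x - t) 0 ≤ max (y - t) 0 := max_le_max (by linarith) le_rfl
    have h2 : (1 / ((n : ℝ) + 1)) * (x - a) < (1 / ((n : ℝ) + 1)) * (y - a) :=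
      mul_lt_mul_of_pos_left (by linarith) (by positivity)
    exact add_lt_add_of_le_of_lt h1 h2
  have hcont : ∀ n, Continuous (φ n) := fun n => by
    simp only [φ]; fun_prop
  have hzero : ∀ n, φ n a = 0 := by
    intro n
    simp only [φ]
    rw [max_eq_right (by linarith)]; simp
  have hgl : ∀ y, |y - a| ≤ (1 + |a|) * (1 + |y|) := by
    intro y
    rw [abs_sub_comm]
    exact growth_lin a y
  have i1 := int_max_sq h hint t
  have i2 : Integrable (fun y => max (y - t) 0 * (y - a)) W :=
    int_prod h hint (by fun_prop) (by fun_prop) (growth_max t) hgl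
  have i3 := int_lin_sq h hint a
  have hφint : ∀ n, Integrable (fun y => φ n y ^ 2) W := by
    intro n
    have : (fun y => φ n y ^ 2) = fun y => (max (y - t) 0) ^ 2 +
        2 * (1 / ((n : ℝ) + 1)) * (max (y - t) 0 * (y - a)) +
        (1 / ((n : ℝ) + 1)) ^ 2 * (y - a) ^ 2 := by
      funext y
      simp only [φ]
      ring
    rw [this]
    exact (i1.add (i2.const_mul _)).add (i3.const_mul _)
  have hconvx : ∀ n, ConvexOn ℝ (Ici a) (φ n) := by
    intro n
    have hlin : ∀ c e : ℝ, ConvexOn ℝ (Ici a) (fun y => c * (y - e)) := by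
      intro c e
      refine ⟨convex_Ici a, ?_⟩
      intro x _ y _ α β _ _ hαβ
      simp only [smul_eq_mul]
      have : α = 1 - β := by linarith
      rw [this]
      apply le_of_eq
      ring
    have hmax : ConvexOn ℝ (Ici a) (fun y => max (y - t) 0) := by
      have h1 : ConvexOn ℝ (Ici a) (fun y : ℝ => y - t) := by
        have := hlin 1 t
        simpa using this
      have h2 : ConvexOn ℝ (Ici a) (fun _ : ℝ => (0:ℝ)) := convexOn_const 0 (convex_Ici a)
      exact h1.sup h2
    exact hmax.add (hlin _ a)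
  refine isLUB_of_seq (plusCont_subset W a p) ?_
    (u := fun n => ratio p (W.map (φ n))) ?_ ?_
  · rintro r ⟨F, hF, rfl⟩
    have hq := hF.toInClass.quantile_nonneg hp0 hp
    rcases eq_or_lt_of_le hq with h1 | h1
    · unfold ratio valPlus
      rw [← h1, zero_div]
      apply div_nonneg (by linarith) (Real.sqrt_nonneg _)
    · obtain ⟨t', hat', hty', -, hle⟩ := plus_key h hF hp0 hp h1
      have htd' : (t' : EReal) < d := lt_trans (by exact_mod_cast hty') hypd
      refine le_trans ?_ (opt_max h hint hypd hopt hat' hty')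
      unfold ratio valPlus
      exact div_sqrt_le (by linarith) hF.pos (max_sq_pos h hint htd') hle
  · intro n
    exact ⟨W.map (φ n), push_plus h (hmono n) (hcont n) (hzero n) (hφint n) (hconvx n),
      push_noAtoms h (hmono n) (hcont n), rfl⟩
  · have heq : ∀ n, ratio p (W.map (φ n)) =
        (max (yp - t) 0 + (1 / ((n : ℝ) + 1)) * (yp - a)) /
        √(∫ y, (max (y - t) 0 + (1 / ((n : ℝ) + 1)) * (y - a)) ^ 2 ∂W) := by
      intro n
      rw [push_ratio h (hmono n) (hcont n) (hzero n) (hφint n) hp0 hp]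
    simp only [heq]
    have := tendsto_ratio (W := W) (f := fun y => max (y - t) 0) (g := fun y => y - a) (y := yp)
      i1 i2 i3 (max_sq_pos h hint htd)
    have hval : valPlus W yp t = max (yp - t) 0 / √(∫ y, (max (y - t) 0) ^ 2 ∂W) := by
      unfold valPlus
      rw [max_eq_left (by linarith)]
    rw [hval]
    exact this

lemma plus_inf (h : IsBase W a d) (hint : Integrable (fun y => y ^ 2) W) {p : ℝ} (hp0 : 0 < p)
    (hp : p < 1) :
    IsGLB (plusValues W a p) 0 ∧ IsGLB (plusValuesCont W a p) 0 := by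
  have hWp := h.prob
  set yp := wInv W a p with hyp
  have hypd : (yp : EReal) < d := wInv_lt_d h hp0.le hp
  have hay : a < yp := lt_wInv h hp0 hp
  let φ : ℕ → ℝ → ℝ := fun n y => ((n : ℝ) + 1) * max (y - yp) 0 + (y - a)
  have hmono : ∀ n, StrictMono (φ n) := by
    intro n x y hxy
    have h1 : ((n : ℝ) + 1) * max (x - yp) 0 ≤ ((n : ℝ) + 1) * max (y - yp) 0 :=
      mul_le_mul_of_nonneg_left (max_le_max (by linarith) le_rfl) (by positivity)
    exact add_lt_add_of_le_of_lt h1 (by linarith)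
  have hcont : ∀ n, Continuous (φ n) := fun n => by
    simp only [φ]; fun_prop
  have hzero : ∀ n, φ n a = 0 := by
    intro n
    simp only [φ]
    rw [max_eq_right (by linarith)]; simp
  have hgl : ∀ y, |y - a| ≤ (1 + |a|) * (1 + |y|) := by
    intro y
    rw [abs_sub_comm]
    exact growth_lin a y
  have i1 := int_max_sq h hint yp
  have i2 : Integrable (fun y => max (y - yp) 0 * (y - a)) W :=
    int_prod h hint (by fun_prop) (by fun_prop) (growth_max yp) hgl
  have i3 := int_lin_sq h hint a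
  have hφint : ∀ n, Integrable (fun y => φ n y ^ 2) W := by
    intro n
    have : (fun y => φ n y ^ 2) = fun y => ((n : ℝ) + 1) ^ 2 * (max (y - yp) 0) ^ 2 +
        2 * ((n : ℝ) + 1) * (max (y - yp) 0 * (y - a)) + (y - a) ^ 2 := by
      funext y
      simp only [φ]
      ring
    rw [this]
    exact ((i1.const_mul _).add (i2.const_mul _)).add i3
  have hconvx : ∀ n, ConvexOn ℝ (Ici a) (φ n) := by
    intro n
    have hlin : ∀ e : ℝ, ConvexOn ℝ (Ici a) (fun y => y - e) := by
      intro e
      refine ⟨convex_Ici a, ?_⟩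
      intro x _ y _ α β _ _ hαβ
      simp only [smul_eq_mul]
      have : α = 1 - β := by linarith
      rw [this]
      apply le_of_eq
      ring
    have hmax : ConvexOn ℝ (Ici a) (fun y => max (y - yp) 0) := by
      have h2 : ConvexOn ℝ (Ici a) (fun _ : ℝ => (0:ℝ)) := convexOn_const 0 (convex_Ici a)
      exact (hlin yp).sup h2
    exact (hmax.smul (by positivity : (0:ℝ) ≤ (n : ℝ) + 1)).add (hlin a)
  have hMpos := max_sq_pos h hint hypd
  refine isGLB_of_seq (plusCont_subset W a p) ?_
    (u := fun n => ratio p (W.map (φ n))) ?_ ?_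
  · rintro r ⟨F, hF, rfl⟩
    exact div_nonneg (hF.toInClass.quantile_nonneg hp0 hp) (Real.sqrt_nonneg _)
  · intro n
    exact ⟨W.map (φ n), push_plus h (hmono n) (hcont n) (hzero n) (hφint n) (hconvx n),
      push_noAtoms h (hmono n) (hcont n), rfl⟩
  · have hle : ∀ n : ℕ, ratio p (W.map (φ n)) ≤
        ((yp - a) / √(∫ y, (max (y - yp) 0) ^ 2 ∂W)) * (1 / ((n : ℝ) + 1)) := by
      intro n
      rw [push_ratio h (hmono n) (hcont n) (hzero n) (hφint n) hp0 hp]
      have e1 : φ n (wInv W a p) = yp - a := by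
        simp only [φ, ← hyp]
        simp
      rw [e1]
      have h1 : ((n : ℝ) + 1) ^ 2 * ∫ y, (max (y - yp) 0) ^ 2 ∂W ≤ ∫ y, φ n y ^ 2 ∂W := by
        rw [← integral_const_mul]
        apply integral_mono_ae (i1.const_mul _) (hφint n)
        filter_upwards [base_ae_ge h] with y hy
        simp only [φ]
        have h2 : 0 ≤ ((n : ℝ) + 1) * max (y - yp) 0 :=
          mul_nonneg (by positivity) (le_max_right _ _)
        have h3 : 0 ≤ y - a := by linarith
        nlinarith [mul_nonneg h2 h3]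
      have hpos2 : 0 < ∫ y, φ n y ^ 2 ∂W := lt_of_lt_of_le (by positivity) h1
      have h2 := div_sqrt_le (x := yp - a) (m := ∫ y, φ n y ^ 2 ∂W)
        (α := (yp - a) * (1 / ((n : ℝ) + 1))) (M := ∫ y, (max (y - yp) 0) ^ 2 ∂W)
        (mul_nonneg (by linarith) (by positivity)) hpos2 hMpos (by
          have h3 : (yp - a) ^ 2 * (1 / ((n : ℝ) + 1)) ^ 2 * (((n : ℝ) + 1) ^ 2 *
              ∫ y, (max (y - yp) 0) ^ 2 ∂W) ≤
              (yp - a) ^ 2 * (1 / ((n : ℝ) + 1)) ^ 2 * ∫ y, φ n y ^ 2 ∂W :=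
            mul_le_mul_of_nonneg_left h1 (by positivity)
          have h4 : (yp - a) ^ 2 * (1 / ((n : ℝ) + 1)) ^ 2 * (((n : ℝ) + 1) ^ 2 *
              ∫ y, (max (y - yp) 0) ^ 2 ∂W) = (yp - a) ^ 2 * ∫ y, (max (y - yp) 0) ^ 2 ∂W := by
            field_simp
          rw [h4] at h3
          rw [mul_pow]
          exact h3)
      refine h2.trans (le_of_eq ?_)
      ring
    have h0 : Tendsto (fun n : ℕ => ((yp - a) / √(∫ y, (max (y - yp) 0) ^ 2 ∂W)) *
        (1 / ((n : ℝ) + 1))) atTop (𝓝 0) := by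
      have := tendsto_one_div_add_atTop_nhds_zero_nat (𝕜 := ℝ) |>.const_mul
        ((yp - a) / √(∫ y, (max (y - yp) 0) ^ 2 ∂W))
      simpa using this
    refine squeeze_zero (fun n => ?_) hle h0
    have hF := push_plus h (hmono n) (hcont n) (hzero n) (hφint n) (hconvx n)
    exact div_nonneg (hF.toInClass.quantile_nonneg hp0 hp) (Real.sqrt_nonneg _)

end Pool.Agent.Q287.QB
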