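import Pool.Agent.Q287.QB4

/-! Quantile bounds in the convex transform order: the class `C⁻`. -/

namespace Pool.Agent.Q287.QB

open MeasureTheory ProbabilityTheory Set Filter Topology
open scoped Classical

variable {W F : Measure ℝ} {a : ℝ} {d : EReal}

/-- the set of values of the ratio over the class `C⁻` -/
def minusValues (W : Measure ℝ) (a p : ℝ) : Set ℝ := {r | ∃ F, CMinus W a F ∧ r = ratio p F}

/-- the set of values over the members of `C⁻` with a continuous distribution function -/
def minusValuesCont (W : Measure ℝ) (a p : ℝ) : Set ℝ :=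
  {r | ∃ F, CMinus W a F ∧ (∀ x, F {x} = 0) ∧ r = ratio p F}

/-- the set of values when atoms at the left endpoint are allowed -/
def minusValuesAtom (W : Measure ℝ) (a p : ℝ) : Set ℝ :=
  {r | ∃ F, CMinusAtom W a F ∧ r = ratio p F}

/-- the least upper bound for `C⁻` -/
noncomputable def supMinus (W : Measure ℝ) (a yp : ℝ) : ℝ := 1 / √(∫ y, (trunc a yp y) ^ 2 ∂W)

/-- the greatest lower bound for `C⁻` -/
noncomputable def infMinus (W : Measure ℝ) (a yp : ℝ) : ℝ :=
  if Integrable (fun y => y ^ 2) W then min 1 ((yp - a) / √(∫ y, (y - a) ^ 2 ∂W)) else 0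

lemma minusCont_subset (W : Measure ℝ) (a p : ℝ) : minusValuesCont W a p ⊆ minusValues W a p :=
  fun _ ⟨F, h1, _, h2⟩ => ⟨F, h1, h2⟩

/-- integrability of functions bounded on `[a, ∞)` -/
lemma int_bdd (h : IsBase W a d) {f : ℝ → ℝ} (hf : Continuous f) {C : ℝ}
    (hb : ∀ y, a ≤ y → |f y| ≤ C) : Integrable f W := by
  have := h.prob
  refine (integrable_const C).mono' hf.aestronglyMeasurable ?_
  filter_upwards [base_ae_ge h] with y hy
  exact hb y hy

/-- the bounded strictly increasing concave function `1 - exp(-c (y - a))` -/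
noncomputable def ex (a c y : ℝ) : ℝ := 1 - Real.exp (-(c * (y - a)))

lemma ex_cont (a c : ℝ) : Continuous (ex a c) := by unfold ex; fun_prop

lemma ex_zero (a c : ℝ) : ex a c a = 0 := by simp [ex]

lemma ex_strictMono (a : ℝ) {c : ℝ} (hc : 0 < c) : StrictMono (ex a c) := by
  intro x y hxy
  unfold ex
  have : Real.exp (-(c * (y - a))) < Real.exp (-(c * (x - a))) := by
    apply Real.exp_lt_exp.2
    have := mul_lt_mul_of_pos_left (show x - a < y - a by linarith) hc
    linarith
  linarith

lemma ex_nonneg {a c y : ℝ} (hc : 0 ≤ c) (hy : a ≤ y) : 0 ≤ ex a c y := by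
  unfold ex
  have : Real.exp (-(c * (y - a))) ≤ 1 := by
    apply Real.exp_le_one_iff.2
    have := mul_nonneg hc (sub_nonneg.2 hy)
    linarith
  linarith

lemma ex_le_one (a c y : ℝ) : ex a c y ≤ 1 := by
  unfold ex
  have := Real.exp_pos (-(c * (y - a)))
  linarith

lemma ex_concave (a c : ℝ) : ConcaveOn ℝ (Ici a) (ex a c) := by
  have h1 : ConvexOn ℝ (Ici a) (fun y => Real.exp (-(c * (y - a)))) := by
    refine ⟨convex_Ici a, ?_⟩
    intro x _ y _ α β hα hβ hαβ
    have h2 := convexOn_exp.2 (mem_univ (-(c * (x - a)))) (mem_univ (-(c * (y - a)))) hα hβ hαβ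
    simp only [smul_eq_mul] at h2 ⊢
    refine le_trans (le_of_eq ?_) h2
    congr 1
    have : α = 1 - β := by linarith
    rw [this]
    ring
  have h3 := (concaveOn_const (1:ℝ) (convex_Ici a)).sub h1
  exact h3

lemma trunc_cont (a yp : ℝ) : Continuous (trunc a yp) := by unfold trunc; fun_prop

lemma trunc_bound {a yp y : ℝ} (hay : a < yp) (hy : a ≤ y) : |trunc a yp y| ≤ 1 := by
  unfold trunc
  rw [abs_of_nonneg (le_min (div_nonneg (by linarith) (by linarith)) zero_le_one)]
  exact min_le_right _ _

lemma ex_bound {a c y : ℝ} (hc : 0 ≤ c) (hy : a ≤ y) : |ex a c y| ≤ 1 := by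
  rw [abs_of_nonneg (ex_nonneg hc hy)]
  exact ex_le_one a c y

lemma lin_concave (c e : ℝ) : ConcaveOn ℝ (Ici a) (fun y => c * (y - e)) := by
  refine ⟨convex_Ici a, ?_⟩
  intro x _ y _ α β _ _ hαβ
  simp only [smul_eq_mul]
  have : α = 1 - β := by linarith
  rw [this]
  apply le_of_eq
  ring

lemma min_concave {c e b : ℝ} : ConcaveOn ℝ (Ici a) (fun y => min (c * (y - e)) b) :=
  (lin_concave c e).inf (concaveOn_const b (convex_Ici a))

lemma minus_sup (h : IsBase W a d) {p : ℝ} (hp0 : 0 < p) (hp : p < 1) :
    IsLUB (minusValues W a p) (supMinus W a (wInv W a p)) ∧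
    IsLUB (minusValuesCont W a p) (supMinus W a (wInv W a p)) := by
  have hWp := h.prob
  set yp := wInv W a p with hyp
  have hypd : (yp : EReal) < d := wInv_lt_d h hp0.le hp
  have hay : a < yp := lt_wInv h hp0 hp
  let φ : ℕ → ℝ → ℝ := fun n y => trunc a yp y + (1 / ((n : ℝ) + 1)) * ex a 1 y
  have htm : Monotone (trunc a yp) := by
    intro x y hxy
    unfold trunc
    exact min_le_min (div_le_div_of_nonneg_right (by linarith) (by linarith)) le_rfl
  have hmono : ∀ n, StrictMono (φ n) := by
    intro n x y hxy
    have h2 : (1 / ((n : ℝ) + 1)) * ex a 1 x < (1 / ((n : ℝ) + 1)) * ex a 1 y :=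
      mul_lt_mul_of_pos_left (ex_strictMono a one_pos hxy) (by positivity)
    exact add_lt_add_of_le_of_lt (htm hxy.le) h2
  have hcont : ∀ n, Continuous (φ n) := fun n =>
    (trunc_cont a yp).add ((ex_cont a 1).const_mul _)
  have hzero : ∀ n, φ n a = 0 := by
    intro n
    simp only [φ]
    rw [ex_zero]
    simp [trunc]
  have i1 : Integrable (fun y => trunc a yp y ^ 2) W :=
    int_bdd h ((trunc_cont a yp).pow 2) (C := 1) (fun y hy => by
      rw [abs_pow]; exact pow_le_one₀ (abs_nonneg _) (trunc_bound hay hy))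
  have i2 : Integrable (fun y => trunc a yp y * ex a 1 y) W :=
    int_bdd h ((trunc_cont a yp).mul (ex_cont a 1)) (C := 1) (fun y hy => by
      rw [abs_mul]
      exact mul_le_one₀ (trunc_bound hay hy) (abs_nonneg _) (ex_bound zero_le_one hy))
  have i3 : Integrable (fun y => ex a 1 y ^ 2) W :=
    int_bdd h ((ex_cont a 1).pow 2) (C := 1) (fun y hy => by
      rw [abs_pow]; exact pow_le_one₀ (abs_nonneg _) (ex_bound zero_le_one hy))
  have hφint : ∀ n, Integrable (fun y => φ n y ^ 2) W := by
    intro n
    have : (fun y => φ n y ^ 2) = fun y => trunc a yp y ^ 2 +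
        2 * (1 / ((n : ℝ) + 1)) * (trunc a yp y * ex a 1 y) +
        (1 / ((n : ℝ) + 1)) ^ 2 * ex a 1 y ^ 2 := by
      funext y
      simp only [φ]
      ring
    rw [this]
    exact (i1.add (i2.const_mul _)).add (i3.const_mul _)
  have hconc : ∀ n, ConcaveOn ℝ (Ici a) (φ n) := by
    intro n
    have h1 : ConcaveOn ℝ (Ici a) (trunc a yp) := by
      have : trunc a yp = fun y => min ((1 / (yp - a)) * (y - a)) 1 := by
        funext y
        unfold trunc
        congr 1
        ring
      rw [this]
      exact min_concave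
    exact h1.add ((ex_concave a 1).smul (by positivity : (0:ℝ) ≤ 1 / ((n : ℝ) + 1)))
  have hTpos : 0 < ∫ y, trunc a yp y ^ 2 ∂W := by
    apply integral_sq_pos h h.lt i1
    intro y hy
    unfold trunc
    exact (lt_min (div_pos (by linarith) (by linarith)) one_pos).ne'
  refine isLUB_of_seq (minusCont_subset W a p) ?_
    (u := fun n => ratio p (W.map (φ n))) ?_ ?_
  · rintro r ⟨F, hF, rfl⟩
    have hle := minus_upper h hF hp0 hp
    unfold ratio supMinus
    apply div_sqrt_le zero_le_one hF.pos hTpos
    rw [one_pow, one_mul]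
    exact hle
  · intro n
    exact ⟨W.map (φ n), push_minus h (hmono n) (hcont n) (hzero n) (hφint n) (hconc n),
      push_noAtoms h (hmono n) (hcont n), rfl⟩
  · have heq : ∀ n, ratio p (W.map (φ n)) =
        (trunc a yp yp + (1 / ((n : ℝ) + 1)) * ex a 1 yp) /
        √(∫ y, (trunc a yp y + (1 / ((n : ℝ) + 1)) * ex a 1 y) ^ 2 ∂W) := by
      intro n
      rw [push_ratio h (hmono n) (hcont n) (hzero n) (hφint n) hp0 hp]
    simp only [heq]
    have := tendsto_ratio (W := W) (f := trunc a yp) (g := ex a 1) (y := yp) i1 i2 i3 hTpos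
    have hval : supMinus W a yp = trunc a yp yp / √(∫ y, trunc a yp y ^ 2 ∂W) := by
      unfold supMinus
      congr 1
      unfold trunc
      rw [div_self (by linarith : yp - a ≠ 0), min_self]
    rw [hval]
    exact this

/-- a sequence of members of `C⁻` with ratio tending to one -/
lemma minus_seq_one (h : IsBase W a d) {p : ℝ} (hp0 : 0 < p) (hp : p < 1) :
    ∃ u : ℕ → ℝ, (∀ n, u n ∈ minusValuesCont W a p) ∧ Tendsto u atTop (𝓝 1) := by
  have hWp := h.prob
  set yp := wInv W a p with hyp
  have hay : a < yp := lt_wInv h hp0 hp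
  let φ : ℕ → ℝ → ℝ := fun n y => ex a ((n : ℝ) + 1) y
  have hmono : ∀ n, StrictMono (φ n) := fun n => ex_strictMono a (by positivity)
  have hcont : ∀ n, Continuous (φ n) := fun n => ex_cont a _
  have hzero : ∀ n, φ n a = 0 := fun n => ex_zero a _
  have hφint : ∀ n, Integrable (fun y => φ n y ^ 2) W := fun n =>
    int_bdd h ((ex_cont a _).pow 2) (C := 1) (fun y hy => by
      rw [abs_pow]; exact pow_le_one₀ (abs_nonneg _) (ex_bound (by positivity) hy))
  have hconc : ∀ n, ConcaveOn ℝ (Ici a) (φ n) := fun n => ex_concave a _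
  refine ⟨fun n => ratio p (W.map (φ n)), fun n => ⟨W.map (φ n),
    push_minus h (hmono n) (hcont n) (hzero n) (hφint n) (hconc n),
      push_noAtoms h (hmono n) (hcont n), rfl⟩, ?_⟩
  have hpt : ∀ y, a < y → Tendsto (fun n => φ n y) atTop (𝓝 1) := by
    intro y hy
    have h1 : Tendsto (fun n : ℕ => ((n : ℝ) + 1) * (y - a)) atTop atTop :=
      (tendsto_natCast_atTop_atTop.atTop_add tendsto_const_nhds).atTop_mul_const (by linarith)
    have h2 : Tendsto (fun n : ℕ => Real.exp (-(((n : ℝ) + 1) * (y - a)))) atTop (𝓝 0) :=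
      Real.tendsto_exp_neg_atTop_nhds_zero.comp h1
    have h3 := h2.const_sub 1
    rw [sub_zero] at h3
    exact h3
  have hint : Tendsto (fun n => ∫ y, φ n y ^ 2 ∂W) atTop (𝓝 (∫ _, (1:ℝ) ∂W)) := by
    apply tendsto_integral_of_dominated_convergence (fun _ => (1:ℝ))
    · intro n
      exact (hφint n).aestronglyMeasurable
    · exact integrable_const _
    · intro n
      filter_upwards [base_ae_ge h] with y hy
      rw [Real.norm_eq_abs, abs_pow]
      exact pow_le_one₀ (abs_nonneg _) (ex_bound (by positivity) hy)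
    · have hne : ∀ᵐ y ∂W, y ≠ a := by
        rw [ae_iff]
        simpa using h.noAtoms a
      filter_upwards [base_ae_ge h, hne] with y hy hy2
      have h1 := hpt y (lt_of_le_of_ne hy (Ne.symm hy2))
      have := h1.pow 2
      simpa using this
  have heq : ∀ n, ratio p (W.map (φ n)) = φ n yp / √(∫ y, φ n y ^ 2 ∂W) := fun n =>
    push_ratio h (hmono n) (hcont n) (hzero n) (hφint n) hp0 hp
  simp only [heq]
  have h1 : ∫ _, (1:ℝ) ∂W = 1 := by simp
  rw [h1] at hint
  have h2 : Tendsto (fun n => φ n yp / √(∫ y, φ n y ^ 2 ∂W)) atTop (𝓝 (1 / √1)) :=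
    (hpt yp hay).div hint.sqrt (by simp)
  rw [Real.sqrt_one, div_one] at h2
  exact h2

lemma minus_inf (h : IsBase W a d) {p : ℝ} (hp0 : 0 < p) (hp : p < 1) :
    IsGLB (minusValues W a p) (infMinus W a (wInv W a p)) ∧
    IsGLB (minusValuesCont W a p) (infMinus W a (wInv W a p)) := by
  have hWp := h.prob
  set yp := wInv W a p with hyp
  have hypd : (yp : EReal) < d := wInv_lt_d h hp0.le hp
  have hay : a < yp := lt_wInv h hp0 hp
  unfold infMinus
  split_ifs with hint
  · -- finite second moment
    have hEpos : 0 < ∫ y, (y - a) ^ 2 ∂W := by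
      apply integral_sq_pos h h.lt (int_lin_sq h hint a)
      intro y hy
      linarith
    have hlb : ∀ r ∈ minusValues W a p, min 1 ((yp - a) / √(∫ y, (y - a) ^ 2 ∂W)) ≤ r := by
      rintro r ⟨F, hF, rfl⟩
      have hq := hF.quantile_pos hp0 hp
      have hle := minus_lower h hF hp0 hp hint
      unfold ratio
      rcases le_total ((∫ y, (y - a) ^ 2 ∂W) / (yp - a) ^ 2) 1 with h1 | h1
      · rw [max_eq_left h1, mul_one] at hle
        refine (min_le_left _ _).trans ?_
        rw [le_div_iff₀ (Real.sqrt_pos.2 hF.pos), one_mul]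
        exact Real.sqrt_le_iff.2 ⟨hq.le, hle⟩
      · rw [max_eq_right h1] at hle
        refine (min_le_right _ _).trans ?_
        apply div_sqrt_le hq.le hEpos hF.pos
        have h2 : (yp - a) ^ 2 * ∫ x, x ^ 2 ∂F ≤ (yp - a) ^ 2 *
            (quantile F p ^ 2 * ((∫ y, (y - a) ^ 2 ∂W) / (yp - a) ^ 2)) :=
          mul_le_mul_of_nonneg_left hle (by positivity)
        refine h2.trans (le_of_eq ?_)
        have : yp - a ≠ 0 := by linarith
        field_simp
    -- the linear member
    have hlin : (yp - a) / √(∫ y, (y - a) ^ 2 ∂W) ∈ minusValuesCont W a p := by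
      have hm : StrictMono (fun y : ℝ => y - a) := fun x y hxy => by simpa using hxy
      have hc : Continuous (fun y : ℝ => y - a) := by fun_prop
      have h0 : (fun y : ℝ => y - a) a = 0 := by simp
      have hi := int_lin_sq h hint a
      have hconc : ConcaveOn ℝ (Ici a) (fun y : ℝ => y - a) := by
        have := lin_concave (a := a) 1 a
        simpa using this
      refine ⟨W.map (fun y : ℝ => y - a), push_minus h hm hc h0 hi hconc, push_noAtoms h hm hc, ?_⟩
      rw [push_ratio h hm hc h0 hi hp0 hp]
    obtain ⟨u, hu, hlim⟩ := minus_seq_one h hp0 hp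
    rcases le_total 1 ((yp - a) / √(∫ y, (y - a) ^ 2 ∂W)) with h1 | h1
    · rw [min_eq_left h1] at hlb ⊢
      exact isGLB_of_seq (minusCont_subset W a p) hlb hu hlim
    · rw [min_eq_right h1] at hlb ⊢
      exact isGLB_of_seq (minusCont_subset W a p) hlb
        (u := fun _ => (yp - a) / √(∫ y, (y - a) ^ 2 ∂W)) (fun _ => hlin) tendsto_const_nhds
  · -- infinite second moment
    have hlb : ∀ r ∈ minusValues W a p, 0 ≤ r := by
      rintro r ⟨F, hF, rfl⟩
      exact div_nonneg (hF.toInClass.quantile_nonneg hp0 hp) (Real.sqrt_nonneg _)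
    let φ : ℕ → ℝ → ℝ := fun n y => min (y - a) (n : ℝ) + ex a 1 y
    have hmono : ∀ n, StrictMono (φ n) := by
      intro n x y hxy
      exact add_lt_add_of_le_of_lt (min_le_min (by linarith) le_rfl)
        (ex_strictMono a one_pos hxy)
    have hcont : ∀ n, Continuous (φ n) := fun n => by
      have := ex_cont a 1
      simp only [φ]
      fun_prop
    have hzero : ∀ n, φ n a = 0 := by
      intro n
      simp only [φ]
      rw [ex_zero]
      simp
    have hbd : ∀ n : ℕ, ∀ y, a ≤ y → 0 ≤ min (y - a) (n : ℝ) ∧ min (y - a) (n : ℝ) ≤ n := by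
      intro n y hy
      exact ⟨le_min (by linarith) (Nat.cast_nonneg n), min_le_right _ _⟩
    have hφint : ∀ n, Integrable (fun y => φ n y ^ 2) W := by
      intro n
      refine int_bdd h ((hcont n).pow 2) (C := ((n : ℝ) + 1) ^ 2) (fun y hy => ?_)
      rw [abs_pow]
      apply pow_le_pow_left₀ (abs_nonneg _)
      have h1 := hbd n y hy
      have h2 := ex_nonneg (c := 1) zero_le_one hy
      have h3 := ex_le_one a 1 y
      rw [abs_of_nonneg (add_nonneg h1.1 h2)]
      exact add_le_add h1.2 h3
    have hconc : ∀ n, ConcaveOn ℝ (Ici a) (φ n) := by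
      intro n
      have h1 : ConcaveOn ℝ (Ici a) (fun y : ℝ => min (y - a) (n : ℝ)) := by
        have := min_concave (a := a) (c := 1) (e := a) (b := (n : ℝ))
        simpa using this
      exact h1.add (ex_concave a 1)
    have hmem : ∀ n, ratio p (W.map (φ n)) ∈ minusValuesCont W a p := fun n =>
      ⟨W.map (φ n), push_minus h (hmono n) (hcont n) (hzero n) (hφint n) (hconc n),
        push_noAtoms h (hmono n) (hcont n), rfl⟩
    -- no positive lower bound
    have hno : ∀ B, 0 < B → ∃ n, ratio p (W.map (φ n)) < B := by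
      intro B hB
      by_contra hcon
      push Not at hcon
      have hyb : 0 < yp - a + 1 := by linarith
      have hsq : ∀ n, ∫ y, φ n y ^ 2 ∂W ≤ ((yp - a + 1) / B) ^ 2 := by
        intro n
        have h1 := hcon n
        rw [push_ratio h (hmono n) (hcont n) (hzero n) (hφint n) hp0 hp] at h1
        have hpos : 0 < ∫ y, φ n y ^ 2 ∂W := by
          have := (push_minus h (hmono n) (hcont n) (hzero n) (hφint n) (hconc n)).pos
          rwa [push_integral (hcont n)] at this
        rw [le_div_iff₀ (Real.sqrt_pos.2 hpos)] at h1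
        have h2 : φ n (wInv W a p) ≤ yp - a + 1 := by
          have h3 : min (yp - a) (n : ℝ) ≤ yp - a := min_le_left _ _
          have h4 := ex_le_one a 1 yp
          exact add_le_add h3 h4
        have h3 : √(∫ y, φ n y ^ 2 ∂W) ≤ (yp - a + 1) / B := by
          rw [le_div_iff₀ hB]
          linarith
        exact (Real.sqrt_le_iff.1 h3).2
      apply hint
      -- monotone convergence
      have hlim : Tendsto (fun n : ℕ => ∫⁻ y, ENNReal.ofReal ((max (min (y - a) (n : ℝ)) 0) ^ 2) ∂W)
          atTop (𝓝 (∫⁻ y, ENNReal.ofReal ((max (y - a) 0) ^ 2) ∂W)) := by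
        apply lintegral_tendsto_of_tendsto_of_monotone
        · intro n
          fun_prop
        · filter_upwards with y
          intro n m hnm
          apply ENNReal.ofReal_le_ofReal
          apply pow_le_pow_left₀ (le_max_right _ _)
          apply max_le_max _ le_rfl
          exact min_le_min le_rfl (by exact_mod_cast hnm)
        · filter_upwards with y
          apply tendsto_const_nhds.congr'
          obtain ⟨N, hN⟩ := exists_nat_gt (y - a)
          filter_upwards [eventually_ge_atTop N] with n hn
          have : y - a ≤ (n : ℝ) := hN.le.trans (by exact_mod_cast hn)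
          rw [min_eq_left this]
      have hbound : ∀ n : ℕ, ∫⁻ y, ENNReal.ofReal ((max (min (y - a) (n : ℝ)) 0) ^ 2) ∂W ≤
          ENNReal.ofReal (((yp - a + 1) / B) ^ 2) := by
        intro n
        calc ∫⁻ y, ENNReal.ofReal ((max (min (y - a) (n : ℝ)) 0) ^ 2) ∂W
            ≤ ∫⁻ y, ENNReal.ofReal (φ n y ^ 2) ∂W := by
              apply lintegral_mono_ae
              filter_upwards [base_ae_ge h] with y hy
              apply ENNReal.ofReal_le_ofReal
              have h1 := hbd n y hy
              have h2 := ex_nonneg (c := 1) zero_le_one hy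
              rw [max_eq_left h1.1]
              apply pow_le_pow_left₀ h1.1
              simp only [φ]
              linarith
          _ = ENNReal.ofReal (∫ y, φ n y ^ 2 ∂W) :=
              (ofReal_integral_eq_lintegral_ofReal (hφint n) (ae_of_all _ fun x => sq_nonneg _)).symm
          _ ≤ _ := ENNReal.ofReal_le_ofReal (hsq n)
      have hfin := le_of_tendsto' hlim hbound
      have hi : Integrable (fun y => (max (y - a) 0) ^ 2) W := by
        refine ⟨by fun_prop, ?_⟩
        rw [hasFiniteIntegral_iff_ofReal (ae_of_all _ fun x => sq_nonneg _)]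
        exact lt_of_le_of_lt hfin ENNReal.ofReal_lt_top
      have h1 : Integrable (fun y => 2 * (max (y - a) 0) ^ 2 + 2 * a ^ 2) W :=
        (hi.const_mul 2).add (integrable_const _)
      refine h1.mono' (by fun_prop) ?_
      filter_upwards [base_ae_ge h] with y hy
      rw [Real.norm_eq_abs, abs_of_nonneg (sq_nonneg y), max_eq_left (by linarith)]
      nlinarith [sq_nonneg (y - 2 * a)]
    refine ⟨⟨hlb, ?_⟩, ⟨fun r hr => hlb r (minusCont_subset W a p hr), ?_⟩⟩
    · intro B hB
      by_contra hcon
      push Not at hcon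
      obtain ⟨n, hn⟩ := hno B hcon
      exact absurd (hB (minusCont_subset W a p (hmem n))) (not_le.2 hn)
    · intro B hB
      by_contra hcon
      push Not at hcon
      obtain ⟨n, hn⟩ := hno B hcon
      exact absurd (hB (hmem n)) (not_le.2 hn)

/-! ### Atoms at the left endpoint allowed -/

/-- `min ((y - t)₊ / c) 1` -/
noncomputable def ramp (t c y : ℝ) : ℝ := min (max (y - t) 0 / c) 1

lemma ramp_cont (t c : ℝ) : Continuous (ramp t c) := by unfold ramp; fun_prop

lemma ramp_nonneg {t c y : ℝ} (hc : 0 < c) : 0 ≤ ramp t c y :=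
  le_min (div_nonneg (le_max_right _ _) hc.le) zero_le_one

lemma ramp_le_one (t c y : ℝ) : ramp t c y ≤ 1 := min_le_right _ _

lemma ramp_cdf (h : IsBase W a d) {t c x : ℝ} (hc : 0 < c) (hx0 : 0 ≤ x) (hx1 : x < 1) :
    cdf (W.map (ramp t c)) x = cdf W (t + c * x) := by
  have hWp := h.prob
  have hp : IsProbabilityMeasure (W.map (ramp t c)) :=
    Measure.isProbabilityMeasure_map (ramp_cont t c).measurable.aemeasurable
  rw [cdf_eq_real, cdf_eq_real, measureReal_def, measureReal_def,
    Measure.map_apply (ramp_cont t c).measurable measurableSet_Iic]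
  congr 2
  ext y
  simp only [mem_preimage, mem_Iic, ramp, min_le_iff]
  constructor
  · rintro (h1 | h1)
    · rw [div_le_iff₀ hc] at h1
      have := le_max_left (y - t) 0
      linarith
    · linarith
  · intro h1
    left
    rw [div_le_iff₀ hc]
    apply max_le
    · linarith
    · positivity

lemma ramp_cdf_one (h : IsBase W a d) {t c x : ℝ} (hx1 : 1 ≤ x) :
    cdf (W.map (ramp t c)) x = 1 := by
  have hWp := h.prob
  have hp : IsProbabilityMeasure (W.map (ramp t c)) :=
    Measure.isProbabilityMeasure_map (ramp_cont t c).measurable.aemeasurable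
  rw [cdf_eq_real, measureReal_def,
    Measure.map_apply (ramp_cont t c).measurable measurableSet_Iic]
  have : ramp t c ⁻¹' (Iic x) = univ := by
    ext y
    simp only [mem_preimage, mem_Iic, mem_univ, iff_true]
    exact (ramp_le_one t c y).trans hx1
  rw [this]; simp

lemma ramp_mem (h : IsBase W a d) {t c : ℝ} (hat : a ≤ t) (hc : 0 < c)
    (htc : ((t + c : ℝ) : EReal) < d) : CMinusAtom W a (W.map (ramp t c)) := by
  have hWp := h.prob
  have hp : IsProbabilityMeasure (W.map (ramp t c)) :=
    Measure.isProbabilityMeasure_map (ramp_cont t c).measurable.aemeasurable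
  have hmeas := (ramp_cont t c).measurable
  have hi : Integrable (fun y => ramp t c y ^ 2) W :=
    int_bdd h ((ramp_cont t c).pow 2) (C := 1) (fun y _ => by
      rw [abs_pow, abs_of_nonneg (ramp_nonneg hc)]
      exact pow_le_one₀ (ramp_nonneg hc) (ramp_le_one t c y))
  refine ⟨⟨hp, ?_, ?_, ?_, ?_⟩, ?_⟩
  · rw [Measure.map_apply hmeas measurableSet_Iio]
    have : ramp t c ⁻¹' (Iio 0) = ∅ := by
      ext y
      simp only [mem_preimage, mem_Iio, mem_empty_iff_false, iff_false, not_lt]
      exact ramp_nonneg hc
    rw [this]; simp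
  · intro ε hε
    set x := min (ε / 2) (1 / 2) with hx
    have hx0 : 0 < x := lt_min (by linarith) (by norm_num)
    have hx1 : x < 1 := lt_of_le_of_lt (min_le_right _ _) (by norm_num)
    have h2 : 0 < (W.map (ramp t c)) (Iic x) := by
      rw [← ofReal_cdf, ramp_cdf h hc hx0.le hx1, ENNReal.ofReal_pos]
      apply h.cdf_pos
      have := mul_pos hc hx0
      linarith
    refine lt_of_lt_of_le h2 (measure_mono (fun z hz => ?_))
    have h3 : x ≤ ε / 2 := min_le_left _ _
    have h4 : z ≤ x := hz
    rw [mem_Iio]
    linarith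
  · exact (integrable_map_measure (μ := W) (f := ramp t c) (g := fun x : ℝ => x ^ 2)
      (by fun_prop) hmeas.aemeasurable).2 hi
  · rw [push_integral (ramp_cont t c)]
    have htd : (t : EReal) < d := lt_of_le_of_lt (by exact_mod_cast (by linarith : t ≤ t + c)) htc
    apply integral_sq_pos h htd hi
    intro y hy
    unfold ramp
    rw [max_eq_left (by linarith)]
    exact (lt_min (div_pos (by linarith) hc) one_pos).ne'
  · have hG : ∀ x ∈ suppInt (W.map (ramp t c)), wInvF W a (W.map (ramp t c)) x = t + c * x := by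
      rintro x ⟨hx0, hx1⟩
      have hx1' : x < 1 := by
        by_contra hcon
        rw [ramp_cdf_one h (not_lt.1 hcon)] at hx1
        exact lt_irrefl _ hx1
      unfold wInvF
      rw [ramp_cdf h hc hx0 hx1']
      apply wInv_cdf h
      · have := mul_nonneg hc.le hx0
        linarith
      · refine lt_of_le_of_lt ?_ htc
        have h5 : c * x ≤ c * 1 := mul_le_mul_of_nonneg_left hx1'.le hc.le
        exact_mod_cast (by linarith : t + c * x ≤ t + c)
    refine ⟨suppInt_convex _, ?_⟩
    intro x hx x' hx' α β hα hβ hαβ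
    rw [hG x hx, hG x' hx', hG _ (suppInt_convex _ hx hx' hα hβ hαβ)]
    simp only [smul_eq_mul]
    have : α = 1 - β := by linarith
    rw [this]
    apply le_of_eq
    ring

theorem atom_sup (h : IsBase W a d) {p : ℝ} (hp0 : 0 < p) (hp : p < 1) :
    IsLUB (minusValuesAtom W a p) (1 / √(1 - p)) := by
  have hWp := h.prob
  set yp := wInv W a p with hyp
  have hypd : (yp : EReal) < d := wInv_lt_d h hp0.le hp
  have hay : a < yp := lt_wInv h hp0 hp
  constructor
  · rintro r ⟨F, hF, rfl⟩
    have hle := atom_upper hF.toInClass hp0 hp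
    unfold ratio
    apply div_sqrt_le zero_le_one hF.pos (by linarith)
    rw [one_pow, one_mul]
    exact hle
  · intro B hB
    -- the ramps ending at `yp`
    have hval : ∀ t, a ≤ t → t < yp → 1 / √(1 - cdf W t) ≤ B := by
      intro t hat hty
      have hc : 0 < yp - t := by linarith
      have hmem := ramp_mem h hat hc (by
        have : t + (yp - t) = yp := by ring
        rw [this]; exact hypd)
      have hq : quantile (W.map (ramp t (yp - t))) p = 1 := by
        refine le_antisymm ?_ ?_
        · apply csInf_le (qSet_bdd _ hp0)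
          change p ≤ cdf _ 1
          rw [ramp_cdf_one h le_rfl]; exact hp.le
        · apply le_csInf (qSet_nonempty _ hp)
          intro x hx
          have hx' : p ≤ cdf (W.map (ramp t (yp - t))) x := hx
          by_contra hcon
          push Not at hcon
          have hx0 : 0 ≤ x := by
            by_contra h1
            rw [hmem.toInClass.cdf_neg (not_le.1 h1)] at hx'
            linarith
          rw [ramp_cdf h hc hx0 hcon] at hx'
          have h1 : t + (yp - t) * x < yp := by
            have := mul_lt_mul_of_pos_left hcon hc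
            linarith
          have h2 : a ≤ t + (yp - t) * x := by
            have := mul_nonneg hc.le hx0
            linarith
          have h3 := (wInv_le_iff h hp h2).2 hx'
          linarith
      have hi : Integrable (fun y => ramp t (yp - t) y ^ 2) W :=
        int_bdd h ((ramp_cont t (yp - t)).pow 2) (C := 1) (fun y _ => by
          rw [abs_pow, abs_of_nonneg (ramp_nonneg hc)]
          exact pow_le_one₀ (ramp_nonneg hc) (ramp_le_one t _ y))
      have hM : ∫ x, x ^ 2 ∂(W.map (ramp t (yp - t))) ≤ 1 - cdf W t := by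
        rw [push_integral (ramp_cont t (yp - t))]
        calc ∫ y, ramp t (yp - t) y ^ 2 ∂W ≤ ∫ y, (Ioi t).indicator (fun _ => (1:ℝ)) y ∂W := by
              apply integral_mono hi ((integrable_const _).indicator measurableSet_Ioi)
              intro y
              change ramp t (yp - t) y ^ 2 ≤ (Ioi t).indicator (fun _ => (1:ℝ)) y
              rw [indicator_apply]
              split_ifs with h5
              · exact pow_le_one₀ (ramp_nonneg hc) (ramp_le_one t _ y)
              · have : y ≤ t := not_lt.1 h5
                unfold ramp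
                rw [max_eq_right (by linarith)]
                simp
          _ = W.real (Ioi t) := by
              rw [integral_indicator measurableSet_Ioi]
              simp [measureReal_def]
          _ = 1 - cdf W t := by
              rw [measureReal_def, measure_Ioi, ENNReal.toReal_ofReal]
              have := cdf_le_one W t
              linarith
      have hr := hB ⟨_, hmem, rfl⟩
      refine le_trans ?_ hr
      unfold ratio
      rw [hq]
      apply one_div_le_one_div_of_le (Real.sqrt_pos.2 hmem.pos)
      exact Real.sqrt_le_sqrt hM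
    have hlim : Tendsto (fun t => 1 / √(1 - cdf W t)) (𝓝[<] yp) (𝓝 (1 / √(1 - cdf W yp))) := by
      have hc : ContinuousAt (fun t => 1 / √(1 - cdf W t)) yp := by
        have h1 := h.continuous
        apply ContinuousAt.div
        · fun_prop
        · fun_prop
        · have h2 : cdf W yp < 1 := h.cdf_lt_one hypd
          exact (Real.sqrt_pos.2 (by linarith)).ne'
      exact hc.tendsto.mono_left nhdsWithin_le_nhds
    rw [cdf_wInv h hp0.le hp] at hlim
    refine le_of_tendsto hlim ?_
    have h4 : ∀ᶠ z in 𝓝[<] yp, a < z := (eventually_gt_nhds hay).filter_mono nhdsWithin_le_nhds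
    filter_upwards [h4, self_mem_nhdsWithin] with t ht1 ht2
    exact hval t ht1.le ht2

theorem atom_inf (h : IsBase W a d) {p : ℝ} (hp0 : 0 < p) (hp : p < 1) :
    IsLeast (minusValuesAtom W a p) 0 := by
  have hWp := h.prob
  set yp := wInv W a p with hyp
  have hypd : (yp : EReal) < d := wInv_lt_d h hp0.le hp
  have hay : a < yp := lt_wInv h hp0 hp
  constructor
  · obtain ⟨z, hz1, hz2⟩ := EReal.lt_iff_exists_real_btwn.1 hypd
    have hyz : yp < z := by exact_mod_cast hz1
    have hmem := ramp_mem h (t := yp) (c := z - yp) hay.le (by linarith) (by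
      have : yp + (z - yp) = z := by ring
      rw [this]; exact hz2)
    refine ⟨_, hmem, ?_⟩
    have hq : quantile (W.map (ramp yp (z - yp))) p = 0 := by
      refine le_antisymm ?_ (hmem.toInClass.quantile_nonneg hp0 hp)
      apply csInf_le (qSet_bdd _ hp0)
      change p ≤ cdf _ 0
      rw [ramp_cdf h (by linarith) le_rfl one_pos, mul_zero, add_zero, cdf_wInv h hp0.le hp]
    unfold ratio
    rw [hq, zero_div]
  · rintro r ⟨F, hF, rfl⟩
    exact div_nonneg (hF.toInClass.quantile_nonneg hp0 hp) (Real.sqrt_nonneg _)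

end Pool.Agent.Q287.QB
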