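import Mathlib

/-! The 3-regular tree as a graph on words. -/

namespace Pool.Agent.Q287.T3

open SimpleGraph

/-- The vertices: words in three letters in which no two consecutive letters are equal. -/
abbrev V : Type := {l : List (Fin 3) // l.IsChain (· ≠ ·)}

/-- The empty word, the root of the tree. -/
def root : V := ⟨[], by simp⟩

/-- The graph: a word is joined to the words obtained by writing one more letter in front of it. -/
def T : SimpleGraph V where
  Adj x y := ∃ a : Fin 3, y.1 = a :: x.1 ∨ x.1 = a :: y.1
  symm := ⟨by
    rintro x y ⟨a, h | h⟩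
    · exact ⟨a, Or.inr h⟩
    · exact ⟨a, Or.inl h⟩⟩
  loopless := ⟨by
    rintro x ⟨a, h | h⟩ <;> exact absurd (congrArg List.length h) (by simp)⟩

lemma adj_iff {x y : V} : T.Adj x y ↔ ∃ a : Fin 3, y.1 = a :: x.1 ∨ x.1 = a :: y.1 := Iff.rfl

/-- The one-letter word. -/
def single (i : Fin 3) : V := ⟨[i], by simp⟩

lemma adj_root_iff {y : V} : T.Adj root y ↔ ∃ i, y = single i := by
  constructor
  · rintro ⟨a, h | h⟩
    · exact ⟨a, Subtype.ext (by simpa [root, single] using h)⟩
    · simp [root] at h
  · rintro ⟨i, rfl⟩
    exact ⟨i, Or.inl rfl⟩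

/-! ### Letter permutations -/

/-- the automorphism permuting the letters -/
def permIso (σ : Equiv.Perm (Fin 3)) : T ≃g T where
  toFun x := ⟨x.1.map σ, by
    rw [List.isChain_map]
    exact x.2.imp (fun a b h => fun h' => h (σ.injective h'))⟩
  invFun x := ⟨x.1.map σ.symm, by
    rw [List.isChain_map]
    exact x.2.imp (fun a b h => fun h' => h (σ.symm.injective h'))⟩
  left_inv x := by
    apply Subtype.ext
    simp
  right_inv x := by
    apply Subtype.ext
    simp
  map_rel_iff' := by
    intro x y
    simp only [Equiv.coe_fn_mk, adj_iff]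
    constructor
    · rintro ⟨a, h | h⟩
      · refine ⟨σ.symm a, Or.inl ?_⟩
        have := congrArg (List.map σ.symm) h
        simpa using this
      · refine ⟨σ.symm a, Or.inr ?_⟩
        have := congrArg (List.map σ.symm) h
        simpa using this
    · rintro ⟨a, h | h⟩
      · exact ⟨σ a, Or.inl (by simp [h])⟩
      · exact ⟨σ a, Or.inr (by simp [h])⟩

lemma permIso_root (σ : Equiv.Perm (Fin 3)) : permIso σ root = root := rfl

lemma permIso_single (σ : Equiv.Perm (Fin 3)) (i : Fin 3) :
    permIso σ (single i) = single (σ i) := rfl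

/-! ### Right multiplications -/

/-- append the letter `a` at the root end of the word, or remove it when it is there -/
def Ra (a : Fin 3) (l : List (Fin 3)) : List (Fin 3) :=
  if l.getLast? = some a then l.dropLast else l ++ [a]

lemma Ra_nil (a : Fin 3) : Ra a [] = [a] := by simp [Ra]

lemma Ra_concat (a c : Fin 3) (z : List (Fin 3)) :
    Ra a (z ++ [c]) = if c = a then z else z ++ [c] ++ [a] := by
  simp [Ra]

lemma Ra_cons (a b : Fin 3) (x : List (Fin 3)) (hx : x ≠ []) : Ra a (b :: x) = b :: Ra a x := by
  obtain ⟨z, c, rfl⟩ := List.eq_nil_or_concat' x |>.resolve_left hx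
  have := Ra_concat a c (b :: z)
  rw [List.cons_append] at this
  rw [this, Ra_concat]
  split_ifs <;> simp

lemma Ra_chain (a : Fin 3) {l : List (Fin 3)} (hl : l.IsChain (· ≠ ·)) :
    (Ra a l).IsChain (· ≠ ·) := by
  unfold Ra
  split_ifs with h
  · exact hl.dropLast
  · rw [List.isChain_append]
    refine ⟨hl, by simp, ?_⟩
    intro x hx y hy
    simp only [List.head?_cons, Option.mem_def, Option.some.injEq] at hy
    subst hy
    rintro rfl
    exact h hx

lemma Ra_Ra (a : Fin 3) {l : List (Fin 3)} (hl : l.IsChain (· ≠ ·)) : Ra a (Ra a l) = l := by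
  rcases List.eq_nil_or_concat' l with rfl | ⟨z, c, rfl⟩
  · rw [Ra_nil]
    have := Ra_concat a a []
    simpa using this
  · rw [Ra_concat]
    split_ifs with h
    · subst h
      rcases List.eq_nil_or_concat' z with rfl | ⟨w, d, rfl⟩
      · simp [Ra_nil]
      · rw [Ra_concat, if_neg]
        rintro rfl
        rw [List.append_assoc, List.isChain_append] at hl
        simp at hl
    · rw [Ra_concat, if_pos rfl]

/-- right multiplication by a letter, an automorphism -/
def mulIso (a : Fin 3) : T ≃g T where
  toFun x := ⟨Ra a x.1, Ra_chain a x.2⟩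
  invFun x := ⟨Ra a x.1, Ra_chain a x.2⟩
  left_inv x := Subtype.ext (Ra_Ra a x.2)
  right_inv x := Subtype.ext (Ra_Ra a x.2)
  map_rel_iff' := by
    have key : ∀ x y : V, T.Adj x y →
        T.Adj (⟨Ra a x.1, Ra_chain a x.2⟩ : V) (⟨Ra a y.1, Ra_chain a y.2⟩ : V) := by
      have half : ∀ (x y : V) (b : Fin 3), y.1 = b :: x.1 →
          T.Adj (⟨Ra a x.1, Ra_chain a x.2⟩ : V) (⟨Ra a y.1, Ra_chain a y.2⟩ : V) := by
        intro x y b h
        rw [adj_iff]
        simp only [h]
        by_cases hx : x.1 = []
        · simp only [hx, Ra_nil]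
          have := Ra_concat a b []
          simp only [List.nil_append] at this
          rw [this]
          split_ifs with hb
          · exact ⟨a, Or.inr rfl⟩
          · exact ⟨b, Or.inl rfl⟩
        · exact ⟨b, Or.inl (Ra_cons a b x.1 hx)⟩
      rintro x y ⟨b, h | h⟩
      · exact half x y b h
      · exact (half y x b h).symm
    intro x y
    constructor
    · intro h
      have := key _ _ h
      have e1 : (⟨Ra a (Ra a x.1), Ra_chain a (Ra_chain a x.2)⟩ : V) = x :=
        Subtype.ext (Ra_Ra a x.2)
      have e2 : (⟨Ra a (Ra a y.1), Ra_chain a (Ra_chain a y.2)⟩ : V) = y :=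
        Subtype.ext (Ra_Ra a y.2)
      simp only [Equiv.coe_fn_mk] at this
      rw [e1, e2] at this
      exact this
    · exact key x y

/-- The tree is vertex transitive. -/
theorem exists_iso (x : V) : ∃ γ : T ≃g T, γ root = x := by
  obtain ⟨l, hl⟩ := x
  induction l using List.reverseRecOn with
  | nil => exact ⟨Iso.refl, rfl⟩
  | append_singleton z a ih =>
    have hz : z.IsChain (· ≠ ·) := (List.isChain_append.1 hl).1
    obtain ⟨γ, hγ⟩ := ih hz
    refine ⟨γ.trans (mulIso a), ?_⟩
    rw [RelIso.trans_apply, hγ]
    apply Subtype.ext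
    change Ra a z = z ++ [a]
    unfold Ra
    rw [if_neg]
    intro h
    have := (List.isChain_append.1 hl).2.2 a h a (by simp)
    exact this rfl

/-! ### Distances -/

lemma length_le_of_walk : ∀ {u v : V} (p : T.Walk u v), v.1.length ≤ u.1.length + p.length := by
  intro u v p
  induction p with
  | nil => simp
  | @cons u w v h p ih =>
    rw [Walk.length_cons]
    obtain ⟨a, h | h⟩ := h
    · have := congrArg List.length h
      simp only [List.length_cons] at this
      omega
    · have := congrArg List.length h
      simp only [List.length_cons] at this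
      omega

lemma reachable_root (x : V) : T.Reachable root x := by
  obtain ⟨l, hl⟩ := x
  induction l with
  | nil => exact Reachable.refl _
  | cons a l ih =>
    have hl' : l.IsChain (· ≠ ·) := hl.tail
    refine (ih hl').trans (Adj.reachable ?_)
    exact ⟨a, Or.inl rfl⟩

lemma connected : T.Connected := by
  have : Nonempty V := ⟨root⟩
  exact ⟨fun u v => (reachable_root u).symm.trans (reachable_root v)⟩

lemma length_le_dist (x : V) : x.1.length ≤ T.dist root x := by
  obtain ⟨p, hp⟩ := connected.exists_walk_length_eq_dist root x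
  have := length_le_of_walk p
  rw [hp] at this
  simpa [root] using this

lemma dist_root_le_length (x : V) : T.dist root x ≤ x.1.length := by
  obtain ⟨l, hl⟩ := x
  induction l with
  | nil => 
    have : (⟨[], hl⟩ : V) = root := rfl
    rw [this, SimpleGraph.dist_self]; simp
  | cons a l ih =>
    have hl' : l.IsChain (· ≠ ·) := hl.tail
    have h1 := ih hl'
    have hadj : T.Adj (⟨l, hl'⟩ : V) (⟨a :: l, hl⟩ : V) := ⟨a, Or.inl rfl⟩
    have h2 := connected.dist_triangle (u := root) (v := (⟨l, hl'⟩ : V)) (w := (⟨a :: l, hl⟩ : V))
    have h3 : T.dist (⟨l, hl'⟩ : V) (⟨a :: l, hl⟩ : V) = 1 := dist_eq_one_iff_adj.2 hadj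
    simp only [List.length_cons] at *
    omega

/-- the distance from the root is the length of the word -/
lemma dist_root (x : V) : T.dist root x = x.1.length :=
  le_antisymm (dist_root_le_length x) (length_le_dist x)

lemma iso_dist_le (γ : T ≃g T) (u v : V) : T.dist (γ u) (γ v) ≤ T.dist u v := by
  obtain ⟨p, hp⟩ := connected.exists_walk_length_eq_dist u v
  have := dist_le (p.map γ.toHom)
  rw [Walk.length_map, hp] at this
  exact this

lemma iso_dist (γ : T ≃g T) (u v : V) : T.dist (γ u) (γ v) = T.dist u v := by
  refine le_antisymm (iso_dist_le γ u v) ?_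
  have := iso_dist_le γ.symm (γ u) (γ v)
  simpa using this

/-! ### The graph is a tree in which every vertex has three neighbours -/

theorem isTree : T.IsTree := by
  refine ⟨connected, ?_⟩
  rw [isAcyclic_iff_forall_adj_isBridge]
  have main : ∀ (x y : V) (a : Fin 3), y.1 = a :: x.1 → T.IsBridge s(x, y) := by
    intro x y a h
    rw [isBridge_iff]
    refine fun hr => ?_
    obtain ⟨p⟩ := hr.symm
    have inv : ∀ {u w : V} (q : (T.deleteEdges {s(x, y)}).Walk u w), y.1 <:+ u.1 → y.1 <:+ w.1 := by
      intro u w q
      induction q with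
      | nil => exact id
      | @cons u v w hadj q ih =>
        intro hu
        apply ih
        rw [deleteEdges_adj] at hadj
        obtain ⟨⟨b, hb | hb⟩, hne⟩ := hadj
        · rw [hb]
          exact hu.trans (List.suffix_cons b u.1)
        · rw [hb] at hu
          rcases List.suffix_cons_iff.1 hu with h1 | h1
          · exfalso
            apply hne
            have huy : u = y := Subtype.ext (by rw [hb, h1])
            have : v.1 = x.1 := by
              rw [h] at h1
              exact (List.cons.inj h1).2.symm
            have hvx : v = x := Subtype.ext this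
            rw [huy, hvx]
            simp [Sym2.eq_swap]
          · exact h1
    have hx := inv p (List.suffix_refl _)
    have := hx.length_le
    rw [h] at this
    simp at this
  rintro x y ⟨a, h | h⟩
  · exact main x y a h
  · rw [Sym2.eq_swap]
    exact main y x a h

/-- left multiplication by a letter: the `a`-th neighbour -/
def nb (x : V) (a : Fin 3) : V :=
  if h : x.1.head? = some a then ⟨x.1.tail, x.2.tail⟩
  else ⟨a :: x.1, by
    rw [List.isChain_cons]
    refine ⟨?_, x.2⟩
    intro y hy
    rintro rfl
    exact h hy⟩

lemma nb_injective (x : V) : Function.Injective (nb x) := by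
  intro a b hab
  unfold nb at hab
  have hl := congrArg (fun z : V => z.1) hab
  split_ifs at hl with h1 h2 h2
  · rw [h1] at h2
    exact Option.some.inj h2
  · have := congrArg List.length hl
    simp at this <;> omega
  · have := congrArg List.length hl
    simp at this <;> omega
  · exact (List.cons.inj hl).1

lemma neighborSet_eq (x : V) : T.neighborSet x = Set.range (nb x) := by
  ext y
  rw [mem_neighborSet, Set.mem_range]
  constructor
  · rintro ⟨a, h | h⟩
    · refine ⟨a, ?_⟩
      unfold nb
      rw [dif_neg]
      · exact Subtype.ext h.symm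
      · intro hx
        have hy := y.2
        rw [h, List.isChain_cons] at hy
        exact hy.1 a hx rfl
    · refine ⟨a, ?_⟩
      unfold nb
      rw [dif_pos (by rw [h]; rfl)]
      apply Subtype.ext
      simp [h]
  · rintro ⟨a, rfl⟩
    unfold nb
    split_ifs with h
    · refine ⟨a, Or.inr ?_⟩
      simp only
      cases hx : x.1 with
      | nil => rw [hx] at h; simp at h
      | cons b l =>
        rw [hx] at h
        simp only [List.head?_cons, Option.some.injEq] at h
        rw [h]; rfl
    · exact ⟨a, Or.inl rfl⟩

theorem regular (x : V) : (T.neighborSet x).ncard = 3 := by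
  rw [neighborSet_eq, ← Set.image_univ, Set.ncard_image_of_injective _ (nb_injective x)]
  simp

end Pool.Agent.Q287.T3
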