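import Pool.Agent.Q287.T3

/-! Perfect matchings of the 3-regular tree, balls, and the determination of the root edges by
the edges at a far level. -/

namespace Pool.Agent.Q287.T3

open SimpleGraph

/-- `M` is the edge set of a perfect matching of the tree. -/
def IsPM (M : Set (Sym2 V)) : Prop := M ⊆ T.edgeSet ∧ ∀ v : V, ∃! e, e ∈ M ∧ v ∈ e

/-- the parent of a vertex (the root is its own parent) -/
def parent (x : V) : V := ⟨x.1.tail, x.2.tail⟩

lemma parent_of_cons {x y : V} {b : Fin 3} (h : y.1 = b :: x.1) : parent y = x :=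
  Subtype.ext (by simp [parent, h])

lemma adj_cases {x z : V} (h : T.Adj x z) : z = parent x ∧ x.1 ≠ [] ∨ ∃ b, z.1 = b :: x.1 := by
  obtain ⟨a, h | h⟩ := h
  · exact Or.inr ⟨a, h⟩
  · left
    refine ⟨(parent_of_cons h).symm, by rw [h]; simp⟩

/-- one step inwards: the status of the edge to the parent is determined by the statuses of the
edges to the children -/
lemma step_aux {M M' : Set (Sym2 V)} (hM : IsPM M) (hM' : IsPM M') {x : V}
    (h : ∀ (y : V) (b : Fin 3), y.1 = b :: x.1 → (s(x, y) ∈ M' → s(x, y) ∈ M))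
    (hp : s(x, parent x) ∈ M) : s(x, parent x) ∈ M' := by
  obtain ⟨e, ⟨heM', hxe⟩, -⟩ := hM'.2 x
  obtain ⟨z, rfl⟩ : ∃ z, e = s(x, z) := by
    obtain ⟨z, hz⟩ := Sym2.mem_iff_exists.1 hxe
    exact ⟨z, hz⟩
  have hadj : T.Adj x z := by
    have := hM'.1 heM'
    rwa [mem_edgeSet] at this
  rcases adj_cases hadj with ⟨h1, -⟩ | ⟨b, hb⟩
  · rw [← h1]; exact heM'
  · exfalso
    have hzM := h z b hb heM'
    obtain ⟨e', -, huniq⟩ := hM.2 x
    have e1 := huniq _ ⟨hp, Sym2.mem_mk_left _ _⟩
    have e2 := huniq _ ⟨hzM, Sym2.mem_mk_left _ _⟩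
    have e3 : s(x, parent x) = s(x, z) := e1.trans e2.symm
    rw [Sym2.congr_right] at e3
    have := congrArg (fun v : V => v.1.length) e3
    simp only [parent, hb, List.length_cons, List.length_tail] at this
    omega

lemma step {M M' : Set (Sym2 V)} (hM : IsPM M) (hM' : IsPM M') {x : V}
    (h : ∀ (y : V) (b : Fin 3), y.1 = b :: x.1 → (s(x, y) ∈ M ↔ s(x, y) ∈ M')) :
    s(x, parent x) ∈ M ↔ s(x, parent x) ∈ M' :=
  ⟨step_aux hM hM' (fun y b hb => (h y b hb).2), step_aux hM' hM (fun y b hb => (h y b hb).1)⟩

/-- the words of length `n + 1` with last letter `i`: the `n`-th generation of the `i`-th branch -/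
def desc (i : Fin 3) (n : ℕ) : Set V := {x | x.1.length = n + 1 ∧ x.1.getLast? = some i}

lemma desc_zero {i : Fin 3} {x : V} (hx : x ∈ desc i 0) : x = single i := by
  obtain ⟨h1, h2⟩ := hx
  obtain ⟨a, ha⟩ := List.length_eq_one_iff.1 h1
  apply Subtype.ext
  rw [ha] at h2 ⊢
  simp only [List.getLast?_singleton, Option.some.injEq] at h2
  simp [single, h2]

lemma single_mem_desc (i : Fin 3) : single i ∈ desc i 0 := ⟨rfl, rfl⟩

lemma cons_mem_desc {i : Fin 3} {n : ℕ} {x y : V} {b : Fin 3} (hx : x ∈ desc i n)
    (h : y.1 = b :: x.1) : y ∈ desc i (n + 1) := by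
  obtain ⟨h1, h2⟩ := hx
  refine ⟨by rw [h]; simp [h1], ?_⟩
  rw [h, List.getLast?_cons]
  simp [h2]

/-- Two perfect matchings with the same edges from level `n+1` to level `n` of a branch have the
same status of the root edge of that branch. -/
theorem propagate {M M' : Set (Sym2 V)} (hM : IsPM M) (hM' : IsPM M') (i : Fin 3) :
    ∀ n : ℕ, (∀ x ∈ desc i n, (s(x, parent x) ∈ M ↔ s(x, parent x) ∈ M')) →
      (s(root, single i) ∈ M ↔ s(root, single i) ∈ M') := by
  intro n
  induction n with
  | zero =>
    intro h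
    have := h _ (single_mem_desc i)
    have hp : parent (single i) = root := rfl
    rw [hp, Sym2.eq_swap] at this
    exact this
  | succ n ih =>
    intro h
    apply ih
    intro x hx
    apply step hM hM'
    intro y b hb
    have h1 := h y (cons_mem_desc hx hb)
    rw [parent_of_cons hb, Sym2.eq_swap] at h1
    exact h1

/-! ### Counting -/

/-- the children of a vertex -/
def kids (x : V) : Finset V :=
  (Finset.univ.filter fun b : Fin 3 => (b :: x.1).IsChain (· ≠ ·)).attach.image
    (fun b => (⟨b.1 :: x.1, by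
      have h := b.2
      simp only [Finset.mem_filter, Finset.mem_univ, true_and] at h
      exact h⟩ : V))

lemma mem_kids {x y : V} : y ∈ kids x ↔ ∃ b, y.1 = b :: x.1 := by
  unfold kids
  simp only [Finset.mem_image, Finset.mem_attach, true_and, Subtype.exists, Finset.mem_filter,
    Finset.mem_univ]
  constructor
  · rintro ⟨b, hb, rfl⟩
    exact ⟨b, rfl⟩
  · rintro ⟨b, hb⟩
    refine ⟨b, ?_, ?_⟩
    · rw [← hb]; exact y.2
    · exact Subtype.ext hb.symm

lemma card_kids {x : V} (hx : x.1 ≠ []) : (kids x).card = 2 := by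
  unfold kids
  rw [Finset.card_image_of_injective]
  · rw [Finset.card_attach]
    obtain ⟨l, hl⟩ := x
    cases l with
    | nil => exact absurd rfl hx
    | cons h t =>
      have : (Finset.univ.filter fun b : Fin 3 => (b :: h :: t).IsChain (· ≠ ·)) =
          Finset.univ.filter fun b : Fin 3 => b ≠ h := by
        ext b
        simp only [Finset.mem_filter, Finset.mem_univ, true_and]
        rw [List.isChain_cons_cons]
        exact ⟨fun h' => h'.1, fun h' => ⟨h', hl⟩⟩
      simp only
      rw [this]
      fin_cases h <;> rfl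
  · intro a b hab
    have := congrArg (fun z : V => z.1) hab
    exact Subtype.ext (List.cons.inj this).1

/-- the `n`-th generation of the `i`-th branch, as a finite set -/
def gen (i : Fin 3) : ℕ → Finset V
  | 0 => {single i}
  | n + 1 => (gen i n).biUnion kids

lemma mem_gen {i : Fin 3} {n : ℕ} : ∀ {x : V}, x ∈ gen i n ↔ x ∈ desc i n := by
  induction n with
  | zero =>
    intro x
    simp only [gen, Finset.mem_singleton]
    exact ⟨fun h => h ▸ single_mem_desc i, desc_zero⟩
  | succ n ih =>
    intro x
    simp only [gen, Finset.mem_biUnion]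
    constructor
    · rintro ⟨y, hy, hxy⟩
      obtain ⟨b, hb⟩ := mem_kids.1 hxy
      exact cons_mem_desc (ih.1 hy) hb
    · intro hx
      obtain ⟨h1, h2⟩ := hx
      refine ⟨parent x, ih.2 ⟨?_, ?_⟩, ?_⟩
      · simp [parent, h1]
      · obtain ⟨l, hl⟩ := x
        cases l with
        | nil => simp at h1
        | cons a t =>
          simp only [parent, List.tail_cons]
          cases t with
          | nil => simp at h1
          | cons c t => simpa using h2
      · rw [mem_kids]
        obtain ⟨l, hl⟩ := x
        cases l with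
        | nil => simp at h1
        | cons a t => exact ⟨a, rfl⟩

lemma card_gen (i : Fin 3) (n : ℕ) : (gen i n).card = 2 ^ n := by
  induction n with
  | zero => simp [gen]
  | succ n ih =>
    simp only [gen]
    rw [Finset.card_biUnion]
    · have : ∀ x ∈ gen i n, (kids x).card = 2 := by
        intro x hx
        apply card_kids
        intro h0
        have := (mem_gen.1 hx).1
        rw [h0] at this
        simp at this
      rw [Finset.sum_congr rfl this, Finset.sum_const, ih]
      simp [pow_succ]
    · intro x _ y _ hxy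
      rw [Function.onFun, Finset.disjoint_left]
      intro z hz hz'
      apply hxy
      obtain ⟨b, hb⟩ := mem_kids.1 hz
      obtain ⟨c, hc⟩ := mem_kids.1 hz'
      rw [hb] at hc
      exact Subtype.ext (List.cons.inj hc).2

/-- the ball of radius `r` around the root has at least `2^(r-1)` elements -/
lemma ball_card (n : ℕ) :
    ((2 ^ n : ℕ) : ℕ∞) ≤ {v : V | (T.dist root v : ℕ∞) ≤ ((n + 1 : ℕ) : ℕ∞)}.encard := by
  rw [← card_gen 0 n, ← Set.encard_coe_eq_coe_finsetCard]
  apply Set.encard_le_encard
  intro x hx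
  have := (mem_gen.1 (Finset.mem_coe.1 hx)).1
  simp only [Set.mem_ofPred_eq]
  rw [dist_root, this]

end Pool.Agent.Q287.T3
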