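import Pool.Agent.Q287.T3Match

/-! Finitary codings of perfect matchings of the 3-regular tree: definitions and the proof. -/

namespace Pool.Agent.Q287.T3

open SimpleGraph MeasureTheory Filter Topology
open scoped ENNReal

/-- The labellings of the vertices by elements of `[0,1]`. -/
abbrev Om : Type := V → unitInterval

/-- The law of the i.i.d. uniform labels. -/
noncomputable def mu : Measure Om := Measure.infinitePi (fun _ : V => (volume : Measure unitInterval))

instance : IsProbabilityMeasure mu := by unfold mu; infer_instance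

/-- The action of an automorphism on labellings: `(γ ω)_v = ω_{γ⁻¹ v}`. -/
def act (γ : T ≃g T) (ω : Om) : Om := fun v => ω (γ.symm v)

/-- `Φ` is a factor of i.i.d. whose output is almost surely a perfect matching: each edge event is
measurable, `Φ(γ ω) = γ Φ(ω)` for every automorphism `γ` and almost every `ω`, and the output is
almost surely a perfect matching. -/
structure IsFactorPM (Φ : Om → Set (Sym2 V)) : Prop where
  meas : ∀ e, MeasurableSet {ω | e ∈ Φ ω}
  equivariant : ∀ γ : T ≃g T, ∀ᵐ ω ∂mu, Φ (act γ ω) = Sym2.map γ '' Φ ω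
  matching : ∀ᵐ ω ∂mu, IsPM (Φ ω)

/-- The labels within distance `r` of the root determine the statuses of the three edges at the
root. -/
def Decides (Φ : Om → Set (Sym2 V)) (ω : Om) (r : ℕ) : Prop :=
  ∀ ω' : Om, (∀ v, T.dist root v ≤ r → ω' v = ω v) →
    ∀ v, T.Adj root v → (s(root, v) ∈ Φ ω' ↔ s(root, v) ∈ Φ ω)

/-- The coding radius: the least `r` such that the labels within distance `r` of the root determine
the three edges at the root (`⊤` if there is no such `r`). -/
noncomputable def codingRadius (Φ : Om → Set (Sym2 V)) (ω : Om) : ℕ∞ :=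
  sInf {r : ℕ∞ | ∃ n : ℕ, r = n ∧ Decides Φ ω n}

/-- The number of vertices within distance `R` of the root. -/
noncomputable def ballVolume (R : ℕ∞) : ℝ≥0∞ :=
  (({v : V | (T.dist root v : ℕ∞) ≤ R}.encard : ℕ∞) : ℝ≥0∞)

/-- The coding volume has finite expectation: it is almost surely bounded by a measurable function
with finite integral. -/
def FiniteExpectedCodingVolume (Φ : Om → Set (Sym2 V)) : Prop :=
  ∃ g : Om → ℝ≥0∞, Measurable g ∧ (∀ᵐ ω ∂mu, ballVolume (codingRadius Φ ω) ≤ g ω) ∧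
    ∫⁻ ω, g ω ∂mu < ⊤

/-! ### Auxiliary facts on the coding radius -/

lemma Decides.mono {Φ : Om → Set (Sym2 V)} {ω : Om} {r r' : ℕ} (h : Decides Φ ω r) (hr : r ≤ r') :
    Decides Φ ω r' :=
  fun ω' hω' => h ω' (fun v hv => hω' v (hv.trans hr))

lemma decides_of_not_lt {Φ : Om → Set (Sym2 V)} {ω : Om} {r : ℕ}
    (h : ¬ ((r : ℕ∞) < codingRadius Φ ω)) : Decides Φ ω r := by
  rw [not_lt] at h
  unfold codingRadius at h
  have hne : {r : ℕ∞ | ∃ n : ℕ, r = n ∧ Decides Φ ω n}.Nonempty := by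
    by_contra hcon
    rw [Set.not_nonempty_iff_eq_empty] at hcon
    rw [hcon, sInf_empty] at h
    exact absurd h (by simp)
  obtain ⟨n, hn, hdec⟩ := csInf_mem hne
  rw [hn] at h
  exact hdec.mono (by exact_mod_cast h)

/-! ### Measure preserving maps -/

/-- reindexing -/
def reidx (e : V ≃ V) : Om ≃ᵐ Om where
  toFun ω := fun v => ω (e v)
  invFun ω := fun v => ω (e.symm v)
  left_inv ω := by funext v; simp
  right_inv ω := by funext v; simp
  measurable_toFun := by
    apply measurable_pi_lambda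
    intro v
    exact measurable_pi_apply _
  measurable_invFun := by
    apply measurable_pi_lambda
    intro v
    exact measurable_pi_apply _

lemma map_reidx (e : V ≃ V) : mu.map (reidx e) = mu := by
  classical
  apply Measure.eq_infinitePi
  intro s t ht
  have hte : ∀ w, t (e.symm (e w)) = t w := fun w => congrArg t (e.symm_apply_apply w)
  rw [MeasurableEquiv.map_apply]
  have : (reidx e) ⁻¹' ((s : Set V).pi t) =
      ((s.map e.toEmbedding : Finset V) : Set V).pi (fun v => t (e.symm v)) := by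
    ext ω
    simp only [Set.mem_preimage, Set.mem_pi, Finset.mem_coe, Finset.mem_map,
      Equiv.coe_toEmbedding, forall_exists_index, and_imp]
    constructor
    · rintro h v w hw rfl
      rw [hte]
      exact h w hw
    · intro h w hw
      have := h (e w) w hw rfl
      rw [hte] at this
      exact this
  rw [this]
  unfold mu
  rw [Measure.infinitePi_pi _ (fun i _ => ht _), Finset.prod_map]
  refine Finset.prod_congr rfl fun w _ => ?_
  change volume (t (e.symm (e w))) = _
  rw [hte]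

lemma measure_reidx (e : V ≃ V) (S : Set Om) : mu {ω | (fun v => ω (e v)) ∈ S} = mu S := by
  conv_rhs => rw [← map_reidx e, MeasurableEquiv.map_apply]
  rfl

lemma ae_reidx (e : V ≃ V) {P : Om → Prop} (h : ∀ᵐ ω ∂mu, P ω) : ∀ᵐ ω ∂mu, P (fun v => ω (e v)) := by
  rw [ae_iff] at h ⊢
  rw [← h]
  exact measure_reidx e {ω | ¬ P ω}

/-- merging two labellings: the second one within distance `k` of the root, the first one outside -/
noncomputable def merge (k : ℕ) (p : Om × Om) : Om :=
  fun v => if T.dist root v ≤ k then p.2 v else p.1 v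

lemma measurable_merge (k : ℕ) : Measurable (merge k) := by
  apply measurable_pi_lambda
  intro v
  unfold merge
  by_cases h : T.dist root v ≤ k
  · simp only [h, if_true]
    exact (measurable_pi_apply v).comp measurable_snd
  · simp only [h, if_false]
    exact (measurable_pi_apply v).comp measurable_fst

lemma map_merge (k : ℕ) : (mu.prod mu).map (merge k) = mu := by
  classical
  apply Measure.eq_infinitePi
  intro s t ht
  rw [Measure.map_apply (measurable_merge k) (.pi s.countable_toSet fun _ _ ↦ ht _)]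
  have : (merge k) ⁻¹' ((s : Set V).pi t) =
      (((s.filter fun v => ¬ T.dist root v ≤ k : Finset V) : Set V).pi t) ×ˢ
      (((s.filter fun v => T.dist root v ≤ k : Finset V) : Set V).pi t) := by
    ext p
    simp only [Set.mem_preimage, Set.mem_pi, Finset.mem_coe, Set.mem_prod, Finset.mem_filter,
      merge]
    constructor
    · intro h
      refine ⟨fun v hv => ?_, fun v hv => ?_⟩
      · have := h v hv.1
        rwa [if_neg hv.2] at this
      · have := h v hv.1
        rwa [if_pos hv.2] at this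
    · rintro ⟨h1, h2⟩ v hv
      split_ifs with h
      · exact h2 v ⟨hv, h⟩
      · exact h1 v ⟨hv, h⟩
  rw [this, Measure.prod_prod]
  unfold mu
  rw [Measure.infinitePi_pi _ (fun i _ => ht _), Measure.infinitePi_pi _ (fun i _ => ht _)]
  rw [mul_comm]
  exact Finset.prod_filter_mul_prod_filter_not s _ _

lemma ae_merge (k : ℕ) {P : Om → Prop} (h : ∀ᵐ ω ∂mu, P ω) :
    ∀ᵐ p ∂(mu.prod mu), P (merge k p) := by
  rw [← map_merge k] at h
  exact ae_of_ae_map (measurable_merge k).aemeasurable h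

lemma ae_fst {P : Om → Prop} (h : ∀ᵐ ω ∂mu, P ω) : ∀ᵐ p ∂(mu.prod mu), P p.1 :=
  Measure.quasiMeasurePreserving_fst.ae h

lemma ae_snd {P : Om → Prop} (h : ∀ᵐ ω ∂mu, P ω) : ∀ᵐ p ∂(mu.prod mu), P p.2 :=
  Measure.quasiMeasurePreserving_snd.ae h

lemma measure_fst_le (S : Set Om) : (mu.prod mu) {p | p.1 ∈ S} ≤ mu S := by
  calc (mu.prod mu) {p | p.1 ∈ S} ≤ (mu.prod mu) ((toMeasurable mu S) ×ˢ Set.univ) := by
        apply measure_mono
        intro p hp
        exact ⟨subset_toMeasurable mu S hp, trivial⟩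
    _ = mu S := by rw [Measure.prod_prod, measure_toMeasurable, measure_univ, mul_one]

lemma measure_snd_le (S : Set Om) : (mu.prod mu) {p | p.2 ∈ S} ≤ mu S := by
  calc (mu.prod mu) {p | p.2 ∈ S} ≤ (mu.prod mu) (Set.univ ×ˢ (toMeasurable mu S)) := by
        apply measure_mono
        intro p hp
        exact ⟨trivial, subset_toMeasurable mu S hp⟩
    _ = mu S := by rw [Measure.prod_prod, measure_toMeasurable, measure_univ, one_mul]

/-! ### The main estimate -/

/-- the edges at `x` read off the configuration seen from `x` -/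
lemma mem_at {Φ : Om → Set (Sym2 V)} {γ : T ≃g T} {ω : Om}
    (h : Φ ω = Sym2.map γ '' Φ (fun v => ω (γ v))) (y : V) :
    s(γ root, y) ∈ Φ ω ↔ s(root, γ.symm y) ∈ Φ (fun v => ω (γ v)) := by
  rw [h]
  constructor
  · rintro ⟨e, he, heq⟩
    have : e = s(root, γ.symm y) := by
      apply Sym2.map.injective γ.injective
      rw [heq]
      simp
    rwa [← this]
  · intro h'
    exact ⟨_, h', by simp⟩

lemma ae_seen {Φ : Om → Set (Sym2 V)} (hΦ : IsFactorPM Φ) (γ : T ≃g T) :
    ∀ᵐ ω ∂mu, Φ ω = Sym2.map γ '' Φ (fun v => ω (γ v)) := by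
  have h := ae_reidx γ.toEquiv (hΦ.equivariant γ)
  filter_upwards [h] with ω hω
  have e : act γ (fun v => ω (γ.toEquiv v)) = ω := by
    funext v
    simp [act]
  rw [e] at hω
  exact hω

/-- the automorphisms moving the root to a given vertex -/
noncomputable def tr (x : V) : T ≃g T := (exists_iso x).choose

lemma tr_root (x : V) : tr x root = x := (exists_iso x).choose_spec

/-- deterministic part of the argument -/
lemma deterministic {Φ : Om → Set (Sym2 V)} {ω ω' : Om} {i : Fin 3} {n r : ℕ}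
    (h1 : IsPM (Φ ω)) (h2 : IsPM (Φ ω'))
    (h3 : ∀ x, Φ ω = Sym2.map (tr x) '' Φ (fun v => ω (tr x v)))
    (h4 : ∀ x, Φ ω' = Sym2.map (tr x) '' Φ (fun v => ω' (tr x v)))
    (hr : ∀ x ∈ gen i n, Decides Φ (fun v => ω (tr x v)) r)
    (hagree : ∀ x ∈ gen i n, ∀ v, T.dist x v ≤ r → ω' v = ω v) :
    (s(root, single i) ∈ Φ ω ↔ s(root, single i) ∈ Φ ω') := by
  apply propagate h1 h2 i n
  intro x hx
  have hx' := mem_gen.2 hx
  have e1 := mem_at (h3 x) (parent x)
  have e2 := mem_at (h4 x) (parent x)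
  rw [tr_root] at e1 e2
  rw [e1, e2]
  have hadj : T.Adj x (parent x) := by
    have hlen := hx.1
    obtain ⟨l, hl⟩ := x
    cases l with
    | nil => simp at hlen
    | cons a t => exact ⟨a, Or.inr rfl⟩
  have hadj' : T.Adj root ((tr x).symm (parent x)) := by
    rw [← (tr x).map_adj_iff]
    rw [tr_root]
    simpa using hadj
  symm
  apply hr x hx' (fun v => ω' (tr x v)) _ _ hadj'
  intro v hv
  apply hagree x hx'
  rw [← iso_dist (tr x), tr_root] at hv
  exact hv

lemma main_bound {Φ : Om → Set (Sym2 V)} (hΦ : IsFactorPM Φ) (i : Fin 3) (k r : ℕ) :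
    (mu.prod mu) {p | ¬ (s(root, single i) ∈ Φ p.1 ↔ s(root, single i) ∈ Φ p.2)} ≤
      mu {ω | (k : ℕ∞) < codingRadius Φ ω} +
        2 ^ (k + r) * mu {ω | (r : ℕ∞) < codingRadius Φ ω} := by
  have hseen : ∀ᵐ ω ∂mu, ∀ x, Φ ω = Sym2.map (tr x) '' Φ (fun v => ω (tr x v)) := by
    rw [ae_all_iff]
    exact fun x => ae_seen hΦ (tr x)
  have hgood : ∀ᵐ p ∂(mu.prod mu),
      ¬ (s(root, single i) ∈ Φ p.1 ↔ s(root, single i) ∈ Φ p.2) →
      p ∈ {p : Om × Om | p.2 ∈ {ω | (k : ℕ∞) < codingRadius Φ ω}} ∪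
        ⋃ x ∈ gen i (k + r), {p : Om × Om | p.1 ∈ {ω : Om | (fun v => ω (tr x v)) ∈
          {ω | (r : ℕ∞) < codingRadius Φ ω}}} := by
    filter_upwards [ae_fst hΦ.matching, ae_merge k hΦ.matching, ae_fst hseen, ae_merge k hseen]
      with p h1 h2 h3 h4 hne
    by_contra hcon
    rw [Set.mem_union, not_or] at hcon
    obtain ⟨hc1, hc2⟩ := hcon
    have hc2' : ∀ x ∈ gen i (k + r), ¬ ((r : ℕ∞) < codingRadius Φ (fun v => p.1 (tr x v))) := by
      intro x hx hlt
      apply hc2
      rw [Set.mem_iUnion₂]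
      exact ⟨x, hx, hlt⟩
    apply hne
    have hdet := deterministic (i := i) (n := k + r) (r := r) h1 h2 h3 h4
      (fun x hx => decides_of_not_lt (hc2' x hx)) (by
        intro x hx v hv
        unfold merge
        rw [if_neg]
        intro hle
        have hlen := (mem_gen.1 hx).1
        have hd : T.dist root x = k + r + 1 := by rw [dist_root, hlen]
        have htri := connected.dist_triangle (u := root) (v := v) (w := x)
        rw [T.dist_comm (u := v) (v := x)] at htri
        omega)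
    rw [hdet]
    have hdec := decides_of_not_lt hc1
    exact hdec (merge k p) (fun v hv => by unfold merge; rw [if_pos hv]) (single i)
      (adj_root_iff.2 ⟨i, rfl⟩)
  calc (mu.prod mu) {p | ¬ (s(root, single i) ∈ Φ p.1 ↔ s(root, single i) ∈ Φ p.2)}
      ≤ (mu.prod mu) ({p : Om × Om | p.2 ∈ {ω | (k : ℕ∞) < codingRadius Φ ω}} ∪
        ⋃ x ∈ gen i (k + r), {p : Om × Om | p.1 ∈ {ω : Om | (fun v => ω (tr x v)) ∈
          {ω | (r : ℕ∞) < codingRadius Φ ω}}}) := measure_mono_ae hgood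
    _ ≤ (mu.prod mu) {p : Om × Om | p.2 ∈ {ω | (k : ℕ∞) < codingRadius Φ ω}} +
        (mu.prod mu) (⋃ x ∈ gen i (k + r), {p : Om × Om | p.1 ∈ {ω : Om | (fun v => ω (tr x v)) ∈
          {ω | (r : ℕ∞) < codingRadius Φ ω}}}) := measure_union_le _ _
    _ ≤ mu {ω | (k : ℕ∞) < codingRadius Φ ω} +
        ∑ x ∈ gen i (k + r), (mu.prod mu) {p : Om × Om | p.1 ∈ {ω : Om | (fun v => ω (tr x v)) ∈
          {ω | (r : ℕ∞) < codingRadius Φ ω}}} :=
      add_le_add (measure_snd_le _) (measure_biUnion_finset_le _ _)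
    _ ≤ mu {ω | (k : ℕ∞) < codingRadius Φ ω} +
        ∑ x ∈ gen i (k + r), mu {ω | (r : ℕ∞) < codingRadius Φ ω} := by
      gcongr with x hx
      refine (measure_fst_le _).trans (le_of_eq ?_)
      exact measure_reidx (tr x).toEquiv _
    _ = _ := by
      rw [Finset.sum_const, card_gen, nsmul_eq_mul]
      push_cast
      rfl

/-- If the tail of the coding radius is not bounded below by `c 2^{-r}`, the root edges are
deterministic. -/
lemma zero_or_one {Φ : Om → Set (Sym2 V)} (hΦ : IsFactorPM Φ)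
    (h : ∀ c : ℝ≥0∞, 0 < c → ∃ r : ℕ, 2 ^ r * mu {ω | (r : ℕ∞) < codingRadius Φ ω} < c)
    (i : Fin 3) :
    mu {ω | s(root, single i) ∈ Φ ω} = 0 ∨ mu {ω | s(root, single i) ∈ Φ ω}ᶜ = 0 := by
  have hzero : (mu.prod mu) {p | ¬ (s(root, single i) ∈ Φ p.1 ↔ s(root, single i) ∈ Φ p.2)} = 0 := by
    by_contra hne
    set q := (mu.prod mu) {p | ¬ (s(root, single i) ∈ Φ p.1 ↔ s(root, single i) ∈ Φ p.2)} with hq
    have hqpos : 0 < q := pos_iff_ne_zero.2 hne
    have hqfin : q ≠ ⊤ := measure_ne_top _ _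
    obtain ⟨k, hk⟩ := h (q / 2) (ENNReal.div_pos hne (by simp))
    have hk' : mu {ω | (k : ℕ∞) < codingRadius Φ ω} < q / 2 := by
      refine lt_of_le_of_lt ?_ hk
      calc mu {ω | (k : ℕ∞) < codingRadius Φ ω} = 1 * mu {ω | (k : ℕ∞) < codingRadius Φ ω} := by
            rw [one_mul]
        _ ≤ _ := by
            gcongr
            exact one_le_pow₀ (by norm_num)
    obtain ⟨r, hr⟩ := h (q / 2 / 2 ^ k) (ENNReal.div_pos
      (ENNReal.div_pos hne (by simp)).ne' (by simp))
    have hr' : 2 ^ (k + r) * mu {ω | (r : ℕ∞) < codingRadius Φ ω} < q / 2 := by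
      rw [pow_add, mul_assoc, mul_comm]
      exact (ENNReal.lt_div_iff_mul_lt (Or.inl (by simp)) (Or.inl (by simp))).1 hr
    have := main_bound hΦ i k r
    have h2 : q < q / 2 + q / 2 := lt_of_le_of_lt this (ENNReal.add_lt_add hk' hr')
    rw [ENNReal.add_halves] at h2
    exact lt_irrefl _ h2
  have hprod : (mu.prod mu) ({ω | s(root, single i) ∈ Φ ω} ×ˢ {ω | s(root, single i) ∈ Φ ω}ᶜ) = 0 := by
    refine measure_mono_null ?_ hzero
    rintro ⟨a, b⟩ ⟨h1, h2⟩ hiff
    exact h2 (hiff.1 h1)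
  rw [Measure.prod_prod, mul_eq_zero] at hprod
  exact hprod

lemma symm_prob {Φ : Om → Set (Sym2 V)} (hΦ : IsFactorPM Φ) (σ : Equiv.Perm (Fin 3)) (i : Fin 3)
    (S : Set Prop) :
    mu {ω | (s(root, single (σ i)) ∈ Φ ω) ∈ S} = mu {ω | (s(root, single i) ∈ Φ ω) ∈ S} := by
  have h1 := measure_reidx (permIso σ).symm.toEquiv {ω | (s(root, single (σ i)) ∈ Φ ω) ∈ S}
  rw [← h1]
  apply measure_congr
  have h2 := hΦ.equivariant (permIso σ)
  filter_upwards [h2] with ω hω
  have e : (fun v => ω ((permIso σ).symm.toEquiv v)) = act (permIso σ) ω := rfl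
  have e2 : (s(root, single (σ i)) ∈ Φ (act (permIso σ) ω)) = (s(root, single i) ∈ Φ ω) := by
    rw [hω]
    apply propext
    constructor
    · rintro ⟨e', he', heq⟩
      have : e' = s(root, single i) := by
        apply Sym2.map.injective (permIso σ).injective
        rw [heq]
        rfl
      rwa [← this]
    · intro h'
      exact ⟨_, h', rfl⟩
  change ((fun v => ω ((permIso σ).symm.toEquiv v)) ∈
    {ω | (s(root, single (σ i)) ∈ Φ ω) ∈ S}) = _
  rw [e]
  change ((s(root, single (σ i)) ∈ Φ (act (permIso σ) ω)) ∈ S) = _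
  rw [e2]
  rfl

/-- The tail of the coding radius is at least `c 2^{-r}`. -/
theorem tail_lower_bound {Φ : Om → Set (Sym2 V)} (hΦ : IsFactorPM Φ) :
    ∃ c : ℝ≥0∞, 0 < c ∧ ∀ r : ℕ, c ≤ 2 ^ r * mu {ω | (r : ℕ∞) < codingRadius Φ ω} := by
  by_contra hcon
  push Not at hcon
  have h01 := zero_or_one hΦ hcon
  have hall : ∀ i, mu {ω | s(root, single i) ∈ Φ ω} = mu {ω | s(root, single 0) ∈ Φ ω} := by
    intro i
    have := symm_prob hΦ (Equiv.swap 0 i) 0 {p | p}
    simpa using this
  have hall' : ∀ i, mu {ω | s(root, single i) ∈ Φ ω}ᶜ = mu {ω | s(root, single 0) ∈ Φ ω}ᶜ := by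
    intro i
    have := symm_prob hΦ (Equiv.swap 0 i) 0 {p | ¬ p}
    rw [Equiv.swap_apply_left] at this
    exact this
  rcases h01 0 with h0 | h0
  · have hne : ∀ᵐ ω ∂mu, ∀ i, s(root, single i) ∉ Φ ω := by
      rw [ae_all_iff]
      intro i
      rw [ae_iff]
      simp only [not_not]
      rw [hall i, h0]
    obtain ⟨ω, h1, h2⟩ := (hne.and hΦ.matching).exists
    obtain ⟨e, ⟨he, hr⟩, -⟩ := h2.2 root
    obtain ⟨z, rfl⟩ := Sym2.mem_iff_exists.1 hr
    have hadj : T.Adj root z := by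
      have := h2.1 he
      rwa [mem_edgeSet] at this
    obtain ⟨i, rfl⟩ := adj_root_iff.1 hadj
    exact h1 i he
  · have hne : ∀ᵐ ω ∂mu, ∀ i, s(root, single i) ∈ Φ ω := by
      rw [ae_all_iff]
      intro i
      rw [ae_iff]
      have := hall' i
      rw [h0] at this
      exact this
    obtain ⟨ω, h1, h2⟩ := (hne.and hΦ.matching).exists
    obtain ⟨e, -, huniq⟩ := h2.2 root
    have e0 := huniq _ ⟨h1 0, Sym2.mem_mk_left _ _⟩
    have e1 := huniq _ ⟨h1 1, Sym2.mem_mk_left _ _⟩
    have e3 : s(root, single 0) = s(root, single 1) := e0.trans e1.symm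
    rw [Sym2.congr_right] at e3
    have := congrArg (fun v : V => v.1) e3
    simp [single] at this

/-- The coding volume has infinite expectation. -/
theorem infinite_expected_volume {Φ : Om → Set (Sym2 V)} (hΦ : IsFactorPM Φ) :
    ¬ FiniteExpectedCodingVolume Φ := by
  rintro ⟨g, hg, hle, hint⟩
  obtain ⟨c, hc, hlow⟩ := tail_lower_bound hΦ
  have htail : ∀ r : ℕ, mu {ω | (r : ℕ∞) < codingRadius Φ ω} ≤ mu {ω | (2 : ℝ≥0∞) ^ r ≤ g ω} := by
    intro r
    apply measure_mono_ae
    filter_upwards [hle] with ω hω hr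
    change (2 : ℝ≥0∞) ^ r ≤ g ω
    refine le_trans ?_ hω
    have h1 : ((r + 1 : ℕ) : ℕ∞) ≤ codingRadius Φ ω := by
      have : (r : ℕ∞) < codingRadius Φ ω := hr
      have := Order.add_one_le_of_lt this
      exact_mod_cast this
    have h2 : ((2 ^ r : ℕ) : ℕ∞) ≤
        {v : V | (T.dist root v : ℕ∞) ≤ codingRadius Φ ω}.encard :=
      (ball_card r).trans (Set.encard_le_encard (fun v hv => le_trans hv h1))
    unfold ballVolume
    calc (2 : ℝ≥0∞) ^ r = (((2 ^ r : ℕ) : ℕ∞) : ℝ≥0∞) := by push_cast; simp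
      _ ≤ _ := by exact_mod_cast h2
  have hmarkov : ∀ r : ℕ, (2 : ℝ≥0∞) ^ r * mu {ω | (2 : ℝ≥0∞) ^ r ≤ g ω} ≤
      ∫⁻ ω in {ω | (2 : ℝ≥0∞) ^ r ≤ g ω}, g ω ∂mu := by
    intro r
    have hm : MeasurableSet {ω | (2 : ℝ≥0∞) ^ r ≤ g ω} := measurableSet_le measurable_const hg
    have := mul_meas_ge_le_lintegral (μ := mu.restrict {ω | (2 : ℝ≥0∞) ^ r ≤ g ω}) hg (2 ^ r)
    rw [Measure.restrict_apply_self] at this
    exact this
  have hto0 : Tendsto (fun r : ℕ => mu {ω | (2 : ℝ≥0∞) ^ r ≤ g ω}) atTop (𝓝 0) := by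
    have h1 : ∀ r : ℕ, mu {ω | (2 : ℝ≥0∞) ^ r ≤ g ω} ≤ (∫⁻ ω, g ω ∂mu) / 2 ^ r := by
      intro r
      rw [ENNReal.le_div_iff_mul_le (Or.inl (by simp)) (Or.inl (by simp)), mul_comm]
      exact mul_meas_ge_le_lintegral hg _
    have h2 : Tendsto (fun r : ℕ => (∫⁻ ω, g ω ∂mu) / 2 ^ r) atTop (𝓝 0) := by
      have h3 : Tendsto (fun r : ℕ => ((2 : ℝ≥0∞) ^ r)⁻¹) atTop (𝓝 0) := by
        have := ENNReal.tendsto_pow_atTop_nhds_zero_of_lt_one
          (r := (2 : ℝ≥0∞)⁻¹) (by rw [ENNReal.inv_lt_one]; norm_num)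
        simpa [ENNReal.inv_pow] using this
      have := ENNReal.Tendsto.const_mul (a := ∫⁻ ω, g ω ∂mu) h3 (Or.inr hint.ne)
      simpa [div_eq_mul_inv] using this
    exact tendsto_of_tendsto_of_tendsto_of_le_of_le tendsto_const_nhds h2
      (fun _ => zero_le) h1
  have hlim := tendsto_setLIntegral_zero (μ := mu) hint.ne hto0
  have hcle : ∀ r : ℕ, c ≤ ∫⁻ ω in {ω | (2 : ℝ≥0∞) ^ r ≤ g ω}, g ω ∂mu := by
    intro r
    refine (hlow r).trans (le_trans ?_ (hmarkov r))
    exact mul_le_mul' le_rfl (htail r)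
  have := ge_of_tendsto' hlim hcle
  exact absurd (lt_of_lt_of_le hc this) (lt_irrefl _)

end Pool.Agent.Q287.T3
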